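import Mathlib

/-! MODULE A1: the Weierstrass function of one lattice. -/

set_option autoImplicit false

open Complex Metric Set Filter Topology

namespace Pool.Agent.T05

/-- Uniqueness for `h'' = k h`. -/
theorem ode_zero {h k : ℂ → ℂ} {x : ℂ} (hh : AnalyticAt ℂ h x) (hk : AnalyticAt ℂ k x)
    (hode : ∀ᶠ z in 𝓝 x, deriv (deriv h) z = k z * h z) (h0 : h x = 0) (h1 : deriv h x = 0) :
    ∀ᶠ z in 𝓝 x, h z = 0 := by
  rw [← analyticOrderAt_eq_top]
  by_contra hne
  have e1 : analyticOrderAt (deriv h) x + 1 = analyticOrderAt h x := by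
    simpa [h0] using hh.analyticOrderAt_deriv_add_one
  have e2 : analyticOrderAt (deriv (deriv h)) x + 1 = analyticOrderAt (deriv h) x := by
    simpa [h1] using hh.deriv.analyticOrderAt_deriv_add_one
  have e3 : analyticOrderAt (deriv (deriv h)) x = analyticOrderAt k x + analyticOrderAt h x := by
    rw [← analyticOrderAt_mul hk hh]
    exact analyticOrderAt_congr hode
  have e4 : analyticOrderAt (deriv (deriv h)) x ≠ ⊤ := by
    intro h
    rw [h, top_add] at e2
    rw [← e2, top_add] at e1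
    exact hne e1.symm
  generalize analyticOrderAt (deriv (deriv h)) x = n2 at *
  generalize analyticOrderAt (deriv h) x = n1 at *
  generalize analyticOrderAt h x = n0 at *
  generalize analyticOrderAt k x = nk at *
  subst e2
  subst e1
  lift n2 to ℕ using e4
  rcases nk with _ | nk
  · change ((n2 : ℕ) : ℕ∞) = ⊤ + _ at e3
    rw [top_add] at e3
    exact absurd e3 (ENat.natCast_ne_top _)
  · change ((n2 : ℕ) : ℕ∞) = (nk : ℕ∞) + _ at e3
    norm_cast at e3
    omega

theorem lattice_countable (L : PeriodPair) : ((L.lattice : Set ℂ)).Countable :=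
  countable_of_Lindelof_of_discrete (X := L.lattice)

theorem compl_preconn (L : PeriodPair) : IsPreconnected ((L.lattice : Set ℂ)ᶜ) :=
  (Set.Countable.isConnected_compl_of_one_lt_rank (by simp) (lattice_countable L)).2

theorem wp_analytic (L : PeriodPair) {z : ℂ} (hz : z ∉ L.lattice) :
    AnalyticAt ℂ L.weierstrassP z :=
  L.analyticOnNhd_weierstrassP _ hz

/-- `℘` tends to infinity at the lattice points. -/
theorem wp_tendsto (L : PeriodPair) {l : ℂ} (hl : l ∈ L.lattice) :
    Tendsto (fun z => ‖L.weierstrassP z‖) (𝓝[≠] l) atTop := by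
  have h1 : Tendsto L.weierstrassP (𝓝[≠] l) (Bornology.cobounded ℂ) := by
    rw [tendsto_cobounded_iff_meromorphicOrderAt_neg (L.meromorphic_weierstrassP l)]
    rw [L.order_weierstrassP l hl]
    decide
  exact tendsto_norm_cobounded_atTop.comp h1

theorem compl_open (L : PeriodPair) : IsOpen ((L.lattice : Set ℂ)ᶜ) :=
  L.isClosed_lattice.isOpen_compl

/-- `℘` is bounded near every point off the lattice, so it is not bounded near lattice points. -/
theorem wp_not_tendsto (L : PeriodPair) {z : ℂ} (hz : z ∉ L.lattice) :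
    ¬ Tendsto (fun z => ‖L.weierstrassP z‖) (𝓝[≠] z) atTop := by
  intro h
  have h1 : Tendsto (fun z => ‖L.weierstrassP z‖) (𝓝[≠] z) (𝓝 ‖L.weierstrassP z‖) :=
    ((wp_analytic L hz).continuousAt.norm.tendsto).mono_left nhdsWithin_le_nhds
  exact not_tendsto_nhds_of_tendsto_atTop h _ h1

/-- The derivative is not identically zero near any point off the lattice. -/
theorem wp_deriv_freq (L : PeriodPair) {z : ℂ} (hz : z ∉ L.lattice) :
    ¬ ∀ᶠ w in 𝓝 z, L.derivWeierstrassP w = 0 := by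
  intro h
  have h1 : EqOn L.derivWeierstrassP 0 ((L.lattice : Set ℂ)ᶜ) :=
    L.analyticOnNhd_derivWeierstrassP.eqOn_zero_of_preconnected_of_eventuallyEq_zero
      (compl_preconn L) hz h
  have h2 : ∀ w ∈ ((L.lattice : Set ℂ)ᶜ), L.weierstrassP w = L.weierstrassP z := by
    intro w hw
    have := (compl_open L).is_const_of_deriv_eq_zero (compl_preconn L)
      (L.differentiableOn_weierstrassP) (fun x hx => by
        rw [L.deriv_weierstrassP]; exact h1 hx) hw hz
    exact this
  have h3 : Tendsto (fun z => ‖L.weierstrassP z‖) (𝓝[≠] (0 : ℂ)) atTop :=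
    wp_tendsto L (zero_mem _)
  have h4 : ∀ᶠ w in 𝓝[≠] (0 : ℂ), w ∈ ((L.lattice : Set ℂ)ᶜ) := by
    have := L.compl_lattice_sdiff_singleton_mem_nhds 0
    rw [eventually_nhdsWithin_iff]
    filter_upwards [this] with w hw hw0 hwl
    exact hw ⟨hwl, hw0⟩
  have h5 : Tendsto (fun z => ‖L.weierstrassP z‖) (𝓝[≠] (0 : ℂ)) (𝓝 ‖L.weierstrassP z‖) := by
    apply tendsto_const_nhds.congr'
    filter_upwards [h4] with w hw
    rw [h2 w hw]
  exact not_tendsto_nhds_of_tendsto_atTop h3 _ h5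

/-- `℘'' = 6 ℘² - g₂ / 2`. -/
theorem wp_ode2 (L : PeriodPair) {z : ℂ} (hz : z ∉ L.lattice) :
    deriv L.derivWeierstrassP z = 6 * L.weierstrassP z ^ 2 - L.g₂ / 2 := by
  have hA : AnalyticOnNhd ℂ (fun z => L.derivWeierstrassP z) ((L.lattice : Set ℂ)ᶜ) :=
    L.analyticOnNhd_derivWeierstrassP
  have hB : AnalyticOnNhd ℂ (fun z => 2 * (deriv L.derivWeierstrassP z -
      (6 * L.weierstrassP z ^ 2 - L.g₂ / 2))) ((L.lattice : Set ℂ)ᶜ) := by
    intro w hw
    have h1 := (L.analyticOnNhd_derivWeierstrassP w hw).deriv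
    have h2 := wp_analytic L hw
    fun_prop
  have hAB : ∀ w ∈ ((L.lattice : Set ℂ)ᶜ), L.derivWeierstrassP w * (2 * (deriv L.derivWeierstrassP w -
      (6 * L.weierstrassP w ^ 2 - L.g₂ / 2))) = 0 := by
    intro w hw
    have h1 : HasDerivAt L.weierstrassP (L.derivWeierstrassP w) w := by
      have := (wp_analytic L hw).differentiableAt.hasDerivAt
      rwa [L.deriv_weierstrassP] at this
    have h2 : HasDerivAt L.derivWeierstrassP (deriv L.derivWeierstrassP w) w :=
      (L.analyticOnNhd_derivWeierstrassP w hw).differentiableAt.hasDerivAt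
    have h3 := (h2.pow 2)
    have h4 := (((h1.pow 3).const_mul 4).sub (h1.const_mul L.g₂)).sub_const L.g₃
    have h5 : (fun z => L.derivWeierstrassP z ^ 2) =ᶠ[𝓝 w]
        (fun z => 4 * L.weierstrassP z ^ 3 - L.g₂ * L.weierstrassP z - L.g₃) := by
      filter_upwards [(compl_open L).mem_nhds hw] with y hy
      exact L.derivWeierstrassP_sq y hy
    have h6 := h5.deriv_eq
    have h7 := h3.deriv
    have h8 := h4.deriv
    have h9 : deriv (fun z => L.derivWeierstrassP z ^ 2) w
      = ↑2 * L.derivWeierstrassP w ^ (2 - 1) * deriv L.derivWeierstrassP w := h7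
    have h10 : deriv (fun z => 4 * L.weierstrassP z ^ 3 - L.g₂ * L.weierstrassP z - L.g₃) w
      = 4 * (↑3 * L.weierstrassP w ^ (3 - 1) * L.derivWeierstrassP w) -
        L.g₂ * L.derivWeierstrassP w := h8
    rw [h9, h10] at h6
    norm_num at h6
    linear_combination h6
  by_contra hne
  have hz' : z ∈ ((L.lattice : Set ℂ)ᶜ) := hz
  have hne' : ∀ᶠ w in 𝓝 z, 2 * (deriv L.derivWeierstrassP w -
      (6 * L.weierstrassP w ^ 2 - L.g₂ / 2)) ≠ 0 := by
    have hc := (hB z hz').continuousAt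
    apply hc.eventually_ne
    simpa [sub_eq_zero] using hne
  apply wp_deriv_freq L hz
  filter_upwards [hne', (compl_open L).mem_nhds hz'] with w h1 h2
  exact (mul_eq_zero.mp (hAB w h2)).resolve_right h1

/-- punctured neighbourhoods avoid the lattice -/
theorem eventually_notMem (L : PeriodPair) (l : ℂ) : ∀ᶠ w in 𝓝[≠] l, w ∉ L.lattice := by
  have := L.compl_lattice_sdiff_singleton_mem_nhds l
  rw [eventually_nhdsWithin_iff]
  filter_upwards [this] with w hw hw0 hwl
  exact hw ⟨hwl, hw0⟩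

theorem tendsto_punct {α : ℂ} (hα : α ≠ 0) (t s : ℂ) :
    Tendsto (fun s => α * (t + s)) (𝓝[≠] s) (𝓝[≠] (α * (t + s))) := by
  apply tendsto_nhdsWithin_of_tendsto_nhds_of_eventually_within
  · have : Continuous (fun s : ℂ => α * (t + s)) := by fun_prop
    exact (this.tendsto s).mono_left nhdsWithin_le_nhds
  · filter_upwards [self_mem_nhdsWithin] with w hw
    intro h
    apply hw
    have h1 := mul_left_cancel₀ hα h
    exact add_left_cancel h1

theorem hasDerivAt_affine {f : ℂ → ℂ} {f' α t x : ℂ} (h : HasDerivAt f f' (α * (t + x)))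
    (c : ℂ) : HasDerivAt (fun s => c * f (α * (t + s))) (c * (f' * α)) x := by
  have h1 : HasDerivAt (fun s : ℂ => α * (t + s)) α x := by
    have := ((hasDerivAt_id x).const_add t).const_mul α
    rw [mul_one] at this
    exact this
  exact (h.comp x h1).const_mul c

theorem hasDerivAt_shift {f : ℂ → ℂ} {f' t x : ℂ} (h : HasDerivAt f f' (t + x)) :
    HasDerivAt (fun s => f (t + s)) f' x := by
  have h1 : HasDerivAt (fun s : ℂ => t + s) 1 x := (hasDerivAt_id x).const_add t
  have := h.comp x h1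
  rw [mul_one] at this
  exact this

theorem wp_key (L L' : PeriodPair) {α : ℂ} (hα : α ≠ 0) (h2 : L'.g₂ = α ^ 4 * L.g₂) {t₀ t₁ : ℂ}
    (ht₀ : t₀ ∉ L'.lattice) (ht₁ : α * t₁ ∉ L.lattice)
    (e1 : L'.weierstrassP t₀ = α ^ 2 * L.weierstrassP (α * t₁))
    (e2 : L'.derivWeierstrassP t₀ = α ^ 3 * L.derivWeierstrassP (α * t₁)) (s : ℂ) :
    t₀ + s ∈ L'.lattice ↔ α * (t₁ + s) ∈ L.lattice := by
  set F : ℂ → ℂ := fun s => L'.weierstrassP (t₀ + s) with hF
  set G : ℂ → ℂ := fun s => α ^ 2 * L.weierstrassP (α * (t₁ + s)) with hG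
  set U : Set ℂ := {s | t₀ + s ∉ L'.lattice ∧ α * (t₁ + s) ∉ L.lattice} with hU
  have hUo : IsOpen U := by
    apply IsOpen.inter
    · exact (compl_open L').preimage (by fun_prop : Continuous (fun s => t₀ + s))
    · exact (compl_open L).preimage (by fun_prop : Continuous (fun s => α * (t₁ + s)))
  have hUc : IsPreconnected U := by
    have h1 : ((fun s : ℂ => t₀ + s) ⁻¹' (L'.lattice : Set ℂ)).Countable :=
      (lattice_countable L').preimage (add_right_injective t₀)
    have h2 : ((fun s : ℂ => α * (t₁ + s)) ⁻¹' (L.lattice : Set ℂ)).Countable :=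
      (lattice_countable L).preimage
        (fun a b hab => add_left_cancel (mul_left_cancel₀ hα hab))
    have h3 : U = ((fun s : ℂ => t₀ + s) ⁻¹' (L'.lattice : Set ℂ) ∪
        (fun s : ℂ => α * (t₁ + s)) ⁻¹' (L.lattice : Set ℂ))ᶜ := by
      ext x
      simp [hU]
    rw [h3]
    exact (Set.Countable.isConnected_compl_of_one_lt_rank (by simp) (h1.union h2)).2
  have h0U : (0 : ℂ) ∈ U := by
    refine ⟨?_, ?_⟩ <;> simpa
  have hFa : ∀ x ∈ U, AnalyticAt ℂ F x := fun x hx =>
    (wp_analytic L' hx.1).fun_comp (by fun_prop)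
  have hGa : ∀ x ∈ U, AnalyticAt ℂ G x := fun x hx => by
    have : AnalyticAt ℂ (fun s => L.weierstrassP (α * (t₁ + s))) x :=
      (wp_analytic L hx.2).fun_comp (f := fun s => α * (t₁ + s)) (by fun_prop)
    exact analyticAt_const.mul this
  have hF1 : ∀ x ∈ U, HasDerivAt F (L'.derivWeierstrassP (t₀ + x)) x := by
    intro x hx
    have h1 : HasDerivAt L'.weierstrassP (L'.derivWeierstrassP (t₀ + x)) (t₀ + x) := by
      have := (wp_analytic L' hx.1).differentiableAt.hasDerivAt
      rwa [L'.deriv_weierstrassP] at this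
    exact hasDerivAt_shift h1
  have hG1 : ∀ x ∈ U, HasDerivAt G (α ^ 3 * L.derivWeierstrassP (α * (t₁ + x))) x := by
    intro x hx
    have h1 : HasDerivAt L.weierstrassP (L.derivWeierstrassP (α * (t₁ + x))) (α * (t₁ + x)) := by
      have := (wp_analytic L hx.2).differentiableAt.hasDerivAt
      rwa [L.deriv_weierstrassP] at this
    have := hasDerivAt_affine h1 (α ^ 2)
    rw [show α ^ 3 * L.derivWeierstrassP (α * (t₁ + x)) =
      α ^ 2 * (L.derivWeierstrassP (α * (t₁ + x)) * α) by ring]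
    exact this
  have hF2 : ∀ x ∈ U, HasDerivAt (fun s => L'.derivWeierstrassP (t₀ + s))
      (6 * F x ^ 2 - L'.g₂ / 2) x := by
    intro x hx
    have h1 : HasDerivAt L'.derivWeierstrassP (6 * L'.weierstrassP (t₀ + x) ^ 2 - L'.g₂ / 2)
        (t₀ + x) := by
      have := (L'.analyticOnNhd_derivWeierstrassP _ hx.1).differentiableAt.hasDerivAt
      rwa [wp_ode2 L' hx.1] at this
    exact hasDerivAt_shift h1
  have hG2 : ∀ x ∈ U, HasDerivAt (fun s => α ^ 3 * L.derivWeierstrassP (α * (t₁ + s)))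
      (6 * G x ^ 2 - L'.g₂ / 2) x := by
    intro x hx
    have h1 : HasDerivAt L.derivWeierstrassP (6 * L.weierstrassP (α * (t₁ + x)) ^ 2 - L.g₂ / 2)
        (α * (t₁ + x)) := by
      have := (L.analyticOnNhd_derivWeierstrassP _ hx.2).differentiableAt.hasDerivAt
      rwa [wp_ode2 L hx.2] at this
    have := hasDerivAt_affine h1 (α ^ 3)
    rw [show 6 * G x ^ 2 - L'.g₂ / 2 = α ^ 3 *
      ((6 * L.weierstrassP (α * (t₁ + x)) ^ 2 - L.g₂ / 2) * α) by simp only [hG, h2]; ring]
    exact this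
  have hd1 : ∀ x ∈ U, deriv (fun s => F s - G s) x =
      L'.derivWeierstrassP (t₀ + x) - α ^ 3 * L.derivWeierstrassP (α * (t₁ + x)) :=
    fun x hx => ((hF1 x hx).sub (hG1 x hx)).deriv
  have hd2 : ∀ x ∈ U, deriv (deriv (fun s => F s - G s)) x = 6 * (F x + G x) * (F x - G x) := by
    intro x hx
    have h3 : deriv (fun s => F s - G s) =ᶠ[𝓝 x] fun s =>
        L'.derivWeierstrassP (t₀ + s) - α ^ 3 * L.derivWeierstrassP (α * (t₁ + s)) := by
      filter_upwards [hUo.mem_nhds hx] with y hy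
      exact hd1 y hy
    rw [h3.deriv_eq]
    have h4 := ((hF2 x hx).sub (hG2 x hx)).deriv
    refine h4.trans ?_
    ring
  have hnear : ∀ᶠ z in 𝓝 (0 : ℂ), F z - G z = 0 := by
    apply ode_zero (k := fun z => 6 * (F z + G z)) ((hFa 0 h0U).sub (hGa 0 h0U))
    · exact analyticAt_const.mul ((hFa 0 h0U).add (hGa 0 h0U))
    · filter_upwards [hUo.mem_nhds h0U] with y hy
      exact hd2 y hy
    · simp [hF, hG, e1]
    · refine (hd1 0 h0U).trans ?_
      simp [e2]
  have heq : ∀ x ∈ U, F x = G x := by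
    have hA : AnalyticOnNhd ℂ (fun z => F z - G z) U := fun x hx => (hFa x hx).sub (hGa x hx)
    intro x hx
    have := hA.eqOn_zero_of_preconnected_of_eventuallyEq_zero hUc h0U hnear hx
    exact sub_eq_zero.mp this
  have hev : ∀ s, ∀ᶠ x in 𝓝[≠] s, x ∈ U := by
    intro s
    have h1 := (tendsto_punct one_ne_zero t₀ s).eventually (eventually_notMem L' _)
    have h2 := (tendsto_punct hα t₁ s).eventually (eventually_notMem L _)
    filter_upwards [h1, h2] with x hx1 hx2
    refine ⟨by simpa using hx1, hx2⟩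
  have hFG : ∀ s, (fun x => ‖F x‖) =ᶠ[𝓝[≠] s] (fun x => ‖G x‖) := by
    intro s
    filter_upwards [hev s] with x hx
    rw [heq x hx]
  have hα2 : 0 < ‖α ^ 2‖ := norm_pos_iff.mpr (pow_ne_zero 2 hα)
  constructor
  · intro hs
    by_contra hs'
    have h1 : Tendsto (fun x => ‖F x‖) (𝓝[≠] s) atTop := by
      have := (wp_tendsto L' hs).comp (by simpa using tendsto_punct one_ne_zero t₀ s)
      exact this
    have h3 : Tendsto (fun x => ‖G x‖) (𝓝[≠] s) (𝓝 ‖G s‖) := by
      have : AnalyticAt ℂ (fun s => L.weierstrassP (α * (t₁ + s))) s :=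
        (wp_analytic L hs').fun_comp (f := fun s => α * (t₁ + s)) (by fun_prop)
      exact ((analyticAt_const.mul this).continuousAt.norm.tendsto).mono_left nhdsWithin_le_nhds
    exact not_tendsto_nhds_of_tendsto_atTop (h1.congr' (hFG s)) _ h3
  · intro hs
    by_contra hs'
    have h1 : Tendsto (fun x => ‖G x‖) (𝓝[≠] s) atTop := by
      have := (wp_tendsto L hs).comp (tendsto_punct hα t₁ s)
      have h4 := this.const_mul_atTop hα2
      refine h4.congr (fun x => ?_)
      simp [hG]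
    have h3 : Tendsto (fun x => ‖F x‖) (𝓝[≠] s) (𝓝 ‖F s‖) := by
      have : AnalyticAt ℂ F s :=
        (wp_analytic L' hs').fun_comp (f := fun s => t₀ + s) (by fun_prop)
      exact (this.continuousAt.norm.tendsto).mono_left nhdsWithin_le_nhds
    exact not_tendsto_nhds_of_tendsto_atTop (h1.congr' (hFG s).symm) _ h3

/-- `℘` and `℘'` separate points modulo the lattice. -/
theorem wp_uniq (L : PeriodPair) {z w : ℂ} (hz : z ∉ L.lattice) (hw : w ∉ L.lattice)
    (h : L.weierstrassP z = L.weierstrassP w) (h' : L.derivWeierstrassP z = L.derivWeierstrassP w) :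
    z - w ∈ L.lattice := by
  have := wp_key L L (α := 1) one_ne_zero (by ring) hz (t₁ := w) (by simpa) (by simpa) (by simpa) (-w)
  simp only [add_neg_cancel, mul_zero, zero_mem, iff_true] at this
  simpa [sub_eq_add_neg] using this

theorem neg_mem_iff' (L : PeriodPair) {z : ℂ} : -z ∈ L.lattice ↔ z ∈ L.lattice := neg_mem_iff

theorem wp_eq (L : PeriodPair) {z w : ℂ} (hz : z ∉ L.lattice) (hw : w ∉ L.lattice)
    (h : L.weierstrassP z = L.weierstrassP w) : z - w ∈ L.lattice ∨ z + w ∈ L.lattice := by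
  have h1 := L.derivWeierstrassP_sq z hz
  have h2 := L.derivWeierstrassP_sq w hw
  rw [h, ← h2] at h1
  rcases sq_eq_sq_iff_eq_or_eq_neg.mp h1 with h3 | h3
  · exact Or.inl (wp_uniq L hz hw h h3)
  · right
    have := wp_uniq L (w := -w) hz (by simpa using hw) (by simpa using h) (by simpa using h3)
    simpa using this

theorem wp_deriv_ne (L : PeriodPair) {z : ℂ} (hz : z ∉ L.lattice) (h2 : 2 * z ∉ L.lattice) :
    L.derivWeierstrassP z ≠ 0 := by
  intro h
  apply h2
  have := wp_uniq L (w := -z) hz (by simpa using hz) (by simp) (by simp [h])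
  simpa [two_mul] using this

theorem wp_surj (L : PeriodPair) (c : ℂ) : ∃ z, z ∉ L.lattice ∧ L.weierstrassP z = c := by
  classical
  by_contra hcon
  push Not at hcon
  set F : ℂ → ℂ := fun z => if z ∈ L.lattice then 0 else (L.weierstrassP z - c)⁻¹ with hF
  have hdOff : ∀ z, z ∉ L.lattice → DifferentiableAt ℂ F z := by
    intro z hz
    have h1 : DifferentiableAt ℂ (fun z => (L.weierstrassP z - c)⁻¹) z := by
      have := (wp_analytic L hz).differentiableAt
      exact (this.sub_const c).inv (sub_ne_zero.mpr (hcon z hz))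
    apply h1.congr_of_eventuallyEq
    filter_upwards [(compl_open L).mem_nhds hz] with w hw
    have hw' : w ∉ L.lattice := hw
    simp only [hF]
    rw [if_neg hw']
  have hcont : ∀ z, z ∈ L.lattice → ContinuousAt F z := by
    intro z hz
    rw [continuousAt_iff_punctured_nhds]
    have hFz : F z = 0 := by simp only [hF]; rw [if_pos hz]
    rw [hFz]
    have h1 : Tendsto (fun w => (L.weierstrassP w - c)⁻¹) (𝓝[≠] z) (𝓝 0) := by
      apply tendsto_inv₀_cobounded.comp
      rw [← tendsto_norm_atTop_iff_cobounded]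
      apply tendsto_atTop_mono (f := fun w => ‖L.weierstrassP w‖ - ‖c‖)
      · intro w
        exact norm_sub_norm_le _ _
      · exact tendsto_atTop_add_const_right _ _ (wp_tendsto L hz)
    apply h1.congr'
    filter_upwards [eventually_notMem L z] with w hw
    simp only [hF]
    rw [if_neg hw]
  have hd : Differentiable ℂ F := by
    intro z
    by_cases hz : z ∈ L.lattice
    · have hs : ((L.lattice : Set ℂ) \ {z})ᶜ ∈ 𝓝 z := L.compl_lattice_sdiff_singleton_mem_nhds z
      have := (Complex.differentiableOn_compl_singleton_and_continuousAt_iff (f := F) hs).mp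
        ⟨?_, hcont z hz⟩
      · exact this.differentiableAt hs
      · intro w hw
        apply (hdOff w _).differentiableWithinAt
        intro hwl
        exact hw.1 ⟨hwl, hw.2⟩
    · exact hdOff z hz
  have hper : ∀ z w : ℂ, w ∈ L.lattice → F (z + w) = F z := by
    intro z w hw
    have h1 : z + w ∈ L.lattice ↔ z ∈ L.lattice := L.lattice.add_mem_iff_left hw
    simp only [hF]
    have h2 := L.weierstrassP_add_coe z ⟨w, hw⟩
    simp only at h2
    by_cases hz : z ∈ L.lattice
    · rw [if_pos hz, if_pos (h1.mpr hz)]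
    · rw [if_neg hz, if_neg (fun h => hz (h1.mp h)), h2]
  have hbd := (IsZLattice.isCompact_range_of_periodic L.lattice F hd.continuous
    (fun z w hw => hper z w hw)).isBounded
  have h3 := hd.apply_eq_apply_of_bounded hbd (L.ω₁ / 2) 0
  simp only [hF] at h3
  rw [if_neg L.ω₁_div_two_notMem_lattice, if_pos (zero_mem _)] at h3
  exact hcon _ L.ω₁_div_two_notMem_lattice (sub_eq_zero.mp (inv_eq_zero.mp h3))

/-- half periods are critical points -/
theorem wp_deriv_half (L : PeriodPair) {l : ℂ} (hl : l ∈ L.lattice) :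
    L.derivWeierstrassP (l / 2) = 0 := by
  have h1 := L.derivWeierstrassP_sub_coe (l / 2) ⟨l, hl⟩
  have h2 : l / 2 - l = -(l / 2) := by ring
  simp only [h2, L.derivWeierstrassP_neg] at h1
  have h3 : (2 : ℂ) * L.derivWeierstrassP (l / 2) = 0 := by linear_combination -h1
  simpa using h3

theorem ratmul_notMem (L : PeriodPair) (a b : ℚ) (h : ¬ (a.den = 1 ∧ b.den = 1)) :
    (a : ℂ) * L.ω₁ + b * L.ω₂ ∉ L.lattice := by
  rw [L.mul_ω₁_add_mul_ω₂_mem_lattice]
  exact h

theorem wp_half (L : PeriodPair) (c : ℂ) : 4 * c ^ 3 - L.g₂ * c - L.g₃ =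
    4 * (c - L.weierstrassP (L.ω₁ / 2)) * (c - L.weierstrassP (L.ω₂ / 2)) *
      (c - L.weierstrassP ((L.ω₁ + L.ω₂) / 2)) := by
  have m1 : L.ω₁ ∈ L.lattice := L.ω₁_mem_lattice
  have m2 : L.ω₂ ∈ L.lattice := L.ω₂_mem_lattice
  have n1 : L.ω₁ / 2 ∉ L.lattice := L.ω₁_div_two_notMem_lattice
  have n2 : L.ω₂ / 2 ∉ L.lattice := L.ω₂_div_two_notMem_lattice
  have n3 : (L.ω₁ + L.ω₂) / 2 ∉ L.lattice := by
    have := ratmul_notMem L (1 / 2) (1 / 2) (by norm_num)
    rwa [show ((1 / 2 : ℚ) : ℂ) * L.ω₁ + ((1 / 2 : ℚ) : ℂ) * L.ω₂ = (L.ω₁ + L.ω₂) / 2 by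
      push_cast; ring] at this
  have r1 := L.derivWeierstrassP_sq _ n1
  have r2 := L.derivWeierstrassP_sq _ n2
  have r3 := L.derivWeierstrassP_sq _ n3
  rw [wp_deriv_half L m1] at r1
  rw [wp_deriv_half L m2] at r2
  rw [wp_deriv_half L (add_mem m1 m2)] at r3
  have d12 : L.weierstrassP (L.ω₁ / 2) ≠ L.weierstrassP (L.ω₂ / 2) := by
    intro h
    rcases wp_eq L n1 n2 h with h | h
    · have := add_mem h m2
      rw [show L.ω₁ / 2 - L.ω₂ / 2 + L.ω₂ = (L.ω₁ + L.ω₂) / 2 by ring] at this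
      exact n3 this
    · rw [show L.ω₁ / 2 + L.ω₂ / 2 = (L.ω₁ + L.ω₂) / 2 by ring] at h
      exact n3 h
  have d13 : L.weierstrassP (L.ω₁ / 2) ≠ L.weierstrassP ((L.ω₁ + L.ω₂) / 2) := by
    intro h
    rcases wp_eq L n1 n3 h with h | h
    · have := neg_mem h
      rw [show -(L.ω₁ / 2 - (L.ω₁ + L.ω₂) / 2) = L.ω₂ / 2 by ring] at this
      exact n2 this
    · have := sub_mem h m1
      rw [show L.ω₁ / 2 + (L.ω₁ + L.ω₂) / 2 - L.ω₁ = L.ω₂ / 2 by ring] at this
      exact n2 this
  have d23 : L.weierstrassP (L.ω₂ / 2) ≠ L.weierstrassP ((L.ω₁ + L.ω₂) / 2) := by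
    intro h
    rcases wp_eq L n2 n3 h with h | h
    · have := neg_mem h
      rw [show -(L.ω₂ / 2 - (L.ω₁ + L.ω₂) / 2) = L.ω₁ / 2 by ring] at this
      exact n1 this
    · have := sub_mem h m2
      rw [show L.ω₂ / 2 + (L.ω₁ + L.ω₂) / 2 - L.ω₂ = L.ω₁ / 2 by ring] at this
      exact n1 this
  generalize L.weierstrassP (L.ω₁ / 2) = e1 at *
  generalize L.weierstrassP (L.ω₂ / 2) = e2 at *
  generalize L.weierstrassP ((L.ω₁ + L.ω₂) / 2) = e3 at *
  have s1 : 4 * (e1 ^ 2 + e1 * e2 + e2 ^ 2) = L.g₂ := by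
    apply mul_left_cancel₀ (sub_ne_zero.mpr d12)
    linear_combination r2 - r1
  have s2 : 4 * (e1 ^ 2 + e1 * e3 + e3 ^ 2) = L.g₂ := by
    apply mul_left_cancel₀ (sub_ne_zero.mpr d13)
    linear_combination r3 - r1
  have s3 : e1 + e2 + e3 = 0 := by
    apply mul_left_cancel₀ (sub_ne_zero.mpr d23)
    linear_combination (s1 - s2) / 4
  have h3 : e3 = - e1 - e2 := by linear_combination s3
  subst h3
  linear_combination c * s1 - r1 - e1 * s1

theorem wp_scaled (L L' : PeriodPair) {α : ℂ} (hα : α ≠ 0) (h2 : L'.g₂ = α ^ 4 * L.g₂)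
    (h3 : L'.g₃ = α ^ 6 * L.g₃) : ∀ z, z ∈ L'.lattice ↔ α * z ∈ L.lattice := by
  have n1 : L.ω₁ / 2 ∉ L.lattice := L.ω₁_div_two_notMem_lattice
  set t₁ : ℂ := α⁻¹ * (L.ω₁ / 2) with ht
  have e0 : α * t₁ = L.ω₁ / 2 := by rw [ht, mul_inv_cancel_left₀ hα]
  have ht₁ : α * t₁ ∉ L.lattice := by rw [e0]; exact n1
  obtain ⟨t₀, ht₀, e1⟩ := wp_surj L' (α ^ 2 * L.weierstrassP (α * t₁))
  have hsq : L'.derivWeierstrassP t₀ ^ 2 = (α ^ 3 * L.derivWeierstrassP (α * t₁)) ^ 2 := by
    rw [L'.derivWeierstrassP_sq _ ht₀, mul_pow, L.derivWeierstrassP_sq _ ht₁, e1, h2, h3]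
    ring
  -- choose the sign
  obtain ⟨t₂, ht₂, e1', e2'⟩ : ∃ t₂, t₂ ∉ L'.lattice ∧
      L'.weierstrassP t₂ = α ^ 2 * L.weierstrassP (α * t₁) ∧
      L'.derivWeierstrassP t₂ = α ^ 3 * L.derivWeierstrassP (α * t₁) := by
    rcases sq_eq_sq_iff_eq_or_eq_neg.mp hsq with h | h
    · exact ⟨t₀, ht₀, e1, h⟩
    · exact ⟨-t₀, by simpa using ht₀, by simpa using e1, by simp [h]⟩
  have key := wp_key L L' hα h2 ht₂ ht₁ e1' e2'
  -- key s : t₂ + s ∈ L' ↔ α (t₁ + s) ∈ L
  have k1 : t₁ - t₂ ∈ L'.lattice := by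
    have := key (-t₁)
    simp only [add_neg_cancel, mul_zero, zero_mem, iff_true] at this
    have h4 := neg_mem this
    rwa [neg_add, neg_neg, neg_add_eq_sub] at h4
  intro z
  have := key (z - t₁)
  rw [show t₁ + (z - t₁) = z by ring, show t₂ + (z - t₁) = z - (t₁ - t₂) by ring] at this
  rw [← this]
  exact (L'.lattice.sub_mem_iff_left k1).symm

end Pool.Agent.T05
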