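import Pool.Agent.Lib.MP_0162a5_an.O

/-! MODULE A2: the Weierstrass function as a function of `(τ, z)`, lattice `2ℤ + 2τℤ`. -/

set_option autoImplicit false

open Complex Metric Set Filter Topology

namespace Pool.Agent.T05

theorem indep_two {τ : ℂ} (h : 0 < τ.im) : LinearIndependent ℝ ![(2 : ℂ), 2 * τ] := by
  rw [LinearIndependent.pair_iff]
  intro s t hst
  have h1 := congrArg Complex.im hst
  have h2 := congrArg Complex.re hst
  simp at h1 h2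
  have ht : t = 0 := by
    rcases h1 with h1 | h1
    · exact h1
    · exact absurd h1 h.ne'
  subst ht
  simp at h2
  exact ⟨h2, rfl⟩

open Classical in
/-- the period pair `(2, 2 τ)` -/
noncomputable def pp (τ : ℂ) : PeriodPair :=
  if h : 0 < τ.im then ⟨2, 2 * τ, indep_two h⟩ else ⟨2, 2 * I, indep_two (by simp)⟩

/-- `(τ, z)` with `z` not in the lattice `2ℤ + 2τℤ`. -/
def W2 : Set (ℂ × ℂ) := {p | 0 < p.1.im ∧ ∀ k l : ℤ, p.2 ≠ 2 * (k + l * p.1)}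

theorem pp_ω₁ (τ : ℂ) : (pp τ).ω₁ = 2 := by
  unfold pp
  split_ifs <;> rfl

theorem pp_ω₂ {τ : ℂ} (h : 0 < τ.im) : (pp τ).ω₂ = 2 * τ := by
  unfold pp
  rw [dif_pos h]

theorem mem_pp_lattice {τ : ℂ} (h : 0 < τ.im) (z : ℂ) :
    z ∈ (pp τ).lattice ↔ ∃ k l : ℤ, z = 2 * (k + l * τ) := by
  rw [PeriodPair.mem_lattice, pp_ω₁, pp_ω₂ h]
  constructor
  · rintro ⟨m, n, e⟩
    exact ⟨m, n, by rw [← e]; ring⟩
  · rintro ⟨m, n, e⟩
    exact ⟨m, n, by rw [e]; ring⟩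

theorem wp_scale (L L' : PeriodPair) {α : ℂ} (hα : α ≠ 0)
    (h : ∀ z, z ∈ L'.lattice ↔ α * z ∈ L.lattice) (z : ℂ) :
    L'.weierstrassP z = α ^ 2 * L.weierstrassP (α * z) := by
  let e : L'.lattice ≃ L.lattice :=
    { toFun := fun l => ⟨α * l.1, (h l.1).1 l.2⟩
      invFun := fun l => ⟨α⁻¹ * l.1, (h _).2 (by rw [mul_inv_cancel_left₀ hα]; exact l.2)⟩
      left_inv := fun l => Subtype.ext (by simp [inv_mul_cancel_left₀ hα])
      right_inv := fun l => Subtype.ext (by simp [mul_inv_cancel_left₀ hα]) }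
  unfold PeriodPair.weierstrassP
  rw [← e.tsum_eq, ← tsum_mul_left]
  refine tsum_congr fun l => ?_
  have : ((e l : L.lattice) : ℂ) = α * l.1 := rfl
  rw [this, ← mul_sub, mul_pow, mul_pow, mul_sub]
  congr 1
  · by_cases hz : (z - l.1) ^ 2 = 0
    · simp [hz]
    · field_simp
  · by_cases hz : (l.1 : ℂ) ^ 2 = 0
    · simp [hz]
    · field_simp

/-- the terms of the Weierstrass series, indexed by `ℤ × ℤ` -/
noncomputable def wt (τ z : ℂ) (p : ℤ × ℤ) : ℂ :=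
  1 / (z - 2 * (p.1 + p.2 * τ)) ^ 2 - 1 / (2 * (p.1 + p.2 * τ)) ^ 2

theorem wt_hasSum {τ : ℂ} (h : 0 < τ.im) (z : ℂ) :
    HasSum (wt τ z) ((pp τ).weierstrassP z) := by
  have h1 := (pp τ).hasSum_weierstrassP z
  rw [← (pp τ).latticeEquivProd.symm.toEquiv.hasSum_iff] at h1
  convert h1 using 1
  funext p
  have : ((((pp τ).latticeEquivProd.symm.toEquiv p : (pp τ).lattice)) : ℂ)
      = 2 * (p.1 + p.2 * τ) := by
    have h2 := (pp τ).latticeEquiv_symm_apply p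
    rw [pp_ω₁, pp_ω₂ h] at h2
    have h3 : ((((pp τ).latticeEquivProd.symm.toEquiv p : (pp τ).lattice)) : ℂ)
      = (((pp τ).latticeEquivProd.symm p : (pp τ).lattice) : ℂ) := rfl
    rw [h3, h2]
    ring
  simp only [Function.comp, wt]
  rw [this]

theorem norm_pair (p : ℤ × ℤ) : ‖p‖ = max |(p.1 : ℝ)| |(p.2 : ℝ)| := by
  rw [Prod.norm_def]
  rw [Int.norm_eq_abs, Int.norm_eq_abs]

/-- lower bound for lattice elements, locally uniformly -/
theorem lat_lb {y0 B : ℝ} (hy0 : 0 < y0) (hB : 1 ≤ B) {τ : ℂ} (h1 : y0 ≤ τ.im) (h2 : ‖τ‖ ≤ B)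
    (p : ℤ × ℤ) : min (y0 / (2 * B)) (1 / 2) * ‖p‖ ≤ ‖(p.1 : ℂ) + p.2 * τ‖ := by
  rw [norm_pair]
  obtain ⟨m, n⟩ := p
  simp only
  have hB0 : 0 < B := by linarith
  have hn0 : 0 ≤ |(n : ℝ)| := abs_nonneg _
  have hm0 : 0 ≤ |(m : ℝ)| := abs_nonneg _
  by_cases hc : |(m : ℝ)| ≤ 2 * B * |(n : ℝ)|
  · have hmax : max |(m : ℝ)| |(n : ℝ)| ≤ 2 * B * |(n : ℝ)| := by
      refine max_le hc ?_
      nlinarith
    have him : |((m : ℂ) + n * τ).im| ≤ ‖(m : ℂ) + n * τ‖ := Complex.abs_im_le_norm _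
    have him2 : ((m : ℂ) + n * τ).im = n * τ.im := by simp
    rw [him2, abs_mul] at him
    have h3 : y0 ≤ |τ.im| := h1.trans (le_abs_self _)
    calc min (y0 / (2 * B)) (1 / 2) * max |(m : ℝ)| |(n : ℝ)|
        ≤ (y0 / (2 * B)) * (2 * B * |(n : ℝ)|) := by
          gcongr
          exact min_le_left _ _
      _ = |(n : ℝ)| * y0 := by field_simp
      _ ≤ |(n : ℝ)| * |τ.im| := by gcongr
      _ ≤ _ := him
  · push Not at hc
    have hnm : |(n : ℝ)| ≤ |(m : ℝ)| := by nlinarith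
    rw [max_eq_left hnm]
    have h4 : ‖(m : ℂ)‖ - ‖(n : ℂ) * τ‖ ≤ ‖(m : ℂ) + n * τ‖ := by
      have := norm_sub_norm_le (m : ℂ) (-((n : ℂ) * τ))
      rw [norm_neg, sub_neg_eq_add] at this
      exact this
    rw [norm_mul] at h4
    have h5 : ‖(m : ℂ)‖ = |(m : ℝ)| := by simp
    have h6 : ‖(n : ℂ)‖ = |(n : ℝ)| := by simp
    rw [h5, h6] at h4
    have h7 : |(n : ℝ)| * ‖τ‖ ≤ |(n : ℝ)| * B := by gcongr
    have h8 : min (y0 / (2 * B)) (1 / 2) * |(m : ℝ)| ≤ (1 / 2) * |(m : ℝ)| := by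
      gcongr
      exact min_le_right _ _
    nlinarith

theorem summable_pair {k : ℝ} (hk : 2 < k) : Summable (fun p : ℤ × ℤ => ‖p‖ ^ (-k)) := by
  have h1 := EisensteinSeries.summable_one_div_norm_rpow hk
  rw [← (finTwoArrowEquiv ℤ).symm.summable_iff] at h1
  refine h1.congr fun p => ?_
  simp only [Function.comp]
  congr 1
  rw [norm_pair]
  have : ‖(finTwoArrowEquiv ℤ).symm p‖ = max |(p.1 : ℝ)| |(p.2 : ℝ)| := by
    rw [EisensteinSeries.norm_eq_max_natAbs]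
    simp [Nat.cast_natAbs]
  exact this

theorem finite_pair (R : ℝ) : {p : ℤ × ℤ | ‖p‖ ≤ R}.Finite := by
  have h := (isCompact_closedBall (0 : ℤ × ℤ) R).finite_of_discrete
  refine h.subset fun p hp => ?_
  simpa [dist_eq_norm] using hp

/-- near every point with `Im τ > 0` we have locally uniform control -/
theorem lat_nbhd {q : ℂ × ℂ} (hq : 0 < q.1.im) : ∃ V ∈ 𝓝 q, ∃ c : ℝ, 0 < c ∧ ∃ r : ℝ, 0 < r ∧
    ∀ x ∈ V, 0 < x.1.im ∧ ‖x.2‖ < r ∧ ∀ p : ℤ × ℤ, c * ‖p‖ ≤ ‖2 * ((p.1 : ℂ) + p.2 * x.1)‖ := by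
  set y0 := q.1.im / 2 with hy0
  set B := ‖q.1‖ + 1 with hB
  have hy0' : 0 < y0 := by positivity
  have hB' : 1 ≤ B := by
    have := norm_nonneg q.1
    linarith
  have hV1 : ∀ᶠ x : ℂ × ℂ in 𝓝 q, y0 < x.1.im := by
    have : ContinuousAt (fun x : ℂ × ℂ => x.1.im) q := by fun_prop
    exact this.eventually (lt_mem_nhds (by rw [hy0]; linarith))
  have hV2 : ∀ᶠ x : ℂ × ℂ in 𝓝 q, ‖x.1‖ < B := by
    have : ContinuousAt (fun x : ℂ × ℂ => ‖x.1‖) q := by fun_prop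
    exact this.eventually (gt_mem_nhds (by rw [hB]; linarith))
  have hV3 : ∀ᶠ x : ℂ × ℂ in 𝓝 q, ‖x.2‖ < ‖q.2‖ + 1 := by
    have : ContinuousAt (fun x : ℂ × ℂ => ‖x.2‖) q := by fun_prop
    exact this.eventually (gt_mem_nhds (by linarith))
  refine ⟨_, (hV1.and (hV2.and hV3)), 2 * min (y0 / (2 * B)) (1 / 2), by positivity,
    ‖q.2‖ + 1, by positivity, ?_⟩
  rintro x ⟨h1, h2, h3⟩
  refine ⟨hy0'.trans h1, h3, fun p => ?_⟩
  have := lat_lb hy0' hB' h1.le h2.le p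
  rw [norm_mul, Complex.norm_ofNat]
  nlinarith

theorem W2_isOpen : IsOpen W2 := by
  rw [isOpen_iff_mem_nhds]
  rintro q ⟨hq1, hq2⟩
  obtain ⟨V, hV, c, hc, r, hr, h⟩ := lat_nbhd hq1
  have hfin := finite_pair (r / c)
  have h1 : ∀ᶠ x : ℂ × ℂ in 𝓝 q, ∀ p ∈ {p : ℤ × ℤ | ‖p‖ ≤ r / c}, x.2 ≠ 2 * (p.1 + p.2 * x.1) := by
    rw [Filter.eventually_all_finite hfin]
    intro p _
    have hcont : ContinuousAt (fun x : ℂ × ℂ => x.2 - 2 * ((p.1 : ℂ) + p.2 * x.1)) q := by fun_prop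
    have := hcont.eventually_ne (y := 0) (by
      rw [sub_ne_zero]
      exact hq2 p.1 p.2)
    filter_upwards [this] with x hx
    rwa [sub_ne_zero] at hx
  filter_upwards [hV, h1] with x hxV hx
  obtain ⟨hx1, hx2, hx3⟩ := h x hxV
  refine ⟨hx1, fun k l hkl => ?_⟩
  by_cases hp : ‖((k, l) : ℤ × ℤ)‖ ≤ r / c
  · exact hx (k, l) hp hkl
  · push Not at hp
    have h5 := hx3 (k, l)
    simp only at h5
    rw [← hkl] at h5
    rw [div_lt_iff₀ hc] at hp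
    nlinarith

theorem wp_diffOn : DifferentiableOn ℂ (fun p : ℂ × ℂ => (pp p.1).weierstrassP p.2) W2 := by
  have key := diffOn_of_limit (l := (atTop : Filter (Finset (ℤ × ℤ)))) W2_isOpen
    (F := fun (s : Finset (ℤ × ℤ)) x => (∑ p ∈ s, wt x.1 x.2 p, (0 : ℂ)))
    (f := fun x => ((pp x.1).weierstrassP x.2, (0 : ℂ))) ?_ ?_
  · exact fun x hx => (key x hx).fst
  · refine Filter.Eventually.of_forall fun s => ?_
    refine DifferentiableOn.prodMk ?_ (differentiableOn_const _)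
    refine DifferentiableOn.fun_sum fun p _ => ?_
    rintro x ⟨hx1, hx2⟩
    unfold wt
    have h1 : (x.2 - 2 * ((p.1 : ℂ) + p.2 * x.1)) ^ 2 ≠ 0 := by
      apply pow_ne_zero
      rw [sub_ne_zero]
      exact hx2 _ _
    have hA : DifferentiableWithinAt ℂ
        (fun x : ℂ × ℂ => 1 / (x.2 - 2 * ((p.1 : ℂ) + p.2 * x.1)) ^ 2) W2 x := by
      have h2 : DifferentiableWithinAt ℂ (fun x : ℂ × ℂ => (x.2 - 2 * ((p.1 : ℂ) + p.2 * x.1)) ^ 2)
          W2 x := by fun_prop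
      simp only [one_div]
      exact h2.fun_inv h1
    have hB : DifferentiableWithinAt ℂ
        (fun x : ℂ × ℂ => 1 / (2 * ((p.1 : ℂ) + p.2 * x.1)) ^ 2) W2 x := by
      by_cases hp : p = 0
      · subst hp
        simpa using differentiableWithinAt_const (0 : ℂ)
      · have h2 : DifferentiableWithinAt ℂ (fun x : ℂ × ℂ => (2 * ((p.1 : ℂ) + p.2 * x.1)) ^ 2)
          W2 x := by fun_prop
        simp only [one_div]
        refine h2.fun_inv ?_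
        apply pow_ne_zero
        have h3 := lat_lb hx1 (le_max_left 1 ‖x.1‖) le_rfl (le_max_right 1 ‖x.1‖) p
        intro h4
        have h5 : ‖(p.1 : ℂ) + p.2 * x.1‖ = 0 := by
          rw [norm_eq_zero]
          simpa using h4
        rw [h5] at h3
        have h6 : 0 < ‖p‖ := norm_pos_iff.2 hp
        have h7 : 0 < min (x.1.im / (2 * max 1 ‖x.1‖)) (1 / 2) := by
          have : 0 < max 1 ‖x.1‖ := by positivity
          positivity
        nlinarith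
    exact hA.fun_sub hB
  · rw [Metric.tendstoLocallyUniformlyOn_iff]
    intro ε hε q hq
    obtain ⟨V, hV, c, hc, r, hr, h⟩ := lat_nbhd hq.1
    have hsum : Summable (fun p : ℤ × ℤ => 10 * r * (c ^ (-3 : ℝ) * ‖p‖ ^ (-3 : ℝ))) :=
      ((summable_pair (by norm_num)).mul_left _).mul_left _
    have hunif := tendstoUniformlyOn_tsum_of_cofinite_eventually (s := V)
      (f := fun p x => wt x.1 x.2 p) hsum ?_
    · rw [Metric.tendstoUniformlyOn_iff] at hunif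
      refine ⟨V, mem_nhdsWithin_of_mem_nhds hV, ?_⟩
      filter_upwards [hunif ε hε] with s hs x hx
      have h1 := hs x hx
      rw [(wt_hasSum (h x hx).1 x.2).tsum_eq] at h1
      rw [Prod.dist_eq]
      simp only [dist_self]
      rw [max_eq_left dist_nonneg]
      exact h1
    · have hfin := finite_pair (2 * r / c)
      rw [Filter.eventually_cofinite]
      refine hfin.subset fun p hp => ?_
      simp only [mem_ofPred_eq, not_forall, not_le] at hp ⊢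
      by_contra hcon
      push Not at hcon
      obtain ⟨x, hx, hlt⟩ := hp
      obtain ⟨hx1, hx2, hx3⟩ := h x hx
      have hx3' := hx3 p
      rw [div_lt_iff₀ hc] at hcon
      have hp0 : 0 < ‖p‖ := by
        by_contra h0
        push Not at h0
        nlinarith [norm_nonneg p]
      have h4 : 2 * r ≤ ‖2 * ((p.1 : ℂ) + p.2 * x.1)‖ := by nlinarith
      have h5 := PeriodPair.weierstrassP_bound r hr x.2 hx2 _ h4
      have h6 : ‖2 * ((p.1 : ℂ) + p.2 * x.1)‖ ^ (-3 : ℝ) ≤ c ^ (-3 : ℝ) * ‖p‖ ^ (-3 : ℝ) := by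
        rw [← Real.mul_rpow hc.le hp0.le]
        exact Real.rpow_le_rpow_of_nonpos (by positivity) hx3' (by norm_num)
      have h7 : 10 * r * ‖2 * ((p.1 : ℂ) + p.2 * x.1)‖ ^ (-3 : ℝ)
          ≤ 10 * r * (c ^ (-3 : ℝ) * ‖p‖ ^ (-3 : ℝ)) := by gcongr
      exact absurd (hlt.trans_le (h5.trans h7)) (lt_irrefl _)

theorem summable_weight :
    Summable (fun p : ℤ × ℤ => (1 / 4 * (1 + ‖p‖)) ^ (-(5 / 2) : ℝ)) := by
  have h1 : Summable (fun p : ℤ × ℤ => (1 + ‖p‖) ^ (-(5 / 2) : ℝ)) := by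
    refine Summable.of_norm_bounded_eventually (summable_pair (k := 5 / 2) (by norm_num)) ?_
    rw [Filter.eventually_cofinite]
    refine (Set.finite_singleton (0 : ℤ × ℤ)).subset fun p hp => ?_
    by_contra hp0
    apply hp
    have h0 : 0 < ‖p‖ := norm_pos_iff.2 hp0
    rw [Real.norm_of_nonneg (by positivity)]
    exact Real.rpow_le_rpow_of_nonpos h0 (by linarith) (by norm_num)
  refine (h1.mul_left ((1 / 4 : ℝ) ^ (-(5 / 2) : ℝ))).congr fun p => ?_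
  rw [Real.mul_rpow (by norm_num) (by positivity)]

theorem lim_core (ε : ℝ) (hε : 0 < ε) : ∃ Y : ℝ, 4 ≤ Y ∧ ∀ y : ℝ, Y ≤ y →
    ∀ (f : ℤ × ℤ → ℂ) (s : ℂ), HasSum f s →
    (∀ p, ‖f p‖ ≤ 20 * (y ^ (-(1 / 2) : ℝ) * (1 / 4 * (1 + ‖p‖)) ^ (-(5 / 2) : ℝ))) →
    ‖s‖ < ε := by
  have h1 : Tendsto (fun y : ℝ => 20 * (y ^ (-(1 / 2) : ℝ) *
      ∑' p : ℤ × ℤ, (1 / 4 * (1 + ‖p‖)) ^ (-(5 / 2) : ℝ))) atTop (𝓝 (20 * (0 *
      ∑' p : ℤ × ℤ, (1 / 4 * (1 + ‖p‖)) ^ (-(5 / 2) : ℝ)))) :=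
    ((tendsto_rpow_neg_atTop (by norm_num : (0 : ℝ) < 1 / 2)).mul_const _).const_mul _
  rw [zero_mul, mul_zero] at h1
  obtain ⟨Y, hY⟩ := Filter.eventually_atTop.1 (h1.eventually (gt_mem_nhds hε))
  refine ⟨max 4 Y, le_max_left _ _, fun y hy f s hf hb => ?_⟩
  refine lt_of_le_of_lt ?_ (hY y ((le_max_right _ _).trans hy))
  exact hf.norm_le_of_bounded ((summable_weight.hasSum.mul_left _).mul_left _) hb

theorem term_bound {y : ℝ} (hy : 4 ≤ y) {a : ℂ} (h1 : y ≤ ‖a‖) {N : ℝ} (hN : 0 ≤ N)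
    (h2 : 1 / 4 * (1 + N) ≤ ‖a‖) :
    ‖1 / (a + 1) ^ 2 - 1 / a ^ 2‖ ≤ 20 * (y ^ (-(1 / 2) : ℝ) * (1 / 4 * (1 + N)) ^ (-(5 / 2) : ℝ)) := by
  have h3 := PeriodPair.weierstrassP_bound 2 (by norm_num) (-1) (by norm_num) a (by linarith)
  have h4 : (-1 - a) ^ 2 = (a + 1) ^ 2 := by ring
  rw [h4] at h3
  refine h3.trans ?_
  have ha : 0 < ‖a‖ := by linarith
  have h5 : ‖a‖ ^ (-3 : ℝ) = ‖a‖ ^ (-(1 / 2) : ℝ) * ‖a‖ ^ (-(5 / 2) : ℝ) := by
    rw [← Real.rpow_add ha]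
    norm_num
  rw [h5]
  have h6 : ‖a‖ ^ (-(1 / 2) : ℝ) ≤ y ^ (-(1 / 2) : ℝ) :=
    Real.rpow_le_rpow_of_nonpos (by linarith) h1 (by norm_num)
  have h7 : ‖a‖ ^ (-(5 / 2) : ℝ) ≤ (1 / 4 * (1 + N)) ^ (-(5 / 2) : ℝ) :=
    Real.rpow_le_rpow_of_nonpos (by positivity) h2 (by norm_num)
  have h8 : (10 : ℝ) * 2 = 20 := by norm_num
  rw [h8]
  gcongr

theorem row_sum : HasSum (fun m : ℤ => 1 / (1 - 2 * (m : ℂ)) ^ 2 - 1 / (2 * (m : ℂ)) ^ 2)
    ((Real.pi : ℂ) ^ 2 / 6) := by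
  have hz := hasSum_zeta_two
  have hz1 : HasSum (fun n : ℕ => (1 : ℝ) / ((n + 1 : ℕ) : ℝ) ^ 2) (Real.pi ^ 2 / 6) := by
    rw [hasSum_nat_add_iff (f := fun n : ℕ => (1 : ℝ) / (n : ℝ) ^ 2) 1]
    simpa using hz
  have hZ : HasSum (fun m : ℤ => (1 : ℝ) / (m : ℝ) ^ 2) (Real.pi ^ 2 / 6 + Real.pi ^ 2 / 6) := by
    refine HasSum.of_nat_of_neg_add_one (by simpa using hz) ?_
    convert hz1 using 2 with n
    push_cast
    congr 1
    ring
  have hEven : HasSum (fun m : ℤ => (1 : ℝ) / (2 * (m : ℝ)) ^ 2) (Real.pi ^ 2 / 12) := by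
    have h := hZ.mul_left (1 / 4 : ℝ)
    have e1 : (fun m : ℤ => (1 / 4 : ℝ) * (1 / (m : ℝ) ^ 2)) = fun m : ℤ => 1 / (2 * (m : ℝ)) ^ 2 := by
      funext m
      rw [mul_pow, one_div, one_div, one_div, mul_inv]
      norm_num
    have e2 : (1 / 4 : ℝ) * (Real.pi ^ 2 / 6 + Real.pi ^ 2 / 6) = Real.pi ^ 2 / 12 := by ring
    rw [e1, e2] at h
    exact h
  have hE : HasSum (fun n : ℕ => (1 : ℝ) / ((2 * n : ℕ) : ℝ) ^ 2) (Real.pi ^ 2 / 24) := by
    have h := hz.mul_left (1 / 4 : ℝ)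
    have e1 : (fun n : ℕ => (1 / 4 : ℝ) * (1 / (n : ℝ) ^ 2))
        = fun n : ℕ => 1 / ((2 * n : ℕ) : ℝ) ^ 2 := by
      funext m
      push_cast
      rw [mul_pow, one_div, one_div, one_div, mul_inv]
      norm_num
    have e2 : (1 / 4 : ℝ) * (Real.pi ^ 2 / 6) = Real.pi ^ 2 / 24 := by ring
    rw [e1, e2] at h
    exact h
  have hO : HasSum (fun n : ℕ => (1 : ℝ) / ((2 * n + 1 : ℕ) : ℝ) ^ 2) (Real.pi ^ 2 / 8) := by
    have hs : Summable (fun n : ℕ => (1 : ℝ) / ((2 * n + 1 : ℕ) : ℝ) ^ 2) := by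
      refine hz.summable.comp_injective (i := fun n : ℕ => 2 * n + 1) ?_
      intro a b hab
      simpa using hab
    have h1 := HasSum.even_add_odd (f := fun n : ℕ => (1 : ℝ) / (n : ℝ) ^ 2) hE hs.hasSum
    have h2 := h1.unique hz
    have h3 : ∑' n : ℕ, (1 : ℝ) / ((2 * n + 1 : ℕ) : ℝ) ^ 2 = Real.pi ^ 2 / 8 := by
      linarith
    rw [← h3]
    exact hs.hasSum
  have hOdd : HasSum (fun m : ℤ => (1 : ℝ) / (2 * (m : ℝ) + 1) ^ 2)
      (Real.pi ^ 2 / 8 + Real.pi ^ 2 / 8) := by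
    refine HasSum.of_nat_of_neg_add_one ?_ ?_
    · convert hO using 2 with n
      push_cast
      rfl
    · convert hO using 2 with n
      push_cast
      congr 1
      ring
  have hOdd' : HasSum (fun m : ℤ => (1 : ℝ) / (1 - 2 * (m : ℝ)) ^ 2)
      (Real.pi ^ 2 / 8 + Real.pi ^ 2 / 8) := by
    rw [← (Equiv.neg ℤ).hasSum_iff] at hOdd
    convert hOdd using 2 with m
    simp only [Function.comp, Equiv.neg_apply]
    push_cast
    congr 1
    ring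
  have hfin := (hOdd'.sub hEven)
  have hfin' := Complex.hasSum_ofReal.2 hfin
  convert hfin' using 1
  · funext m
    push_cast
    rfl
  · push_cast
    ring

/-- the Weierstrass function depends on the lattice only: integer translations -/
theorem wp_shift {τ : ℂ} (h : 0 < τ.im) (k : ℤ) (z : ℂ) :
    (pp (τ + k)).weierstrassP z = (pp τ).weierstrassP z := by
  have h' : 0 < (τ + k).im := by simpa using h
  have := wp_scale (pp τ) (pp (τ + k)) (α := 1) one_ne_zero (fun w => ?_) z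
  · simpa using this
  · rw [mem_pp_lattice h', one_mul, mem_pp_lattice h]
    constructor
    · rintro ⟨a, b, e⟩
      exact ⟨a + b * k, b, by rw [e]; push_cast; ring⟩
    · rintro ⟨a, b, e⟩
      exact ⟨a - b * k, b, by rw [e]; push_cast; ring⟩

theorem wp_period {τ : ℂ} (h : 0 < τ.im) (k l : ℤ) (z : ℂ) :
    (pp τ).weierstrassP (z + 2 * (k + l * τ)) = (pp τ).weierstrassP z := by
  have h1 : 2 * (k + l * τ) ∈ (pp τ).lattice := (mem_pp_lattice h _).2 ⟨k, l, rfl⟩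
  exact (pp τ).weierstrassP_add_coe z ⟨_, h1⟩

theorem exists_shift (τ : ℂ) : ∃ k : ℤ, |(τ + k).re| ≤ 1 / 2 := by
  refine ⟨-round τ.re, ?_⟩
  have := abs_sub_round τ.re
  simpa [sub_eq_add_neg] using this

theorem e1_core (ε : ℝ) (hε : 0 < ε) : ∃ Y : ℝ, 4 ≤ Y ∧ ∀ τ : ℂ, |τ.re| ≤ 1 / 2 → Y ≤ τ.im →
    ‖(pp τ).weierstrassP 1 - (Real.pi : ℂ) ^ 2 / 6‖ < ε := by
  obtain ⟨Y, hY, h⟩ := lim_core ε hε
  refine ⟨Y, hY, fun τ hre him => ?_⟩
  have hτ : 0 < τ.im := by linarith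
  have h1 := wt_hasSum hτ 1
  have h2 : HasSum (fun p : ℤ × ℤ => if p.2 = 0 then wt τ 1 p else 0) ((Real.pi : ℂ) ^ 2 / 6) := by
    have hinj : Function.Injective (fun m : ℤ => ((m, 0) : ℤ × ℤ)) := fun a b hab => by
      simpa using hab
    rw [← hinj.hasSum_iff]
    · convert row_sum using 1
      funext m
      simp [wt]
    · intro x hx
      rw [if_neg]
      intro h0
      apply hx
      exact ⟨x.1, by rw [← h0]⟩
  have h3 := h1.sub h2
  refine h τ.im him _ _ h3 fun p => ?_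
  split_ifs with hp
  · rw [sub_self, norm_zero]
    have : 0 < τ.im := hτ
    positivity
  · rw [sub_zero]
    obtain ⟨m, n⟩ := p
    simp only at hp
    have hw : wt τ 1 (m, n) = 1 / (-(2 * (m + n * τ)) + 1) ^ 2 - 1 / (-(2 * (m + n * τ))) ^ 2 := by
      unfold wt
      simp only [neg_sq]
      congr 3
      ring
    rw [hw]
    have hn1 : (1 : ℝ) ≤ |(n : ℝ)| := by
      have : (1 : ℤ) ≤ |n| := Int.one_le_abs hp
      exact_mod_cast this
    have him1 : |(-(2 * ((m : ℂ) + n * τ))).im| ≤ ‖-(2 * ((m : ℂ) + n * τ))‖ :=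
      Complex.abs_im_le_norm _
    have him2 : |(-(2 * ((m : ℂ) + n * τ))).im| = 2 * |(n : ℝ)| * τ.im := by
      simp [abs_mul, abs_of_pos hτ]
      ring
    have hre1 : |(-(2 * ((m : ℂ) + n * τ))).re| ≤ ‖-(2 * ((m : ℂ) + n * τ))‖ :=
      Complex.abs_re_le_norm _
    have hre2 : |(-(2 * ((m : ℂ) + n * τ))).re| = 2 * |(m : ℝ) + n * τ.re| := by
      simp [abs_mul]
    have hre3 : |(m : ℝ)| - |(n : ℝ)| * |τ.re| ≤ |(m : ℝ) + n * τ.re| := by
      have := abs_sub_abs_le_abs_sub (m : ℝ) (-(n * τ.re))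
      rw [abs_neg, abs_mul, sub_neg_eq_add] at this
      exact this
    rw [him2] at him1
    rw [hre2] at hre1
    refine term_bound (hY.trans him) ?_ (norm_nonneg _) ?_
    · nlinarith
    · rw [norm_pair]
      simp only
      have h5 : |(n : ℝ)| * |τ.re| ≤ |(n : ℝ)| * (1 / 2) := by gcongr
      rcases le_total |(m : ℝ)| |(n : ℝ)| with hmn | hmn
      · rw [max_eq_right hmn]
        nlinarith
      · rw [max_eq_left hmn]
        nlinarith

theorem e1_lim (ε : ℝ) (hε : 0 < ε) : ∃ Y : ℝ, 0 < Y ∧ ∀ τ : ℂ, Y < τ.im →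
    ‖(pp τ).weierstrassP 1 - (Real.pi : ℂ) ^ 2 / 6‖ < ε := by
  obtain ⟨Y, hY, h⟩ := e1_core ε hε
  refine ⟨Y, by linarith, fun τ hτ => ?_⟩
  obtain ⟨k, hk⟩ := exists_shift τ
  have := h (τ + k) hk (by simpa using hτ.le)
  rwa [wp_shift (by linarith)] at this

theorem e23_core (ε : ℝ) (hε : 0 < ε) : ∃ Y : ℝ, 4 ≤ Y ∧ ∀ τ : ℂ, |τ.re| ≤ 1 / 2 → Y ≤ τ.im →
    ‖(pp τ).weierstrassP (1 + τ) - (pp τ).weierstrassP τ‖ < ε := by
  obtain ⟨Y, hY, h⟩ := lim_core ε hε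
  refine ⟨Y, hY, fun τ hre him => ?_⟩
  have hτ : 0 < τ.im := by linarith
  have h3 := (wt_hasSum hτ (1 + τ)).sub (wt_hasSum hτ τ)
  refine h τ.im him _ _ h3 fun p => ?_
  obtain ⟨m, n⟩ := p
  have hw : wt τ (1 + τ) (m, n) - wt τ τ (m, n)
      = 1 / (((1 - 2 * n) * τ - 2 * m) + 1) ^ 2 - 1 / ((1 - 2 * n) * τ - 2 * m) ^ 2 := by
    unfold wt
    simp only
    have e1 : (1 + τ - 2 * ((m : ℂ) + n * τ)) = ((1 - 2 * n) * τ - 2 * m) + 1 := by ring
    have e2 : (τ - 2 * ((m : ℂ) + n * τ)) = ((1 - 2 * n) * τ - 2 * m) := by ring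
    rw [e1, e2]
    ring
  rw [hw]
  set t : ℝ := |(1 : ℝ) - 2 * n| with ht
  have ht1 : 1 ≤ t := by
    have h0 : (1 : ℤ) - 2 * n ≠ 0 := by omega
    have h1 : (1 : ℤ) ≤ |1 - 2 * n| := Int.one_le_abs h0
    rw [ht]
    exact_mod_cast h1
  have htn : |(n : ℝ)| ≤ t := by
    have h1 : |n| ≤ |1 - 2 * n| := by
      rcases le_or_gt 1 n with h | h
      · rw [abs_of_nonneg (by omega), abs_of_nonpos (by omega)]
        omega
      · rw [abs_of_nonpos (by omega), abs_of_nonneg (by omega)]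
        omega
    rw [ht]
    exact_mod_cast h1
  have him1 : |((1 - 2 * n) * τ - 2 * m : ℂ).im| ≤ ‖((1 - 2 * n) * τ - 2 * m : ℂ)‖ :=
    Complex.abs_im_le_norm _
  have him2 : |((1 - 2 * n) * τ - 2 * m : ℂ).im| = t * τ.im := by
    have : ((1 - 2 * n) * τ - 2 * m : ℂ).im = (1 - 2 * n) * τ.im := by simp
    rw [this, abs_mul, abs_of_pos hτ]
  have hre1 : |((1 - 2 * n) * τ - 2 * m : ℂ).re| ≤ ‖((1 - 2 * n) * τ - 2 * m : ℂ)‖ :=
    Complex.abs_re_le_norm _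
  have hre2 : ((1 - 2 * n) * τ - 2 * m : ℂ).re = (1 - 2 * n) * τ.re - 2 * m := by simp
  have hre3 : 2 * |(m : ℝ)| - t * |τ.re| ≤ |(1 - 2 * n) * τ.re - 2 * m| := by
    have := abs_sub_abs_le_abs_sub (2 * m : ℝ) ((1 - 2 * n) * τ.re)
    rw [abs_mul, abs_mul, abs_two, abs_sub_comm (2 * m : ℝ)] at this
    exact this
  rw [him2] at him1
  rw [hre2] at hre1
  refine term_bound (hY.trans him) ?_ (norm_nonneg _) ?_
  · nlinarith
  · rw [norm_pair]
    simp only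
    have h5 : t * |τ.re| ≤ t * (1 / 2) := by gcongr
    rcases le_total (2 * |(m : ℝ)|) t with hmn | hmn
    · have h6 : max |(m : ℝ)| |(n : ℝ)| ≤ t := max_le (by have := abs_nonneg (m : ℝ); linarith) htn
      nlinarith
    · have h6 : max |(m : ℝ)| |(n : ℝ)| ≤ 2 * |(m : ℝ)| :=
        max_le (by have := abs_nonneg (m : ℝ); linarith) (htn.trans hmn)
      nlinarith

theorem e23_lim (ε : ℝ) (hε : 0 < ε) : ∃ Y : ℝ, 0 < Y ∧ ∀ τ : ℂ, Y < τ.im →
    ‖(pp τ).weierstrassP (1 + τ) - (pp τ).weierstrassP τ‖ < ε := by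
  obtain ⟨Y, hY, h⟩ := e23_core ε hε
  refine ⟨Y, by linarith, fun τ hτ => ?_⟩
  have hτ0 : 0 < τ.im := by linarith
  obtain ⟨k, hk⟩ := exists_shift τ
  have h1 := h (τ + k) hk (by simpa using hτ.le)
  rw [wp_shift hτ0, wp_shift hτ0] at h1
  rcases Int.even_or_odd' k with ⟨j, hj | hj⟩
  · have e1 : 1 + (τ + k) = (1 + τ) + 2 * ((j : ℤ) + (0 : ℤ) * τ) := by
      rw [hj]; push_cast; ring
    have e2 : (τ + k) = τ + 2 * ((j : ℤ) + (0 : ℤ) * τ) := by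
      rw [hj]; push_cast; ring
    rw [e1, e2, wp_period hτ0, wp_period hτ0] at h1
    exact h1
  · have e1 : 1 + (τ + k) = τ + 2 * (((j + 1 : ℤ) : ℂ) + (0 : ℤ) * τ) := by
      rw [hj]; push_cast; ring
    have e2 : (τ + k) = (1 + τ) + 2 * ((j : ℤ) + (0 : ℤ) * τ) := by
      rw [hj]; push_cast; ring
    rw [e1, e2, wp_period hτ0, wp_period hτ0, norm_sub_rev] at h1
    exact h1

end Pool.Agent.T05
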