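import Pool.Agent.Lib.MP_0162a5_an.A1
import Pool.Agent.Lib.MP_0162a5_an.A2

/-! MODULE A4: `lamF` and `mmF`.

`e₁ = ℘ 1`, `e₂ = ℘ τ`, `e₃ = ℘ (1 + τ)`, distinct by `wp_eq`, sum zero by `wp_half`.
-/

set_option autoImplicit false

open Complex Metric Set Filter Topology

namespace Pool.Agent.T05

noncomputable def lamF (τ : ℂ) : ℂ :=
  ((pp τ).weierstrassP (1 + τ) - (pp τ).weierstrassP 1) /
    ((pp τ).weierstrassP τ - (pp τ).weierstrassP 1)

noncomputable def mmF (τ z : ℂ) : ℂ :=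
  ((pp τ).weierstrassP z - (pp τ).weierstrassP 1) /
    ((pp τ).weierstrassP τ - (pp τ).weierstrassP 1)

namespace A4H

theorem pp_ω₁ {τ : ℂ} (h : 0 < τ.im) : (pp τ).ω₁ = 2 := by
  simp [pp, h]

theorem pp_ω₂ {τ : ℂ} (h : 0 < τ.im) : (pp τ).ω₂ = 2 * τ := by
  simp [pp, h]

/-- coordinates with respect to `1, τ` are unique -/
theorem coord {τ : ℂ} (h : 0 < τ.im) {a b c d : ℝ} (e : (a : ℂ) + b * τ = c + d * τ) :
    a = c ∧ b = d := by
  have h1 := congrArg Complex.im e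
  have h2 := congrArg Complex.re e
  simp only [add_im, ofReal_im, re_ofReal_mul, im_ofReal_mul, add_re, ofReal_re, zero_add] at h1 h2
  have h3 : b = d := mul_right_cancel₀ h.ne' h1
  subst h3
  exact ⟨by linarith, rfl⟩

theorem coordZ {τ : ℂ} (h : 0 < τ.im) {a b c d : ℤ} (e : (a : ℂ) + b * τ = c + d * τ) :
    a = c ∧ b = d := by
  have := coord h (a := a) (b := b) (c := c) (d := d) (by push_cast; exact e)
  exact_mod_cast this

theorem P_per {τ : ℂ} (h : 0 < τ.im) (z : ℂ) (k l : ℤ) :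
    (pp τ).weierstrassP (z + 2 * (k + l * τ)) = (pp τ).weierstrassP z :=
  (pp τ).weierstrassP_add_coe z ⟨_, (mem_pp_lattice h _).2 ⟨k, l, rfl⟩⟩

/-- integral points are congruent when their coordinates are -/
theorem P_int {τ : ℂ} (h : 0 < τ.im) (k l k' l' : ℤ) (hk : Even (k - k')) (hl : Even (l - l')) :
    (pp τ).weierstrassP (k + l * τ) = (pp τ).weierstrassP (k' + l' * τ) := by
  obtain ⟨m, hm⟩ := hk
  obtain ⟨n, hn⟩ := hl
  have := P_per h (k' + l' * τ) m n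
  rw [← this]
  congr 1
  have h1 : k = k' + (m + m) := by omega
  have h2 : l = l' + (n + n) := by omega
  rw [h1, h2]; push_cast; ring

theorem int_mem {τ : ℂ} (h : 0 < τ.im) (k l : ℤ) :
    (k + l * τ : ℂ) ∈ (pp τ).lattice ↔ Even k ∧ Even l := by
  rw [mem_pp_lattice h]
  constructor
  · rintro ⟨m, n, e⟩
    have := coordZ h (a := k) (b := l) (c := 2 * m) (d := 2 * n) (by rw [e]; push_cast; ring)
    exact ⟨⟨m, by omega⟩, ⟨n, by omega⟩⟩
  · rintro ⟨⟨m, rfl⟩, ⟨n, rfl⟩⟩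
    exact ⟨m, n, by push_cast; ring⟩

theorem one_not {τ : ℂ} (h : 0 < τ.im) : (1 : ℂ) ∉ (pp τ).lattice := by
  have := int_mem h 1 0
  simp at this
  exact this

theorem tau_not {τ : ℂ} (h : 0 < τ.im) : τ ∉ (pp τ).lattice := by
  have := int_mem h 0 1
  simp at this
  exact this

theorem one_tau_not {τ : ℂ} (h : 0 < τ.im) : 1 + τ ∉ (pp τ).lattice := by
  have := int_mem h 1 1
  simp at this
  exact this

/-- values at two incongruent integral points are different -/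
theorem P_ne_int {τ : ℂ} (h : 0 < τ.im) {k l k' l' : ℤ} (h1 : ¬ (Even k ∧ Even l))
    (h2 : ¬ (Even k' ∧ Even l')) (h3 : ¬ (Even (k - k') ∧ Even (l - l'))) :
    (pp τ).weierstrassP (k + l * τ) ≠ (pp τ).weierstrassP (k' + l' * τ) := by
  intro e
  rcases wp_eq (pp τ) (mt (int_mem h k l).1 h1) (mt (int_mem h k' l').1 h2) e with h4 | h4
  · have h5 : (k + l * τ - (k' + l' * τ) : ℂ) = ((k - k' : ℤ) : ℂ) + ((l - l' : ℤ) : ℂ) * τ := by
      push_cast; ring
    rw [h5, int_mem h] at h4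
    exact h3 h4
  · have h5 : (k + l * τ + (k' + l' * τ) : ℂ) = ((k + k' : ℤ) : ℂ) + ((l + l' : ℤ) : ℂ) * τ := by
      push_cast; ring
    rw [h5, int_mem h] at h4
    apply h3
    have h6 := h4.1
    have h7 := h4.2
    rw [Int.even_add, ← Int.even_sub] at h6 h7
    exact ⟨h6, h7⟩

theorem e2_ne_e1 {τ : ℂ} (h : 0 < τ.im) : (pp τ).weierstrassP τ ≠ (pp τ).weierstrassP 1 := by
  have := P_ne_int h (k := 0) (l := 1) (k' := 1) (l' := 0) (by decide) (by decide) (by decide)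
  simpa using this

theorem e3_ne_e1 {τ : ℂ} (h : 0 < τ.im) :
    (pp τ).weierstrassP (1 + τ) ≠ (pp τ).weierstrassP 1 := by
  have := P_ne_int h (k := 1) (l := 1) (k' := 1) (l' := 0) (by decide) (by decide) (by decide)
  simpa using this

theorem e3_ne_e2 {τ : ℂ} (h : 0 < τ.im) :
    (pp τ).weierstrassP (1 + τ) ≠ (pp τ).weierstrassP τ := by
  have := P_ne_int h (k := 1) (l := 1) (k' := 0) (l' := 1) (by decide) (by decide) (by decide)
  simpa using this

theorem sub_ne {τ : ℂ} (h : 0 < τ.im) :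
    (pp τ).weierstrassP τ - (pp τ).weierstrassP 1 ≠ 0 := sub_ne_zero.2 (e2_ne_e1 h)

theorem half {τ : ℂ} (h : 0 < τ.im) (c : ℂ) : 4 * c ^ 3 - (pp τ).g₂ * c - (pp τ).g₃ =
    4 * (c - (pp τ).weierstrassP 1) * (c - (pp τ).weierstrassP τ) *
      (c - (pp τ).weierstrassP (1 + τ)) := by
  have := wp_half (pp τ) c
  rw [pp_ω₁ h, pp_ω₂ h] at this
  have h1 : (2 : ℂ) / 2 = 1 := by norm_num
  have h2 : 2 * τ / 2 = τ := by ring
  have h3 : (2 + 2 * τ) / 2 = 1 + τ := by ring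
  rw [h1, h2, h3] at this
  exact this

/-- `e₁ + e₂ + e₃ = 0`, `g₂` and `g₃` in terms of the `e`'s -/
theorem esym {τ : ℂ} (h : 0 < τ.im) :
    (pp τ).weierstrassP 1 + (pp τ).weierstrassP τ + (pp τ).weierstrassP (1 + τ) = 0 ∧
    (pp τ).g₂ = -4 * ((pp τ).weierstrassP 1 * (pp τ).weierstrassP τ +
      (pp τ).weierstrassP 1 * (pp τ).weierstrassP (1 + τ) +
      (pp τ).weierstrassP τ * (pp τ).weierstrassP (1 + τ)) ∧
    (pp τ).g₃ = 4 * ((pp τ).weierstrassP 1 * (pp τ).weierstrassP τ *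
      (pp τ).weierstrassP (1 + τ)) := by
  have h0 := half h 0
  have h1 := half h 1
  have h2 := half h (-1)
  have h3 := half h 2
  generalize (pp τ).weierstrassP 1 = e1 at *
  generalize (pp τ).weierstrassP τ = e2 at *
  generalize (pp τ).weierstrassP (1 + τ) = e3 at *
  generalize (pp τ).g₂ = g2 at *
  generalize (pp τ).g₃ = g3 at *
  have h5 : e1 + e2 + e3 = 0 := by
    linear_combination (-1/4 : ℂ) * h0 + (1/8 : ℂ) * h1 + (1/8 : ℂ) * h2
  have h6 : g3 = 4 * (e1 * e2 * e3) := by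
    linear_combination (-1 : ℂ) * h0
  refine ⟨h5, ?_, h6⟩
  linear_combination (-1/2 : ℂ) * h1 + (1/2 : ℂ) * h2 

theorem mu_ne {a b c d : ℤ} (hdet : a * d - b * c = 1) {τ : ℂ} (h : 0 < τ.im) :
    (c * τ + d : ℂ) ≠ 0 := by
  intro e
  have h1 := coordZ h (a := d) (b := c) (c := 0) (d := 0) (by
    push_cast; rw [zero_mul, add_zero, add_comm]; exact e)
  rw [h1.1, h1.2] at hdet
  simp at hdet

theorem im_formula (a b c d : ℤ) (τ : ℂ) :
    ((a * τ + b) / (c * τ + d)).im = (a * d - b * c) * τ.im / normSq (c * τ + d) := by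
  rw [Complex.div_im]
  simp only [add_re, add_im, mul_re, mul_im, intCast_re, intCast_im, zero_mul, add_zero, sub_zero]
  ring

theorem im_pos {a b c d : ℤ} (hdet : a * d - b * c = 1) {τ : ℂ} (h : 0 < τ.im) :
    0 < ((a * τ + b) / (c * τ + d)).im := by
  rw [im_formula]
  have h1 : ((a : ℝ) * d - b * c) = 1 := by exact_mod_cast hdet
  rw [h1, one_mul]
  exact div_pos h (normSq_pos.2 (mu_ne hdet h))

theorem P_mod {a b c d : ℤ} (hdet : a * d - b * c = 1) {τ : ℂ} (h : 0 < τ.im) (z : ℂ) :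
    (pp ((a * τ + b) / (c * τ + d))).weierstrassP z =
      (c * τ + d) ^ 2 * (pp τ).weierstrassP ((c * τ + d) * z) := by
  have hμ := mu_ne hdet h
  have hdet' : (a * d - b * c : ℂ) = 1 := by exact_mod_cast hdet
  apply wp_scale (pp τ) _ hμ
  intro z
  rw [mem_pp_lattice h, mem_pp_lattice (im_pos hdet h)]
  constructor
  · rintro ⟨k, l, rfl⟩
    refine ⟨k * d + l * b, k * c + l * a, ?_⟩
    push_cast
    field_simp
    ring
  · rintro ⟨k, l, e⟩
    refine ⟨a * k - b * l, d * l - c * k, ?_⟩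
    apply mul_left_cancel₀ hμ
    rw [e]
    have ht : (c * τ + d : ℂ) * ((a * τ + b) / (c * τ + d)) = a * τ + b := by
      field_simp
    generalize (a * τ + b) / (c * τ + d) = t at *
    push_cast
    linear_combination (-2 * (k + l * τ) : ℂ) * hdet' - 2 * (d * l - c * k) * ht

end A4H

open A4H

theorem lamF_mem : ∀ τ ∈ HH, lamF τ ∈ C01 := by
  intro τ h
  refine ⟨?_, ?_⟩
  · rw [lamF]
    exact div_ne_zero (sub_ne_zero.2 (e3_ne_e1 h)) (sub_ne h)
  · rw [lamF]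
    intro e
    rw [div_eq_one_iff_eq (sub_ne h)] at e
    exact e3_ne_e2 h (sub_left_injective e)

theorem lamF_T : ∀ τ ∈ HH, lamF (τ + 1) = (lamF τ)⁻¹ := by
  intro τ h
  have hP := fun z => P_mod (a := 1) (b := 1) (c := 0) (d := 1) (by norm_num) h z
  simp only [Int.cast_one, Int.cast_zero, one_mul, zero_mul, zero_add, div_one, one_pow] at hP
  rw [lamF, lamF, inv_div, hP, hP, hP, add_comm τ 1]
  congr 2
  have := P_int h 2 1 0 1 (by decide) (by decide)
  simp only [Int.cast_ofNat, Int.cast_one, Int.cast_zero, one_mul, zero_add] at this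
  rw [← this]
  congr 1
  ring

theorem lamF_S : ∀ τ ∈ HH, lamF (-1 / τ) = 1 - lamF τ := by
  intro τ h
  have hτ : τ ≠ 0 := by
    rintro rfl
    simp [HH] at h
  have hP := fun z => P_mod (a := 0) (b := -1) (c := 1) (d := 0) (by norm_num) h z
  simp only [Int.cast_one, Int.cast_zero, one_mul, zero_mul, zero_add, Int.cast_neg, add_zero] at hP
  rw [lamF, lamF, hP, hP, hP]
  have h1 : τ * (1 + -1 / τ) = ((-1 : ℤ) : ℂ) + ((1 : ℤ) : ℂ) * τ := by
    push_cast; field_simp; ring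
  have h2 : τ * (-1 / τ) = ((-1 : ℤ) : ℂ) + ((0 : ℤ) : ℂ) * τ := by
    push_cast; field_simp; ring
  have h3 : (pp τ).weierstrassP (τ * (1 + -1 / τ)) = (pp τ).weierstrassP (1 + τ) := by
    rw [h1, P_int h (-1) 1 1 1 (by decide) (by decide)]
    simp
  have h4 : (pp τ).weierstrassP (τ * (-1 / τ)) = (pp τ).weierstrassP 1 := by
    rw [h2, P_int h (-1) 0 1 0 (by decide) (by decide)]
    simp
  rw [h3, h4, mul_one]
  have h5 := sub_ne h
  have h6 : (pp τ).weierstrassP 1 - (pp τ).weierstrassP τ ≠ 0 := sub_ne_zero.2 (e2_ne_e1 h).symm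
  rw [← mul_sub, ← mul_sub, mul_div_mul_left _ _ (pow_ne_zero 2 hτ)]
  field_simp
  ring

/-- the values at the half periods for a `Gam2` matrix -/
theorem A4H.gam_vals {a b c d : ℤ} (hg : Gam2 a b c d) {τ : ℂ} (h : 0 < τ.im) :
    (pp ((a * τ + b) / (c * τ + d))).weierstrassP 1 =
      (c * τ + d) ^ 2 * (pp τ).weierstrassP 1 ∧
    (pp ((a * τ + b) / (c * τ + d))).weierstrassP ((a * τ + b) / (c * τ + d)) =
      (c * τ + d) ^ 2 * (pp τ).weierstrassP τ ∧
    (pp ((a * τ + b) / (c * τ + d))).weierstrassP (1 + (a * τ + b) / (c * τ + d)) =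
      (c * τ + d) ^ 2 * (pp τ).weierstrassP (1 + τ) := by
  obtain ⟨hdet, ha, hb, hc, hd⟩ := hg
  have hμ := mu_ne hdet h
  refine ⟨?_, ?_, ?_⟩
  · rw [P_mod hdet h]
    congr 1
    have := P_int h d c 1 0 (by obtain ⟨m, rfl⟩ := hd; exact ⟨m, by ring⟩) (by simpa using hc)
    simp only [Int.cast_one, Int.cast_zero, zero_mul, add_zero] at this
    rw [← this]
    congr 1
    ring
  · rw [P_mod hdet h]
    congr 1
    have := P_int h b a 0 1 (by simpa using hb) (by obtain ⟨m, rfl⟩ := ha; exact ⟨m, by ring⟩)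
    simp only [Int.cast_one, Int.cast_zero, one_mul, zero_add] at this
    rw [← this]
    congr 1
    field_simp
    ring
  · rw [P_mod hdet h]
    congr 1
    have := P_int h (b + d) (a + c) 1 1
      (by obtain ⟨m, rfl⟩ := hd; obtain ⟨n, rfl⟩ := hb; exact ⟨m + n, by ring⟩)
      (by obtain ⟨m, rfl⟩ := ha; obtain ⟨n, rfl⟩ := hc; exact ⟨m + n, by ring⟩)
    simp only [Int.cast_one, one_mul] at this
    rw [← this]
    congr 1
    push_cast
    field_simp
    ring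

theorem lamF_inv : ∀ a b c d : ℤ, Gam2 a b c d → ∀ τ ∈ HH,
    lamF ((a * τ + b) / (c * τ + d)) = lamF τ := by
  intro a b c d hg τ h
  have hμ := mu_ne hg.1 h
  obtain ⟨h1, h2, h3⟩ := A4H.gam_vals hg h
  rw [lamF, h1, h2, h3, ← mul_sub, ← mul_sub, mul_div_mul_left _ _ (pow_ne_zero 2 hμ), lamF]

theorem mmF_mod : ∀ a b c d : ℤ, Gam2 a b c d → ∀ τ z : ℂ, (τ, (c * τ + d) * z) ∈ WW →
    mmF ((a * τ + b) / (c * τ + d)) z = mmF τ ((c * τ + d) * z) := by
  intro a b c d hg τ z hw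
  have h : 0 < τ.im := hw.1
  have hμ := mu_ne hg.1 h
  obtain ⟨h1, h2, h3⟩ := A4H.gam_vals hg h
  rw [mmF, h1, h2, P_mod hg.1 h, ← mul_sub, ← mul_sub, mul_div_mul_left _ _ (pow_ne_zero 2 hμ), mmF]

theorem A4H.WW_not {τ z : ℂ} (hw : (τ, z) ∈ WW) : z ∉ (pp τ).lattice := by
  rw [mem_pp_lattice hw.1]
  rintro ⟨k, l, e⟩
  exact hw.2 (2 * k) (2 * l) (by rw [e]; push_cast; ring)

theorem A4H.WW_not2 {τ z : ℂ} (hw : (τ, z) ∈ WW) : 2 * z ∉ (pp τ).lattice := by
  rw [mem_pp_lattice hw.1]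
  rintro ⟨k, l, e⟩
  exact hw.2 k l (mul_left_cancel₀ two_ne_zero e)

/-- a point off `ℤ + ℤ τ` does not have the value of a half period -/
theorem A4H.P_ne_half {τ z : ℂ} (hw : (τ, z) ∈ WW) (k l : ℤ) (hkl : ¬ (Even k ∧ Even l)) :
    (pp τ).weierstrassP z ≠ (pp τ).weierstrassP (k + l * τ) := by
  intro e
  have h : 0 < τ.im := hw.1
  rcases wp_eq (pp τ) (WW_not hw) (mt (int_mem h k l).1 hkl) e with h4 | h4
  · obtain ⟨m, n, e'⟩ := (mem_pp_lattice h _).1 h4
    exact hw.2 (k + 2 * m) (l + 2 * n) (by push_cast; linear_combination e')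
  · obtain ⟨m, n, e'⟩ := (mem_pp_lattice h _).1 h4
    exact hw.2 (-k + 2 * m) (-l + 2 * n) (by push_cast; linear_combination e')

theorem mmF_mem : ∀ τ z : ℂ, (τ, z) ∈ WW → (lamF τ, mmF τ z) ∈ MM := by
  intro τ z hw
  have h : 0 < τ.im := hw.1
  have h1 := P_ne_half hw 1 0 (by decide)
  have h2 := P_ne_half hw 0 1 (by decide)
  have h3 := P_ne_half hw 1 1 (by decide)
  simp only [Int.cast_one, Int.cast_zero, zero_mul, add_zero, one_mul, zero_add] at h1 h2 h3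
  have hs := sub_ne h
  refine ⟨(lamF_mem τ h).1, (lamF_mem τ h).2, ?_, ?_, ?_⟩
  · exact div_ne_zero (sub_ne_zero.2 h1) hs
  · intro e
    simp only [mmF] at e
    rw [div_eq_one_iff_eq hs] at e
    exact h2 (sub_left_injective e)
  · intro e
    simp only [mmF, lamF] at e
    rw [div_left_inj' hs] at e
    exact h3 (sub_left_injective e).symm

theorem A4H.hasDeriv_P {L : PeriodPair} {z : ℂ} (hz : z ∉ L.lattice) :
    HasDerivAt L.weierstrassP (L.derivWeierstrassP z) z := by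
  have h1 : DifferentiableAt ℂ L.weierstrassP z :=
    L.differentiableOn_weierstrassP.differentiableAt (L.isClosed_lattice.isOpen_compl.mem_nhds hz)
  have h2 := h1.hasDerivAt
  rwa [L.deriv_weierstrassP] at h2

theorem mmF_deriv₂ : ∀ τ z : ℂ, (τ, z) ∈ WW → deriv (fun w => mmF τ w) z ≠ 0 := by
  intro τ z hw
  have h : 0 < τ.im := hw.1
  have hs := sub_ne h
  have h1 : HasDerivAt (fun w => mmF τ w) ((pp τ).derivWeierstrassP z /
      ((pp τ).weierstrassP τ - (pp τ).weierstrassP 1)) z :=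
    ((hasDeriv_P (WW_not hw)).sub_const _).div_const _
  rw [h1.deriv]
  exact div_ne_zero (wp_deriv_ne _ (WW_not hw) (WW_not2 hw)) hs

theorem mmF_neg : ∀ τ z : ℂ, (τ, z) ∈ WW → mmF τ (-z) = mmF τ z := by
  intro τ z hw
  rw [mmF, mmF, PeriodPair.weierstrassP_neg]

theorem mmF_add : ∀ τ z : ℂ, (τ, z) ∈ WW → ∀ k l : ℤ, mmF τ (z + 2 * (k + l * τ)) = mmF τ z := by
  intro τ z hw k l
  rw [mmF, mmF, P_per hw.1]

theorem mmF_inj : ∀ τ z w : ℂ, (τ, z) ∈ WW → (τ, w) ∈ WW → mmF τ z = mmF τ w →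
    ∃ k l : ℤ, w = z + 2 * (k + l * τ) ∨ w = -z + 2 * (k + l * τ) := by
  intro τ z w hz hw e
  have h : 0 < τ.im := hw.1
  have hs := sub_ne h
  rw [mmF, mmF, div_left_inj' hs] at e
  have e' := sub_left_injective e
  rcases wp_eq (pp τ) (WW_not hz) (WW_not hw) e' with h4 | h4
  · obtain ⟨m, n, e'⟩ := (mem_pp_lattice h _).1 h4
    exact ⟨-m, -n, Or.inl (by push_cast; linear_combination -e')⟩
  · obtain ⟨m, n, e'⟩ := (mem_pp_lattice h _).1 h4
    exact ⟨m, n, Or.inr (by linear_combination e')⟩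

theorem mmF_surj : ∀ τ ∈ HH, ∀ μ : ℂ, (lamF τ, μ) ∈ MM → ∃ z, (τ, z) ∈ WW ∧ mmF τ z = μ := by
  intro τ h μ hμ
  have hs := sub_ne h
  obtain ⟨z, hz, e⟩ := wp_surj (pp τ) ((pp τ).weierstrassP 1 +
    μ * ((pp τ).weierstrassP τ - (pp τ).weierstrassP 1))
  have he : mmF τ z = μ := by
    rw [mmF, e]; field_simp; ring
  refine ⟨z, ⟨h, ?_⟩, he⟩
  intro k l hkl
  simp only at hkl
  obtain ⟨-, -, h1, h2, h3⟩ := hμ
  simp only at h1 h2 h3
  rw [hkl, int_mem h] at hz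
  rw [hkl] at he
  rcases Int.even_or_odd k with hk | hk <;> rcases Int.even_or_odd l with hl | hl
  · exact hz ⟨hk, hl⟩
  · have := P_int h k l 0 1 (by simpa using hk) (by obtain ⟨m, rfl⟩ := hl; exact ⟨m, by ring⟩)
    simp only [Int.cast_one, Int.cast_zero, one_mul, zero_add] at this
    rw [mmF, this, div_self hs] at he
    exact h2 he.symm
  · have := P_int h k l 1 0 (by obtain ⟨m, rfl⟩ := hk; exact ⟨m, by ring⟩) (by simpa using hl)
    simp only [Int.cast_one, Int.cast_zero, zero_mul, add_zero] at this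
    rw [mmF, this, sub_self, zero_div] at he
    exact h1 he.symm
  · have := P_int h k l 1 1 (by obtain ⟨m, rfl⟩ := hk; exact ⟨m, by ring⟩)
      (by obtain ⟨m, rfl⟩ := hl; exact ⟨m, by ring⟩)
    simp only [Int.cast_one, one_mul] at this
    rw [mmF, this] at he
    exact h3 he

theorem A4H.mem_W2 {τ z : ℂ} (h : 0 < τ.im) : (τ, z) ∈ W2 ↔ z ∉ (pp τ).lattice := by
  rw [mem_pp_lattice h]
  constructor
  · rintro hw ⟨k, l, e⟩
    exact hw.2 k l e
  · intro hn
    exact ⟨h, fun k l e => hn ⟨k, l, e⟩⟩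

theorem A4H.diff_comp {U : Set (ℂ × ℂ)} {g : ℂ × ℂ → ℂ}
    (hg : DifferentiableOn ℂ g U) (hgm : ∀ p ∈ U, (p.1, g p) ∈ W2) :
    DifferentiableOn ℂ (fun p : ℂ × ℂ => (pp p.1).weierstrassP (g p)) U := by
  refine DifferentiableOn.comp (g := fun p : ℂ × ℂ => (pp p.1).weierstrassP p.2)
    (f := fun p : ℂ × ℂ => (p.1, g p)) (t := W2) wp_diffOn ?_ hgm
  exact differentiable_fst.differentiableOn.prodMk hg

theorem mmF_diffOn : DifferentiableOn ℂ (fun p : ℂ × ℂ => mmF p.1 p.2) WW := by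
  have h0 : DifferentiableOn ℂ (fun p : ℂ × ℂ => (pp p.1).weierstrassP p.2) WW :=
    diff_comp differentiable_snd.differentiableOn
      (fun p hp => (mem_W2 (τ := p.1) hp.1).2 (WW_not hp))
  have h1 : DifferentiableOn ℂ (fun p : ℂ × ℂ => (pp p.1).weierstrassP 1) WW :=
    diff_comp (differentiableOn_const _) (fun p hp => (mem_W2 hp.1).2 (one_not hp.1))
  have h2 : DifferentiableOn ℂ (fun p : ℂ × ℂ => (pp p.1).weierstrassP p.1) WW :=
    diff_comp differentiable_fst.differentiableOn (fun p hp => (mem_W2 hp.1).2 (tau_not hp.1))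
  have h5 := (h0.sub h1).mul ((h2.sub h1).inv (fun p (hp : p ∈ WW) => sub_ne (τ := p.1) hp.1))
  exact h5.congr (fun p hp => div_eq_mul_inv _ _)

theorem lamF_diff : DifferentiableOn ℂ lamF HH := by
  set U : Set (ℂ × ℂ) := {p | 0 < p.1.im} with hU
  have h1 : DifferentiableOn ℂ (fun p : ℂ × ℂ => (pp p.1).weierstrassP 1) U :=
    diff_comp (differentiableOn_const _) (fun p hp => (mem_W2 hp).2 (one_not hp))
  have h2 : DifferentiableOn ℂ (fun p : ℂ × ℂ => (pp p.1).weierstrassP p.1) U :=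
    diff_comp differentiable_fst.differentiableOn (fun p hp => (mem_W2 hp).2 (tau_not hp))
  have h3 : DifferentiableOn ℂ (fun p : ℂ × ℂ => (pp p.1).weierstrassP (1 + p.1)) U :=
    diff_comp (differentiable_fst.const_add 1).differentiableOn
      (fun p hp => (mem_W2 hp).2 (one_tau_not hp))
  have h4 : DifferentiableOn ℂ (fun p : ℂ × ℂ => lamF p.1) U := by
    have h5 := (h3.sub h1).mul ((h2.sub h1).inv (fun p (hp : p ∈ U) => sub_ne (τ := p.1) hp))
    exact h5.congr (fun p hp => div_eq_mul_inv _ _)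
  refine DifferentiableOn.comp (g := fun p : ℂ × ℂ => lamF p.1)
    (f := fun z : ℂ => (z, (0 : ℂ))) (t := U) h4 ?_ (fun z hz => hz)
  exact (differentiable_id.prodMk (differentiable_const _)).differentiableOn

theorem A4H.P_eq_cases {τ w : ℂ} (h : 0 < τ.im) (k l : ℤ) (hkl : ¬ (Even k ∧ Even l))
    (hw : w ∉ (pp τ).lattice)
    (e : (pp τ).weierstrassP w = (pp τ).weierstrassP (k + l * τ)) :
    ∃ m n : ℤ, w = m + n * τ ∧ Even (m - k) ∧ Even (n - l) := by
  rcases wp_eq (pp τ) hw (mt (int_mem h k l).1 hkl) e with h4 | h4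
  · obtain ⟨m, n, e'⟩ := (mem_pp_lattice h _).1 h4
    exact ⟨k + 2 * m, l + 2 * n, by push_cast; linear_combination e', ⟨m, by ring⟩, ⟨n, by ring⟩⟩
  · obtain ⟨m, n, e'⟩ := (mem_pp_lattice h _).1 h4
    exact ⟨-k + 2 * m, -l + 2 * n, by push_cast; linear_combination e', ⟨m - k, by ring⟩,
      ⟨n - l, by ring⟩⟩

theorem lamF_eq : ∀ τ ∈ HH, ∀ τ' ∈ HH, lamF τ = lamF τ' →
    ∃ a b c d : ℤ, Gam2 a b c d ∧ τ' = (a * τ + b) / (c * τ + d) := by
  intro τ h τ' h' e
  have hs := sub_ne h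
  have hs' := sub_ne h'
  obtain ⟨α, hα⟩ := IsAlgClosed.exists_pow_nat_eq
    (((pp τ').weierstrassP τ' - (pp τ').weierstrassP 1) /
      ((pp τ).weierstrassP τ - (pp τ).weierstrassP 1)) (n := 2) (by norm_num)
  have hα0 : α ≠ 0 := by
    rintro rfl
    rw [zero_pow two_ne_zero] at hα
    exact div_ne_zero hs' hs hα.symm
  obtain ⟨s1, s2, s3⟩ := esym h
  obtain ⟨s1', s2', s3'⟩ := esym h'
  have hD : (pp τ').weierstrassP τ' - (pp τ').weierstrassP 1 =
      α ^ 2 * ((pp τ).weierstrassP τ - (pp τ).weierstrassP 1) := by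
    rw [hα]; field_simp
  have hT : (pp τ').weierstrassP (1 + τ') - (pp τ').weierstrassP 1 =
      α ^ 2 * ((pp τ).weierstrassP (1 + τ) - (pp τ).weierstrassP 1) := by
    rw [lamF, lamF, div_eq_div_iff hs hs', hD] at e
    apply mul_right_cancel₀ hs
    rw [← e]; ring
  have e1 : (pp τ').weierstrassP 1 = α ^ 2 * (pp τ).weierstrassP 1 := by
    linear_combination (1/3 : ℂ) * s1' - (α ^ 2 / 3) * s1 - (1/3 : ℂ) * hD - (1/3 : ℂ) * hT
  have e2 : (pp τ').weierstrassP τ' = α ^ 2 * (pp τ).weierstrassP τ := by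
    linear_combination hD + e1
  have e3 : (pp τ').weierstrassP (1 + τ') = α ^ 2 * (pp τ).weierstrassP (1 + τ) := by
    linear_combination hT + e1
  have g2 : (pp τ').g₂ = α ^ 4 * (pp τ).g₂ := by
    rw [s2', s2, e1, e2, e3]; ring
  have g3 : (pp τ').g₃ = α ^ 6 * (pp τ).g₃ := by
    rw [s3', s3, e1, e2, e3]; ring
  have hmem := wp_scaled (pp τ) (pp τ') hα0 g2 g3
  have hP := fun z => wp_scale (pp τ) (pp τ') hα0 hmem z
  have hα2 : α ^ 2 ≠ 0 := pow_ne_zero 2 hα0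
  have p1 : (pp τ).weierstrassP α = (pp τ).weierstrassP 1 := by
    have := hP 1
    rw [e1, mul_one] at this
    exact (mul_left_cancel₀ hα2 this).symm
  have p2 : (pp τ).weierstrassP (α * τ') = (pp τ).weierstrassP τ := by
    have := hP τ'
    rw [e2] at this
    exact (mul_left_cancel₀ hα2 this).symm
  obtain ⟨d, c, ec, hd, hc⟩ := P_eq_cases h 1 0 (by decide) (w := α)
    (by have := (hmem 1).not.1 (one_not h'); rwa [mul_one] at this)
    (by rw [p1]; simp)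
  obtain ⟨b, a, ea, hb, ha⟩ := P_eq_cases h 0 1 (by decide) (w := α * τ')
    ((hmem τ').not.1 (tau_not h')) (by rw [p2]; simp)
  obtain ⟨p, q, hpq⟩ := (mem_pp_lattice h' (2 / α)).1 ((hmem _).2 (by
    have : α * (2 / α) = 2 * (((1 : ℤ) : ℂ) + ((0 : ℤ) : ℂ) * τ) := by
      push_cast; field_simp; ring
    rw [this, mem_pp_lattice h]
    exact ⟨1, 0, rfl⟩))
  obtain ⟨r, s, hrs⟩ := (mem_pp_lattice h' (2 * τ / α)).1 ((hmem _).2 (by
    have : α * (2 * τ / α) = 2 * (((0 : ℤ) : ℂ) + ((1 : ℤ) : ℂ) * τ) := by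
      push_cast; field_simp; ring
    rw [this, mem_pp_lattice h]
    exact ⟨0, 1, rfl⟩))
  have k1 : (p * d + q * b = 1) ∧ (p * c + q * a = 0) := by
    apply coordZ h
    have h5 : (2 : ℂ) = 2 * (p * α + q * (α * τ')) := by
      rw [div_eq_iff hα0] at hpq
      linear_combination hpq
    rw [ea] at h5
    rw [ec] at h5
    push_cast
    linear_combination (-1/2 : ℂ) * h5
  have k2 : (r * d + s * b = 0) ∧ (r * c + s * a = 1) := by
    apply coordZ h
    have h5 : 2 * τ = 2 * (r * α + s * (α * τ')) := by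
      rw [div_eq_iff hα0] at hrs
      linear_combination hrs
    rw [ea] at h5
    rw [ec] at h5
    push_cast
    linear_combination (-1/2 : ℂ) * h5
  have hunit : (a * d - b * c) * (p * s - q * r) = 1 := by
    have h6 : (p * d + q * b) * (r * c + s * a) - (p * c + q * a) * (r * d + s * b) = 1 := by
      rw [k1.1, k1.2, k2.1, k2.2]; ring
    linear_combination h6
  have hτ' : τ' = (a * τ + b) / (c * τ + d) := by
    have h7 : (c * τ + d : ℂ) = α := by rw [ec]; ring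
    rw [h7, eq_div_iff hα0, mul_comm, ea]; ring
  have hdet : a * d - b * c = 1 := by
    rcases Int.isUnit_iff.1 (IsUnit.of_mul_eq_one _ hunit) with h8 | h8
    · exact h8
    · exfalso
      have h9 : 0 < τ'.im := h'
      rw [hτ', im_formula] at h9
      have h10 : ((a : ℝ) * d - b * c) = -1 := by exact_mod_cast h8
      rw [h10] at h9
      have h11 : 0 ≤ normSq (c * τ + d) := normSq_nonneg _
      have h12 : -1 * τ.im / normSq (c * τ + d) ≤ 0 :=
        div_nonpos_of_nonpos_of_nonneg (by have : 0 < τ.im := h; linarith) h11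
      linarith
  refine ⟨a, b, c, d, ⟨hdet, ?_, ?_, ?_, ?_⟩, hτ'⟩
  · obtain ⟨m, hm⟩ := ha; exact ⟨m, by omega⟩
  · simpa using hb
  · simpa using hc
  · obtain ⟨m, hm⟩ := hd; exact ⟨m, by omega⟩

theorem lamF_lim : ∀ ε : ℝ, 0 < ε → ∃ Y : ℝ, 0 < Y ∧ ∀ τ : ℂ, Y < τ.im → ‖lamF τ - 1‖ < ε := by
  intro ε hε
  obtain ⟨Y1, hY1, h1⟩ := e1_lim (1 / 2) (by norm_num)
  obtain ⟨Y2, hY2, h2⟩ := e23_lim (min ε (1 / 2)) (by positivity)
  refine ⟨max Y1 Y2, by positivity, ?_⟩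
  intro τ hτ
  have hi : 0 < τ.im := lt_of_le_of_lt (hY1.le.trans (le_max_left _ _)) hτ
  have h3 := h1 τ (lt_of_le_of_lt (le_max_left _ _) hτ)
  have h4 := h2 τ (lt_of_le_of_lt (le_max_right _ _) hτ)
  have hs := sub_ne hi
  obtain ⟨s1, -, -⟩ := esym hi
  have e : lamF τ - 1 = ((pp τ).weierstrassP (1 + τ) - (pp τ).weierstrassP τ) /
      ((pp τ).weierstrassP τ - (pp τ).weierstrassP 1) := by
    rw [lamF]; field_simp; ring
  have h5 : (3 / 2 : ℂ) * ((Real.pi : ℂ) ^ 2 / 6) =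
      -((pp τ).weierstrassP τ - (pp τ).weierstrassP 1) -
      (1 / 2 : ℂ) * ((pp τ).weierstrassP (1 + τ) - (pp τ).weierstrassP τ) -
      (3 / 2 : ℂ) * ((pp τ).weierstrassP 1 - (Real.pi : ℂ) ^ 2 / 6) := by
    linear_combination (1/2 : ℂ) * s1
  have h6 : ‖(3 / 2 : ℂ) * ((Real.pi : ℂ) ^ 2 / 6)‖ = Real.pi ^ 2 / 4 := by
    have : (3 / 2 : ℂ) * ((Real.pi : ℂ) ^ 2 / 6) = ((Real.pi ^ 2 / 4 : ℝ) : ℂ) := by
      push_cast; ring
    rw [this, Complex.norm_real, Real.norm_of_nonneg (by positivity)]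
  have h7 : Real.pi ^ 2 / 4 ≤ ‖(pp τ).weierstrassP τ - (pp τ).weierstrassP 1‖ +
      1 / 2 * ‖(pp τ).weierstrassP (1 + τ) - (pp τ).weierstrassP τ‖ +
      3 / 2 * ‖(pp τ).weierstrassP 1 - (Real.pi : ℂ) ^ 2 / 6‖ := by
    rw [← h6, h5]
    refine (norm_sub_le _ _).trans ?_
    refine add_le_add ((norm_sub_le _ _).trans ?_) ?_
    · rw [norm_neg, norm_mul]
      norm_num
    · rw [norm_mul]
      norm_num
  have h8 : 1 < ‖(pp τ).weierstrassP τ - (pp τ).weierstrassP 1‖ := by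
    have hpi := Real.pi_gt_three
    have h9 : ‖(pp τ).weierstrassP (1 + τ) - (pp τ).weierstrassP τ‖ < 1 / 2 :=
      lt_of_lt_of_le h4 (min_le_right _ _)
    nlinarith
  rw [e, norm_div]
  calc ‖(pp τ).weierstrassP (1 + τ) - (pp τ).weierstrassP τ‖ /
      ‖(pp τ).weierstrassP τ - (pp τ).weierstrassP 1‖ ≤
      ‖(pp τ).weierstrassP (1 + τ) - (pp τ).weierstrassP τ‖ := div_le_self (norm_nonneg _) h8.le
    _ < ε := lt_of_lt_of_le h4 (min_le_left _ _)

theorem lamF_I : lamF I = 1 / 2 := by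
  have h := lamF_S I (by simp [HH])
  have h1 : (-1 : ℂ) / I = I := by
    rw [div_eq_iff I_ne_zero, I_mul_I]
  rw [h1] at h
  linear_combination (1 / 2 : ℂ) * h

end Pool.Agent.T05
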