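import Pool.Agent.Lib.MP_0162a5_an.A5b

/-! MODULE A5, part c: surjectivity of `lamF`. -/

set_option autoImplicit false

open Complex Metric Set Filter Topology
open scoped UpperHalfPlane MatrixGroups Modular

namespace Pool.Agent.T05

/-- the rational function of degree six defining the `j`-invariant -/
noncomputable def jj (x : ℂ) : ℂ := (x ^ 2 - x + 1) ^ 3 / (x ^ 2 * (1 - x) ^ 2)

noncomputable def JF (τ : ℂ) : ℂ := jj (lamF τ)

theorem lamF_mem' {τ : ℂ} (hτ : τ ∈ HH) : lamF τ ≠ 0 ∧ lamF τ ≠ 1 := lamF_mem τ hτ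

theorem HH_add_one {τ : ℂ} (hτ : τ ∈ HH) : τ + 1 ∈ HH := by
  have h : 0 < τ.im := hτ
  change 0 < (τ + 1).im
  simpa using h

theorem HH_neg_inv {τ : ℂ} (hτ : τ ∈ HH) : -1 / τ ∈ HH := by
  have h := moeb_mem (a := 0) (b := -1) (c := 1) (d := 0) (by norm_num) hτ
  simpa using h

theorem JF_T {τ : ℂ} (hτ : τ ∈ HH) : JF (τ + 1) = JF τ := by
  obtain ⟨h0, h1⟩ := lamF_mem' hτ
  unfold JF jj
  rw [lamF_T τ hτ]
  have h2 : 1 - lamF τ ≠ 0 := sub_ne_zero.mpr (Ne.symm h1)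
  generalize lamF τ = x at *
  have h3 : 1 - x⁻¹ ≠ 0 := by
    intro h
    apply h2
    field_simp at h
    linear_combination -h
  rw [div_eq_div_iff (by positivity) (by positivity)]
  field_simp
  ring

theorem JF_S {τ : ℂ} (hτ : τ ∈ HH) : JF (-1 / τ) = JF τ := by
  unfold JF jj
  rw [lamF_S τ hτ]
  congr 1 <;> ring

theorem JF_smul (g : SL(2, ℤ)) (z : ℍ) : JF ((g • z : ℍ) : ℂ) = JF (z : ℂ) := by
  have hmem : g ∈ Subgroup.closure {ModularGroup.S, ModularGroup.T} := by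
    simp [SpecialLinearGroup.SL2Z_generators]
  induction hmem using Subgroup.closure_induction generalizing z with
  | mem x hx =>
    rcases hx with rfl | rfl
    · rw [UpperHalfPlane.modular_S_smul]
      have : (-(z : ℂ))⁻¹ = -1 / (z : ℂ) := by rw [neg_div, one_div, inv_neg]
      change JF ((-(z : ℂ))⁻¹) = JF (z : ℂ)
      rw [this]
      exact JF_S z.2
    · rw [UpperHalfPlane.modular_T_smul]
      have : (((1 : ℝ) +ᵥ z : ℍ) : ℂ) = (z : ℂ) + 1 := by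
        rw [UpperHalfPlane.coe_vadd]; push_cast; ring
      rw [this]
      exact JF_T z.2
  | one => simp
  | mul x y _ _ hx hy => rw [mul_smul, hx, hy]
  | inv x _ hx => rw [← hx (x⁻¹ • z), smul_inv_smul]

theorem jj_analytic {x : ℂ} (h0 : x ≠ 0) (h1 : x ≠ 1) : AnalyticAt ℂ jj x := by
  unfold jj
  have h2 : x ^ 2 * (1 - x) ^ 2 ≠ 0 := by
    have : 1 - x ≠ 0 := sub_ne_zero.mpr (Ne.symm h1)
    positivity
  have hn : AnalyticAt ℂ (fun x : ℂ => (x ^ 2 - x + 1) ^ 3) x := by fun_prop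
  have hd : AnalyticAt ℂ (fun x : ℂ => x ^ 2 * (1 - x) ^ 2) x := by fun_prop
  exact hn.div hd h2

theorem JF_analytic {τ : ℂ} (hτ : τ ∈ HH) : AnalyticAt ℂ JF τ := by
  obtain ⟨h0, h1⟩ := lamF_mem' hτ
  exact (jj_analytic h0 h1).fun_comp (lamF_analytic hτ)

theorem jj_tendsto : Tendsto (fun x => ‖jj x‖) (𝓝[≠] 1) atTop := by
  have h1 : Tendsto (fun x : ℂ => ‖(x ^ 2 - x + 1) ^ 3‖) (𝓝[≠] 1) (𝓝 1) := by
    have : Continuous (fun x : ℂ => ‖(x ^ 2 - x + 1) ^ 3‖) := by fun_prop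
    have h2 := (this.tendsto 1).mono_left (nhdsWithin_le_nhds (s := {1}ᶜ))
    simpa using h2
  have h2 : Tendsto (fun x : ℂ => ‖x ^ 2 * (1 - x) ^ 2‖⁻¹) (𝓝[≠] 1) atTop := by
    apply tendsto_inv_nhdsGT_zero.comp
    apply tendsto_nhdsWithin_of_tendsto_nhds_of_eventually_within
    · have : Continuous (fun x : ℂ => ‖x ^ 2 * (1 - x) ^ 2‖) := by fun_prop
      have h2 := (this.tendsto 1).mono_left (nhdsWithin_le_nhds (s := {1}ᶜ))
      simpa using h2
    · have h3 : ∀ᶠ x : ℂ in 𝓝[≠] 1, x ≠ 0 :=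
        (eventually_ne_nhds (one_ne_zero : (1 : ℂ) ≠ 0)).filter_mono nhdsWithin_le_nhds
      filter_upwards [h3, self_mem_nhdsWithin] with x hx0 hx1
      have : 1 - x ≠ 0 := sub_ne_zero.mpr (Ne.symm hx1)
      have h4 : x ^ 2 * (1 - x) ^ 2 ≠ 0 := by positivity
      exact norm_pos_iff.mpr h4
  have h3 := h1.pos_mul_atTop one_pos h2
  refine h3.congr (fun x => ?_)
  unfold jj
  rw [norm_div, div_eq_mul_inv]

theorem JF_lim (R : ℝ) : ∃ Y : ℝ, 0 < Y ∧ ∀ τ : ℂ, Y < τ.im → R < ‖JF τ‖ := by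
  have h1 := jj_tendsto.eventually (eventually_gt_atTop R)
  rw [eventually_nhdsWithin_iff, Metric.eventually_nhds_iff] at h1
  obtain ⟨ε, hε, h2⟩ := h1
  obtain ⟨Y, hY, h3⟩ := lamF_lim ε hε
  refine ⟨Y, hY, fun τ hτ => ?_⟩
  have hτ' : τ ∈ HH := hY.trans hτ
  apply h2
  · rw [dist_eq_norm]; exact h3 τ hτ
  · exact (lamF_mem' hτ').2

theorem JF_surj (c : ℂ) : ∃ τ ∈ HH, JF τ = c := by
  have hA : AnalyticOnNhd ℂ JF HH := fun z hz => JF_analytic hz
  have hIm : (I : ℂ) ∈ HH := by simp [HH]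
  have hopen : IsOpen (JF '' HH) := by
    rcases hA.is_constant_or_isOpen HH_convex.isPreconnected with ⟨w, hw⟩ | h
    · exfalso
      obtain ⟨Y, hY, h3⟩ := JF_lim ‖w‖
      have hm : (((Y + 1 : ℝ) : ℂ) * I) ∈ HH := by
        change 0 < (((Y + 1 : ℝ) : ℂ) * I).im
        simp
        linarith
      have h4 := h3 (((Y + 1 : ℝ) : ℂ) * I) (by simp)
      rw [hw _ hm] at h4
      exact lt_irrefl _ h4
    · exact h HH subset_rfl HH_open
  have hclosed : IsClosed (JF '' HH) := by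
    apply isClosed_of_closure_subset
    intro y hy
    obtain ⟨Y, hY, h3⟩ := JF_lim (‖y‖ + 1)
    set K : Set ℂ := {z | |z.re| ≤ 1 / 2 ∧ 1 / 2 ≤ z.im ∧ z.im ≤ Y} with hK
    have hKH : K ⊆ HH := fun z hz => by
      have : 0 < z.im := by linarith [hz.2.1]
      exact this
    have hKc : IsCompact K := by
      have : K = (Icc (-(1 / 2)) (1 / 2) : Set ℝ) ×ℂ (Icc (1 / 2) Y) := by
        ext z
        simp only [hK, mem_ofPred_eq, mem_reProdIm, mem_Icc, abs_le]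
      rw [this]
      exact isCompact_Icc.reProdIm isCompact_Icc
    have hJKc : IsCompact (JF '' K) :=
      hKc.image_of_continuousOn (fun z hz => (JF_analytic (hKH hz)).continuousAt.continuousWithinAt)
    by_contra hyn
    have hyK : y ∉ JF '' K := fun h => hyn (image_mono hKH h)
    have hN : (JF '' K)ᶜ ∩ ball y 1 ∈ 𝓝 y :=
      inter_mem (hJKc.isClosed.isOpen_compl.mem_nhds hyK) (ball_mem_nhds y one_pos)
    obtain ⟨s, ⟨hs1, hs2⟩, τ, hτ, rfl⟩ := mem_closure_iff_nhds.mp hy _ hN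
    obtain ⟨g, hg⟩ := ModularGroup.exists_smul_mem_fd (⟨τ, hτ⟩ : ℍ)
    set z : ℍ := g • (⟨τ, hτ⟩ : ℍ) with hz
    have hJ : JF (z : ℂ) = JF τ := JF_smul g ⟨τ, hτ⟩
    apply hs1
    refine ⟨(z : ℂ), ?_, hJ⟩
    have hz1 : |(z : ℂ).re| ≤ 1 / 2 := hg.2
    have hz2 : 1 ≤ Complex.normSq (z : ℂ) := hg.1
    have hz3 : 0 < (z : ℂ).im := z.2
    refine ⟨hz1, ?_, ?_⟩
    · rw [Complex.normSq_apply] at hz2
      have := abs_le.mp hz1
      nlinarith
    · by_contra hlt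
      push Not at hlt
      have h5 := h3 _ hlt
      rw [hJ] at h5
      have h6 : ‖JF τ‖ < ‖y‖ + 1 := by
        have h7 : dist (JF τ) y < 1 := hs2
        rw [dist_eq_norm] at h7
        have h8 : ‖JF τ‖ ≤ ‖JF τ - y‖ + ‖y‖ := by
          have := norm_add_le (JF τ - y) y
          simpa using this
        linarith
      linarith
  have huniv : JF '' HH = univ := IsClopen.eq_univ ⟨hclosed, hopen⟩ ⟨_, mem_image_of_mem _ hIm⟩
  have : c ∈ JF '' HH := by rw [huniv]; trivial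
  obtain ⟨τ, hτ, h⟩ := this
  exact ⟨τ, hτ, h⟩

theorem jj_fibre {c x : ℂ} (hc0 : c ≠ 0) (hc1 : c ≠ 1) (hx0 : x ≠ 0) (hx1 : x ≠ 1)
    (h : jj x = jj c) : c = x ∨ c = 1 - x ∨ c = x⁻¹ ∨ c = (1 - x)⁻¹ ∨ c = 1 - x⁻¹ ∨
      c = (1 - x⁻¹)⁻¹ := by
  unfold jj at h
  have h2 : 1 - x ≠ 0 := sub_ne_zero.mpr (Ne.symm hx1)
  have h3 : 1 - c ≠ 0 := sub_ne_zero.mpr (Ne.symm hc1)
  rw [div_eq_div_iff (by positivity) (by positivity)] at h
  have h4 : (c - x) * (c - (1 - x)) * (c * x - 1) * (c * (1 - x) - 1) * (c * x - x + 1) *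
      (c * (x - 1) - x) = 0 := by
    linear_combination h
  have h5 : x - 1 ≠ 0 := sub_ne_zero.mpr hx1
  simp only [mul_eq_zero] at h4
  rcases h4 with ((((h4 | h4) | h4) | h4) | h4) | h4
  · left; exact sub_eq_zero.mp h4
  · right; left; exact sub_eq_zero.mp h4
  · right; right; left
    exact eq_inv_of_mul_eq_one_left (sub_eq_zero.mp h4)
  · right; right; right; left
    exact eq_inv_of_mul_eq_one_left (sub_eq_zero.mp h4)
  · right; right; right; right; left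
    field_simp
    linear_combination h4
  · right; right; right; right; right
    have h6 : 1 - x⁻¹ = (x - 1) / x := by field_simp
    rw [h6, inv_div, eq_div_iff h5]
    linear_combination h4

theorem lamF_surj : ∀ z ∈ C01, ∃ τ ∈ HH, lamF τ = z := by
  intro c hc
  obtain ⟨τ, hτ, h⟩ := JF_surj (jj c)
  obtain ⟨h0, h1⟩ := lamF_mem' hτ
  have hτ1 := HH_add_one hτ
  have hτ2 := HH_neg_inv hτ
  have hτ3 := HH_neg_inv hτ1
  rcases jj_fibre hc.1 hc.2 h0 h1 h with h | h | h | h | h | h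
  · exact ⟨τ, hτ, h.symm⟩
  · exact ⟨-1 / τ, hτ2, by rw [lamF_S τ hτ, h]⟩
  · exact ⟨τ + 1, hτ1, by rw [lamF_T τ hτ, h]⟩
  · exact ⟨-1 / τ + 1, HH_add_one hτ2, by rw [lamF_T _ hτ2, lamF_S τ hτ, h]⟩
  · exact ⟨-1 / (τ + 1), hτ3, by rw [lamF_S _ hτ1, lamF_T τ hτ, h]⟩
  · exact ⟨-1 / (τ + 1) + 1, HH_add_one hτ3, by rw [lamF_T _ hτ3, lamF_S _ hτ1, lamF_T τ hτ, h]⟩

end Pool.Agent.T05
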