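import Mathlib

/-! Lifting from convex sets through covering maps. -/

set_option autoImplicit false

open Metric Set Filter Topology unitInterval

namespace Pool.Agent.T05

theorem cov_lift_convex {E X : Type*} [TopologicalSpace E] [TopologicalSpace X] {p : E → X}
    (cov : IsCoveringMap p) {F : Type*} [NormedAddCommGroup F] [NormedSpace ℝ F] {A : Set F}
    (hA : Convex ℝ A) (g : A → X) (hg : Continuous g) (a : A) (e : E) (he : p e = g a) :
    ∃ G : A → E, Continuous G ∧ G a = e ∧ ∀ b, p (G b) = g b := by
  have hmem : ∀ q : I × A, ((a : F) + (q.1 : ℝ) • ((q.2 : F) - a)) ∈ A := by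
    intro q
    have := hA a.2 q.2.2 (sub_nonneg.2 q.1.2.2) q.1.2.1 (by ring)
    have h2 : ((1 : ℝ) - (q.1 : ℝ)) • (a : F) + (q.1 : ℝ) • (q.2 : F)
        = (a : F) + (q.1 : ℝ) • ((q.2 : F) - a) := by
      rw [smul_sub, sub_smul, one_smul]; abel
    rwa [h2] at this
  let H : C(I × A, X) := ⟨fun q => g ⟨_, hmem q⟩, by
    apply hg.comp
    refine Continuous.subtype_mk ?_ _
    fun_prop⟩
  have H0 : ∀ b : A, H (0, b) = p ((ContinuousMap.const A e) b) := by
    intro b
    have : (⟨_, hmem (0, b)⟩ : A) = a := by
      apply Subtype.ext; simp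
    change g ⟨_, hmem (0, b)⟩ = p e
    rw [this, he]
  let L := cov.liftHomotopy H (ContinuousMap.const A e) H0
  refine ⟨fun b => L (1, b), by fun_prop, ?_, ?_⟩
  · -- the path is constant over `a`
    have h1 : ∀ t : I, L (t, a) = e := by
      have hc : Continuous (fun t : I => L (t, a)) := by fun_prop
      have hcc : ∀ t t' : I, p (L (t, a)) = p (L (t', a)) := by
        intro t t'
        have e1 := congr_fun (cov.liftHomotopy_lifts H (ContinuousMap.const A e) H0) (t, a)
        have e2 := congr_fun (cov.liftHomotopy_lifts H (ContinuousMap.const A e) H0) (t', a)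
        simp only [Function.comp_apply] at e1 e2
        change p (L (t, a)) = _ at e1
        change p (L (t', a)) = _ at e2
        rw [e1, e2]
        change g ⟨_, hmem (t, a)⟩ = g ⟨_, hmem (t', a)⟩
        congr 1
        apply Subtype.ext; simp
      intro t
      have := cov.const_of_comp hc hcc t 0
      rw [this]
      exact cov.liftHomotopy_zero H (ContinuousMap.const A e) H0 a
    exact h1 1
  · intro b
    have e1 := congr_fun (cov.liftHomotopy_lifts H (ContinuousMap.const A e) H0) (1, b)
    simp only [Function.comp_apply] at e1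
    change p (L (1, b)) = _ at e1
    rw [e1]
    change g ⟨_, hmem (1, b)⟩ = g b
    congr 1
    apply Subtype.ext; simp

/-- version for functions on the whole space, continuous on the set -/
theorem cov_lift_convexOn {E X : Type*} [TopologicalSpace E] [TopologicalSpace X] {p : E → X}
    (cov : IsCoveringMap p) {F : Type*} [NormedAddCommGroup F] [NormedSpace ℝ F] {A : Set F}
    (hA : Convex ℝ A) {g : F → X} (hg : ContinuousOn g A) {a : F} (ha : a ∈ A) (e : E)
    (he : p e = g a) :
    ∃ G : F → E, ContinuousOn G A ∧ G a = e ∧ ∀ b ∈ A, p (G b) = g b := by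
  classical
  obtain ⟨G, h1, h2, h3⟩ := cov_lift_convex cov hA (fun b : A => g b) (by
    rw [continuousOn_iff_continuous_domRestrict] at hg; exact hg) ⟨a, ha⟩ e he
  refine ⟨fun b => if h : b ∈ A then G ⟨b, h⟩ else e, ?_, ?_, ?_⟩
  · rw [continuousOn_iff_continuous_domRestrict]
    have : A.domRestrict (fun b => if h : b ∈ A then G ⟨b, h⟩ else e) = G := by
      funext b
      simp only [Set.domRestrict_apply, b.2, dif_pos]
    rw [this]; exact h1
  · simp only [ha, dif_pos]; exact h2
  · intro b hb; simp only [hb, dif_pos]; exact h3 ⟨b, hb⟩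

end Pool.Agent.T05
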