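import Mathlib
import Pool.Agent.Lib.MP_0162a5_an.T0

/-! MODULE Roots: continuous choice of the roots along a homotopy of split separable polynomials.
-/

set_option autoImplicit false

open Metric Set Topology Filter

namespace Pool.Agent.T05

open Polynomial in
theorem near_root {q : ℂ[X]} (hm : q.Monic) {n : ℕ} (hn : q.natDegree = n) {z : ℂ} {ε : ℝ}
    (hε : 0 < ε) (h : ‖q.eval z‖ < ε ^ n) : ∃ w, q.eval w = 0 ∧ ‖w - z‖ < ε := by
  by_contra hcon
  push Not at hcon
  have h1 := (IsAlgClosed.splits q).eval_eq_prod_roots_of_monic hm z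
  have h2 : q.roots.card = n := by rw [← hn]; exact IsAlgClosed.card_roots_eq_natDegree
  have h3 : ∀ s : Multiset ℂ, (∀ a ∈ s, ε ≤ ‖z - a‖) →
      ε ^ s.card ≤ ‖(s.map (fun a => z - a)).prod‖ := by
    intro s
    induction s using Multiset.induction_on with
    | empty => intro _; simp
    | cons a s ih =>
      intro hs
      rw [Multiset.card_cons, Multiset.map_cons, Multiset.prod_cons, norm_mul, pow_succ']
      apply mul_le_mul (hs a (Multiset.mem_cons_self a s))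
        (ih fun b hb => hs b (Multiset.mem_cons_of_mem hb)) (by positivity) (norm_nonneg _)
  have h4 := h3 q.roots (by
    intro a ha
    rw [Polynomial.mem_roots hm.ne_zero] at ha
    rw [norm_sub_rev]
    exact hcon a ha)
  rw [h2] at h4
  rw [h1] at h
  exact absurd h (not_lt.2 h4)

open Polynomial in
theorem eq_prod_of_inj {q : ℂ[X]} (hm : q.Monic) {n : ℕ} (hn : q.natDegree = n)
    (r : Fin n → ℂ) (hr : ∀ i, q.eval (r i) = 0) (hinj : Function.Injective r) :
    q = ∏ i, (X - C (r i)) := by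
  have h1 : (∏ i, (X - C (r i))) ∣ q := by
    apply Finset.prod_dvd_of_coprime
    · intro i _ j _ hij
      exact Polynomial.isCoprime_X_sub_C_of_isUnit_sub
        ((sub_ne_zero.2 (fun h => hij (hinj h))).isUnit)
    · intro i _
      exact Polynomial.dvd_iff_isRoot.2 (hr i)
  have h2 : (∏ i, (X - C (r i))).Monic := Polynomial.monic_prod_of_monic _ _ fun i _ =>
    Polynomial.monic_X_sub_C _
  apply Polynomial.eq_of_monic_of_dvd_of_natDegree_le h2 hm h1
  rw [Polynomial.natDegree_prod_of_monic _ _ (fun i _ => Polynomial.monic_X_sub_C _)]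
  simp [hn]

section cover

variable {F : Type} [NormedAddCommGroup F] {A : Set F}
  {n : ℕ} {p : F → Polynomial ℂ}

/-- the space of roots -/
def RootSet (A : Set F) (p : F → Polynomial ℂ) : Set (F × ℂ) :=
  {w | w.1 ∈ A ∧ (p w.1).eval w.2 = 0}

theorem eval_cont (hp : ∀ k, ContinuousOn (fun x => (p x).coeff k) A)
    (hn : ∀ x ∈ A, (p x).natDegree = n) :
    ContinuousOn (fun w : F × ℂ => (p w.1).eval w.2) (A ×ˢ univ) := by
  have h1 : ∀ w ∈ A ×ˢ (univ : Set ℂ), (fun w : F × ℂ => (p w.1).eval w.2) w =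
      ∑ k ∈ Finset.range (n + 1), (p w.1).coeff k * w.2 ^ k := by
    intro w hw
    exact Polynomial.eval_eq_sum_range' (by rw [hn _ hw.1]; omega) _
  apply ContinuousOn.congr _ h1
  apply continuousOn_finsetSum
  intro k _
  apply ContinuousOn.mul
  · exact (hp k).comp continuousOn_fst fun w hw => hw.1
  · fun_prop

theorem root_bound {q : Polynomial ℂ} (hm : q.Monic) (hn : q.natDegree = n) {z : ℂ}
    (hz : q.eval z = 0) : ‖z‖ ≤ 1 + ∑ k ∈ Finset.range n, ‖q.coeff k‖ := by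
  by_contra hcon
  push Not at hcon
  have hs : 0 ≤ ∑ k ∈ Finset.range n, ‖q.coeff k‖ := Finset.sum_nonneg fun _ _ => norm_nonneg _
  have h1 : 1 ≤ ‖z‖ := by linarith
  have h0 : 0 < ‖z‖ := by linarith
  rw [Polynomial.eval_eq_sum_range' (n := n + 1) (by omega), Finset.sum_range_succ] at hz
  have hlc : q.coeff n = 1 := by rw [← hn]; exact hm.leadingCoeff
  rw [hlc, one_mul] at hz
  have h2 : z ^ n = -∑ k ∈ Finset.range n, q.coeff k * z ^ k := by
    rw [eq_neg_iff_add_eq_zero, add_comm]; exact hz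
  have h3 : ‖z‖ ^ n ≤ ∑ k ∈ Finset.range n, ‖q.coeff k‖ * ‖z‖ ^ k := by
    rw [← norm_pow, h2, norm_neg]
    refine (norm_sum_le _ _).trans (le_of_eq ?_)
    apply Finset.sum_congr rfl
    intro k _
    rw [norm_mul, norm_pow]
  rcases Nat.eq_zero_or_pos n with hn0 | hn0
  · subst hn0
    simp at h3
    linarith
  have h4 : ∑ k ∈ Finset.range n, ‖q.coeff k‖ * ‖z‖ ^ k ≤
      (∑ k ∈ Finset.range n, ‖q.coeff k‖) * ‖z‖ ^ (n - 1) := by
    rw [Finset.sum_mul]
    apply Finset.sum_le_sum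
    intro k hk
    apply mul_le_mul_of_nonneg_left _ (norm_nonneg _)
    exact pow_le_pow_right₀ h1 (by have := Finset.mem_range.1 hk; omega)
  have h5 : ‖z‖ ^ n = ‖z‖ * ‖z‖ ^ (n - 1) := by
    rw [← pow_succ']; congr 1; omega
  have h6 : 0 < ‖z‖ ^ (n - 1) := by positivity
  rw [h5] at h3
  have h7 : ‖z‖ ≤ ∑ k ∈ Finset.range n, ‖q.coeff k‖ := by
    have := h3.trans h4
    exact le_of_mul_le_mul_right this h6
  linarith

theorem rootSet_compact (hA : IsCompact A) (hp : ∀ k, ContinuousOn (fun x => (p x).coeff k) A)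
    (hm : ∀ x ∈ A, (p x).Monic) (hn : ∀ x ∈ A, (p x).natDegree = n) :
    IsCompact (RootSet A p) := by
  have h1 : ContinuousOn (fun x => 1 + ∑ k ∈ Finset.range n, ‖(p x).coeff k‖) A := by
    apply ContinuousOn.add continuousOn_const
    apply continuousOn_finsetSum
    intro k _
    exact (hp k).norm
  obtain ⟨C, hC⟩ := (hA.image_of_continuousOn h1).bddAbove
  have h2 : RootSet A p = (A ×ˢ closedBall (0 : ℂ) C) ∩
      (fun w : F × ℂ => (p w.1).eval w.2) ⁻¹' {0} := by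
    ext w
    constructor
    · intro hw
      refine ⟨⟨hw.1, ?_⟩, hw.2⟩
      rw [mem_closedBall_zero_iff]
      exact (root_bound (hm _ hw.1) (hn _ hw.1) hw.2).trans (hC ⟨w.1, hw.1, rfl⟩)
    · intro hw
      exact ⟨hw.1.1, hw.2⟩
  rw [h2]
  have h3 : IsCompact (A ×ˢ closedBall (0 : ℂ) C) := hA.prod (isCompact_closedBall _ _)
  have h4 : IsClosed ((A ×ˢ closedBall (0 : ℂ) C) ∩
      (fun w : F × ℂ => (p w.1).eval w.2) ⁻¹' {0}) := by
    apply ContinuousOn.preimage_isClosed_of_isClosed _ h3.isClosed isClosed_singleton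
    exact (eval_cont hp hn).mono (prod_mono le_rfl (subset_univ _))
  exact h3.of_isClosed_subset h4 inter_subset_left

/-- nearby roots -/
theorem near_roots (hp : ∀ k, ContinuousOn (fun x => (p x).coeff k) A)
    (hm : ∀ x ∈ A, (p x).Monic) (hn : ∀ x ∈ A, (p x).natDegree = n) {x : F} (hx : x ∈ A) {z : ℂ}
    (hz : (p x).eval z = 0) {ε : ℝ} (hε : 0 < ε) :
    ∀ᶠ y in 𝓝[A] x, ∃ w, (p y).eval w = 0 ∧ ‖w - z‖ < ε := by
  have h1 : ContinuousWithinAt (fun y => (p y).eval z) A x := by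
    have h2 := (eval_cont hp hn) (x, z) ⟨hx, mem_univ _⟩
    have h3 : ContinuousWithinAt (fun y : F => (y, z)) A x := by fun_prop
    exact h2.comp (f := fun y : F => (y, z)) (x := x) h3 (fun y hy => ⟨hy, mem_univ _⟩)
  have h4 : ∀ᶠ y in 𝓝[A] x, ‖(p y).eval z‖ < ε ^ n := by
    have := h1.norm
    unfold ContinuousWithinAt at this
    simp only [hz, norm_zero] at this
    exact this.eventually_lt_const (by positivity)
  filter_upwards [h4, self_mem_nhdsWithin] with y hy hyA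
  exact near_root (hm y hyA) (hn y hyA) hε hy

/-- local uniqueness -/
theorem loc_unique (hp : ∀ k, ContinuousOn (fun x => (p x).coeff k) A)
    (hm : ∀ x ∈ A, (p x).Monic) (hn : ∀ x ∈ A, (p x).natDegree = n)
    (hs : ∀ x ∈ A, (p x).Separable) {x : F} (hx : x ∈ A) {z : ℂ}
    (hz : (p x).eval z = 0) :
    ∃ δ > 0, ∀ᶠ y in 𝓝[A] x, ∀ w w', (p y).eval w = 0 → (p y).eval w' = 0 →
      ‖w - z‖ < δ → ‖w' - z‖ < δ → w = w' := by
  classical
  set R := (p x).roots.toFinset with hR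
  have hRc : R.card = n := by
    rw [hR, Multiset.toFinset_card_of_nodup (Polynomial.nodup_roots (hs x hx)), ← hn x hx]
    exact IsAlgClosed.card_roots_eq_natDegree
  have hzR : z ∈ R := by
    rw [hR, Multiset.mem_toFinset, Polynomial.mem_roots (hm x hx).ne_zero]
    exact hz
  obtain ⟨δ, hδ, hsep⟩ : ∃ δ > 0, ∀ a ∈ R, ∀ b ∈ R, a ≠ b → 2 * δ ≤ ‖a - b‖ := by
    by_cases hne : (R.offDiag).Nonempty
    · obtain ⟨c, hc, hcmin⟩ := Finset.exists_min_image R.offDiag (fun c => ‖c.1 - c.2‖) hne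
      refine ⟨‖c.1 - c.2‖ / 2, ?_, ?_⟩
      · have := (Finset.mem_offDiag.1 hc).2.2
        have := norm_pos_iff.2 (sub_ne_zero.2 this)
        positivity
      · intro a ha b hb hab
        have := hcmin (a, b) (Finset.mem_offDiag.2 ⟨ha, hb, hab⟩)
        simp only at this
        linarith
    · refine ⟨1, one_pos, ?_⟩
      intro a ha b hb hab
      exact absurd ⟨(a, b), Finset.mem_offDiag.2 ⟨ha, hb, hab⟩⟩ hne
  refine ⟨δ, hδ, ?_⟩
  have hev : ∀ᶠ y in 𝓝[A] x, ∀ a ∈ R, ∃ w, (p y).eval w = 0 ∧ ‖w - a‖ < δ := by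
    rw [Filter.eventually_all_finset]
    intro a ha
    apply near_roots hp hm hn hx _ hδ
    rw [hR, Multiset.mem_toFinset, Polynomial.mem_roots (hm x hx).ne_zero] at ha
    exact ha
  filter_upwards [hev, self_mem_nhdsWithin] with y hy hyA w w' hw hw' hwz hwz'
  choose! s hs0 hsd using hy
  have hsinj : Set.InjOn s R := by
    intro a ha b hb hab
    by_contra hne
    have h1 := hsep a ha b hb hne
    have h2 := hsd a ha
    have h3 := hsd b hb
    have h4 : a - b = (s b - b) - (s a - a) := by rw [hab]; ring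
    have h5 : ‖a - b‖ ≤ ‖s b - b‖ + ‖s a - a‖ := by rw [h4]; exact norm_sub_le _ _
    linarith
  have hcard : (R.image s).card = n := by
    rw [Finset.card_image_of_injOn hsinj, hRc]
  have himg : R.image s = (p y).roots.toFinset := by
    apply Finset.eq_of_subset_of_card_le
    · intro a ha
      obtain ⟨b, hb, rfl⟩ := Finset.mem_image.1 ha
      rw [Multiset.mem_toFinset, Polynomial.mem_roots (hm y hyA).ne_zero]
      exact hs0 b hb
    · rw [hcard, ← hn y hyA]
      exact (Multiset.toFinset_card_le _).trans (Polynomial.card_roots' _)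
  have key : ∀ v, (p y).eval v = 0 → ‖v - z‖ < δ → v = s z := by
    intro v hv hvz
    have : v ∈ R.image s := by
      rw [himg, Multiset.mem_toFinset, Polynomial.mem_roots (hm y hyA).ne_zero]
      exact hv
    obtain ⟨b, hb, hbv⟩ := Finset.mem_image.1 this
    by_cases hbz : b = z
    · rw [← hbv, hbz]
    · exfalso
      have h1 := hsep b hb z hzR hbz
      have h2 := hsd b hb
      rw [hbv] at h2
      have h4 : b - z = (v - z) - (v - b) := by ring
      have h5 : ‖b - z‖ ≤ ‖v - z‖ + ‖v - b‖ := by rw [h4]; exact norm_sub_le _ _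
      linarith
  rw [key w hw hwz, key w' hw' hwz']

/-- the projection of the space of roots is a covering map -/
theorem root_cov (hA : IsCompact A) (hp : ∀ k, ContinuousOn (fun x => (p x).coeff k) A)
    (hm : ∀ x ∈ A, (p x).Monic) (hn : ∀ x ∈ A, (p x).natDegree = n)
    (hs : ∀ x ∈ A, (p x).Separable) :
    IsCoveringMap (fun w : RootSet A p => (⟨w.1.1, w.2.1⟩ : A)) := by
  haveI : CompactSpace (RootSet A p) := isCompact_iff_compactSpace.1 (rootSet_compact hA hp hm hn)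
  rw [← isLocalHomeomorph_iff_isCoveringMap, isLocalHomeomorph_iff_isOpenEmbedding_restrict]
  have hcont : Continuous (fun w : RootSet A p => (⟨w.1.1, w.2.1⟩ : A)) := by
    apply Continuous.subtype_mk
    fun_prop
  have hopen : IsOpenMap (fun w : RootSet A p => (⟨w.1.1, w.2.1⟩ : A)) := by
    rw [isOpenMap_iff_nhds_le]
    rintro ⟨⟨x, z⟩, hx, hz⟩ S hS
    rw [Filter.mem_map, Metric.mem_nhds_iff] at hS
    obtain ⟨ε, hε, hS⟩ := hS
    have h1 := near_roots hp hm hn hx hz hε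
    have h2 : ∀ᶠ y in 𝓝[A] x, dist y x < ε :=
      nhdsWithin_le_nhds (Metric.ball_mem_nhds x hε)
    have h3 : ∀ᶠ y : A in 𝓝 (⟨x, hx⟩ : A), (∃ w, (p y).eval w = 0 ∧ ‖w - z‖ < ε) ∧
        dist (y : F) x < ε := by
      rw [nhds_subtype_eq_comap_nhdsWithin]
      exact (h1.and h2).comap _
    filter_upwards [h3] with y hy
    obtain ⟨⟨w, hw, hwz⟩, hyx⟩ := hy
    have : (⟨(y, w), y.2, hw⟩ : RootSet A p) ∈ ball (⟨(x, z), hx, hz⟩ : RootSet A p) ε := by
      rw [mem_ball, Subtype.dist_eq, Prod.dist_eq]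
      exact max_lt hyx (by rw [dist_eq_norm]; exact hwz)
    exact hS this
  rintro ⟨⟨x, z⟩, hx, hz⟩
  obtain ⟨δ, hδ, hu⟩ := loc_unique hp hm hn hs hx hz
  have hu' : ∀ᶠ y : A in 𝓝 (⟨x, hx⟩ : A), ∀ w w', (p y).eval w = 0 → (p y).eval w' = 0 →
      ‖w - z‖ < δ → ‖w' - z‖ < δ → w = w' := by
    rw [nhds_subtype_eq_comap_nhdsWithin]
    exact hu.comap _
  obtain ⟨N, hN, hNo, hxN⟩ := _root_.eventually_nhds_iff.1 hu'
  let U : Set (RootSet A p) := {w | (⟨w.1.1, w.2.1⟩ : A) ∈ N ∧ ‖w.1.2 - z‖ < δ}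
  have hUo : IsOpen U := by
    apply IsOpen.inter
    · exact hNo.preimage hcont
    · have hcc : Continuous (fun w : RootSet A p => ‖w.1.2 - z‖) :=
        ((continuous_snd.comp continuous_subtype_val).sub continuous_const).norm
      exact isOpen_lt hcc continuous_const
  refine ⟨U, hUo.mem_nhds ⟨hxN, by simpa using hδ⟩, ?_⟩
  apply IsOpenEmbedding.of_continuous_injective_isOpenMap
  · exact hcont.comp continuous_subtype_val
  · rintro ⟨⟨⟨a, b⟩, ha, hb⟩, h1, h2⟩ ⟨⟨⟨a', b'⟩, ha', hb'⟩, h1', h2'⟩ h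
    have haa : a = a' := congrArg Subtype.val h
    subst haa
    have hbb : b = b' := hN ⟨a, ha⟩ h1 b b' hb hb' h2 h2'
    subst hbb
    rfl
  · exact hopen.comp hUo.isOpenMap_subtype_val

end cover

/-- a global branch of the roots -/
theorem root_branch {F : Type} [NormedAddCommGroup F] [NormedSpace ℝ F] {A : Set F} {n : ℕ}
    {p : F → Polynomial ℂ} (hA : IsCompact A) (hAc : Convex ℝ A)
    (hp : ∀ k, ContinuousOn (fun x => (p x).coeff k) A)
    (hm : ∀ x ∈ A, (p x).Monic) (hn : ∀ x ∈ A, (p x).natDegree = n)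
    (hs : ∀ x ∈ A, (p x).Separable) {x₀ : F} (hx₀ : x₀ ∈ A) {z₀ : ℂ}
    (hz₀ : (p x₀).eval z₀ = 0) :
    ∃ g : F → ℂ, ContinuousOn g A ∧ g x₀ = z₀ ∧ ∀ x ∈ A, (p x).eval (g x) = 0 := by
  classical
  obtain ⟨G, hG, hG0, hG1⟩ := cov_lift_convex (root_cov hA hp hm hn hs) hAc (fun b : A => b)
    continuous_id ⟨x₀, hx₀⟩ ⟨(x₀, z₀), hx₀, hz₀⟩ rfl
  refine ⟨fun x => if h : x ∈ A then (G ⟨x, h⟩).1.2 else 0, ?_, ?_, ?_⟩
  · rw [continuousOn_iff_continuous_domRestrict]
    have : A.domRestrict (fun x => if h : x ∈ A then (G ⟨x, h⟩).1.2 else 0)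
        = fun b => (G b).1.2 := by
      funext b
      simp only [Set.domRestrict_apply, b.2, dif_pos]
    rw [this]
    fun_prop
  · simp only [hx₀, dif_pos, hG0]
  · intro x hx
    simp only [hx, dif_pos]
    have h1 := (G ⟨x, hx⟩).2.2
    have h2 := hG1 ⟨x, hx⟩
    have h3 : (G ⟨x, hx⟩).1.1 = x := congrArg Subtype.val h2
    rw [h3] at h1
    exact h1

/-- two branches of the roots which agree at a point agree -/
theorem root_branch_unique {F : Type} [NormedAddCommGroup F] {A : Set F} {n : ℕ}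
    {p : F → Polynomial ℂ} (hAc : IsPreconnected A)
    (hp : ∀ k, ContinuousOn (fun x => (p x).coeff k) A)
    (hm : ∀ x ∈ A, (p x).Monic) (hn : ∀ x ∈ A, (p x).natDegree = n)
    (hs : ∀ x ∈ A, (p x).Separable) {g h : F → ℂ} (hg : ContinuousOn g A) (hh : ContinuousOn h A)
    (hg0 : ∀ x ∈ A, (p x).eval (g x) = 0) (hh0 : ∀ x ∈ A, (p x).eval (h x) = 0)
    {x₀ : F} (hx₀ : x₀ ∈ A) (he : g x₀ = h x₀) : ∀ x ∈ A, g x = h x := by
  haveI : PreconnectedSpace A := isPreconnected_iff_preconnectedSpace.1 hAc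
  let T : Set A := {x | g x = h x}
  have hgc : Continuous (fun x : A => g x) := continuousOn_iff_continuous_domRestrict.1 hg
  have hhc : Continuous (fun x : A => h x) := continuousOn_iff_continuous_domRestrict.1 hh
  have hcl : IsClosed T := isClosed_eq hgc hhc
  have hop : IsOpen T := by
    rw [isOpen_iff_mem_nhds]
    intro x hx
    obtain ⟨δ, hδ, hu⟩ := loc_unique hp hm hn hs x.2 (hg0 x x.2)
    have hu' : ∀ᶠ y : A in 𝓝 x, ∀ w w', (p y).eval w = 0 → (p y).eval w' = 0 →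
        ‖w - g x‖ < δ → ‖w' - g x‖ < δ → w = w' := by
      rw [nhds_subtype_eq_comap_nhdsWithin]
      exact hu.comap _
    have h1 : ∀ᶠ y : A in 𝓝 x, ‖g y - g x‖ < δ := by
      have hc : Continuous (fun y : A => ‖g y - g x‖) := (hgc.sub continuous_const).norm
      have := hc.tendsto x
      simp only [sub_self, norm_zero] at this
      exact this.eventually_lt_const hδ
    have h2 : ∀ᶠ y : A in 𝓝 x, ‖h y - g x‖ < δ := by
      have hx' : g x = h x := hx
      have hc : Continuous (fun y : A => ‖h y - g x‖) := (hhc.sub continuous_const).norm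
      have := hc.tendsto x
      rw [hx'] at this
      simp only [sub_self, norm_zero] at this
      rw [hx']
      exact this.eventually_lt_const hδ
    filter_upwards [hu', h1, h2] with y hy hy1 hy2
    exact hy _ _ (hg0 y y.2) (hh0 y y.2) hy1 hy2
  have : T = univ := IsClopen.eq_univ ⟨hcl, hop⟩ ⟨⟨x₀, hx₀⟩, he⟩
  intro x hx
  have hx' : (⟨x, hx⟩ : A) ∈ T := by rw [this]; exact mem_univ _
  exact hx'

theorem roots_lift {E : Type} [NormedAddCommGroup E] [NormedSpace ℝ E] {K : Set E}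
    (hK : Convex ℝ K) (hKc : IsCompact K) (hKn : K.Nonempty) (n : ℕ) (a : ℝ → E → Polynomial ℂ)
    (ha : ∀ k, ContinuousOn (fun p : ℝ × E => (a p.1 p.2).coeff k) (Icc 0 1 ×ˢ K))
    (hm : ∀ t ∈ Icc (0 : ℝ) 1, ∀ q ∈ K,
      (a t q).Monic ∧ (a t q).natDegree = n ∧ (a t q).Separable)
    (b : Fin n → E → ℂ) (hb : ∀ i, ContinuousOn (b i) K)
    (hab : ∀ q ∈ K, a 0 q = ∏ i, (Polynomial.X - Polynomial.C (b i q))) :
    ∃ ρ : Fin n → ℝ → E → ℂ,
      (∀ i, ContinuousOn (fun p : ℝ × E => ρ i p.1 p.2) (Icc 0 1 ×ˢ K)) ∧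
      (∀ i, ∀ q ∈ K, ρ i 0 q = b i q) ∧
      (∀ t ∈ Icc (0 : ℝ) 1, ∀ q ∈ K,
        a t q = ∏ i, (Polynomial.X - Polynomial.C (ρ i t q))) ∧
      (∀ t ∈ Icc (0 : ℝ) 1, ∀ c : Fin n → E → ℂ, (∀ i, ContinuousOn (c i) K) →
        (∀ q ∈ K, a t q = ∏ i, (Polynomial.X - Polynomial.C (c i q))) →
        ∀ i, ∃ j, ∀ q ∈ K, ρ i t q = c j q) := by
  classical
  obtain ⟨q₀, hq₀⟩ := hKn
  set B : Set (ℝ × E) := Icc (0 : ℝ) 1 ×ˢ K with hB
  have hBc : IsCompact B := isCompact_Icc.prod hKc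
  have hBx : Convex ℝ B := (convex_Icc 0 1).prod hK
  have h0 : (0 : ℝ) ∈ Icc (0 : ℝ) 1 := ⟨le_rfl, zero_le_one⟩
  have hmem : ((0 : ℝ), q₀) ∈ B := ⟨h0, hq₀⟩
  let P : ℝ × E → Polynomial ℂ := fun w => a w.1 w.2
  have hPc : ∀ k, ContinuousOn (fun x => (P x).coeff k) B := ha
  have hPm : ∀ x ∈ B, (P x).Monic := fun x hx => (hm x.1 hx.1 x.2 hx.2).1
  have hPn : ∀ x ∈ B, (P x).natDegree = n := fun x hx => (hm x.1 hx.1 x.2 hx.2).2.1
  have hPs : ∀ x ∈ B, (P x).Separable := fun x hx => (hm x.1 hx.1 x.2 hx.2).2.2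
  have hroot : ∀ (c : Fin n → E → ℂ) (t : ℝ) (q : E),
      a t q = ∏ i, (Polynomial.X - Polynomial.C (c i q)) → ∀ i, (a t q).eval (c i q) = 0 := by
    intro c t q h i
    rw [h, Polynomial.eval_prod]
    exact Finset.prod_eq_zero (Finset.mem_univ i) (by simp)
  choose g hg hg0 hg1 using fun i => root_branch hBc hBx hPc hPm hPn hPs hmem
    (z₀ := b i q₀) (hroot b 0 q₀ (hab q₀ hq₀) i)
  -- slices
  have hslice : ∀ t ∈ Icc (0 : ℝ) 1, ∀ f : ℝ × E → ℂ, ContinuousOn f B →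
      ContinuousOn (fun q => f (t, q)) K := by
    intro t ht f hf
    exact hf.comp (by fun_prop) fun q hq => ⟨ht, hq⟩
  have hslicec : ∀ t ∈ Icc (0 : ℝ) 1, ∀ k, ContinuousOn (fun q => (a t q).coeff k) K :=
    fun t ht k => hslice t ht _ (hPc k)
  have huniq : ∀ t ∈ Icc (0 : ℝ) 1, ∀ u v : E → ℂ, ContinuousOn u K → ContinuousOn v K →
      (∀ q ∈ K, (a t q).eval (u q) = 0) → (∀ q ∈ K, (a t q).eval (v q) = 0) →
      u q₀ = v q₀ → ∀ q ∈ K, u q = v q := by
    intro t ht u v hu hv hu0 hv0 he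
    exact root_branch_unique hK.isPreconnected (hslicec t ht) (fun q hq => (hm t ht q hq).1)
      (fun q hq => (hm t ht q hq).2.1) (fun q hq => (hm t ht q hq).2.2) hu hv hu0 hv0 hq₀ he
  have hbinj : Function.Injective (fun i => b i q₀) := by
    have h1 := (hm 0 h0 q₀ hq₀).2.2
    rw [hab q₀ hq₀] at h1
    exact Polynomial.separable_prod_X_sub_C_iff.1 h1
  have hginj : ∀ w ∈ B, Function.Injective (fun i => g i w) := by
    intro w hw i j hij
    have h1 := root_branch_unique hBx.isPreconnected hPc hPm hPn hPs (hg i) (hg j) (hg1 i) (hg1 j)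
      hw hij _ hmem
    rw [hg0, hg0] at h1
    exact hbinj h1
  have hprod : ∀ t ∈ Icc (0 : ℝ) 1, ∀ q ∈ K,
      a t q = ∏ i, (Polynomial.X - Polynomial.C (g i (t, q))) := by
    intro t ht q hq
    exact eq_prod_of_inj (hm t ht q hq).1 (hm t ht q hq).2.1 _
      (fun i => hg1 i (t, q) ⟨ht, hq⟩) (hginj (t, q) ⟨ht, hq⟩)
  refine ⟨fun i t q => g i (t, q), fun i => hg i, ?_, hprod, ?_⟩
  · intro i
    apply huniq 0 h0 (fun q => g i (0, q)) (b i) (hslice 0 h0 _ (hg i)) (hb i)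
    · intro q hq; exact hg1 i (0, q) ⟨h0, hq⟩
    · intro q hq; exact hroot b 0 q (hab q hq) i
    · exact hg0 i
  · intro t ht c hc hac i
    have h1 : (a t q₀).eval (g i (t, q₀)) = 0 := hg1 i (t, q₀) ⟨ht, hq₀⟩
    rw [hac q₀ hq₀, Polynomial.eval_prod, Finset.prod_eq_zero_iff] at h1
    obtain ⟨j, -, hj⟩ := h1
    rw [Polynomial.eval_sub, Polynomial.eval_X, Polynomial.eval_C, sub_eq_zero] at hj
    refine ⟨j, ?_⟩
    apply huniq t ht (fun q => g i (t, q)) (c j) (hslice t ht _ (hg i)) (hc j)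
    · intro q hq; exact hg1 i (t, q) ⟨ht, hq⟩
    · intro q hq; exact hroot c t q (hac q hq) j
    · exact hj

end Pool.Agent.T05
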