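import Pool.Agent.Lib.MP_0162a5_an.T0

/-! MODULE Cov: general lemmas on covering maps, used in A5 and B. -/

set_option autoImplicit false

open Metric Set Filter Topology

namespace Pool.Agent.T05

theorem isCovering_of_sections {E X : Type} [TopologicalSpace E] [TopologicalSpace X] [T2Space E]
    {f : E → X} (hf : IsLocalHomeomorph f)
    (h : ∀ x : X, ∃ N : Set X, IsOpen N ∧ IsPreconnected N ∧ x ∈ N ∧ ∀ e : E, f e ∈ N →
      ∃ s : X → E, ContinuousOn s N ∧ s (f e) = e ∧ ∀ y ∈ N, f (s y) = y) :
    IsCoveringMap f := by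
  classical
  have hinj := hf.isLocallyInjective
  have hsep : IsSeparatedMap f := T2Space.isSeparatedMap f
  have hcont : Continuous f := hf.continuous
  intro x
  obtain ⟨N, hNo, hNc, hxN, hN⟩ := h x
  choose! s hs hse hsf using hN
  -- uniqueness of sections
  have huniq : ∀ e ∈ f ⁻¹' N, ∀ e' ∈ f ⁻¹' N, ∀ y ∈ N, s e y = s e' y →
      ∀ z ∈ N, s e z = s e' z := by
    intro e he e' he' y hy hyy z hz
    have h1 : N.EqOn (f ∘ s e) (f ∘ s e') := by
      intro w hw
      simp only [Function.comp_apply]
      rw [hsf e he w hw, hsf e' he' w hw]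
    exact hsep.eqOn_of_comp_eqOn hinj hNc (hs e he) (hs e' he') h1 hy hyy hz
  have hfib : ∀ e : f ⁻¹' {x}, (e : E) ∈ f ⁻¹' N := by
    intro e
    have : f e = x := e.2
    change f e ∈ N
    rw [this]; exact hxN
  have hdisc : DiscreteTopology (f ⁻¹' {x}) := by
    rw [discreteTopology_iff_isOpen_singleton]
    intro e
    obtain ⟨U, hUo, heU, hUinj⟩ := hinj e
    have : ({e} : Set (f ⁻¹' {x})) = (fun e : f ⁻¹' {x} => (e : E)) ⁻¹' U := by
      ext e'
      simp only [mem_singleton_iff, mem_preimage]
      constructor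
      · rintro rfl; exact heU
      · intro h'
        apply Subtype.ext
        have h1 : f e' = x := e'.2
        have h2 : f e = x := e.2
        exact hUinj h' heU (h1.trans h2.symm)
    rw [this]
    exact hUo.preimage continuous_subtype_val
  refine ⟨hdisc, N, hxN, hNo, hNo.preimage hcont, ?_⟩
  have hsx : ∀ e : f ⁻¹' N, s e x ∈ f ⁻¹' {x} := fun e => hsf e e.2 x hxN
  have hloc : ∀ e : f ⁻¹' N, ∀ᶠ e' : f ⁻¹' N in 𝓝 e, s e' x = s e x := by
    intro e
    obtain ⟨U, hUo, heU, hUinj⟩ := hinj e
    have hc := (hs e e.2).isOpen_inter_preimage hNo hUo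
    have hV : IsOpen (U ∩ f ⁻¹' (N ∩ s e ⁻¹' U)) := hUo.inter (hc.preimage hcont)
    have heV : (e : E) ∈ U ∩ f ⁻¹' (N ∩ s e ⁻¹' U) := by
      refine ⟨heU, e.2, ?_⟩
      change s e (f e) ∈ U
      rw [hse e e.2]; exact heU
    have : (fun e' : f ⁻¹' N => (e' : E)) ⁻¹' (U ∩ f ⁻¹' (N ∩ s e ⁻¹' U)) ∈ 𝓝 e :=
      continuous_subtype_val.continuousAt (hV.mem_nhds heV)
    filter_upwards [this] with e' he'
    obtain ⟨h1, h2, h3⟩ := he'
    have h4 : s e (f e') = e' := by
      apply hUinj h3 h1
      exact hsf e e.2 _ h2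
    exact huniq e' e'.2 e e.2 (f e') h2 (by rw [hse e' e'.2, h4]) x hxN
  let H : f ⁻¹' N ≃ₜ N × (f ⁻¹' {x}) :=
    { toFun := fun e => (⟨f e, e.2⟩, ⟨s e x, hsx e⟩)
      invFun := fun p => ⟨s p.2 p.1, by
        change f _ ∈ N
        rw [hsf p.2 (hfib p.2) p.1 p.1.2]; exact p.1.2⟩
      left_inv := by
        intro e
        apply Subtype.ext
        have h1 : s (s e x) x = s e x := by
          have := hse (s e x) (by
            rw [hsf e e.2 x hxN]; exact hxN)
          rwa [hsf e e.2 x hxN] at this
        have h2 := huniq (s e x) (by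
            change f (s e x) ∈ N
            rw [hsf e e.2 x hxN]; exact hxN) e e.2 x hxN h1 (f e) e.2
        change s (s e x) (f e) = e
        rw [h2, hse e e.2]
      right_inv := by
        rintro ⟨y, e⟩
        have h0 : f (s e y) = y := hsf e (hfib e) y y.2
        have hmem : s e y ∈ f ⁻¹' N := by
          change f _ ∈ N
          rw [h0]; exact y.2
        refine Prod.ext (Subtype.ext h0) (Subtype.ext ?_)
        change s (s e y) x = e
        have h1 : s (s e y) y = s e y := by
          have := hse (s e y) hmem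
          rwa [h0] at this
        have h2 := huniq (s e y) hmem e (hfib e) y y.2 h1 x hxN
        rw [h2]
        have := hse e (hfib e)
        have he : f e = x := e.2
        rwa [he] at this
      continuous_toFun := by
        refine Continuous.prodMk ?_ ?_
        · exact Continuous.subtype_mk (hcont.comp continuous_subtype_val) _
        · rw [continuous_iff_continuousAt]
          intro e
          refine ContinuousAt.congr (f := fun _ => (⟨s e x, hsx e⟩ : f ⁻¹' {x}))
            continuousAt_const ?_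
          filter_upwards [hloc e] with e' he'
          exact Subtype.ext he'.symm
      continuous_invFun := by
        refine Continuous.subtype_mk ?_ _
        rw [continuous_prod_of_discrete_right]
        intro e
        exact continuousOn_iff_continuous_domRestrict.mp (hs e (hfib e)) }
  exact ⟨H, fun e => rfl⟩

/-- A surjective local homeomorphism with enough deck transformations is a covering map. -/
theorem isCovering_of_deck {E X : Type} [TopologicalSpace E] [TopologicalSpace X] [T2Space E]
    [LocallyConnectedSpace X] {f : E → X} (hf : IsLocalHomeomorph f)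
    (hsurj : Function.Surjective f)
    (hdeck : ∀ e e' : E, f e = f e' → ∃ g : E → E, Continuous g ∧ (∀ y, f (g y) = f y) ∧ g e = e') :
    IsCoveringMap f := by
  classical
  apply isCovering_of_sections hf
  intro x
  obtain ⟨e, rfl⟩ := hsurj x
  obtain ⟨φ, heφ, rfl⟩ := hf e
  have hx : φ e ∈ φ.target := φ.map_source heφ
  obtain ⟨N, ⟨hNo, hxN, hNc⟩, hNsub⟩ :=
    (locallyConnectedSpace_iff_hasBasis_isOpen_isConnected.mp inferInstance (φ e)).mem_iff.mp
      (φ.open_target.mem_nhds hx)
  refine ⟨N, hNo, hNc.isPreconnected, hxN, ?_⟩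
  intro e' he'
  have h1 : φ (φ.symm (φ e')) = φ e' := φ.right_inv (hNsub he')
  obtain ⟨g, hg, hgf, hge⟩ := hdeck (φ.symm (φ e')) e' h1
  refine ⟨fun y => g (φ.symm y), ?_, hge, ?_⟩
  · exact hg.comp_continuousOn (φ.continuousOn_symm.mono hNsub)
  · intro y hy
    rw [hgf]
    exact φ.right_inv (hNsub hy)

/-- composition of covering maps, when the base has a basis of open sets over which maps to the
base lift (simply connected neighbourhoods) -/
theorem isCovering_comp {E Y X : Type} [TopologicalSpace E] [TopologicalSpace Y]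
    [TopologicalSpace X] [T2Space E] {f : E → Y} {g : Y → X} (hf : IsCoveringMap f)
    (hg : IsCoveringMap g)
    (h : ∀ x : X, ∀ V ∈ 𝓝 x, ∃ N ⊆ V, IsOpen N ∧ x ∈ N ∧ ∃ (A : Type) (_ : NormedAddCommGroup A)
      (_ : NormedSpace ℝ A) (B : Set A), Convex ℝ B ∧ Nonempty (N ≃ₜ B)) :
    IsCoveringMap (g ∘ f) := by
  classical
  apply isCovering_of_sections (hg.isLocalHomeomorph.comp hf.isLocalHomeomorph)
  intro x
  obtain ⟨N, -, hNo, hxN, A, _, _, B, hB, ⟨ψ⟩⟩ := h x univ univ_mem
  have hBc : PreconnectedSpace B := isPreconnected_iff_preconnectedSpace.mp hB.isPreconnected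
  have hNc : IsPreconnected N := by
    rw [isPreconnected_iff_preconnectedSpace]
    exact ψ.symm.surjective.denseRange.preconnectedSpace ψ.symm.continuous
  refine ⟨N, hNo, hNc, hxN, ?_⟩
  intro e he
  let n₀ : N := ⟨(g ∘ f) e, he⟩
  obtain ⟨G1, hG1, hG1a, hG1b⟩ := cov_lift_convex hg hB (fun b : B => ((ψ.symm b : N) : X))
    (continuous_subtype_val.comp ψ.symm.continuous) (ψ n₀) (f e) (by simp [n₀])
  obtain ⟨G2, hG2, hG2a, hG2b⟩ := cov_lift_convex hf hB G1 hG1 (ψ n₀) e hG1a.symm
  refine ⟨fun y => if hy : y ∈ N then G2 (ψ ⟨y, hy⟩) else e, ?_, ?_, ?_⟩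
  · rw [continuousOn_iff_continuous_domRestrict]
    have : N.domRestrict (fun y => if hy : y ∈ N then G2 (ψ ⟨y, hy⟩) else e) = G2 ∘ ψ := by
      funext y
      simp only [Set.domRestrict_apply, y.2, dif_pos, Function.comp_apply]
    rw [this]
    exact hG2.comp ψ.continuous
  · beta_reduce
    rw [dif_pos he]
    exact hG2a
  · intro y hy
    simp only [Function.comp_apply]
    rw [dif_pos hy, hG2b, hG1b]
    simp

/-- a lift of a covering map through a covering map is a covering map -/
theorem isCovering_of_lift {E Y X : Type} [TopologicalSpace E] [TopologicalSpace Y]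
    [TopologicalSpace X] [T2Space E] {p : E → X} {q : Y → X} {c : E → Y} (hp : IsCoveringMap p)
    (hq : IsCoveringMap q) (hc : Continuous c) (hqc : ∀ e, q (c e) = p e)
    (h : ∀ y : Y, ∃ N : Set Y, IsOpen N ∧ y ∈ N ∧ ∃ (A : Type) (_ : NormedAddCommGroup A)
      (_ : NormedSpace ℝ A) (B : Set A), Convex ℝ B ∧ Nonempty (N ≃ₜ B)) :
    IsCoveringMap c := by
  classical
  have hpc : p = q ∘ c := funext fun e => (hqc e).symm
  have hlh : IsLocalHomeomorph c :=
    IsLocalHomeomorph.of_comp (hpc ▸ hp.isLocalHomeomorph) hq.isLocalHomeomorph hc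
  apply isCovering_of_sections hlh
  intro y
  obtain ⟨N, hNo, hyN, A, _, _, B, hB, ⟨ψ⟩⟩ := h y
  have hBc : PreconnectedSpace B := isPreconnected_iff_preconnectedSpace.mp hB.isPreconnected
  have hNc : IsPreconnected N := by
    rw [isPreconnected_iff_preconnectedSpace]
    exact ψ.symm.surjective.denseRange.preconnectedSpace ψ.symm.continuous
  refine ⟨N, hNo, hNc, hyN, ?_⟩
  intro e he
  let n₀ : N := ⟨c e, he⟩
  obtain ⟨G, hG, hGa, hGb⟩ := cov_lift_convex hp hB (fun b : B => q ((ψ.symm b : N) : Y))
    (hq.continuous.comp (continuous_subtype_val.comp ψ.symm.continuous)) (ψ n₀) e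
    (by simp [n₀, hqc])
  have hcG : c ∘ G = fun b : B => ((ψ.symm b : N) : Y) := by
    apply hq.eq_of_comp_eq (hc.comp hG) (continuous_subtype_val.comp ψ.symm.continuous) ?_ (ψ n₀)
    · simp [hGa, n₀]
    · funext b
      simp only [Function.comp_apply]
      rw [hqc, hGb]
  refine ⟨fun y => if hy : y ∈ N then G (ψ ⟨y, hy⟩) else e, ?_, ?_, ?_⟩
  · rw [continuousOn_iff_continuous_domRestrict]
    have : N.domRestrict (fun y => if hy : y ∈ N then G (ψ ⟨y, hy⟩) else e) = G ∘ ψ := by
      funext y
      simp only [Set.domRestrict_apply, y.2, dif_pos, Function.comp_apply]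
    rw [this]
    exact hG.comp ψ.continuous
  · beta_reduce
    rw [dif_pos he]
    exact hGa
  · intro z hz
    beta_reduce
    rw [dif_pos hz]
    have := congrFun hcG (ψ ⟨z, hz⟩)
    simp only [Function.comp_apply] at this
    rw [this]
    simp

/-- a lift of a surjective covering through a covering map with path connected source is
surjective -/
theorem surjective_of_lift {E Y X : Type} [TopologicalSpace E] [TopologicalSpace Y]
    [TopologicalSpace X] {p : E → X} {q : Y → X} {c : E → Y} (hp : IsCoveringMap p)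
    (hq : IsCoveringMap q) (hc : Continuous c) (hqc : ∀ e, q (c e) = p e) [Nonempty E]
    [PathConnectedSpace Y] : Function.Surjective c := by
  intro y
  obtain ⟨e⟩ := ‹Nonempty E›
  let γ : Path (c e) y := PathConnectedSpace.somePath (c e) y
  let δ : C(unitInterval, X) := ⟨fun t => q (γ t), hq.continuous.comp γ.continuous⟩
  have h0 : δ 0 = p e := by
    change q (γ 0) = p e
    rw [γ.source, hqc]
  obtain ⟨Γ, hΓ, hΓ0⟩ := hp.exists_path_lifts δ e h0
  have h1 : c ∘ Γ = γ := by
    apply hq.eq_of_comp_eq (hc.comp Γ.continuous) γ.continuous ?_ (0 : unitInterval)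
    · simp [hΓ0]
    · funext t
      have := congrFun hΓ t
      simp only [Function.comp_apply] at this ⊢
      rw [hqc, this]
      rfl
  refine ⟨Γ 1, ?_⟩
  have := congrFun h1 1
  simp only [Function.comp_apply] at this
  rw [this, γ.target]

end Pool.Agent.T05
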