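import Pool.Agent.Lib.MP_0162a5_an.A5c
import Pool.Agent.Lib.MP_0162a5_an.Cov

/-! MODULE A5: `ModularData` exists (`lam = lamF`, `mm = mmF`). -/

set_option autoImplicit false

open Complex Metric Set Filter Topology

namespace Pool.Agent.T05

theorem C01_open : IsOpen C01 :=
  (isOpen_ne (x := (0 : ℂ))).inter (isOpen_ne (x := (1 : ℂ)))

theorem lamF_sub_cont : Continuous (fun τ : HH => (⟨lamF τ, lamF_mem τ.1 τ.2⟩ : C01)) :=
  Continuous.subtype_mk (continuousOn_iff_continuous_domRestrict.mp lamF_diff.continuousOn) _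

theorem lamF_locHomeo :
    IsLocalHomeomorph (fun τ : HH => (⟨lamF τ, lamF_mem τ.1 τ.2⟩ : C01)) := by
  have h1 : IsLocalHomeomorphOn lamF HH := by
    intro τ hτ
    have h2 := (lamF_analytic hτ).hasStrictDerivAt
    refine ⟨(h2.hasStrictFDerivAt_equiv (lamF_deriv τ hτ)).toOpenPartialHomeomorph lamF, ?_, ?_⟩
    · exact HasStrictFDerivAt.mem_toOpenPartialHomeomorph_source _
    · rfl
  have hv : IsLocalHomeomorph (Subtype.val : HH → ℂ) :=
    HH_open.isOpenEmbedding_subtypeVal.isLocalHomeomorph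
  have hw : IsLocalHomeomorph (Subtype.val : C01 → ℂ) :=
    C01_open.isOpenEmbedding_subtypeVal.isLocalHomeomorph
  have h3 : IsLocalHomeomorph (lamF ∘ (Subtype.val : HH → ℂ)) := by
    rw [isLocalHomeomorph_iff_isLocalHomeomorphOn_univ] at hv ⊢
    exact h1.comp hv (fun x _ => x.2)
  exact IsLocalHomeomorph.of_comp h3 hw lamF_sub_cont

theorem lamF_cov : IsCoveringMap (fun τ : HH => (⟨lamF τ, lamF_mem τ.1 τ.2⟩ : C01)) := by
  classical
  refine isCovering_of_sections lamF_locHomeo (fun x => ?_)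
  obtain ⟨τ₀, hτ₀, hx⟩ := lamF_surj x.1 x.2
  obtain ⟨e, he, hfe⟩ := lamF_locHomeo ⟨τ₀, hτ₀⟩
  have hfx : (fun τ : HH => (⟨lamF τ, lamF_mem τ.1 τ.2⟩ : C01)) ⟨τ₀, hτ₀⟩ = x := Subtype.ext hx
  have hxt : x ∈ e.target := by
    have := e.map_source he
    rw [← hfe, hfx] at this
    exact this
  -- a ball around `x` contained in the target
  have hT : IsOpen ((Subtype.val : C01 → ℂ) '' e.target) :=
    C01_open.isOpenEmbedding_subtypeVal.isOpenMap _ e.open_target
  obtain ⟨r, hr, hball⟩ := Metric.isOpen_iff.mp hT x.1 ⟨x, hxt, rfl⟩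
  set N : Set C01 := (Subtype.val : C01 → ℂ) ⁻¹' (ball x.1 r) with hN
  have hNo : IsOpen N := isOpen_ball.preimage continuous_subtype_val
  have hNimg : (Subtype.val : C01 → ℂ) '' N = ball x.1 r := by
    apply Subset.antisymm
    · rintro _ ⟨y, hy, rfl⟩; exact hy
    · intro y hy
      obtain ⟨y', -, rfl⟩ := hball hy
      exact ⟨y', hy, rfl⟩
  have hNp : IsPreconnected N := by
    have h1 : IsPreconnected ((Subtype.val : C01 → ℂ) '' N) := by
      rw [hNimg]; exact (convex_ball _ _).isPreconnected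
    exact (Topology.IsInducing.subtypeVal.isPreconnected_image).mp h1
  have hxN : x ∈ N := mem_ball_self hr
  have hNt : N ⊆ e.target := by
    intro y hy
    obtain ⟨y', hy', h⟩ := hball (show y.1 ∈ ball x.1 r from hy)
    have : y' = y := Subtype.ext h
    rwa [← this]
  have hsec : ∀ y ∈ N, lamF (e.symm y).1 = y.1 := by
    intro y hy
    have h1 := e.right_inv (hNt hy)
    rw [← hfe] at h1
    exact congrArg Subtype.val h1
  have hsc : ContinuousOn e.symm N := e.continuousOn_symm.mono hNt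
  refine ⟨N, hNo, hNp, hxN, ?_⟩
  intro e' he'
  have h1 : lamF (e.symm (⟨lamF e', lamF_mem e'.1 e'.2⟩ : C01)).1 = lamF e' := hsec _ he'
  obtain ⟨a, b, c, d, hg, hgq⟩ := lamF_eq _ (e.symm _).2 _ e'.2 h1
  refine ⟨fun y => ⟨((a : ℂ) * (e.symm y).1 + b) / (c * (e.symm y).1 + d),
    moeb_mem hg.1 (e.symm y).2⟩, ?_, ?_, ?_⟩
  · have h2 : ContinuousOn (fun y => (e.symm y).1) N :=
      continuous_subtype_val.comp_continuousOn hsc
    have h3 : ContinuousOn (fun y => ((a : ℂ) * (e.symm y).1 + b) / (c * (e.symm y).1 + d)) N := by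
      apply ContinuousOn.div
      · exact (continuousOn_const.mul h2).add continuousOn_const
      · exact (continuousOn_const.mul h2).add continuousOn_const
      · intro y _
        exact denom_ne (e.symm y).2 (by rintro ⟨rfl, rfl⟩; simpa using hg.1)
    exact (Topology.IsInducing.subtypeVal.continuousOn_iff).mpr h3
  · exact Subtype.ext hgq.symm
  · intro y hy
    apply Subtype.ext
    change lamF (((a : ℂ) * (e.symm y).1 + b) / (c * (e.symm y).1 + d)) = y.1
    rw [lamF_inv a b c d hg _ (e.symm y).2]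
    exact hsec y hy

theorem WW_eq_open : IsOpen WW := by
  have h : WW = (fun p : ℂ × ℂ => (p.1, 2 * p.2)) ⁻¹' W2 := by
    ext p
    simp only [WW, W2, mem_ofPred_eq, mem_preimage]
    refine and_congr_right (fun _ => forall_congr' (fun k => forall_congr' (fun l => ?_)))
    rw [not_iff_not]
    constructor
    · intro h; rw [h]
    · intro h; exact mul_left_cancel₀ two_ne_zero h
  rw [h]
  exact W2_isOpen.preimage (by fun_prop)

theorem modularData_exists : Nonempty ModularData := by
  have hWo := WW_eq_open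
  refine ⟨{
    lam := lamF
    mm := mmF
    lam_diff := lamF_diff
    lam_deriv := lamF_deriv
    lam_mem := fun τ => lamF_mem τ.1 τ.2
    lam_surj := lamF_surj
    lam_cov := lamF_cov
    lam_eq := lamF_eq
    lam_inv := lamF_inv
    lam_lim := lamF_lim
    mm_mem := mmF_mem
    mm_cont := mmF_diffOn.continuousOn
    mm_diff₁ := ?_
    mm_diff₂ := ?_
    mm_deriv₂ := mmF_deriv₂
    mm_neg := mmF_neg
    mm_add := mmF_add
    mm_mod := mmF_mod
    mm_inj := mmF_inj
    mm_surj := mmF_surj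
    lam_I := lamF_I }⟩
  · intro τ z h
    have h1 : DifferentiableAt ℂ (fun p : ℂ × ℂ => mmF p.1 p.2) (τ, z) :=
      (mmF_diffOn (τ, z) h).differentiableAt (hWo.mem_nhds h)
    exact DifferentiableAt.comp (g := fun p : ℂ × ℂ => mmF p.1 p.2) (f := fun t => (t, z)) τ h1
      (by fun_prop)
  · intro τ z h
    have h1 : DifferentiableAt ℂ (fun p : ℂ × ℂ => mmF p.1 p.2) (τ, z) :=
      (mmF_diffOn (τ, z) h).differentiableAt (hWo.mem_nhds h)
    exact DifferentiableAt.comp (g := fun p : ℂ × ℂ => mmF p.1 p.2) (f := fun t => (τ, t)) z h1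
      (by fun_prop)

end Pool.Agent.T05
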