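import Mathlib

/-! MODULE A5, part a: an analytic function is not injective near a critical point. -/

set_option autoImplicit false

open Complex Metric Set Filter Topology

namespace Pool.Agent.T05

theorem exists_root_near {g : ℂ → ℂ} {x : ℂ} (hg : AnalyticAt ℂ g x) (hgx : g x ≠ 0) {n : ℕ}
    (hn : n ≠ 0) : ∃ h : ℂ → ℂ, AnalyticAt ℂ h x ∧ h x = 1 ∧ ∀ᶠ z in 𝓝 x, g z = g x * h z ^ n := by
  set k : ℂ → ℂ := fun z => g z / g x with hk
  have hka : AnalyticAt ℂ k x := hg.div_const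
  have hkx : k x = 1 := div_self hgx
  have hslit : k x ∈ slitPlane := by rw [hkx]; exact one_mem_slitPlane
  refine ⟨fun z => exp (log (k z) / n), ?_, ?_, ?_⟩
  · have h1 : AnalyticAt ℂ (fun z => log (k z)) x := hka.clog hslit
    exact (h1.div_const).cexp
  · simp [hkx]
  · have h2 : ∀ᶠ z in 𝓝 x, k z ≠ 0 := by
      apply hka.continuousAt.eventually_ne
      rw [hkx]; exact one_ne_zero
    filter_upwards [h2] with z hz
    have hn' : (n : ℂ) ≠ 0 := Nat.cast_ne_zero.mpr hn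
    rw [← Complex.exp_nat_mul, mul_div_cancel₀ _ hn', exp_log hz, hk]
    field_simp

theorem not_inj_near {f : ℂ → ℂ} {x : ℂ} (hf : AnalyticAt ℂ f x) (h1 : deriv f x = 0)
    (hnc : ¬ ∀ᶠ z in 𝓝 x, f z = f x) :
    ∃ p q : ℂ → ℂ, Tendsto p (𝓝[≠] 0) (𝓝 x) ∧ Tendsto q (𝓝[≠] 0) (𝓝 x) ∧
      ∀ᶠ w in 𝓝[≠] (0 : ℂ), p w ≠ q w ∧ f (p w) = f (q w) := by
  set F : ℂ → ℂ := fun z => f z - f x with hF
  have hFa : AnalyticAt ℂ F x := hf.sub analyticAt_const
  have hFtop : analyticOrderAt F x ≠ ⊤ := by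
    rw [Ne, analyticOrderAt_eq_top]
    intro h
    apply hnc
    filter_upwards [h] with z hz
    exact sub_eq_zero.mp hz
  obtain ⟨n, hn⟩ := ENat.ne_top_iff_exists.mp hFtop
  obtain ⟨g, hga, hgx, hg⟩ := (hFa.analyticOrderAt_eq_natCast).mp hn.symm
  have hn0 : n ≠ 0 := by
    intro h0
    subst h0
    have := hg.self_of_nhds
    simp [hF] at this
    exact hgx this.symm
  have hn1 : n ≠ 1 := by
    intro h0
    subst h0
    have h2 : deriv f x = g x := by
      have h3 : f =ᶠ[𝓝 x] fun z => f x + (z - x) * g z := by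
        filter_upwards [hg] with z hz
        have : f z - f x = (z - x) * g z := by simpa [hF] using hz
        rw [← this]; ring
      rw [h3.deriv_eq]
      have h4 : HasDerivAt (fun z => f x + (z - x) * g z) (1 * g x + (x - x) * deriv g x) x :=
        ((((hasDerivAt_id x).sub_const x).mul hga.differentiableAt.hasDerivAt).const_add (f x))
      rw [h4.deriv]; ring
    exact hgx (h2 ▸ h1)
  obtain ⟨h, hha, hhx, hh⟩ := exists_root_near hga hgx hn0
  set φ : ℂ → ℂ := fun z => (z - x) * h z with hφ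
  have hφa : AnalyticAt ℂ φ x := (analyticAt_id.sub analyticAt_const).mul hha
  have hφx : φ x = 0 := by simp [hφ]
  have hφd : HasStrictDerivAt φ 1 x := by
    have h2 := hφa.hasStrictDerivAt
    have h3 : HasDerivAt φ (1 * h x + (x - x) * deriv h x) x :=
      ((hasDerivAt_id x).sub_const x).mul hha.differentiableAt.hasDerivAt
    have h4 : deriv φ x = 1 := by rw [h3.deriv, hhx]; ring
    rwa [h4] at h2
  have hφf : ∀ᶠ z in 𝓝 x, f z = f x + g x * φ z ^ n := by
    filter_upwards [hg, hh] with z h2 h3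
    have h4 : f z - f x = (z - x) ^ n * g z := by simpa [hF] using h2
    simp only [hφ]
    rw [mul_pow]
    linear_combination h4 + (z - x) ^ n * h3
  -- the local inverse
  set ψ : ℂ → ℂ := hφd.localInverse φ 1 x one_ne_zero with hψ
  have hψr : ∀ᶠ w in 𝓝 (0 : ℂ), φ (ψ w) = w := by
    have := hφd.eventually_right_inverse one_ne_zero
    rwa [hφx] at this
  have hψt : Tendsto ψ (𝓝 0) (𝓝 x) := by
    have h2 := (hφd.to_localInverse one_ne_zero).hasDerivAt.continuousAt.tendsto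
    have h3 : ψ (φ x) = x := by
      have := (hφd.eventually_left_inverse one_ne_zero).self_of_nhds
      exact this
    rw [hφx] at h2 h3
    change Tendsto ψ (𝓝 0) (𝓝 (ψ 0)) at h2
    rwa [h3] at h2
  obtain ⟨ζ, hζ, hζ1⟩ : ∃ ζ : ℂ, ζ ^ n = 1 ∧ ζ ≠ 1 := by
    have h2 := Complex.isPrimitiveRoot_exp n hn0
    refine ⟨_, h2.pow_eq_one, h2.ne_one ?_⟩
    omega
  have ht1 : Tendsto (fun w : ℂ => ζ * w) (𝓝 0) (𝓝 0) := by
    have : Continuous (fun w : ℂ => ζ * w) := by fun_prop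
    have h2 := this.tendsto 0
    rwa [mul_zero] at h2
  refine ⟨ψ, fun w => ψ (ζ * w), hψt.mono_left nhdsWithin_le_nhds,
    (hψt.comp ht1).mono_left nhdsWithin_le_nhds, ?_⟩
  have e1 : ∀ᶠ w in 𝓝[≠] (0 : ℂ), φ (ψ w) = w := hψr.filter_mono nhdsWithin_le_nhds
  have e2 : ∀ᶠ w in 𝓝[≠] (0 : ℂ), φ (ψ (ζ * w)) = ζ * w :=
    (ht1.eventually hψr).filter_mono nhdsWithin_le_nhds
  have e3 : ∀ᶠ w in 𝓝[≠] (0 : ℂ), f (ψ w) = f x + g x * φ (ψ w) ^ n :=
    (hψt.eventually hφf).filter_mono nhdsWithin_le_nhds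
  have e4 : ∀ᶠ w in 𝓝[≠] (0 : ℂ), f (ψ (ζ * w)) = f x + g x * φ (ψ (ζ * w)) ^ n :=
    ((hψt.comp ht1).eventually hφf).filter_mono nhdsWithin_le_nhds
  have e5 : ∀ᶠ w in 𝓝[≠] (0 : ℂ), w ≠ 0 := self_mem_nhdsWithin
  filter_upwards [e1, e2, e3, e4, e5] with w h1 h2 h3 h4 h5
  refine ⟨?_, ?_⟩
  · intro h6
    have h7 : w = ζ * w := by rw [← h2, ← h6, h1]
    apply hζ1
    have h8 : (ζ - 1) * w = 0 := by linear_combination -h7
    rcases mul_eq_zero.mp h8 with h9 | h9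
    · exact sub_eq_zero.mp h9
    · exact absurd h9 h5
  · rw [h3, h4, h1, h2, mul_pow, hζ, one_mul]

end Pool.Agent.T05
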