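import Pool.Agent.Lib.MP_0162a5_an.A4
import Pool.Agent.Lib.MP_0162a5_an.A5a

/-! MODULE A5, part b: the derivative of `lamF` does not vanish. -/

set_option autoImplicit false

open Complex Metric Set Filter Topology

namespace Pool.Agent.T05

theorem HH_open : IsOpen HH := isOpen_lt continuous_const Complex.continuous_im

theorem HH_convex : Convex ℝ HH := by
  have := convex_halfSpace_im_gt 0
  exact this

theorem lamF_analytic {τ : ℂ} (hτ : τ ∈ HH) : AnalyticAt ℂ lamF τ :=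
  lamF_diff.analyticAt (HH_open.mem_nhds hτ)

theorem lamF_not_const {τ : ℂ} (hτ : τ ∈ HH) : ¬ ∀ᶠ z in 𝓝 τ, lamF z = lamF τ := by
  intro h
  have hA : AnalyticOnNhd ℂ lamF HH := fun z hz => lamF_analytic hz
  have hB : AnalyticOnNhd ℂ (fun _ : ℂ => lamF τ) HH := fun z _ => analyticAt_const
  have h1 : EqOn lamF (fun _ => lamF τ) HH :=
    hA.eqOn_of_preconnected_of_eventuallyEq hB HH_convex.isPreconnected hτ h
  have hI : (I : ℂ) ∈ HH := by simp [HH]
  have h2 : lamF τ = 1 / 2 := by rw [← lamF_I]; exact (h1 hI).symm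
  obtain ⟨Y, hY, hYl⟩ := lamF_lim (1 / 4) (by norm_num)
  have hm : (((Y + 1 : ℝ) : ℂ) * I) ∈ HH := by
    simp only [HH, mem_ofPred_eq]
    simp
    linarith
  have h3 := hYl (((Y + 1 : ℝ) : ℂ) * I) (by simp)
  rw [h1 hm, h2] at h3
  norm_num at h3

/-- the denominator does not vanish -/
theorem denom_ne {c d : ℤ} {τ : ℂ} (hτ : 0 < τ.im) (h : ¬ (c = 0 ∧ d = 0)) :
    (c : ℂ) * τ + d ≠ 0 := by
  intro h0
  have him : ((c : ℂ) * τ + d).im = 0 := by rw [h0]; simp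
  have hre : ((c : ℂ) * τ + d).re = 0 := by rw [h0]; simp
  simp at him hre
  rcases him with h1 | h1
  · subst h1
    simp at hre
    exact h ⟨rfl, hre⟩
  · exact absurd h1 hτ.ne'

theorem im_moeb {a b c d : ℤ} (h : a * d - b * c = 1) {τ : ℂ} (hτ : 0 < τ.im) :
    (((a : ℂ) * τ + b) / (c * τ + d)).im = τ.im / ‖(c : ℂ) * τ + d‖ ^ 2 := by
  have hne : (c : ℂ) * τ + d ≠ 0 := denom_ne hτ (by rintro ⟨rfl, rfl⟩; simp at h)
  have h1 : ((a : ℂ) * τ + b) / (c * τ + d) =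
      (((a : ℂ) * τ + b) * (starRingEnd ℂ) (c * τ + d)) / ((‖(c : ℂ) * τ + d‖ ^ 2 : ℝ) : ℂ) := by
    rw [← Complex.normSq_eq_norm_sq, ← Complex.mul_conj]
    rw [mul_div_mul_right]
    exact (map_ne_zero (starRingEnd ℂ)).mpr hne
  rw [h1, Complex.div_ofReal_im]
  congr 1
  have h2 : (a : ℝ) * d - b * c = 1 := by exact_mod_cast h
  simp
  linear_combination τ.im * h2

theorem moeb_mem {a b c d : ℤ} (h : a * d - b * c = 1) {τ : ℂ} (hτ : τ ∈ HH) :
    ((a : ℂ) * τ + b) / (c * τ + d) ∈ HH := by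
  have hτ' : 0 < τ.im := hτ
  have hne : (c : ℂ) * τ + d ≠ 0 := denom_ne hτ' (by rintro ⟨rfl, rfl⟩; simp at h)
  change 0 < (((a : ℂ) * τ + b) / (c * τ + d)).im
  rw [im_moeb h hτ']
  have : 0 < ‖(c : ℂ) * τ + d‖ := norm_pos_iff.mpr hne
  positivity

/-- an element of `Gam2` different from `± 1` has no fixed points -/
theorem gam2_no_fix {a b c d : ℤ} (hg : Gam2 a b c d) {τ : ℂ} (hτ : τ ∈ HH)
    (hfix : τ = ((a : ℂ) * τ + b) / (c * τ + d)) : c = 0 ∧ b = 0 ∧ a = d := by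
  obtain ⟨hdet, ha, hb, hc, hd⟩ := hg
  have hτ' : 0 < τ.im := hτ
  have hne : (c : ℂ) * τ + d ≠ 0 := denom_ne hτ' (by rintro ⟨rfl, rfl⟩; simp at hdet)
  rw [eq_div_iff hne] at hfix
  have him := congrArg Complex.im hfix
  have hre := congrArg Complex.re hfix
  simp at him hre
  by_cases hc0 : c = 0
  · subst hc0
    simp at him hre
    have h1 : (d : ℝ) = a := by
      have : τ.im * ((d : ℝ) - a) = 0 := by linear_combination him
      rcases mul_eq_zero.mp this with h | h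
      · exact absurd h hτ'.ne'
      · linarith
    have h2 : (b : ℝ) = 0 := by
      rw [h1] at hre; linear_combination -hre
    refine ⟨rfl, by exact_mod_cast h2, ?_⟩
    exact_mod_cast h1.symm
  · exfalso
    have e1 : 2 * (c : ℝ) * τ.re = a - d := by
      have : τ.im * (2 * (c : ℝ) * τ.re - (a - d)) = 0 := by linear_combination him
      rcases mul_eq_zero.mp this with h | h
      · exact absurd h hτ'.ne'
      · linarith
    have e2 : (b : ℝ) = -(c * (τ.re ^ 2 + τ.im ^ 2)) := by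
      linear_combination -hre + τ.re * e1
    have e3 : ((a : ℝ) + d) ^ 2 < 4 := by
      have h4 : (a : ℝ) * d - b * c = 1 := by exact_mod_cast hdet
      have h5 : ((a : ℝ) + d) ^ 2 = 4 - 4 * (c : ℝ) ^ 2 * τ.im ^ 2 := by
        have h6 : ((a : ℝ) + d) ^ 2 = (a - d) ^ 2 + 4 * (a * d) := by ring
        rw [h6, ← e1]
        have h7 : (a : ℝ) * d = 1 + b * c := by linear_combination h4
        rw [h7, e2]; ring
      rw [h5]
      have : 0 < (c : ℝ) ^ 2 * τ.im ^ 2 := by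
        have : (c : ℝ) ≠ 0 := by exact_mod_cast hc0
        positivity
      linarith
    have e4 : (a + d) ^ 2 < 4 := by exact_mod_cast e3
    have e5 : a + d = 0 := by
      obtain ⟨a', rfl⟩ := ha
      obtain ⟨d', rfl⟩ := hd
      have h8 : -2 < 2 * a' + 1 + (2 * d' + 1) := by nlinarith
      have h9 : 2 * a' + 1 + (2 * d' + 1) < 2 := by nlinarith
      omega
    have e6 : d = -a := by omega
    subst e6
    obtain ⟨a', rfl⟩ := ha
    obtain ⟨b', rfl⟩ := hb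
    obtain ⟨c', rfl⟩ := hc
    have e7 : (4 : ℤ) ∣ 2 := ⟨-(a' ^ 2 + a' + b' * c'), by linear_combination -hdet⟩
    omega

theorem int_bound {m : ℤ} {C : ℝ} (h : |(m : ℝ)| ≤ C) : m ∈ Icc (-⌈C⌉) ⌈C⌉ := by
  have h1 := abs_le.mp h
  have h2 : (C : ℝ) ≤ ⌈C⌉ := Int.le_ceil C
  constructor
  · have : (-(⌈C⌉ : ℤ) : ℝ) ≤ m := by linarith
    exact_mod_cast this
  · have : (m : ℝ) ≤ ⌈C⌉ := by linarith
    exact_mod_cast this

/-- A quantitative form of proper discontinuity. -/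
theorem entries_bound {a b c d : ℤ} (hdet : a * d - b * c = 1) {y M : ℝ} (hy : 0 < y)
    {p q : ℂ} (hp : y ≤ p.im) (hq : y ≤ q.im) (hpM : ‖p‖ ≤ M) (hqM : ‖q‖ ≤ M)
    (h : q = ((a : ℂ) * p + b) / (c * p + d)) :
    |(a : ℝ)| ≤ (1 + M / y) * (1 + M) ^ 2 * (1 + 1 / y) ∧
    |(b : ℝ)| ≤ (1 + M / y) * (1 + M) ^ 2 * (1 + 1 / y) ∧
    |(c : ℝ)| ≤ (1 + M / y) * (1 + M) ^ 2 * (1 + 1 / y) ∧
      |(d : ℝ)| ≤ (1 + M / y) * (1 + M) ^ 2 * (1 + 1 / y) := by
  have hp0 : 0 < p.im := lt_of_lt_of_le hy hp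
  have hM0 : 0 ≤ M := (norm_nonneg _).trans hpM
  have hne : (c : ℂ) * p + d ≠ 0 := denom_ne hp0 (by rintro ⟨rfl, rfl⟩; simp at hdet)
  have him := im_moeb hdet hp0
  rw [← h] at him
  set D : ℝ := ‖(c : ℂ) * p + d‖ with hD
  have hD0 : 0 < D := norm_pos_iff.mpr hne
  set K : ℝ := 1 + M / y with hK
  have hMy : 0 ≤ M / y := div_nonneg hM0 hy.le
  have hK1 : 1 ≤ K := by linarith
  have hDK : D ≤ K := by
    have h1 : D ^ 2 ≤ M / y := by
      rw [le_div_iff₀ hy]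
      have h2 : q.im * D ^ 2 = p.im := by rw [him]; field_simp
      have h3 : p.im ≤ M := (Complex.im_le_norm p).trans hpM
      nlinarith [sq_nonneg D]
    rcases le_total D 1 with h4 | h4
    · linarith
    · nlinarith
  have hi : 0 < 1 / y := by positivity
  have hc : |(c : ℝ)| ≤ K * (1 / y) := by
    have h1 : |(c : ℝ)| * p.im ≤ D := by
      have h2 : ((c : ℂ) * p + d).im = c * p.im := by simp
      have h3 := Complex.abs_im_le_norm ((c : ℂ) * p + d)
      rw [h2, abs_mul, abs_of_pos hp0] at h3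
      exact h3
    have h4 : |(c : ℝ)| * y ≤ K := (mul_le_mul_of_nonneg_left hp (abs_nonneg _)).trans (h1.trans hDK)
    rw [mul_one_div, le_div_iff₀ hy]
    exact h4
  have hd : |(d : ℝ)| ≤ K + K * (1 / y) * M := by
    have h1 : (d : ℂ) = (c * p + d) - c * p := by ring
    have h2 : ‖(d : ℂ)‖ ≤ D + ‖(c : ℂ) * p‖ := by
      conv_lhs => rw [h1]
      exact norm_sub_le _ _
    rw [norm_mul, Complex.norm_intCast, Complex.norm_intCast] at h2
    have h3 : |(c : ℝ)| * ‖p‖ ≤ K * (1 / y) * M :=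
      mul_le_mul hc hpM (norm_nonneg _) (by positivity)
    linarith
  have hN : ‖(a : ℂ) * p + b‖ ≤ M * K := by
    have h1 : (a : ℂ) * p + b = q * (c * p + d) := by rw [h, div_mul_cancel₀ _ hne]
    rw [h1, norm_mul]
    exact mul_le_mul hqM hDK hD0.le hM0
  have ha : |(a : ℝ)| ≤ M * K * (1 / y) := by
    have h1 : |(a : ℝ)| * p.im ≤ M * K := by
      have h2 : ((a : ℂ) * p + b).im = a * p.im := by simp
      have h3 := Complex.abs_im_le_norm ((a : ℂ) * p + b)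
      rw [h2, abs_mul, abs_of_pos hp0] at h3
      exact h3.trans hN
    have h4 : |(a : ℝ)| * y ≤ M * K := (mul_le_mul_of_nonneg_left hp (abs_nonneg _)).trans h1
    rw [mul_one_div, le_div_iff₀ hy]
    exact h4
  have hb : |(b : ℝ)| ≤ M * K + M * K * (1 / y) * M := by
    have h1 : (b : ℂ) = (a * p + b) - a * p := by ring
    have h2 : ‖(b : ℂ)‖ ≤ M * K + ‖(a : ℂ) * p‖ := by
      conv_lhs => rw [h1]
      exact (norm_sub_le _ _).trans (add_le_add_left hN _)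
    rw [norm_mul, Complex.norm_intCast, Complex.norm_intCast] at h2
    have h3 : |(a : ℝ)| * ‖p‖ ≤ M * K * (1 / y) * M :=
      mul_le_mul ha hpM (norm_nonneg _) (by positivity)
    linarith
  have hK0 : 0 < K := by linarith
  generalize 1 / y = i at *
  have p1 : 0 ≤ K * M := by positivity
  have p2 : 0 ≤ K * M * i := by positivity
  have p3 : 0 ≤ K * M ^ 2 := by positivity
  have p4 : 0 ≤ K * M ^ 2 * i := by positivity
  have p5 : 0 ≤ K * i := by positivity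
  have p6 : K * (1 + M) ^ 2 * (1 + i) = K + K * i + 2 * (K * M) + 2 * (K * M * i) + K * M ^ 2
    + K * M ^ 2 * i := by ring
  refine ⟨?_, ?_, ?_, ?_⟩
  · rw [p6]; nlinarith
  · rw [p6]; nlinarith
  · rw [p6]; nlinarith
  · rw [p6]; nlinarith

theorem lamF_deriv : ∀ τ ∈ HH, deriv lamF τ ≠ 0 := by
  intro τ hτ h0
  have hτ' : 0 < τ.im := hτ
  obtain ⟨p, q, hp, hq, hpq⟩ := not_inj_near (lamF_analytic hτ) h0 (lamF_not_const hτ)
  set l : Ultrafilter ℂ := Ultrafilter.of (𝓝[≠] (0 : ℂ)) with hl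
  have hle : (l : Filter ℂ) ≤ 𝓝[≠] (0 : ℂ) := Ultrafilter.of_le _
  have hp' : Tendsto p l (𝓝 τ) := hp.mono_left hle
  have hq' : Tendsto q l (𝓝 τ) := hq.mono_left hle
  have hpq' : ∀ᶠ w in (l : Filter ℂ), p w ≠ q w ∧ lamF (p w) = lamF (q w) := hpq.filter_mono hle
  have hy : 0 < τ.im / 2 := by linarith
  set y := τ.im / 2 with hydef
  set M := ‖τ‖ + 1 with hM
  have hU : {z : ℂ | y < z.im ∧ ‖z‖ < M} ∈ 𝓝 τ := by
    apply IsOpen.mem_nhds
    · exact (isOpen_lt continuous_const Complex.continuous_im).inter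
        (isOpen_lt continuous_norm continuous_const)
    · refine ⟨?_, ?_⟩
      · rw [hydef]; linarith
      · rw [hM]; linarith
  set C : ℝ := (1 + M / y) * (1 + M) ^ 2 * (1 + 1 / y) with hC
  have hev : ∀ᶠ w in (l : Filter ℂ), ∃ g ∈ (Icc (-⌈C⌉) ⌈C⌉ ×ˢ (Icc (-⌈C⌉) ⌈C⌉ ×ˢ
      (Icc (-⌈C⌉) ⌈C⌉ ×ˢ Icc (-⌈C⌉) ⌈C⌉)) : Set (ℤ × ℤ × ℤ × ℤ)),
      Gam2 g.1 g.2.1 g.2.2.1 g.2.2.2 ∧ p w ≠ q w ∧
        q w = ((g.1 : ℂ) * p w + g.2.1) / (g.2.2.1 * p w + g.2.2.2) := by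
    filter_upwards [hpq', hp'.eventually hU, hq'.eventually hU] with w h1 h2 h3
    have h2' : p w ∈ HH := hy.trans h2.1
    have h3' : q w ∈ HH := hy.trans h3.1
    obtain ⟨a, b, c, d, hg, hgq⟩ := lamF_eq _ h2' _ h3' h1.2
    obtain ⟨ba, bb, bc, bd⟩ := entries_bound hg.1 hy h2.1.le h3.1.le h2.2.le h3.2.le hgq
    exact ⟨(a, b, c, d), ⟨int_bound ba, int_bound bb, int_bound bc, int_bound bd⟩, hg, h1.1, hgq⟩
  rw [Ultrafilter.eventually_exists_mem_iff] at hev
  · obtain ⟨⟨a, b, c, d⟩, -, hg⟩ := hev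
    simp only at hg
    obtain ⟨w₀, hg0, hne0, heq0⟩ := hg.exists
    have hlim : Tendsto (fun w => ((a : ℂ) * p w + b) / (c * p w + d)) l
        (𝓝 (((a : ℂ) * τ + b) / (c * τ + d))) := by
      have hne : (c : ℂ) * τ + d ≠ 0 :=
        denom_ne hτ' (by rintro ⟨rfl, rfl⟩; simpa using hg0.1)
      exact ((hp'.const_mul _).add_const _).div ((hp'.const_mul _).add_const _) hne
    have hq2 : Tendsto q l (𝓝 (((a : ℂ) * τ + b) / (c * τ + d))) := by
      apply hlim.congr'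
      filter_upwards [hg] with w hw
      exact hw.2.2.symm
    have hfix := tendsto_nhds_unique hq' hq2
    obtain ⟨rfl, rfl, rfl⟩ := gam2_no_fix hg0 hτ hfix
    apply hne0
    rw [heq0]
    have ha : (a : ℂ) ≠ 0 := by
      intro h
      have : a = 0 := by exact_mod_cast h
      subst this
      simpa using hg0.1
    simp
    field_simp
  · exact (finite_Icc _ _).prod ((finite_Icc _ _).prod ((finite_Icc _ _).prod (finite_Icc _ _)))

end Pool.Agent.T05
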