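import Pool.Agent.Lib.MP_0162a5_an.O

/-! MODULE Alg: the Banach algebra of continuous functions on a compact space `X` which are
holomorphic along finitely many embedded closed bidiscs meeting only in a finite set; its
characters are the points of `X`.
-/

set_option autoImplicit false

open Metric Set Topology Filter

namespace Pool.Agent.T05

/-- The closed bidisc. -/
abbrev BD : Type := closedBall (0 : ℂ × ℂ) 1

/-- The bidisc algebra: uniform limits of polynomials in two variables. -/
noncomputable def polAlg : Subalgebra ℂ C(BD, ℂ) :=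
  (Algebra.adjoin ℂ {(⟨fun z => z.1.1, by fun_prop⟩ : C(BD, ℂ)),
    (⟨fun z => z.1.2, by fun_prop⟩ : C(BD, ℂ))}).topologicalClosure

/-- The algebra of functions on `X` that are in the bidisc algebra along the pieces `e i`. -/
noncomputable def pieceAlg {X : Type} [TopologicalSpace X] [CompactSpace X] {k : ℕ}
    (e : Fin k → C(BD, X)) : Subalgebra ℂ C(X, ℂ) :=
  ⨅ i, polAlg.comap (ContinuousMap.compRightAlgHom ℂ ℂ (e i))

theorem mem_pieceAlg {X : Type} [TopologicalSpace X] [CompactSpace X] {k : ℕ}
    (e : Fin k → C(BD, X)) (f : C(X, ℂ)) : f ∈ pieceAlg e ↔ ∀ i, f.comp (e i) ∈ polAlg := by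
  unfold pieceAlg
  rw [Algebra.mem_iInf]
  rfl

/-- elements of the algebra generated by the coordinates are restrictions of entire functions -/
theorem adjoin_holo (g : C(BD, ℂ))
    (hg : g ∈ Algebra.adjoin ℂ {(⟨fun z => z.1.1, by fun_prop⟩ : C(BD, ℂ)),
    (⟨fun z => z.1.2, by fun_prop⟩ : C(BD, ℂ))}) :
    ∃ G : ℂ × ℂ → ℂ, Differentiable ℂ G ∧ ∀ z : BD, G z = g z := by
  induction hg using Algebra.adjoin_induction with
  | mem x hx =>
    rcases hx with rfl | hx
    · exact ⟨fun z => z.1, differentiable_fst, fun z => rfl⟩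
    · rw [Set.mem_singleton_iff] at hx
      subst hx
      exact ⟨fun z => z.2, differentiable_snd, fun z => rfl⟩
  | algebraMap r => exact ⟨fun _ => r, differentiable_const _, fun z => rfl⟩
  | add x y _ _ hx hy =>
    obtain ⟨G, hG, hG'⟩ := hx
    obtain ⟨H, hH, hH'⟩ := hy
    exact ⟨fun z => G z + H z, hG.add hH, fun z => by simp [hG', hH']⟩
  | mul x y _ _ hx hy =>
    obtain ⟨G, hG, hG'⟩ := hx
    obtain ⟨H, hH, hH'⟩ := hy
    exact ⟨fun z => G z * H z, hG.mul hH, fun z => by simp [hG', hH']⟩

/-- functions in `polAlg` are holomorphic in the interior -/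
theorem polAlg_holo (g : C(BD, ℂ)) (hg : g ∈ polAlg) (G : ℂ × ℂ → ℂ)
    (hG : ∀ z : BD, G z = g z) : DifferentiableOn ℂ G (ball 0 1) := by
  have hg' : g ∈ closure ((Algebra.adjoin ℂ {(⟨fun z => z.1.1, by fun_prop⟩ : C(BD, ℂ)),
    (⟨fun z => z.1.2, by fun_prop⟩ : C(BD, ℂ))} : Subalgebra ℂ C(BD, ℂ)) : Set C(BD, ℂ)) := hg
  rw [mem_closure_iff_seq_limit] at hg'
  obtain ⟨u, hu, hlim⟩ := hg'
  choose P hP hP' using fun n => adjoin_holo (u n) (hu n)
  have h1 : DifferentiableOn ℂ (fun z => (G z, (0 : ℂ))) (ball (0 : ℂ × ℂ) 1) := by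
    apply diffOn_of_limit (l := atTop) isOpen_ball (F := fun n z => (P n z, (0 : ℂ)))
    · exact Filter.Eventually.of_forall fun n =>
        ((hP n).differentiableOn).prodMk (differentiableOn_const _)
    · apply TendstoUniformlyOn.tendstoLocallyUniformlyOn
      rw [Metric.tendstoUniformlyOn_iff]
      intro ε hε
      rw [ContinuousMap.tendsto_iff_tendstoUniformly, Metric.tendstoUniformly_iff] at hlim
      filter_upwards [hlim ε hε] with n hn z hz
      have hz' : z ∈ closedBall (0 : ℂ × ℂ) 1 := ball_subset_closedBall hz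
      have := hn ⟨z, hz'⟩
      rw [Prod.dist_eq, dist_self, max_eq_left dist_nonneg]
      have e1 := hG ⟨z, hz'⟩
      have e2 := hP' n ⟨z, hz'⟩
      simp only at e1 e2
      rw [e1, e2]
      exact this
  exact h1.fst

theorem Z1_mem : (⟨fun z => z.1.1, by fun_prop⟩ : C(BD, ℂ)) ∈ polAlg :=
  Subalgebra.le_topologicalClosure _ (Algebra.subset_adjoin (by simp))

theorem Z2_mem : (⟨fun z => z.1.2, by fun_prop⟩ : C(BD, ℂ)) ∈ polAlg :=
  Subalgebra.le_topologicalClosure _ (Algebra.subset_adjoin (by simp))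

/-- affine functions are in `polAlg` -/
theorem affine_mem_polAlg (g : C(BD, ℂ)) (a b c : ℂ) (hg : ∀ z : BD, g z = a + b * z.1.1 + c * z.1.2) :
    g ∈ polAlg := by
  have : g = algebraMap ℂ C(BD, ℂ) a + b • (⟨fun z => z.1.1, by fun_prop⟩ : C(BD, ℂ))
      + c • (⟨fun z => z.1.2, by fun_prop⟩ : C(BD, ℂ)) := by
    ext z
    rw [hg]
    simp
  rw [this]
  exact add_mem (add_mem (Subalgebra.algebraMap_mem _ _) (Subalgebra.smul_mem _ Z1_mem _))
    (Subalgebra.smul_mem _ Z2_mem _)

theorem polAlg_isClosed : IsClosed (polAlg : Set C(BD, ℂ)) :=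
  Subalgebra.isClosed_topologicalClosure _

theorem pieceAlg_isClosed {X : Type} [TopologicalSpace X] [CompactSpace X] {k : ℕ}
    (e : Fin k → C(BD, X)) : IsClosed (pieceAlg e : Set C(X, ℂ)) := by
  have : (pieceAlg e : Set C(X, ℂ)) = ⋂ i, (fun f : C(X, ℂ) => f.comp (e i)) ⁻¹' polAlg := by
    ext f
    simp only [SetLike.mem_coe, mem_pieceAlg, Set.mem_iInter, Set.mem_preimage]
  rw [this]
  exact isClosed_iInter fun i => polAlg_isClosed.preimage (ContinuousMap.continuous_precomp (e i))

/-- gluing + Tietze -/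
theorem glue {X Z : Type} [TopologicalSpace X] [CompactSpace X] [T2Space X] [TopologicalSpace Z]
    [CompactSpace Z] (E : C(Z, X)) (H : C(Z, ℂ)) (h : ∀ z z', E z = E z' → H z = H z') :
    ∃ F : C(X, ℂ), ∀ z, F (E z) = H z := by
  have hcl : IsClosed (Set.range E) := (isCompact_range E.continuous).isClosed
  let E' : C(Z, Set.range E) := ⟨fun z => ⟨E z, z, rfl⟩, by
    apply Continuous.subtype_mk; exact E.continuous⟩
  have hq : IsQuotientMap E' := by
    apply IsClosedMap.isQuotientMap E'.continuous.isClosedMap E'.continuous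
    rintro ⟨x, z, rfl⟩
    exact ⟨z, rfl⟩
  have hH : ∀ z z', E' z = E' z' → H z = H z' := by
    intro z z' hzz
    exact h z z' (congrArg Subtype.val hzz)
  let L : C(Set.range E, ℂ) := hq.lift H hH
  obtain ⟨F, hF⟩ := ContinuousMap.exists_restrict_eq hcl L
  refine ⟨F, fun z => ?_⟩
  have e1 : (F.restrict (Set.range E)) (E' z) = L (E' z) := by rw [hF]
  have e2 : L (E' z) = H z := by
    have := hq.lift_comp H hH
    exact DFunLike.congr_fun this z
  rw [← e2, ← e1]
  rfl

/-- functions with values prescribed on the pieces and on a finite set -/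
theorem glue_pieces {X : Type} [TopologicalSpace X] [CompactSpace X] [T2Space X] {k : ℕ}
    (e : Fin k → C(BD, X)) (h : Fin k → C(BD, ℂ)) (T : Finset X) (c : X → ℂ)
    (h1 : ∀ i j ζ ζ', e i ζ = e j ζ' → h i ζ = h j ζ')
    (h2 : ∀ i ζ, e i ζ ∈ T → h i ζ = c (e i ζ)) :
    ∃ F : C(X, ℂ), (∀ i ζ, F (e i ζ) = h i ζ) ∧ ∀ x ∈ T, F x = c x := by
  classical
  let E : C((Σ _ : Fin k, BD) ⊕ T, X) :=
    ⟨Sum.elim (fun z => e z.1 z.2) (fun t => t.1), by
      apply Continuous.sumElim
      · exact continuous_sigma fun i => (e i).continuous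
      · exact continuous_subtype_val⟩
  let H : C((Σ _ : Fin k, BD) ⊕ T, ℂ) :=
    ⟨Sum.elim (fun z => h z.1 z.2) (fun t => c t.1), by
      apply Continuous.sumElim
      · exact continuous_sigma fun i => (h i).continuous
      · exact continuous_of_discreteTopology⟩
  obtain ⟨F, hF⟩ := glue E H (by
    rintro (⟨i, ζ⟩ | t) (⟨j, ζ'⟩ | t') hz
    · exact h1 i j ζ ζ' hz
    · have hz' : e i ζ = t'.1 := hz
      change h i ζ = c t'.1
      rw [h2 i ζ (by rw [hz']; exact t'.2), hz']
    · have hz' : t.1 = e j ζ' := hz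
      change c t.1 = h j ζ'
      rw [h2 j ζ' (by rw [← hz']; exact t.2), hz']
    · have hz' : t.1 = t'.1 := hz
      change c t.1 = c t'.1
      rw [hz'])
  exact ⟨F, fun i ζ => hF (Sum.inl ⟨i, ζ⟩), fun x hx => hF (Sum.inr ⟨x, hx⟩)⟩

/-- interpolation in the bidisc algebra -/
theorem interp_pol (T : Finset BD) (c : BD → ℂ) : ∃ g ∈ polAlg, ∀ z ∈ T, g z = c z := by
  classical
  have hsep : ∀ a b : BD, a ≠ b → ∃ g ∈ polAlg, g a = 1 ∧ g b = 0 := by
    intro a b hab
    have : a.1.1 ≠ b.1.1 ∨ a.1.2 ≠ b.1.2 := by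
      by_contra hcon
      push Not at hcon
      exact hab (Subtype.ext (Prod.ext hcon.1 hcon.2))
    rcases this with hne | hne
    · refine ⟨⟨fun z => -b.1.1 / (a.1.1 - b.1.1) + 1 / (a.1.1 - b.1.1) * z.1.1 + 0 * z.1.2,
        by fun_prop⟩, affine_mem_polAlg _ _ _ _ (fun z => rfl), ?_, ?_⟩
      · have := sub_ne_zero.2 hne
        simp only [ContinuousMap.coe_mk]
        field_simp
        ring
      · have := sub_ne_zero.2 hne
        simp only [ContinuousMap.coe_mk]
        field_simp
        ring
    · refine ⟨⟨fun z => -b.1.2 / (a.1.2 - b.1.2) + 0 * z.1.1 + 1 / (a.1.2 - b.1.2) * z.1.2,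
        by fun_prop⟩, affine_mem_polAlg _ _ _ _ (fun z => rfl), ?_, ?_⟩
      · have := sub_ne_zero.2 hne
        simp only [ContinuousMap.coe_mk]
        field_simp
        ring
      · have := sub_ne_zero.2 hne
        simp only [ContinuousMap.coe_mk]
        field_simp
        ring
  have hdel : ∀ a ∈ T, ∃ g ∈ polAlg, ∀ z ∈ T, g z = if z = a then 1 else 0 := by
    intro a ha
    choose! s hs hs1 hs0 using hsep a
    refine ⟨∏ b ∈ T.erase a, s b, ?_, ?_⟩
    · exact Subalgebra.prod_mem _ fun b hb => hs b (Finset.ne_of_mem_erase hb).symm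
    · intro z hz
      rw [ContinuousMap.coe_prod, Finset.prod_apply]
      split_ifs with hza
      · subst hza
        exact Finset.prod_eq_one fun b hb => hs1 b (Finset.ne_of_mem_erase hb).symm
      · exact Finset.prod_eq_zero (Finset.mem_erase.2 ⟨hza, hz⟩) (hs0 z (Ne.symm hza))
  choose! d hd hd' using hdel
  refine ⟨∑ a ∈ T, c a • d a, ?_, ?_⟩
  · exact Subalgebra.sum_mem _ fun a ha => Subalgebra.smul_mem _ (hd a ha) _
  · intro z hz
    rw [ContinuousMap.coe_sum, Finset.sum_apply, Finset.sum_eq_single z]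
    · simp [hd' z hz z hz]
    · intro b hb hbz
      simp [hd' b hb z hz, Ne.symm hbz]
    · intro h; exact absurd hz h

/-- interpolation in `pieceAlg` at a finite set -/
theorem interp_piece {X : Type} [TopologicalSpace X] [CompactSpace X] [T2Space X] {k : ℕ}
    (e : Fin k → C(BD, X)) (hinj : ∀ i, Function.Injective (e i)) (S : Finset X)
    (hS : ∀ i j, i ≠ j → ∀ ζ ζ' : BD, e i ζ = e j ζ' → e i ζ ∈ S) (T : Finset X) (c : X → ℂ) :
    ∃ f ∈ pieceAlg e, ∀ x ∈ T, f x = c x := by
  classical
  have hfin : ∀ i, (e i ⁻¹' (S ∪ T : Finset X)).Finite := fun i =>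
    Set.Finite.preimage ((hinj i).injOn) (Finset.finite_toSet _)
  choose P hP hP' using fun i => interp_pol (hfin i).toFinset (fun ζ => c (e i ζ))
  obtain ⟨F, hF1, hF2⟩ := glue_pieces e P T c (by
    intro i j ζ ζ' h
    by_cases hij : i = j
    · subst hij
      rw [hinj i h]
    · have h1 := hS i j hij ζ ζ' h
      rw [hP' i ζ (by simp [h1]), hP' j ζ' (by simp [← h, h1]), h]) (by
    intro i ζ h
    exact hP' i ζ (by simp [h]))
  refine ⟨F, ?_, hF2⟩
  rw [mem_pieceAlg]
  intro i
  have : F.comp (e i) = P i := by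
    ext ζ; exact hF1 i ζ
  rw [this]
  exact hP i

/-- characters of `C(X, ℂ)` are evaluations -/
theorem char_CX {X : Type} [TopologicalSpace X] [CompactSpace X] [T2Space X]
    (ψ : C(X, ℂ) →ₐ[ℂ] ℂ) : ∃ x, ∀ f, ψ f = f x := by
  obtain ⟨x, hx⟩ := (WeakDual.CharacterSpace.continuousMapEval_bijective (X := X) (𝕜 := ℂ)).2
    (WeakDual.CharacterSpace.equivAlgHom.symm ψ)
  refine ⟨x, fun f => ?_⟩
  have := DFunLike.congr_fun hx f
  rw [WeakDual.CharacterSpace.continuousMapEval_apply_apply] at this
  rw [this]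
  rfl

instance : CompleteSpace polAlg := polAlg_isClosed.completeSpace_coe

/-- characters of the bidisc algebra are evaluations -/
theorem char_pol (ψ : polAlg →ₐ[ℂ] ℂ) : ∃ p : BD, ∀ g : polAlg, ψ g = (g : C(BD, ℂ)) p := by
  have hone : ‖(1 : polAlg)‖ ≤ 1 := by
    change ‖(1 : C(BD, ℂ))‖ ≤ 1
    rw [ContinuousMap.norm_le _ zero_le_one]
    intro z
    simp
  have hnorm : ∀ g : polAlg, ‖ψ g‖ ≤ ‖g‖ := fun g =>
    (AlgHom.norm_apply_le_self_mul_norm_one ψ g).trans
      (mul_le_of_le_one_right (norm_nonneg _) hone)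
  let p : ℂ × ℂ := (ψ ⟨_, Z1_mem⟩, ψ ⟨_, Z2_mem⟩)
  have hp : p ∈ closedBall (0 : ℂ × ℂ) 1 := by
    rw [mem_closedBall_zero_iff, Prod.norm_def]
    apply max_le
    · refine (hnorm _).trans ?_
      change ‖(⟨fun z => z.1.1, by fun_prop⟩ : C(BD, ℂ))‖ ≤ 1
      rw [ContinuousMap.norm_le _ zero_le_one]
      intro z
      have := z.2
      rw [mem_closedBall_zero_iff, Prod.norm_def] at this
      exact (le_max_left _ _).trans this
    · refine (hnorm _).trans ?_
      change ‖(⟨fun z => z.1.2, by fun_prop⟩ : C(BD, ℂ))‖ ≤ 1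
      rw [ContinuousMap.norm_le _ zero_le_one]
      intro z
      have := z.2
      rw [mem_closedBall_zero_iff, Prod.norm_def] at this
      exact (le_max_right _ _).trans this
  refine ⟨⟨p, hp⟩, ?_⟩
  have key : ∀ g (hg : g ∈ Algebra.adjoin ℂ {(⟨fun z => z.1.1, by fun_prop⟩ : C(BD, ℂ)),
      (⟨fun z => z.1.2, by fun_prop⟩ : C(BD, ℂ))}) (hg' : g ∈ polAlg),
      ψ ⟨g, hg'⟩ = g ⟨p, hp⟩ := by
    intro g hg
    induction hg using Algebra.adjoin_induction with
    | mem x hx =>
      intro hx'
      rcases hx with rfl | hx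
      · rfl
      · rw [Set.mem_singleton_iff] at hx
        subst hx
        rfl
    | algebraMap r =>
      intro hr
      exact ψ.commutes r
    | add x y hx0 hy0 hx hy =>
      intro hxy
      have hx1 : x ∈ polAlg := Subalgebra.le_topologicalClosure _ hx0
      have hy1 : y ∈ polAlg := Subalgebra.le_topologicalClosure _ hy0
      have : (⟨x + y, hxy⟩ : polAlg) = ⟨x, hx1⟩ + ⟨y, hy1⟩ := rfl
      rw [this, map_add, hx hx1, hy hy1]
      rfl
    | mul x y hx0 hy0 hx hy =>
      intro hxy
      have hx1 : x ∈ polAlg := Subalgebra.le_topologicalClosure _ hx0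
      have hy1 : y ∈ polAlg := Subalgebra.le_topologicalClosure _ hy0
      have : (⟨x * y, hxy⟩ : polAlg) = ⟨x, hx1⟩ * ⟨y, hy1⟩ := rfl
      rw [this, map_mul, hx hx1, hy hy1]
      rfl
  intro g
  have hg' : (g : C(BD, ℂ)) ∈ closure ((Algebra.adjoin ℂ
    {(⟨fun z => z.1.1, by fun_prop⟩ : C(BD, ℂ)),
    (⟨fun z => z.1.2, by fun_prop⟩ : C(BD, ℂ))} : Subalgebra ℂ C(BD, ℂ)) : Set C(BD, ℂ)) := g.2
  rw [mem_closure_iff_seq_limit] at hg'
  obtain ⟨u, hu, hlim⟩ := hg'
  have hu' : ∀ n, u n ∈ polAlg := fun n => Subalgebra.le_topologicalClosure _ (hu n)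
  have h1 : Tendsto (fun n => ψ ⟨u n, hu' n⟩) atTop (𝓝 (ψ g)) := by
    rw [tendsto_iff_norm_sub_tendsto_zero]
    apply squeeze_zero (fun n => norm_nonneg _) (fun n => ?_)
      ((tendsto_iff_norm_sub_tendsto_zero.1 hlim))
    rw [← map_sub]
    exact hnorm _
  have h2 : Tendsto (fun n => (u n) ⟨p, hp⟩) atTop (𝓝 ((g : C(BD, ℂ)) ⟨p, hp⟩)) := by
    have := ((continuous_eval_const (F := C(BD, ℂ)) (⟨p, hp⟩ : BD)).tendsto
      (g : C(BD, ℂ))).comp hlim
    exact this
  have h3 : (fun n => ψ ⟨u n, hu' n⟩) = fun n => (u n) ⟨p, hp⟩ := by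
    funext n; exact key (u n) (hu n) (hu' n)
  rw [h3] at h1
  exact tendsto_nhds_unique h1 h2

theorem char_eval {X : Type} [TopologicalSpace X] [CompactSpace X] [T2Space X] {k : ℕ}
    (e : Fin k → C(BD, X)) (hinj : ∀ i, Function.Injective (e i)) (S : Finset X)
    (hS : ∀ i j, i ≠ j → ∀ ζ ζ' : BD, e i ζ = e j ζ' → e i ζ ∈ S)
    (χ : pieceAlg e →ₐ[ℂ] ℂ) : ∃ x, ∀ f : pieceAlg e, χ f = (f : C(X, ℂ)) x := by
  classical
  by_cases h1 : ∃ j : pieceAlg e, (∀ i ζ, (j : C(X, ℂ)) (e i ζ) = 0) ∧ χ j = 1
  · -- functions vanishing on the pieces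
    obtain ⟨j, hj, hχj⟩ := h1
    have hmem : ∀ b : C(X, ℂ), b * (j : C(X, ℂ)) ∈ pieceAlg e := by
      intro b
      rw [mem_pieceAlg]
      intro i
      have : (b * (j : C(X, ℂ))).comp (e i) = 0 := by
        ext ζ; simp [hj]
      rw [this]
      exact zero_mem _
    let ψ : C(X, ℂ) →ₐ[ℂ] ℂ :=
      { toFun := fun b => χ ⟨b * j, hmem b⟩
        map_one' := by
          rw [← hχj]; congr 1; ext x; simp
        map_zero' := by
          have : (⟨0 * (j : C(X, ℂ)), hmem 0⟩ : pieceAlg e) = 0 := by ext x; simp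
          rw [this, map_zero]
        map_add' := by
          intro b b'
          rw [← map_add]; congr 1; ext x; simp [add_mul]
        map_mul' := by
          intro b b'
          rw [← map_mul]
          rw [← mul_one (χ ⟨b * b' * j, hmem _⟩), ← hχj, ← map_mul]
          congr 1; ext x; simp; ring
        commutes' := by
          intro r
          have : (⟨algebraMap ℂ C(X, ℂ) r * (j : C(X, ℂ)), hmem _⟩ : pieceAlg e) = r • j := by
            ext x; simp
          rw [this, map_smul, hχj]; simp }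
    obtain ⟨x, hx⟩ := char_CX ψ
    refine ⟨x, fun f => ?_⟩
    rw [← hx, ← mul_one (χ f), ← hχj, ← map_mul]
    rfl
  · -- `χ f` only depends on the values on the pieces
    have h0 : ∀ f g : pieceAlg e, (∀ i ζ, (f : C(X, ℂ)) (e i ζ) = (g : C(X, ℂ)) (e i ζ)) →
        χ f = χ g := by
      intro f g hfg
      by_contra hne
      apply h1
      refine ⟨(χ (f - g))⁻¹ • (f - g), ?_, ?_⟩
      · intro i ζ
        have := hfg i ζ
        simp [this]
      · rw [map_smul, smul_eq_mul, inv_mul_cancel₀]
        rw [map_sub]; exact sub_ne_zero.2 hne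
    by_cases h2 : ∃ j : pieceAlg e, (∀ s ∈ S, (j : C(X, ℂ)) s = 0) ∧ χ j ≠ 0
    · obtain ⟨j, hjS, hχj⟩ := h2
      -- split `j`
      have hsplit : ∀ i, ∃ J : pieceAlg e, (∀ ζ, (J : C(X, ℂ)) (e i ζ) = (j : C(X, ℂ)) (e i ζ)) ∧
          ∀ l, l ≠ i → ∀ ζ, (J : C(X, ℂ)) (e l ζ) = 0 := by
        intro i
        obtain ⟨F, hF, -⟩ := glue_pieces e
          (fun l => if l = i then (j : C(X, ℂ)).comp (e i) else 0) ∅ (fun _ => 0) (by
            intro l l' ζ ζ' h
            by_cases hl : l = i
            · by_cases hl' : l' = i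
              · subst hl; subst hl'
                simp [h]
              · subst hl
                have hs := hS l l' (Ne.symm hl') ζ ζ' h
                simp [hl', hjS _ hs]
            · by_cases hl' : l' = i
              · subst hl'
                have hs := hS l l' hl ζ ζ' h
                rw [h] at hs
                simp [hl, hjS _ hs]
              · simp [hl, hl']) (by simp)
        refine ⟨⟨F, ?_⟩, ?_, ?_⟩
        · rw [mem_pieceAlg]
          intro l
          by_cases hl : l = i
          · subst hl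
            have : F.comp (e l) = (j : C(X, ℂ)).comp (e l) := by
              ext ζ
              have := hF l ζ
              simpa using this
            rw [this]
            exact (mem_pieceAlg e _).1 j.2 l
          · have : F.comp (e l) = 0 := by
              ext ζ
              have := hF l ζ
              simpa [hl] using this
            rw [this]
            exact zero_mem _
        · intro ζ
          have := hF i ζ
          simpa using this
        · intro l hl ζ
          have := hF l ζ
          simpa [hl] using this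
      choose J hJ1 hJ2 using hsplit
      have hsum : χ j = ∑ i, χ (J i) := by
        rw [← map_sum]
        apply h0
        intro l ζ
        have e1 : ((∑ i, J i : pieceAlg e) : C(X, ℂ)) (e l ζ) = ∑ i, (J i : C(X, ℂ)) (e l ζ) := by
          simp
        rw [e1, Finset.sum_eq_single l]
        · exact (hJ1 l ζ).symm
        · intro b _ hb
          exact hJ2 b l (Ne.symm hb) ζ
        · simp
      obtain ⟨i, hi⟩ : ∃ i, χ (J i) ≠ 0 := by
        by_contra hcon
        push Not at hcon
        exact hχj (by rw [hsum]; exact Finset.sum_eq_zero fun i _ => hcon i)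
      -- normalise
      obtain ⟨m, hm1, hm2⟩ : ∃ m : pieceAlg e, χ m = 1 ∧
          ∀ l, l ≠ i → ∀ ζ, (m : C(X, ℂ)) (e l ζ) = 0 := by
        refine ⟨(χ (J i))⁻¹ • J i, ?_, ?_⟩
        · rw [map_smul, smul_eq_mul, inv_mul_cancel₀ hi]
        · intro l hl ζ
          have := hJ2 i l hl ζ
          simp [this]
      have hmS : ∀ l, l ≠ i → ∀ ζ ζ', e i ζ = e l ζ' → (m : C(X, ℂ)) (e i ζ) = 0 := by
        intro l hl ζ ζ' h
        rw [h]; exact hm2 l hl ζ'
      have hext : ∀ g : polAlg, ∃ G : pieceAlg e,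
          (∀ ζ, (G : C(X, ℂ)) (e i ζ) = (g : C(BD, ℂ)) ζ * (m : C(X, ℂ)) (e i ζ)) ∧
          ∀ l, l ≠ i → ∀ ζ, (G : C(X, ℂ)) (e l ζ) = 0 := by
        intro g
        obtain ⟨F, hF, -⟩ := glue_pieces e
          (fun l => if l = i then (g : C(BD, ℂ)) * (m : C(X, ℂ)).comp (e l) else 0) ∅
          (fun _ => 0) (by
            intro l l' ζ ζ' h
            by_cases hl : l = i
            · by_cases hl' : l' = i
              · have hz : ζ = ζ' := hinj i (by rw [hl, hl'] at h; exact h)
                rw [hz, hl, hl']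
              · have h4 : (m : C(X, ℂ)) (e l ζ) = 0 := by
                  rw [hl] at h ⊢
                  exact hmS l' hl' ζ ζ' h
                rw [if_pos hl, if_neg hl']
                simp [h4]
            · by_cases hl' : l' = i
              · have h4 : (m : C(X, ℂ)) (e l' ζ') = 0 := by
                  rw [hl'] at h ⊢
                  exact hmS l hl ζ' ζ h.symm
                rw [if_neg hl, if_pos hl']
                simp [h4]
              · rw [if_neg hl, if_neg hl']
                simp) (by simp)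
        refine ⟨⟨F, ?_⟩, ?_, ?_⟩
        · rw [mem_pieceAlg]
          intro l
          by_cases hl : l = i
          · subst hl
            have : F.comp (e l) = (g : C(BD, ℂ)) * (m : C(X, ℂ)).comp (e l) := by
              ext ζ
              have := hF l ζ
              simpa using this
            rw [this]
            exact mul_mem g.2 ((mem_pieceAlg e _).1 m.2 l)
          · have : F.comp (e l) = 0 := by
              ext ζ
              have := hF l ζ
              simpa [hl] using this
            rw [this]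
            exact zero_mem _
        · intro ζ
          have := hF i ζ
          simpa using this
        · intro l hl ζ
          have := hF l ζ
          simpa [hl] using this
      choose G hG1 hG2 using hext
      have hval : ∀ (g : polAlg) (f : pieceAlg e),
          (∀ ζ, (f : C(X, ℂ)) (e i ζ) = (g : C(BD, ℂ)) ζ * (m : C(X, ℂ)) (e i ζ)) →
          (∀ l, l ≠ i → ∀ ζ, (f : C(X, ℂ)) (e l ζ) = 0) → χ f = χ (G g) := by
        intro g f hf1 hf2
        apply h0
        intro l ζ
        by_cases hl : l = i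
        · subst hl
          rw [hf1, hG1]
        · rw [hf2 l hl, hG2 g l hl]
      let ψ : polAlg →ₐ[ℂ] ℂ :=
        { toFun := fun g => χ (G g)
          map_one' := by
            rw [← hval 1 m (by intro ζ; simp) hm2]
            exact hm1
          map_zero' := by
            rw [← hval 0 0 (by intro ζ; simp) (by intro l hl ζ; simp), map_zero]
          map_add' := by
            intro b b'
            rw [← map_add, ← hval (b + b') (G b + G b') (by
              intro ζ; simp [hG1, add_mul]) (by intro l hl ζ; simp [hG2 _ l hl])]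
          map_mul' := by
            intro b b'
            rw [← map_mul]
            have e1 : χ (G (b * b')) = χ (G (b * b') * m) := by
              rw [map_mul, hm1, mul_one]
            rw [e1]
            apply h0
            intro l ζ
            by_cases hl : l = i
            · subst hl
              simp [hG1]; ring
            · simp [hG2 _ l hl]
          commutes' := by
            intro r
            rw [← hval (algebraMap ℂ polAlg r) (r • m) (by intro ζ; simp) (by
              intro l hl ζ; simp [hm2 l hl]), map_smul, hm1]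
            simp }
      obtain ⟨p, hp⟩ := char_pol ψ
      refine ⟨e i p, fun f => ?_⟩
      have e1 : χ f = χ (f * m) := by rw [map_mul, hm1, mul_one]
      have e2 : χ (f * m) = ψ ⟨(f : C(X, ℂ)).comp (e i), (mem_pieceAlg e _).1 f.2 i⟩ := by
        apply hval
        · intro ζ; simp
        · intro l hl ζ; simp [hm2 l hl]
      rw [e1, e2, hp]
      rfl
    · push Not at h2
      by_contra hcon
      push Not at hcon
      choose fs hfs using hcon
      let g : X → pieceAlg e := fun s =>
        (χ (fs s) - (fs s : C(X, ℂ)) s)⁻¹ • (fs s - algebraMap ℂ _ ((fs s : C(X, ℂ)) s))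
      have hg1 : ∀ s, χ (g s) = 1 := by
        intro s
        simp only [g]
        rw [map_smul, map_sub, AlgHom.commutes, smul_eq_mul]
        exact inv_mul_cancel₀ (sub_ne_zero.2 (hfs s))
      have hg0 : ∀ s, (g s : C(X, ℂ)) s = 0 := by
        intro s
        simp [g]
      have := h2 (∏ s ∈ S, g s) (by
        intro s hs
        have e1 : ((∏ s ∈ S, g s : pieceAlg e) : C(X, ℂ)) s = ∏ t ∈ S, (g t : C(X, ℂ)) s := by
          simp
        rw [e1]
        exact Finset.prod_eq_zero hs (hg0 s))
      rw [map_prod, Finset.prod_eq_one (fun s _ => hg1 s)] at this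
      exact one_ne_zero this

theorem exists_char_homeo {X : Type} [TopologicalSpace X] [CompactSpace X] [T2Space X] {k : ℕ}
    (e : Fin k → C(BD, X)) (hinj : ∀ i, Function.Injective (e i)) (S : Finset X)
    (hS : ∀ i j, i ≠ j → ∀ ζ ζ' : BD, e i ζ = e j ζ' → e i ζ ∈ S) :
    ∃ φ : WeakDual.characterSpace ℂ (pieceAlg e) ≃ₜ X,
      ∀ (χ : WeakDual.characterSpace ℂ (pieceAlg e)) (f : pieceAlg e),
        χ f = (f : C(X, ℂ)) (φ χ) := by
  classical
  let ev : X → WeakDual.characterSpace ℂ (pieceAlg e) := fun x =>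
    ⟨{  toFun := fun f => (f : C(X, ℂ)) x
        map_add' := fun _ _ => rfl
        map_smul' := fun _ _ => rfl
        cont := (continuous_eval_const (F := C(X, ℂ)) x).comp continuous_subtype_val }, by
        rw [WeakDual.CharacterSpace.eq_set_map_one_map_mul]; exact ⟨rfl, fun f g => rfl⟩⟩
  have hevc : Continuous ev := by
    refine Continuous.subtype_mk (WeakDual.continuous_of_continuous_eval fun f => ?_) _
    exact (f : C(X, ℂ)).continuous
  have hev : ∀ x (f : pieceAlg e), ev x f = (f : C(X, ℂ)) x := fun x f => rfl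
  have hbij : Function.Bijective ev := by
    constructor
    · intro x y hxy
      by_contra hne
      obtain ⟨f, hf, hfx⟩ := interp_piece e hinj S hS {x, y} (fun z => if z = x then 1 else 0)
      have h1 := hfx x (by simp)
      have h2 := hfx y (by simp)
      have h3 : ev x ⟨f, hf⟩ = ev y ⟨f, hf⟩ := by rw [hxy]
      rw [hev, hev] at h3
      simp only at h3
      rw [h1, h2] at h3
      simp [Ne.symm hne] at h3
    · intro χ
      obtain ⟨x, hx⟩ := char_eval e hinj S hS (WeakDual.CharacterSpace.toAlgHom χ)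
      refine ⟨x, ?_⟩
      apply WeakDual.CharacterSpace.ext
      intro f
      rw [hev]
      exact (hx f).symm
  let Φ : X ≃ₜ WeakDual.characterSpace ℂ (pieceAlg e) :=
    Continuous.homeoOfEquivCompactToT2 (f := Equiv.ofBijective ev hbij) hevc
  refine ⟨Φ.symm, fun χ f => ?_⟩
  obtain ⟨x, rfl⟩ := Φ.surjective χ
  rw [Φ.symm_apply_apply]
  rfl

end Pool.Agent.T05
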