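import Pool.Agent.Lib.MP_0162a5_an.B0

/-! MODULE B: the universal covering `TT = ℝ⁴ → MM`. -/

set_option autoImplicit false

open Complex Metric Set Filter Topology

namespace Pool.Agent.T05

namespace BB

theorem MM_isOpen' : IsOpen MM := by
  have h1 : MM = ({p : ℂ × ℂ | p.1 ≠ 0} ∩ {p | p.1 ≠ 1}) ∩ ({p | p.2 ≠ 0} ∩ {p | p.2 ≠ 1}) ∩
      {p | p.1 ≠ p.2} := by
    ext p; simp only [MM, mem_ofPred_eq, mem_inter_iff]; tauto
  rw [h1]
  refine ((?_ : IsOpen _).inter ?_).inter ?_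
  · exact (isOpen_ne_fun continuous_fst continuous_const).inter
      (isOpen_ne_fun continuous_fst continuous_const)
  · exact (isOpen_ne_fun continuous_snd continuous_const).inter
      (isOpen_ne_fun continuous_snd continuous_const)
  · exact isOpen_ne_fun continuous_fst continuous_snd

theorem C01_isOpen' : IsOpen C01 :=
  (isOpen_ne_fun continuous_id continuous_const).inter
    (isOpen_ne_fun continuous_id continuous_const)

/-- one variable local homeomorphisms -/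
theorem localHomeo_one {f : ℂ → ℂ} {U : Set ℂ} (hU : IsOpen U) (hf : DifferentiableOn ℂ f U)
    (hd : ∀ z ∈ U, deriv f z ≠ 0) : IsLocalHomeomorphOn f U := by
  intro z hz
  have ha : AnalyticAt ℂ f z := hf.analyticAt (hU.mem_nhds hz)
  have hs : HasStrictDerivAt f (deriv f z) z := ha.hasStrictDerivAt
  have hs2 := hs.hasStrictFDerivAt_equiv (hd z hz)
  exact ⟨hs2.toOpenPartialHomeomorph f, hs2.mem_toOpenPartialHomeomorph_source, rfl⟩

section

variable (D : ModularData)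

/-- `(τ, z) ↦ (lam τ, mm τ z)` -/
def Phi (p : ℂ × ℂ) : ℂ × ℂ := (D.lam p.1, D.mm p.1 p.2)

theorem Phi_localHomeo : IsLocalHomeomorphOn (Phi D) WW := by
  intro u hu
  have hcont := D.mm_cont
  have hlam : HasStrictDerivAt D.lam (deriv D.lam u.1) u.1 :=
    (D.lam_diff.analyticAt (HH_isOpen.mem_nhds hu.1)).hasStrictDerivAt
  have e1 : ∀ᶠ v in 𝓝 u, v ∈ WW := WW_isOpen.mem_nhds hu
  have hmm : HasStrictFDerivAt (fun p : ℂ × ℂ => D.mm p.1 p.2)
      ((ContinuousLinearMap.toSpanSingleton ℂ (deriv (fun t => D.mm t u.2) u.1)).coprod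
        (ContinuousLinearMap.toSpanSingleton ℂ (deriv (fun w => D.mm u.1 w) u.2))) u := by
    refine hasStrictFDerivAt_uncurry_coprod (𝕜 := ℂ) (u := u) (f := fun t z => D.mm t z)
      (f₁ := fun t z => ContinuousLinearMap.toSpanSingleton ℂ (deriv (fun s => D.mm s z) t))
      (f₂ := fun t z => ContinuousLinearMap.toSpanSingleton ℂ (deriv (fun w => D.mm t w) z))
      ?_ ?_ ?_ ?_
    · filter_upwards [e1] with v hv
      exact (D.mm_diff₁ v.1 v.2 hv).hasDerivAt.hasFDerivAt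
    · filter_upwards [e1] with v hv
      exact (D.mm_diff₂ v.1 v.2 hv).hasDerivAt.hasFDerivAt
    · have := partial_cont₁ WW_isOpen hcont (fun p hp => D.mm_diff₁ p.1 p.2 hp) hu
      exact (ContinuousLinearMap.toSpanSingletonCLE (𝕜 := ℂ) (E := ℂ)).continuous.continuousAt.comp
        this
    · have := partial_cont₂ WW_isOpen hcont (fun p hp => D.mm_diff₂ p.1 p.2 hp) hu
      exact (ContinuousLinearMap.toSpanSingletonCLE (𝕜 := ℂ) (E := ℂ)).continuous.continuousAt.comp
        this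
  have h1 : HasStrictFDerivAt (fun p : ℂ × ℂ => D.lam p.1)
      ((ContinuousLinearMap.toSpanSingleton ℂ (deriv D.lam u.1)).comp
        (ContinuousLinearMap.fst ℂ ℂ ℂ)) u :=
    hlam.hasStrictFDerivAt.comp u hasStrictFDerivAt_fst
  have h2 := h1.prodMk hmm
  have h3 : HasStrictFDerivAt (Phi D)
      ((lowTri (deriv D.lam u.1) (deriv (fun t => D.mm t u.2) u.1)
        (deriv (fun w => D.mm u.1 w) u.2) (D.lam_deriv _ hu.1) (D.mm_deriv₂ _ _ hu) :
        (ℂ × ℂ) ≃L[ℂ] (ℂ × ℂ)) : (ℂ × ℂ) →L[ℂ] (ℂ × ℂ)) u := by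
    refine h2.congr_fderiv ?_
    apply ContinuousLinearMap.ext
    rintro ⟨x, y⟩
    simp only [lowTri, ContinuousLinearMap.prod_apply, ContinuousLinearMap.comp_apply,
      ContinuousLinearMap.coprod_apply, ContinuousLinearMap.toSpanSingleton_apply,
      ContinuousLinearMap.coe_fst', smul_eq_mul, ContinuousLinearEquiv.coe_coe,
      ContinuousLinearEquiv.equivOfInverse_apply, smul_apply, add_apply,
      ContinuousLinearMap.coe_snd']
    refine Prod.ext ?_ ?_
    · simp only; ring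
    · simp only; ring
  exact ⟨h3.toOpenPartialHomeomorph (Phi D), h3.mem_toOpenPartialHomeomorph_source, rfl⟩

theorem Phi_mem (p : WW) : Phi D p ∈ MM := D.mm_mem p.1.1 p.1.2 p.2

/-- elements of the group acting on `WW` -/
noncomputable def act (a b c d k l : ℤ) (s : ℂ) (p : ℂ × ℂ) : ℂ × ℂ :=
  ((a * p.1 + b) / (c * p.1 + d), (s * p.2 + 2 * (k + l * p.1)) / (c * p.1 + d))

theorem denom_ne {a b c d : ℤ} (h : a * d - b * c = 1) {τ : ℂ} (hτ : 0 < τ.im) :
    (c : ℂ) * τ + d ≠ 0 := by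
  intro h0
  have h1 := congrArg Complex.im h0
  have h2 := congrArg Complex.re h0
  simp at h1 h2
  rcases h1 with h1 | h1
  · rw [h1] at h2
    simp at h2
    rw [h1, h2] at h
    simp at h
  · exact hτ.ne' h1

theorem moeb_im {a b c d : ℤ} (h : a * d - b * c = 1) {τ : ℂ} (hτ : 0 < τ.im) :
    0 < (((a : ℂ) * τ + b) / (c * τ + d)).im := by
  have hne := denom_ne h hτ
  have h1 : (((a : ℂ) * τ + b) / (c * τ + d)).im =
      τ.im / Complex.normSq (c * τ + d) := by
    rw [Complex.div_im, ← sub_div]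
    have hq : (a : ℝ) * d - b * c = 1 := by exact_mod_cast h
    congr 1
    simp
    linear_combination (τ.im) * hq
  rw [h1]
  exact div_pos hτ (Complex.normSq_pos.mpr hne)

theorem act_mem {a b c d k l : ℤ} (h : a * d - b * c = 1) {s : ℂ} (hs : s = 1 ∨ s = -1)
    {p : ℂ × ℂ} (hp : p ∈ WW) : act a b c d k l s p ∈ WW := by
  have hne := denom_ne h hp.1
  refine ⟨moeb_im h hp.1, fun k' l' hk => ?_⟩
  simp only [act] at hk
  have h1 : s * p.2 + 2 * (k + l * p.1) = k' * (c * p.1 + d) + l' * (a * p.1 + b) := by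
    rw [div_eq_iff hne] at hk
    have h9 : ((a * p.1 + b) / (c * p.1 + d)) * (c * p.1 + d) = a * p.1 + b :=
      div_mul_cancel₀ _ hne
    linear_combination hk + l' * h9
  rcases hs with rfl | rfl
  · apply hp.2 (k' * d + l' * b - 2 * k) (k' * c + l' * a - 2 * l)
    push_cast
    linear_combination h1
  · apply hp.2 (-(k' * d + l' * b - 2 * k)) (-(k' * c + l' * a - 2 * l))
    push_cast
    linear_combination -h1

theorem neg_mem_WW {τ z : ℂ} (h : (τ, z) ∈ WW) : (τ, -z) ∈ WW := by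
  refine ⟨h.1, fun k l hk => ?_⟩
  apply h.2 (-k) (-l)
  simp only at hk ⊢
  push_cast
  linear_combination -hk

theorem Phi_act {a b c d k l : ℤ} (h : Gam2 a b c d) {s : ℂ} (hs : s = 1 ∨ s = -1)
    {p : ℂ × ℂ} (hp : p ∈ WW) : Phi D (act a b c d k l s p) = Phi D p := by
  have hne := denom_ne h.1 hp.1
  obtain ⟨τ, z⟩ := p
  have hz : (c * τ + d) * ((s * z + 2 * (k + l * τ)) / (c * τ + d)) =
      s * z + 2 * (k + l * τ) := by
    field_simp
  have hsz : (τ, s * z) ∈ WW := by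
    rcases hs with rfl | rfl
    · simpa using hp
    · simpa using neg_mem_WW hp
  have hmem : (τ, s * z + 2 * (k + l * τ)) ∈ WW := by
    refine ⟨hp.1, fun k' l' hk => ?_⟩
    apply hsz.2 (k' - 2 * k) (l' - 2 * l)
    simp only at hk ⊢
    push_cast
    linear_combination hk
  refine Prod.ext ?_ ?_
  · exact D.lam_inv a b c d h τ hp.1
  · simp only [Phi, act]
    rw [D.mm_mod a b c d h τ _ (by rw [hz]; exact hmem), hz, D.mm_add τ _ hsz]
    rcases hs with rfl | rfl
    · simp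
    · rw [neg_one_mul, D.mm_neg τ z hp]

theorem act_continuousOn {a b c d k l : ℤ} (h : a * d - b * c = 1) (s : ℂ) :
    ContinuousOn (act a b c d k l s) WW := by
  refine ContinuousOn.prodMk ?_ ?_
  · refine ContinuousOn.div (by fun_prop) (by fun_prop) ?_
    intro p hp
    exact denom_ne h hp.1
  · refine ContinuousOn.div (by fun_prop) (by fun_prop) ?_
    intro p hp
    exact denom_ne h hp.1

theorem Phi_trans {p q : ℂ × ℂ} (hp : p ∈ WW) (hq : q ∈ WW) (h : Phi D p = Phi D q) :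
    ∃ (a b c d k l : ℤ) (s : ℂ), Gam2 a b c d ∧ (s = 1 ∨ s = -1) ∧ act a b c d k l s p = q := by
  obtain ⟨τ, z⟩ := p
  obtain ⟨τ', z'⟩ := q
  simp only [Phi, Prod.mk.injEq] at h
  obtain ⟨a, b, c, d, hg, rfl⟩ := D.lam_eq τ hp.1 τ' hq.1 h.1
  have hne := denom_ne hg.1 hp.1
  have hmem : (τ, (c * τ + d) * z') ∈ WW := by
    refine ⟨hp.1, fun k l hk => ?_⟩
    -- `z' = (k + l τ)/(c τ + d)`, `k + l τ = k' (c τ + d) + l' (a τ + b)`
    apply hq.2 (k * a - l * b) (l * d - k * c)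
    simp only at hk ⊢
    have hdet : (a : ℂ) * d - b * c = 1 := by exact_mod_cast hg.1
    have h9 : ((a * τ + b) / (c * τ + d)) * (c * τ + d) = a * τ + b :=
      div_mul_cancel₀ _ hne
    apply mul_left_cancel₀ hne
    push_cast
    linear_combination hk - (k + l * τ) * hdet - (l * d - k * c) * h9
  have h2 := D.mm_mod a b c d hg τ z' hmem
  rw [h2] at h
  obtain ⟨k, l, hkl | hkl⟩ := D.mm_inj τ z _ hp hmem h.2
  · refine ⟨a, b, c, d, k, l, 1, hg, Or.inl rfl, ?_⟩
    refine Prod.ext rfl ?_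
    simp only [act]
    rw [div_eq_iff hne, mul_comm z', hkl]
    ring
  · refine ⟨a, b, c, d, k, l, -1, hg, Or.inr rfl, ?_⟩
    refine Prod.ext rfl ?_
    simp only [act]
    rw [div_eq_iff hne, mul_comm z', hkl]
    ring

theorem locConn {F : Type} [NormedAddCommGroup F] [NormedSpace ℝ F] {S : Set F} (hS : IsOpen S) :
    LocallyConnectedSpace S := hS.locallyConnectedSpace

theorem Phi_cov : IsCoveringMap (fun p : WW => (⟨Phi D p, Phi_mem D p⟩ : MM)) := by
  have := locConn MM_isOpen'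
  apply isCovering_of_deck (isLocalHomeomorph_sub WW_isOpen MM_isOpen' (Phi_localHomeo D)
    (Phi_mem D))
  · rintro ⟨⟨u, v⟩, hp⟩
    obtain ⟨τ, hτ, rfl⟩ := D.lam_surj u ⟨hp.1, hp.2.1⟩
    obtain ⟨z, hz, rfl⟩ := D.mm_surj τ hτ v hp
    exact ⟨⟨(τ, z), hz⟩, rfl⟩
  · rintro ⟨p, hp⟩ ⟨q, hq⟩ h
    obtain ⟨a, b, c, d, k, l, s, hg, hs, rfl⟩ := Phi_trans D hp hq (congrArg Subtype.val h)
    refine ⟨fun p => ⟨act a b c d k l s p, act_mem hg.1 hs p.2⟩, ?_, ?_, rfl⟩
    · refine Continuous.subtype_mk ?_ _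
      exact (act_continuousOn hg.1 s).comp_continuous continuous_subtype_val (fun p => p.2)
    · intro y
      exact Subtype.ext (Phi_act D hg hs y.2)

/-! ### the covering of the complement of the Gaussian integers -/

/-- the plane minus three points -/
def Y3 : Set ℂ := {μ | μ ≠ 0 ∧ μ ≠ 1 ∧ μ ≠ 1 / 2}

theorem Y3_isOpen : IsOpen Y3 :=
  (isOpen_ne_fun continuous_id continuous_const).inter
    ((isOpen_ne_fun continuous_id continuous_const).inter
      (isOpen_ne_fun continuous_id continuous_const))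

theorem I_mem {z : ℂ} (hz : z ∈ Zi) : (I, z) ∈ WW := ⟨by simp, hz⟩

theorem m_mem (z : Zi) : D.mm I z ∈ Y3 := by
  have h := D.mm_mem I z (I_mem z.2)
  rw [D.lam_I] at h
  exact ⟨h.2.2.1, h.2.2.2.1, fun h' => h.2.2.2.2 h'.symm⟩

theorem m_surj : Function.Surjective (fun z : Zi => (⟨D.mm I z, m_mem D z⟩ : Y3)) := by
  rintro ⟨μ, hμ⟩
  obtain ⟨z, hz, rfl⟩ := D.mm_surj I (by simp [HH]) μ (by
    rw [D.lam_I]
    exact ⟨by norm_num, by norm_num, hμ.1, hμ.2.1, fun h => hμ.2.2 h.symm⟩)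
  exact ⟨⟨z, hz.2⟩, rfl⟩

theorem m_cov : IsCoveringMap (fun z : Zi => (⟨D.mm I z, m_mem D z⟩ : Y3)) := by
  have := locConn Y3_isOpen
  have hloc : IsLocalHomeomorphOn (fun z => D.mm I z) Zi :=
    localHomeo_one Zi_isOpen
      (fun z hz => (D.mm_diff₂ I z (I_mem hz)).differentiableWithinAt)
      (fun z hz => D.mm_deriv₂ I z (I_mem hz))
  apply isCovering_of_deck (isLocalHomeomorph_sub Zi_isOpen Y3_isOpen hloc (m_mem D)) (m_surj D)
  · rintro ⟨z, hz⟩ ⟨w, hw⟩ h
    have h' := congrArg Subtype.val h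
    have hn : ∀ y ∈ Zi, -y ∈ Zi := fun y hy => (neg_mem_WW (I_mem hy)).2
    have hk : ∀ (k l : ℤ), ∀ y ∈ Zi, y + 2 * (k + l * I) ∈ Zi := by
      intro k l y hy k' l' hk'
      apply hy (k' - 2 * k) (l' - 2 * l)
      push_cast
      linear_combination hk'
    obtain ⟨k, l, hkl | hkl⟩ := D.mm_inj I z w (I_mem hz) (I_mem hw) h'
    · refine ⟨fun y => ⟨y + 2 * (k + l * I), hk k l y y.2⟩, by fun_prop, fun y => ?_, ?_⟩
      · exact Subtype.ext (D.mm_add I y (I_mem y.2) k l)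
      · exact Subtype.ext hkl.symm
    · refine ⟨fun y => ⟨-y + 2 * (k + l * I), hk k l _ (hn y y.2)⟩, by fun_prop, fun y => ?_, ?_⟩
      · refine Subtype.ext ?_
        change D.mm I (-y + 2 * (k + l * I)) = D.mm I y
        rw [D.mm_add I (-y) (I_mem (hn y y.2)) k l, D.mm_neg I y (I_mem y.2)]
      · exact Subtype.ext hkl.symm

theorem sq_mem (μ : Y3) : (2 * (μ : ℂ) - 1) ^ 2 ∈ C01 := by
  obtain ⟨μ, h0, h1, h2⟩ := μ
  refine ⟨?_, ?_⟩
  · intro h
    apply h2
    have : 2 * μ - 1 = 0 := by simpa using h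
    linear_combination this / 2
  · intro h
    have : (μ) * (μ - 1) = 0 := by
      have h' : (2 * μ - 1) ^ 2 = 1 := h
      linear_combination h' / 4
    rcases mul_eq_zero.mp this with h' | h'
    · exact h0 h'
    · exact h1 (by linear_combination h')

theorem sq_surj : Function.Surjective
    (fun μ : Y3 => (⟨(2 * (μ : ℂ) - 1) ^ 2, sq_mem μ⟩ : C01)) := by
  rintro ⟨w, hw⟩
  obtain ⟨s, hs⟩ := IsAlgClosed.exists_pow_nat_eq w (n := 2) (by norm_num)
  have hs0 : s ≠ 0 := by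
    rintro rfl
    apply hw.1
    rw [← hs]; simp
  have hs1 : s ≠ 1 := by
    rintro rfl
    apply hw.2
    rw [← hs]; simp
  have hs2 : s ≠ -1 := by
    rintro rfl
    apply hw.2
    rw [← hs]; simp
  refine ⟨⟨(1 + s) / 2, ?_, ?_, ?_⟩, Subtype.ext ?_⟩
  · intro h; apply hs2; linear_combination 2 * h
  · intro h; apply hs1; linear_combination 2 * h
  · intro h; apply hs0; linear_combination 2 * h
  · simp only
    rw [← hs]; ring

theorem sq_cov : IsCoveringMap (fun μ : Y3 => (⟨(2 * (μ : ℂ) - 1) ^ 2, sq_mem μ⟩ : C01)) := by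
  have := locConn C01_isOpen'
  have hloc : IsLocalHomeomorphOn (fun μ : ℂ => (2 * μ - 1) ^ 2) Y3 := by
    refine localHomeo_one Y3_isOpen (by fun_prop) ?_
    intro μ hμ
    have hd : HasDerivAt (fun μ : ℂ => (2 * μ - 1) ^ 2)
        ((2 : ℕ) * (2 * μ - 1) ^ (2 - 1) * (2 * 1)) μ :=
      (((hasDerivAt_id μ).const_mul 2).sub_const 1).pow 2
    rw [hd.deriv]
    simp only [Nat.cast_ofNat, Nat.add_one_sub_one, pow_one]
    intro h
    apply hμ.2.2
    linear_combination h / 8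
  apply isCovering_of_deck (isLocalHomeomorph_sub Y3_isOpen C01_isOpen' hloc sq_mem) sq_surj
  · rintro ⟨μ, hμ⟩ ⟨ν, hν⟩ h
    have h' : (2 * μ - 1) ^ 2 = (2 * ν - 1) ^ 2 := congrArg Subtype.val h
    have h2 : (μ - ν) * (μ + ν - 1) = 0 := by linear_combination h' / 4
    rcases mul_eq_zero.mp h2 with h3 | h3
    · refine ⟨id, continuous_id, fun y => rfl, Subtype.ext ?_⟩
      exact sub_eq_zero.mp h3
    · have hm : ∀ y ∈ Y3, 1 - y ∈ Y3 := by
        rintro y ⟨h0, h1, h2⟩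
        refine ⟨fun h => h1 (by linear_combination -h), fun h => h0 (by linear_combination -h),
          fun h => h2 (by linear_combination -h)⟩
      refine ⟨fun y => ⟨1 - y, hm y y.2⟩, by fun_prop, fun y => Subtype.ext ?_, Subtype.ext ?_⟩
      · simp only; ring
      · simp only; linear_combination -h3

/-- the covering `q` of `C01` by the complement of the Gaussian integers -/
noncomputable def qq (z : Zi) : C01 := ⟨(2 * D.mm I z - 1) ^ 2, sq_mem ⟨_, m_mem D z⟩⟩

theorem qq_cov : IsCoveringMap (qq D) :=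
  isCovering_comp (m_cov D) sq_cov (open_sub_convex C01_isOpen')

end

end BB

/-- the upper half plane is homeomorphic to `ℝ²` -/
noncomputable def HHhomeo : ℝ × ℝ ≃ₜ HH where
  toFun p := ⟨(p.1 : ℂ) + (Real.exp p.2 : ℝ) * I, by
    change 0 < ((p.1 : ℂ) + (Real.exp p.2 : ℝ) * I).im
    simp [Real.exp_pos, -Complex.ofReal_exp]⟩
  invFun τ := (τ.1.re, Real.log τ.1.im)
  left_inv p := by
    refine Prod.ext ?_ ?_
    · simp
    · simp [-Complex.ofReal_exp]
  right_inv τ := by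
    refine Subtype.ext ?_
    have h : 0 < τ.1.im := τ.2
    apply Complex.ext
    · simp
    · simp [Real.exp_log h]
  continuous_toFun := by
    refine Continuous.subtype_mk ?_ _
    fun_prop
  continuous_invFun := by
    refine Continuous.prodMk (by fun_prop) ?_
    rw [continuous_iff_continuousAt]
    intro τ
    have h : 0 < τ.1.im := τ.2
    have h1 : ContinuousAt (fun τ : HH => τ.1.im) τ := by fun_prop
    exact h1.log h.ne'

/-- `ℝ⁴ = ℝ² × ℝ²` -/
noncomputable def R4homeo : TT ≃ₜ (ℝ × ℝ) × (ℝ × ℝ) where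
  toFun X := ((X 0, X 1), (X 2, X 3))
  invFun p := ![p.1.1, p.1.2, p.2.1, p.2.2]
  left_inv X := by
    funext i
    fin_cases i <;> rfl
  right_inv p := rfl
  continuous_toFun := by fun_prop
  continuous_invFun := by
    refine continuous_pi fun i => ?_
    fin_cases i <;> simp <;> fun_prop

theorem univCover_exists (D : ModularData) : Nonempty UnivCover := by
  -- the covering `c`
  have hq := BB.qq_cov D
  have hne : Nonempty Zi := by
    have := Zi_pathConnected
    infer_instance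
  have hsurjq : ∀ w : C01, ∃ z : Zi, BB.qq D z = w := by
    intro w
    obtain ⟨μ, hμ⟩ := BB.sq_surj w
    obtain ⟨z, hz⟩ := BB.m_surj D μ
    refine ⟨z, ?_⟩
    rw [← hμ, ← hz]
    rfl
  obtain ⟨z₀, hz₀⟩ := hsurjq ⟨D.lam I, D.lam_mem ⟨I, by simp [HH]⟩⟩
  obtain ⟨c, hc, hc0, hcq⟩ := cov_lift_convex hq HH_convex
    (fun τ : HH => (⟨D.lam τ, D.lam_mem τ⟩ : C01)) D.lam_cov.continuous ⟨I, by simp [HH]⟩ z₀ hz₀
  have hccov : IsCoveringMap c := by
    refine isCovering_of_lift D.lam_cov hq hc hcq ?_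
    intro y
    obtain ⟨N, -, h⟩ := open_sub_convex Zi_isOpen y univ univ_mem
    exact ⟨N, h⟩
  have hcsurj : Function.Surjective c := by
    have := Zi_pathConnected
    have : Nonempty HH := ⟨⟨I, by simp [HH]⟩⟩
    exact surjective_of_lift D.lam_cov hq hc hcq
  have h1 : IsCoveringMap (fun p : HH × HH => (p.1, c p.2)) := isCovering_prod hccov
  have h2 := h1.homeomorph_comp WWhomeo
  have h3 := isCovering_comp h2 (BB.Phi_cov D) (open_sub_convex BB.MM_isOpen')
  have h4 := h3.comp_homeomorph (R4homeo.trans (HHhomeo.prodCongr HHhomeo))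
  refine ⟨⟨fun X => BB.Phi D (WWhomeo (((R4homeo.trans (HHhomeo.prodCongr HHhomeo)) X).1,
    c ((R4homeo.trans (HHhomeo.prodCongr HHhomeo)) X).2)), fun X => BB.Phi_mem D _, h4, ?_⟩⟩
  rintro ⟨u, v⟩ hp
  obtain ⟨τ, hτ, rfl⟩ := D.lam_surj u ⟨hp.1, hp.2.1⟩
  obtain ⟨z, hz, rfl⟩ := D.mm_surj τ hτ v hp
  obtain ⟨σ, hσ⟩ := hcsurj (WWhomeo.symm ⟨(τ, z), hz⟩).2
  refine ⟨(R4homeo.trans (HHhomeo.prodCongr HHhomeo)).symm (⟨τ, hτ⟩, σ), ?_⟩
  rw [Homeomorph.apply_symm_apply]
  simp only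
  rw [hσ]
  have : ((⟨τ, hτ⟩ : HH), (WWhomeo.symm ⟨(τ, z), hz⟩).2) = WWhomeo.symm ⟨(τ, z), hz⟩ := rfl
  rw [this, Homeomorph.apply_symm_apply]
  rfl

end Pool.Agent.T05
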