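import Pool.Agent.Lib.MP_0162a5_an.Defs
import Pool.Agent.Lib.MP_0162a5_an.Cov

/-! MODULE B, part 0: preparations (strict differentiability, open sets, coordinates). -/

set_option autoImplicit false

open Complex Metric Set Filter Topology

namespace Pool.Agent.T05

/-- The partial derivative of a continuous function which is holomorphic in the second variable is
continuous. -/
theorem partial_cont₂ {F : ℂ × ℂ → ℂ} {U : Set (ℂ × ℂ)} (hU : IsOpen U) (hF : ContinuousOn F U)
    (hd : ∀ p ∈ U, DifferentiableAt ℂ (fun w => F (p.1, w)) p.2) {p₀ : ℂ × ℂ} (hp : p₀ ∈ U) :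
    ContinuousAt (fun p : ℂ × ℂ => deriv (fun w => F (p.1, w)) p.2) p₀ := by
  obtain ⟨r, hr, hrU⟩ := nhds_basis_closedBall.mem_iff.mp (hU.mem_nhds hp)
  have hsub : closedBall p₀.1 r ×ˢ closedBall p₀.2 r ⊆ U := by
    rw [closedBall_prod_same]; exact hrU
  have h1 : TendstoLocallyUniformlyOn (fun (p : ℂ × ℂ) (w : ℂ) => F (p.1, w))
      (fun w => F (p₀.1, w)) (𝓝 p₀) (ball p₀.2 r) := by
    apply TendstoUniformlyOn.tendstoLocallyUniformlyOn
    intro u hu
    have hc : ContinuousOn (Function.uncurry fun (a : ℂ) (w : ℂ) => F (a, w))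
        (ball p₀.1 r ×ˢ closedBall p₀.2 r) := by
      refine hF.mono (Subset.trans ?_ hsub)
      exact prod_mono_left ball_subset_closedBall
    obtain ⟨v, hv, hv2⟩ := (isCompact_closedBall p₀.2 r).mem_uniformity_of_prod hc
      (mem_ball_self hr) (tendsto_swap_uniformity hu)
    rw [isOpen_ball.nhdsWithin_eq (mem_ball_self hr)] at hv
    have : ∀ᶠ p : ℂ × ℂ in 𝓝 p₀, p.1 ∈ v := continuous_fst.continuousAt hv
    filter_upwards [this] with p hp w hw
    exact hv2 p.1 hp w (ball_subset_closedBall hw)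
  have h2 : ∀ᶠ p : ℂ × ℂ in 𝓝 p₀, DifferentiableOn ℂ (fun w => F (p.1, w)) (ball p₀.2 r) := by
    have : ∀ᶠ p : ℂ × ℂ in 𝓝 p₀, p.1 ∈ ball p₀.1 r :=
      continuous_fst.continuousAt (ball_mem_nhds _ hr)
    filter_upwards [this] with p hp w hw
    exact (hd (p.1, w) (hsub ⟨ball_subset_closedBall hp,
      ball_subset_closedBall hw⟩)).differentiableWithinAt
  have h3 := h1.deriv h2 isOpen_ball
  have h4 : ContinuousWithinAt (deriv fun w => F (p₀.1, w)) (ball p₀.2 r) p₀.2 := by
    have : DifferentiableOn ℂ (fun w => F (p₀.1, w)) (ball p₀.2 r) := by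
      intro w hw
      exact (hd (p₀.1, w) (hsub ⟨mem_closedBall_self hr.le,
        ball_subset_closedBall hw⟩)).differentiableWithinAt
    exact ((this.deriv isOpen_ball).continuousOn) p₀.2 (mem_ball_self hr)
  have h5 : Tendsto (fun p : ℂ × ℂ => p.2) (𝓝 p₀) (𝓝[ball p₀.2 r] p₀.2) := by
    rw [isOpen_ball.nhdsWithin_eq (mem_ball_self hr)]
    exact continuous_snd.continuousAt
  exact h3.tendsto_comp h4 (mem_ball_self hr) h5

theorem partial_cont₁ {F : ℂ × ℂ → ℂ} {U : Set (ℂ × ℂ)} (hU : IsOpen U) (hF : ContinuousOn F U)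
    (hd : ∀ p ∈ U, DifferentiableAt ℂ (fun w => F (w, p.2)) p.1) {p₀ : ℂ × ℂ} (hp : p₀ ∈ U) :
    ContinuousAt (fun p : ℂ × ℂ => deriv (fun w => F (w, p.2)) p.1) p₀ := by
  have h := partial_cont₂ (F := fun p => F p.swap) (U := Prod.swap ⁻¹' U)
    (hU.preimage continuous_swap) (hF.comp continuous_swap.continuousOn (fun p hp => hp))
    (fun p hp => hd p.swap hp) (p₀ := p₀.swap) (by simpa using hp)
  have := ContinuousAt.comp (f := fun p : ℂ × ℂ => p.swap) (x := p₀) h continuous_swap.continuousAt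
  exact this

/-- lower triangular linear isomorphisms -/
noncomputable def lowTri (a b c : ℂ) (ha : a ≠ 0) (hc : c ≠ 0) : (ℂ × ℂ) ≃L[ℂ] (ℂ × ℂ) :=
  ContinuousLinearEquiv.equivOfInverse
    ((a • ContinuousLinearMap.fst ℂ ℂ ℂ).prod
      (b • ContinuousLinearMap.fst ℂ ℂ ℂ + c • ContinuousLinearMap.snd ℂ ℂ ℂ))
    ((a⁻¹ • ContinuousLinearMap.fst ℂ ℂ ℂ).prod
      (c⁻¹ • (ContinuousLinearMap.snd ℂ ℂ ℂ - (b * a⁻¹) • ContinuousLinearMap.fst ℂ ℂ ℂ)))
    (by
      rintro ⟨x, y⟩
      simp only [ContinuousLinearMap.prod_apply, smul_apply,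
        ContinuousLinearMap.coe_fst', ContinuousLinearMap.coe_snd', add_apply,
        sub_apply, smul_eq_mul]
      ext <;> simp <;> field_simp <;> ring)
    (by
      rintro ⟨x, y⟩
      simp only [ContinuousLinearMap.prod_apply, smul_apply,
        ContinuousLinearMap.coe_fst', ContinuousLinearMap.coe_snd', add_apply,
        sub_apply, smul_eq_mul]
      ext <;> simp <;> field_simp <;> ring)

theorem HH_isOpen : IsOpen HH := isOpen_lt continuous_const Complex.continuous_im

theorem HH_convex : Convex ℝ HH := by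
  have : HH = Complex.im ⁻¹' (Ioi 0) := rfl
  rw [this]
  exact (convex_Ioi (0 : ℝ)).is_linear_preimage Complex.imLm.isLinear

/-- the complement of the Gaussian integers -/
def Zi : Set ℂ := {w | ∀ k l : ℤ, w ≠ k + l * I}

theorem mem_Zi {w : ℂ} : w ∈ Zi ↔ ¬ (w.re ∈ range (Int.cast : ℤ → ℝ) ∧
    w.im ∈ range (Int.cast : ℤ → ℝ)) := by
  constructor
  · rintro h ⟨⟨k, hk⟩, ⟨l, hl⟩⟩
    apply h k l
    apply Complex.ext
    · simp [hk]
    · simp [hl]
  · intro h k l hkl
    apply h
    rw [hkl]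
    exact ⟨⟨k, by simp⟩, ⟨l, by simp⟩⟩

theorem Zi_isOpen : IsOpen Zi := by
  have h1 : IsClosed (range (Int.cast : ℤ → ℝ)) := Int.isClosedEmbedding_coe_real.isClosed_range
  have : Zi = (Complex.re ⁻¹' (range (Int.cast : ℤ → ℝ)) ∩
      Complex.im ⁻¹' (range (Int.cast : ℤ → ℝ)))ᶜ := by
    ext w
    rw [mem_Zi]
    rfl
  rw [this, isOpen_compl_iff]
  exact (h1.preimage Complex.continuous_re).inter (h1.preimage Complex.continuous_im)

theorem Zi_pathConnected : PathConnectedSpace Zi := by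
  rw [← isPathConnected_iff_pathConnectedSpace]
  have : Zi = (range (fun p : ℤ × ℤ => ((p.1 : ℂ) + p.2 * I)))ᶜ := by
    ext w
    simp only [Zi, mem_ofPred_eq, mem_compl_iff, mem_range, Prod.exists, not_exists]
    constructor
    · intro h k l h'; exact h k l h'.symm
    · intro h k l h'; exact h k l h'.symm
  rw [this]
  refine Set.Countable.isPathConnected_compl_of_one_lt_rank ?_ (countable_range _)
  rw [Complex.rank_real_complex]
  exact Cardinal.one_lt_two

/-- the real coordinates `x + i y` of the point `x + y τ`. -/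
noncomputable def om (p : ℂ × ℂ) : ℂ :=
  ((p.2.re - p.2.im / p.1.im * p.1.re : ℝ) : ℂ) + ((p.2.im / p.1.im : ℝ) : ℂ) * I

/-- the point `(τ, x + y τ)`. -/
noncomputable def mko (p : ℂ × ℂ) : ℂ × ℂ := (p.1, (p.2.re : ℂ) + p.2.im * p.1)

theorem mko_om {p : ℂ × ℂ} (hp : 0 < p.1.im) : mko (p.1, om p) = p := by
  refine Prod.ext rfl ?_
  apply Complex.ext
  · simp [mko, om]
  · simp [mko, om]
    field_simp

theorem om_mko {p : ℂ × ℂ} (hp : 0 < p.1.im) : om (mko p) = p.2 := by
  apply Complex.ext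
  · simp [mko, om]
    field_simp
    ring
  · simp [mko, om]
    field_simp

theorem mko_mem {p : ℂ × ℂ} (hp : 0 < p.1.im) (hw : p.2 ∈ Zi) : mko p ∈ WW := by
  refine ⟨hp, fun k l h => ?_⟩
  have h1 := congrArg Complex.im h
  have h2 := congrArg Complex.re h
  simp [mko] at h1 h2
  have h3 : p.2.im = l := by
    rcases h1 with h1 | h1
    · exact h1
    · exact absurd h1 hp.ne'
  rw [h3] at h2
  have h4 : p.2.re = k := by linarith
  exact hw k l (Complex.ext (by simp [h4]) (by simp [h3]))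

theorem om_mem {p : ℂ × ℂ} (hp : p ∈ WW) : om p ∈ Zi := by
  intro k l h
  apply hp.2 k l
  have h1 := mko_om hp.1
  have h2 := congrArg Prod.snd h1
  simp only [mko] at h2
  rw [h] at h2
  simp at h2
  exact h2.symm

theorem om_continuousOn : ContinuousOn om {p | 0 < p.1.im} := by
  have hi : ContinuousOn (fun p : ℂ × ℂ => p.2.im / p.1.im) {p | 0 < p.1.im} := by
    refine ContinuousOn.div (by fun_prop) (by fun_prop) ?_
    intro p hp
    exact (ne_of_gt hp)
  have h1 : ContinuousOn (fun p : ℂ × ℂ => p.2.re - p.2.im / p.1.im * p.1.re)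
      {p | 0 < p.1.im} := by
    refine ContinuousOn.sub (by fun_prop) (hi.mul (by fun_prop))
  exact (Complex.continuous_ofReal.comp_continuousOn h1).add
    ((Complex.continuous_ofReal.comp_continuousOn hi).mul continuousOn_const)

theorem WW_isOpen : IsOpen WW := by
  have h : WW = {p : ℂ × ℂ | 0 < p.1.im} ∩ om ⁻¹' Zi := by
    ext p
    constructor
    · intro hp; exact ⟨hp.1, om_mem hp⟩
    · rintro ⟨hp, hp2⟩
      have := mko_mem (p := (p.1, om p)) hp hp2
      rwa [mko_om hp] at this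
  rw [h]
  exact om_continuousOn.isOpen_inter_preimage
    (isOpen_lt continuous_const (by fun_prop)) Zi_isOpen

/-- `HH × (ℂ ∖ ℤ[i]) ≃ WW` -/
noncomputable def WWhomeo : HH × Zi ≃ₜ WW where
  toFun p := ⟨mko (p.1, p.2), mko_mem (p := (p.1, p.2)) p.1.2 p.2.2⟩
  invFun p := (⟨p.1.1, p.2.1⟩, ⟨om p.1, om_mem p.2⟩)
  left_inv p := by
    refine Prod.ext (Subtype.ext rfl) (Subtype.ext ?_)
    exact om_mko (p := (p.1, p.2)) p.1.2
  right_inv p := Subtype.ext (mko_om p.2.1)
  continuous_toFun := by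
    refine Continuous.subtype_mk ?_ _
    simp only [mko]
    fun_prop
  continuous_invFun := by
    refine Continuous.prodMk ?_ ?_
    · exact Continuous.subtype_mk (by fun_prop) _
    · refine Continuous.subtype_mk ?_ _
      exact om_continuousOn.comp_continuous continuous_subtype_val (fun p => p.2.1)

/-- neighbourhoods homeomorphic to convex sets in an open subset of a normed space -/
theorem open_sub_convex {F : Type} [NormedAddCommGroup F] [NormedSpace ℝ F] {S : Set F}
    (hS : IsOpen S) (x : S) (V : Set S) (hV : V ∈ 𝓝 x) :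
    ∃ N ⊆ V, IsOpen N ∧ x ∈ N ∧ ∃ (A : Type) (_ : NormedAddCommGroup A)
      (_ : NormedSpace ℝ A) (B : Set A), Convex ℝ B ∧ Nonempty (N ≃ₜ B) := by
  obtain ⟨O, hO, hOV⟩ := mem_nhds_subtype S x V |>.mp hV
  obtain ⟨r, hr, hrO⟩ := nhds_basis_ball.mem_iff.mp (inter_mem hO (hS.mem_nhds x.2))
  refine ⟨Subtype.val ⁻¹' ball (x : F) r, ?_, isOpen_ball.preimage continuous_subtype_val,
    mem_ball_self hr, F, inferInstance, inferInstance, ball (x : F) r, convex_ball _ _, ⟨?_⟩⟩
  · intro y hy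
    exact hOV (hrO hy).1
  · exact
      { toFun := fun y => ⟨y.1.1, y.2⟩
        invFun := fun y => ⟨⟨y.1, (hrO y.2).2⟩, y.2⟩
        left_inv := fun y => rfl
        right_inv := fun y => rfl
        continuous_toFun := by fun_prop
        continuous_invFun := by fun_prop }

/-- local homeomorphisms between open subsets -/
theorem isLocalHomeomorph_sub {A B : Type} [TopologicalSpace A] [TopologicalSpace B] {U : Set A}
    {V : Set B} (hU : IsOpen U) (hV : IsOpen V) {f : A → B} (hf : IsLocalHomeomorphOn f U)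
    (hm : ∀ p : U, f p ∈ V) : IsLocalHomeomorph (fun p : U => (⟨f p, hm p⟩ : V)) := by
  have h1 : IsLocalHomeomorph (f ∘ (Subtype.val : U → A)) := by
    rw [isLocalHomeomorph_iff_isLocalHomeomorphOn_univ]
    refine hf.comp hU.isOpenEmbedding_subtypeVal.isLocalHomeomorph.isLocalHomeomorphOn ?_
    intro x _
    exact x.2
  have h2 : f ∘ (Subtype.val : U → A) = (Subtype.val : V → B) ∘
    (fun p : U => (⟨f p, hm p⟩ : V)) := rfl
  rw [h2] at h1
  refine h1.of_comp hV.isOpenEmbedding_subtypeVal.isLocalHomeomorph ?_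
  refine Continuous.subtype_mk ?_ _
  exact hf.continuousOn.comp_continuous continuous_subtype_val (fun p => p.2)

/-- product of the identity and a covering map -/
theorem isCovering_prod {A E X : Type} [TopologicalSpace A] [TopologicalSpace E]
    [TopologicalSpace X] {c : E → X} (hc : IsCoveringMap c) :
    IsCoveringMap (fun p : A × E => (p.1, c p.2)) := by
  rintro ⟨a, x⟩
  obtain ⟨hd, U, hxU, hU, hcU, H, hH⟩ := hc x
  refine IsEvenlyCovered.to_isEvenlyCovered_preimage (I := c ⁻¹' {x}) ?_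
  refine ⟨hd, univ ×ˢ U, ⟨mem_univ _, hxU⟩, isOpen_univ.prod hU, ?_, ?_⟩
  · exact (isOpen_univ.prod hU).preimage (by
      exact continuous_fst.prodMk (hc.continuous.comp continuous_snd))
  · refine ⟨{ toFun := fun e => (⟨(e.1.1, c e.1.2), e.2⟩, (H ⟨e.1.2, e.2.2⟩).2)
              invFun := fun q => ⟨(q.1.1.1, (H.symm (⟨q.1.1.2, q.1.2.2⟩, q.2)).1),
                ⟨mem_univ _, (H.symm (⟨q.1.1.2, q.1.2.2⟩, q.2)).2⟩⟩
              left_inv := ?_
              right_inv := ?_
              continuous_toFun := ?_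
              continuous_invFun := ?_ }, fun e => rfl⟩
    · rintro ⟨⟨b, e⟩, he⟩
      apply Subtype.ext
      refine Prod.ext rfl ?_
      have : (⟨c e, he.2⟩, (H ⟨e, he.2⟩).2) = H ⟨e, he.2⟩ := by
        refine Prod.ext (Subtype.ext ?_) rfl
        exact (hH ⟨e, he.2⟩).symm
      change ((H.symm (⟨c e, he.2⟩, (H ⟨e, he.2⟩).2)).1) = e
      rw [this, H.symm_apply_apply]
    · rintro ⟨⟨⟨b, y⟩, hy⟩, i⟩
      have h1 : c (H.symm (⟨y, hy.2⟩, i)).1 = y := by
        rw [← hH, H.apply_symm_apply]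
      refine Prod.ext (Subtype.ext (Prod.ext rfl h1)) ?_
      change (H (H.symm (⟨y, hy.2⟩, i))).2 = i
      rw [H.apply_symm_apply]
    · refine Continuous.prodMk ?_ ?_
      · refine Continuous.subtype_mk ?_ _
        have := hc.continuous
        fun_prop
      · fun_prop
    · fun_prop

end Pool.Agent.T05
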