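import Mathlib

/-! MODULE CW: the cube is a finite CW complex with trivial H^1.

* `cube_cw`: cells = faces of the cube, `cell n = {σ : Fin m → SignType // #{i | σ i = 0} = n}`;
  characteristic map: put the coordinates in the places where `σ i = 0` and `σ i` elsewhere.
* `cube_log`: retract `Fin m → ℝ` onto the cube (clamp the coordinates) and lift through `exp`.
-/

set_option autoImplicit false

open Metric Set Topology

namespace Pool.Agent.T05

namespace CubeCW

variable {m : ℕ}

/-- clamping of a coordinate -/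
noncomputable def clamp1 (t : ℝ) : ℝ := max (-1) (min 1 t)

theorem clamp1_cont : Continuous clamp1 := by unfold clamp1; fun_prop

theorem clamp1_abs (t : ℝ) : |clamp1 t| ≤ 1 := by
  unfold clamp1
  rw [abs_le]
  exact ⟨le_max_left _ _, max_le (by norm_num) (min_le_left _ _)⟩

theorem clamp1_eq {t : ℝ} (h : |t| ≤ 1) : clamp1 t = t := by
  unfold clamp1
  rw [abs_le] at h
  rw [min_eq_right h.2, max_eq_right h.1]

/-- clamping and scaling onto the ball -/
noncomputable def proj {R : ℝ} (hR : 0 < R) (y : Fin m → ℝ) : closedBall (0 : Fin m → ℝ) R :=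
  ⟨fun i => R * clamp1 (y i), by
    rw [mem_closedBall_zero_iff, pi_norm_le_iff_of_nonneg hR.le]
    intro i
    rw [Real.norm_eq_abs, abs_mul, abs_of_pos hR]
    have := clamp1_abs (y i)
    nlinarith⟩

theorem proj_cont {R : ℝ} (hR : 0 < R) : Continuous (proj (m := m) hR) := by
  unfold proj
  refine Continuous.subtype_mk ?_ _
  refine continuous_pi fun i => ?_
  exact continuous_const.mul (clamp1_cont.comp (continuous_apply i))

/-- the zero set of a sign vector -/
def zs (σ : Fin m → SignType) : Finset (Fin m) := Finset.univ.filter fun i => σ i = 0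

theorem mem_zs (σ : Fin m → SignType) (i : Fin m) : i ∈ zs σ ↔ σ i = 0 := by
  simp [zs]

/-- the cells -/
abbrev Cell (m n : ℕ) : Type := {σ : Fin m → SignType // (zs σ).card = n}

/-- numbering of the free coordinates -/
noncomputable def en {n : ℕ} (c : Cell m n) : zs c.1 ≃ Fin n := Finset.equivFinOfCardEq c.2

/-- insertion of the fixed coordinates -/
noncomputable def glue {n : ℕ} (c : Cell m n) (x : Fin n → ℝ) : Fin m → ℝ := fun i =>
  if h : i ∈ zs c.1 then x (en c ⟨i, h⟩) else ((c.1 i : SignType) : ℝ)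

/-- restriction to the free coordinates -/
noncomputable def res {n : ℕ} (c : Cell m n) (y : Fin m → ℝ) : Fin n → ℝ := fun k =>
  y ((en c).symm k).1

theorem glue_cont {n : ℕ} (c : Cell m n) : Continuous (glue c) := by
  refine continuous_pi fun i => ?_
  unfold glue
  by_cases h : i ∈ zs c.1
  · simp only [dif_pos h]; exact continuous_apply _
  · simp only [dif_neg h]; exact continuous_const

theorem res_cont {n : ℕ} (c : Cell m n) : Continuous (res c) :=
  continuous_pi fun _ => continuous_apply _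

theorem res_glue {n : ℕ} (c : Cell m n) (x : Fin n → ℝ) : res c (glue c x) = x := by
  funext k
  unfold res glue
  rw [dif_pos ((en c).symm k).2]
  simp

theorem sign_abs {s : SignType} (h : s ≠ 0) : |((s : SignType) : ℝ)| = 1 := by
  cases s <;> simp_all

theorem sign_abs_le (s : SignType) : |((s : SignType) : ℝ)| ≤ 1 := by
  cases s <;> simp

theorem glue_abs {n : ℕ} (c : Cell m n) {x : Fin n → ℝ} (hx : x ∈ closedBall (0 : Fin n → ℝ) 1)
    (i : Fin m) : |glue c x i| ≤ 1 := by
  rw [mem_closedBall_zero_iff, pi_norm_le_iff_of_nonneg zero_le_one] at hx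
  unfold glue
  by_cases h : i ∈ zs c.1
  · rw [dif_pos h]; exact hx _
  · rw [dif_neg h]; exact sign_abs_le _

/-- sign type of a point of the cube -/
noncomputable def ty (y : Fin m → ℝ) : Fin m → SignType := fun i =>
  if y i = 1 then 1 else if y i = -1 then -1 else 0

theorem ty_zero {y : Fin m → ℝ} (i : Fin m) : ty y i = 0 ↔ y i ≠ 1 ∧ y i ≠ -1 := by
  unfold ty
  by_cases h1 : y i = 1
  · simp [h1]
  · by_cases h2 : y i = -1
    · simp [h2]; norm_num
    · simp [h1, h2]

theorem ty_coe {y : Fin m → ℝ} (i : Fin m) (h : ty y i ≠ 0) : ((ty y i : SignType) : ℝ) = y i := by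
  unfold ty at h ⊢
  by_cases h1 : y i = 1
  · simp [h1]
  · by_cases h2 : y i = -1
    · simp only [h2]; norm_num
    · simp [h1, h2] at h

theorem glue_ty {y : Fin m → ℝ} : glue ⟨ty y, rfl⟩ (res ⟨ty y, rfl⟩ y) = y := by
  funext i
  unfold glue
  by_cases h : i ∈ zs (ty y)
  · rw [dif_pos h]; unfold res; simp
  · rw [dif_neg h]
    rw [mem_zs] at h
    exact ty_coe i h

theorem res_ty_mem {y : Fin m → ℝ} (hy : ∀ i, |y i| ≤ 1) :
    res (⟨ty y, rfl⟩ : Cell m (zs (ty y)).card) y ∈ ball (0 : Fin (zs (ty y)).card → ℝ) 1 := by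
  rw [mem_ball_zero_iff, pi_norm_lt_iff zero_lt_one]
  intro k
  unfold res
  set j := (en (⟨ty y, rfl⟩ : Cell m (zs (ty y)).card)).symm k with hj
  have h1 : ty y j.1 = 0 := (mem_zs _ _).mp j.2
  rw [ty_zero] at h1
  have h2 := hy j.1
  rw [Real.norm_eq_abs]
  rcases h2.lt_or_eq with h3 | h3
  · exact h3
  · rcases eq_or_eq_neg_of_abs_eq h3 with h4 | h4
    · exact absurd h4 h1.1
    · exact absurd h4 h1.2

theorem ty_glue {n : ℕ} (c : Cell m n) {x : Fin n → ℝ} (hx : x ∈ ball (0 : Fin n → ℝ) 1) :
    ty (glue c x) = c.1 := by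
  rw [mem_ball_zero_iff, pi_norm_lt_iff zero_lt_one] at hx
  funext i
  by_cases h : i ∈ zs c.1
  · have h1 : glue c x i = x (en c ⟨i, h⟩) := by unfold glue; rw [dif_pos h]
    have h2 := hx (en c ⟨i, h⟩)
    rw [Real.norm_eq_abs, abs_lt] at h2
    rw [(mem_zs _ _).mp h, ty_zero, h1]
    exact ⟨h2.2.ne, h2.1.ne'⟩
  · have h1 : glue c x i = ((c.1 i : SignType) : ℝ) := by unfold glue; rw [dif_neg h]
    rw [mem_zs] at h
    unfold ty
    rw [h1]
    cases hc : c.1 i
    · exact absurd hc h
    · norm_num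
    · norm_num

variable {R : ℝ} (hR : 0 < R) {X : Type} [TopologicalSpace X]
  (φ : X ≃ₜ closedBall (0 : Fin m → ℝ) R)

/-- the characteristic map as a total function -/
noncomputable def chi {n : ℕ} (c : Cell m n) (x : Fin n → ℝ) : X := φ.symm (proj hR (glue c x))

/-- normalised coordinates -/
noncomputable def co (R : ℝ) (φ : X ≃ₜ closedBall (0 : Fin m → ℝ) R) (x : X) : Fin m → ℝ :=
  fun i => (φ x : Fin m → ℝ) i / R

include hR in
theorem co_abs (x : X) (i : Fin m) : |co R φ x i| ≤ 1 := by
  unfold co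
  have h := (φ x).2
  rw [mem_closedBall_zero_iff, pi_norm_le_iff_of_nonneg hR.le] at h
  have h2 := h i
  rw [Real.norm_eq_abs] at h2
  rw [abs_div, abs_of_pos hR, div_le_one hR]
  exact h2

theorem co_cont : Continuous (co R φ) := by
  unfold co
  refine continuous_pi fun i => ?_
  exact ((continuous_apply i).comp (continuous_subtype_val.comp φ.continuous)).div_const R

theorem co_symm_proj {y : Fin m → ℝ} (hy : ∀ i, |y i| ≤ 1) : co R φ (φ.symm (proj hR y)) = y := by
  funext i
  unfold co proj
  rw [φ.apply_symm_apply]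
  simp only
  rw [clamp1_eq (hy i)]
  field_simp

theorem symm_proj_co (x : X) : φ.symm (proj hR (co R φ x)) = x := by
  rw [φ.symm_apply_eq]
  apply Subtype.ext
  funext i
  change R * clamp1 (co R φ x i) = _
  rw [clamp1_eq (co_abs hR φ x i)]
  unfold co
  field_simp

theorem chi_cont {n : ℕ} (c : Cell m n) : Continuous (chi hR φ c) :=
  φ.symm.continuous.comp ((proj_cont hR).comp (glue_cont c))

theorem co_chi {n : ℕ} (c : Cell m n) {x : Fin n → ℝ} (hx : x ∈ closedBall (0 : Fin n → ℝ) 1) :
    co R φ (chi hR φ c x) = glue c x := co_symm_proj hR φ (glue_abs c hx)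

/-- the characteristic maps -/
noncomputable def chart {n : ℕ} (c : Cell m n) : PartialEquiv (Fin n → ℝ) X where
  toFun := chi hR φ c
  invFun x := res c (co R φ x)
  source := ball 0 1
  target := chi hR φ c '' ball 0 1
  map_source' x hx := mem_image_of_mem _ hx
  map_target' := by
    rintro _ ⟨x, hx, rfl⟩
    rw [co_chi hR φ c (ball_subset_closedBall hx), res_glue]
    exact hx
  left_inv' x hx := by
    rw [co_chi hR φ c (ball_subset_closedBall hx), res_glue]
  right_inv' := by
    rintro _ ⟨x, hx, rfl⟩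
    rw [co_chi hR φ c (ball_subset_closedBall hx), res_glue]

theorem mem_cell (x : X) : x ∈ chart hR φ (⟨ty (co R φ x), rfl⟩ : Cell m _) '' ball 0 1 := by
  refine ⟨res _ (co R φ x), res_ty_mem (co_abs hR φ x), ?_⟩
  change φ.symm (proj hR (glue _ (res _ (co R φ x)))) = x
  rw [glue_ty, symm_proj_co]

end CubeCW

open CubeCW in
theorem cube_cw (m : ℕ) {R : ℝ} (hR : 0 < R) (X : Type) [TopologicalSpace X] [T2Space X]
    (φ : X ≃ₜ closedBall (0 : Fin m → ℝ) R) :
    ∃ hC : Topology.CWComplex (Set.univ : Set X),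
      Topology.RelCWComplex.Finite (Set.univ : Set X) := by
  have h1 : ∀ᶠ n in Filter.atTop, IsEmpty (Cell m n) := by
    filter_upwards [Filter.eventually_gt_atTop m] with n hn
    refine ⟨fun c => ?_⟩
    have := c.2
    have h2 := Finset.card_le_univ (zs c.1)
    rw [Fintype.card_fin] at h2
    omega
  have h2 : ∀ n : ℕ, _root_.Finite (Cell m n) := fun n => inferInstance
  have h3 : ∀ (n : ℕ) (c : Cell m n), (chart hR φ c).source = ball 0 1 := fun n c => rfl
  have h4 : ∀ (n : ℕ) (c : Cell m n), ContinuousOn (chart hR φ c) (closedBall 0 1) :=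
    fun n c => (chi_cont hR φ c).continuousOn
  have h5 : ∀ (n : ℕ) (c : Cell m n),
      ContinuousOn (chart hR φ c).symm (chart hR φ c).target :=
    fun n c => ((res_cont c).comp (co_cont φ)).continuousOn
  have h6 : (univ : Set (Σ n, Cell m n)).PairwiseDisjoint
      (fun ni ↦ chart hR φ ni.2 '' ball 0 1) := by
    rintro ⟨n, c⟩ - ⟨n', c'⟩ - hne
    change Disjoint (chart hR φ c '' ball 0 1) (chart hR φ c' '' ball 0 1)
    rw [Set.disjoint_left]
    rintro _ ⟨x, hx, rfl⟩ ⟨x', hx', he⟩
    apply hne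
    have e1 : glue c x = glue c' x' := by
      rw [← co_chi hR φ c (ball_subset_closedBall hx),
        ← co_chi hR φ c' (ball_subset_closedBall hx')]
      exact congrArg _ he.symm
    have e2 : c.1 = c'.1 := by
      rw [← ty_glue c hx, ← ty_glue c' hx', e1]
    obtain ⟨σ, hσ⟩ := c
    obtain ⟨σ', hσ'⟩ := c'
    simp only at e2
    subst e2
    subst hσ
    subst hσ'
    rfl
  have h7 : ∀ (n : ℕ) (c : Cell m n), MapsTo (chart hR φ c) (sphere 0 1)
      (⋃ (k < n) (j : Cell m k), chart hR φ j '' closedBall 0 1) := by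
    intro n c x hx
    have hxc : x ∈ closedBall (0 : Fin n → ℝ) 1 := sphere_subset_closedBall hx
    set p := chart hR φ c x with hp
    have hco : co R φ p = glue c x := co_chi hR φ c hxc
    have hm := mem_cell hR φ p
    have hlt : (zs (ty (co R φ p))).card < n := by
      rw [← c.2]
      apply Finset.card_lt_card
      rw [Finset.ssubset_iff_subset_ne]
      have hsub : zs (ty (co R φ p)) ⊆ zs c.1 := by
        intro i hi
        rw [mem_zs, ty_zero, hco] at hi
        by_contra hc
        have e1 : glue c x i = ((c.1 i : SignType) : ℝ) := by unfold glue; rw [dif_neg hc]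
        rw [mem_zs] at hc
        rw [e1] at hi
        have e2 := sign_abs hc
        rcases eq_or_eq_neg_of_abs_eq e2 with h | h
        · exact hi.1 h
        · exact hi.2 h
      refine ⟨hsub, fun heq => ?_⟩
      -- some coordinate of `x` has absolute value one
      have hxn : ‖x‖ = 1 := mem_sphere_zero_iff_norm.mp hx
      have hex : ∃ k, ¬ |x k| < 1 := by
        by_contra hall
        push Not at hall
        have : ‖x‖ < 1 := by
          rw [pi_norm_lt_iff zero_lt_one]
          exact hall
        linarith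
      obtain ⟨k, hk⟩ := hex
      rw [mem_closedBall_zero_iff, pi_norm_le_iff_of_nonneg zero_le_one] at hxc
      have hk1 : |x k| = 1 := le_antisymm (hxc k) (not_lt.mp hk)
      set i := (en c).symm k with hi
      have hiz : i.1 ∈ zs (ty (co R φ p)) := by rw [heq]; exact i.2
      rw [mem_zs, ty_zero, hco] at hiz
      have e1 : glue c x i.1 = x k := by
        unfold glue
        rw [dif_pos i.2, hi]
        simp
      rw [e1] at hiz
      rcases eq_or_eq_neg_of_abs_eq hk1 with h | h
      · exact hiz.1 h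
      · exact hiz.2 h
    simp only [mem_iUnion]
    exact ⟨_, hlt, _, image_mono ball_subset_closedBall hm⟩
  have h8 : ⋃ (n : ℕ) (c : Cell m n), chart hR φ c '' closedBall 0 1 = (univ : Set X) := by
    rw [eq_univ_iff_forall]
    intro x
    simp only [mem_iUnion]
    exact ⟨_, _, image_mono ball_subset_closedBall (mem_cell hR φ x)⟩
  exact ⟨Topology.CWComplex.mkFinite univ (Cell m) (fun n c => chart hR φ c) h1 h2 h3 h4 h5 h6 h7 h8,
    Topology.CWComplex.finite_mkFinite univ (Cell m) (fun n c => chart hR φ c)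
      h1 h2 h3 h4 h5 h6 h7 h8⟩

open CubeCW in
theorem cube_log (m : ℕ) {R : ℝ} (hR : 0 < R) (X : Type) [TopologicalSpace X]
    (φ : X ≃ₜ closedBall (0 : Fin m → ℝ) R) (f : C(X, ℂ)) (hf : ∀ x, f x ≠ 0) :
    ∃ g : C(X, ℂ), ∀ x, f x = Complex.exp (g x) := by
  set F : C(Fin m → ℝ, ℂ) := ⟨fun y => f (φ.symm (proj hR y)),
    f.continuous.comp (φ.symm.continuous.comp (proj_cont hR))⟩ with hF
  have hF0 : ∀ y, F y ∈ ({0}ᶜ : Set ℂ) := fun y => hf _
  obtain ⟨G, ⟨-, hG⟩, -⟩ := Complex.isCoveringMapOn_exp.existsUnique_continuousMap_lifts F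
    (a₀ := 0) (e₀ := Complex.log (F 0)) (Complex.exp_log (hF0 0)) hF0
  refine ⟨G.comp ⟨co R φ, co_cont φ⟩, fun x => ?_⟩
  have h1 := congrFun hG (co R φ x)
  change Complex.exp (G (co R φ x)) = F (co R φ x) at h1
  change f x = Complex.exp (G (co R φ x))
  rw [h1]
  change f x = f (φ.symm (proj hR (co R φ x)))
  rw [symm_proj_co]

end Pool.Agent.T05
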