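import Pool.Agent.Lib.MP_0162a5_an.Defs
import Pool.Agent.Lib.MP_0162a5_an.CW
import Pool.Agent.Lib.MP_0162a5_an.Alg
import Pool.Agent.Lib.MP_0162a5_an.Roots

/-! MODULE C: extraction of a homotopy from the positive answer `Q1`.

`X := closedBall (0 : Fin d → ℝ) R`, `A := pieceAlg e'`, `b = (0, 1, u, v)` with `(u, v) = G`.
`Q1` gives the path `γ` of split separable polynomials, `roots_lift` the roots `ρ i`, and
`H t x = ((ρ₂ - ρ₀)/(ρ₁ - ρ₀), (ρ₃ - ρ₀)/(ρ₁ - ρ₀))`.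
-/

set_option autoImplicit false

open Complex Metric Set Filter Topology

namespace Pool.Agent.T05

namespace Ext

/-- the retraction onto the ball used to evaluate (junk value `0` outside) -/
noncomputable def pr {d : ℕ} {R : ℝ} (hR : 0 < R) (q : Fin d → ℝ) :
    closedBall (0 : Fin d → ℝ) R := by
  classical
  exact if h : q ∈ closedBall (0 : Fin d → ℝ) R then ⟨q, h⟩ else ⟨0, mem_closedBall_self hR.le⟩

lemma pr_of_mem {d : ℕ} {R : ℝ} (hR : 0 < R) {q : Fin d → ℝ}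
    (h : q ∈ closedBall (0 : Fin d → ℝ) R) : pr hR q = ⟨q, h⟩ := by
  unfold pr; exact dif_pos h

lemma pr_continuousOn {d : ℕ} {R : ℝ} (hR : 0 < R) :
    ContinuousOn (pr hR) (closedBall (0 : Fin d → ℝ) R) := by
  rw [continuousOn_iff_continuous_domRestrict]
  have : (closedBall (0 : Fin d → ℝ) R).domRestrict (pr hR) = id := by
    ext1 q
    rw [domRestrict_apply, pr_of_mem hR q.2]; rfl
  rw [this]
  exact continuous_id

/-- the algebraic input of the problem for the algebra `pieceAlg e` -/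
theorem use_Q1 (hQ : Q1) {X : Type} [TopologicalSpace X] [CompactSpace X] [T2Space X]
    [ConnectedSpace X] {d k : ℕ} {R : ℝ} (hR : 0 < R) (ψ : X ≃ₜ closedBall (0 : Fin d → ℝ) R)
    (e : Fin k → C(BD, X)) (hinj : ∀ i, Function.Injective (e i)) (S : Finset X)
    (hS : ∀ i j, i ≠ j → ∀ ζ ζ' : BD, e i ζ = e j ζ' → e i ζ ∈ S)
    (n : ℕ) (b : Fin n → pieceAlg e)
    (hb : ∀ i j, i ≠ j → ∀ x : X, (b i : C(X, ℂ)) x ≠ (b j : C(X, ℂ)) x) :
    ∃ γ : unitInterval → Polynomial (pieceAlg e),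
          (∀ k : ℕ, Continuous (fun t => (γ t).coeff k)) ∧
          γ 0 = ∏ i : Fin n, (Polynomial.X - Polynomial.C (b i)) ∧
          (∀ t, (γ t).Separable ∧
              ∃ c : Fin n → pieceAlg e, γ t = ∏ i : Fin n, (Polynomial.X - Polynomial.C (c i))) ∧
          (∀ k : ℕ, ∃ z : ℂ, (γ 1).coeff k = algebraMap ℂ (pieceAlg e) z) := by
  obtain ⟨φ, hφ⟩ := exists_char_homeo e hinj S hS
  have : CompleteSpace (pieceAlg e) := (pieceAlg_isClosed e).completeSpace_coe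
  refine hQ (pieceAlg e) ?_ ?_ ?_ n b ?_
  · exact φ.symm.surjective.connectedSpace φ.symm.continuous
  · exact cube_cw d hR _ (φ.trans ψ)
  · exact fun f hf => cube_log d hR _ (φ.trans ψ) f hf
  · apply Polynomial.separable_prod
    · intro i j hij
      apply Polynomial.isCoprime_X_sub_C_of_isUnit_sub
      by_contra hu
      obtain ⟨χ, hχ⟩ := WeakDual.CharacterSpace.exists_apply_eq_zero hu
      rw [hφ] at hχ
      have h1 : ((b i - b j : pieceAlg e) : C(X, ℂ)) (φ χ) =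
        (b i : C(X, ℂ)) (φ χ) - (b j : C(X, ℂ)) (φ χ) := rfl
      rw [h1] at hχ
      exact hb i j hij (φ χ) (sub_eq_zero.1 hχ)
    · intro i
      exact Polynomial.separable_X_sub_C

/-- evaluation of elements of the algebra at a point, as a ring homomorphism -/
noncomputable def ev {X : Type} [TopologicalSpace X] [CompactSpace X] {k : ℕ}
    (e : Fin k → C(BD, X)) (x : X) : pieceAlg e →+* ℂ :=
  (Pi.evalRingHom (fun _ : X => ℂ) x).comp
    ((ContinuousMap.coeFnRingHom : C(X, ℂ) →+* (X → ℂ)).comp (pieceAlg e).toSubring.subtype)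

lemma ev_apply {X : Type} [TopologicalSpace X] [CompactSpace X] {k : ℕ}
    (e : Fin k → C(BD, X)) (x : X) (f : pieceAlg e) : ev e x f = (f : C(X, ℂ)) x := rfl

lemma diffOn_alg {d k : ℕ} {R : ℝ} (hR : 0 < R) (e : Fin k → ℂ × ℂ → (Fin d → ℝ))
    (e' : Fin k → C(BD, closedBall (0 : Fin d → ℝ) R)) (he' : ∀ i ζ, (e' i ζ : Fin d → ℝ) = e i ζ)
    (f : pieceAlg e') (g : (Fin d → ℝ) → ℂ)
    (hg : ∀ q ∈ closedBall (0 : Fin d → ℝ) R, g q = (f : C(_, ℂ)) (pr hR q)) (i : Fin k) :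
    DifferentiableOn ℂ (fun ζ => g (e i ζ)) (ball 0 1) := by
  have h1 := (mem_pieceAlg e' (f : C(_, ℂ))).1 f.2 i
  refine polAlg_holo _ h1 _ ?_
  intro z
  have h2 : e i z ∈ closedBall (0 : Fin d → ℝ) R := by rw [← he' i z]; exact (e' i z).2
  rw [hg _ h2, pr_of_mem hR h2, ContinuousMap.comp_apply]
  congr 1
  exact Subtype.ext (he' i z).symm

end Ext

/-- The positive answer for polynomials of degree `n` over the algebras `pieceAlg e` on the cubes. -/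
def QW (n : ℕ) : Prop :=
  ∀ (d k : ℕ) (R : ℝ), 0 < R → ∀ (e : Fin k → C(BD, closedBall (0 : Fin d → ℝ) R)),
    (∀ i, Function.Injective (e i)) → ∀ S : Finset (closedBall (0 : Fin d → ℝ) R),
    (∀ i j, i ≠ j → ∀ ζ ζ' : BD, e i ζ = e j ζ' → e i ζ ∈ S) →
    ∀ b : Fin n → pieceAlg e,
      (∀ i j, i ≠ j → ∀ x, (b i : C(closedBall (0 : Fin d → ℝ) R, ℂ)) x ≠
        (b j : C(closedBall (0 : Fin d → ℝ) R, ℂ)) x) →
      ∃ γ : unitInterval → Polynomial (pieceAlg e),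
          (∀ k : ℕ, Continuous (fun t => (γ t).coeff k)) ∧
          γ 0 = ∏ i : Fin n, (Polynomial.X - Polynomial.C (b i)) ∧
          (∀ t, (γ t).Separable ∧
              ∃ c : Fin n → pieceAlg e, γ t = ∏ i : Fin n, (Polynomial.X - Polynomial.C (c i))) ∧
          (∀ k : ℕ, ∃ z : ℂ, (γ 1).coeff k = algebraMap ℂ (pieceAlg e) z)

/-- The positive answer for some degree `n ≥ 4`. -/
def QX : Prop := ∃ n, 4 ≤ n ∧ QW n

/-- the values of the roots: `0, 1, u, v` and large constants -/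
noncomputable def rts (M : ℝ) (u v : ℂ) : ℕ → ℂ
  | 0 => 0
  | 1 => 1
  | 2 => u
  | 3 => v
  | (i + 4) => ((M + i : ℝ) : ℂ)

theorem rts_inj {M : ℝ} {u v : ℂ} (hM : 1 < M) (hu : ‖u‖ < M) (hv : ‖v‖ < M)
    (h : (u, v) ∈ MM) : Function.Injective (rts M u v) := by
  obtain ⟨m1, m2, m3, m4, m5⟩ := h
  have hb : ∀ (i : ℕ) (z : ℂ), ‖z‖ < M → ((M + i : ℝ) : ℂ) ≠ z := by
    intro i z hz h
    rw [← h, Complex.norm_real, Real.norm_eq_abs] at hz
    have h1 : (0 : ℝ) ≤ i := Nat.cast_nonneg i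
    have h2 := le_abs_self (M + (i : ℝ))
    linarith
  have h0 : ∀ i : ℕ, ((M + i : ℝ) : ℂ) ≠ 0 := fun i => hb i 0 (by rw [norm_zero]; linarith)
  have h1 : ∀ i : ℕ, ((M + i : ℝ) : ℂ) ≠ 1 := fun i => hb i 1 (by rw [norm_one]; exact hM)
  have hu' : ∀ i : ℕ, ((M + i : ℝ) : ℂ) ≠ u := fun i => hb i u hu
  have hv' : ∀ i : ℕ, ((M + i : ℝ) : ℂ) ≠ v := fun i => hb i v hv
  intro i j hij
  rcases i with _ | _ | _ | _ | i <;> rcases j with _ | _ | _ | _ | j
  · rfl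
  · exact absurd hij zero_ne_one
  · exact absurd hij.symm m1
  · exact absurd hij.symm m3
  · exact absurd hij.symm (h0 j)
  · exact absurd hij one_ne_zero
  · rfl
  · exact absurd hij.symm m2
  · exact absurd hij.symm m4
  · exact absurd hij.symm (h1 j)
  · exact absurd hij m1
  · exact absurd hij m2
  · rfl
  · exact absurd hij m5
  · exact absurd hij.symm (hu' j)
  · exact absurd hij m3
  · exact absurd hij m4
  · exact absurd hij.symm m5
  · rfl
  · exact absurd hij.symm (hv' j)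
  · exact absurd hij (h0 i)
  · exact absurd hij (h1 i)
  · exact absurd hij (hu' i)
  · exact absurd hij (hv' i)
  · have h2 : ((M + i : ℝ) : ℂ) = ((M + j : ℝ) : ℂ) := hij
    have h3 : M + (i : ℝ) = M + j := Complex.ofReal_injective h2
    have h4 : (i : ℝ) = j := by linarith
    rw [Nat.cast_injective h4]

theorem extraction (hQ : QX) (d k : ℕ) (R : ℝ) (hR : 0 < R)
    (e : Fin k → ℂ × ℂ → (Fin d → ℝ))
    (he : ∀ i, ContinuousOn (e i) (closedBall 0 1))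
    (hinj : ∀ i, InjOn (e i) (closedBall 0 1))
    (hmaps : ∀ i, MapsTo (e i) (closedBall 0 1) (closedBall 0 R))
    (S : Finset (Fin d → ℝ))
    (hS : ∀ i j, i ≠ j → ∀ ζ ∈ closedBall (0 : ℂ × ℂ) 1, ∀ ζ' ∈ closedBall (0 : ℂ × ℂ) 1,
      e i ζ = e j ζ' → e i ζ ∈ S)
    (G : (Fin d → ℝ) → ℂ × ℂ) (hG : ContinuousOn G (closedBall 0 R))
    (hGM : ∀ x ∈ closedBall (0 : Fin d → ℝ) R, G x ∈ MM)
    (hGe : ∀ i, ∃ (p : ℂ × ℂ) (r : ℂ), ∀ ζ ∈ closedBall (0 : ℂ × ℂ) 1, G (e i ζ) = p + r • ζ) :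
    ∃ H : ℝ → (Fin d → ℝ) → ℂ × ℂ,
      ContinuousOn (fun q : ℝ × (Fin d → ℝ) => H q.1 q.2) (Icc 0 1 ×ˢ closedBall 0 R) ∧
      (∀ x ∈ closedBall (0 : Fin d → ℝ) R, H 0 x = G x) ∧
      (∃ c, ∀ x ∈ closedBall (0 : Fin d → ℝ) R, H 1 x = c) ∧
      (∀ t ∈ Icc (0 : ℝ) 1, ∀ x ∈ closedBall (0 : Fin d → ℝ) R, H t x ∈ MM) ∧
      (∀ t ∈ Icc (0 : ℝ) 1, ∀ i, DifferentiableOn ℂ (fun ζ => H t (e i ζ)) (ball 0 1)) := by
  classical
  obtain ⟨n, hn, hQ⟩ := hQ
  set K : Set (Fin d → ℝ) := closedBall (0 : Fin d → ℝ) R with hK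
  have hKconv : Convex ℝ K := convex_closedBall 0 R
  have hKc : IsCompact K := isCompact_closedBall 0 R
  have hK0 : (0 : Fin d → ℝ) ∈ K := mem_closedBall_self hR.le
  have hKn : K.Nonempty := ⟨0, hK0⟩
  have hXc : CompactSpace K := isCompact_iff_compactSpace.1 hKc
  have hXconn : ConnectedSpace K := isConnected_iff_connectedSpace.1 (hKconv.isConnected hKn)
  -- the pieces
  let e' : Fin k → C(BD, K) := fun i =>
    ⟨fun ζ => ⟨e i ζ, hmaps i ζ.2⟩, ((continuousOn_iff_continuous_domRestrict.1 (he i))).subtype_mk _⟩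
  have he'v : ∀ i ζ, (e' i ζ : Fin d → ℝ) = e i ζ := fun i ζ => rfl
  have he'inj : ∀ i, Function.Injective (e' i) := by
    intro i ζ ζ' h
    exact Subtype.ext (hinj i ζ.2 ζ'.2 (congrArg Subtype.val h))
  let S' : Finset K := S.subtype (· ∈ K)
  have hS' : ∀ i j, i ≠ j → ∀ ζ ζ' : BD, e' i ζ = e' j ζ' → e' i ζ ∈ S' := by
    intro i j hij ζ ζ' h
    rw [Finset.mem_subtype]
    exact hS i j hij ζ ζ.2 ζ' ζ'.2 (congrArg Subtype.val h)
  -- the functions `u` and `v`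
  have hGc : Continuous (fun x : K => G x) := continuousOn_iff_continuous_domRestrict.1 hG
  have hmem : ∀ L : ℂ × ℂ →L[ℂ] ℂ, (⟨fun x : K => L (G x), L.continuous.comp hGc⟩ : C(K, ℂ)) ∈
      pieceAlg e' := by
    intro L
    rw [mem_pieceAlg]
    intro i
    obtain ⟨p, r, hpr⟩ := hGe i
    apply affine_mem_polAlg _ (L p) (r * L (1, 0)) (r * L (0, 1))
    intro z
    show L (G (e i z)) = _
    rw [hpr z z.2, map_add, map_smul]
    have : (z : ℂ × ℂ) = z.1.1 • ((1, 0) : ℂ × ℂ) + z.1.2 • ((0, 1) : ℂ × ℂ) := by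
      ext <;> simp
    conv_lhs => rw [this, map_add, map_smul, map_smul]
    simp only [smul_eq_mul]
    ring
  let uA : pieceAlg e' := ⟨_, hmem (ContinuousLinearMap.fst ℂ ℂ ℂ)⟩
  let vA : pieceAlg e' := ⟨_, hmem (ContinuousLinearMap.snd ℂ ℂ ℂ)⟩
  have huA : ∀ x : K, (uA : C(K, ℂ)) x = (G x).1 := fun x => rfl
  have hvA : ∀ x : K, (vA : C(K, ℂ)) x = (G x).2 := fun x => rfl
  obtain ⟨M, hM1, hM2, hM3⟩ : ∃ M : ℝ, 1 < M ∧ (∀ x : K, ‖(G x).1‖ < M) ∧ ∀ x : K, ‖(G x).2‖ < M := by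
    refine ⟨1 + ‖(uA : C(K, ℂ))‖ + ‖(vA : C(K, ℂ))‖ + 1, ?_, fun x => ?_, fun x => ?_⟩
    · have h1 := norm_nonneg (uA : C(K, ℂ))
      have h2 := norm_nonneg (vA : C(K, ℂ))
      linarith
    · have h1 := ContinuousMap.norm_coe_le_norm (uA : C(K, ℂ)) x
      have h2 := norm_nonneg (vA : C(K, ℂ))
      rw [huA] at h1
      linarith
    · have h1 := ContinuousMap.norm_coe_le_norm (vA : C(K, ℂ)) x
      have h2 := norm_nonneg (uA : C(K, ℂ))
      rw [hvA] at h1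
      linarith
  let bN : ℕ → pieceAlg e' := fun i =>
    match i with
    | 0 => 0
    | 1 => 1
    | 2 => uA
    | 3 => vA
    | (i + 4) => algebraMap ℂ (pieceAlg e') ((M + i : ℝ) : ℂ)
  have hbN : ∀ i (x : K), (bN i : C(K, ℂ)) x = rts M (G x).1 (G x).2 i := by
    intro i x
    rcases i with _ | _ | _ | _ | i <;> rfl
  let bA : Fin n → pieceAlg e' := fun i => bN i
  have hbA : ∀ i j, i ≠ j → ∀ x : K, (bA i : C(K, ℂ)) x ≠ (bA j : C(K, ℂ)) x := by
    intro i j hij x h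
    have h1 := (hbN i x).symm.trans (h.trans (hbN j x))
    exact hij (Fin.ext (rts_inj hM1 (hM2 x) (hM3 x) (hGM x x.2) h1))
  obtain ⟨γ, hγc, hγ0, hγs, hγ1⟩ := hQ d k R hR e' he'inj S' hS' bA hbA
  have i0lt : 0 < n := by omega
  have i1lt : 1 < n := by omega
  have i2lt : 2 < n := by omega
  have i3lt : 3 < n := by omega
  let i0 : Fin n := ⟨0, i0lt⟩
  let i1 : Fin n := ⟨1, i1lt⟩
  let i2 : Fin n := ⟨2, i2lt⟩
  let i3 : Fin n := ⟨3, i3lt⟩
  have n10 : i1 ≠ i0 := fun h => by simpa [i1, i0] using congrArg Fin.val h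
  have n20 : i2 ≠ i0 := fun h => by simpa [i2, i0] using congrArg Fin.val h
  have n21 : i2 ≠ i1 := fun h => by simpa [i2, i1] using congrArg Fin.val h
  have n30 : i3 ≠ i0 := fun h => by simpa [i3, i0] using congrArg Fin.val h
  have n31 : i3 ≠ i1 := fun h => by simpa [i3, i1] using congrArg Fin.val h
  have n23 : i2 ≠ i3 := fun h => by simpa [i2, i3] using congrArg Fin.val h
  -- evaluation
  let a : ℝ → (Fin d → ℝ) → Polynomial ℂ := fun t q =>
    (γ (projIcc 0 1 zero_le_one t)).map (Ext.ev e' (Ext.pr hR q))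
  have hprod : ∀ (c : Fin n → pieceAlg e') (x : K),
      (∏ i, (Polynomial.X - Polynomial.C (c i))).map (Ext.ev e' x) =
        ∏ i, (Polynomial.X - Polynomial.C ((c i : C(K, ℂ)) x)) := by
    intro c x
    rw [Polynomial.map_prod]
    apply Finset.prod_congr rfl
    intro i _
    rw [Polynomial.map_sub, Polynomial.map_X, Polynomial.map_C, Ext.ev_apply]
  have hacoef : ∀ m, ContinuousOn (fun p : ℝ × (Fin d → ℝ) => (a p.1 p.2).coeff m)
      (Icc 0 1 ×ˢ K) := by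
    intro m
    have h1 : ∀ p : ℝ × (Fin d → ℝ), (a p.1 p.2).coeff m =
        (((γ (projIcc 0 1 zero_le_one p.1)).coeff m : pieceAlg e') : C(K, ℂ)) (Ext.pr hR p.2) := by
      intro p
      show ((γ _).map _).coeff m = _
      rw [Polynomial.coeff_map, Ext.ev_apply]
    simp only [h1]
    have h2 : Continuous (fun p : C(K, ℂ) × K => p.1 p.2) := continuous_eval
    have h3 : ContinuousOn (fun p : ℝ × (Fin d → ℝ) =>
        (((((γ (projIcc 0 1 zero_le_one p.1)).coeff m : pieceAlg e') : C(K, ℂ))),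
          (Ext.pr hR p.2))) (Icc 0 1 ×ˢ K) := by
      apply ContinuousOn.prodMk
      · exact (continuous_subtype_val.comp ((hγc m).comp
          (continuous_projIcc.comp continuous_fst))).continuousOn
      · exact (Ext.pr_continuousOn hR).comp continuous_snd.continuousOn fun p hp => hp.2
    exact h2.comp_continuousOn h3
  have ham : ∀ t ∈ Icc (0 : ℝ) 1, ∀ q ∈ K, (a t q).Monic ∧ (a t q).natDegree = n ∧
      (a t q).Separable := by
    intro t _ q _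
    obtain ⟨hs, c, hc⟩ := hγs (projIcc 0 1 zero_le_one t)
    have h1 : a t q = ∏ i, (Polynomial.X - Polynomial.C ((c i : C(K, ℂ)) (Ext.pr hR q))) := by
      show (γ _).map _ = _
      rw [hc, hprod]
    refine ⟨?_, ?_, ?_⟩
    · rw [h1]; exact Polynomial.monic_prod_of_monic _ _ fun i _ => Polynomial.monic_X_sub_C _
    · rw [h1, Polynomial.natDegree_prod_of_monic _ _ fun i _ => Polynomial.monic_X_sub_C _]
      simp
    · exact hs.map
  have hbc : ∀ i, ContinuousOn (fun q => (bA i : C(K, ℂ)) (Ext.pr hR q)) K := fun i =>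
    (bA i : C(K, ℂ)).continuous.comp_continuousOn (Ext.pr_continuousOn hR)
  obtain ⟨ρ, hρc, hρ0, hρa, hρu⟩ := roots_lift hKconv hKc hKn n a hacoef ham
    (fun i q => (bA i : C(K, ℂ)) (Ext.pr hR q)) hbc (by
      intro q hq
      show (γ _).map _ = _
      rw [projIcc_left, show (⟨0, left_mem_Icc.2 zero_le_one⟩ : Icc (0 : ℝ) 1) = 0 from rfl,
        hγ0, hprod])
  have hne : ∀ t ∈ Icc (0 : ℝ) 1, ∀ q ∈ K, ∀ i j, i ≠ j → ρ i t q ≠ ρ j t q := by
    intro t ht q hq i j hij h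
    have h1 := (ham t ht q hq).2.2
    rw [hρa t ht q hq, Polynomial.separable_prod_X_sub_C_iff] at h1
    exact hij (h1 h)
  -- the roots are in the algebra
  have hρA : ∀ t ∈ Icc (0 : ℝ) 1, ∀ i, ∃ f : pieceAlg e', ∀ q ∈ K,
      ρ i t q = (f : C(K, ℂ)) (Ext.pr hR q) := by
    intro t ht i
    obtain ⟨-, c, hc⟩ := hγs (projIcc 0 1 zero_le_one t)
    obtain ⟨j, hj⟩ := hρu t ht (fun j q => (c j : C(K, ℂ)) (Ext.pr hR q))
      (fun j => (c j : C(K, ℂ)).continuous.comp_continuousOn (Ext.pr_continuousOn hR))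
      (fun q hq => by
        show (γ _).map _ = _
        rw [hc, hprod]) i
    exact ⟨c j, hj⟩
  have hρd : ∀ t ∈ Icc (0 : ℝ) 1, ∀ j i, DifferentiableOn ℂ (fun ζ => ρ j t (e i ζ)) (ball 0 1) := by
    intro t ht j i
    obtain ⟨f, hf⟩ := hρA t ht j
    exact Ext.diffOn_alg hR e e' he'v f (ρ j t) hf i
  have h1mem : (1 : ℝ) ∈ Icc (0 : ℝ) 1 := ⟨zero_le_one, le_rfl⟩
  have h0mem : (0 : ℝ) ∈ Icc (0 : ℝ) 1 := ⟨le_rfl, zero_le_one⟩
  -- constancy at time one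
  have hρ1 : ∀ i, ∃ z, ∀ q ∈ K, ρ i 1 q = z := by
    intro i
    have hconst : ∀ q ∈ K, a 1 q = a 1 0 := by
      intro q hq
      ext m
      obtain ⟨z, hz⟩ := hγ1 m
      show ((γ _).map _).coeff m = ((γ _).map _).coeff m
      rw [projIcc_right, show (⟨1, right_mem_Icc.2 zero_le_one⟩ : Icc (0 : ℝ) 1) = 1 from rfl,
        Polynomial.coeff_map, Polynomial.coeff_map, hz, Ext.ev_apply, Ext.ev_apply]
      rfl
    obtain ⟨j, hj⟩ := hρu 1 h1mem (fun j _ => ρ j 1 0) (fun j => continuousOn_const)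
      (fun q hq => by rw [hconst q hq, hρa 1 h1mem 0 hK0]) i
    exact ⟨ρ j 1 0, hj⟩
  have hne20 : ∀ t ∈ Icc (0 : ℝ) 1, ∀ q ∈ K, ρ i1 t q - ρ i0 t q ≠ 0 := fun t ht q hq =>
    sub_ne_zero.2 (hne t ht q hq i1 i0 n10)
  refine ⟨fun t q => ((ρ i2 t q - ρ i0 t q) / (ρ i1 t q - ρ i0 t q),
    (ρ i3 t q - ρ i0 t q) / (ρ i1 t q - ρ i0 t q)), ?_, ?_, ?_, ?_, ?_⟩
  · apply ContinuousOn.prodMk
    · exact ((hρc i2).sub (hρc i0)).div ((hρc i1).sub (hρc i0)) fun p hp => hne20 p.1 hp.1 p.2 hp.2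
    · exact ((hρc i3).sub (hρc i0)).div ((hρc i1).sub (hρc i0)) fun p hp => hne20 p.1 hp.1 p.2 hp.2
  · intro x hx
    have e0 : ρ i0 0 x = 0 := hρ0 i0 x hx
    have e1 : ρ i1 0 x = 1 := hρ0 i1 x hx
    have e2 : ρ i2 0 x = (G x).1 := by
      rw [hρ0 i2 x hx]; show (uA : C(K, ℂ)) _ = _; rw [huA, Ext.pr_of_mem hR hx]
    have e3 : ρ i3 0 x = (G x).2 := by
      rw [hρ0 i3 x hx]; show (vA : C(K, ℂ)) _ = _; rw [hvA, Ext.pr_of_mem hR hx]
    simp only [e0, e1, e2, e3, sub_zero, div_one]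
  · obtain ⟨z0, h0⟩ := hρ1 i0
    obtain ⟨z1, h1⟩ := hρ1 i1
    obtain ⟨z2, h2⟩ := hρ1 i2
    obtain ⟨z3, h3⟩ := hρ1 i3
    refine ⟨((z2 - z0) / (z1 - z0), (z3 - z0) / (z1 - z0)), ?_⟩
    intro x hx
    simp only [h0 x hx, h1 x hx, h2 x hx, h3 x hx]
  · intro t ht x hx
    have n01 := hne20 t ht x hx
    have m20 := hne t ht x hx i2 i0 n20
    have m21 := hne t ht x hx i2 i1 n21
    have m30 := hne t ht x hx i3 i0 n30
    have m31 := hne t ht x hx i3 i1 n31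
    have m23 := hne t ht x hx i2 i3 n23
    refine ⟨?_, ?_, ?_, ?_, ?_⟩
    · exact div_ne_zero (sub_ne_zero.2 m20) n01
    · show (ρ i2 t x - ρ i0 t x) / (ρ i1 t x - ρ i0 t x) ≠ 1
      rw [Ne, div_eq_one_iff_eq n01]
      exact fun h => m21 (sub_left_inj.1 h)
    · exact div_ne_zero (sub_ne_zero.2 m30) n01
    · show (ρ i3 t x - ρ i0 t x) / (ρ i1 t x - ρ i0 t x) ≠ 1
      rw [Ne, div_eq_one_iff_eq n01]
      exact fun h => m31 (sub_left_inj.1 h)
    · show (ρ i2 t x - ρ i0 t x) / (ρ i1 t x - ρ i0 t x) ≠ (ρ i3 t x - ρ i0 t x) / (ρ i1 t x - ρ i0 t x)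
      rw [Ne, div_left_inj' n01]
      exact fun h => m23 (sub_left_inj.1 h)
  · intro t ht i
    have hball : ∀ ζ ∈ ball (0 : ℂ × ℂ) 1, ρ i1 t (e i ζ) - ρ i0 t (e i ζ) ≠ 0 := fun ζ hζ =>
      hne20 t ht _ (hmaps i (ball_subset_closedBall hζ))
    simp only [div_eq_mul_inv]
    have hinv := DifferentiableOn.inv ((hρd t ht i1 i).sub (hρd t ht i0 i)) hball
    exact (((hρd t ht i2 i).sub (hρd t ht i0 i)).mul hinv).prodMk
      (((hρd t ht i3 i).sub (hρd t ht i0 i)).mul hinv)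

end Pool.Agent.T05
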