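import Pool.Agent.Lib.MP_0162a5_an.O
import Pool.Agent.Lib.MP_0162a5_an.T0

/-! Covering space generalities for the universal covering of `MM`. -/

set_option autoImplicit false

open Complex Metric Set Filter Topology

namespace Pool.Agent.T05

theorem MM_isOpen : IsOpen MM := by
  have h1 : MM = ({p : ℂ × ℂ | p.1 ≠ 0} ∩ {p | p.1 ≠ 1}) ∩ ({p | p.2 ≠ 0} ∩ {p | p.2 ≠ 1}) ∩
      {p | p.1 ≠ p.2} := by
    ext p; simp only [MM, mem_ofPred_eq, mem_inter_iff]; tauto
  rw [h1]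
  refine ((?_ : IsOpen _).inter ?_).inter ?_
  · exact (isOpen_ne_fun continuous_fst continuous_const).inter
      (isOpen_ne_fun continuous_fst continuous_const)
  · exact (isOpen_ne_fun continuous_snd continuous_const).inter
      (isOpen_ne_fun continuous_snd continuous_const)
  · exact isOpen_ne_fun continuous_fst continuous_snd

theorem C01_isOpen : IsOpen C01 := by
  have h1 : C01 = {p : ℂ | p ≠ 0} ∩ {p | p ≠ 1} := by
    ext p; simp only [C01, mem_ofPred_eq, mem_inter_iff]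
  rw [h1]
  exact (isOpen_ne_fun continuous_id continuous_const).inter
      (isOpen_ne_fun continuous_id continuous_const)

theorem HH_isOpen : IsOpen HH := isOpen_lt continuous_const Complex.continuous_im

theorem HH_convex : Convex ℝ HH := convex_halfSpace_im_gt 0

variable (U : UnivCover)

theorem P_continuous : Continuous U.P :=
  continuous_subtype_val.comp U.P_cov.continuous

/-- lifts of maps defined on convex sets -/
theorem lift_convex {E : Type} [NormedAddCommGroup E] [NormedSpace ℝ E] {A : Set E}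
    (hA : Convex ℝ A) {g : E → ℂ × ℂ} (hg : ContinuousOn g A) (hgM : MapsTo g A MM) {a : E}
    (ha : a ∈ A) {X : TT} (hX : U.P X = g a) :
    ∃ G : E → TT, ContinuousOn G A ∧ G a = X ∧ ∀ b ∈ A, U.P (G b) = g b := by
  classical
  obtain ⟨G, h1, h2, h3⟩ := cov_lift_convex U.P_cov hA
    (fun b : A => (⟨g b, hgM b.2⟩ : MM))
    (Continuous.subtype_mk (continuousOn_iff_continuous_domRestrict.1 hg) _)
    ⟨a, ha⟩ X (Subtype.ext hX)
  refine ⟨fun b => if h : b ∈ A then G ⟨b, h⟩ else X, ?_, ?_, ?_⟩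
  · rw [continuousOn_iff_continuous_domRestrict]
    have : A.domRestrict (fun b => if h : b ∈ A then G ⟨b, h⟩ else X) = G := by
      funext b
      simp only [Set.domRestrict_apply, b.2, dif_pos]
    rw [this]; exact h1
  · simp only [ha, dif_pos]; exact h2
  · intro b hb; simp only [hb, dif_pos]
    exact congrArg Subtype.val (h3 ⟨b, hb⟩)

theorem lift_unique {E : Type} [TopologicalSpace E] {A : Set E} (hA : IsPreconnected A)
    {G G' : E → TT} (hG : ContinuousOn G A) (hG' : ContinuousOn G' A)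
    (h : ∀ b ∈ A, U.P (G b) = U.P (G' b)) {a : E} (ha : a ∈ A) (haa : G a = G' a) :
    ∀ b ∈ A, G b = G' b :=
  U.P_cov.eqOn_of_comp_eqOn hA hG hG' (fun b hb => Subtype.ext (h b hb)) ha haa

theorem exists_sec (X : TT) {r : ℝ} (hr : 0 < r) (h : ball (U.P X) r ⊆ MM) :
    ∃ s, U.Sec s X r := by
  obtain ⟨s, h1, h2, h3⟩ := lift_convex U (convex_ball (U.P X) r) (g := fun p => p)
    continuousOn_id h (mem_ball_self hr) (X := X) rfl
  exact ⟨s, hr, h, h1, h2, h3⟩

theorem sec_eqOn {X Y : TT} {r r' : ℝ} {s s' : ℂ × ℂ → TT} (h : U.Sec s X r) (h' : U.Sec s' Y r')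
    {q : ℂ × ℂ} (hq : q ∈ ball (U.P X) r) (hq' : q ∈ ball (U.P Y) r') (hs : s q = s' q) :
    ∀ p ∈ ball (U.P X) r ∩ ball (U.P Y) r', s p = s' p := by
  obtain ⟨_, _, h3, _, h5⟩ := h
  obtain ⟨_, _, h3', _, h5'⟩ := h'
  refine lift_unique U ((convex_ball _ _).inter (convex_ball _ _)).isPreconnected
    (h3.mono inter_subset_left) (h3'.mono inter_subset_right) (fun b hb => ?_) ⟨hq, hq'⟩ hs
  rw [h5 b hb.1, h5' b hb.2]

theorem sec_isOpen {X : TT} {r : ℝ} {s : ℂ × ℂ → TT} (h : U.Sec s X r) :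
    IsOpen (s '' ball (U.P X) r) := by
  obtain ⟨h1, h2, h3, h4, h5⟩ := h
  rw [isOpen_iff_mem_nhds]
  rintro _ ⟨q, hq, rfl⟩
  -- local homeomorphism at `s q`
  obtain ⟨e, he, hee⟩ := U.P_cov.isLocalHomeomorph (s q)
  have hPe : ∀ Z, (⟨U.P Z, U.P_mem Z⟩ : MM) = e Z := fun Z => congrFun hee Z
  -- near `q`, `s` takes values in `e.source`
  have hcont : ContinuousAt s q := (h3 q hq).continuousAt (isOpen_ball.mem_nhds hq)
  have hn : ∀ᶠ p in 𝓝 q, s p ∈ e.source := hcont (e.open_source.mem_nhds he)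
  have hn2 : ∀ᶠ p in 𝓝 q, p ∈ ball (U.P X) r := isOpen_ball.mem_nhds hq
  have hn3 : ∀ᶠ Z in 𝓝 (s q), U.P Z ∈ {p | s p ∈ e.source ∧ p ∈ ball (U.P X) r} := by
    have hc : ContinuousAt U.P (s q) := (P_continuous U).continuousAt
    have : U.P (s q) = q := h5 q hq
    rw [ContinuousAt, this] at hc
    exact hc (hn.and hn2)
  filter_upwards [hn3, e.open_source.mem_nhds he] with Z hZ hZ2
  refine ⟨U.P Z, hZ.2, ?_⟩
  apply e.injOn hZ.1 hZ2
  rw [← hPe, ← hPe]
  apply Subtype.ext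
  exact h5 _ hZ.2

theorem identity_TT {f : TT → ℂ} (hf : U.Hol f) {X₀ : TT} (h0 : ∀ᶠ Y in 𝓝 X₀, f Y = 0) :
    ∀ X, f X = 0 := by
  -- the set where `f` vanishes near the point is clopen
  let S : Set TT := {X | ∀ᶠ Y in 𝓝 X, f Y = 0}
  have hSo : IsOpen S := isOpen_setOfPred_eventually_nhds
  have hSc : IsClosed S := by
    rw [← isOpen_compl_iff, isOpen_iff_mem_nhds]
    intro X hX
    obtain ⟨r, hr, hrM⟩ := Metric.isOpen_iff.1 MM_isOpen (U.P X) (U.P_mem X)
    obtain ⟨s, hs⟩ := exists_sec U X hr hrM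
    have hXs : X ∈ s '' ball (U.P X) r := ⟨U.P X, mem_ball_self hr, hs.2.2.2.1⟩
    filter_upwards [(sec_isOpen U hs).mem_nhds hXs] with Y hY hYS
    apply hX
    obtain ⟨q, hq, rfl⟩ := hY
    have hd : DifferentiableOn ℂ (fun p => f (s p)) (ball (U.P X) r) := hf X s r hs
    have hev : ∀ᶠ p in 𝓝 q, f (s p) = 0 := by
      have hcont : ContinuousAt s q := (hs.2.2.1 q hq).continuousAt (isOpen_ball.mem_nhds hq)
      exact hcont hYS
    have hall := identity_ball hd hq hev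
    have : s '' ball (U.P X) r ∈ 𝓝 X := (sec_isOpen U hs).mem_nhds hXs
    filter_upwards [this] with Z hZ
    obtain ⟨p, hp, rfl⟩ := hZ
    exact hall p hp
  have huniv : S = univ := IsClopen.eq_univ ⟨hSc, hSo⟩ ⟨X₀, h0⟩
  intro X
  have : X ∈ S := by rw [huniv]; trivial
  exact this.self_of_nhds

theorem deck (X X' : TT) (h : U.P X = U.P X') :
    ∃ γ : TT ≃ₜ TT, (∀ Y, U.P (γ Y) = U.P Y) ∧ γ X = X' := by
  have key : ∀ X X' : TT, U.P X' = U.P X → ∃ G : TT → TT, Continuous G ∧ G X = X' ∧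
      ∀ b, U.P (G b) = U.P b := by
    intro X X' h
    obtain ⟨G, h1, h2, h3⟩ := lift_convex U (convex_univ (E := TT)) (g := U.P)
      (P_continuous U).continuousOn (fun b _ => U.P_mem b) (mem_univ X) h
    exact ⟨G, continuousOn_univ.1 h1, h2, fun b => h3 b (mem_univ b)⟩
  obtain ⟨G, g1, g2, g3⟩ := key X X' h.symm
  obtain ⟨G', g1', g2', g3'⟩ := key X' X h
  have hGG' : ∀ b, G' (G b) = b := fun b =>
    lift_unique U (A := univ) isPreconnected_univ (G := fun b => G' (G b)) (G' := fun b => b)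
      (g1'.comp g1).continuousOn continuousOn_id (fun b _ => by rw [g3', g3]) (mem_univ X)
      (by rw [g2, g2']) b (mem_univ b)
  have hG'G : ∀ b, G (G' b) = b := fun b =>
    lift_unique U (A := univ) isPreconnected_univ (G := fun b => G (G' b)) (G' := fun b => b)
      (g1.comp g1').continuousOn continuousOn_id (fun b _ => by rw [g3, g3']) (mem_univ X')
      (by rw [g2', g2]) b (mem_univ b)
  exact ⟨⟨⟨G, G', hGG', hG'G⟩, g1, g1'⟩, g3, g2⟩

theorem MM_swap {p : ℂ × ℂ} (hp : p ∈ MM) : p.swap ∈ MM := by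
  obtain ⟨a, b, c, d, e⟩ := hp
  exact ⟨c, d, a, b, e.symm⟩

theorem swap_lift : ∃ σ : TT ≃ₜ TT, ∀ Y, U.P (σ Y) = (U.P Y).swap := by
  have key : ∀ X X' : TT, U.P X' = (U.P X).swap → ∃ G : TT → TT, Continuous G ∧ G X = X' ∧
      ∀ b, U.P (G b) = (U.P b).swap := by
    intro X X' h
    obtain ⟨G, h1, h2, h3⟩ := lift_convex U (convex_univ (E := TT)) (g := fun b => (U.P b).swap)
      (continuous_swap.comp (P_continuous U)).continuousOn (fun b _ => MM_swap (U.P_mem b))
      (mem_univ X) h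
    exact ⟨G, continuousOn_univ.1 h1, h2, fun b => h3 b (mem_univ b)⟩
  let X : TT := 0
  obtain ⟨X', hX'⟩ := U.P_surj (U.P X).swap (MM_swap (U.P_mem X))
  obtain ⟨G, g1, g2, g3⟩ := key X X' hX'
  obtain ⟨G', g1', g2', g3'⟩ := key X' X (by rw [hX', Prod.swap_swap])
  have hGG' : ∀ b, G' (G b) = b := fun b =>
    lift_unique U (A := univ) isPreconnected_univ (G := fun b => G' (G b)) (G' := fun b => b)
      (g1'.comp g1).continuousOn continuousOn_id (fun b _ => by rw [g3', g3, Prod.swap_swap])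
      (mem_univ X) (by rw [g2, g2']) b (mem_univ b)
  have hG'G : ∀ b, G (G' b) = b := fun b =>
    lift_unique U (A := univ) isPreconnected_univ (G := fun b => G (G' b)) (G' := fun b => b)
      (g1.comp g1').continuousOn continuousOn_id (fun b _ => by rw [g3, g3', Prod.swap_swap])
      (mem_univ X') (by rw [g2', g2]) b (mem_univ b)
  exact ⟨⟨⟨G, G', hGG', hG'G⟩, g1, g1'⟩, g3⟩

/-- a compact part of `MM` is covered by a compact part of `TT` -/
theorem exists_compact_cover {K : Set (ℂ × ℂ)} (hK : IsCompact K) (hKM : K ⊆ MM) :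
    ∃ K' : Set TT, IsCompact K' ∧ ∀ p ∈ K, ∃ X ∈ K', U.P X = p := by
  have key : ∀ p ∈ K, ∃ V ∈ 𝓝[K] p, ∃ K' : Set TT, IsCompact K' ∧ ∀ q ∈ V, ∃ X ∈ K', U.P X = q := by
    intro p hp
    obtain ⟨X, hX⟩ := U.P_surj p (hKM hp)
    obtain ⟨r, hr, hrM⟩ := Metric.isOpen_iff.1 MM_isOpen (U.P X) (U.P_mem X)
    obtain ⟨s, hs⟩ := exists_sec U X hr hrM
    have hsub : closedBall (U.P X) (r / 2) ⊆ ball (U.P X) r :=
      closedBall_subset_ball (by linarith)
    refine ⟨closedBall p (r / 2), mem_nhdsWithin_of_mem_nhds (closedBall_mem_nhds p (by linarith)),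
      s '' closedBall (U.P X) (r / 2),
      (isCompact_closedBall _ _).image_of_continuousOn (hs.2.2.1.mono hsub), ?_⟩
    intro q hq
    rw [← hX] at hq
    exact ⟨s q, ⟨q, hq, rfl⟩, hs.2.2.2.2 q (hsub hq)⟩
  refine hK.induction_on (p := fun V => ∃ K' : Set TT, IsCompact K' ∧ ∀ q ∈ V, ∃ X ∈ K', U.P X = q)
    ⟨∅, isCompact_empty, by simp⟩ ?_ ?_ key
  · rintro V W hVW ⟨K', h1, h2⟩
    exact ⟨K', h1, fun q hq => h2 q (hVW hq)⟩
  · rintro V W ⟨K', h1, h2⟩ ⟨K'', h1', h2'⟩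
    refine ⟨K' ∪ K'', h1.union h1', ?_⟩
    rintro q (hq | hq)
    · obtain ⟨X, hX, hXq⟩ := h2 q hq
      exact ⟨X, Or.inl hX, hXq⟩
    · obtain ⟨X, hX, hXq⟩ := h2' q hq
      exact ⟨X, Or.inr hX, hXq⟩

/-- lifts through `lam` of functions on convex sets -/
theorem lam_lift (D : ModularData) {E : Type} [NormedAddCommGroup E] [NormedSpace ℝ E] {A : Set E}
    (hA : Convex ℝ A) {g : E → ℂ} (hg : ContinuousOn g A) (hgM : MapsTo g A C01) {a : E}
    (ha : a ∈ A) {t : ℂ} (ht : t ∈ HH) (hX : D.lam t = g a) :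
    ∃ G : E → ℂ, ContinuousOn G A ∧ G a = t ∧ ∀ b ∈ A, G b ∈ HH ∧ D.lam (G b) = g b := by
  classical
  obtain ⟨G, h1, h2, h3⟩ := cov_lift_convex D.lam_cov hA
    (fun b : A => (⟨g b, hgM b.2⟩ : C01))
    (Continuous.subtype_mk (continuousOn_iff_continuous_domRestrict.1 hg) _)
    ⟨a, ha⟩ ⟨t, ht⟩ (Subtype.ext hX)
  refine ⟨fun b => if h : b ∈ A then (G ⟨b, h⟩ : ℂ) else t, ?_, ?_, ?_⟩
  · rw [continuousOn_iff_continuous_domRestrict]
    have : A.domRestrict (fun b => if h : b ∈ A then (G ⟨b, h⟩ : ℂ) else t) =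
        fun b => (G b : ℂ) := by
      funext b
      simp only [Set.domRestrict_apply, b.2, dif_pos]
    rw [this]; exact continuous_subtype_val.comp h1
  · simp only [ha, dif_pos]; rw [h2]
  · intro b hb; simp only [hb, dif_pos]
    exact ⟨(G ⟨b, hb⟩).2, congrArg Subtype.val (h3 ⟨b, hb⟩)⟩

theorem lam_lift_unique (D : ModularData) {E : Type} [TopologicalSpace E] {A : Set E}
    (hA : IsPreconnected A) {G G' : E → ℂ} (hG : ContinuousOn G A) (hG' : ContinuousOn G' A)
    (hH : ∀ b ∈ A, G b ∈ HH) (hH' : ∀ b ∈ A, G' b ∈ HH)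
    (h : ∀ b ∈ A, D.lam (G b) = D.lam (G' b)) {a : E} (ha : a ∈ A) (haa : G a = G' a) :
    ∀ b ∈ A, G b = G' b := by
  have : PreconnectedSpace A := Subtype.preconnectedSpace hA
  let g : A → HH := fun b => ⟨G b, hH b b.2⟩
  let g' : A → HH := fun b => ⟨G' b, hH' b b.2⟩
  have hg : Continuous g := Continuous.subtype_mk (continuousOn_iff_continuous_domRestrict.1 hG) _
  have hg' : Continuous g' :=
    Continuous.subtype_mk (continuousOn_iff_continuous_domRestrict.1 hG') _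
  have := D.lam_cov.eq_of_comp_eq hg hg' (by
    funext b; exact Subtype.ext (h b b.2)) ⟨a, ha⟩ (Subtype.ext haa)
  intro b hb
  exact congrArg Subtype.val (congrFun this ⟨b, hb⟩)

theorem lam_hasStrict (D : ModularData) {τ : ℂ} (hτ : τ ∈ HH) :
    HasStrictDerivAt D.lam (deriv D.lam τ) τ := by
  have h1 : AnalyticAt ℂ D.lam τ := D.lam_diff.analyticAt (HH_isOpen.mem_nhds hτ)
  exact h1.hasStrictDerivAt

/-- continuous lifts through `lam` of holomorphic functions are holomorphic -/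
theorem lam_lift_diff (D : ModularData) {E : Type} [NormedAddCommGroup E] [NormedSpace ℂ E]
    {A : Set E} (hA : IsOpen A) {G : E → ℂ} (hG : ContinuousOn G A) (hH : ∀ b ∈ A, G b ∈ HH)
    (h : DifferentiableOn ℂ (fun b => D.lam (G b)) A) : DifferentiableOn ℂ G A := by
  intro b hb
  have hGc : ContinuousAt G b := (hG b hb).continuousAt (hA.mem_nhds hb)
  have hs := lam_hasStrict D (hH b hb)
  -- local inverse
  have hne := D.lam_deriv (G b) (hH b hb)
  let φ := hs.localInverse D.lam (deriv D.lam (G b)) (G b) hne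
  have hφ : HasStrictDerivAt φ (deriv D.lam (G b))⁻¹ (D.lam (G b)) := hs.to_localInverse hne
  have hev : ∀ᶠ x in 𝓝 (G b), φ (D.lam x) = x := by
    have := (hs.hasStrictFDerivAt_equiv hne).eventually_left_inverse
    exact this
  have hev2 : ∀ᶠ y in 𝓝 b, φ (D.lam (G y)) = G y := hGc hev
  have hd : DifferentiableAt ℂ (fun y => φ (D.lam (G y))) b := by
    have h1 : DifferentiableAt ℂ φ (D.lam (G b)) := hφ.hasDerivAt.differentiableAt
    exact h1.comp b ((h b hb).differentiableAt (hA.mem_nhds hb))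
  exact (hd.congr_of_eventuallyEq (hev2.mono fun y hy => hy.symm)).differentiableWithinAt

/-- lifts through `lam` of functions on `TT` -/
theorem tau_lift (D : ModularData) {u : ℂ × ℂ → ℂ} (hu : DifferentiableOn ℂ u MM)
    (huM : MapsTo u MM C01) (X₀ : TT) {t₀ : ℂ} (ht₀ : t₀ ∈ HH) (h0 : D.lam t₀ = u (U.P X₀)) :
    ∃ τ : TT → ℂ, τ X₀ = t₀ ∧ Continuous τ ∧ U.Hol τ ∧
      ∀ X, τ X ∈ HH ∧ D.lam (τ X) = u (U.P X) := by
  obtain ⟨G, h1, h2, h3⟩ := lam_lift D (convex_univ (E := TT)) (g := fun X => u (U.P X))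
    (hu.continuousOn.comp (P_continuous U).continuousOn (fun b _ => U.P_mem b))
    (fun b _ => huM (U.P_mem b)) (mem_univ X₀) ht₀ h0
  have hc : Continuous G := continuousOn_univ.1 h1
  refine ⟨G, h2, hc, ?_, fun X => h3 X (mem_univ X)⟩
  intro X s r hs
  refine lam_lift_diff D isOpen_ball (hc.comp_continuousOn hs.2.2.1)
    (fun b _ => (h3 _ (mem_univ _)).1) ?_
  have : DifferentiableOn ℂ u (ball (U.P X) r) := hu.mono hs.2.1
  refine this.congr ?_
  intro p hp
  rw [(h3 _ (mem_univ _)).2, hs.2.2.2.2 p hp]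

theorem gam_mem_HH {a b c d : ℤ} (hg : Gam2 a b c d) {τ : ℂ} (hτ : τ ∈ HH) :
    ((a * τ + b) / (c * τ + d) : ℂ) ∈ HH ∧ (c * τ + d : ℂ) ≠ 0 := by
  have hne : (c * τ + d : ℂ) ≠ 0 := by
    intro h
    have him : (c * τ + d : ℂ).im = 0 := by rw [h]; simp
    have h1 : (c : ℝ) * τ.im = 0 := by simpa using him
    have hc : (c : ℝ) = 0 := by
      rcases mul_eq_zero.1 h1 with h | h
      · exact h
      · exact absurd h (ne_of_gt hτ)
    have hc' : c = 0 := by exact_mod_cast hc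
    have hd : (d : ℂ) = 0 := by simpa [hc'] using h
    have hd' : d = 0 := by exact_mod_cast hd
    have := hg.1
    simp [hc', hd'] at this
  refine ⟨?_, hne⟩
  change 0 < ((a * τ + b) / (c * τ + d) : ℂ).im
  have h2 : ((a * τ + b) / (c * τ + d) : ℂ).im = τ.im / Complex.normSq (c * τ + d) := by
    rw [Complex.div_im]
    have hdet : (a : ℝ) * d - b * c = 1 := by exact_mod_cast hg.1
    have hN : Complex.normSq (c * τ + d) ≠ 0 := by
      rwa [Ne, Complex.normSq_eq_zero]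
    simp only [Complex.add_re, Complex.add_im, Complex.mul_re, Complex.mul_im, Complex.intCast_re,
      Complex.intCast_im, zero_mul, sub_zero, add_zero]
    field_simp
    linear_combination (τ.im) * hdet
  rw [h2]
  exact div_pos hτ (Complex.normSq_pos.2 hne)

/-- two continuous lifts through `lam` on a connected set differ by an element of `Gam2` -/
theorem lam_lift_gam (D : ModularData) {E : Type} [TopologicalSpace E] {A : Set E}
    (hA : IsPreconnected A) (hne : A.Nonempty) {G G' : E → ℂ} (hG : ContinuousOn G A)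
    (hG' : ContinuousOn G' A) (hH : ∀ b ∈ A, G b ∈ HH) (hH' : ∀ b ∈ A, G' b ∈ HH)
    (h : ∀ b ∈ A, D.lam (G b) = D.lam (G' b)) :
    ∃ a b c d : ℤ, Gam2 a b c d ∧ ∀ x ∈ A, G' x = (a * G x + b) / (c * G x + d) := by
  obtain ⟨x₀, hx₀⟩ := hne
  obtain ⟨a, b, c, d, hg, he⟩ := D.lam_eq (G x₀) (hH x₀ hx₀) (G' x₀) (hH' x₀ hx₀) (h x₀ hx₀)
  refine ⟨a, b, c, d, hg, ?_⟩
  refine lam_lift_unique D hA hG' (G' := fun x => (a * G x + b) / (c * G x + d)) ?_ hH'
    (fun x hx => (gam_mem_HH hg (hH x hx)).1) ?_ hx₀ he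
  · apply ContinuousOn.div (by fun_prop) (by fun_prop)
    intro x hx
    exact (gam_mem_HH hg (hH x hx)).2
  · intro x hx
    rw [D.lam_inv a b c d hg (G x) (hH x hx), h x hx]

/-- convergence of lifts -/
theorem lift_tendsto {ι : Type*} {l : Filter ι} {E : Type} [NormedAddCommGroup E]
    [NormedSpace ℝ E] {A : Set E} (hA : Convex ℝ A) {G : ι → E → TT} {G' : E → TT}
    (hG : ∀ᶠ n in l, ContinuousOn (G n) A) (hG' : ContinuousOn G' A)
    (h : TendstoLocallyUniformlyOn (fun n b => U.P (G n b)) (fun b => U.P (G' b)) l A)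
    {a : E} (ha : a ∈ A) (haa : Tendsto (fun n => G n a) l (𝓝 (G' a))) :
    ∀ b ∈ A, Tendsto (fun n => G n b) l (𝓝 (G' b)) := by
  -- local statement: near every point convergence at one point gives convergence at all points
  have key : ∀ x ∈ A, ∃ ρ > 0, ∀ y ∈ ball x ρ ∩ A, Tendsto (fun n => G n y) l (𝓝 (G' y)) →
      ∀ z ∈ ball x ρ ∩ A, Tendsto (fun n => G n z) l (𝓝 (G' z)) := by
    intro x hx
    obtain ⟨r, hr, hrM⟩ := Metric.isOpen_iff.1 MM_isOpen (U.P (G' x)) (U.P_mem (G' x))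
    obtain ⟨s, hs⟩ := exists_sec U (G' x) hr hrM
    have hPG' : ContinuousOn (fun b => U.P (G' b)) A := (P_continuous U).comp_continuousOn hG'
    -- uniform closeness near x
    obtain ⟨V, hV, hVn⟩ := Metric.tendstoLocallyUniformlyOn_iff.1 h (r / 2) (by linarith) x hx
    have hc : ∀ᶠ y in 𝓝[A] x, dist (U.P (G' y)) (U.P (G' x)) < r / 2 :=
      (hPG' x hx) (ball_mem_nhds _ (by linarith))
    obtain ⟨ρ, hρ, hρV⟩ := Metric.mem_nhdsWithin_iff.1 (inter_mem hV hc)
    refine ⟨ρ, hρ, ?_⟩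
    intro y hy hyt z hz
    have hconv : Convex ℝ (ball x ρ ∩ A) := (convex_ball x ρ).inter hA
    -- G' = s ∘ P ∘ G' on the small set
    have hG's : ∀ w ∈ ball x ρ ∩ A, G' w = s (U.P (G' w)) := by
      refine lift_unique U hconv.isPreconnected (hG'.mono inter_subset_right) ?_ ?_
        (a := x) ⟨mem_ball_self hρ, hx⟩ ?_
      · refine hs.2.2.1.comp (hPG'.mono inter_subset_right) ?_
        intro w hw
        have := (hρV hw).2
        simp only [mem_ofPred_eq] at this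
        rw [mem_ball]; linarith
      · intro w hw
        have := (hρV hw).2
        simp only [mem_ofPred_eq] at this
        rw [hs.2.2.2.2 _ (by rw [mem_ball]; linarith)]
      · exact hs.2.2.2.1.symm
    have hmem : ∀ w ∈ ball x ρ ∩ A, U.P (G' w) ∈ ball (U.P (G' x)) r := by
      intro w hw
      have := (hρV hw).2
      simp only [mem_ofPred_eq] at this
      rw [mem_ball]; linarith
    -- eventually `G n w = s (P (G n w))` on the small set
    have hev : ∀ᶠ n in l, ∀ w ∈ ball x ρ ∩ A, G n w = s (U.P (G n w)) := by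
      have hyo : ∀ᶠ n in l, G n y ∈ s '' ball (U.P (G' x)) r := by
        apply hyt
        refine (sec_isOpen U hs).mem_nhds ⟨U.P (G' y), hmem y hy, ?_⟩
        exact (hG's y hy).symm
      filter_upwards [hyo, hG, hVn] with n hn1 hn2 hn3
      have hmem2 : ∀ w ∈ ball x ρ ∩ A, U.P (G n w) ∈ ball (U.P (G' x)) r := by
        intro w hw
        have h1 := (hρV hw).2
        have h2 := hn3 w (hρV hw).1
        simp only [mem_ofPred_eq] at h1
        rw [mem_ball]
        calc dist (U.P (G n w)) (U.P (G' x))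
            ≤ dist (U.P (G n w)) (U.P (G' w)) + dist (U.P (G' w)) (U.P (G' x)) :=
              dist_triangle _ _ _
          _ < r / 2 + r / 2 := by rw [dist_comm (U.P (G n w))]; linarith
          _ = r := by ring
      refine lift_unique U hconv.isPreconnected (hn2.mono inter_subset_right) ?_ ?_
        (a := y) hy ?_
      · refine hs.2.2.1.comp ((P_continuous U).comp_continuousOn (hn2.mono inter_subset_right)) ?_
        intro w hw; exact hmem2 w hw
      · intro w hw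
        rw [hs.2.2.2.2 _ (hmem2 w hw)]
      · obtain ⟨q, hq, hqe⟩ := hn1

        rw [← hqe, hs.2.2.2.2 q hq]
    have hcs : ContinuousAt s (U.P (G' z)) :=
      (hs.2.2.1 _ (hmem z hz)).continuousAt (isOpen_ball.mem_nhds (hmem z hz))
    have hPt : Tendsto (fun n => U.P (G n z)) l (𝓝 (U.P (G' z))) := h.tendsto_at hz.2
    have h3 : Tendsto (fun n => s (U.P (G n z))) l (𝓝 (s (U.P (G' z)))) := hcs.tendsto.comp hPt
    rw [← hG's z hz] at h3
    refine h3.congr' ?_
    filter_upwards [hev] with n hn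
    exact (hn z hz).symm
  -- clopen argument on the connected set `A`
  have hpre : IsPreconnected A := hA.isPreconnected
  let S : Set E := {x | x ∈ A ∧ Tendsto (fun n => G n x) l (𝓝 (G' x))}
  have h1 : ∀ x ∈ A, ∃ O : Set E, IsOpen O ∧ x ∈ O ∧ ((∀ y ∈ O ∩ A, y ∈ S) ∨ (∀ y ∈ O ∩ A, y ∉ S)) := by
    intro x hx
    obtain ⟨ρ, hρ, hk⟩ := key x hx
    refine ⟨ball x ρ, isOpen_ball, mem_ball_self hρ, ?_⟩
    by_cases hxs : Tendsto (fun n => G n x) l (𝓝 (G' x))
    · left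
      intro y hy
      exact ⟨hy.2, hk x ⟨mem_ball_self hρ, hx⟩ hxs y hy⟩
    · right
      intro y hy hyS
      exact hxs (hk y hy hyS.2 x ⟨mem_ball_self hρ, hx⟩)
  choose! O hO1 hO2 hO3 using h1
  let P1 : Set E := ⋃ x ∈ {x | x ∈ A ∧ x ∈ S}, O x
  let P2 : Set E := ⋃ x ∈ {x | x ∈ A ∧ x ∉ S}, O x
  have hP1 : IsOpen P1 := isOpen_biUnion fun x hx => hO1 x hx.1
  have hP2 : IsOpen P2 := isOpen_biUnion fun x hx => hO1 x hx.1
  intro b hb
  by_contra hcon
  have hbS : b ∉ S := fun h => hcon h.2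
  have haS : a ∈ S := ⟨ha, haa⟩
  have hcov : A ⊆ P1 ∪ P2 := by
    intro x hx
    by_cases hxS : x ∈ S
    · exact Or.inl (mem_biUnion (show x ∈ {x | x ∈ A ∧ x ∈ S} from ⟨hx, hxS⟩) (hO2 x hx))
    · exact Or.inr (mem_biUnion (show x ∈ {x | x ∈ A ∧ x ∉ S} from ⟨hx, hxS⟩) (hO2 x hx))
  obtain ⟨z, hzA, hz1, hz2⟩ := hpre P1 P2 hP1 hP2 hcov
    ⟨a, ha, mem_biUnion (show a ∈ {x | x ∈ A ∧ x ∈ S} from ⟨ha, haS⟩) (hO2 a ha)⟩
    ⟨b, hb, mem_biUnion (show b ∈ {x | x ∈ A ∧ x ∉ S} from ⟨hb, hbS⟩) (hO2 b hb)⟩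
  obtain ⟨x, hx, hzx⟩ := mem_iUnion₂.1 hz1
  obtain ⟨y, hy, hzy⟩ := mem_iUnion₂.1 hz2
  have e1 : z ∈ S := by
    rcases hO3 x hx.1 with h | h
    · exact h z ⟨hzx, hzA⟩
    · exact absurd hx.2 (h x ⟨hO2 x hx.1, hx.1⟩)
  have e2 : z ∉ S := by
    rcases hO3 y hy.1 with h | h
    · exact absurd (h y ⟨hO2 y hy.1, hy.1⟩) hy.2
    · exact h z ⟨hzy, hzA⟩
  exact e2 e1

end Pool.Agent.T05
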