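import Pool.Agent.Lib.MP_0162a5_an.S
import Pool.Agent.Lib.MP_0162a5_an.T
import Pool.Agent.Lib.MP_0162a5_an.C

/-! MODULE D1: near-identity holomorphic self-maps of `TT` exist if `QX` holds. -/

set_option autoImplicit false

open Complex Metric Set Filter Topology

namespace Pool.Agent.T05

variable (U : UnivCover)

theorem Sec.shrink {s : ℂ × ℂ → TT} {X : TT} {R r : ℝ} (hs : U.Sec s X R) (hr : 0 < r)
    (h : r ≤ R) : U.Sec s X r := by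
  obtain ⟨_, h2, h3, h4, h5⟩ := hs
  have hsub : ball (U.P X) r ⊆ ball (U.P X) R := ball_subset_ball h
  exact ⟨hr, hsub.trans h2, h3.mono hsub, h4, fun p hp => h5 p (hsub hp)⟩

/-- the stage construction: a homotopy of the inclusions of the charts -/
theorem stage (hQ : QX) (k : ℕ) (c : Fin k → ℂ × ℂ → TT)
    (hc : ∀ i, ContinuousOn (c i) (closedBall 0 1))
    (hinj : ∀ i, InjOn (c i) (closedBall 0 1))
    (hP : ∀ i, ∃ (p : ℂ × ℂ) (r : ℂ), ∀ ζ ∈ closedBall (0 : ℂ × ℂ) 1, U.P (c i ζ) = p + r • ζ)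
    (T : Finset TT) (hT : T.Nonempty) :
    ∃ f : ℝ → Fin k → ℂ × ℂ → TT,
      (∀ i, ContinuousOn (fun q : ℝ × (ℂ × ℂ) => f q.1 i q.2) (Icc 0 1 ×ˢ closedBall 0 1)) ∧
      (∀ i, ∀ ζ ∈ closedBall (0 : ℂ × ℂ) 1, f 0 i ζ = c i ζ) ∧
      (∃ a, ∀ i, ∀ ζ ∈ closedBall (0 : ℂ × ℂ) 1, U.P (f 1 i ζ) = a) ∧
      (∀ t ∈ Icc (0 : ℝ) 1, ∀ i, DifferentiableOn ℂ (fun ζ => U.P (f t i ζ)) (ball 0 1)) ∧
      (∀ t ∈ Icc (0 : ℝ) 1, ∀ i j, ∀ ζ ∈ closedBall (0 : ℂ × ℂ) 1,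
        ∀ ζ' ∈ closedBall (0 : ℂ × ℂ) 1, c i ζ = c j ζ' → c i ζ ∈ T → f t i ζ = f t j ζ') := by
  classical
  -- the pieces
  let φ : TT → ℝ := fun X => infDist X (T : Set TT)
  have hφ : Continuous φ := continuous_infDist_pt _
  let e : Fin k → ℂ × ℂ → (Fin (4 + k) → ℝ) := fun i ζ =>
    Fin.append (c i ζ) (Pi.single i (φ (c i ζ)))
  let pr : (Fin (4 + k) → ℝ) → TT := fun q m => q (Fin.castAdd k m)
  have hpr : Continuous pr := by fun_prop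
  have hpre : ∀ i ζ, pr (e i ζ) = c i ζ := by
    intro i ζ; funext m; simp only [pr, e, Fin.append_left]
  have he : ∀ i, ContinuousOn (e i) (closedBall 0 1) := by
    intro i
    rw [continuousOn_pi]
    intro m
    refine Fin.addCases (fun m => ?_) (fun m => ?_) m
    · simp only [e, Fin.append_left]
      exact (continuousOn_pi.1 (hc i)) m
    · simp only [e, Fin.append_right]
      by_cases hm : m = i
      · subst hm
        simp only [Pi.single_eq_same]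
        exact hφ.comp_continuousOn (hc m)
      · simp only [Pi.single_eq_of_ne hm]
        exact continuousOn_const
  have heinj : ∀ i, InjOn (e i) (closedBall 0 1) := by
    intro i ζ hζ ζ' hζ' h
    apply hinj i hζ hζ'
    rw [← hpre i ζ, ← hpre i ζ', h]
  -- a big radius
  have hbd : ∃ R : ℝ, 0 < R ∧ ∀ i, MapsTo (e i) (closedBall 0 1) (closedBall 0 R) := by
    have h1 : ∀ i, ∃ R : ℝ, MapsTo (e i) (closedBall 0 1) (closedBall 0 R) := by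
      intro i
      have hcomp : IsCompact (e i '' closedBall 0 1) :=
        (isCompact_closedBall _ _).image_of_continuousOn (he i)
      obtain ⟨R, hR⟩ := hcomp.isBounded.subset_closedBall 0
      exact ⟨R, fun ζ hζ => hR ⟨ζ, hζ, rfl⟩⟩
    choose R hR using h1
    refine ⟨1 + ∑ i, |R i|, by positivity, ?_⟩
    intro i ζ hζ
    have h2 := hR i hζ
    have h3 : |R i| ≤ ∑ i, |R i| :=
      Finset.single_le_sum (f := fun i => |R i|) (fun j _ => abs_nonneg (R j)) (Finset.mem_univ i)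
    rw [mem_closedBall] at h2 ⊢
    have := le_abs_self (R i)
    linarith
  obtain ⟨R, hR, hmaps⟩ := hbd
  let S : Finset (Fin (4 + k) → ℝ) := T.image (fun x => Fin.append x 0)
  have hTc : IsClosed (T : Set TT) := T.finite_toSet.isClosed
  have hS : ∀ i j, i ≠ j → ∀ ζ ∈ closedBall (0 : ℂ × ℂ) 1, ∀ ζ' ∈ closedBall (0 : ℂ × ℂ) 1,
      e i ζ = e j ζ' → e i ζ ∈ S := by
    intro i j hij ζ hζ ζ' hζ' h
    have h1 : φ (c i ζ) = 0 := by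
      have h2 := congrFun h (Fin.natAdd 4 i)
      simp only [e, Fin.append_right, Pi.single_eq_same, Pi.single_eq_of_ne hij] at h2
      exact h2
    have h3 : c i ζ ∈ (T : Set TT) := by
      rw [hTc.mem_iff_infDist_zero (by simpa using hT)]
      exact h1
    rw [Finset.mem_image]
    refine ⟨c i ζ, by simpa using h3, ?_⟩
    simp only [e, h1, Pi.single_zero]
  obtain ⟨H, H1, H2, ⟨a, H3⟩, H4, H5⟩ := extraction hQ (4 + k) k R hR e he heinj hmaps S hS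
    (fun q => U.P (pr q)) ((P_continuous U).comp hpr).continuousOn (fun x _ => U.P_mem _)
    (by
      intro i
      obtain ⟨p, r, h⟩ := hP i
      refine ⟨p, r, fun ζ hζ => ?_⟩
      simp only [hpre]
      exact h ζ hζ)
  -- lift the homotopy
  have hA : Convex ℝ ((Icc 0 1 : Set ℝ) ×ˢ closedBall (0 : Fin (4 + k) → ℝ) R) :=
    (convex_Icc 0 1).prod (convex_closedBall 0 R)
  have h00 : (0 : Fin (4 + k) → ℝ) ∈ closedBall (0 : Fin (4 + k) → ℝ) R :=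
    mem_closedBall_self hR.le
  obtain ⟨Ht, L1, L2, L3⟩ := lift_convex U hA (g := fun q => H q.1 q.2) H1
    (fun q hq => H4 q.1 hq.1 q.2 hq.2) (a := ((0 : ℝ), (0 : Fin (4 + k) → ℝ)))
    ⟨by simp, h00⟩ (X := pr 0) (by simp only; rw [H2 0 h00])
  have L0 : ∀ q ∈ closedBall (0 : Fin (4 + k) → ℝ) R, Ht (0, q) = pr q := by
    refine lift_unique U (convex_closedBall (0 : Fin (4 + k) → ℝ) R).isPreconnected ?_
      hpr.continuousOn ?_ (a := 0) h00 L2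
    · refine L1.comp (by fun_prop) ?_
      intro q hq
      exact ⟨by simp, hq⟩
    · intro q hq
      rw [L3 (0, q) ⟨by simp, hq⟩]
      exact H2 q hq
  refine ⟨fun t i ζ => Ht (t, e i ζ), ?_, ?_, ⟨a, ?_⟩, ?_, ?_⟩
  · intro i
    refine L1.comp (f := fun q : ℝ × (ℂ × ℂ) => (q.1, e i q.2)) ?_ ?_
    · refine continuousOn_fst.prodMk ?_
      exact (he i).comp continuousOn_snd (fun q hq => hq.2)
    · intro q hq
      exact ⟨hq.1, hmaps i hq.2⟩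
  · intro i ζ hζ
    simp only
    rw [L0 _ (hmaps i hζ), hpre]
  · intro i ζ hζ
    simp only
    rw [L3 (1, e i ζ) ⟨by simp, hmaps i hζ⟩]
    exact H3 _ (hmaps i hζ)
  · intro t ht i
    refine (H5 t ht i).congr ?_
    intro ζ hζ
    simp only
    rw [L3 (t, e i ζ) ⟨ht, hmaps i (ball_subset_closedBall hζ)⟩]
  · intro t ht i j ζ hζ ζ' hζ' h hT'
    have h1 : φ (c i ζ) = 0 := by
      have : c i ζ ∈ (T : Set TT) := by simpa using hT'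
      exact (hTc.mem_iff_infDist_zero (by simpa using hT)).1 this
    have h2 : e i ζ = e j ζ' := by
      simp only [e, ← h, h1, Pi.single_zero]
    simp only [h2]

/-- the first time at which the displacement is `ε` -/
theorem first_time {s : ℂ × ℂ → TT} {X₀ : TT} {R r₀ ρ₀ ε : ℝ} (hs : U.Sec s X₀ R)
    (hr₀ : 0 < r₀) (h1 : r₀ < ρ₀) (hε : 0 < ε) (hε1 : ε < r₀) (hε2 : ε < R - r₀)
    (f : ℝ → ℂ × ℂ → TT)
    (hf : ContinuousOn (fun q : ℝ × (ℂ × ℂ) => f q.1 q.2) (Icc 0 1 ×ˢ closedBall 0 1))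
    (h0 : ∀ ζ ∈ closedBall (0 : ℂ × ℂ) 1, f 0 ζ = s (U.P X₀ + (ρ₀ : ℂ) • ζ))
    (hconst : ∃ a, ∀ ζ ∈ closedBall (0 : ℂ × ℂ) 1, U.P (f 1 ζ) = a) :
    ∃ t ∈ Icc (0 : ℝ) 1, (∀ ζ ∈ closedBall (0 : ℂ × ℂ) (r₀ / ρ₀),
      ‖U.P (f t ζ) - (U.P X₀ + (ρ₀ : ℂ) • ζ)‖ ≤ ε ∧ f t ζ = s (U.P (f t ζ))) ∧
      ∃ ζ ∈ closedBall (0 : ℂ × ℂ) (r₀ / ρ₀), ‖U.P (f t ζ) - (U.P X₀ + (ρ₀ : ℂ) • ζ)‖ = ε := by
  have hρ₀ : 0 < ρ₀ := hr₀.trans h1
  have hle : r₀ / ρ₀ ≤ 1 := by rw [div_le_one hρ₀]; exact h1.le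
  have hsub : closedBall (0 : ℂ × ℂ) (r₀ / ρ₀) ⊆ closedBall 0 1 := closedBall_subset_closedBall hle
  -- the displacement function
  let g : ℝ × (ℂ × ℂ) → ℝ := fun q => ‖U.P (f q.1 q.2) - (U.P X₀ + (ρ₀ : ℂ) • q.2)‖
  let A : Set (ℝ × (ℂ × ℂ)) := Icc 0 1 ×ˢ closedBall 0 (r₀ / ρ₀)
  have hA : IsCompact A := isCompact_Icc.prod (isCompact_closedBall _ _)
  have hg : ContinuousOn g A := by
    have h2 : ContinuousOn (fun q : ℝ × (ℂ × ℂ) => U.P (f q.1 q.2)) A :=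
      (P_continuous U).comp_continuousOn (hf.mono (prod_mono_right hsub))
    exact (h2.sub (by fun_prop)).norm
  have hin : ∀ ζ ∈ closedBall (0 : ℂ × ℂ) (r₀ / ρ₀), ‖(ρ₀ : ℂ) • ζ‖ ≤ r₀ := by
    intro ζ hζ
    rw [mem_closedBall_zero_iff] at hζ
    rw [norm_smul, Complex.norm_real, Real.norm_eq_abs, abs_of_pos hρ₀]
    calc ρ₀ * ‖ζ‖ ≤ ρ₀ * (r₀ / ρ₀) := by gcongr
      _ = r₀ := by field_simp
  have hinR : ∀ ζ ∈ closedBall (0 : ℂ × ℂ) (r₀ / ρ₀),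
      U.P X₀ + (ρ₀ : ℂ) • ζ ∈ ball (U.P X₀) R := by
    intro ζ hζ
    rw [mem_ball, dist_eq_norm, add_sub_cancel_left]
    have := hin ζ hζ
    linarith
  have hg0 : ∀ ζ ∈ closedBall (0 : ℂ × ℂ) (r₀ / ρ₀), g (0, ζ) = 0 := by
    intro ζ hζ
    simp only [g]
    rw [h0 ζ (hsub hζ), hs.2.2.2.2 _ (hinR ζ hζ), sub_self, norm_zero]
  -- continuity along the time segment
  have hgt : ∀ ζ ∈ closedBall (0 : ℂ × ℂ) (r₀ / ρ₀), ∀ t ∈ Icc (0 : ℝ) 1,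
      ContinuousOn (fun τ => g (τ, ζ)) (Icc 0 t) := by
    intro ζ hζ t ht
    refine hg.comp (f := fun τ : ℝ => (τ, ζ)) (by fun_prop) ?_
    intro τ hτ
    exact ⟨⟨hτ.1, hτ.2.trans ht.2⟩, hζ⟩
  have hivt : ∀ ζ ∈ closedBall (0 : ℂ × ℂ) (r₀ / ρ₀), ∀ t ∈ Icc (0 : ℝ) 1, ε ≤ g (t, ζ) →
      ∃ τ ∈ Icc 0 t, g (τ, ζ) = ε := by
    intro ζ hζ t ht h
    have h2 := intermediate_value_Icc ht.1 (hgt ζ hζ t ht)
    have h3 : ε ∈ Icc (g (0, ζ)) (g (t, ζ)) := ⟨by rw [hg0 ζ hζ]; exact hε.le, h⟩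
    obtain ⟨τ, hτ, hτ2⟩ := h2 h3
    exact ⟨τ, hτ, hτ2⟩
  let S : Set ℝ := Prod.fst '' (A ∩ g ⁻¹' {ε})
  have hScomp : IsCompact S := by
    apply IsCompact.image _ continuous_fst
    exact hA.of_isClosed_subset (hg.preimage_isClosed_of_isClosed hA.isClosed isClosed_singleton)
      inter_subset_left
  have hSne : S.Nonempty := by
    obtain ⟨a, ha⟩ := hconst
    -- one of the two points ± has large displacement
    have h2 : ∃ ζ ∈ closedBall (0 : ℂ × ℂ) (r₀ / ρ₀), ε ≤ g (1, ζ) := by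
      by_contra hcon
      push Not at hcon
      let z : ℂ × ℂ := (((r₀ / ρ₀ : ℝ) : ℂ), 0)
      have hzn : ‖z‖ = r₀ / ρ₀ := by
        simp only [z, Prod.norm_mk, norm_zero]
        rw [Complex.norm_real, Real.norm_eq_abs, abs_of_pos (div_pos hr₀ hρ₀)]
        exact max_eq_left (div_pos hr₀ hρ₀).le
      have hz : z ∈ closedBall (0 : ℂ × ℂ) (r₀ / ρ₀) := by
        rw [mem_closedBall_zero_iff, hzn]
      have hz' : -z ∈ closedBall (0 : ℂ × ℂ) (r₀ / ρ₀) := by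
        rw [mem_closedBall_zero_iff, norm_neg, hzn]
      have e1 := hcon z hz
      have e2 := hcon (-z) hz'
      simp only [g] at e1 e2
      rw [ha z (hsub hz)] at e1
      rw [ha (-z) (hsub hz')] at e2
      have e3 : ‖(a - (U.P X₀ + (ρ₀ : ℂ) • -z)) - (a - (U.P X₀ + (ρ₀ : ℂ) • z))‖ = 2 * r₀ := by
        have : (a - (U.P X₀ + (ρ₀ : ℂ) • -z)) - (a - (U.P X₀ + (ρ₀ : ℂ) • z)) =
            (2 * ρ₀ : ℂ) • z := by
          rw [smul_neg, mul_smul, two_smul]; abel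
        rw [this, norm_smul, hzn, norm_mul, Complex.norm_real, Real.norm_eq_abs, abs_of_pos hρ₀]
        simp only [Complex.norm_ofNat]
        field_simp
      have e4 := norm_sub_le (a - (U.P X₀ + (ρ₀ : ℂ) • -z)) (a - (U.P X₀ + (ρ₀ : ℂ) • z))
      rw [e3] at e4
      linarith
    obtain ⟨ζ, hζ, hgζ⟩ := h2
    obtain ⟨τ, hτ, hτ2⟩ := hivt ζ hζ 1 (by simp) hgζ
    exact ⟨τ, (τ, ζ), ⟨⟨hτ, hζ⟩, hτ2⟩, rfl⟩
  obtain ⟨t, htS, htmin⟩ := hScomp.exists_isLeast hSne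
  obtain ⟨⟨t', ζ₁⟩, ⟨⟨ht1, hζ₁⟩, hgt1⟩, rfl⟩ := htS
  simp only at ht1 hζ₁ hgt1 htmin ⊢
  have hsmall : ∀ ζ ∈ closedBall (0 : ℂ × ℂ) (r₀ / ρ₀), ∀ τ ∈ Icc 0 t', g (τ, ζ) ≤ ε := by
    intro ζ hζ τ hτ
    by_contra hcon
    push Not at hcon
    obtain ⟨τ', hτ', hτ2⟩ := hivt ζ hζ τ ⟨hτ.1, hτ.2.trans ht1.2⟩ hcon.le
    have h2 : τ' ∈ S := ⟨(τ', ζ), ⟨⟨⟨hτ'.1, hτ'.2.trans (hτ.2.trans ht1.2)⟩, hζ⟩, hτ2⟩, rfl⟩
    have h3 : t' ≤ τ' := htmin h2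
    have h4 : τ' = τ := le_antisymm hτ'.2 (hτ.2.trans h3)
    rw [h4] at hτ2
    exact absurd hτ2 hcon.ne'
  refine ⟨t', ht1, ?_, ζ₁, hζ₁, hgt1⟩
  intro ζ hζ
  refine ⟨hsmall ζ hζ t' ⟨ht1.1, le_rfl⟩, ?_⟩
  -- same sheet
  have hball : ∀ τ ∈ Icc 0 t', U.P (f τ ζ) ∈ ball (U.P X₀) R := by
    intro τ hτ
    have h2 := hsmall ζ hζ τ hτ
    simp only [g] at h2
    have h3 := hin ζ hζ
    rw [mem_ball, dist_eq_norm]
    calc ‖U.P (f τ ζ) - U.P X₀‖ = ‖(U.P (f τ ζ) - (U.P X₀ + (ρ₀ : ℂ) • ζ)) + (ρ₀ : ℂ) • ζ‖ := by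
          congr 1; abel
      _ ≤ ‖U.P (f τ ζ) - (U.P X₀ + (ρ₀ : ℂ) • ζ)‖ + ‖(ρ₀ : ℂ) • ζ‖ := norm_add_le _ _
      _ < R := by linarith
  have hfc : ContinuousOn (fun τ => f τ ζ) (Icc 0 t') := by
    refine hf.comp (f := fun τ : ℝ => (τ, ζ)) (by fun_prop) ?_
    intro τ hτ
    exact ⟨⟨hτ.1, hτ.2.trans ht1.2⟩, hsub hζ⟩
  refine lift_unique U (isPreconnected_Icc (a := (0 : ℝ)) (b := t')) hfc
    (G' := fun τ => s (U.P (f τ ζ))) ?_ ?_ (a := 0) ⟨le_rfl, ht1.1⟩ ?_ t' ⟨ht1.1, le_rfl⟩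
  · exact hs.2.2.1.comp ((P_continuous U).comp_continuousOn hfc) hball
  · intro τ hτ
    rw [hs.2.2.2.2 _ (hball τ hτ)]
  · rw [h0 ζ (hsub hζ), hs.2.2.2.2 _ (hinR ζ hζ)]

/-- propagation of convergence from a point to a whole chart -/
theorem propagate (D : ModularData) (l : Ultrafilter ℕ) (Fn : ℕ → ℂ × ℂ → TT)
    (hc : ∀ᶠ n in (l : Filter ℕ), ContinuousOn (Fn n) (ball 0 1))
    (hd : ∀ᶠ n in (l : Filter ℕ), DifferentiableOn ℂ (fun ζ => U.P (Fn n ζ)) (ball 0 1))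
    {ζ₀ : ℂ × ℂ} (hζ₀ : ζ₀ ∈ ball (0 : ℂ × ℂ) 1) {Y : TT}
    (hY : Tendsto (fun n => Fn n ζ₀) l (𝓝 Y)) :
    ∃ F : ℂ × ℂ → TT, ContinuousOn F (ball 0 1) ∧
      DifferentiableOn ℂ (fun ζ => U.P (F ζ)) (ball 0 1) ∧
      TendstoLocallyUniformlyOn (fun n ζ => U.P (Fn n ζ)) (fun ζ => U.P (F ζ)) l (ball 0 1) ∧
      ∀ ζ ∈ ball (0 : ℂ × ℂ) 1, Tendsto (fun n => Fn n ζ) l (𝓝 (F ζ)) := by
  -- a compact neighbourhood of `P Y`
  obtain ⟨r, hr, hrM⟩ := Metric.isOpen_iff.1 MM_isOpen (U.P Y) (U.P_mem Y)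
  have hK0 : closedBall (U.P Y) (r / 2) ⊆ MM :=
    (closedBall_subset_ball (by linarith)).trans hrM
  have hPY : Tendsto (fun n => U.P (Fn n ζ₀)) l (𝓝 (U.P Y)) :=
    ((P_continuous U).tendsto Y).comp hY
  have hev : ∀ᶠ n in (l : Filter ℕ), U.P (Fn n ζ₀) ∈ closedBall (U.P Y) (r / 2) :=
    hPY (closedBall_mem_nhds _ (by linarith))
  have hcomp : ∀ ρ < (1 : ℝ), ∃ K1 : Set (ℂ × ℂ), IsCompact K1 ∧ K1 ⊆ MM ∧
      ∀ᶠ n in (l : Filter ℕ), ∀ z ∈ closedBall (0 : ℂ × ℂ) ρ, U.P (Fn n z) ∈ K1 := by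
    intro ρ hρ
    let ρ' : ℝ := max (max ρ ‖ζ₀‖) (1 / 2)
    have hρ'0 : 0 < ρ' := lt_of_lt_of_le (by norm_num) (le_max_right _ _)
    have hζn : ‖ζ₀‖ < 1 := by rwa [mem_ball_zero_iff] at hζ₀
    have hρ'1 : ρ' < 1 := max_lt (max_lt hρ hζn) (by norm_num)
    have hρρ' : ρ ≤ ρ' := (le_max_left _ _).trans (le_max_left _ _)
    have hζρ' : ‖ζ₀‖ ≤ ρ' := (le_max_right _ _).trans (le_max_left _ _)
    obtain ⟨K1, hK1, hK1M, hS⟩ := schottky2 D (isCompact_closedBall (U.P Y) (r / 2)) hK0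
      hρ'0 hρ'1
    refine ⟨K1, hK1, hK1M, ?_⟩
    filter_upwards [hev, hd] with n hn hnd z hz
    refine hS 0 1 (fun ζ => U.P (Fn n ζ)) one_pos hnd (fun ζ _ => U.P_mem _) ζ₀ ?_ hn z ?_
    · rw [mul_one, mem_closedBall_zero_iff]; exact hζρ'
    · rw [mul_one]; exact closedBall_subset_closedBall hρρ' hz
  obtain ⟨f, hf, hlim⟩ := montel l (p := (0 : ℂ × ℂ)) (r := 1)
    (F := fun n ζ => U.P (Fn n ζ)) hd (by
      intro ρ hρ
      obtain ⟨K1, hK1, _, hev1⟩ := hcomp ρ hρ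
      obtain ⟨C, hC⟩ := hK1.isBounded.exists_norm_le
      refine ⟨C, ?_⟩
      filter_upwards [hev1] with n hn z hz
      exact hC _ (hn z (ball_subset_closedBall hz)))
  have hpt : ∀ ζ ∈ ball (0 : ℂ × ℂ) 1, Tendsto (fun n => U.P (Fn n ζ)) l (𝓝 (f ζ)) :=
    fun ζ hζ => hlim.tendsto_at hζ
  have hfM : MapsTo f (ball 0 1) MM := by
    intro ζ hζ
    obtain ⟨K1, hK1, hK1M, hev1⟩ := hcomp ‖ζ‖ (by rwa [mem_ball_zero_iff] at hζ)
    apply hK1M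
    refine hK1.isClosed.mem_of_tendsto (hpt ζ hζ) ?_
    filter_upwards [hev1] with n hn
    exact hn ζ (by rw [mem_closedBall_zero_iff])
  have hYf : U.P Y = f ζ₀ := tendsto_nhds_unique hPY (hpt ζ₀ hζ₀)
  obtain ⟨F, F1, F2, F3⟩ := lift_convex U (convex_ball (0 : ℂ × ℂ) 1) (g := f) hf.continuousOn
    hfM hζ₀ hYf
  have hlim' : TendstoLocallyUniformlyOn (fun n ζ => U.P (Fn n ζ)) (fun ζ => U.P (F ζ)) l
      (ball 0 1) := hlim.congr_right (fun ζ hζ => (F3 ζ hζ).symm)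
  refine ⟨F, F1, hf.congr (fun ζ hζ => F3 ζ hζ), hlim', ?_⟩
  exact lift_tendsto U (convex_ball (0 : ℂ × ℂ) 1) hc F1 hlim' hζ₀ (by rw [F2]; exact hY)

/-- countably many charts cover `TT`, the first one being the given one -/
theorem exists_charts {X₀ : TT} {s : ℂ × ℂ → TT} {R : ℝ} (hs : U.Sec s X₀ R) {ρ₀ : ℝ}
    (hρ₀ : 0 < ρ₀) (h : ρ₀ < R) :
    ∃ (q : ℕ → ℂ × ℂ) (r : ℕ → ℝ) (sc : ℕ → ℂ × ℂ → TT),
      q 0 = U.P X₀ ∧ r 0 = ρ₀ ∧ sc 0 = s ∧ (∀ i, 0 < r i) ∧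
      (∀ i, ContinuousOn (sc i) (closedBall (q i) (r i))) ∧
      (∀ i, ∀ p ∈ closedBall (q i) (r i), U.P (sc i p) = p) ∧
      (∀ i, IsOpen (sc i '' ball (q i) (r i))) ∧
      (∀ X, ∃ i, X ∈ sc i '' ball (q i) (r i)) := by
  have key : ∀ X : TT, ∃ (r : ℝ) (s : ℂ × ℂ → TT), 0 < r ∧ U.Sec s X (2 * r) := by
    intro X
    obtain ⟨r, hr, hrM⟩ := Metric.isOpen_iff.1 MM_isOpen (U.P X) (U.P_mem X)
    obtain ⟨s, hs⟩ := exists_sec U X hr hrM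
    exact ⟨r / 2, s, by linarith, by rwa [mul_div_cancel₀ r two_ne_zero]⟩
  choose rr ss hrr hss using key
  have hnhds : ∀ X : TT, ss X '' ball (U.P X) (rr X) ∈ 𝓝 X := by
    intro X
    have h1 : U.Sec (ss X) X (rr X) := Sec.shrink U (hss X) (hrr X) (by linarith [hrr X])
    exact (sec_isOpen U h1).mem_nhds ⟨U.P X, mem_ball_self (hrr X), h1.2.2.2.1⟩
  obtain ⟨C, hC, hCu⟩ := TopologicalSpace.countable_cover_nhds hnhds
  have hCne : C.Nonempty := by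
    by_contra hcon
    rw [not_nonempty_iff_eq_empty] at hcon
    rw [hcon] at hCu
    simp only [mem_empty_iff_false, iUnion_of_empty, iUnion_empty] at hCu
    exact (univ_nonempty (α := TT)).ne_empty hCu.symm
  obtain ⟨x, hx⟩ := hC.exists_eq_range hCne
  refine ⟨fun i => Nat.casesOn i (U.P X₀) (fun i => U.P (x i)),
    fun i => Nat.casesOn i ρ₀ (fun i => rr (x i)), fun i => Nat.casesOn i s (fun i => ss (x i)),
    rfl, rfl, rfl, ?_, ?_, ?_, ?_, ?_⟩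
  · rintro (_ | i)
    · exact hρ₀
    · exact hrr _
  · rintro (_ | i)
    · exact hs.2.2.1.mono (closedBall_subset_ball h)
    · exact (hss (x i)).2.2.1.mono (closedBall_subset_ball (by linarith [hrr (x i)]))
  · rintro (_ | i) p hp
    · exact hs.2.2.2.2 p (closedBall_subset_ball h hp)
    · exact (hss (x i)).2.2.2.2 p (closedBall_subset_ball (by linarith [hrr (x i)]) hp)
  · rintro (_ | i)
    · exact sec_isOpen U (Sec.shrink U hs hρ₀ h.le)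
    · exact sec_isOpen U (Sec.shrink U (hss (x i)) (hrr (x i)) (by linarith [hrr (x i)]))
  · intro X
    have hX : X ∈ ⋃ x ∈ C, ss x '' ball (U.P x) (rr x) := by rw [hCu]; trivial
    rw [mem_iUnion₂] at hX
    obtain ⟨y, hy, hXy⟩ := hX
    rw [hx] at hy
    obtain ⟨i, rfl⟩ := hy
    exact ⟨i + 1, hXy⟩

theorem exists_near (D : ModularData) (hQ : QX) (X₀ : TT) {s : ℂ × ℂ → TT} {R r₀ : ℝ}
    (hs : U.Sec s X₀ R) (hr₀ : 0 < r₀) (hR : r₀ < R) : ∃ ε₀ : ℝ, 0 < ε₀ ∧ ∀ ε : ℝ, 0 < ε → ε ≤ ε₀ →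
    ∃ F : TT → TT, U.HolMap F ∧ (∀ X ∈ s '' closedBall (U.P X₀) r₀, U.NearAt F X ε) ∧
      ∃ X ∈ s '' closedBall (U.P X₀) r₀, ‖U.P (F X) - U.P X‖ = ε := by
  classical
  obtain ⟨ρ₀, hρ1, hρ2⟩ := exists_between hR
  have hρ₀ : 0 < ρ₀ := hr₀.trans hρ1
  refine ⟨min (r₀ / 2) ((R - r₀) / 2), lt_min (by linarith) (by linarith), ?_⟩
  intro ε hε hεε₀
  have hε1 : ε < r₀ := by
    have := hεε₀.trans (min_le_left _ _); linarith
  have hε2 : ε < R - r₀ := by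
    have := hεε₀.trans (min_le_right _ _); linarith
  -- charts
  obtain ⟨q, r, sc, q0, r0, sc0, hr, hscc, hscP, hsco, hcov⟩ := exists_charts U hs hρ₀ hρ2
  have hrC : ∀ i, (r i : ℂ) ≠ 0 := fun i => Complex.ofReal_ne_zero.2 (hr i).ne'
  let c : ℕ → ℂ × ℂ → TT := fun i ζ => sc i (q i + (r i : ℂ) • ζ)
  have hnorm : ∀ i (ζ : ℂ × ℂ), ‖(r i : ℂ) • ζ‖ = r i * ‖ζ‖ := by
    intro i ζ
    rw [norm_smul, Complex.norm_real, Real.norm_eq_abs, abs_of_pos (hr i)]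
  have hcm : ∀ i, ∀ ζ ∈ closedBall (0 : ℂ × ℂ) 1, q i + (r i : ℂ) • ζ ∈ closedBall (q i) (r i) := by
    intro i ζ hζ
    rw [mem_closedBall_zero_iff] at hζ
    rw [mem_closedBall, dist_eq_norm, add_sub_cancel_left, hnorm]
    calc r i * ‖ζ‖ ≤ r i * 1 := by gcongr; exact (hr i).le
      _ = r i := mul_one _
  have hcmo : ∀ i, ∀ ζ ∈ ball (0 : ℂ × ℂ) 1, q i + (r i : ℂ) • ζ ∈ ball (q i) (r i) := by
    intro i ζ hζ
    rw [mem_ball_zero_iff] at hζ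
    rw [mem_ball, dist_eq_norm, add_sub_cancel_left, hnorm]
    calc r i * ‖ζ‖ < r i * 1 := by gcongr; exact hr i
      _ = r i := mul_one _
  have hcc : ∀ i, ContinuousOn (c i) (closedBall 0 1) := by
    intro i
    exact (hscc i).comp (f := fun ζ : ℂ × ℂ => q i + (r i : ℂ) • ζ) (by fun_prop) (hcm i)
  have hcP : ∀ i, ∀ ζ ∈ closedBall (0 : ℂ × ℂ) 1, U.P (c i ζ) = q i + (r i : ℂ) • ζ :=
    fun i ζ hζ => hscP i _ (hcm i ζ hζ)
  -- inverse charts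
  let ci : ℕ → TT → ℂ × ℂ := fun i X => (r i : ℂ)⁻¹ • (U.P X - q i)
  have hci : ∀ i, Continuous (ci i) := by
    intro i
    have h1 : Continuous (fun X => U.P X - q i) := (P_continuous U).sub continuous_const
    exact h1.const_smul ((r i : ℂ)⁻¹)
  have hcic : ∀ i, ∀ ζ ∈ closedBall (0 : ℂ × ℂ) 1, ci i (c i ζ) = ζ := by
    intro i ζ hζ
    simp only [ci]
    rw [hcP i ζ hζ, add_sub_cancel_left, inv_smul_smul₀ (hrC i)]
  have hcinj : ∀ i, InjOn (c i) (closedBall 0 1) := by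
    intro i ζ hζ ζ' hζ' h
    rw [← hcic i ζ hζ, ← hcic i ζ' hζ', h]
  let O : ℕ → Set TT := fun i => c i '' ball 0 1
  have hOeq : ∀ i, O i = sc i '' ball (q i) (r i) := by
    intro i
    ext X
    constructor
    · rintro ⟨ζ, hζ, rfl⟩
      exact ⟨_, hcmo i ζ hζ, rfl⟩
    · rintro ⟨p, hp, rfl⟩
      refine ⟨(r i : ℂ)⁻¹ • (p - q i), ?_, ?_⟩
      · rw [mem_ball_zero_iff, norm_smul, norm_inv, Complex.norm_real, Real.norm_eq_abs,
          abs_of_pos (hr i), ← dist_eq_norm, inv_mul_lt_iff₀ (hr i), mul_one]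
        exact hp
      · simp only [c]
        rw [smul_inv_smul₀ (hrC i), add_sub_cancel]
  have hO : ∀ i, IsOpen (O i) := fun i => by rw [hOeq i]; exact hsco i
  have hOc : ∀ i, ∀ X ∈ O i, ci i X ∈ ball (0 : ℂ × ℂ) 1 ∧ c i (ci i X) = X := by
    rintro i _ ⟨ζ, hζ, rfl⟩
    rw [hcic i ζ (ball_subset_closedBall hζ)]
    exact ⟨hζ, rfl⟩
  have hcovO : ∀ X, ∃ i, X ∈ O i := by
    intro X
    obtain ⟨i, hi⟩ := hcov X
    exact ⟨i, by rw [hOeq]; exact hi⟩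
  let dn : ℕ → TT := TopologicalSpace.denseSeq TT
  have hdn : DenseRange dn := TopologicalSpace.denseRange_denseSeq TT
  -- stages
  have hstage : ∀ N : ℕ, ∃ f : ℕ → ℂ × ℂ → TT,
      (∀ i ≤ N, ContinuousOn (f i) (closedBall 0 1)) ∧
      (∀ i ≤ N, DifferentiableOn ℂ (fun ζ => U.P (f i ζ)) (ball 0 1)) ∧
      (∀ i ≤ N, ∀ j ≤ N, ∀ n ≤ N, ∀ ζ ∈ closedBall (0 : ℂ × ℂ) 1, ∀ ζ' ∈ closedBall (0 : ℂ × ℂ) 1,
        c i ζ = dn n → c j ζ' = dn n → f i ζ = f j ζ') ∧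
      (∀ ζ ∈ closedBall (0 : ℂ × ℂ) (r₀ / ρ₀),
        ‖U.P (f 0 ζ) - (U.P X₀ + (ρ₀ : ℂ) • ζ)‖ ≤ ε ∧ f 0 ζ = s (U.P (f 0 ζ))) ∧
      ∃ ζ ∈ closedBall (0 : ℂ × ℂ) (r₀ / ρ₀),
        ‖U.P (f 0 ζ) - (U.P X₀ + (ρ₀ : ℂ) • ζ)‖ = ε := by
    intro N
    let T : Finset TT := (Finset.range (N + 1)).image dn
    have hT : T.Nonempty := ⟨dn 0, Finset.mem_image.2 ⟨0, by simp, rfl⟩⟩
    obtain ⟨f, f1, f2, ⟨a, f3⟩, f4, f5⟩ := stage U hQ (N + 1) (fun i => c i) (fun i => hcc i)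
      (fun i => hcinj i) (fun i => ⟨q i, (r i : ℂ), fun ζ hζ => hcP i ζ hζ⟩) T hT
    obtain ⟨t, ht, g1, g2⟩ := first_time U hs hr₀ hρ1 hε hε1 hε2 (fun t ζ => f t 0 ζ) (f1 0)
      (by
        intro ζ hζ
        rw [f2 0 ζ hζ]
        simp only [c, Fin.val_zero, q0, r0, sc0]) ⟨a, fun ζ hζ => f3 0 ζ hζ⟩
    refine ⟨fun i => if h : i < N + 1 then f t ⟨i, h⟩ else f t 0, ?_, ?_, ?_, ?_, ?_⟩
    · intro i hi
      have hi' : i < N + 1 := by omega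
      simp only [hi', dif_pos]
      refine (f1 ⟨i, hi'⟩).comp (f := fun ζ : ℂ × ℂ => (t, ζ)) (by fun_prop) ?_
      intro ζ hζ
      exact ⟨ht, hζ⟩
    · intro i hi
      have hi' : i < N + 1 := by omega
      simp only [hi', dif_pos]
      exact f4 t ht ⟨i, hi'⟩
    · intro i hi j hj n hn ζ hζ ζ' hζ' h h'
      have hi' : i < N + 1 := by omega
      have hj' : j < N + 1 := by omega
      simp only [hi', hj', dif_pos]
      refine f5 t ht ⟨i, hi'⟩ ⟨j, hj'⟩ ζ hζ ζ' hζ' (h.trans h'.symm) ?_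
      simp only [h]
      exact Finset.mem_image.2 ⟨n, by simp; omega, rfl⟩
    · have h0' : (0 : ℕ) < N + 1 := by omega
      simp only [h0', dif_pos]
      exact g1
    · have h0' : (0 : ℕ) < N + 1 := by omega
      simp only [h0', dif_pos]
      exact g2
  choose FN FN1 FN2 FN3 FN4 FN5 using hstage
  -- limits along an ultrafilter
  let l : Ultrafilter ℕ := Filter.hyperfilter ℕ
  have hl : ∀ i : ℕ, ∀ᶠ N in (l : Filter ℕ), i ≤ N := by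
    intro i
    exact Nat.hyperfilter_le_atTop (eventually_ge_atTop i)
  let Good : ℕ → (ℂ × ℂ → TT) → Prop := fun i F => ContinuousOn F (ball 0 1) ∧
      DifferentiableOn ℂ (fun ζ => U.P (F ζ)) (ball 0 1) ∧
      TendstoLocallyUniformlyOn (fun n ζ => U.P (FN n i ζ)) (fun ζ => U.P (F ζ)) l (ball 0 1) ∧
      ∀ ζ ∈ ball (0 : ℂ × ℂ) 1, Tendsto (fun n => FN n i ζ) l (𝓝 (F ζ))
  have hprop : ∀ i, ∀ ζ₀ ∈ ball (0 : ℂ × ℂ) 1, ∀ Y : TT, Tendsto (fun n => FN n i ζ₀) l (𝓝 Y) →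
      ∃ F, Good i F := by
    intro i ζ₀ hζ₀ Y hY
    refine propagate U D l (fun n => FN n i) ?_ ?_ hζ₀ hY
    · filter_upwards [hl i] with N hN
      exact (FN1 N i hN).mono ball_subset_closedBall
    · filter_upwards [hl i] with N hN
      exact FN2 N i hN
  have hquot : r₀ / ρ₀ < 1 := by rw [div_lt_one hρ₀]; exact hρ1
  have hsubb : closedBall (0 : ℂ × ℂ) (r₀ / ρ₀) ⊆ ball 0 1 := closedBall_subset_ball hquot
  have hgood0 : ∃ F, Good 0 F := by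
    have h0m : (0 : ℂ × ℂ) ∈ closedBall (0 : ℂ × ℂ) (r₀ / ρ₀) :=
      mem_closedBall_self (div_pos hr₀ hρ₀).le
    have hsubR : closedBall (U.P X₀) ε ⊆ ball (U.P X₀) R := closedBall_subset_ball (by linarith)
    have hK : IsCompact (s '' closedBall (U.P X₀) ε) :=
      (isCompact_closedBall _ _).image_of_continuousOn (hs.2.2.1.mono hsubR)
    have hmem : ∀ N, FN N 0 0 ∈ s '' closedBall (U.P X₀) ε := by
      intro N
      obtain ⟨h1, h2⟩ := FN4 N 0 h0m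
      refine ⟨U.P (FN N 0 0), ?_, h2.symm⟩
      rw [mem_closedBall, dist_eq_norm]
      simpa using h1
    obtain ⟨Y, _, hY⟩ := hK.ultrafilter_le_nhds' (l.map (fun n => FN n 0 0))
      (Ultrafilter.mem_map.2 (Filter.univ_mem' hmem))
    exact hprop 0 0 (mem_ball_self one_pos) Y hY
  have hstep : ∀ i j, (∃ F, Good i F) → (O i ∩ O j).Nonempty → ∃ F, Good j F := by
    rintro i j ⟨F, hF⟩ hne
    obtain ⟨n, hn⟩ := hdn.exists_mem_open ((hO i).inter (hO j)) hne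
    obtain ⟨hi1, hi2⟩ := hOc i (dn n) hn.1
    obtain ⟨hj1, hj2⟩ := hOc j (dn n) hn.2
    refine hprop j (ci j (dn n)) hj1 (F (ci i (dn n))) ?_
    refine (hF.2.2.2 _ hi1).congr' ?_
    filter_upwards [hl i, hl j, hl n] with N h1 h2 h3
    exact FN3 N i h1 j h2 n h3 _ (ball_subset_closedBall hi1) _ (ball_subset_closedBall hj1)
      hi2 hj2
  have hall : ∀ i, ∃ F, Good i F := by
    intro i
    by_contra hi
    let A : Set TT := ⋃ j ∈ {j | ∃ F, Good j F}, O j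
    let B : Set TT := ⋃ j ∈ {j | ¬ ∃ F, Good j F}, O j
    have hA : IsOpen A := isOpen_biUnion fun j _ => hO j
    have hB : IsOpen B := isOpen_biUnion fun j _ => hO j
    have hAB : (univ : Set TT) ⊆ A ∪ B := by
      intro X _
      obtain ⟨j, hj⟩ := hcovO X
      by_cases hg : ∃ F, Good j F
      · exact Or.inl (mem_biUnion (show j ∈ {j | ∃ F, Good j F} from hg) hj)
      · exact Or.inr (mem_biUnion (show j ∈ {j | ¬ ∃ F, Good j F} from hg) hj)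
    have hOne : ∀ j, (O j).Nonempty := fun j => ⟨c j 0, 0, mem_ball_self one_pos, rfl⟩
    have hAne : (univ ∩ A).Nonempty := by
      obtain ⟨X, hX⟩ := hOne 0
      exact ⟨X, trivial, mem_biUnion (show 0 ∈ {j | ∃ F, Good j F} from hgood0) hX⟩
    have hBne : (univ ∩ B).Nonempty := by
      obtain ⟨X, hX⟩ := hOne i
      exact ⟨X, trivial, mem_biUnion (show i ∈ {j | ¬ ∃ F, Good j F} from hi) hX⟩
    obtain ⟨X, _, hXA, hXB⟩ := isPreconnected_univ A B hA hB hAB hAne hBne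
    obtain ⟨j, hj, hXj⟩ := mem_iUnion₂.1 hXA
    obtain ⟨j', hj', hXj'⟩ := mem_iUnion₂.1 hXB
    exact hj' (hstep j j' hj ⟨X, hXj, hXj'⟩)
  choose FF hFF using hall
  -- consistency
  have hcons : ∀ i j, ∀ X ∈ O i ∩ O j, FF i (ci i X) = FF j (ci j X) := by
    intro i j X hX
    by_contra hne
    have hcont : ∀ k, X ∈ O k → Tendsto (fun Y => FF k (ci k Y)) (𝓝 X) (𝓝 (FF k (ci k X))) := by
      intro k hk
      have h1 : ContinuousAt (FF k) (ci k X) :=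
        ((hFF k).1 _ (hOc k X hk).1).continuousAt (isOpen_ball.mem_nhds (hOc k X hk).1)
      exact h1.tendsto.comp ((hci k).tendsto X)
    have hpair := (hcont i hX.1).prodMk_nhds (hcont j hX.2)
    have hev : ∀ᶠ Y in 𝓝 X, FF i (ci i Y) ≠ FF j (ci j Y) :=
      hpair ((isOpen_ne_fun continuous_fst continuous_snd).mem_nhds hne)
    have hev2 : ∀ᶠ Y in 𝓝 X, Y ∈ O i ∩ O j := ((hO i).inter (hO j)).mem_nhds hX
    obtain ⟨Y, ⟨n, rfl⟩, hY1, hY2⟩ := Dense.inter_nhds_nonempty hdn (hev.and hev2)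
    obtain ⟨hi1, hi2⟩ := hOc i (dn n) hY2.1
    obtain ⟨hj1, hj2⟩ := hOc j (dn n) hY2.2
    apply hY1
    refine tendsto_nhds_unique ((hFF i).2.2.2 _ hi1) (((hFF j).2.2.2 _ hj1).congr' ?_)
    filter_upwards [hl i, hl j, hl n] with N h1 h2 h3
    exact FN3 N j h2 i h1 n h3 _ (ball_subset_closedBall hj1) _ (ball_subset_closedBall hi1)
      hj2 hi2
  choose idx hidx using hcovO
  let F : TT → TT := fun X => FF (idx X) (ci (idx X) X)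
  have hFO : ∀ i, ∀ X ∈ O i, F X = FF i (ci i X) := fun i X hX => hcons (idx X) i X ⟨hidx X, hX⟩
  have hFc : Continuous F := by
    rw [continuous_iff_continuousAt]
    intro X
    have h1 : ContinuousAt (FF (idx X)) (ci (idx X) X) :=
      ((hFF (idx X)).1 _ (hOc _ X (hidx X)).1).continuousAt
        (isOpen_ball.mem_nhds (hOc _ X (hidx X)).1)
    have h2 : ContinuousAt (fun Y => FF (idx X) (ci (idx X) Y)) X :=
      ContinuousAt.comp (f := ci (idx X)) h1 (hci (idx X)).continuousAt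
    refine h2.congr ?_
    filter_upwards [(hO (idx X)).mem_nhds (hidx X)] with Y hY
    exact (hFO (idx X) Y hY).symm
  have hFhol : U.Hol (fun X => U.P (F X)) := by
    intro X s' r' hs' p hp
    obtain ⟨_, _, hs3, _, hs5⟩ := hs'
    let i := idx (s' p)
    have hi : s' p ∈ O i := hidx (s' p)
    have hsc : ContinuousAt s' p := (hs3 p hp).continuousAt (isOpen_ball.mem_nhds hp)
    have hpi : (r i : ℂ)⁻¹ • (p - q i) = ci i (s' p) := by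
      simp only [ci]; rw [hs5 p hp]
    have hpb : (r i : ℂ)⁻¹ • (p - q i) ∈ ball (0 : ℂ × ℂ) 1 := by
      rw [hpi]; exact (hOc i _ hi).1
    have h1 : DifferentiableAt ℂ (fun ζ => U.P (FF i ζ)) ((r i : ℂ)⁻¹ • (p - q i)) :=
      (hFF i).2.1.differentiableAt (isOpen_ball.mem_nhds hpb)
    have h2 : DifferentiableAt ℂ (fun p' => U.P (FF i ((r i : ℂ)⁻¹ • (p' - q i)))) p :=
      DifferentiableAt.comp p (f := fun p' : ℂ × ℂ => (r i : ℂ)⁻¹ • (p' - q i)) h1 (by fun_prop)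
    refine (h2.congr_of_eventuallyEq ?_).differentiableWithinAt
    filter_upwards [hsc ((hO i).mem_nhds hi), isOpen_ball.mem_nhds hp] with p' hp1 hp2
    rw [hFO i (s' p') hp1]
    simp only [ci]
    rw [hs5 p' hp2]
  -- the values on the initial chart
  have hin : ∀ ζ ∈ closedBall (0 : ℂ × ℂ) (r₀ / ρ₀), ‖(ρ₀ : ℂ) • ζ‖ ≤ r₀ := by
    intro ζ hζ
    rw [mem_closedBall_zero_iff] at hζ
    rw [norm_smul, Complex.norm_real, Real.norm_eq_abs, abs_of_pos hρ₀]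
    calc ρ₀ * ‖ζ‖ ≤ ρ₀ * (r₀ / ρ₀) := by gcongr
      _ = r₀ := by field_simp
  have hF0a : ∀ ζ ∈ closedBall (0 : ℂ × ℂ) (r₀ / ρ₀),
      ‖U.P (FF 0 ζ) - (U.P X₀ + (ρ₀ : ℂ) • ζ)‖ ≤ ε := by
    intro ζ hζ
    have h1 : Tendsto (fun n => U.P (FN n 0 ζ)) l (𝓝 (U.P (FF 0 ζ))) :=
      ((P_continuous U).tendsto _).comp ((hFF 0).2.2.2 ζ (hsubb hζ))
    refine le_of_tendsto (h1.sub_const _).norm ?_
    exact Filter.Eventually.of_forall fun N => (FN4 N ζ hζ).1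
  have hF0R : ∀ ζ ∈ closedBall (0 : ℂ × ℂ) (r₀ / ρ₀), U.P (FF 0 ζ) ∈ ball (U.P X₀) R := by
    intro ζ hζ
    have h2 := hF0a ζ hζ
    have h3 := hin ζ hζ
    rw [mem_ball, dist_eq_norm]
    calc ‖U.P (FF 0 ζ) - U.P X₀‖
        = ‖(U.P (FF 0 ζ) - (U.P X₀ + (ρ₀ : ℂ) • ζ)) + (ρ₀ : ℂ) • ζ‖ := by
          congr 1; abel
      _ ≤ ‖U.P (FF 0 ζ) - (U.P X₀ + (ρ₀ : ℂ) • ζ)‖ + ‖(ρ₀ : ℂ) • ζ‖ := norm_add_le _ _
      _ < R := by linarith
  have hF0s : ∀ ζ ∈ closedBall (0 : ℂ × ℂ) (r₀ / ρ₀), FF 0 ζ = s (U.P (FF 0 ζ)) := by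
    intro ζ hζ
    have h0 := (hFF 0).2.2.2 ζ (hsubb hζ)
    have h1 : Tendsto (fun n => U.P (FN n 0 ζ)) l (𝓝 (U.P (FF 0 ζ))) :=
      ((P_continuous U).tendsto _).comp h0
    have h2 : ContinuousAt s (U.P (FF 0 ζ)) :=
      (hs.2.2.1 _ (hF0R ζ hζ)).continuousAt (isOpen_ball.mem_nhds (hF0R ζ hζ))
    refine tendsto_nhds_unique h0 ((h2.tendsto.comp h1).congr ?_)
    intro N
    exact (FN4 N ζ hζ).2.symm
  have hFs : ∀ ζ ∈ closedBall (0 : ℂ × ℂ) (r₀ / ρ₀),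
      F (s (U.P X₀ + (ρ₀ : ℂ) • ζ)) = FF 0 ζ := by
    intro ζ hζ
    have h1 : s (U.P X₀ + (ρ₀ : ℂ) • ζ) = c 0 ζ := by
      simp only [c, q0, r0, sc0]
    rw [h1, hFO 0 (c 0 ζ) ⟨ζ, hsubb hζ, rfl⟩, hcic 0 ζ (ball_subset_closedBall (hsubb hζ))]
  have hpar : ∀ p ∈ closedBall (U.P X₀) r₀, ∃ ζ ∈ closedBall (0 : ℂ × ℂ) (r₀ / ρ₀),
      p = U.P X₀ + (ρ₀ : ℂ) • ζ := by
    intro p hp
    have hρC : (ρ₀ : ℂ) ≠ 0 := Complex.ofReal_ne_zero.2 hρ₀.ne'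
    refine ⟨(ρ₀ : ℂ)⁻¹ • (p - U.P X₀), ?_, ?_⟩
    · rw [mem_closedBall, dist_eq_norm] at hp
      rw [mem_closedBall_zero_iff, norm_smul, norm_inv, Complex.norm_real, Real.norm_eq_abs,
        abs_of_pos hρ₀, div_eq_inv_mul]
      gcongr
    · rw [smul_inv_smul₀ hρC, add_sub_cancel]
  have hmemR : ∀ ζ ∈ closedBall (0 : ℂ × ℂ) (r₀ / ρ₀),
      U.P X₀ + (ρ₀ : ℂ) • ζ ∈ ball (U.P X₀) R := by
    intro ζ hζ
    rw [mem_ball, dist_eq_norm, add_sub_cancel_left]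
    have := hin ζ hζ
    linarith
  refine ⟨F, ⟨hFc, hFhol⟩, ?_, ?_⟩
  · rintro _ ⟨p, hp, rfl⟩
    obtain ⟨ζ, hζ, rfl⟩ := hpar p hp
    have hP1 : U.P (s (U.P X₀ + (ρ₀ : ℂ) • ζ)) = U.P X₀ + (ρ₀ : ℂ) • ζ :=
      hs.2.2.2.2 _ (hmemR ζ hζ)
    have hsub : ball (U.P X₀ + (ρ₀ : ℂ) • ζ) (R - r₀) ⊆ ball (U.P X₀) R := by
      apply ball_subset_ball'
      rw [dist_eq_norm, add_sub_cancel_left]
      have := hin ζ hζ
      linarith
    refine ⟨s, R - r₀, ⟨by linarith, ?_, ?_, ?_, ?_⟩, hε2, ?_, ?_⟩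
    · rw [hP1]; exact hsub.trans hs.2.1
    · rw [hP1]; exact hs.2.2.1.mono hsub
    · rw [hP1]
    · rw [hP1]; intro p' hp'; exact hs.2.2.2.2 p' (hsub hp')
    · rw [hFs ζ hζ, hP1]; exact hF0a ζ hζ
    · rw [hFs ζ hζ]; exact hF0s ζ hζ
  · -- the point with displacement `ε`
    choose zN hzN1 hzN2 using FN5
    obtain ⟨ζ, hζ, hlim⟩ := (isCompact_closedBall (0 : ℂ × ℂ) (r₀ / ρ₀)).ultrafilter_le_nhds'
      (l.map zN) (Ultrafilter.mem_map.2 (Filter.univ_mem' hzN1))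
    have hz : Tendsto zN l (𝓝 ζ) := hlim
    refine ⟨s (U.P X₀ + (ρ₀ : ℂ) • ζ), ⟨_, ?_, rfl⟩, ?_⟩
    · rw [mem_closedBall, dist_eq_norm, add_sub_cancel_left]; exact hin ζ hζ
    · rw [hFs ζ hζ, hs.2.2.2.2 _ (hmemR ζ hζ)]
      have hζb : ζ ∈ ball (0 : ℂ × ℂ) 1 := hsubb hζ
      have h1 : Tendsto (fun N => U.P (FN N 0 (zN N))) l (𝓝 (U.P (FF 0 ζ))) := by
        refine (hFF 0).2.2.1.tendsto_comp (g := zN) ?_ hζb ?_
        · exact ((P_continuous U).comp_continuousOn (hFF 0).1) ζ hζb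
        · exact tendsto_nhdsWithin_iff.2 ⟨hz, Filter.Eventually.of_forall fun N => hsubb (hzN1 N)⟩
      have h2 : Tendsto (fun N => ‖U.P (FN N 0 (zN N)) - (U.P X₀ + (ρ₀ : ℂ) • zN N)‖) l
          (𝓝 ‖U.P (FF 0 ζ) - (U.P X₀ + (ρ₀ : ℂ) • ζ)‖) :=
        (h1.sub ((hz.const_smul (ρ₀ : ℂ)).const_add (U.P X₀))).norm
      refine tendsto_nhds_unique h2 ?_
      simp only [hzN2]
      exact tendsto_const_nhds

end Pool.Agent.T05
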