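import Pool.Agent.Lib.MP_0162a5_an.S

/-! Linear boundedness of near-identity self-maps. -/

set_option autoImplicit false

open Complex Metric Set Filter Topology

namespace Pool.Agent.T05

/-- averaging: `φ = (1/m) ∑_{j<m} F^j` satisfies `φ ∘ F - φ = (F^m - id)/m` and `φ - id` has
Lipschitz constant `≤ 1/2` near the smaller ball (`cauchy_lip`). -/
theorem average_bound {p : ℂ × ℂ} {r R₁ : ℝ} (hr : 0 < r) (hR : r < R₁) (m : ℕ) (hm : 0 < m)
    (f : ℕ → ℂ × ℂ → ℂ × ℂ) (h0 : ∀ z ∈ ball p R₁, f 0 z = 0)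
    (hd : ∀ j ≤ m, DifferentiableOn ℂ (f j) (ball p R₁))
    (hb : ∀ j ≤ m, ∀ z ∈ ball p R₁, ‖f j z‖ ≤ (R₁ - r) / 4)
    (hrec : ∀ j < m, ∀ z ∈ closedBall p r, f (j + 1) z = f 1 z + f j (z + f 1 z)) :
    ∀ z ∈ closedBall p r, ‖f 1 z‖ ≤ (R₁ - r) / (2 * m) := by
  intro z hz
  set c := (R₁ - r) / 4 with hc
  have hc0 : 0 < c := by rw [hc]; linarith
  have hm1 : (1 : ℝ) ≤ m := by exact_mod_cast hm
  have hm0 : (m : ℂ) ≠ 0 := by exact_mod_cast hm.ne'
  let ψ : ℂ × ℂ → ℂ × ℂ := fun w => (m : ℂ)⁻¹ • ∑ j ∈ Finset.range m, f j w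
  have hψd : DifferentiableOn ℂ ψ (ball p R₁) := by
    have h1 : DifferentiableOn ℂ (fun w => ∑ j ∈ Finset.range m, f j w) (ball p R₁) := by
      apply DifferentiableOn.fun_sum
      intro j hj
      exact hd j (Finset.mem_range.1 hj).le
    exact h1.const_smul ((m : ℂ)⁻¹)
  have hψb : ∀ w ∈ ball p R₁, ‖ψ w‖ ≤ c := by
    intro w hw
    change ‖(m : ℂ)⁻¹ • ∑ j ∈ Finset.range m, f j w‖ ≤ c
    rw [norm_smul, norm_inv, Complex.norm_natCast, inv_mul_le_iff₀ (by linarith)]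
    calc ‖∑ j ∈ Finset.range m, f j w‖ ≤ ∑ j ∈ Finset.range m, ‖f j w‖ := norm_sum_le _ _
      _ ≤ ∑ j ∈ Finset.range m, c :=
        Finset.sum_le_sum fun j hj => hb j (Finset.mem_range.1 hj).le w hw
      _ = m * c := by simp
  have hlip := cauchy_lip (r := r + 2 * c) (by linarith) (by rw [hc]; linarith) hψd hψb
  have hz' : dist z p ≤ r := hz
  have hzR : z ∈ ball p R₁ := by rw [mem_ball]; linarith
  have hf1 : ‖f 1 z‖ ≤ c := hb 1 hm z hzR
  have hza : z ∈ ball p (r + 2 * c) := by rw [mem_ball]; linarith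
  have hzb : z + f 1 z ∈ ball p (r + 2 * c) := by
    rw [mem_ball]
    calc dist (z + f 1 z) p ≤ dist (z + f 1 z) z + dist z p := dist_triangle _ _ _
      _ = ‖f 1 z‖ + dist z p := by rw [dist_eq_norm, add_sub_cancel_left]
      _ < r + 2 * c := by linarith
  have h1 := hlip _ hzb _ hza
  have h2 : c / (R₁ - (r + 2 * c)) = 1 / 2 := by
    have : R₁ - (r + 2 * c) = 2 * c := by rw [hc]; ring
    rw [this]; field_simp
  rw [h2, add_sub_cancel_left] at h1
  have h3 : ψ (z + f 1 z) - ψ z = (m : ℂ)⁻¹ • f m z - f 1 z := by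
    change (m : ℂ)⁻¹ • ∑ j ∈ Finset.range m, f j (z + f 1 z) -
      (m : ℂ)⁻¹ • ∑ j ∈ Finset.range m, f j z = _
    rw [← smul_sub, ← Finset.sum_sub_distrib]
    have h4 : ∑ j ∈ Finset.range m, (f j (z + f 1 z) - f j z) =
        ∑ j ∈ Finset.range m, ((f (j + 1) z - f j z) - f 1 z) := by
      apply Finset.sum_congr rfl
      intro j hj
      rw [hrec j (Finset.mem_range.1 hj) z hz]; abel
    have h5 : ∑ j ∈ Finset.range m, (f (j + 1) z - f j z) = f m z - f 0 z :=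
      Finset.sum_range_sub (fun j => f j z) m
    rw [h4, Finset.sum_sub_distrib, h5, h0 z hzR, sub_zero, smul_sub]
    congr 1
    rw [Finset.sum_const, Finset.card_range, ← Nat.cast_smul_eq_nsmul ℂ, smul_smul,
      inv_mul_cancel₀ hm0, one_smul]
  rw [h3] at h1
  have h5 : ‖f 1 z‖ ≤ ‖(m : ℂ)⁻¹ • f m z‖ + ‖(m : ℂ)⁻¹ • f m z - f 1 z‖ := by
    have : f 1 z = (m : ℂ)⁻¹ • f m z - ((m : ℂ)⁻¹ • f m z - f 1 z) := by abel
    calc ‖f 1 z‖ = ‖(m : ℂ)⁻¹ • f m z - ((m : ℂ)⁻¹ • f m z - f 1 z)‖ := by rw [← this]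
      _ ≤ _ := norm_sub_le _ _
  have h6 : ‖(m : ℂ)⁻¹ • f m z‖ ≤ c / m := by
    rw [norm_smul, norm_inv, Complex.norm_natCast, inv_mul_le_iff₀ (by linarith)]
    have := hb m le_rfl z hzR
    calc ‖f m z‖ ≤ c := this
      _ = m * (c / m) := by field_simp
  have h7 : (R₁ - r) / (2 * m) = 2 * (c / m) := by rw [hc]; field_simp; ring
  rw [h7]; linarith

variable (U : UnivCover)

theorem sec_restrict {X₀ : TT} {s : ℂ × ℂ → TT} {R : ℝ} (hs : U.Sec s X₀ R) {z : ℂ × ℂ}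
    {ρ : ℝ} (hρ : 0 < ρ) (h : dist z (U.P X₀) + ρ ≤ R) : U.Sec s (s z) ρ := by
  have hz : z ∈ ball (U.P X₀) R := by rw [mem_ball]; linarith
  have hPz : U.P (s z) = z := hs.2.2.2.2 z hz
  have hsub : ball z ρ ⊆ ball (U.P X₀) R := by
    intro w hw
    rw [mem_ball] at hw ⊢
    calc dist w (U.P X₀) ≤ dist w z + dist z (U.P X₀) := dist_triangle _ _ _
      _ < R := by linarith
  refine ⟨hρ, ?_, ?_, ?_, ?_⟩
  · rw [hPz]; exact hsub.trans hs.2.1
  · rw [hPz]; exact hs.2.2.1.mono hsub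
  · rw [hPz]
  · rw [hPz]; intro p hp; exact hs.2.2.2.2 p (hsub hp)

theorem nearAt_iff_sec {X₀ : TT} {s : ℂ × ℂ → TT} {R : ℝ} (hs : U.Sec s X₀ R) {z : ℂ × ℂ}
    {δ : ℝ} (hδ : 0 ≤ δ) (h : dist z (U.P X₀) + δ < R) (F : TT → TT) :
    U.NearAt F (s z) δ ↔ (‖U.P (F (s z)) - z‖ ≤ δ ∧ F (s z) = s (U.P (F (s z)))) := by
  have hz : z ∈ ball (U.P X₀) R := by rw [mem_ball]; linarith
  have hPz : U.P (s z) = z := hs.2.2.2.2 z hz
  constructor
  · rintro ⟨s', ρ, h1, h2, h3, h4⟩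
    rw [hPz] at h3
    refine ⟨h3, ?_⟩
    have hq : U.P (F (s z)) ∈ ball (U.P (s z)) ρ := by
      rw [hPz, mem_ball, dist_eq_norm]; linarith
    have hq' : U.P (F (s z)) ∈ ball (U.P X₀) R := by
      rw [mem_ball]
      calc dist (U.P (F (s z))) (U.P X₀) ≤ dist (U.P (F (s z))) z + dist z (U.P X₀) :=
            dist_triangle _ _ _
        _ < R := by rw [dist_eq_norm]; linarith
    have hzz : z ∈ ball (U.P (s z)) ρ := by rw [hPz]; exact mem_ball_self h1.1
    have heq := sec_eqOn U h1 hs hzz hz (by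
      have := h1.2.2.2.1
      rw [hPz] at this
      exact this) (U.P (F (s z))) ⟨hq, hq'⟩
    rw [← heq]; exact h4
  · rintro ⟨h1, h2⟩
    refine ⟨s, R - dist z (U.P X₀), sec_restrict U hs (by linarith) (by linarith), by linarith,
      ?_, h2⟩
    rw [hPz]; exact h1

theorem HolMap_comp {F G : TT → TT} (hF : U.HolMap F) (hG : U.HolMap G) :
    U.HolMap (fun X => F (G X)) := by
  refine ⟨hF.1.comp hG.1, ?_⟩
  intro X s r hs p hp
  have hd1 : DifferentiableOn ℂ (fun p => U.P (G (s p))) (ball (U.P X) r) := hG.2 X s r hs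
  obtain ⟨ρ, hρ, hρM⟩ := Metric.isOpen_iff.1 MM_isOpen (U.P (G (s p))) (U.P_mem (G (s p)))
  obtain ⟨s', hs'⟩ := exists_sec U (G (s p)) hρ hρM
  have hd2 := hF.2 (G (s p)) s' ρ hs'
  have hcs : ContinuousAt s p := (hs.2.2.1 p hp).continuousAt (isOpen_ball.mem_nhds hp)
  have hcG : ContinuousAt (fun q => G (s q)) p := hG.1.continuousAt.comp hcs
  have hopen := (sec_isOpen U hs').mem_nhds
    (⟨U.P (G (s p)), mem_ball_self hρ, hs'.2.2.2.1⟩ : G (s p) ∈ s' '' ball (U.P (G (s p))) ρ)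
  have hev : ∀ᶠ q in 𝓝 p, G (s q) ∈ s' '' ball (U.P (G (s p))) ρ := hcG hopen
  have hev2 : ∀ᶠ q in 𝓝 p, U.P (F (G (s q))) = U.P (F (s' (U.P (G (s q))))) := by
    filter_upwards [hev] with q hq
    obtain ⟨w, hw, hwe⟩ := hq
    rw [← hwe, hs'.2.2.2.2 w hw]
  have hd3 : DifferentiableAt ℂ (fun q => U.P (F (s' (U.P (G (s q)))))) p := by
    have h1 : DifferentiableAt ℂ (fun w => U.P (F (s' w))) (U.P (G (s p))) :=
      (hd2 _ (mem_ball_self hρ)).differentiableAt (isOpen_ball.mem_nhds (mem_ball_self hρ))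
    have h2 : DifferentiableAt ℂ (fun q => U.P (G (s q))) p :=
      (hd1 p hp).differentiableAt (isOpen_ball.mem_nhds hp)
    exact DifferentiableAt.comp (g := fun w => U.P (F (s' w))) p h1 h2
  exact (hd3.congr_of_eventuallyEq hev2).differentiableWithinAt

theorem HolMap_id : U.HolMap (fun X => X) := by
  refine ⟨continuous_id, ?_⟩
  intro X s r hs
  refine differentiableOn_id.congr ?_
  intro p hp
  exact hs.2.2.2.2 p hp

theorem HolMap_iterate {F : TT → TT} (hF : U.HolMap F) (j : ℕ) : U.HolMap (F^[j]) := by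
  induction j with
  | zero => exact HolMap_id U
  | succ n ih =>
    have : F^[n + 1] = fun X => F^[n] (F X) := by
      funext X; rw [Function.iterate_succ_apply]
    rw [this]
    exact HolMap_comp U ih hF

/-- the local form of linear boundedness -/
theorem lin_local (D : ModularData) (X₀ : TT) {s : ℂ × ℂ → TT} {R r' r : ℝ}
    (hs : U.Sec s X₀ R) (hr' : 0 < r') (hr : r' < r) (hR : r < R) :
    ∃ C δ₁ : ℝ, 0 < C ∧ 0 < δ₁ ∧ ∀ F : TT → TT, U.HolMap F → ∀ δ : ℝ, 0 < δ → δ ≤ δ₁ →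
      (∀ z ∈ closedBall (U.P X₀) r', U.NearAt F (s z) δ) →
      ∀ z ∈ closedBall (U.P X₀) r, U.NearAt F (s z) (C * δ) := by
  set c₀ := U.P X₀ with hc₀
  set R₁ := r + (R - r) / 3 with hR₁
  set R₂ := r + 2 * (R - r) / 3 with hR₂
  have h1 : r < R₁ := by rw [hR₁]; linarith
  have h2 : R₁ < R₂ := by rw [hR₁, hR₂]; linarith
  have h3 : R₂ < R := by rw [hR₂]; linarith
  have hR0 : 0 < R := by linarith
  have hK0 : closedBall c₀ (r' / 4) ⊆ MM :=
    (closedBall_subset_ball (by linarith)).trans hs.2.1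
  have hρ0 : 0 < R₂ / R := div_pos (by linarith) hR0
  have hρ1 : R₂ / R < 1 := by rw [div_lt_one hR0]; exact h3
  obtain ⟨K1, hK1c, hK1M, hK1⟩ := schottky2 D (isCompact_closedBall c₀ (r' / 4)) hK0 hρ0 hρ1
  obtain ⟨M, hM⟩ := hK1c.isBounded.exists_norm_le
  have hrr : R₂ / R * R = R₂ := div_mul_cancel₀ _ hR0.ne'
  obtain ⟨θ, hθ, C1, hC1, htc⟩ := two_const (r' := r' / 2) (r := R₁) (R := R₂) (by linarith)
    (by linarith) h2 (M + ‖c₀‖ + R)
  set c := (R₁ - r) / 4 with hc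
  have hc0 : 0 < c := by rw [hc]; linarith
  set t₀ := min (r' / 4) (min 1 ((c / C1) ^ (1 / θ))) with ht₀
  have ht₀0 : 0 < t₀ := by
    rw [ht₀]
    refine lt_min (by linarith) (lt_min one_pos (Real.rpow_pos_of_pos (by positivity) _))
  have ht₀r : t₀ ≤ r' / 4 := min_le_left _ _
  have ht₀1 : t₀ ≤ 1 := (min_le_right _ _).trans (min_le_left _ _)
  have ht₀c : C1 * t₀ ^ θ ≤ c := by
    have h4 : t₀ ≤ (c / C1) ^ (1 / θ) := (min_le_right _ _).trans (min_le_right _ _)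
    have h5 : t₀ ^ θ ≤ c / C1 := by
      calc t₀ ^ θ ≤ ((c / C1) ^ (1 / θ)) ^ θ := Real.rpow_le_rpow ht₀0.le h4 hθ.1.le
        _ = c / C1 := by
          rw [← Real.rpow_mul (by positivity), one_div, inv_mul_cancel₀ hθ.1.ne', Real.rpow_one]
    rw [le_div_iff₀ hC1] at h5
    linarith
  set C := (R₁ - r) / t₀ with hC
  have hC0 : 0 < C := by rw [hC]; exact div_pos (by linarith) ht₀0
  refine ⟨C, min t₀ (min ((R - r) / (2 * C)) ((R - r) / 2)), hC0, lt_min ht₀0 (lt_min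
    (div_pos (by linarith) (by positivity)) (by linarith)), ?_⟩
  intro F hF δ hδ hδ1 hnear
  have hδt : δ ≤ t₀ := hδ1.trans (min_le_left _ _)
  have hδR : δ ≤ (R - r) / (2 * C) := hδ1.trans ((min_le_right _ _).trans (min_le_left _ _))
  have hδR' : δ ≤ (R - r) / 2 := hδ1.trans ((min_le_right _ _).trans (min_le_right _ _))
  have hCδ : C * δ ≤ (R - r) / 2 := by
    calc C * δ ≤ C * ((R - r) / (2 * C)) := mul_le_mul_of_nonneg_left hδR hC0.le
      _ = (R - r) / 2 := by field_simp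
  let f : ℕ → ℂ × ℂ → ℂ × ℂ := fun j z => U.P (F^[j] (s z)) - z
  -- differentiability
  have hfd : ∀ j, DifferentiableOn ℂ (f j) (ball c₀ R) := by
    intro j
    exact ((HolMap_iterate U hF j).2 X₀ s R hs).sub differentiableOn_id
  -- step 1
  have step1 : ∀ j : ℕ, (j : ℝ) * δ ≤ r' / 4 → ∀ z ∈ closedBall c₀ (r' / 2),
      F^[j] (s z) = s (z + f j z) ∧ ‖f j z‖ ≤ j * δ := by
    intro j
    induction j with
    | zero =>
      intro _ z hz
      have hz' : dist z c₀ ≤ r' / 2 := hz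
      have hPz : U.P (s z) = z := hs.2.2.2.2 z (by rw [mem_ball]; linarith)
      have hf0 : f 0 z = 0 := by
        change U.P (F^[0] (s z)) - z = 0
        rw [Function.iterate_zero, id, hPz, sub_self]
      rw [hf0, add_zero]
      exact ⟨rfl, by simp⟩
    | succ n ih =>
      intro hn z hz
      have hz' : dist z c₀ ≤ r' / 2 := hz
      have hn' : (n : ℝ) * δ ≤ r' / 4 := by
        push_cast at hn; linarith
      obtain ⟨ih1, ih2⟩ := ih hn' z hz
      have hz'' : z + f n z ∈ closedBall c₀ r' := by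
        rw [mem_closedBall]
        calc dist (z + f n z) c₀ ≤ dist (z + f n z) z + dist z c₀ := dist_triangle _ _ _
          _ ≤ r' := by rw [dist_eq_norm, add_sub_cancel_left]; linarith
      have hz3 : dist (z + f n z) c₀ ≤ r' := hz''
      have hnr := (nearAt_iff_sec U hs hδ.le (by linarith) F).1 (hnear _ hz'')
      have e1 : F^[n + 1] (s z) = F (s (z + f n z)) := by
        rw [Function.iterate_succ_apply', ih1]
      have e2 : z + f (n + 1) z = U.P (F (s (z + f n z))) := by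
        change z + (U.P (F^[n + 1] (s z)) - z) = _
        rw [e1]; abel
      refine ⟨?_, ?_⟩
      · rw [e2, e1]; exact hnr.2
      · have e3 : f (n + 1) z = (U.P (F (s (z + f n z))) - (z + f n z)) + f n z := by
          rw [← e2]; abel
        rw [e3]
        calc _ ≤ ‖U.P (F (s (z + f n z))) - (z + f n z)‖ + ‖f n z‖ := norm_add_le _ _
          _ ≤ δ + n * δ := add_le_add hnr.1 ih2
          _ = ((n + 1 : ℕ) : ℝ) * δ := by push_cast; ring
  -- step 2
  have hc₀mem : c₀ ∈ closedBall c₀ (r' / 2) := mem_closedBall_self (by linarith)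
  have hsc₀ : s c₀ = X₀ := hs.2.2.2.1
  have step2 : ∀ j : ℕ, (j : ℝ) * δ ≤ t₀ → ∀ z ∈ ball c₀ R₂, ‖f j z‖ ≤ M + ‖c₀‖ + R := by
    intro j hj z hz
    have hz' : dist z c₀ < R₂ := hz
    have h4 := (step1 j (hj.trans ht₀r) c₀ hc₀mem).2
    have h5 : U.P (F^[j] (s c₀)) ∈ closedBall c₀ (r' / 4) := by
      rw [mem_closedBall, dist_eq_norm]
      exact h4.trans (hj.trans ht₀r)
    have h6 := hK1 c₀ R (fun z => U.P (F^[j] (s z))) hR0 ((HolMap_iterate U hF j).2 X₀ s R hs)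
      (fun z _ => U.P_mem _) c₀ (mem_closedBall_self (by rw [hrr]; linarith)) h5 z
      (by rw [hrr, mem_closedBall]; linarith)
    have h7 := hM _ h6
    have h8 : ‖z‖ ≤ ‖c₀‖ + R := by
      calc ‖z‖ = ‖c₀ + (z - c₀)‖ := by congr 1; abel
        _ ≤ ‖c₀‖ + ‖z - c₀‖ := norm_add_le _ _
        _ ≤ ‖c₀‖ + R := by rw [← dist_eq_norm]; linarith
    calc ‖f j z‖ ≤ ‖U.P (F^[j] (s z))‖ + ‖z‖ := norm_sub_le _ _
      _ ≤ M + ‖c₀‖ + R := by linarith
  -- step 3
  have step3 : ∀ j : ℕ, (j : ℝ) * δ ≤ t₀ → ∀ z ∈ ball c₀ R₁, ‖f j z‖ ≤ c := by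
    intro j hj z hz
    have hz' : dist z c₀ < R₁ := hz
    rcases Nat.eq_zero_or_pos j with rfl | hjpos
    · have hPz : U.P (s z) = z := hs.2.2.2.2 z (by rw [mem_ball]; linarith)
      have hf0 : f 0 z = 0 := by
        change U.P (F^[0] (s z)) - z = 0
        rw [Function.iterate_zero, id, hPz, sub_self]
      rw [hf0, norm_zero]; exact hc0.le
    have hj0 : (0 : ℝ) < j := by exact_mod_cast hjpos
    have h4 := htc c₀ (f j) ((hfd j).mono (ball_subset_ball h3.le)) (step2 j hj) (j * δ)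
      (by positivity) (hj.trans ht₀1) (fun w hw => (step1 j (hj.trans ht₀r) w
        (ball_subset_closedBall hw)).2) z hz
    calc ‖f j z‖ ≤ C1 * (j * δ) ^ θ := h4
      _ ≤ C1 * t₀ ^ θ :=
        mul_le_mul_of_nonneg_left (Real.rpow_le_rpow (by positivity) hj hθ.1.le) hC1.le
      _ ≤ c := ht₀c
  -- step 4
  set m := ⌊t₀ / δ⌋₊ with hm
  have hx1 : 1 ≤ t₀ / δ := by rw [le_div_iff₀ hδ]; linarith
  have hm1 : 0 < m := Nat.floor_pos.2 hx1
  have hmδ : (m : ℝ) * δ ≤ t₀ := by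
    have := Nat.floor_le (show 0 ≤ t₀ / δ by positivity)
    rw [← hm, le_div_iff₀ hδ] at this
    exact this
  have hm2 : t₀ / δ ≤ 2 * m := by
    have h4 := Nat.lt_floor_add_one (t₀ / δ)
    rw [← hm] at h4
    have h5 : (1 : ℝ) ≤ m := by exact_mod_cast hm1
    linarith
  have hjm : ∀ j ≤ m, (j : ℝ) * δ ≤ t₀ := by
    intro j hj
    have : (j : ℝ) ≤ m := by exact_mod_cast hj
    calc (j : ℝ) * δ ≤ m * δ := mul_le_mul_of_nonneg_right this hδ.le
      _ ≤ t₀ := hmδ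
  have hδ1t : ((1 : ℕ) : ℝ) * δ ≤ t₀ := by push_cast; linarith
  -- same sheet
  have hsheet : ∀ z ∈ ball c₀ R₁, F (s z) = s (z + f 1 z) := by
    refine lift_unique U (convex_ball c₀ R₁).isPreconnected (G := fun z => F (s z))
      (G' := fun z => s (z + f 1 z)) ?_ ?_ ?_ (a := c₀) (mem_ball_self (by linarith)) ?_
    · exact hF.1.comp_continuousOn (hs.2.2.1.mono (ball_subset_ball (by linarith)))
    · refine hs.2.2.1.comp (continuousOn_id.add
        ((hfd 1).continuousOn.mono (ball_subset_ball (by linarith)))) ?_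
      intro z hz
      have hz' : dist z c₀ < R₁ := hz
      rw [mem_ball]
      calc dist (z + f 1 z) c₀ ≤ dist (z + f 1 z) z + dist z c₀ := dist_triangle _ _ _
        _ < R := by
          rw [dist_eq_norm, add_sub_cancel_left]
          have := step3 1 hδ1t z hz
          have : c ≤ (R - r) / 4 := by rw [hc, hR₁]; linarith
          rw [hR₁] at hz'
          linarith
    · intro z hz
      have hz' : dist z c₀ < R₁ := hz
      have hmem : z + f 1 z ∈ ball c₀ R := by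
        rw [mem_ball]
        calc dist (z + f 1 z) c₀ ≤ dist (z + f 1 z) z + dist z c₀ := dist_triangle _ _ _
          _ < R := by
            rw [dist_eq_norm, add_sub_cancel_left]
            have := step3 1 hδ1t z hz
            have : c ≤ (R - r) / 4 := by rw [hc, hR₁]; linarith
            rw [hR₁] at hz'
            linarith
      change U.P (F (s z)) = U.P (s (z + f 1 z))
      rw [hs.2.2.2.2 _ hmem]
      change U.P (F (s z)) = z + (U.P (F^[1] (s z)) - z)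
      rw [Function.iterate_one]; abel
    · have := (step1 1 (hδ1t.trans ht₀r) c₀ hc₀mem).1
      rw [Function.iterate_one] at this
      exact this
  -- step 5
  have hav := average_bound (p := c₀) (r := r) (R₁ := R₁) (by linarith) h1 m hm1 f ?_ ?_ ?_ ?_
  · intro z hz
    have hz' : dist z c₀ ≤ r := hz
    have h4 := hav z hz
    have h5 : (R₁ - r) / (2 * m) ≤ C * δ := by
      rw [hC]
      have h6 : (R₁ - r) / (2 * m) ≤ (R₁ - r) / (t₀ / δ) :=
        div_le_div_of_nonneg_left (by linarith) (by positivity) hm2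
      calc _ ≤ (R₁ - r) / (t₀ / δ) := h6
        _ = (R₁ - r) / t₀ * δ := by field_simp
    rw [nearAt_iff_sec U hs (by positivity) (by linarith) F]
    have hzR : z ∈ ball c₀ R₁ := by rw [mem_ball]; linarith
    have h7 : U.P (F (s z)) = z + f 1 z := by
      change _ = z + (U.P (F^[1] (s z)) - z)
      rw [Function.iterate_one]; abel
    refine ⟨?_, ?_⟩
    · rw [h7, add_sub_cancel_left]; exact h4.trans h5
    · rw [h7]; exact hsheet z hzR
  · intro z hz
    have hz' : dist z c₀ < R₁ := hz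
    have hPz : U.P (s z) = z := hs.2.2.2.2 z (by rw [mem_ball]; linarith)
    change U.P (F^[0] (s z)) - z = 0
    rw [Function.iterate_zero, id, hPz, sub_self]
  · intro j _
    exact (hfd j).mono (ball_subset_ball (by linarith))
  · intro j hj z hz
    rw [← hc]
    exact step3 j (hjm j hj) z hz
  · intro j _ z hz
    have hz' : dist z c₀ ≤ r := hz
    have hzR : z ∈ ball c₀ R₁ := by rw [mem_ball]; linarith
    change U.P (F^[j + 1] (s z)) - z = f 1 z + (U.P (F^[j] (s (z + f 1 z))) - (z + f 1 z))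
    rw [Function.iterate_succ_apply, hsheet z hzR]; abel

/-- a monotone version of `NearAt` -/
def WNear (F : TT → TT) (X : TT) (δ : ℝ) : Prop :=
  ∃ s r, U.Sec s X r ∧ ‖U.P (F X) - U.P X‖ < r ∧ ‖U.P (F X) - U.P X‖ ≤ δ ∧ F X = s (U.P (F X))

theorem WNear.mono {F : TT → TT} {X : TT} {δ δ' : ℝ} (h : WNear U F X δ) (hδ : δ ≤ δ') :
    WNear U F X δ' := by
  obtain ⟨s, r, h1, h2, h3, h4⟩ := h
  exact ⟨s, r, h1, h2, h3.trans hδ, h4⟩

theorem WNear_of_nearAt {F : TT → TT} {X : TT} {δ : ℝ} (h : U.NearAt F X δ) : WNear U F X δ := by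
  obtain ⟨s, r, h1, h2, h3, h4⟩ := h
  exact ⟨s, r, h1, lt_of_le_of_lt h3 h2, h3, h4⟩

theorem nearAt_of_WNear {F : TT → TT} {X : TT} {δ r : ℝ} (h : WNear U F X δ) (hδ : δ < r)
    (hr : 0 < r) (hM : ball (U.P X) r ⊆ MM) : U.NearAt F X δ := by
  obtain ⟨s, ρ, h1, h2, h3, h4⟩ := h
  obtain ⟨s', hs'⟩ := exists_sec U X hr hM
  refine ⟨s', r, hs', hδ, h3, ?_⟩
  have := sec_eqOn U h1 hs' (mem_ball_self h1.1) (mem_ball_self hr)
    (by rw [h1.2.2.2.1, hs'.2.2.2.1]) (U.P (F X))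
    ⟨by rw [mem_ball, dist_eq_norm]; exact h2, by rw [mem_ball, dist_eq_norm]; linarith⟩
  rw [← this]; exact h4

theorem nearAt_zero_iff {F : TT → TT} {X : TT} : U.NearAt F X 0 ↔ F X = X := by
  constructor
  · rintro ⟨s, r, h1, h2, h3, h4⟩
    have h5 : U.P (F X) = U.P X := by
      rw [← sub_eq_zero, ← norm_le_zero_iff]; exact h3
    rw [h4, h5]; exact h1.2.2.2.1
  · intro h
    obtain ⟨r, hr, hrM⟩ := Metric.isOpen_iff.1 MM_isOpen (U.P X) (U.P_mem X)
    obtain ⟨s, hs⟩ := exists_sec U X hr hrM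
    refine ⟨s, r, hs, hr, ?_, ?_⟩
    · rw [h]; simp
    · rw [h]; exact hs.2.2.2.1.symm

theorem exists_unif_radius {K : Set TT} (hK : IsCompact K) :
    ∃ r : ℝ, 0 < r ∧ ∀ X ∈ K, ball (U.P X) r ⊆ MM := by
  have hPK : IsCompact (U.P '' K) := hK.image (P_continuous U)
  obtain ⟨r, hr, h⟩ := hPK.exists_thickening_subset_open MM_isOpen
    (by rintro _ ⟨X, _, rfl⟩; exact U.P_mem X)
  refine ⟨r, hr, fun X hX => ?_⟩
  refine (Metric.ball_subset_thickening (mem_image_of_mem _ hX) r).trans h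

theorem lin_bound (D : ModularData) (X₀ : TT) {s : ℂ × ℂ → TT} {R r₀ : ℝ}
    (hs : U.Sec s X₀ R) (hr₀ : 0 < r₀) (hR : r₀ < R) (K : Set TT) (hK : IsCompact K) :
    ∃ C δ₀ : ℝ, 0 < C ∧ 0 < δ₀ ∧ ∀ F : TT → TT, U.HolMap F → ∀ δ : ℝ, 0 ≤ δ → δ ≤ δ₀ →
      (∀ X ∈ s '' closedBall (U.P X₀) r₀, U.NearAt F X δ) → ∀ X ∈ K, U.NearAt F X (C * δ) := by
  let W : Set TT := s '' closedBall (U.P X₀) r₀
  -- the property for sets
  let Good : Set TT → Prop := fun V => ∃ C δ₁ : ℝ, 0 < C ∧ 0 < δ₁ ∧ ∀ F : TT → TT, U.HolMap F →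
    ∀ δ : ℝ, 0 < δ → δ ≤ δ₁ → (∀ X ∈ W, U.NearAt F X δ) → ∀ X ∈ V, WNear U F X (C * δ)
  have hmono : ∀ V V' : Set TT, V ⊆ V' → Good V' → Good V := by
    rintro V V' hVV ⟨C, δ₁, h1, h2, h3⟩
    exact ⟨C, δ₁, h1, h2, fun F hF δ hδ hδ1 hn X hX => h3 F hF δ hδ hδ1 hn X (hVV hX)⟩
  have hunion : ∀ V V' : Set TT, Good V → Good V' → Good (V ∪ V') := by
    rintro V V' ⟨C, δ₁, h1, h2, h3⟩ ⟨C', δ₁', h1', h2', h3'⟩
    refine ⟨max C C', min δ₁ δ₁', lt_max_of_lt_left h1, lt_min h2 h2', ?_⟩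
    intro F hF δ hδ hδ1 hn X hX
    rcases hX with hX | hX
    · exact (h3 F hF δ hδ (hδ1.trans (min_le_left _ _)) hn X hX).mono U
        (mul_le_mul_of_nonneg_right (le_max_left _ _) hδ.le)
    · exact (h3' F hF δ hδ (hδ1.trans (min_le_right _ _)) hn X hX).mono U
        (mul_le_mul_of_nonneg_right (le_max_right _ _) hδ.le)
  -- every point has a good neighbourhood
  let S : Set TT := {Y | ∃ N ∈ 𝓝 Y, Good N}
  have hSo : IsOpen S := by
    rw [isOpen_iff_mem_nhds]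
    rintro Y ⟨N, hN, hg⟩
    have : interior N ∈ 𝓝 Y := interior_mem_nhds.2 hN
    filter_upwards [this] with Z hZ
    exact ⟨N, mem_interior_iff_mem_nhds.1 hZ, hg⟩
  have hX₀ : X₀ ∈ S := by
    refine ⟨s '' ball (U.P X₀) r₀, ?_, 1, 1, one_pos, one_pos, ?_⟩
    · have hs' : U.Sec s (s (U.P X₀)) r₀ := sec_restrict U hs hr₀ (by rw [dist_self]; linarith)
      have h1 := sec_isOpen U hs'
      have h2 : U.P (s (U.P X₀)) = U.P X₀ := by rw [hs.2.2.2.1]
      rw [h2] at h1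
      exact h1.mem_nhds ⟨U.P X₀, mem_ball_self hr₀, hs.2.2.2.1⟩
    · intro F _ δ _ _ hn X hX
      rw [one_mul]
      exact WNear_of_nearAt U (hn X (image_mono ball_subset_closedBall hX))
  have hSc : IsClosed S := by
    rw [← isOpen_compl_iff, isOpen_iff_mem_nhds]
    intro Y hY
    obtain ⟨ρ, hρ, hρM⟩ := Metric.isOpen_iff.1 MM_isOpen (U.P Y) (U.P_mem Y)
    obtain ⟨σ, hσ⟩ := exists_sec U Y hρ hρM
    have hσ8 : U.Sec σ (σ (U.P Y)) (ρ / 8) :=
      sec_restrict U hσ (by linarith) (by rw [dist_self]; linarith)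
    have hσY : σ (U.P Y) = Y := hσ.2.2.2.1
    rw [hσY] at hσ8
    have hnb : σ '' ball (U.P Y) (ρ / 8) ∈ 𝓝 Y :=
      (sec_isOpen U hσ8).mem_nhds ⟨U.P Y, mem_ball_self (by linarith), hσY⟩
    filter_upwards [hnb] with Z hZ hZS
    apply hY
    obtain ⟨q, hq, rfl⟩ := hZ
    have hq' : dist q (U.P Y) < ρ / 8 := hq
    obtain ⟨N, hN, C, δ₁, hC, hδ₁, hgood⟩ := hZS
    -- a small closed ball around q inside N
    have hqb : q ∈ ball (U.P Y) ρ := by rw [mem_ball]; linarith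
    have hσq : ContinuousAt σ q := (hσ.2.2.1 q hqb).continuousAt (isOpen_ball.mem_nhds hqb)
    obtain ⟨r', hr', hr'N⟩ := Metric.nhds_basis_closedBall.mem_iff.1 (hσq hN)
    set r'' := min r' (ρ / 8) with hr''
    have hr''0 : 0 < r'' := lt_min hr' (by linarith)
    have hPq : U.P (σ q) = q := hσ.2.2.2.2 q hqb
    have hsecq : U.Sec σ (σ q) (ρ / 2) := sec_restrict U hσ (by linarith) (by linarith)
    obtain ⟨C', δ₂, hC', hδ₂, hloc⟩ := lin_local U D (σ q) hsecq hr''0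
      (show r'' < ρ / 4 from lt_of_le_of_lt (min_le_right _ _) (by linarith))
      (show ρ / 4 < ρ / 2 by linarith)
    rw [hPq] at hloc
    refine ⟨σ '' closedBall q (ρ / 4), ?_, C' * C, min δ₁ (min (δ₂ / C) (ρ / (8 * C))),
      by positivity, lt_min hδ₁ (lt_min (by positivity) (by positivity)), ?_⟩
    · refine mem_of_superset hnb (image_mono ?_)
      intro w hw
      have hw' : dist w (U.P Y) < ρ / 8 := hw
      rw [mem_closedBall]
      calc dist w q ≤ dist w (U.P Y) + dist (U.P Y) q := dist_triangle _ _ _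
        _ ≤ ρ / 4 := by rw [dist_comm (U.P Y)]; linarith
    · intro F hF δ hδ hδ1 hn X hX
      have hd1 : δ ≤ δ₁ := hδ1.trans (min_le_left _ _)
      have hd2 : δ ≤ δ₂ / C := hδ1.trans ((min_le_right _ _).trans (min_le_left _ _))
      have hd3 : δ ≤ ρ / (8 * C) := hδ1.trans ((min_le_right _ _).trans (min_le_right _ _))
      have hCδ2 : C * δ ≤ δ₂ := by
        rw [le_div_iff₀ hC] at hd2; linarith
      have hCδρ : C * δ ≤ ρ / 8 := by
        rw [le_div_iff₀ (by positivity)] at hd3; linarith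
      obtain ⟨w, hw, rfl⟩ := hX
      rw [mul_assoc]
      apply WNear_of_nearAt
      refine hloc F hF (C * δ) (by positivity) hCδ2 ?_ w hw
      intro z hz
      have hz' : dist z q ≤ r'' := hz
      have hzN : σ z ∈ N := hr'N (show z ∈ closedBall q r' from
        hz'.trans (min_le_left _ _))
      have hw := hgood F hF δ hδ hd1 hn (σ z) hzN
      have hr8 : r'' ≤ ρ / 8 := min_le_right _ _
      have hzY : dist z (U.P Y) < ρ / 4 := by
        calc dist z (U.P Y) ≤ dist z q + dist q (U.P Y) := dist_triangle _ _ _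
          _ < ρ / 4 := by linarith
      have hzs : U.Sec σ (σ z) (ρ / 2) := sec_restrict U hσ (by linarith) (by linarith)
      exact nearAt_of_WNear U hw (show C * δ < ρ / 2 by linarith) (by linarith) hzs.2.1
  have huniv : S = univ := IsClopen.eq_univ ⟨hSc, hSo⟩ ⟨X₀, hX₀⟩
  have hKgood : Good K := by
    refine hK.induction_on (p := Good) ?_ (fun V V' h h' => hmono V V' h h')
      (fun V V' h h' => hunion V V' h h') ?_
    · exact ⟨1, 1, one_pos, one_pos, fun F _ δ _ _ _ X hX => absurd hX (notMem_empty X)⟩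
    · intro X _
      have : X ∈ S := by rw [huniv]; trivial
      obtain ⟨N, hN, hg⟩ := this
      exact ⟨N, mem_nhdsWithin_of_mem_nhds hN, hg⟩
  obtain ⟨C, δ₁, hC, hδ₁, hgood⟩ := hKgood
  obtain ⟨ρ, hρ, hρM⟩ := exists_unif_radius U hK
  refine ⟨C, min δ₁ (ρ / (2 * C)), hC, lt_min hδ₁ (by positivity), ?_⟩
  intro F hF δ hδ hδ1 hn X hX
  rcases hδ.eq_or_lt with rfl | hδ0
  · -- δ = 0
    rw [mul_zero, nearAt_zero_iff]
    have hn0 : ∀ X ∈ W, ∀ δ : ℝ, 0 < δ → δ < R - r₀ → U.NearAt F X δ := by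
      rintro _ ⟨z, hz, rfl⟩ δ hδ hδR
      have hz' : dist z (U.P X₀) ≤ r₀ := hz
      have h1 := (nearAt_zero_iff U).1 (hn (s z) ⟨z, hz, rfl⟩)
      have hz2 : z ∈ ball (U.P X₀) R := by rw [mem_ball]; linarith
      rw [nearAt_iff_sec U hs hδ.le (by linarith), h1, hs.2.2.2.2 z hz2]
      simp [hδ.le]
    have h1 : ∀ δ : ℝ, 0 < δ → δ ≤ min δ₁ ((R - r₀) / 2) → WNear U F X (C * δ) := by
      intro δ hδ hδ2
      refine hgood F hF δ hδ (hδ2.trans (min_le_left _ _)) (fun Y hY => hn0 Y hY δ hδ ?_) X hX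
      have := hδ2.trans (min_le_right _ _)
      linarith
    have hpos : 0 < min δ₁ ((R - r₀) / 2) := lt_min hδ₁ (by linarith)
    have h2 : ‖U.P (F X) - U.P X‖ ≤ 0 := by
      refine le_of_forall_pos_le_add ?_
      intro e he
      obtain ⟨_, _, _, _, h3, _⟩ := h1 (min (min δ₁ ((R - r₀) / 2)) (e / C))
        (lt_min hpos (by positivity)) (min_le_left _ _)
      calc ‖U.P (F X) - U.P X‖ ≤ C * min (min δ₁ ((R - r₀) / 2)) (e / C) := h3
        _ ≤ C * (e / C) := mul_le_mul_of_nonneg_left (min_le_right _ _) hC.le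
        _ = 0 + e := by field_simp; ring
    obtain ⟨s', r', h3, _, _, h4⟩ := h1 _ hpos le_rfl
    have h5 : U.P (F X) = U.P X := by
      rw [← sub_eq_zero, ← norm_le_zero_iff]; exact h2
    rw [h4, h5]; exact h3.2.2.2.1
  · have h1 := hgood F hF δ hδ0 (hδ1.trans (min_le_left _ _)) hn X hX
    have h2 : C * δ ≤ ρ / 2 := by
      have h3 : δ ≤ ρ / (2 * C) := hδ1.trans (min_le_right _ _)
      rw [le_div_iff₀ (by positivity)] at h3
      linarith
    exact nearAt_of_WNear U h1 (show C * δ < ρ by linarith) hρ (hρM X hX)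

end Pool.Agent.T05
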