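import Pool.Agent.Lib.MP_0162a5_an.D1
import Pool.Agent.Lib.MP_0162a5_an.D3

/-! MODULE D4: the cone `InC` of infinitesimal holomorphic self-maps of `TT`. -/

set_option autoImplicit false

open Complex Metric Set Filter Topology

namespace Pool.Agent.T05

variable (U : UnivCover)

/-- from nearness for some small `η'` to nearness with a given bound of the displacement -/
theorem nearAt_of {F : TT → TT} {X : TT} {η' : ℝ} (h : U.NearAt F X η') {s : ℂ × ℂ → TT} {r δ : ℝ}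
    (hs : U.Sec s X r) (hδr : δ < r) (hδ : ‖U.P (F X) - U.P X‖ ≤ δ) : U.NearAt F X δ := by
  obtain ⟨s', r', hs', h1, h2, h3⟩ := h
  refine ⟨s, r, hs, hδr, hδ, ?_⟩
  rw [h3]
  have hm : U.P (F X) ∈ ball (U.P X) r' := by
    rw [mem_ball, dist_eq_norm]; linarith
  have hm2 : U.P (F X) ∈ ball (U.P X) r := by
    rw [mem_ball, dist_eq_norm]; linarith
  rw [hs'.2.2.2.2 _ hm]
  exact sec_eqOn U hs' hs (q := U.P X) (mem_ball_self hs'.1) (mem_ball_self hs.1)
    (by rw [hs'.2.2.2.1, hs.2.2.2.1]) _ ⟨hm, hm2⟩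

/-- a section re-centred at another point of its image -/
theorem Sec.recenter {s : ℂ × ℂ → TT} {X : TT} {R r : ℝ} (hs : U.Sec s X R) {p : ℂ × ℂ}
    (hp : p ∈ closedBall (U.P X) r) (hr : r < R) : U.Sec s (s p) (R - r) := by
  have hpR : p ∈ ball (U.P X) R := closedBall_subset_ball hr hp
  have hP : U.P (s p) = p := hs.2.2.2.2 p hpR
  have hsub : ball p (R - r) ⊆ ball (U.P X) R := by
    apply ball_subset_ball'
    rw [mem_closedBall] at hp
    linarith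
  refine ⟨by linarith, ?_, ?_, ?_, ?_⟩
  · rw [hP]; exact hsub.trans hs.2.1
  · rw [hP]; exact hs.2.2.1.mono hsub
  · rw [hP]
  · rw [hP]; exact fun q hq => hs.2.2.2.2 q (hsub hq)

theorem sec_image_compact {s : ℂ × ℂ → TT} {X : TT} {R r : ℝ} (hs : U.Sec s X R) (hr : r < R) :
    IsCompact (s '' closedBall (U.P X) r) :=
  (isCompact_closedBall _ _).image_of_continuousOn (hs.2.2.1.mono (closedBall_subset_ball hr))

theorem InC.hol {V : TT → ℂ × ℂ} (hV : U.InC V) : U.Hol V := by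
  intro X s r hs p hp
  -- a smaller closed ball around `p`
  obtain ⟨ρ, hρ, hρs⟩ := Metric.isOpen_iff.1 isOpen_ball p hp
  have hsub : closedBall p (ρ / 2) ⊆ ball (U.P X) r :=
    (closedBall_subset_ball (by linarith)).trans hρs
  have hK : IsCompact (s '' closedBall p (ρ / 2)) :=
    (isCompact_closedBall _ _).image_of_continuousOn (hs.2.2.1.mono hsub)
  have h1 : ∀ n : ℕ, ∃ (F : TT → TT) (ε : ℝ), U.HolMap F ∧ 0 < ε ∧
      ∀ Y ∈ s '' closedBall p (ρ / 2),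
        ‖V Y - (ε : ℂ)⁻¹ • (U.P (F Y) - U.P Y)‖ ≤ 1 / ((n : ℝ) + 1) := by
    intro n
    obtain ⟨F, ε, hF, hε, _, h⟩ := hV _ hK (1 / ((n : ℝ) + 1)) (by positivity)
    exact ⟨F, ε, hF, hε, fun Y hY => (h Y hY).2⟩
  choose F ε hF hε h2 using h1
  have hd : DifferentiableOn ℂ (fun q => V (s q)) (ball p (ρ / 2)) := by
    refine diffOn_of_limit (l := atTop) isOpen_ball
      (F := fun n q => (ε n : ℂ)⁻¹ • (U.P (F n (s q)) - q)) ?_ ?_
    · refine Filter.Eventually.of_forall fun n => ?_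
      have h3 : DifferentiableOn ℂ (fun q => U.P (F n (s q))) (ball (U.P X) r) := (hF n).2 X s r hs
      have h4 := h3.mono (ball_subset_closedBall.trans hsub)
      have h5 : DifferentiableOn ℂ (fun q => U.P (F n (s q)) - q) (ball p (ρ / 2)) :=
        h4.sub differentiableOn_id
      exact h5.const_smul ((ε n : ℂ)⁻¹)
    · apply TendstoUniformlyOn.tendstoLocallyUniformlyOn
      rw [Metric.tendstoUniformlyOn_iff]
      intro e he
      obtain ⟨N, hN⟩ := exists_nat_one_div_lt he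
      filter_upwards [eventually_ge_atTop N] with n hn q hq
      have h5 := h2 n (s q) ⟨q, ball_subset_closedBall hq, rfl⟩
      rw [hs.2.2.2.2 q (hsub (ball_subset_closedBall hq))] at h5
      rw [dist_eq_norm]
      refine lt_of_le_of_lt h5 (lt_of_le_of_lt ?_ hN)
      gcongr
  exact (hd.differentiableAt (isOpen_ball.mem_nhds (mem_ball_self (by linarith)))).differentiableWithinAt

theorem InC.bound (D : ModularData) (X₀ : TT) {s : ℂ × ℂ → TT} {R r₀ : ℝ}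
    (hs : U.Sec s X₀ R) (hr₀ : 0 < r₀) (hR : r₀ < R) (K : Set TT) (hK : IsCompact K) :
    ∃ C : ℝ, 0 < C ∧ ∀ V : TT → ℂ × ℂ, U.InC V → ∀ M : ℝ,
      (∀ X ∈ s '' closedBall (U.P X₀) r₀, ‖V X‖ ≤ M) → ∀ X ∈ K, ‖V X‖ ≤ C * M := by
  obtain ⟨C, δ₀, hC, hδ₀, hlin⟩ := lin_bound U D X₀ hs hr₀ hR K hK
  refine ⟨C, hC, ?_⟩
  intro V hV M hM X hX
  have hW : IsCompact (s '' closedBall (U.P X₀) r₀) := sec_image_compact U hs hR
  have hM0 : 0 ≤ M :=
    (norm_nonneg _).trans (hM (s (U.P X₀)) ⟨U.P X₀, mem_closedBall_self hr₀.le, rfl⟩)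
  -- it suffices to prove the bound with `η` for small `η`
  have key : ∀ η : ℝ, 0 < η → η < 1 → η * (M + 1) < min δ₀ (R - r₀) →
      ‖V X‖ ≤ C * M + (C + 1) * η := by
    intro η hη hη1 hη2
    obtain ⟨F, ε, hF, hε, hεη, h⟩ := hV (K ∪ s '' closedBall (U.P X₀) r₀) (hK.union hW) η hη
    have hdisp : ∀ Y ∈ s '' closedBall (U.P X₀) r₀, ‖U.P (F Y) - U.P Y‖ ≤ ε * (M + η) := by
      intro Y hY
      have h1 := (h Y (Or.inr hY)).2
      have h2 : ‖(ε : ℂ)⁻¹ • (U.P (F Y) - U.P Y)‖ ≤ M + η := by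
        calc ‖(ε : ℂ)⁻¹ • (U.P (F Y) - U.P Y)‖
            = ‖V Y - (V Y - (ε : ℂ)⁻¹ • (U.P (F Y) - U.P Y))‖ := by congr 1; abel
          _ ≤ ‖V Y‖ + ‖V Y - (ε : ℂ)⁻¹ • (U.P (F Y) - U.P Y)‖ := norm_sub_le _ _
          _ ≤ M + η := add_le_add (hM Y hY) h1
      rw [norm_smul, norm_inv, Complex.norm_real, Real.norm_eq_abs, abs_of_pos hε] at h2
      rwa [inv_mul_le_iff₀ hε] at h2
    have hδ : ε * (M + η) < min δ₀ (R - r₀) := by
      refine lt_of_le_of_lt ?_ hη2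
      calc ε * (M + η) ≤ η * (M + η) := by gcongr
        _ ≤ η * (M + 1) := by gcongr
    have hδ1 : ε * (M + η) < δ₀ := lt_of_lt_of_le hδ (min_le_left _ _)
    have hδ2 : ε * (M + η) < R - r₀ := lt_of_lt_of_le hδ (min_le_right _ _)
    have hnear := hlin F hF (ε * (M + η)) (by positivity) hδ1.le (by
      intro Y hY
      obtain ⟨η', _, hN⟩ := (h Y (Or.inr hY)).1
      obtain ⟨p, hp, rfl⟩ := hY
      exact nearAt_of U hN (Sec.recenter U hs hp hR) hδ2 (hdisp _ ⟨p, hp, rfl⟩)) X hX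
    obtain ⟨_, _, _, _, h3, _⟩ := hnear
    have h4 : ‖(ε : ℂ)⁻¹ • (U.P (F X) - U.P X)‖ ≤ C * (M + η) := by
      rw [norm_smul, norm_inv, Complex.norm_real, Real.norm_eq_abs, abs_of_pos hε,
        inv_mul_le_iff₀ hε]
      linarith
    have h5 := (h X (Or.inl hX)).2
    calc ‖V X‖ = ‖(V X - (ε : ℂ)⁻¹ • (U.P (F X) - U.P X)) + (ε : ℂ)⁻¹ • (U.P (F X) - U.P X)‖ := by
          congr 1; abel
      _ ≤ ‖V X - (ε : ℂ)⁻¹ • (U.P (F X) - U.P X)‖ + ‖(ε : ℂ)⁻¹ • (U.P (F X) - U.P X)‖ :=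
          norm_add_le _ _
      _ ≤ η + C * (M + η) := add_le_add h5 h4
      _ = C * M + (C + 1) * η := by ring
  -- let `η → 0`
  have hlim : Tendsto (fun η : ℝ => C * M + (C + 1) * η) (𝓝[>] 0) (𝓝 (C * M)) := by
    have h1 : Tendsto (fun η : ℝ => C * M + (C + 1) * η) (𝓝 0) (𝓝 (C * M + (C + 1) * 0)) := by
      apply Continuous.tendsto
      fun_prop
    rw [mul_zero, add_zero] at h1
    exact h1.mono_left nhdsWithin_le_nhds
  refine ge_of_tendsto hlim ?_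
  have hm : 0 < min δ₀ (R - r₀) := lt_min hδ₀ (by linarith)
  have e1 : ∀ᶠ η : ℝ in 𝓝[>] 0, 0 < η := eventually_mem_nhdsWithin
  have e2 : ∀ᶠ η : ℝ in 𝓝[>] 0, η < 1 := nhdsWithin_le_nhds (Iio_mem_nhds one_pos)
  have e3 : ∀ᶠ η : ℝ in 𝓝[>] 0, η < min δ₀ (R - r₀) / (M + 1) :=
    nhdsWithin_le_nhds (Iio_mem_nhds (by positivity))
  filter_upwards [e1, e2, e3] with η h1 h2 h3
  refine key η h1 h2 ?_
  rwa [lt_div_iff₀ (by positivity)] at h3

/-- normal families on `TT` -/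
theorem montel_TT {ι : Type} (l : Ultrafilter ι) (V : ι → TT → ℂ × ℂ)
    (hV : ∀ i, U.Hol (V i))
    (hb : ∀ K : Set TT, IsCompact K → ∃ C : ℝ, ∀ᶠ i in (l : Filter ι), ∀ X ∈ K, ‖V i X‖ ≤ C) :
    ∃ V' : TT → ℂ × ℂ, ∀ K : Set TT, IsCompact K → TendstoUniformlyOn V V' (l : Filter ι) K := by
  -- pointwise limits
  have hpt : ∀ X, ∃ v, Tendsto (fun i => V i X) l (𝓝 v) := by
    intro X
    obtain ⟨C, hC⟩ := hb {X} isCompact_singleton
    obtain ⟨v, _, hv⟩ := (isCompact_closedBall (0 : ℂ × ℂ) C).ultrafilter_le_nhds'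
      (l.map (fun i => V i X)) (by
        rw [Ultrafilter.mem_map]
        filter_upwards [hC] with i hi
        simpa using hi X rfl)
    exact ⟨v, hv⟩
  choose V' hV' using hpt
  refine ⟨V', fun K hK => ?_⟩
  rw [← tendstoLocallyUniformlyOn_iff_tendstoUniformlyOn_of_compact hK]
  suffices h : TendstoLocallyUniformly V V' (l : Filter ι) from
    (tendstoLocallyUniformlyOn_univ.2 h).mono (subset_univ K)
  rw [Metric.tendstoLocallyUniformly_iff]
  intro e he X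
  obtain ⟨r, hr, hrM⟩ := Metric.isOpen_iff.1 MM_isOpen (U.P X) (U.P_mem X)
  obtain ⟨s, hs⟩ := exists_sec U X hr hrM
  obtain ⟨f, hf, hlim⟩ := montel l (p := U.P X) (r := r) (F := fun i p => V i (s p))
    (Filter.Eventually.of_forall fun i => hV i X s r hs) (by
      intro ρ hρ
      obtain ⟨C, hC⟩ := hb (s '' closedBall (U.P X) ρ) (sec_image_compact U hs hρ)
      refine ⟨C, ?_⟩
      filter_upwards [hC] with i hi z hz
      exact hi _ ⟨z, ball_subset_closedBall hz, rfl⟩)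
  have hfV : ∀ p ∈ ball (U.P X) r, f p = V' (s p) := fun p hp =>
    tendsto_nhds_unique (hlim.tendsto_at hp) (hV' (s p))
  have hX : U.P X ∈ ball (U.P X) r := mem_ball_self hr
  obtain ⟨t, ht, hte⟩ := Metric.tendstoLocallyUniformlyOn_iff.1 hlim e he (U.P X) hX
  rw [isOpen_ball.nhdsWithin_eq hX] at ht
  obtain ⟨ρ, hρ, hρt⟩ := Metric.mem_nhds_iff.1 (inter_mem ht (isOpen_ball.mem_nhds hX))
  have hρr : ball (U.P X) (min ρ r) ⊆ t ∩ ball (U.P X) r :=
    (ball_subset_ball (min_le_left _ _)).trans hρt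
  have hs' : U.Sec s X (min ρ r) := Sec.shrink U hs (lt_min hρ hr) (min_le_right _ _)
  refine ⟨s '' ball (U.P X) (min ρ r), (sec_isOpen U hs').mem_nhds
    ⟨U.P X, mem_ball_self (lt_min hρ hr), hs.2.2.2.1⟩, ?_⟩
  filter_upwards [hte] with i hi
  rintro _ ⟨p, hp, rfl⟩
  have h1 := hi p (hρr hp).1
  rwa [hfV p (hρr hp).2] at h1

/-- closure under limits along ultrafilters. -/
theorem InC.limit (D : ModularData) (X₀ : TT) {s : ℂ × ℂ → TT} {R r₀ : ℝ}
    (hs : U.Sec s X₀ R) (hr₀ : 0 < r₀) (hR : r₀ < R) {ι : Type} (l : Ultrafilter ι)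
    (V : ι → TT → ℂ × ℂ) (hV : ∀ i, U.InC (V i)) (M : ℝ)
    (hM : ∀ i, ∀ X ∈ s '' closedBall (U.P X₀) r₀, ‖V i X‖ ≤ M) :
    ∃ V' : TT → ℂ × ℂ, U.InC V' ∧ ∀ K : Set TT, IsCompact K →
      TendstoUniformlyOn V V' (l : Filter ι) K := by
  obtain ⟨V', hV'⟩ := montel_TT U l V (fun i => InC.hol U (hV i)) (by
    intro K hK
    obtain ⟨C, _, h⟩ := InC.bound U D X₀ hs hr₀ hR K hK
    exact ⟨C * M, Filter.Eventually.of_forall fun i => h (V i) (hV i) M (hM i)⟩)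
  refine ⟨V', ?_, hV'⟩
  intro K hK η hη
  have h1 := Metric.tendstoUniformlyOn_iff.1 (hV' K hK) (η / 2) (by linarith)
  obtain ⟨i, hi⟩ := h1.exists
  obtain ⟨F, ε, hF, hε, hεη, h⟩ := hV i K hK (η / 2) (by linarith)
  refine ⟨F, ε, hF, hε, by linarith, ?_⟩
  intro X hX
  obtain ⟨⟨η', h2, h3⟩, h4⟩ := h X hX
  refine ⟨⟨η', by linarith, h3⟩, ?_⟩
  have h5 := hi X hX
  rw [dist_eq_norm] at h5
  calc ‖V' X - (ε : ℂ)⁻¹ • (U.P (F X) - U.P X)‖
      = ‖(V' X - V i X) + (V i X - (ε : ℂ)⁻¹ • (U.P (F X) - U.P X))‖ := by congr 1; abel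
    _ ≤ ‖V' X - V i X‖ + ‖V i X - (ε : ℂ)⁻¹ • (U.P (F X) - U.P X)‖ := norm_add_le _ _
    _ ≤ η := by linarith

theorem InC.smul {V : TT → ℂ × ℂ} (hV : U.InC V) {c : ℝ} (hc : 0 < c) :
    U.InC (fun X => (c : ℂ) • V X) := by
  intro K hK η hη
  have hη1 : 0 < min η (min (η / c) (c * η)) := lt_min hη (lt_min (by positivity) (by positivity))
  obtain ⟨F, ε, hF, hε, hεη, h⟩ := hV K hK _ hη1
  have hcC : (c : ℂ) ≠ 0 := Complex.ofReal_ne_zero.2 hc.ne'
  refine ⟨F, ε / c, hF, by positivity, ?_, ?_⟩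
  · rw [div_lt_iff₀ hc]
    have : ε < c * η := lt_of_lt_of_le hεη ((min_le_right _ _).trans (min_le_right _ _))
    linarith
  · intro X hX
    obtain ⟨⟨η', h2, h3⟩, h4⟩ := h X hX
    refine ⟨⟨η', h2.trans (min_le_left _ _), h3⟩, ?_⟩
    have h5 : (c : ℂ) • V X - ((ε / c : ℝ) : ℂ)⁻¹ • (U.P (F X) - U.P X) =
        (c : ℂ) • (V X - (ε : ℂ)⁻¹ • (U.P (F X) - U.P X)) := by
      rw [smul_sub (c : ℂ), smul_smul]
      congr 2
      push_cast
      rw [inv_div, div_eq_mul_inv]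
    rw [h5, norm_smul, Complex.norm_real, Real.norm_eq_abs, abs_of_pos hc]
    have h6 : ‖V X - (ε : ℂ)⁻¹ • (U.P (F X) - U.P X)‖ ≤ η / c :=
      h4.trans ((min_le_right _ _).trans (min_le_left _ _))
    calc c * ‖V X - (ε : ℂ)⁻¹ • (U.P (F X) - U.P X)‖ ≤ c * (η / c) := by gcongr
      _ = η := by field_simp

theorem InC.deck {V : TT → ℂ × ℂ} (hV : U.InC V) {γ : TT ≃ₜ TT} (hγ : ∀ Y, U.P (γ Y) = U.P Y) :
    U.InC (fun X => V (γ X)) := by
  have hγs : ∀ Y, U.P (γ.symm Y) = U.P Y := by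
    intro Y
    have := hγ (γ.symm Y)
    rw [Homeomorph.apply_symm_apply] at this
    exact this.symm
  intro K hK η hη
  obtain ⟨F, ε, hF, hε, hεη, h⟩ := hV (γ '' K) (hK.image γ.continuous) η hη
  refine ⟨fun X => γ.symm (F (γ X)), ε, ⟨?_, ?_⟩, hε, hεη, ?_⟩
  · exact γ.symm.continuous.comp (hF.1.comp γ.continuous)
  · intro X s r hs
    have hs' : U.Sec (fun p => γ (s p)) (γ X) r := by
      obtain ⟨h1, h2, h3, h4, h5⟩ := hs
      refine ⟨h1, ?_, ?_, ?_, ?_⟩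
      · rw [hγ]; exact h2
      · rw [hγ]; exact γ.continuous.comp_continuousOn h3
      · simp only; rw [hγ, h4]
      · rw [hγ]; intro p hp; simp only; rw [hγ, h5 p hp]
    have h1 := hF.2 (γ X) _ r hs'
    rw [hγ] at h1
    refine h1.congr ?_
    intro p _
    simp only
    rw [hγs]
  · intro X hX
    obtain ⟨⟨η', h2, s, r, hs, h3, h4, h5⟩, h6⟩ := h (γ X) ⟨X, hX, rfl⟩
    rw [hγ] at h4 h6
    refine ⟨⟨η', h2, fun p => γ.symm (s p), r, ?_, h3, ?_, ?_⟩, ?_⟩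
    · obtain ⟨g1, g2, g3, g4, g5⟩ := hs
      rw [hγ] at g2 g3 g4 g5
      refine ⟨g1, g2, γ.symm.continuous.comp_continuousOn g3, ?_, ?_⟩
      · simp only; rw [g4, Homeomorph.symm_apply_apply]
      · intro p hp; simp only; rw [hγs, g5 p hp]
    · rw [hγs]; exact h4
    · simp only; rw [hγs, ← h5]
    · rw [hγs]; exact h6

theorem swap_mem_ball {p q : ℂ × ℂ} {r : ℝ} : p.swap ∈ ball q.swap r ↔ p ∈ ball q r := by
  rw [mem_ball, mem_ball, Prod.dist_eq, Prod.dist_eq, Prod.fst_swap, Prod.snd_swap, Prod.fst_swap,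
    Prod.snd_swap, max_comm]

theorem swap_mem_ball' {p q : ℂ × ℂ} {r : ℝ} : p.swap ∈ ball q r ↔ p ∈ ball q.swap r := by
  rw [← swap_mem_ball (q := q.swap), Prod.swap_swap]

theorem norm_swap (p : ℂ × ℂ) : ‖p.swap‖ = ‖p‖ := by
  rw [Prod.norm_def, Prod.norm_def, Prod.fst_swap, Prod.snd_swap, max_comm]

theorem swap_diff : Differentiable ℂ (Prod.swap : ℂ × ℂ → ℂ × ℂ) := by
  have : (Prod.swap : ℂ × ℂ → ℂ × ℂ) = fun p => (p.2, p.1) := by funext p; rfl
  rw [this]; fun_prop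

theorem InC.swap {V : TT → ℂ × ℂ} (hV : U.InC V) {σ : TT ≃ₜ TT}
    (hσ : ∀ Y, U.P (σ Y) = (U.P Y).swap) : U.InC (fun X => (V (σ X)).swap) := by
  have hσs : ∀ Y, U.P (σ.symm Y) = (U.P Y).swap := by
    intro Y
    have := hσ (σ.symm Y)
    rw [Homeomorph.apply_symm_apply] at this
    rw [this, Prod.swap_swap]
  -- sections
  have hsec : ∀ {s : ℂ × ℂ → TT} {X : TT} {r : ℝ}, U.Sec s X r →
      U.Sec (fun p => σ (s p.swap)) (σ X) r := by
    rintro s X r ⟨h1, h2, h3, h4, h5⟩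
    refine ⟨h1, ?_, ?_, ?_, ?_⟩
    · rw [hσ]; intro p hp
      have := MM_swap (h2 (swap_mem_ball'.2 hp))
      rwa [Prod.swap_swap] at this
    · rw [hσ]
      refine σ.continuous.comp_continuousOn (h3.comp continuous_swap.continuousOn ?_)
      intro p hp; exact swap_mem_ball'.2 hp
    · simp only; rw [hσ, Prod.swap_swap, h4]
    · rw [hσ]; intro p hp; simp only
      rw [hσ, h5 _ (swap_mem_ball'.2 hp), Prod.swap_swap]
  have hsec' : ∀ {s : ℂ × ℂ → TT} {X : TT} {r : ℝ}, U.Sec s (σ X) r →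
      U.Sec (fun p => σ.symm (s p.swap)) X r := by
    rintro s X r ⟨h1, h2, h3, h4, h5⟩
    rw [hσ] at h2 h3 h4 h5
    refine ⟨h1, ?_, ?_, ?_, ?_⟩
    · intro p hp
      have := MM_swap (h2 (swap_mem_ball.2 hp))
      rwa [Prod.swap_swap] at this
    · refine σ.symm.continuous.comp_continuousOn (h3.comp continuous_swap.continuousOn ?_)
      intro p hp; exact swap_mem_ball.2 hp
    · simp only; rw [h4, Homeomorph.symm_apply_apply]
    · intro p hp; simp only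
      rw [hσs, h5 _ (swap_mem_ball.2 hp), Prod.swap_swap]
  intro K hK η hη
  obtain ⟨F, ε, hF, hε, hεη, h⟩ := hV (σ '' K) (hK.image σ.continuous) η hη
  refine ⟨fun X => σ.symm (F (σ X)), ε, ⟨?_, ?_⟩, hε, hεη, ?_⟩
  · exact σ.symm.continuous.comp (hF.1.comp σ.continuous)
  · intro X s r hs
    have h1 := hF.2 (σ X) _ r (hsec hs)
    rw [hσ] at h1
    have h2 : DifferentiableOn ℂ (fun p => (U.P (F (σ (s p)))).swap) (ball (U.P X) r) := by
      refine swap_diff.comp_differentiableOn ?_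
      have h3 := DifferentiableOn.comp (s := ball (U.P X) r) (t := ball (U.P X).swap r)
        (f := (Prod.swap : ℂ × ℂ → ℂ × ℂ)) h1
        swap_diff.differentiableOn (fun p hp => swap_mem_ball.2 hp)
      refine h3.congr ?_
      intro p _
      simp only [Function.comp_apply, Prod.swap_swap]
    refine h2.congr ?_
    intro p _
    simp only
    rw [hσs]
  · intro X hX
    obtain ⟨⟨η', h2, s, r, hs, h3, h4, h5⟩, h6⟩ := h (σ X) ⟨X, hX, rfl⟩
    rw [hσ] at h4 h6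
    have e1 : U.P (σ.symm (F (σ X))) - U.P X = (U.P (F (σ X)) - (U.P X).swap).swap := by
      rw [hσs, Prod.swap_sub, Prod.swap_swap]
    refine ⟨⟨η', h2, fun p => σ.symm (s p.swap), r, hsec' hs, h3, ?_, ?_⟩, ?_⟩
    · rw [e1, norm_swap]; exact h4
    · simp only; rw [hσs, Prod.swap_swap, ← h5]
    · have e2 : (V (σ X)).swap - (ε : ℂ)⁻¹ • (U.P (F (σ X)) - (U.P X).swap).swap =
          (V (σ X) - (ε : ℂ)⁻¹ • (U.P (F (σ X)) - (U.P X).swap)).swap := rfl
      rw [e1, e2, norm_swap]; exact h6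

theorem exists_InC (D : ModularData) (hQ : QX) : ∃ V, U.InC V ∧ ∃ X, V X ≠ 0 := by
  -- a base point and a section
  let X₀ : TT := 0
  obtain ⟨R, hR, hRM⟩ := Metric.isOpen_iff.1 MM_isOpen (U.P X₀) (U.P_mem X₀)
  obtain ⟨s, hs⟩ := exists_sec U X₀ hR hRM
  have hr₀ : 0 < R / 2 := by linarith
  have hrR : R / 2 < R := by linarith
  obtain ⟨ε₀, hε₀, hnear⟩ := exists_near U D hQ X₀ hs hr₀ hrR
  have h1 : ∀ n : ℕ, ∃ F : TT → TT, U.HolMap F ∧
      (∀ X ∈ s '' closedBall (U.P X₀) (R / 2), U.NearAt F X (ε₀ / ((n : ℝ) + 1))) ∧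
      ∃ X ∈ s '' closedBall (U.P X₀) (R / 2), ‖U.P (F X) - U.P X‖ = ε₀ / ((n : ℝ) + 1) := by
    intro n
    refine hnear _ (by positivity) ?_
    apply div_le_self hε₀.le
    linarith [n.cast_nonneg (α := ℝ)]
  choose F hF hN Z hZ hZn using h1
  let ε : ℕ → ℝ := fun n => ε₀ / ((n : ℝ) + 1)
  have hε : ∀ n, 0 < ε n := fun n => by positivity
  have hεlim : Tendsto ε atTop (𝓝 0) := by
    have := tendsto_one_div_add_atTop_nhds_zero_nat (𝕜 := ℝ)
    have h2 := this.const_mul ε₀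
    rw [mul_zero] at h2
    refine h2.congr fun n => ?_
    simp only [ε]; ring
  let l : Ultrafilter ℕ := Filter.hyperfilter ℕ
  have hlim : Tendsto ε l (𝓝 0) := hεlim.mono_left Nat.hyperfilter_le_atTop
  let V : ℕ → TT → ℂ × ℂ := fun n X => (ε n : ℂ)⁻¹ • (U.P (F n X) - U.P X)
  have hVhol : ∀ n, U.Hol (V n) := by
    intro n X s' r' hs'
    have h2 : DifferentiableOn ℂ (fun p => U.P (F n (s' p))) (ball (U.P X) r') := (hF n).2 X s' r' hs'
    have h2' : DifferentiableOn ℂ (fun p => U.P (F n (s' p)) - p) (ball (U.P X) r') :=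
      h2.sub differentiableOn_id
    have h3 : DifferentiableOn ℂ (fun p => (ε n : ℂ)⁻¹ • (U.P (F n (s' p)) - p)) (ball (U.P X) r') :=
      h2'.const_smul ((ε n : ℂ)⁻¹)
    refine h3.congr ?_
    intro p hp
    simp only [V]
    rw [hs'.2.2.2.2 p hp]
  -- linear bound on compact sets
  have hbd : ∀ K : Set TT, IsCompact K → ∃ C : ℝ, 0 < C ∧ ∀ᶠ n in (l : Filter ℕ), ∀ X ∈ K,
      U.NearAt (F n) X (C * ε n) := by
    intro K hK
    obtain ⟨C, δ₀, hC, hδ₀, hlin⟩ := lin_bound U D X₀ hs hr₀ hrR K hK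
    refine ⟨C, hC, ?_⟩
    filter_upwards [hlim (Iio_mem_nhds hδ₀)] with n hn X hX
    exact hlin (F n) (hF n) (ε n) (hε n).le (le_of_lt hn) (hN n) X hX
  have hVn : ∀ n X δ, U.NearAt (F n) X δ → ‖V n X‖ ≤ (ε n)⁻¹ * δ := by
    rintro n X δ ⟨_, _, _, _, h2, _⟩
    simp only [V]
    rw [norm_smul, norm_inv, Complex.norm_real, Real.norm_eq_abs, abs_of_pos (hε n)]
    have := (hε n)
    gcongr
  obtain ⟨V', hV'⟩ := montel_TT U l V hVhol (by
    intro K hK
    obtain ⟨C, _, h⟩ := hbd K hK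
    refine ⟨C, ?_⟩
    filter_upwards [h] with n hn X hX
    refine (hVn n X _ (hn X hX)).trans ?_
    have := (hε n).ne'
    rw [mul_comm C, inv_mul_cancel_left₀ this])
  refine ⟨V', ?_, ?_⟩
  · intro K hK η hη
    obtain ⟨C, hC, h⟩ := hbd K hK
    have h1 := Metric.tendstoUniformlyOn_iff.1 (hV' K hK) η hη
    have h2 : ∀ᶠ n in (l : Filter ℕ), ε n < min η (η / C) :=
      hlim (Iio_mem_nhds (lt_min hη (by positivity)))
    obtain ⟨n, ⟨hn1, hn2⟩, hn3⟩ := ((h.and h1).and h2).exists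
    refine ⟨F n, ε n, hF n, hε n, lt_of_lt_of_le hn3 (min_le_left _ _), ?_⟩
    intro X hX
    refine ⟨⟨C * ε n, ?_, hn1 X hX⟩, ?_⟩
    · have h3 : ε n < η / C := lt_of_lt_of_le hn3 (min_le_right _ _)
      rw [lt_div_iff₀ hC] at h3
      linarith
    · have h3 := hn2 X hX
      rw [dist_eq_norm] at h3
      exact h3.le
  · have hW : IsCompact (s '' closedBall (U.P X₀) (R / 2)) := sec_image_compact U hs hrR
    obtain ⟨n, hn⟩ := (Metric.tendstoUniformlyOn_iff.1 (hV' _ hW) (1 / 2) (by norm_num)).exists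
    refine ⟨Z n, ?_⟩
    intro h0
    have h1 := hn (Z n) (hZ n)
    rw [h0, dist_eq_norm, zero_sub, norm_neg] at h1
    have h2 : ‖V n (Z n)‖ = 1 := by
      simp only [V]
      rw [norm_smul, norm_inv, Complex.norm_real, Real.norm_eq_abs, abs_of_pos (hε n), hZn n]
      exact inv_mul_cancel₀ (hε n).ne'
    rw [h2] at h1
    norm_num at h1

end Pool.Agent.T05
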