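import Pool.Agent.Lib.MP_0162a5_an.T

/-! MODULE D5: the Herglotz property along curves.

* `disc_lemma`: for `g` holomorphic from the disc to the disc and `w ≠ 0`,
  `0 ≤ Re (1 - (g w - g 0)/w - conj (g 0) * w)`.
* `InC.herg`: the component of an infinitesimal self-map along a curve is a `Herg` function.
-/

set_option autoImplicit false

open Complex Metric Set Filter Topology

namespace Pool.Agent.T05

theorem disc_lemma {g : ℂ → ℂ} (hg : DifferentiableOn ℂ g (ball 0 1))
    (hm : MapsTo g (ball 0 1) (ball 0 1)) {w : ℂ} (hw : w ∈ ball (0 : ℂ) 1) (hw0 : w ≠ 0) :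
    0 ≤ (1 - (g w - g 0) / w - (starRingEnd ℂ) (g 0) * w).re := by
  set ψ : ℂ → ℂ := fun z => 1 - dslope g 0 z - (starRingEnd ℂ) (g 0) * z with hψ
  have hds : DifferentiableOn ℂ (dslope g 0) (ball 0 1) :=
    (differentiableOn_dslope (ball_mem_nhds 0 one_pos)).mpr hg
  have hψd : DifferentiableOn ℂ ψ (ball 0 1) := by
    refine ((differentiableOn_const 1).sub hds).sub ?_
    exact (differentiableOn_const _).mul differentiableOn_id
  have hψw : ψ w = 1 - (g w - g 0) / w - (starRingEnd ℂ) (g 0) * w := by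
    rw [hψ]
    simp only
    rw [dslope_of_ne _ hw0, slope_def_field, sub_zero]
  rw [← hψw]
  have hw1 : ‖w‖ < 1 := mem_ball_zero_iff.mp hw
  have hg0 : ‖g 0‖ < 1 := mem_ball_zero_iff.mp (hm (mem_ball_self one_pos))
  -- the bound on a circle
  have key : ∀ ρ : ℝ, ‖w‖ < ρ → ρ < 1 → 1 - 1 / ρ - (1 / ρ ^ 2 - 1) ≤ (ψ w).re := by
    intro ρ hρ1 hρ2
    have hρ0 : 0 < ρ := (norm_nonneg w).trans_lt hρ1
    set m := 1 - 1 / ρ - (1 / ρ ^ 2 - 1) with hmdef
    have hsub : closedBall (0 : ℂ) ρ ⊆ ball 0 1 := closedBall_subset_ball hρ2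
    have hd : DiffContOnCl ℂ (fun z => Complex.exp (-ψ z)) (ball 0 ρ) := by
      refine DifferentiableOn.diffContOnCl ?_
      rw [closure_ball _ hρ0.ne']
      exact ((hψd.mono hsub).neg).cexp
    have hfr : ∀ z ∈ frontier (ball (0 : ℂ) ρ), ‖Complex.exp (-ψ z)‖ ≤ Real.exp (-m) := by
      intro z hz
      rw [frontier_ball _ hρ0.ne', mem_sphere_zero_iff_norm] at hz
      rw [Complex.norm_exp]
      refine Real.exp_le_exp.mpr ?_
      rw [neg_re]
      refine neg_le_neg ?_
      have hz0 : z ≠ 0 := by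
        intro h; rw [h, norm_zero] at hz; exact hρ0.ne hz
      have hψz : ψ z = 1 - (g z - g 0) / z - (starRingEnd ℂ) (g 0) * z := by
        rw [hψ]
        simp only
        rw [dslope_of_ne _ hz0, slope_def_field, sub_zero]
      have hgz : ‖g z‖ < 1 := mem_ball_zero_iff.mp
        (hm (by rw [mem_ball_zero_iff, hz]; exact hρ2))
      -- Re (g z / z) ≤ 1 / ρ
      have e1 : (g z / z).re ≤ 1 / ρ := by
        refine (Complex.re_le_norm _).trans ?_
        rw [norm_div, hz]
        exact div_le_div_of_nonneg_right hgz.le hρ0.le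
      -- g 0 / z = g 0 * conj z / ρ^2
      have e2 : g 0 / z = g 0 * (starRingEnd ℂ) z / ((ρ ^ 2 : ℝ) : ℂ) := by
        have h1 : z * (starRingEnd ℂ) z = ((ρ ^ 2 : ℝ) : ℂ) := by
          rw [Complex.mul_conj, Complex.normSq_eq_norm_sq, hz]
        rw [← h1]
        have : (starRingEnd ℂ) z ≠ 0 := by
          rw [Ne, map_eq_zero]; exact hz0
        field_simp
      have e3 : (g 0 / z).re = (g 0 * (starRingEnd ℂ) z).re / ρ ^ 2 := by
        rw [e2, Complex.div_ofReal_re]
      have e4 : ((starRingEnd ℂ) (g 0) * z).re = (g 0 * (starRingEnd ℂ) z).re := by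
        have : (starRingEnd ℂ) (g 0) * z = (starRingEnd ℂ) (g 0 * (starRingEnd ℂ) z) := by
          simp
        rw [this, Complex.conj_re]
      have e5 : |(g 0 * (starRingEnd ℂ) z).re| ≤ 1 := by
        refine (Complex.abs_re_le_norm _).trans ?_
        rw [norm_mul, Complex.norm_conj, hz]
        nlinarith [norm_nonneg (g 0)]
      rw [hψz]
      have e6 : (1 - (g z - g 0) / z - (starRingEnd ℂ) (g 0) * z).re =
          1 - (g z / z).re + (g 0 * (starRingEnd ℂ) z).re * (1 / ρ ^ 2 - 1) := by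
        rw [sub_re, sub_re, one_re, sub_div, sub_re, e3, e4]
        ring
      rw [e6, hmdef]
      have e7 : 0 ≤ 1 / ρ ^ 2 - 1 := by
        have : (1 : ℝ) ≤ 1 / ρ ^ 2 := by
          rw [le_div_iff₀ (by positivity)]
          nlinarith
        linarith
      have e8 := (abs_le.mp e5).1
      nlinarith
    have hin : ‖Complex.exp (-ψ w)‖ ≤ Real.exp (-m) := by
      refine Complex.norm_le_of_forall_mem_frontier_norm_le isBounded_ball hd hfr ?_
      refine subset_closure ?_
      rw [mem_ball_zero_iff]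
      exact hρ1
    rw [Complex.norm_exp] at hin
    have := Real.exp_le_exp.mp hin
    rw [neg_re] at this
    linarith
  -- limit
  have hlim : Tendsto (fun ρ : ℝ => 1 - 1 / ρ - (1 / ρ ^ 2 - 1)) (𝓝[<] 1) (𝓝 0) := by
    have hc : ContinuousAt (fun ρ : ℝ => 1 - 1 / ρ - (1 / ρ ^ 2 - 1)) 1 := by
      have h1 : (1 : ℝ) ≠ 0 := one_ne_zero
      have h2 : (1 : ℝ) ^ 2 ≠ 0 := by norm_num
      fun_prop (disch := assumption)
    have h0 : (1 : ℝ) - 1 / 1 - (1 / 1 ^ 2 - 1) = 0 := by norm_num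
    rw [ContinuousAt, h0] at hc
    exact hc.mono_left nhdsWithin_le_nhds
  refine le_of_tendsto hlim ?_
  filter_upwards [Ioo_mem_nhdsLT hw1] with ρ hρ
  exact key ρ hρ.1 hρ.2

/-- holomorphic functions on `TT` restricted to holomorphic curves -/
theorem D5.hol_comp (U : UnivCover) {f : TT → ℂ × ℂ} (hf : U.Hol f) {L : ℂ → TT}
    (hL : ContinuousOn L HH) (hL' : DifferentiableOn ℂ (fun τ => U.P (L τ)) HH) :
    DifferentiableOn ℂ (fun τ => f (L τ)) HH := by
  intro τ hτ
  obtain ⟨r, hr, hrM⟩ := Metric.isOpen_iff.1 MM_isOpen (U.P (L τ)) (U.P_mem (L τ))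
  obtain ⟨s, hs⟩ := exists_sec U (L τ) hr hrM
  have hLc : ContinuousAt L τ := (hL τ hτ).continuousAt (HH_isOpen.mem_nhds hτ)
  have hLs : L τ ∈ s '' ball (U.P (L τ)) r := ⟨U.P (L τ), mem_ball_self hr, hs.2.2.2.1⟩
  have hev : ∀ᶠ t in 𝓝 τ, L t = s (U.P (L t)) := by
    filter_upwards [hLc ((sec_isOpen U hs).mem_nhds hLs)] with t ht
    obtain ⟨q, hq, hqe⟩ := ht
    rw [← hqe, hs.2.2.2.2 q hq]
  have hd1 : DifferentiableAt ℂ (fun p => f (s p)) (U.P (L τ)) :=
    (hf (L τ) s r hs).differentiableAt (isOpen_ball.mem_nhds (mem_ball_self hr))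
  have hd2 : DifferentiableAt ℂ (fun τ => U.P (L τ)) τ :=
    (hL' τ hτ).differentiableAt (HH_isOpen.mem_nhds hτ)
  have hd3 : DifferentiableAt ℂ (fun t => f (s (U.P (L t)))) τ :=
    DifferentiableAt.comp (g := fun p => f (s p)) (f := fun τ => U.P (L τ)) τ hd1 hd2
  refine (hd3.congr_of_eventuallyEq ?_).differentiableWithinAt
  filter_upwards [hev] with t ht
  exact congrArg f ht

/-- approximation of the field along the curve by self-maps of the half plane -/
theorem D5.approx (U : UnivCover) (D : ModularData) {V : TT → ℂ × ℂ} (hV : U.InC V)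
    {u : ℂ × ℂ → ℂ} (hu : DifferentiableOn ℂ u MM) (huM : MapsTo u MM C01) {L : ℂ → TT}
    (hL : ContinuousOn L HH) (hL' : DifferentiableOn ℂ (fun τ => U.P (L τ)) HH)
    (hLu : ∀ τ ∈ HH, u (U.P (L τ)) = D.lam τ) {B : Set ℂ} (hB : IsCompact B) (hBH : B ⊆ HH) :
    ∃ (g : ℕ → ℂ → ℂ) (ε : ℕ → ℝ), (∀ n, DifferentiableOn ℂ (g n) HH ∧ MapsTo (g n) HH HH ∧
      0 < ε n) ∧ Tendsto ε atTop (𝓝 0) ∧
      (∀ τ ∈ B, Tendsto (fun n => ((ε n : ℂ))⁻¹ * (g n τ - τ)) atTop
        (𝓝 ((fderiv ℂ u (U.P (L τ)) (V (L τ))) / deriv D.lam τ))) ∧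
      (∀ τ₀ ∈ B, ∃ ρ > 0, ∃ C : ℝ, ∀ᶠ n in atTop, ∀ τ ∈ B ∩ ball τ₀ ρ,
        ‖((ε n : ℂ))⁻¹ * (g n τ - τ)‖ ≤ C) := by
  have hI : I ∈ HH := by simp [HH]
  -- the lift of `u`
  obtain ⟨T, hT0, hTc, hTh, hTl⟩ := tau_lift U D hu huM (L I) (t₀ := I) hI (hLu I hI).symm
  have hTL : ∀ τ ∈ HH, T (L τ) = τ := by
    refine lam_lift_unique D HH_convex.isPreconnected (G := fun τ => T (L τ)) (G' := fun τ => τ)
      (hTc.comp_continuousOn hL) continuousOn_id (fun b _ => (hTl _).1) (fun b hb => hb) ?_ hI hT0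
    intro b hb
    rw [(hTl (L b)).2, hLu b hb]
  have hK : IsCompact (L '' B) := hB.image_of_continuousOn (hL.mono hBH)
  have hPc := P_continuous U
  have hη : ∀ n : ℕ, (0 : ℝ) < 1 / ((n : ℝ) + 1) := fun n => by positivity
  choose F ε hF hε0 hε1 hFK using fun n : ℕ => hV (L '' B) hK (1 / ((n : ℝ) + 1)) (hη n)
  have hηlim : Tendsto (fun n : ℕ => 1 / ((n : ℝ) + 1)) atTop (𝓝 0) :=
    tendsto_one_div_add_atTop_nhds_zero_nat
  have hεlim : Tendsto ε atTop (𝓝 0) :=
    tendsto_of_tendsto_of_tendsto_of_le_of_le tendsto_const_nhds hηlim (fun n => (hε0 n).le)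
      (fun n => (hε1 n).le)
  -- bound of `V` on the compact set
  obtain ⟨CV, hCV⟩ : ∃ CV : ℝ, ∀ X ∈ L '' B, ‖V X‖ ≤ CV := by
    have hc1 : Continuous (fun X => U.P (F 0 X)) := hPc.comp (hF 0).1
    have hc : Continuous (fun X => ((ε 0 : ℂ))⁻¹ • (U.P (F 0 X) - U.P X)) := by
      fun_prop
    obtain ⟨C, hC⟩ := hK.exists_bound_of_continuousOn hc.continuousOn
    refine ⟨C + 1, fun X hX => ?_⟩
    have h1 := (hFK 0 X hX).2
    have h2 := hC X hX
    have h3 : (1 : ℝ) / (((0 : ℕ) : ℝ) + 1) = 1 := by norm_num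
    rw [h3] at h1
    calc ‖V X‖ = ‖(V X - ((ε 0 : ℂ))⁻¹ • (U.P (F 0 X) - U.P X)) +
          ((ε 0 : ℂ))⁻¹ • (U.P (F 0 X) - U.P X)‖ := by rw [sub_add_cancel]
      _ ≤ 1 + C := (norm_add_le _ _).trans (add_le_add h1 h2)
      _ = C + 1 := add_comm _ _
  -- the displacement
  have hdisp : ∀ n, ∀ X ∈ L '' B, ‖((ε n : ℂ))⁻¹ • (U.P (F n X) - U.P X)‖ ≤ CV + 1 := by
    intro n X hX
    have h1 := (hFK n X hX).2
    have h2 : 1 / ((n : ℝ) + 1) ≤ 1 := by
      rw [div_le_one (by positivity)]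
      have : (0 : ℝ) ≤ n := Nat.cast_nonneg n
      linarith
    calc ‖((ε n : ℂ))⁻¹ • (U.P (F n X) - U.P X)‖ =
          ‖V X - (V X - ((ε n : ℂ))⁻¹ • (U.P (F n X) - U.P X))‖ := by rw [sub_sub_cancel]
      _ ≤ CV + 1 := (norm_sub_le _ _).trans (add_le_add (hCV X hX) (h1.trans h2))
  refine ⟨fun n τ => T (F n (L τ)), ε, ?_, hεlim, ?_, ?_⟩
  · -- holomorphy
    intro n
    refine ⟨?_, fun τ _ => (hTl _).1, hε0 n⟩
    refine lam_lift_diff D HH_isOpen (hTc.comp_continuousOn ((hF n).1.comp_continuousOn hL))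
      (fun b _ => (hTl _).1) ?_
    have h1 : DifferentiableOn ℂ (fun τ => U.P (F n (L τ))) HH :=
      D5.hol_comp U (hF n).2 hL hL'
    have h2 : DifferentiableOn ℂ (fun τ => u (U.P (F n (L τ)))) HH :=
      hu.comp h1 (fun τ _ => U.P_mem _)
    exact h2.congr fun τ _ => (hTl _).2
  · -- pointwise limit
    intro τ₀ hτ₀
    have hτH := hBH hτ₀
    set X₀ := L τ₀ with hX₀
    have hXK : X₀ ∈ L '' B := mem_image_of_mem L hτ₀
    obtain ⟨r, hr, hrM⟩ := Metric.isOpen_iff.1 MM_isOpen (U.P X₀) (U.P_mem X₀)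
    obtain ⟨s, hs⟩ := exists_sec U X₀ hr hrM
    set p := U.P X₀ with hp
    have hTd : DifferentiableOn ℂ (fun z => T (s z)) (ball p r) := hTh X₀ s r hs
    have hpb : p ∈ ball p r := mem_ball_self hr
    have hTdp : DifferentiableAt ℂ (fun z => T (s z)) p :=
      hTd.differentiableAt (isOpen_ball.mem_nhds hpb)
    have hsp : s p = X₀ := hs.2.2.2.1
    have hTp : T (s p) = τ₀ := by rw [hsp, hX₀, hTL τ₀ hτH]
    -- eventually `g n τ₀ = T (s (P (F n X₀)))`
    have hev : ∀ᶠ n in atTop, F n X₀ = s (U.P (F n X₀)) := by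
      filter_upwards [hηlim.eventually (gt_mem_nhds (show (0:ℝ) < r / 2 by linarith))] with n hn
      obtain ⟨η', hη', s', r', hs', hr', hd, hFe⟩ := (hFK n X₀ hXK).1
      have hq1 : U.P (F n X₀) ∈ ball p r := by
        rw [mem_ball, dist_eq_norm]; linarith
      have hq2 : U.P (F n X₀) ∈ ball p r' := by
        rw [mem_ball, dist_eq_norm]; linarith
      have := sec_eqOn U hs hs' hpb (mem_ball_self hs'.1) (by rw [hsp, hs'.2.2.2.1])
        (U.P (F n X₀)) ⟨hq1, hq2⟩
      rw [this]; exact hFe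
    have hd : Tendsto (fun n => ((ε n : ℂ))⁻¹ • (U.P (F n X₀) - p)) atTop (𝓝 (V X₀)) := by
      rw [tendsto_iff_norm_sub_tendsto_zero]
      refine squeeze_zero (fun n => norm_nonneg _) (fun n => ?_) hηlim
      rw [norm_sub_rev]
      exact (hFK n X₀ hXK).2
    have hdlim : Tendsto (fun n => U.P (F n X₀) - p) atTop (𝓝 0) := by
      rw [tendsto_zero_iff_norm_tendsto_zero]
      refine squeeze_zero (fun n => norm_nonneg _) (fun n => ?_) hηlim
      obtain ⟨η', hη', s', r', -, -, hd, -⟩ := (hFK n X₀ hXK).1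
      exact hd.trans hη'
    have hlim := (hTdp.hasFDerivAt.hasFDerivWithinAt (s := univ)).lim (l := atTop)
      (c := fun n => ((ε n : ℂ))⁻¹) (d := fun n => U.P (F n X₀) - p) (v := V X₀) hdlim
      (Eventually.of_forall fun n => mem_univ _) hd
    -- the derivative
    have hder : fderiv ℂ (fun z => T (s z)) p (V X₀) =
        (fderiv ℂ u p (V X₀)) / deriv D.lam τ₀ := by
      have hlamd : HasDerivAt D.lam (deriv D.lam τ₀) (T (s p)) := by
        rw [hTp]
        exact (D.lam_diff.differentiableAt (HH_isOpen.mem_nhds hτH)).hasDerivAt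
      have h1 : HasFDerivAt (fun z => D.lam (T (s z)))
          (deriv D.lam τ₀ • fderiv ℂ (fun z => T (s z)) p) p :=
        HasDerivAt.comp_hasFDerivAt (h₂ := D.lam) (f := fun z => T (s z)) p hlamd
          hTdp.hasFDerivAt
      have h2 : HasFDerivAt (fun z => D.lam (T (s z))) (fderiv ℂ u p) p := by
        have h3 : HasFDerivAt u (fderiv ℂ u p) p :=
          (hu.differentiableAt (MM_isOpen.mem_nhds (U.P_mem X₀))).hasFDerivAt
        refine h3.congr_of_eventuallyEq ?_
        filter_upwards [isOpen_ball.mem_nhds hpb] with z hz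
        rw [(hTl _).2, hs.2.2.2.2 z hz]
      have h3 := h1.unique h2
      rw [← h3]
      have hne := D.lam_deriv τ₀ hτH
      simp only [_root_.smul_apply, smul_eq_mul]
      field_simp
    rw [← hder]
    refine hlim.congr' ?_
    filter_upwards [hev] with n hn
    rw [smul_eq_mul, add_sub_cancel, hTp, ← hn]
  · -- local bound
    intro τ₀ hτ₀
    have hτH := hBH hτ₀
    set X₀ := L τ₀ with hX₀
    obtain ⟨r, hr, hrM⟩ := Metric.isOpen_iff.1 MM_isOpen (U.P X₀) (U.P_mem X₀)
    obtain ⟨s, hs⟩ := exists_sec U X₀ hr hrM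
    set p := U.P X₀ with hp
    have hTd : DifferentiableOn ℂ (fun z => T (s z)) (ball p r) := hTh X₀ s r hs
    have hpb : p ∈ ball p r := mem_ball_self hr
    have hsp : s p = X₀ := hs.2.2.2.1
    -- a smaller ball where `T ∘ s` is bounded
    obtain ⟨r1, hr1, hr1r, C, hC⟩ : ∃ r1 > 0, r1 ≤ r ∧ ∃ C : ℝ, ∀ z ∈ ball p r1,
        ‖T (s z)‖ ≤ C := by
      have hc : ContinuousAt (fun z => T (s z)) p :=
        (hTd.differentiableAt (isOpen_ball.mem_nhds hpb)).continuousAt
      have h1 : ∀ᶠ z in 𝓝 p, ‖T (s z)‖ < ‖T (s p)‖ + 1 :=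
        hc.norm.eventually (gt_mem_nhds (by linarith))
      obtain ⟨r2, hr2, h2⟩ := Metric.eventually_nhds_iff_ball.1 h1
      exact ⟨min r2 r, lt_min hr2 hr, min_le_right _ _, ‖T (s p)‖ + 1, fun z hz =>
        (h2 z (ball_subset_ball (min_le_left _ _) hz)).le⟩
    have hC0 : 0 ≤ C := (norm_nonneg _).trans (hC p (mem_ball_self hr1))
    have hlip := cauchy_lip (R := r1) (r := r1 / 2) (C := C) (p := p)
      (f := fun z => (T (s z), 0)) (by linarith) (by linarith)
      ((hTd.mono (ball_subset_ball hr1r)).prodMk (differentiableOn_const 0)) (fun z hz => by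
        rw [Prod.norm_def]
        exact max_le (hC z hz) (by simpa using hC0))
    have hlip' : ∀ a ∈ ball p (r1 / 2), ∀ b ∈ ball p (r1 / 2),
        ‖T (s a) - T (s b)‖ ≤ C / (r1 - r1 / 2) * ‖a - b‖ := by
      intro a ha b hb
      have h1 := hlip a ha b hb
      refine le_trans ?_ h1
      have : ((T (s a), (0:ℂ)) - (T (s b), (0:ℂ))) = (T (s a) - T (s b), (0:ℂ)) := by
        ext <;> simp
      rw [this]
      exact norm_fst_le (T (s a) - T (s b), (0:ℂ))
    -- neighbourhood of `τ₀`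
    have hLc : ContinuousAt L τ₀ := (hL τ₀ hτH).continuousAt (HH_isOpen.mem_nhds hτH)
    have hLs : L τ₀ ∈ s '' ball p r := ⟨p, hpb, hsp⟩
    have hev1 : ∀ᶠ t in 𝓝 τ₀, L t = s (U.P (L t)) := by
      filter_upwards [hLc ((sec_isOpen U hs).mem_nhds hLs)] with t ht
      obtain ⟨q, hq, hqe⟩ := ht
      rw [← hqe, hs.2.2.2.2 q hq]
    have hev2 : ∀ᶠ t in 𝓝 τ₀, U.P (L t) ∈ ball p (r1 / 4) := by
      have hc : ContinuousAt (fun t => U.P (L t)) τ₀ := hPc.continuousAt.comp hLc
      exact hc (isOpen_ball.mem_nhds (mem_ball_self (by linarith)))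
    have hev3 : ∀ᶠ t in 𝓝 τ₀, t ∈ HH := HH_isOpen.mem_nhds hτH
    obtain ⟨ρ, hρ, hρb⟩ := Metric.eventually_nhds_iff_ball.1 ((hev1.and hev2).and hev3)
    refine ⟨ρ, hρ, C / (r1 - r1 / 2) * (CV + 1), ?_⟩
    filter_upwards [hηlim.eventually (gt_mem_nhds (show (0:ℝ) < r1 / 4 by linarith))] with n hn
    intro τ hτ
    obtain ⟨⟨h1, h2⟩, h3⟩ := hρb τ hτ.2
    have hXK : L τ ∈ L '' B := mem_image_of_mem L hτ.1
    obtain ⟨η', hη', s', r', hs', hr', hd, hFe⟩ := (hFK n (L τ) hXK).1
    have hq1 : U.P (F n (L τ)) ∈ ball p (r1 / 2) := by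
      rw [mem_ball] at h2 ⊢
      calc dist (U.P (F n (L τ))) p ≤ dist (U.P (F n (L τ))) (U.P (L τ)) + dist (U.P (L τ)) p :=
            dist_triangle _ _ _
        _ < r1 / 4 + r1 / 4 := by
            refine add_lt_add ?_ h2
            rw [dist_eq_norm]; linarith
        _ = r1 / 2 := by ring
    have hq2 : U.P (F n (L τ)) ∈ ball (U.P (L τ)) r' := by
      rw [mem_ball, dist_eq_norm]; linarith
    have hpb' : U.P (L τ) ∈ ball p r := ball_subset_ball (by linarith) h2
    have hFs : F n (L τ) = s (U.P (F n (L τ))) := by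
      have := sec_eqOn U hs hs' hpb' (mem_ball_self hs'.1) (by rw [← h1, hs'.2.2.2.1])
        (U.P (F n (L τ))) ⟨ball_subset_ball (by linarith) hq1, hq2⟩
      rw [this]; exact hFe
    have e1 : T (F n (L τ)) - τ = T (s (U.P (F n (L τ)))) - T (s (U.P (L τ))) := by
      rw [← hFs, ← h1, hTL τ h3]
    have e2 := hlip' (U.P (F n (L τ))) hq1 (U.P (L τ))
      (ball_subset_ball (by linarith) h2)
    have e3 := hdisp n (L τ) hXK
    rw [norm_smul] at e3
    rw [norm_mul, e1]
    have hk : 0 ≤ C / (r1 - r1 / 2) := div_nonneg hC0 (by linarith)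
    calc ‖((ε n : ℂ))⁻¹‖ * ‖T (s (U.P (F n (L τ)))) - T (s (U.P (L τ)))‖
        ≤ ‖((ε n : ℂ))⁻¹‖ * (C / (r1 - r1 / 2) * ‖U.P (F n (L τ)) - U.P (L τ)‖) :=
          mul_le_mul_of_nonneg_left e2 (norm_nonneg _)
      _ = C / (r1 - r1 / 2) * (‖((ε n : ℂ))⁻¹‖ * ‖U.P (F n (L τ)) - U.P (L τ)‖) := by ring
      _ ≤ C / (r1 - r1 / 2) * (CV + 1) := mul_le_mul_of_nonneg_left e3 hk

theorem InC.herg (U : UnivCover) (D : ModularData) {V : TT → ℂ × ℂ} (hV : U.InC V) {u : ℂ × ℂ → ℂ}
    (hu : DifferentiableOn ℂ u MM) (huM : MapsTo u MM C01) {L : ℂ → TT} (hL : ContinuousOn L HH)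
    (hL' : DifferentiableOn ℂ (fun τ => U.P (L τ)) HH) (hLu : ∀ τ ∈ HH, u (U.P (L τ)) = D.lam τ) :
    Herg (fun τ => (fderiv ℂ u (U.P (L τ)) (V (L τ))) / deriv D.lam τ) := by
  set h : ℂ → ℂ := fun τ => (fderiv ℂ u (U.P (L τ)) (V (L τ))) / deriv D.lam τ with hh
  constructor
  · -- holomorphy
    intro τ₀ hτ₀
    obtain ⟨R, hR, hRH⟩ := Metric.isOpen_iff.1 HH_isOpen τ₀ hτ₀
    have hBH : closedBall τ₀ (R / 2) ⊆ HH := (closedBall_subset_ball (by linarith)).trans hRH
    obtain ⟨g, ε, hg, -, hlim, hbd⟩ := D5.approx U D hV hu huM hL hL' hLu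
      (isCompact_closedBall τ₀ (R / 2)) hBH
    obtain ⟨ρ, hρ, C, hC⟩ := hbd τ₀ (mem_closedBall_self (by linarith))
    set r := min ρ (R / 2) with hr
    have hr0 : 0 < r := lt_min hρ (by linarith)
    have hrB : ball τ₀ r ⊆ closedBall τ₀ (R / 2) ∩ ball τ₀ ρ := by
      intro t ht
      exact ⟨ball_subset_closedBall (ball_subset_ball (min_le_right _ _) ht),
        ball_subset_ball (min_le_left _ _) ht⟩
    have hfst : ∀ z ∈ ball ((τ₀, 0) : ℂ × ℂ) r, z.1 ∈ ball τ₀ r := by
      intro z hz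
      rw [mem_ball, Prod.dist_eq] at hz
      rw [mem_ball]
      exact (le_max_left _ _).trans_lt hz
    set F : ℕ → ℂ × ℂ → ℂ × ℂ := fun n z => (((ε n : ℂ))⁻¹ * (g n z.1 - z.1), 0) with hF
    let l : Ultrafilter ℕ := Filter.hyperfilter ℕ
    have hl : (l : Filter ℕ) ≤ atTop := by
      rw [← Nat.cofinite_eq_atTop]; exact Filter.hyperfilter_le_cofinite
    have hFd : ∀ᶠ n in (l : Filter ℕ), DifferentiableOn ℂ (F n) (ball (τ₀, 0) r) := by
      refine Eventually.of_forall fun n => ?_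
      have h1 : DifferentiableOn ℂ (fun t => ((ε n : ℂ))⁻¹ * (g n t - t)) (ball τ₀ r) :=
        (((hg n).1.mono ((hrB.trans inter_subset_left).trans hBH)).sub
          differentiableOn_id).const_mul _
      have h2 : DifferentiableOn ℂ (fun z : ℂ × ℂ => ((ε n : ℂ))⁻¹ * (g n z.1 - z.1))
          (ball (τ₀, 0) r) :=
        DifferentiableOn.comp (g := fun t => ((ε n : ℂ))⁻¹ * (g n t - t)) (f := Prod.fst)
          h1 differentiableOn_fst hfst
      exact h2.prodMk (differentiableOn_const 0)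
    have hFb : ∀ ρ' < r, ∃ C : ℝ, ∀ᶠ n in (l : Filter ℕ), ∀ z ∈ ball ((τ₀, 0) : ℂ × ℂ) ρ',
        ‖F n z‖ ≤ C := by
      intro ρ' hρ'
      refine ⟨C, ?_⟩
      filter_upwards [hl hC] with n hn
      intro z hz
      have h1 := hn z.1 (hrB (hfst z (ball_subset_ball hρ'.le hz)))
      rw [hF, Prod.norm_def]
      refine max_le h1 ?_
      simpa using (norm_nonneg _).trans h1
    obtain ⟨f, hfd, hft⟩ := montel l hFd hFb
    have hfe : ∀ t ∈ ball τ₀ r, (f (t, 0)).1 = h t := by
      intro t ht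
      have hm : ((t, 0) : ℂ × ℂ) ∈ ball ((τ₀, 0) : ℂ × ℂ) r := by
        rw [mem_ball, Prod.dist_eq]
        simpa [hr0] using ht
      have h1 := hft.tendsto_at hm
      have h2 : Tendsto (fun n => (F n (t, 0)).1) (l : Filter ℕ) (𝓝 (f (t, 0)).1) :=
        (continuous_fst.tendsto _).comp h1
      have h3 : Tendsto (fun n => (F n (t, 0)).1) (l : Filter ℕ) (𝓝 (h t)) :=
        (hlim t (hrB ht).1).mono_left hl
      exact tendsto_nhds_unique h2 h3
    have hd : DifferentiableAt ℂ (fun t => (f (t, 0)).1) τ₀ := by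
      have h1 : DifferentiableAt ℂ f (τ₀, 0) :=
        hfd.differentiableAt (isOpen_ball.mem_nhds (mem_ball_self hr0))
      have h2 : DifferentiableAt ℂ (fun t : ℂ => ((t, 0) : ℂ × ℂ)) τ₀ :=
        differentiableAt_id.prodMk (differentiableAt_const 0)
      exact (DifferentiableAt.comp (g := f) (f := fun t : ℂ => ((t, 0) : ℂ × ℂ)) τ₀ h1 h2).fst
    refine (hd.congr_of_eventuallyEq ?_).differentiableWithinAt
    filter_upwards [isOpen_ball.mem_nhds (mem_ball_self hr0)] with t ht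
    exact (hfe t ht).symm
  · -- the inequality
    intro w hw hw0
    have hcay : ∀ z ∈ ball (0 : ℂ) 1, cay z ∈ HH ∧ z = (cay z - I) / (cay z + I) ∧
        cay z + I ≠ 0 ∧ (1 - z) ≠ 0 ∧ cay z + I = 2 * I / (1 - z) := by
      intro z hz
      have hz1 : ‖z‖ < 1 := mem_ball_zero_iff.mp hz
      have h1 : (1 - z) ≠ 0 := by
        intro h
        have : z = 1 := (sub_eq_zero.mp h).symm
        rw [this, norm_one] at hz1
        exact lt_irrefl _ hz1
      have h2 : cay z + I = 2 * I / (1 - z) := by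
        unfold cay
        field_simp
        ring
      have h3 : cay z + I ≠ 0 := by
        rw [h2]
        exact div_ne_zero (mul_ne_zero two_ne_zero I_ne_zero) h1
      have h4 : cay z - I = 2 * I * z / (1 - z) := by
        unfold cay
        field_simp
        ring
      have h5 : z = (cay z - I) / (cay z + I) := by
        rw [h2, h4]
        field_simp
      refine ⟨?_, h5, h3, h1, h2⟩
      change 0 < (cay z).im
      have h6 : cay z = I * ((1 + z) / (1 - z)) := by unfold cay; ring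
      have h7 : (cay z).im = ((1 + z) / (1 - z)).re := by
        rw [h6]; simp
      have h8 : 0 < Complex.normSq (1 - z) := Complex.normSq_pos.mpr h1
      have h9 : ((1 + z) / (1 - z)).re = (1 - Complex.normSq z) / Complex.normSq (1 - z) := by
        rw [Complex.div_re, Complex.normSq_apply z]
        have hne := h8.ne'
        field_simp
        simp
        ring
      rw [h7, h9]
      refine div_pos ?_ h8
      rw [Complex.normSq_eq_norm_sq]
      nlinarith [norm_nonneg z]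
    have hw' := hcay w hw
    have h00 : (0 : ℂ) ∈ ball (0 : ℂ) 1 := mem_ball_self one_pos
    have h0' := hcay 0 h00
    have hBc : IsCompact ({cay w, cay 0} : Set ℂ) := (Set.toFinite _).isCompact
    have hBH : ({cay w, cay 0} : Set ℂ) ⊆ HH := by
      rintro t (rfl | rfl)
      · exact hw'.1
      · exact h0'.1
    obtain ⟨g, ε, hg, hε, hlim, -⟩ := D5.approx U D hV hu huM hL hL' hLu hBc hBH
    -- the self-maps of the disc
    set G : ℕ → ℂ → ℂ := fun n z => (g n (cay z) - I) / (g n (cay z) + I) with hG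
    have hden : ∀ t ∈ HH, t + I ≠ 0 := by
      intro t ht h
      have : (t + I).im = 0 := by rw [h]; simp
      rw [add_im, I_im] at this
      change 0 < t.im at ht
      linarith
    have hcayd : DifferentiableOn ℂ cay (ball 0 1) := by
      unfold cay
      refine DifferentiableOn.div ?_ ?_ (fun z hz => (hcay z hz).2.2.2.1)
      · fun_prop
      · fun_prop
    have hGd : ∀ n, DifferentiableOn ℂ (G n) (ball 0 1) := by
      intro n
      have h1 : DifferentiableOn ℂ (fun z => g n (cay z)) (ball 0 1) :=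
        (hg n).1.comp hcayd (fun z hz => (hcay z hz).1)
      exact (h1.sub_const I).div (h1.add_const I)
        (fun z hz => hden _ ((hg n).2.1 (hcay z hz).1))
    have hGm : ∀ n, MapsTo (G n) (ball 0 1) (ball 0 1) := by
      intro n z hz
      have h1 : g n (cay z) ∈ HH := (hg n).2.1 (hcay z hz).1
      set t := g n (cay z) with ht
      rw [mem_ball_zero_iff]
      change ‖(t - I) / (t + I)‖ < 1
      rw [norm_div, div_lt_one (norm_pos_iff.mpr (hden t h1))]
      have h2 : ‖t - I‖ ^ 2 < ‖t + I‖ ^ 2 := by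
        rw [← Complex.normSq_eq_norm_sq, ← Complex.normSq_eq_norm_sq, Complex.normSq_apply,
          Complex.normSq_apply]
        change 0 < t.im at h1
        simp
        nlinarith
      exact lt_of_pow_lt_pow_left₀ 2 (norm_nonneg _) h2
    -- convergence of the difference quotients
    have hconv : ∀ z ∈ ball (0 : ℂ) 1, cay z ∈ ({cay w, cay 0} : Set ℂ) →
        Tendsto (fun n => ((ε n : ℂ))⁻¹ * (G n z - z)) atTop (𝓝 (toDisc h z)) := by
      intro z hz hzB
      have hz' := hcay z hz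
      have h1 := hlim (cay z) hzB
      have h2 : Tendsto (fun n => g n (cay z)) atTop (𝓝 (cay z)) := by
        have h3 : Tendsto (fun n => (ε n : ℂ) * (((ε n : ℂ))⁻¹ * (g n (cay z) - cay z)) + cay z)
            atTop (𝓝 (0 * ((fderiv ℂ u (U.P (L (cay z))) (V (L (cay z)))) /
              deriv D.lam (cay z)) + cay z)) := by
          refine (Tendsto.mul ?_ h1).add_const _
          have h3 : Tendsto (fun n => ((ε n : ℝ) : ℂ)) atTop (𝓝 ((0 : ℝ) : ℂ)) :=
            (Complex.continuous_ofReal.tendsto 0).comp hε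
          simpa using h3
        rw [zero_mul, zero_add] at h3
        refine h3.congr fun n => ?_
        have hne : (ε n : ℂ) ≠ 0 := by exact_mod_cast (hg n).2.2.ne'
        field_simp
        ring
      have h4 : ∀ n, ((ε n : ℂ))⁻¹ * (G n z - z) =
          (((ε n : ℂ))⁻¹ * (g n (cay z) - cay z)) * (2 * I / ((g n (cay z) + I) * (cay z + I))) := by
        intro n
        have h5 : g n (cay z) + I ≠ 0 := hden _ ((hg n).2.1 hz'.1)
        have h6 : G n z - z = (g n (cay z) - I) / (g n (cay z) + I) -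
            (cay z - I) / (cay z + I) := by
          rw [hG]
          simp only
          rw [← hz'.2.1]
        rw [h6]
        have h7 := hz'.2.2.1
        have h8 : (g n (cay z) - I) / (g n (cay z) + I) - (cay z - I) / (cay z + I) =
            (g n (cay z) - cay z) * (2 * I / ((g n (cay z) + I) * (cay z + I))) := by
          field_simp
          ring
        rw [h8]
        ring
      have h9 : Tendsto (fun n => (((ε n : ℂ))⁻¹ * (g n (cay z) - cay z)) *
          (2 * I / ((g n (cay z) + I) * (cay z + I)))) atTop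
          (𝓝 (h (cay z) * (2 * I / ((cay z + I) * (cay z + I))))) := by
        refine h1.mul ?_
        refine tendsto_const_nhds.div ((h2.add_const I).mul_const _) ?_
        exact mul_ne_zero hz'.2.2.1 hz'.2.2.1
      have h10 : h (cay z) * (2 * I / ((cay z + I) * (cay z + I))) = toDisc h z := by
        unfold toDisc
        rw [hz'.2.2.2.2]
        have h11 := hz'.2.2.2.1
        have hI2 : I ^ 2 = -1 := I_sq
        field_simp
      rw [← h10]
      exact h9.congr fun n => (h4 n).symm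
    have hcw := hconv w hw (by simp)
    have hc0 := hconv 0 h00 (by simp)
    set Hn : ℕ → ℂ → ℂ := fun n z => ((ε n : ℂ))⁻¹ * (G n z - z) with hHn
    have hineq : ∀ n, 0 ≤ (-(Hn n w - Hn n 0 + (starRingEnd ℂ) (Hn n 0) * w ^ 2) / w).re := by
      intro n
      have h1 := disc_lemma (hGd n) (hGm n) hw hw0
      have hε0 := (hg n).2.2
      have hne : (ε n : ℂ) ≠ 0 := by exact_mod_cast hε0.ne'
      have h2 : (1 - (G n w - G n 0) / w - (starRingEnd ℂ) (G n 0) * w) =
          (ε n : ℂ) * (-(Hn n w - Hn n 0 + (starRingEnd ℂ) (Hn n 0) * w ^ 2) / w) := by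
        rw [hHn]
        simp only [map_mul, map_inv₀, Complex.conj_ofReal, sub_zero]
        field_simp
        ring
      rw [h2, Complex.re_ofReal_mul] at h1
      exact nonneg_of_mul_nonneg_right h1 hε0
    have hlim2 : Tendsto (fun n => (-(Hn n w - Hn n 0 + (starRingEnd ℂ) (Hn n 0) * w ^ 2) / w).re)
        atTop (𝓝 (Pool.Agent.T05.herg (toDisc h) w).re) := by
      refine (Complex.continuous_re.tendsto _).comp ?_
      unfold Pool.Agent.T05.herg
      refine Tendsto.div_const ?_ w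
      refine Tendsto.neg ?_
      refine (hcw.sub hc0).add ?_
      refine Tendsto.mul_const _ ?_
      exact (Complex.continuous_conj.tendsto _).comp hc0
    exact ge_of_tendsto' hlim2 hineq

end Pool.Agent.T05
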