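import Mathlib

/-!
# Common definitions for MP_0162a5_an (T_{0,5} is rigid)

`MM` is the space of normalised five-tuples `(0, 1, ∞, u, v)`, `TT = ℝ⁴` is (a homeomorphic
copy of) its universal covering and `ModularData` collects the facts about the modular function
and the Weierstrass function that are used.
-/

set_option autoImplicit false

open Complex Metric Set Filter Topology

namespace Pool.Agent.T05

/-- The upper half plane as a set of complex numbers. -/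
def HH : Set ℂ := {z | 0 < z.im}

/-- The plane minus two points. -/
def C01 : Set ℂ := {z | z ≠ 0 ∧ z ≠ 1}

/-- Pairs of distinct points of the plane minus two points. -/
def MM : Set (ℂ × ℂ) := {p | p.1 ≠ 0 ∧ p.1 ≠ 1 ∧ p.2 ≠ 0 ∧ p.2 ≠ 1 ∧ p.1 ≠ p.2}

/-- Pairs `(τ, z)` with `τ` in the upper half plane and `z` not in `ℤ + ℤ τ`. -/
def WW : Set (ℂ × ℂ) := {p | 0 < p.1.im ∧ ∀ k l : ℤ, p.2 ≠ k + l * p.1}

/-- `a b c d` are the entries of a matrix of the level two congruence group. -/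
def Gam2 (a b c d : ℤ) : Prop := a * d - b * c = 1 ∧ Odd a ∧ Even b ∧ Even c ∧ Odd d

/-- The modular function `lam` and the function `mm τ z = (℘(z) - e₁) / (e₂ - e₁)` for the lattice
`2 ℤ + 2 τ ℤ`, with all the properties we need. -/
structure ModularData where
  lam : ℂ → ℂ
  mm : ℂ → ℂ → ℂ
  lam_diff : DifferentiableOn ℂ lam HH
  lam_deriv : ∀ τ ∈ HH, deriv lam τ ≠ 0
  lam_mem : ∀ τ : HH, lam τ ∈ C01
  lam_surj : ∀ z ∈ C01, ∃ τ ∈ HH, lam τ = z
  lam_cov : IsCoveringMap (fun τ : HH => (⟨lam τ, lam_mem τ⟩ : C01))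
  lam_eq : ∀ τ ∈ HH, ∀ τ' ∈ HH, lam τ = lam τ' →
    ∃ a b c d : ℤ, Gam2 a b c d ∧ τ' = (a * τ + b) / (c * τ + d)
  lam_inv : ∀ a b c d : ℤ, Gam2 a b c d → ∀ τ ∈ HH, lam ((a * τ + b) / (c * τ + d)) = lam τ
  lam_lim : ∀ ε : ℝ, 0 < ε → ∃ Y : ℝ, 0 < Y ∧ ∀ τ : ℂ, Y < τ.im → ‖lam τ - 1‖ < ε
  mm_mem : ∀ τ z : ℂ, (τ, z) ∈ WW → (lam τ, mm τ z) ∈ MM
  mm_cont : ContinuousOn (fun p : ℂ × ℂ => mm p.1 p.2) WW
  mm_diff₁ : ∀ τ z : ℂ, (τ, z) ∈ WW → DifferentiableAt ℂ (fun t => mm t z) τ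
  mm_diff₂ : ∀ τ z : ℂ, (τ, z) ∈ WW → DifferentiableAt ℂ (fun w => mm τ w) z
  mm_deriv₂ : ∀ τ z : ℂ, (τ, z) ∈ WW → deriv (fun w => mm τ w) z ≠ 0
  mm_neg : ∀ τ z : ℂ, (τ, z) ∈ WW → mm τ (-z) = mm τ z
  mm_add : ∀ τ z : ℂ, (τ, z) ∈ WW → ∀ k l : ℤ, mm τ (z + 2 * (k + l * τ)) = mm τ z
  mm_mod : ∀ a b c d : ℤ, Gam2 a b c d → ∀ τ z : ℂ, (τ, (c * τ + d) * z) ∈ WW →
    mm ((a * τ + b) / (c * τ + d)) z = mm τ ((c * τ + d) * z)
  mm_inj : ∀ τ z w : ℂ, (τ, z) ∈ WW → (τ, w) ∈ WW → mm τ z = mm τ w →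
    ∃ k l : ℤ, w = z + 2 * (k + l * τ) ∨ w = -z + 2 * (k + l * τ)
  mm_surj : ∀ τ ∈ HH, ∀ μ : ℂ, (lam τ, μ) ∈ MM → ∃ z, (τ, z) ∈ WW ∧ mm τ z = μ
  lam_I : lam I = 1 / 2

/-- The universal covering space of `MM`, as a topological space. -/
abbrev TT := Fin 4 → ℝ

/-- A covering map from `TT = ℝ⁴` onto `MM`. -/
structure UnivCover where
  P : TT → ℂ × ℂ
  P_mem : ∀ X, P X ∈ MM
  P_cov : IsCoveringMap (fun X : TT => (⟨P X, P_mem X⟩ : MM))
  P_surj : ∀ p ∈ MM, ∃ X, P X = p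

/-- The statement of the problem (the frozen statement S03667). -/
def Q1 : Prop :=
    ∀ (A : Type) [NormedCommRing A] [NormedAlgebra ℂ A] [CompleteSpace A],
      ConnectedSpace (WeakDual.characterSpace ℂ A) →
      (∃ hC : Topology.CWComplex (Set.univ : Set (WeakDual.characterSpace ℂ A)),
          Topology.RelCWComplex.Finite (Set.univ : Set (WeakDual.characterSpace ℂ A))) →
      (∀ f : C(WeakDual.characterSpace ℂ A, ℂ), (∀ x, f x ≠ 0) →
          ∃ g : C(WeakDual.characterSpace ℂ A, ℂ), ∀ x, f x = Complex.exp (g x)) →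
      ∀ (n : ℕ) (b : Fin n → A),
        (∏ i : Fin n, (Polynomial.X - Polynomial.C (b i) : Polynomial A)).Separable →
        ∃ γ : unitInterval → Polynomial A,
          (∀ k : ℕ, Continuous (fun t => (γ t).coeff k)) ∧
          γ 0 = ∏ i : Fin n, (Polynomial.X - Polynomial.C (b i) : Polynomial A) ∧
          (∀ t, (γ t).Separable ∧
              ∃ c : Fin n → A, γ t = ∏ i : Fin n, (Polynomial.X - Polynomial.C (c i) : Polynomial A)) ∧
          (∀ k : ℕ, ∃ z : ℂ, (γ 1).coeff k = algebraMap ℂ A z)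

namespace UnivCover

variable (U : UnivCover)

/-- `s` is a (local) section of the covering over the bidisc of centre `P X` and radius `r`,
through the point `X`. -/
def Sec (s : ℂ × ℂ → TT) (X : TT) (r : ℝ) : Prop :=
  0 < r ∧ ball (U.P X) r ⊆ MM ∧ ContinuousOn s (ball (U.P X) r) ∧ s (U.P X) = X ∧
    ∀ p ∈ ball (U.P X) r, U.P (s p) = p

/-- Holomorphic functions on `TT` (with values in a complex normed space). -/
def Hol {E : Type*} [NormedAddCommGroup E] [NormedSpace ℂ E] (f : TT → E) : Prop :=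
  ∀ X : TT, ∀ s r, U.Sec s X r → DifferentiableOn ℂ (fun p => f (s p)) (ball (U.P X) r)

/-- Holomorphic self-maps of `TT`. -/
def HolMap (F : TT → TT) : Prop := Continuous F ∧ U.Hol (fun X => U.P (F X))

/-- `F` moves the point `X` by at most `δ` (measured in the coordinates of `MM`, and staying on the
same sheet). -/
def NearAt (F : TT → TT) (X : TT) (δ : ℝ) : Prop :=
  ∃ s r, U.Sec s X r ∧ δ < r ∧ ‖U.P (F X) - U.P X‖ ≤ δ ∧ F X = s (U.P (F X))

/-- The closed convex cone of infinitesimal holomorphic self-maps of `TT`. -/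
def InC (V : TT → ℂ × ℂ) : Prop :=
  ∀ K : Set TT, IsCompact K → ∀ η : ℝ, 0 < η → ∃ (F : TT → TT) (ε : ℝ), U.HolMap F ∧ 0 < ε ∧
    ε < η ∧ ∀ X ∈ K, (∃ η' ≤ η, U.NearAt F X η') ∧
      ‖V X - (ε : ℂ)⁻¹ • (U.P (F X) - U.P X)‖ ≤ η

end UnivCover

/-- The Cayley transform from the unit disc to the upper half plane. -/
noncomputable def cay (w : ℂ) : ℂ := I * (1 + w) / (1 - w)

/-- The vector field `h` of the upper half plane in the coordinate of the unit disc. -/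
noncomputable def toDisc (h : ℂ → ℂ) (w : ℂ) : ℂ := h (cay w) * (1 - w) ^ 2 / (2 * I)

/-- The function with positive real part associated with an infinitesimal self-map. -/
noncomputable def herg (G : ℂ → ℂ) (w : ℂ) : ℂ :=
  -(G w - G 0 + (starRingEnd ℂ) (G 0) * w ^ 2) / w

/-- `h` is (the limit of) an infinitesimal holomorphic self-map of the upper half plane. -/
def Herg (h : ℂ → ℂ) : Prop :=
  DifferentiableOn ℂ h HH ∧ ∀ w ∈ ball (0 : ℂ) 1, w ≠ 0 → 0 ≤ (herg (toDisc h) w).re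

end Pool.Agent.T05
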