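import Pool.Agent.Lib.MP_0162a5_an.Defs

/-! MODULE E1: most points of a circle close to the boundary are thick.

`τ = cay w`, `w = r e^{iθ}`, `im τ = (1-|w|²)/|1-w|²`; `A - B τ = (q - conj q * w)/(1-w)` with
`q = A - i B`, so the bad set is covered by the sets `‖q - conj q * w‖ < √(κ (1-r²))`, `q` in a
shifted lattice, each of measure `≤ 8 π √(κ (1-r²))/|q|`, and only `|q| ≤ C √κ/√(1-r)` matter.
-/

set_option autoImplicit false

open Complex Metric Set Filter Topology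

namespace Pool.Agent.T05

/-- `(τ, x)` is in the thick part. -/
def Thick (κ : ℝ) (τ : ℂ) (x : ℝ) : Prop :=
  (∀ c d : ℤ, IsCoprime c d → κ * τ.im ≤ ‖(c : ℂ) * τ + d‖ ^ 2) ∧
  ∀ k l : ℤ, κ * τ.im ≤ ‖(x : ℂ) - k - l * τ‖ ^ 2

namespace E1

lemma sin_near {t ε : ℝ} (ht : t ∈ Icc (-Real.pi) (2 * Real.pi)) (h : |Real.sin t| < ε) :
    ∃ j ∈ Finset.Icc (-1 : ℤ) 2, |t - j * Real.pi| < Real.pi / 2 * ε := by
  have hpi := Real.pi_pos
  set j : ℤ := round (t / Real.pi) with hj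
  have h1 : |t / Real.pi - j| ≤ 1 / 2 := abs_sub_round _
  have h2 : |t - j * Real.pi| ≤ Real.pi / 2 := by
    have : t - j * Real.pi = (t / Real.pi - j) * Real.pi := by field_simp
    rw [this, abs_mul, abs_of_pos hpi]
    nlinarith
  refine ⟨j, ?_, ?_⟩
  · have h3 := abs_le.1 h1
    have h4 : t / Real.pi ≤ 2 := by rw [div_le_iff₀ hpi]; exact ht.2
    have h5 : -1 ≤ t / Real.pi := by rw [le_div_iff₀ hpi]; linarith [ht.1]
    rw [Finset.mem_Icc]
    constructor
    · by_contra hc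
      push Not at hc
      have : (j : ℝ) ≤ -2 := by exact_mod_cast (by omega : j ≤ -2)
      linarith [h3.2]
    · by_contra hc
      push Not at hc
      have : (3 : ℝ) ≤ j := by exact_mod_cast (by omega : 3 ≤ j)
      linarith [h3.1]
  · have h3 := Real.mul_abs_le_abs_sin h2
    have h4 : |Real.sin (t - j * Real.pi)| = |Real.sin t| := by
      rw [Real.sin_sub_int_mul_pi, abs_mul, abs_zpow, abs_neg, abs_one, one_zpow, one_mul]
    rw [h4] at h3
    have h5 : 2 / Real.pi * |t - j * Real.pi| < ε := lt_of_le_of_lt h3 h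
    have h6 : |t - j * Real.pi| = Real.pi / 2 * (2 / Real.pi * |t - j * Real.pi|) := by
      field_simp
    rw [h6]
    exact mul_lt_mul_of_pos_left h5 (by positivity)

lemma norm_lower (q : ℂ) {r : ℝ} (hr : 1 / 4 ≤ r) (θ : ℝ) :
    ‖q‖ * |Real.sin (θ / 2 - arg q)| ≤ ‖q - (starRingEnd ℂ) q * (r * exp (θ * I))‖ := by
  have hq : q = ‖q‖ * exp (arg q * I) := (norm_mul_exp_arg_mul_I q).symm
  set a := arg q with ha
  set n := ‖q‖ with hn
  have hn0 : 0 ≤ n := norm_nonneg q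
  have h1 : q - (starRingEnd ℂ) q * (r * exp (θ * I)) =
      n * (exp (a * I) - r * exp ((θ - a) * I)) := by
    have h2 : (starRingEnd ℂ) q = n * exp (-(a * I)) := by
      conv_lhs => rw [hq]
      rw [map_mul, ← exp_conj, map_mul, conj_I, conj_ofReal, conj_ofReal]
      ring_nf
    rw [h2]
    conv_lhs => rw [hq]
    have h3 : exp ((θ - a) * I) = exp (-(a * I)) * exp (θ * I) := by
      rw [← exp_add]; ring_nf
    rw [h3]; ring
  rw [h1, norm_mul, norm_real, Real.norm_eq_abs, abs_of_nonneg hn0]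
  apply mul_le_mul_of_nonneg_left _ hn0
  have h4 : ‖exp (a * I) - r * exp ((θ - a) * I)‖ ^ 2 =
      (1 - r) ^ 2 + 4 * r * Real.sin (θ / 2 - a) ^ 2 := by
    rw [← normSq_eq_norm_sq, normSq_apply]
    have e1 : exp (a * I) = Real.cos a + Real.sin a * I := by
      rw [exp_mul_I, ofReal_cos, ofReal_sin]
    have e2 : exp ((θ - a) * I) = Real.cos (θ - a) + Real.sin (θ - a) * I := by
      rw [← ofReal_sub, exp_mul_I, ofReal_cos, ofReal_sin]
    rw [e1, e2]
    simp only [sub_re, add_re, ofReal_re, mul_re, ofReal_im, I_re, mul_zero, I_im, mul_one,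
      sub_self, add_zero, zero_mul, sub_im, add_im, mul_im, zero_add]
    have c1 := Real.sin_sq_add_cos_sq a
    have c2 := Real.sin_sq_add_cos_sq (θ - a)
    have c3 : Real.cos (θ - a) * Real.cos a + Real.sin (θ - a) * Real.sin a =
        1 - 2 * Real.sin (θ / 2 - a) ^ 2 := by
      rw [← Real.cos_sub]
      have : θ - a - a = 2 * (θ / 2 - a) := by ring
      rw [this, Real.cos_two_mul]
      nlinarith [Real.sin_sq_add_cos_sq (θ / 2 - a)]
    nlinarith
  have h5 : |Real.sin (θ / 2 - a)| ^ 2 ≤ ‖exp (a * I) - r * exp ((θ - a) * I)‖ ^ 2 := by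
    rw [h4, sq_abs]
    nlinarith [sq_nonneg (1 - r), sq_nonneg (Real.sin (θ / 2 - a))]
  exact le_of_sq_le_sq h5 (norm_nonneg _) 

lemma norm_lower' (q : ℂ) {r : ℝ} (hr : 0 ≤ r) (θ : ℝ) :
    ‖q‖ * (1 - r) ≤ ‖q - (starRingEnd ℂ) q * (r * exp (θ * I))‖ := by
  have h1 := norm_sub_norm_le q ((starRingEnd ℂ) q * (r * exp (θ * I)))
  rw [norm_mul, norm_mul, norm_exp_ofReal_mul_I, RCLike.norm_conj, norm_real, Real.norm_eq_abs,
    abs_of_nonneg hr] at h1
  linarith

lemma volume_one (q : ℂ) (hq : 0 < ‖q‖) {r : ℝ} (hr : 1 / 4 ≤ r) {δ : ℝ} :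
    MeasureTheory.volume {θ : ℝ | θ ∈ Icc 0 (2 * Real.pi) ∧
      ‖q - (starRingEnd ℂ) q * (r * exp (θ * I))‖ < δ} ≤
      ENNReal.ofReal (8 * Real.pi * (δ / ‖q‖)) := by
  have hpi := Real.pi_pos
  set ε := δ / ‖q‖ with hε
  have hsub : {θ : ℝ | θ ∈ Icc 0 (2 * Real.pi) ∧
      ‖q - (starRingEnd ℂ) q * (r * exp (θ * I))‖ < δ} ⊆
      ⋃ j ∈ Finset.Icc (-1 : ℤ) 2, ball (2 * (j * Real.pi + arg q)) (Real.pi * ε) := by
    rintro θ ⟨hθ, h⟩
    have h1 := lt_of_le_of_lt (norm_lower q hr θ) h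
    have h2 : |Real.sin (θ / 2 - arg q)| < ε := by
      rw [hε, lt_div_iff₀ hq]; linarith
    have h3 : θ / 2 - arg q ∈ Icc (-Real.pi) (2 * Real.pi) := by
      have := arg_mem_Ioc q
      constructor
      · linarith [this.2, hθ.1]
      · linarith [this.1, hθ.2]
    obtain ⟨j, hj, h4⟩ := sin_near h3 h2
    simp only [mem_iUnion]
    refine ⟨j, hj, ?_⟩
    rw [mem_ball, Real.dist_eq]
    have : θ - 2 * (j * Real.pi + arg q) = 2 * (θ / 2 - arg q - j * Real.pi) := by ring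
    rw [this, abs_mul, abs_two]
    linarith
  calc _ ≤ MeasureTheory.volume (⋃ j ∈ Finset.Icc (-1 : ℤ) 2,
        ball (2 * (j * Real.pi + arg q)) (Real.pi * ε)) := MeasureTheory.measure_mono hsub
    _ ≤ ∑ j ∈ Finset.Icc (-1 : ℤ) 2, MeasureTheory.volume
        (ball (2 * (j * Real.pi + arg q)) (Real.pi * ε)) :=
        MeasureTheory.measure_biUnion_finset_le _ _
    _ = ∑ j ∈ Finset.Icc (-1 : ℤ) 2, ENNReal.ofReal (2 * (Real.pi * ε)) := by
        simp only [Real.volume_ball]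
    _ = ENNReal.ofReal (8 * Real.pi * ε) := by
        rw [Finset.sum_const, nsmul_eq_mul]
        have : ((Finset.Icc (-1 : ℤ) 2).card : ENNReal) = ENNReal.ofReal 4 := by
          simp
        rw [this, ← ENNReal.ofReal_mul (by norm_num)]
        congr 1; ring

/-- the complex number attached to a lattice point -/
noncomputable def qq (s : ℝ) (p : ℤ × ℤ) : ℂ := (s : ℂ) - p.1 - p.2 * I

lemma qq_re (s : ℝ) (p : ℤ × ℤ) : (qq s p).re = s - p.1 := by simp [qq]

lemma qq_im (s : ℝ) (p : ℤ × ℤ) : (qq s p).im = -p.2 := by simp [qq]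

lemma norm_qq {s : ℝ} (hs : s ∈ Icc (0 : ℝ) (3 / 4)) (n : ℕ) (p : ℤ × ℤ)
    (hp : p ∈ (Finset.box n : Finset (ℤ × ℤ))) (h : 1 / 4 ≤ ‖qq s p‖) :
    (n + 1 : ℝ) / 8 ≤ ‖qq s p‖ := by
  rw [Int.mem_box] at hp
  rcases Nat.eq_zero_or_pos n with h0 | h0
  · subst h0; norm_num; linarith
  have h1 : (1 : ℝ) ≤ n := by exact_mod_cast h0
  rcases max_choice p.1.natAbs p.2.natAbs with h2 | h2
  · rw [h2] at hp
    have h3 : |(p.1 : ℝ)| = n := by
      rw [← hp]; rw [← Int.cast_abs, Nat.cast_natAbs]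
    have h4 := abs_re_le_norm (qq s p)
    rw [qq_re] at h4
    have h5 : |(p.1 : ℝ)| - |s| ≤ |s - p.1| := by
      rw [abs_sub_comm]; exact abs_sub_abs_le_abs_sub _ _
    rw [h3, abs_of_nonneg hs.1] at h5
    linarith [hs.2]
  · rw [h2] at hp
    have h3 : |(p.2 : ℝ)| = n := by
      rw [← hp]; rw [← Int.cast_abs, Nat.cast_natAbs]
    have h4 := abs_im_le_norm (qq s p)
    rw [qq_im, abs_neg, h3] at h4
    linarith

lemma card_box_le (n : ℕ) : ((Finset.box n : Finset (ℤ × ℤ)).card : ℝ) ≤ 8 * (n + 1) := by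
  rcases Nat.eq_zero_or_pos n with h0 | h0
  · subst h0; simp
  · rw [Int.card_box h0.ne']; push_cast; linarith

lemma volume_all {s : ℝ} (hs : s ∈ Icc (0 : ℝ) (3 / 4)) {r : ℝ} (hr : 1 / 4 ≤ r) (hr1 : r < 1)
    {κ : ℝ} (hκ : 0 < κ) :
    MeasureTheory.volume {θ : ℝ | θ ∈ Icc 0 (2 * Real.pi) ∧ ∃ p : ℤ × ℤ, 1 / 4 ≤ ‖qq s p‖ ∧
      ‖qq s p - (starRingEnd ℂ) (qq s p) * (r * exp (θ * I))‖ < √(κ * (1 - r ^ 2))} ≤
      ENNReal.ofReal (8192 * Real.pi * κ) := by
  classical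
  have hpi := Real.pi_pos
  set δ := √(κ * (1 - r ^ 2)) with hδ
  have hr2 : 0 < 1 - r ^ 2 := by nlinarith
  have hδ0 : 0 < δ := Real.sqrt_pos.2 (by positivity)
  have hδ2 : δ ^ 2 = κ * (1 - r ^ 2) := Real.sq_sqrt (by positivity)
  set R := 8 * δ / (1 - r) with hR
  have h1r : 0 < 1 - r := by linarith
  have hR0 : 0 < R := by positivity
  set N := ⌊R⌋₊ with hN
  have hNR : (N : ℝ) ≤ R := Nat.floor_le hR0.le
  set B : ℤ × ℤ → Set ℝ := fun p => {θ : ℝ | θ ∈ Icc 0 (2 * Real.pi) ∧ 1 / 4 ≤ ‖qq s p‖ ∧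
      ‖qq s p - (starRingEnd ℂ) (qq s p) * (r * exp (θ * I))‖ < δ} with hB
  have hBvol : ∀ n : ℕ, ∀ p ∈ (Finset.box n : Finset (ℤ × ℤ)), MeasureTheory.volume (B p) ≤
      ENNReal.ofReal (64 * Real.pi * δ / (n + 1)) := by
    intro n p hp
    by_cases hq : 1 / 4 ≤ ‖qq s p‖
    · have h1 : B p ⊆ {θ : ℝ | θ ∈ Icc 0 (2 * Real.pi) ∧
        ‖qq s p - (starRingEnd ℂ) (qq s p) * (r * exp (θ * I))‖ < δ} :=
        fun θ h => ⟨h.1, h.2.2⟩
      refine (MeasureTheory.measure_mono h1).trans ((volume_one (qq s p) (by linarith) hr).trans ?_)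
      apply ENNReal.ofReal_le_ofReal
      have h2 := norm_qq hs n p hp hq
      have h3 : δ / ‖qq s p‖ ≤ δ / ((n + 1 : ℝ) / 8) :=
        div_le_div_of_nonneg_left hδ0.le (by positivity) h2
      calc 8 * Real.pi * (δ / ‖qq s p‖) ≤ 8 * Real.pi * (δ / ((n + 1 : ℝ) / 8)) :=
            mul_le_mul_of_nonneg_left h3 (by positivity)
        _ = 64 * Real.pi * δ / (n + 1) := by field_simp; ring
    · have h1 : B p = ∅ := by
        ext θ; simp only [hB, mem_ofPred_eq, mem_empty_iff_false, iff_false]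
        exact fun h => hq h.2.1
      rw [h1]; simp
  have hsub : {θ : ℝ | θ ∈ Icc 0 (2 * Real.pi) ∧ ∃ p : ℤ × ℤ, 1 / 4 ≤ ‖qq s p‖ ∧
      ‖qq s p - (starRingEnd ℂ) (qq s p) * (r * exp (θ * I))‖ < δ} ⊆
      ⋃ n ∈ Finset.range N, ⋃ p ∈ (Finset.box n : Finset (ℤ × ℤ)), B p := by
    rintro θ ⟨hθ, p, hp1, hp2⟩
    obtain ⟨n, hn, -⟩ := Int.existsUnique_mem_box p
    simp only [mem_iUnion]
    refine ⟨n, ?_, p, hn, hθ, hp1, hp2⟩
    rw [Finset.mem_range, hN, ← Nat.succ_le_iff, Nat.le_floor_iff hR0.le]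
    have h1 := norm_qq hs n p hn hp1
    have h2 := norm_lower' (qq s p) (by linarith : 0 ≤ r) θ
    have h3 : ‖qq s p‖ * (1 - r) < δ := lt_of_le_of_lt h2 hp2
    rw [hR, le_div_iff₀ h1r]
    push_cast
    nlinarith
  calc _ ≤ MeasureTheory.volume (⋃ n ∈ Finset.range N, ⋃ p ∈ (Finset.box n : Finset (ℤ × ℤ)),
        B p) := MeasureTheory.measure_mono hsub
    _ ≤ ∑ n ∈ Finset.range N, MeasureTheory.volume (⋃ p ∈ (Finset.box n : Finset (ℤ × ℤ)),
        B p) := MeasureTheory.measure_biUnion_finset_le _ _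
    _ ≤ ∑ n ∈ Finset.range N, ∑ p ∈ (Finset.box n : Finset (ℤ × ℤ)), MeasureTheory.volume (B p) :=
        Finset.sum_le_sum fun n _ => MeasureTheory.measure_biUnion_finset_le _ _
    _ ≤ ∑ n ∈ Finset.range N, ENNReal.ofReal (512 * Real.pi * δ) := by
        apply Finset.sum_le_sum
        intro n _
        calc _ ≤ ∑ p ∈ (Finset.box n : Finset (ℤ × ℤ)),
              ENNReal.ofReal (64 * Real.pi * δ / (n + 1)) := Finset.sum_le_sum fun p hp => hBvol n p hp
          _ = ENNReal.ofReal ((Finset.box n : Finset (ℤ × ℤ)).card) *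
              ENNReal.ofReal (64 * Real.pi * δ / (n + 1)) := by
              rw [Finset.sum_const, nsmul_eq_mul, ENNReal.ofReal_natCast]
          _ = ENNReal.ofReal ((Finset.box n : Finset (ℤ × ℤ)).card *
              (64 * Real.pi * δ / (n + 1))) := by
              rw [ENNReal.ofReal_mul (Nat.cast_nonneg _)]
          _ ≤ _ := by
              apply ENNReal.ofReal_le_ofReal
              have h1 := card_box_le n
              calc _ ≤ (8 * ((n : ℝ) + 1)) * (64 * Real.pi * δ / (n + 1)) :=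
                    mul_le_mul_of_nonneg_right h1 (by positivity)
                _ = 512 * Real.pi * δ := by field_simp; ring
    _ = ENNReal.ofReal (N * (512 * Real.pi * δ)) := by
        rw [Finset.sum_const, nsmul_eq_mul, Finset.card_range,
          ENNReal.ofReal_mul (Nat.cast_nonneg _), ENNReal.ofReal_natCast]
    _ ≤ ENNReal.ofReal (8192 * Real.pi * κ) := by
        apply ENNReal.ofReal_le_ofReal
        have h1 : R * δ ≤ 16 * κ := by
          rw [hR, div_mul_eq_mul_div, div_le_iff₀ h1r]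
          nlinarith
        calc _ ≤ R * (512 * Real.pi * δ) := mul_le_mul_of_nonneg_right hNR (by positivity)
          _ = 512 * Real.pi * (R * δ) := by ring
          _ ≤ 512 * Real.pi * (16 * κ) := mul_le_mul_of_nonneg_left h1 (by positivity)
          _ = _ := by ring

lemma cay_im {r : ℝ} (hr0 : 0 ≤ r) (hr1 : r < 1) (θ : ℝ) :
    (cay (r * exp (θ * I))).im = (1 - r ^ 2) / ‖1 - r * exp (θ * I)‖ ^ 2 ∧
      1 - (r : ℂ) * exp (θ * I) ≠ 0 := by
  have hn : ‖(r : ℂ) * exp (θ * I)‖ = r := by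
    rw [norm_mul, norm_exp_ofReal_mul_I, norm_real, Real.norm_eq_abs, abs_of_nonneg hr0, mul_one]
  set w : ℂ := r * exp (θ * I) with hw
  have hne : 1 - w ≠ 0 := by
    intro h
    have : w = 1 := (sub_eq_zero.1 h).symm
    rw [this, norm_one] at hn
    linarith
  refine ⟨?_, hne⟩
  have hns : normSq w = r ^ 2 := by rw [normSq_eq_norm_sq, hn]
  have h1 : cay w = I * ((1 + w) * (starRingEnd ℂ) (1 - w)) / (‖1 - w‖ ^ 2 : ℝ) := by
    have h2 : ((‖1 - w‖ ^ 2 : ℝ) : ℂ) = (1 - w) * (starRingEnd ℂ) (1 - w) := by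
      rw [mul_conj, normSq_eq_norm_sq]
    have h3 : (starRingEnd ℂ) (1 - w) ≠ 0 := (map_ne_zero (starRingEnd ℂ)).2 hne
    rw [h2, cay]
    field_simp
  rw [h1, div_ofReal_im]
  congr 1
  rw [normSq_apply] at hns
  simp
  nlinarith

lemma key {r : ℝ} (hr0 : 0 ≤ r) (hr1 : r < 1) (θ κ s : ℝ) (p : ℤ × ℤ)
    (h : ‖((s : ℂ) - p.1) - p.2 * cay (r * exp (θ * I))‖ ^ 2 < κ * (cay (r * exp (θ * I))).im) :
    ‖qq s p - (starRingEnd ℂ) (qq s p) * (r * exp (θ * I))‖ < √(κ * (1 - r ^ 2)) := by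
  obtain ⟨h1, hne⟩ := cay_im hr0 hr1 θ
  set w : ℂ := r * exp (θ * I) with hw
  rw [h1] at h
  have hn : 0 < ‖1 - w‖ := norm_pos_iff.2 hne
  have h2 : ((s : ℂ) - p.1) - p.2 * cay w = (qq s p - (starRingEnd ℂ) (qq s p) * w) / (1 - w) := by
    rw [eq_div_iff hne, cay, qq]
    simp only [map_sub, map_mul, conj_I, conj_ofReal, map_intCast]
    field_simp
    ring
  rw [h2, norm_div, div_pow, ← mul_div_assoc, div_lt_div_iff_of_pos_right (by positivity)] at h
  exact Real.lt_sqrt_of_sq_lt h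

end E1

theorem thick_measure {m₀ : ℝ} (hm₀ : 0 < m₀) : ∃ κ : ℝ, 0 < κ ∧ ∃ r₀ : ℝ, r₀ < 1 ∧
    ∀ r : ℝ, r₀ ≤ r → r < 1 → ∀ x ∈ Icc (1 / 4 : ℝ) (3 / 4),
      MeasureTheory.volume {θ : ℝ | θ ∈ Icc 0 (2 * Real.pi) ∧
        ¬ Thick κ (cay (r * exp (θ * I))) x} ≤ ENNReal.ofReal m₀ := by
  have hpi := Real.pi_pos
  set κ := m₀ / (16384 * Real.pi) with hκd
  have hκ : 0 < κ := by positivity
  refine ⟨κ, hκ, 1 / 4, by norm_num, ?_⟩
  intro r hr hr1 x hx
  set A : ℝ → Set ℝ := fun s => {θ : ℝ | θ ∈ Icc 0 (2 * Real.pi) ∧ ∃ p : ℤ × ℤ,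
      1 / 4 ≤ ‖E1.qq s p‖ ∧
      ‖E1.qq s p - (starRingEnd ℂ) (E1.qq s p) * (r * exp (θ * I))‖ < √(κ * (1 - r ^ 2))} with hA
  have hsub : {θ : ℝ | θ ∈ Icc 0 (2 * Real.pi) ∧
        ¬ Thick κ (cay (r * exp (θ * I))) x} ⊆ A 0 ∪ A x := by
    rintro θ ⟨hθ, h⟩
    unfold Thick at h
    rw [not_and_or] at h
    rcases h with h | h
    · left
      push Not at h
      obtain ⟨c, d, hcd, h⟩ := h
      refine ⟨hθ, (-d, -c), ?_, ?_⟩
      · have h1 : d ≠ 0 ∨ c ≠ 0 := by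
          by_contra hh
          push Not at hh
          rw [hh.1, hh.2] at hcd
          exact not_isCoprime_zero_zero hcd
        rcases h1 with h1 | h1
        · have h2 := abs_re_le_norm (E1.qq 0 (-d, -c))
          rw [E1.qq_re] at h2
          have h3 : (1 : ℝ) ≤ |(d : ℝ)| := by exact_mod_cast Int.one_le_abs h1
          simp only [Int.cast_neg, zero_sub, neg_neg] at h2
          linarith
        · have h2 := abs_im_le_norm (E1.qq 0 (-d, -c))
          rw [E1.qq_im] at h2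
          have h3 : (1 : ℝ) ≤ |(c : ℝ)| := by exact_mod_cast Int.one_le_abs h1
          simp only [Int.cast_neg, neg_neg] at h2
          linarith
      · apply E1.key (by linarith) hr1 θ κ 0
        have h2 : (((0 : ℝ) : ℂ) - ((-d, -c) : ℤ × ℤ).1) - ((-d, -c) : ℤ × ℤ).2 *
            cay (r * exp (θ * I)) = (c : ℂ) * cay (r * exp (θ * I)) + d := by
          push_cast; ring
        rw [h2]
        exact h
    · right
      push Not at h
      obtain ⟨k, l, h⟩ := h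
      refine ⟨hθ, (k, l), ?_, ?_⟩
      · have h2 := abs_re_le_norm (E1.qq x (k, l))
        rw [E1.qq_re] at h2
        refine le_trans ?_ h2
        rcases le_or_gt k 0 with hk | hk
        · have : (k : ℝ) ≤ 0 := by exact_mod_cast hk
          rw [le_abs]; left
          show 1 / 4 ≤ x - (k : ℝ)
          linarith [hx.1]
        · have : (1 : ℝ) ≤ k := by exact_mod_cast hk
          rw [le_abs]; right
          show 1 / 4 ≤ -(x - (k : ℝ))
          linarith [hx.2]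
      · exact E1.key (by linarith) hr1 θ κ x (k, l) h
  have hA1 : ∀ s ∈ Icc (0 : ℝ) (3 / 4), MeasureTheory.volume (A s) ≤
      ENNReal.ofReal (8192 * Real.pi * κ) := fun s hs => E1.volume_all hs hr hr1 hκ
  calc _ ≤ MeasureTheory.volume (A 0 ∪ A x) := MeasureTheory.measure_mono hsub
    _ ≤ MeasureTheory.volume (A 0) + MeasureTheory.volume (A x) :=
        MeasureTheory.measure_union_le _ _
    _ ≤ ENNReal.ofReal (8192 * Real.pi * κ) + ENNReal.ofReal (8192 * Real.pi * κ) :=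
        add_le_add (hA1 0 ⟨le_rfl, by norm_num⟩) (hA1 x ⟨by linarith [hx.1], hx.2⟩)
    _ = ENNReal.ofReal m₀ := by
        rw [← ENNReal.ofReal_add (by positivity) (by positivity)]
        congr 1
        rw [hκd]; field_simp; ring

end Pool.Agent.T05
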