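import Pool.Agent.Lib.MP_0162a5_an.E1

/-! MODULE E2: thick points lie in a compact part of `MM`. -/

set_option autoImplicit false

open Complex Metric Set Filter Topology

namespace Pool.Agent.T05

namespace E2

lemma den_ne {a b c d : ℤ} (h : a * d - b * c = 1) {τ : ℂ} (hτ : 0 < τ.im) :
    (c : ℂ) * τ + d ≠ 0 := by
  intro h0
  have h1 := congrArg Complex.im h0
  have h2 := congrArg Complex.re h0
  simp only [add_im, mul_im, intCast_re, intCast_im, zero_mul, add_zero, zero_im, add_re, mul_re,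
    sub_zero, zero_re] at h1 h2
  have hc : (c : ℝ) = 0 := by
    rcases mul_eq_zero.1 h1 with h3 | h3
    · exact h3
    · exact absurd h3 hτ.ne'
  rw [hc, zero_mul, zero_add] at h2
  have hc' : c = 0 := by exact_mod_cast hc
  have hd' : d = 0 := by exact_mod_cast h2
  rw [hc', hd'] at h
  simp at h

lemma mob_im {a b c d : ℤ} (h : a * d - b * c = 1) {τ : ℂ} (hτ : 0 < τ.im) :
    (((a : ℂ) * τ + b) / (c * τ + d)).im = τ.im / ‖(c : ℂ) * τ + d‖ ^ 2 := by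
  have h0 := den_ne h hτ
  have h3 : (starRingEnd ℂ) ((c : ℂ) * τ + d) ≠ 0 := (map_ne_zero (starRingEnd ℂ)).2 h0
  have h2 : ((‖(c : ℂ) * τ + d‖ ^ 2 : ℝ) : ℂ) =
      ((c : ℂ) * τ + d) * (starRingEnd ℂ) ((c : ℂ) * τ + d) := by
    rw [mul_conj, normSq_eq_norm_sq]
  have h1 : ((a : ℂ) * τ + b) / (c * τ + d) =
      (((a : ℂ) * τ + b) * (starRingEnd ℂ) ((c : ℂ) * τ + d)) / (‖(c : ℂ) * τ + d‖ ^ 2 : ℝ) := by
    rw [h2, mul_div_mul_right _ _ h3]
  rw [h1, div_ofReal_im]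
  congr 1
  have h4 : (a : ℝ) * d - b * c = 1 := by exact_mod_cast h
  simp
  linear_combination τ.im * h4

lemma parity (a b c d : ℤ) (h : a * d - b * c = 1) :
    ∃ a' b' c' d' : ℤ, (a' ∈ Finset.Icc (-1 : ℤ) 1 ∧ b' ∈ Finset.Icc (-1 : ℤ) 1 ∧
      c' ∈ Finset.Icc (-1 : ℤ) 1 ∧ d' ∈ Finset.Icc (-1 : ℤ) 1) ∧ a' * d' - b' * c' = 1 ∧
      Gam2 (d' * a - b' * c) (d' * b - b' * d) (-c' * a + a' * c) (-c' * b + a' * d) := by
  have hdet : ∀ a' b' c' d' : ℤ, a' * d' - b' * c' = 1 →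
      (d' * a - b' * c) * (-c' * b + a' * d) - (d' * b - b' * d) * (-c' * a + a' * c) = 1 := by
    intro a' b' c' d' h'
    have : (d' * a - b' * c) * (-c' * b + a' * d) - (d' * b - b' * d) * (-c' * a + a' * c) =
      (a' * d' - b' * c') * (a * d - b * c) := by ring
    rw [this, h, h', mul_one]
  have hmod : (a % 2 * (d % 2) - b % 2 * (c % 2)) % 2 = 1 := by
    have : (a * d - b * c) % 2 = 1 := by rw [h]; rfl
    rwa [Int.sub_emod, Int.mul_emod a, Int.mul_emod b, ← Int.sub_emod] at this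
  have ha := Int.emod_two_eq_zero_or_one a
  have hb := Int.emod_two_eq_zero_or_one b
  have hc := Int.emod_two_eq_zero_or_one c
  have hd := Int.emod_two_eq_zero_or_one d
  have fin1 : (-1 : ℤ) ∈ Finset.Icc (-1 : ℤ) 1 := by decide
  have fin2 : (0 : ℤ) ∈ Finset.Icc (-1 : ℤ) 1 := by decide
  have fin3 : (1 : ℤ) ∈ Finset.Icc (-1 : ℤ) 1 := by decide
  rcases ha with ha | ha <;> rcases hb with hb | hb <;> rcases hc with hc | hc <;>
    rcases hd with hd | hd <;> rw [ha, hb, hc, hd] at hmod <;>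
    (try (exfalso; revert hmod; decide))
  · refine ⟨0, -1, 1, 0, ⟨fin2, fin1, fin3, fin2⟩, by norm_num, hdet _ _ _ _ (by norm_num), ?_⟩
    rw [Int.odd_iff, Int.even_iff, Int.even_iff, Int.odd_iff]
    omega
  · refine ⟨0, -1, 1, 1, ⟨fin2, fin1, fin3, fin3⟩, by norm_num, hdet _ _ _ _ (by norm_num), ?_⟩
    rw [Int.odd_iff, Int.even_iff, Int.even_iff, Int.odd_iff]
    omega
  · refine ⟨1, 0, 0, 1, ⟨fin3, fin2, fin2, fin3⟩, by norm_num, hdet _ _ _ _ (by norm_num), ?_⟩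
    rw [Int.odd_iff, Int.even_iff, Int.even_iff, Int.odd_iff]
    omega
  · refine ⟨1, 0, 1, 1, ⟨fin3, fin2, fin3, fin3⟩, by norm_num, hdet _ _ _ _ (by norm_num), ?_⟩
    rw [Int.odd_iff, Int.even_iff, Int.even_iff, Int.odd_iff]
    omega
  · refine ⟨1, 1, 0, 1, ⟨fin3, fin3, fin2, fin3⟩, by norm_num, hdet _ _ _ _ (by norm_num), ?_⟩
    rw [Int.odd_iff, Int.even_iff, Int.even_iff, Int.odd_iff]
    omega
  · refine ⟨1, -1, 1, 0, ⟨fin3, fin1, fin3, fin2⟩, by norm_num, hdet _ _ _ _ (by norm_num), ?_⟩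
    rw [Int.odd_iff, Int.even_iff, Int.even_iff, Int.odd_iff]
    omega

/-- the truncated fundamental domain -/
def FD (κ : ℝ) : Set ℂ := {τ | |τ.re| ≤ 1 / 2 ∧ 3 / 4 ≤ τ.im ^ 2 ∧ 0 ≤ τ.im ∧ τ.im ≤ κ⁻¹}

lemma FD_compact (κ : ℝ) : IsCompact (FD κ) := by
  apply isCompact_of_isClosed_isBounded
  · have h1 : FD κ = {τ : ℂ | |τ.re| ≤ 1 / 2} ∩ ({τ : ℂ | 3 / 4 ≤ τ.im ^ 2} ∩
        ({τ : ℂ | 0 ≤ τ.im} ∩ {τ : ℂ | τ.im ≤ κ⁻¹})) := rfl
    rw [h1]
    refine (isClosed_le ?_ ?_).inter ((isClosed_le ?_ ?_).inter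
      ((isClosed_le ?_ ?_).inter (isClosed_le ?_ ?_))) <;> fun_prop
  · rw [isBounded_iff_forall_norm_le]
    refine ⟨1 / 2 + κ⁻¹, ?_⟩
    rintro τ ⟨h1, h2, h3, h4⟩
    refine (norm_le_abs_re_add_abs_im τ).trans ?_
    rw [abs_of_nonneg h3]
    linarith

lemma FD_im {κ : ℝ} {τ : ℂ} (h : τ ∈ FD κ) : 0 < τ.im := by
  rcases h with ⟨-, h2, h3, -⟩
  rcases h3.eq_or_lt with h | h
  · rw [← h] at h2; norm_num at h2
  · exact h

/-- the compact part of the upper half plane -/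
def CC (κ : ℝ) : Set ℂ := ⋃ a ∈ Finset.Icc (-1 : ℤ) 1, ⋃ b ∈ Finset.Icc (-1 : ℤ) 1,
  ⋃ c ∈ Finset.Icc (-1 : ℤ) 1, ⋃ d ∈ Finset.Icc (-1 : ℤ) 1, ⋃ _ : a * d - b * c = 1,
    (fun τ : ℂ => ((a : ℂ) * τ + b) / (c * τ + d)) '' FD κ

lemma CC_compact (κ : ℝ) : IsCompact (CC κ) := by
  unfold CC
  refine Finset.isCompact_biUnion _ fun a _ => Finset.isCompact_biUnion _ fun b _ =>
    Finset.isCompact_biUnion _ fun c _ => Finset.isCompact_biUnion _ fun d _ =>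
    isCompact_iUnion fun h => (FD_compact κ).image_of_continuousOn ?_
  apply ContinuousOn.div (by fun_prop) (by fun_prop)
  intro τ hτ
  exact den_ne h (FD_im hτ)

lemma CC_im {κ : ℝ} {τ : ℂ} (h : τ ∈ CC κ) : 0 < τ.im := by
  simp only [CC, mem_iUnion] at h
  obtain ⟨a, _, b, _, c, _, d, _, h, τ', hτ', rfl⟩ := h
  show 0 < (((a : ℂ) * τ' + b) / (c * τ' + d)).im
  rw [mob_im h (FD_im hτ')]
  have := FD_im hτ'
  have := norm_pos_iff.2 (den_ne h (FD_im hτ'))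
  positivity

/-- the compact part of `WW` (in the coordinates `(τ, s, t)`) -/
def KS (κ : ℝ) : Set (ℂ × ℝ × ℝ) := (CC κ ×ˢ Icc 0 2 ×ˢ Icc 0 2) ∩
  ⋂ (k : ℤ) (l : ℤ), {q | κ * q.1.im ≤ ‖((q.2.1 : ℂ) + q.2.2 * q.1) - k - l * q.1‖ ^ 2}

lemma KS_compact (κ : ℝ) : IsCompact (KS κ) := by
  apply ((CC_compact κ).prod (isCompact_Icc.prod isCompact_Icc)).inter_right
  refine isClosed_iInter fun k => isClosed_iInter fun l => isClosed_le ?_ ?_
  · fun_prop
  · fun_prop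

lemma exists_red {κ : ℝ} (hκ : 0 < κ) {τ : ℂ} (hτ : 0 < τ.im)
    (hth : ∀ c d : ℤ, IsCoprime c d → κ * τ.im ≤ ‖(c : ℂ) * τ + d‖ ^ 2) :
    ∃ a b c d : ℤ, Gam2 a b c d ∧ ((a : ℂ) * τ + b) / (c * τ + d) ∈ CC κ := by
  obtain ⟨g, hg⟩ := ModularGroup.exists_smul_mem_fd ⟨τ, hτ⟩
  set a := g 0 0 with ha
  set b := g 0 1 with hb
  set c := g 1 0 with hc
  set d := g 1 1 with hd
  have hdet : a * d - b * c = 1 := by
    have := g.det_coe
    rw [Matrix.det_fin_two] at this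
    exact this
  set τ' : ℂ := ((a : ℂ) * τ + b) / (c * τ + d) with hτ'
  have hcoe : ((g • (⟨τ, hτ⟩ : UpperHalfPlane) : UpperHalfPlane) : ℂ) = τ' := by
    rw [UpperHalfPlane.coe_specialLinearGroup_apply]
    simp [hτ', ha, hb, hc, hd]
  have hden := den_ne hdet hτ
  have hnpos := norm_pos_iff.2 hden
  have him := mob_im hdet hτ
  rw [← hτ'] at him
  have himpos : 0 < τ'.im := by rw [him]; positivity
  have hFD : τ' ∈ FD κ := by
    obtain ⟨h1, h2⟩ := hg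
    rw [hcoe] at h1
    have h3 : |τ'.re| ≤ 1 / 2 := by
      rw [← hcoe]; exact h2
    refine ⟨h3, ?_, himpos.le, ?_⟩
    · rw [normSq_apply] at h1
      have h4 := abs_le.1 h3
      nlinarith
    · rw [him, div_le_iff₀ (by positivity)]
      have hcop : IsCoprime c d := ⟨-b, a, by linarith⟩
      have := hth c d hcop
      rw [inv_mul_eq_div, le_div_iff₀ hκ]
      linarith
  obtain ⟨a', b', c', d', ⟨ha', hb', hc', hd'⟩, hdet', hG⟩ := parity a b c d hdet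
  refine ⟨_, _, _, _, hG, ?_⟩
  simp only [CC, mem_iUnion]
  have hneg : ∀ z ∈ Finset.Icc (-1 : ℤ) 1, -z ∈ Finset.Icc (-1 : ℤ) 1 := by decide
  refine ⟨d', hd', -b', hneg _ hb', -c', hneg _ hc', a', ha', by linarith, τ', hFD, ?_⟩
  show ((d' : ℂ) * τ' + (-b' : ℤ)) / ((-c' : ℤ) * τ' + a') = _
  rw [hτ']
  have h1 : (d' : ℂ) * (((a : ℂ) * τ + b) / (c * τ + d)) + (-b' : ℤ) =
      (((d' * a - b' * c : ℤ) : ℂ) * τ + ((d' * b - b' * d : ℤ) : ℂ)) / (c * τ + d) := by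
    push_cast
    rw [eq_div_iff hden, add_mul, mul_assoc, div_mul_cancel₀ _ hden]
    ring
  have h2 : ((-c' : ℤ) : ℂ) * (((a : ℂ) * τ + b) / (c * τ + d)) + a' =
      (((-c' * a + a' * c : ℤ) : ℂ) * τ + ((-c' * b + a' * d : ℤ) : ℂ)) / (c * τ + d) := by
    push_cast
    rw [eq_div_iff hden, add_mul, mul_assoc, div_mul_cancel₀ _ hden]
    ring
  rw [h1, h2, div_div_div_cancel_right₀ hden]

end E2

theorem thick_compact (D : ModularData) {κ : ℝ} (hκ : 0 < κ) : ∃ K : Set (ℂ × ℂ), IsCompact K ∧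
    K ⊆ MM ∧ ∀ τ ∈ HH, ∀ x ∈ Icc (1 / 4 : ℝ) (3 / 4), Thick κ τ x → (D.lam τ, D.mm τ x) ∈ K := by
  have hlamc : ContinuousOn D.lam HH := D.lam_diff.continuousOn
  set F : ℂ × ℝ × ℝ → ℂ × ℂ := fun q => (q.1, (q.2.1 : ℂ) + q.2.2 * q.1) with hF
  set M : ℂ × ℂ → ℂ × ℂ := fun p => (D.lam p.1, D.mm p.1 p.2) with hM
  have hFc : Continuous F := by fun_prop
  have hFW : ∀ q ∈ E2.KS κ, F q ∈ WW := by
    rintro ⟨τ, s, t⟩ ⟨⟨h1, -⟩, h2⟩
    have him := E2.CC_im h1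
    refine ⟨him, ?_⟩
    intro k l h
    simp only [mem_iInter] at h2
    have h3 := h2 k l
    change κ * τ.im ≤ ‖((s : ℂ) + t * τ) - k - l * τ‖ ^ 2 at h3
    change (s : ℂ) + t * τ = k + l * τ at h
    rw [h] at h3
    have : (k : ℂ) + l * τ - k - l * τ = 0 := by ring
    rw [this, norm_zero] at h3
    have : 0 < κ * τ.im := mul_pos hκ him
    norm_num at h3
    linarith
  have hK0 : IsCompact (F '' E2.KS κ) := (E2.KS_compact κ).image hFc
  have hK0W : F '' E2.KS κ ⊆ WW := by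
    rintro _ ⟨q, hq, rfl⟩; exact hFW q hq
  refine ⟨M '' (F '' E2.KS κ), ?_, ?_, ?_⟩
  · apply hK0.image_of_continuousOn
    apply ContinuousOn.prodMk
    · exact hlamc.comp continuous_fst.continuousOn fun p hp => (hK0W hp).1
    · exact D.mm_cont.mono hK0W
  · rintro _ ⟨p, hp, rfl⟩
    exact D.mm_mem p.1 p.2 (hK0W hp)
  · rintro τ hτ x hx ⟨hth1, hth2⟩
    obtain ⟨a, b, c, d, hG, hCC⟩ := E2.exists_red hκ hτ hth1
    have hτ0 : 0 < τ.im := hτ
    have hden := E2.den_ne hG.1 hτ0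
    have hnpos := norm_pos_iff.2 hden
    have him := E2.mob_im hG.1 hτ0
    set τ' : ℂ := ((a : ℂ) * τ + b) / (c * τ + d) with hτ'
    have him0 : 0 < τ'.im := by rw [him]; positivity
    set z : ℂ := x / (c * τ + d) with hz
    have hxW : (τ, (x : ℂ)) ∈ WW := by
      refine ⟨hτ0, ?_⟩
      intro k l h
      change (x : ℂ) = k + l * τ at h
      have h3 := hth2 k l
      have : (x : ℂ) - k - l * τ = 0 := by rw [h]; ring
      rw [this, norm_zero] at h3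
      have : 0 < κ * τ.im := mul_pos hκ hτ0
      norm_num at h3
      linarith
    have hcz : ((c : ℂ) * τ + d) * z = x := by rw [hz]; field_simp
    have hmm1 : D.mm τ' z = D.mm τ x := by
      have := D.mm_mod a b c d hG τ z (by rw [hcz]; exact hxW)
      rw [hcz] at this
      exact this
    have hlam1 : D.lam τ' = D.lam τ := D.lam_inv a b c d hG τ hτ
    -- thickness of the new point
    have hth3 : ∀ k l : ℤ, κ * τ'.im ≤ ‖z - k - l * τ'‖ ^ 2 := by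
      intro k l
      have h1 : z - k - l * τ' = ((x : ℂ) - (k * d + l * b : ℤ) - (k * c + l * a : ℤ) * τ) /
          (c * τ + d) := by
        rw [eq_div_iff hden, hz, hτ']
        push_cast
        field_simp
        ring
      rw [h1, norm_div, div_pow, him, ← mul_div_assoc, div_le_div_iff_of_pos_right (by positivity)]
      exact hth2 _ _
    -- coordinates
    set t₀ : ℝ := z.im / τ'.im with ht₀
    set s₀ : ℝ := z.re - t₀ * τ'.re with hs₀
    have hzst : z = s₀ + t₀ * τ' := by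
      apply Complex.ext
      · simp [hs₀]
      · simp [ht₀, him0.ne']
    set k : ℤ := -⌊s₀ / 2⌋ with hk
    set l : ℤ := -⌊t₀ / 2⌋ with hl
    have hs1 : s₀ + 2 * k ∈ Icc (0 : ℝ) 2 := by
      have h1 := Int.floor_le (s₀ / 2)
      have h2 := Int.lt_floor_add_one (s₀ / 2)
      rw [hk]; push_cast
      constructor <;> linarith
    have ht1 : t₀ + 2 * l ∈ Icc (0 : ℝ) 2 := by
      have h1 := Int.floor_le (t₀ / 2)
      have h2 := Int.lt_floor_add_one (t₀ / 2)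
      rw [hl]; push_cast
      constructor <;> linarith
    have hzW : (τ', z) ∈ WW := by
      refine ⟨him0, ?_⟩
      intro k l h
      change z = k + l * τ' at h
      have h3 := hth3 k l
      have : z - k - l * τ' = 0 := by rw [h]; ring
      rw [this, norm_zero] at h3
      have : 0 < κ * τ'.im := mul_pos hκ him0
      norm_num at h3
      linarith
    have hmm2 : D.mm τ' (z + 2 * (k + l * τ')) = D.mm τ' z := D.mm_add τ' z hzW k l
    refine ⟨(τ', z + 2 * (k + l * τ')), ⟨(τ', s₀ + 2 * k, t₀ + 2 * l), ⟨⟨hCC, hs1, ht1⟩, ?_⟩, ?_⟩, ?_⟩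
    · simp only [mem_iInter]
      intro k' l'
      change κ * τ'.im ≤ ‖(((s₀ + 2 * k : ℝ) : ℂ) + ((t₀ + 2 * l : ℝ) : ℂ) * τ') - k' - l' * τ'‖ ^ 2
      have h1 := hth3 (k' - 2 * k) (l' - 2 * l)
      have h2 : (((s₀ + 2 * k : ℝ) : ℂ) + ((t₀ + 2 * l : ℝ) : ℂ) * τ') - k' - l' * τ' =
          z - ((k' - 2 * k : ℤ) : ℂ) - ((l' - 2 * l : ℤ) : ℂ) * τ' := by
        rw [hzst]; push_cast; ring
      rw [h2]; exact h1
    · show (τ', ((s₀ + 2 * k : ℝ) : ℂ) + ((t₀ + 2 * l : ℝ) : ℂ) * τ') = (τ', z + 2 * (k + l * τ'))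
      rw [hzst]; push_cast
      congr 1; ring
    · show (D.lam τ', D.mm τ' (z + 2 * (k + l * τ'))) = (D.lam τ, D.mm τ x)
      rw [hmm2, hmm1, hlam1]

end Pool.Agent.T05
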