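import Pool.Agent.Lib.MP_0162a5_an.E3f

/-! MODULE E3: the oscillation estimate (abstract; one complex variable and Lebesgue integrals). -/

set_option autoImplicit false

open Complex Metric Set Filter Topology

namespace Pool.Agent.T05

namespace Osc

open MeasureTheory

variable {G : ℝ → ℂ → ℂ}

theorem exists_good_point
    (hc : ContinuousOn (fun q : ℝ × ℂ => G q.1 q.2) (Ioo 0 1 ×ˢ ball 0 1))
    (hd : ∀ x ∈ Ioo (0 : ℝ) 1, DifferentiableOn ℂ (G x) (ball 0 1))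
    (hne : ∃ x ∈ Icc (1 / 4 : ℝ) (3 / 4), ∃ w ∈ ball (0 : ℂ) 1, G x w ≠ 0) :
    ∃ x ∈ Ioo (1 / 4 : ℝ) (3 / 4), ∃ w ∈ ball (0 : ℂ) 1, w ≠ 0 ∧ G x w ≠ 0 := by
  obtain ⟨x1, hx1, w1, hw1, h1⟩ := hne
  have hw2 : ∃ w ∈ ball (0 : ℂ) 1, w ≠ 0 ∧ G x1 w ≠ 0 := by
    by_cases h0 : w1 = 0
    · subst h0
      have hcont : ContinuousAt (G x1) 0 :=
        ((hd x1 (Icc_sub2 hx1)).differentiableAt (ball_mem_nhds 0 one_pos)).continuousAt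
      have e1 : ∀ᶠ w in 𝓝[≠] (0 : ℂ), G x1 w ≠ 0 :=
        nhdsWithin_le_nhds (hcont.eventually_ne h1)
      have e2 : ∀ᶠ w in 𝓝[≠] (0 : ℂ), w ∈ ball (0 : ℂ) 1 :=
        nhdsWithin_le_nhds (ball_mem_nhds 0 one_pos)
      have e3 : ∀ᶠ w in 𝓝[≠] (0 : ℂ), w ≠ 0 := self_mem_nhdsWithin
      obtain ⟨w, hw, hw', hw''⟩ := (e1.and (e2.and e3)).exists
      exact ⟨w, hw', hw'', hw⟩
    · exact ⟨w1, hw1, h0, h1⟩
  obtain ⟨w, hw, hw0, hG⟩ := hw2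
  have hcx : ContinuousAt (fun x => G x w) x1 :=
    (alpha_cont hc hw).continuousAt (isOpen_Ioo.mem_nhds (Icc_sub2 hx1))
  have hcl : x1 ∈ closure (Ioo (1 / 4 : ℝ) (3 / 4)) := by
    rw [closure_Ioo (by norm_num)]
    exact hx1
  obtain ⟨x, hx⟩ := (mem_closure_iff_nhds.1 hcl) _ (hcx.eventually_ne hG)
  exact ⟨x, hx.2, w, hw, hw0, hx.1⟩

/-- the uniform lower bound for `G * BB` -/
theorem exists_interval
    (hc : ContinuousOn (fun q : ℝ × ℂ => G q.1 q.2) (Ioo 0 1 ×ˢ ball 0 1))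
    (hd : ∀ x ∈ Ioo (0 : ℝ) 1, DifferentiableOn ℂ (G x) (ball 0 1))
    (hp : ∀ x ∈ Ioo (0 : ℝ) 1, ∀ w ∈ ball (0 : ℂ) 1, w ≠ 0 → 0 ≤ (herg (G x) w).re)
    (hne : ∃ x ∈ Icc (1 / 4 : ℝ) (3 / 4), ∃ w ∈ ball (0 : ℂ) 1, G x w ≠ 0) :
    ∃ (w : ℂ) (c1 x0 ε : ℝ), ‖w‖ < 1 ∧ 0 < c1 ∧ 0 < ε ∧ ∀ x ∈ ball x0 ε,
      x ∈ Icc (1 / 4 : ℝ) (3 / 4) ∧ c1 ≤ ‖G x w * BB (G x) w‖ := by
  obtain ⟨x0, hx0, w, hw, hw0, hG⟩ := exists_good_point hc hd hne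
  have hx01 : x0 ∈ Ioo (0 : ℝ) 1 := Icc_sub2 (Ioo_subset_Icc_self hx0)
  have hB0 : BB (G x0) w ≠ 0 := by
    unfold BB
    exact inv_ne_zero (ne_zero' (hd _ hx01) (hp _ hx01) hw)
  have hc1 : ContinuousAt (fun x => G x w) x0 :=
    (alpha_cont hc hw).continuousAt (isOpen_Ioo.mem_nhds hx01)
  have hc2 : ContinuousAt (fun x => BB (G x) w) x0 := by
    have h1 : ContinuousOn (fun x : ℝ => (x, w)) (Ioo 0 1) := by fun_prop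
    have h2 := (BB_cont hc hd hp).comp h1 (fun x hx => ⟨hx, hw, hw0⟩)
    exact h2.continuousAt (isOpen_Ioo.mem_nhds hx01)
  have hY : ContinuousAt (fun x => ‖G x w * BB (G x) w‖) x0 := (hc1.mul hc2).norm
  have hpos : 0 < ‖G x0 w * BB (G x0) w‖ := norm_pos_iff.2 (mul_ne_zero hG hB0)
  have h3 : ∀ᶠ x in 𝓝 x0, ‖G x0 w * BB (G x0) w‖ / 2 < ‖G x w * BB (G x) w‖ :=
    hY.eventually (lt_mem_nhds (by simpa using half_lt_self hpos))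
  have h4 : ∀ᶠ x in 𝓝 x0, x ∈ Ioo (1 / 4 : ℝ) (3 / 4) := isOpen_Ioo.mem_nhds hx0
  obtain ⟨ε, hε, h5⟩ := Metric.eventually_nhds_iff_ball.1 (h3.and h4)
  refine ⟨w, ‖G x0 w * BB (G x0) w‖ / 2, x0, ε, ?_, by linarith, hε, fun x hx => ?_⟩
  · rwa [mem_ball_zero_iff] at hw
  · exact ⟨Ioo_subset_Icc_self (h5 x hx).2, (h5 x hx).1.le⟩

/-- a bound for `PP` at the origin -/
theorem exists_bound_PP
    (hc : ContinuousOn (fun q : ℝ × ℂ => G q.1 q.2) (Ioo 0 1 ×ˢ ball 0 1))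
    (hd : ∀ x ∈ Ioo (0 : ℝ) 1, DifferentiableOn ℂ (G x) (ball 0 1)) :
    ∃ L : ℝ, 1 ≤ L ∧ ∀ x ∈ Icc (1 / 4 : ℝ) (3 / 4), ‖1 + PP (G x) 0‖ ≤ L := by
  have hsub : sphere (0 : ℂ) (1 / 2) ⊆ ball 0 1 :=
    sphere_subset_closedBall.trans (closedBall_subset' (by norm_num))
  have hcs : ContinuousOn (fun q : ℝ × ℂ => gg (G q.1) q.2)
      (Icc (1 / 4 : ℝ) (3 / 4) ×ˢ sphere (0 : ℂ) (1 / 2)) := by
    have h0 : ContinuousOn (fun q : ℝ × ℂ => G q.1 0)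
        (Icc (1 / 4 : ℝ) (3 / 4) ×ˢ sphere (0 : ℂ) (1 / 2)) := by
      have : ContinuousOn (fun q : ℝ × ℂ => (q.1, (0 : ℂ)))
          (Icc (1 / 4 : ℝ) (3 / 4) ×ˢ sphere (0 : ℂ) (1 / 2)) := by fun_prop
      exact hc.comp this (fun q hq => ⟨Icc_sub2 hq.1, mem_ball_self one_pos⟩)
    have h1 : ContinuousOn (fun q : ℝ × ℂ => G q.1 q.2)
        (Icc (1 / 4 : ℝ) (3 / 4) ×ˢ sphere (0 : ℂ) (1 / 2)) :=
      hc.mono (prod_mono Icc_sub2 hsub)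
    have h3 : ContinuousOn (fun q : ℝ × ℂ => (starRingEnd ℂ) (G q.1 0))
        (Icc (1 / 4 : ℝ) (3 / 4) ×ˢ sphere (0 : ℂ) (1 / 2)) :=
      Complex.continuous_conj.comp_continuousOn h0
    unfold gg
    exact (h1.sub h0).add (h3.mul (by fun_prop))
  obtain ⟨C, hC⟩ := (isCompact_Icc.prod (isCompact_sphere (0 : ℂ) (1 / 2))).exists_bound_of_continuousOn hcs
  refine ⟨1 + |C| / (1 / 2), by
    have : 0 ≤ |C| / (1 / 2) := by positivity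
    linarith, fun x hx => ?_⟩
  have h1 : ‖deriv (gg (G x)) 0‖ ≤ |C| / (1 / 2) := by
    refine Complex.norm_deriv_le_of_forall_mem_sphere_norm_le (by norm_num) ?_ ?_
    · exact ((gg_diff (hd x (Icc_sub2 hx))).mono (closedBall_subset' (by norm_num))).diffContOnCl_ball
        (U := closedBall 0 (1 / 2)) le_rfl
    · intro z hz
      exact (hC (x, z) ⟨hx, hz⟩).trans (le_abs_self C)
  refine (norm_add_le _ _).trans ?_
  rw [norm_one]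
  unfold PP
  rw [dslope_same, norm_neg]
  linarith

/-- The core selection lemma. -/
theorem selection
    (hc : ContinuousOn (fun q : ℝ × ℂ => G q.1 q.2) (Ioo 0 1 ×ˢ ball 0 1))
    (hd : ∀ x ∈ Ioo (0 : ℝ) 1, DifferentiableOn ℂ (G x) (ball 0 1))
    (hp : ∀ x ∈ Ioo (0 : ℝ) 1, ∀ w ∈ ball (0 : ℂ) 1, w ≠ 0 → 0 ≤ (herg (G x) w).re)
    (hne : ∃ x ∈ Icc (1 / 4 : ℝ) (3 / 4), ∃ w ∈ ball (0 : ℂ) 1, G x w ≠ 0) :
    ∃ m₀ : ℝ, 0 < m₀ ∧ ∃ R R1 : ℝ, 0 < R ∧ ∀ (Bad : ℝ → Set (ℝ × ℝ)) (r₀ : ℝ), r₀ < 1 →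
      (∀ r : ℝ, r₀ ≤ r → r < 1 → ∀ x ∈ Icc (1 / 4 : ℝ) (3 / 4),
        volume {θ : ℝ | θ ∈ Icc 0 (2 * Real.pi) ∧ (θ, x) ∈ Bad r} ≤ ENNReal.ofReal m₀) →
      ∀ (ζ : ℕ → ℂ) (ξ : ℕ → ℝ), (∀ k, ζ k ∈ ball (0 : ℂ) 1) → ∀ n : ℕ,
      ∃ (r θ x : ℝ), (r₀ ≤ r ∧ 0 < r ∧ r < 1) ∧ 1 - 1 / ((n : ℝ) + 1) < r ∧
        θ ∈ Icc 0 (2 * Real.pi) ∧ x ∈ Icc (1 / 4 : ℝ) (3 / 4) ∧ (θ, x) ∉ Bad r ∧
        (1 / R ≤ ‖G x (r * exp (θ * I))‖ ∧ ‖G x (r * exp (θ * I))‖ ≤ R) ∧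
        ‖1 + PP (G x) (r * exp (θ * I))‖ ≤ R1 ∧
        ∀ k < n, ‖BB (G (x + ξ k * Real.sqrt (1 - r))) (exp (θ * I) * mob r (ζ k)) -
          BB (G x) (r * exp (θ * I))‖ ≤ 1 / ((n : ℝ) + 1) := by
  obtain ⟨w, c1, x0, ε, hw, hc1, hε, hJ⟩ := exists_interval hc hd hp hne
  obtain ⟨L, hL1, hL⟩ := exists_bound_PP hc hd
  obtain ⟨A, hA⟩ := (isCompact_Icc (a := (1 / 4 : ℝ)) (b := 3 / 4)).exists_bound_of_continuousOn
    ((alpha_cont hc (mem_ball_self one_pos)).mono Icc_sub2)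
  have hA0 : 0 ≤ A := (norm_nonneg _).trans (hA (1 / 4) ⟨le_rfl, by norm_num⟩)
  set s0 : ℝ := (1 - ‖w‖) / 2 with hs0
  have hs0' : 0 < s0 := by rw [hs0]; linarith
  have hM : 0 < 2 * A + 2 := by linarith
  have hpi := Real.pi_pos
  set m₀ : ℝ := Real.pi * c1 * s0 / (2 * A + 2) / 4 with hm₀
  have hm0 : 0 < m₀ := by positivity
  set R1 : ℝ := Real.exp (2 * Real.pi * Real.log L / m₀ + 1) with hR1
  have hR11 : 1 < R1 := by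
    rw [hR1, Real.one_lt_exp_iff]
    have : 0 ≤ Real.log L := Real.log_nonneg hL1
    positivity
  have hlogR1 : 2 * Real.pi * Real.log L ≤ m₀ * Real.log R1 := by
    rw [hR1, Real.log_exp, mul_add, mul_div_cancel₀ _ hm0.ne']
    linarith
  have hRpos : 0 < 2 / (c1 * s0) + 2 * A + R1 + 1 := by
    have : 0 < 2 / (c1 * s0) := by positivity
    linarith
  refine ⟨m₀, hm0, 2 / (c1 * s0) + 2 * A + R1 + 1, R1, hRpos, ?_⟩
  intro Bad r₀ hr₀ hBad ζ ξ hζ n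
  have hζ' : ∀ k, ‖ζ k‖ < 1 := fun k => by
    have := hζ k
    rwa [mem_ball_zero_iff] at this
  have hn1 : (0 : ℝ) < 1 / ((n : ℝ) + 1) := by positivity
  set η : ℝ := 1 / ((n : ℝ) + 1) with hη
  -- the threshold
  have hvolJ : volume (ball x0 ε) = ENNReal.ofReal (2 * ε) := Real.volume_ball x0 ε
  have hJsub : ball x0 ε ⊆ Icc (1 / 4 : ℝ) (3 / 4) := fun x hx => (hJ x hx).1
  set τ : ENNReal := ENNReal.ofReal (η ^ 2 * m₀ / (2 * Real.pi)) with hτ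
  have hτ0 : 0 < τ := by
    rw [hτ, ENNReal.ofReal_pos]; positivity
  have hlim : Tendsto (fun r : ℝ => ∑ k ∈ Finset.range n,
      ∫⁻ x in Icc (1 / 4 : ℝ) (3 / 4), ∑' j, TT' G (ζ k) (ξ k) r j x) (𝓝[<] 1) (𝓝 0) := by
    have := tendsto_finsetSum (Finset.range n) (fun k _ => osc_tendsto (ζ k) (hζ' k) (ξ k) hc hd hp)
    simpa using this
  have hpos2 : 0 < τ * volume (ball x0 ε) := by
    rw [hvolJ]
    exact ENNReal.mul_pos hτ0.ne' (by rw [Ne, ENNReal.ofReal_eq_zero, not_le]; positivity)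
  have hev1 := hlim.eventually (gt_mem_nhds hpos2)
  have hev2 : ∀ᶠ r : ℝ in 𝓝[<] 1, ∀ k ∈ Finset.range n, |ξ k * Real.sqrt (1 - r)| ≤ 1 / 8 := by
    rw [Filter.eventually_all_finset]
    intro k _
    exact shift_eventually (ξ k)
  have hev3 : ∀ᶠ r : ℝ in 𝓝[<] 1, r₀ < r := nhdsWithin_le_nhds (lt_mem_nhds hr₀)
  have hev4 : ∀ᶠ r : ℝ in 𝓝[<] 1, 1 - η < r := nhdsWithin_le_nhds (lt_mem_nhds (by linarith))
  have hev5 : ∀ᶠ r : ℝ in 𝓝[<] 1, (1 + ‖w‖) / 2 < r :=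
    nhdsWithin_le_nhds (lt_mem_nhds (by linarith))
  obtain ⟨r, hr1, hr2, hr3, hr4, hr5, hr6⟩ :=
    (hev1.and (hev2.and (hev3.and (hev4.and (hev5.and Ioo_eventually))))).exists
  -- choose x
  have hx : ∃ x ∈ ball x0 ε, ∑ k ∈ Finset.range n, ∑' j, TT' G (ζ k) (ξ k) r j x < τ := by
    by_contra hcon
    push Not at hcon
    have h1 : τ * volume (ball x0 ε) ≤ ∫⁻ x in ball x0 ε,
        ∑ k ∈ Finset.range n, ∑' j, TT' G (ζ k) (ξ k) r j x := by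
      rw [← setLIntegral_const]
      refine lintegral_mono_ae ?_
      exact (ae_restrict_iff' measurableSet_ball).2 (Filter.Eventually.of_forall hcon)
    have h2 : ∫⁻ x in ball x0 ε, ∑ k ∈ Finset.range n, ∑' j, TT' G (ζ k) (ξ k) r j x ≤
        ∫⁻ x in Icc (1 / 4 : ℝ) (3 / 4),
          ∑ k ∈ Finset.range n, ∑' j, TT' G (ζ k) (ξ k) r j x :=
      lintegral_mono_set hJsub
    have h3 : ∫⁻ x in Icc (1 / 4 : ℝ) (3 / 4),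
          ∑ k ∈ Finset.range n, ∑' j, TT' G (ζ k) (ξ k) r j x =
        ∑ k ∈ Finset.range n, ∫⁻ x in Icc (1 / 4 : ℝ) (3 / 4), ∑' j, TT' G (ζ k) (ξ k) r j x := by
      refine lintegral_finsetSum' _ (fun k hk => ?_)
      refine AEMeasurable.tsum (fun j => ?_)
      exact (TT_cont hc hd hp (ζ k) (hr2 k hk) j).aemeasurable measurableSet_Icc
    rw [h3] at h2
    exact absurd (h1.trans h2) (not_le.2 hr1)
  obtain ⟨x, hxJ, hxs⟩ := hx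
  obtain ⟨hxI, hxY⟩ := hJ x hxJ
  have hx1 : x ∈ Ioo (0 : ℝ) 1 := Icc_sub2 hxI
  -- the sets
  have hS := lower (hd x hx1) (hp x hx1) (hA x hxI) hw hc1 hxY hr5.le hr6.2
  have hU := upper (hd x hx1) (hp x hx1) (δ := m₀) hr6.1 hr6.2 hR11 (by
    refine le_trans ?_ hlogR1
    have h1 : Real.log ‖1 + PP (G x) 0‖ ≤ Real.log L := by
      refine Real.log_le_log ?_ (hL x hxI)
      exact norm_pos_iff.2 (ne_zero' (hd x hx1) (hp x hx1) (mem_ball_self one_pos))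
    gcongr)
  have hBd := hBad r hr3.le hr6.2 x hxI
  set D : ℕ → Set ℝ := fun k => {θ : ℝ | θ ∈ Icc 0 (2 * Real.pi) ∧
      η < ‖BB (G (x + ξ k * Real.sqrt (1 - r))) (exp (θ * I) * mob r (ζ k)) -
        BB (G x) (r * exp (θ * I))‖} with hD
  have hDk : ∀ k ∈ Finset.range n, ENNReal.ofReal (η ^ 2) * volume (D k) ≤
      ENNReal.ofReal (2 * Real.pi) * ∑' j, TT' G (ζ k) (ξ k) r j x := fun k hk =>
    diff_meas hd hp (hζ' k) hr6 (hr2 k hk) hxI hn1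
  have hDs : volume (⋃ k ∈ Finset.range n, D k) ≤ ENNReal.ofReal m₀ := by
    refine (measure_biUnion_finset_le _ _).trans ?_
    have h1 : ENNReal.ofReal (η ^ 2) * ∑ k ∈ Finset.range n, volume (D k) ≤
        ENNReal.ofReal (η ^ 2) * ENNReal.ofReal m₀ := by
      rw [Finset.mul_sum]
      refine (Finset.sum_le_sum hDk).trans ?_
      rw [← Finset.mul_sum]
      refine (mul_le_mul_right hxs.le _).trans (le_of_eq ?_)
      rw [hτ, ← ENNReal.ofReal_mul (by positivity), ← ENNReal.ofReal_mul (by positivity)]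
      congr 1
      field_simp
    have h2 : ENNReal.ofReal (η ^ 2) ≠ 0 := by
      rw [Ne, ENNReal.ofReal_eq_zero, not_le]; positivity
    exact (ENNReal.mul_le_mul_iff_right h2 (by simp)).1 h1
  -- choose θ
  have hθ : ∃ θ ∈ {θ : ℝ | θ ∈ Icc 0 (2 * Real.pi) ∧
        c1 * ((1 - ‖w‖) / 2) / 2 ≤ ‖G x (r * exp (θ * I))‖},
      θ ∉ {θ : ℝ | θ ∈ Icc 0 (2 * Real.pi) ∧ R1 < ‖1 + PP (G x) (r * exp (θ * I))‖} ∧
      θ ∉ {θ : ℝ | θ ∈ Icc 0 (2 * Real.pi) ∧ (θ, x) ∈ Bad r} ∧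
      θ ∉ (⋃ k ∈ Finset.range n, D k) := by
    by_contra hcon
    push Not at hcon
    have h1 : {θ : ℝ | θ ∈ Icc 0 (2 * Real.pi) ∧
        c1 * ((1 - ‖w‖) / 2) / 2 ≤ ‖G x (r * exp (θ * I))‖} ⊆
        ({θ : ℝ | θ ∈ Icc 0 (2 * Real.pi) ∧ R1 < ‖1 + PP (G x) (r * exp (θ * I))‖} ∪
          {θ : ℝ | θ ∈ Icc 0 (2 * Real.pi) ∧ (θ, x) ∈ Bad r}) ∪ (⋃ k ∈ Finset.range n, D k) := by
      intro θ hθ
      by_cases hA1 : θ ∈ {θ : ℝ | θ ∈ Icc 0 (2 * Real.pi) ∧ R1 < ‖1 + PP (G x) (r * exp (θ * I))‖}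
      · exact Or.inl (Or.inl hA1)
      · by_cases hA2 : θ ∈ {θ : ℝ | θ ∈ Icc 0 (2 * Real.pi) ∧ (θ, x) ∈ Bad r}
        · exact Or.inl (Or.inr hA2)
        · exact Or.inr (hcon θ hθ hA1 hA2)
    have h2 := hS.trans ((measure_mono h1).trans ((measure_union_le _ _).trans
      (add_le_add ((measure_union_le _ _).trans (add_le_add hU hBd)) hDs)))
    have h3 : Real.pi * c1 * ((1 - ‖w‖) / 2) / (2 * A + 2) = 4 * m₀ := by
      rw [hm₀]; ring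
    rw [h3, ← ENNReal.ofReal_add hm0.le hm0.le, ← ENNReal.ofReal_add (by positivity) hm0.le] at h2
    rw [ENNReal.ofReal_le_ofReal_iff (by positivity)] at h2
    linarith
  obtain ⟨θ, hθS, hθU, hθB, hθD⟩ := hθ
  have hPle : ‖1 + PP (G x) (r * exp (θ * I))‖ ≤ R1 := by
    by_contra hcon
    exact hθU ⟨hθS.1, not_le.1 hcon⟩
  refine ⟨r, θ, x, ⟨hr3.le, hr6.1, hr6.2⟩, hr4, hθS.1, hxI, fun hb => hθB ⟨hθS.1, hb⟩,
    ⟨?_, ?_⟩, hPle, ?_⟩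
  · have h1 : 1 / (2 / (c1 * s0) + 2 * A + R1 + 1) ≤ 1 / (2 / (c1 * s0)) := by
      have : 0 < 2 / (c1 * s0) := by positivity
      refine one_div_le_one_div_of_le this ?_
      linarith
    refine h1.trans (le_trans (le_of_eq ?_) hθS.2)
    rw [one_div, inv_div]
  · have hmb := exp_mem_ball hr6.1.le hr6.2 θ
    have hwn : ‖(r : ℂ) * exp (θ * I)‖ ≤ 1 := by
      rw [mem_ball_zero_iff] at hmb; exact hmb.le
    rw [G_eq (G x) (r * exp (θ * I))]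
    have e1 : ‖(starRingEnd ℂ) (G x 0) * ((r : ℂ) * exp (θ * I)) ^ 2‖ ≤ A := by
      rw [norm_mul, RCLike.norm_conj, norm_pow]
      have h1 := hA x hxI
      have h2 : ‖(r : ℂ) * exp (θ * I)‖ ^ 2 ≤ 1 := pow_le_one₀ (norm_nonneg _) hwn
      calc ‖G x 0‖ * ‖(r : ℂ) * exp (θ * I)‖ ^ 2 ≤ A * 1 := by gcongr
        _ = A := mul_one _
    have e2 : ‖(r : ℂ) * exp (θ * I) * ((BB (G x) (r * exp (θ * I)))⁻¹ - 1)‖ ≤ R1 + 1 := by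
      rw [norm_mul]
      have h1 : ‖(BB (G x) (r * exp (θ * I)))⁻¹ - 1‖ ≤ R1 + 1 := by
        refine (norm_sub_le _ _).trans ?_
        rw [norm_one]
        unfold BB
        rw [inv_inv]
        linarith
      calc ‖(r : ℂ) * exp (θ * I)‖ * ‖(BB (G x) (r * exp (θ * I)))⁻¹ - 1‖
          ≤ 1 * (R1 + 1) := by gcongr
        _ = R1 + 1 := one_mul _
    refine (norm_sub_le _ _).trans ?_
    refine (add_le_add ((norm_sub_le _ _).trans (add_le_add (hA x hxI) e1)) e2).trans ?_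
    have : 0 < 2 / (c1 * s0) := by positivity
    linarith
  · intro k hk
    by_contra hcon
    apply hθD
    rw [mem_iUnion₂]
    exact ⟨k, Finset.mem_range.2 hk, hθS.1, not_le.1 hcon⟩

end Osc

open Osc in
theorem oscillation (G : ℝ → ℂ → ℂ)
    (hc : ContinuousOn (fun q : ℝ × ℂ => G q.1 q.2) (Ioo 0 1 ×ˢ ball 0 1))
    (hd : ∀ x ∈ Ioo (0 : ℝ) 1, DifferentiableOn ℂ (G x) (ball 0 1))
    (hp : ∀ x ∈ Ioo (0 : ℝ) 1, ∀ w ∈ ball (0 : ℂ) 1, w ≠ 0 → 0 ≤ (herg (G x) w).re)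
    (hne : ∃ x ∈ Icc (1 / 4 : ℝ) (3 / 4), ∃ w ∈ ball (0 : ℂ) 1, G x w ≠ 0) :
    ∃ m₀ : ℝ, 0 < m₀ ∧ ∃ R : ℝ, 0 < R ∧ ∀ (Bad : ℝ → Set (ℝ × ℝ)) (r₀ : ℝ), r₀ < 1 →
      (∀ r : ℝ, r₀ ≤ r → r < 1 → ∀ x ∈ Icc (1 / 4 : ℝ) (3 / 4),
        MeasureTheory.volume {θ : ℝ | θ ∈ Icc 0 (2 * Real.pi) ∧ (θ, x) ∈ Bad r} ≤
          ENNReal.ofReal m₀) →
      ∀ (ζ : ℕ → ℂ) (ξ : ℕ → ℝ), (∀ k, ζ k ∈ ball (0 : ℂ) 1) →
      ∃ (r : ℕ → ℝ) (θ x : ℕ → ℝ), (∀ n, r₀ ≤ r n ∧ 0 < r n ∧ r n < 1) ∧ Tendsto r atTop (𝓝 1) ∧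
        (∀ n, θ n ∈ Icc 0 (2 * Real.pi)) ∧ (∀ n, x n ∈ Icc (1 / 4 : ℝ) (3 / 4)) ∧
        (∀ n, (θ n, x n) ∉ Bad (r n)) ∧
        (∀ n, 1 / R ≤ ‖G (x n) (r n * exp (θ n * I))‖ ∧ ‖G (x n) (r n * exp (θ n * I))‖ ≤ R) ∧
        ∀ k, Tendsto (fun n => G (x n + ξ k * Real.sqrt (1 - r n)) (exp (θ n * I) * mob (r n) (ζ k))
          - G (x n) (r n * exp (θ n * I))) atTop (𝓝 0) := by
  obtain ⟨m₀, hm₀, R, R1, hR, hsel⟩ := selection hc hd hp hne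
  refine ⟨m₀, hm₀, R, hR, ?_⟩
  intro Bad r₀ hr₀ hBad ζ ξ hζ
  choose r θ x h1 h2 h3 h4 h5 h6 h7 h8 using hsel Bad r₀ hr₀ hBad ζ ξ hζ
  have ht : Tendsto (fun n : ℕ => 1 / ((n : ℝ) + 1)) atTop (𝓝 0) :=
    tendsto_one_div_add_atTop_nhds_zero_nat
  have hrt : Tendsto r atTop (𝓝 1) := by
    refine tendsto_of_tendsto_of_tendsto_of_le_of_le (g := fun n : ℕ => 1 - 1 / ((n : ℝ) + 1))
      (h := fun _ => 1) ?_ tendsto_const_nhds (fun n => (h2 n).le) (fun n => (h1 n).2.2.le)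
    have := ht.const_sub 1
    simpa using this
  refine ⟨r, θ, x, h1, hrt, h3, h4, h5, h6, fun k => ?_⟩
  refine final_conv hc hd hp (by
    have := hζ k
    rwa [mem_ball_zero_iff] at this) (fun n => (h1 n).2) hrt h4 h7 ?_
  refine squeeze_zero_norm' (a := fun n : ℕ => 1 / ((n : ℝ) + 1)) ?_ ht
  filter_upwards [eventually_gt_atTop k] with n hn
  exact h8 n k hn

end Pool.Agent.T05
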