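import Pool.Agent.Lib.MP_0162a5_an.Defs

/-! Module E3, part a: one Herglotz function. -/

set_option autoImplicit false

open Complex Metric Set Filter Topology MeasureTheory

namespace Pool.Agent.T05.Osc

/-- auxiliary function vanishing at `0` -/
noncomputable def gg (G : ℂ → ℂ) (w : ℂ) : ℂ := G w - G 0 + (starRingEnd ℂ) (G 0) * w ^ 2

/-- the Herglotz function (with the singularity removed) -/
noncomputable def PP (G : ℂ → ℂ) (w : ℂ) : ℂ := - dslope (gg G) 0 w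

noncomputable def BB (G : ℂ → ℂ) (w : ℂ) : ℂ := (1 + PP G w)⁻¹

noncomputable def bb (G : ℂ → ℂ) (n : ℕ) : ℂ := (n.factorial : ℂ)⁻¹ * iteratedDeriv n (BB G) 0

variable {G : ℂ → ℂ}

theorem gg_zero (G : ℂ → ℂ) : gg G 0 = 0 := by simp [gg]

theorem PP_of_ne (G : ℂ → ℂ) {w : ℂ} (hw : w ≠ 0) : PP G w = herg G w := by
  unfold PP herg
  rw [dslope_of_ne _ hw, slope_def_field, gg_zero]
  unfold gg
  field_simp
  ring

theorem mul_PP (G : ℂ → ℂ) (w : ℂ) : w * PP G w = -(gg G w) := by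
  by_cases hw : w = 0
  · subst hw; simp [gg_zero]
  · rw [PP_of_ne G hw]
    unfold herg gg
    field_simp

theorem G_eq (G : ℂ → ℂ) (w : ℂ) :
    G w = G 0 - (starRingEnd ℂ) (G 0) * w ^ 2 - w * ((BB G w)⁻¹ - 1) := by
  have h := mul_PP G w
  unfold gg at h
  unfold BB
  rw [inv_inv]
  linear_combination h

theorem gg_diff (hd : DifferentiableOn ℂ G (ball 0 1)) :
    DifferentiableOn ℂ (gg G) (ball 0 1) := by
  unfold gg
  fun_prop

theorem PP_diff (hd : DifferentiableOn ℂ G (ball 0 1)) :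
    DifferentiableOn ℂ (PP G) (ball 0 1) := by
  unfold PP
  exact ((Complex.differentiableOn_dslope (ball_mem_nhds 0 one_pos)).2 (gg_diff hd)).neg

theorem PP_re (hd : DifferentiableOn ℂ G (ball 0 1))
    (hp : ∀ w ∈ ball (0 : ℂ) 1, w ≠ 0 → 0 ≤ (herg G w).re) {w : ℂ} (hw : w ∈ ball (0 : ℂ) 1) :
    0 ≤ (PP G w).re := by
  by_cases h0 : w = 0
  · subst h0
    have hc : ContinuousAt (PP G) 0 :=
      ((PP_diff hd).differentiableAt (ball_mem_nhds 0 one_pos)).continuousAt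
    have h1 : Tendsto (fun w => (PP G w).re) (𝓝[≠] 0) (𝓝 (PP G 0).re) :=
      (Complex.continuous_re.continuousAt.comp hc).tendsto.mono_left nhdsWithin_le_nhds
    refine ge_of_tendsto h1 ?_
    have h2 : ∀ᶠ w : ℂ in 𝓝[≠] 0, w ∈ ball (0 : ℂ) 1 :=
      nhdsWithin_le_nhds (ball_mem_nhds 0 one_pos)
    filter_upwards [h2, self_mem_nhdsWithin] with w hw hw0
    rw [PP_of_ne G hw0]
    exact hp w hw hw0
  · rw [PP_of_ne G h0]
    exact hp w hw h0

theorem one_le_norm (hd : DifferentiableOn ℂ G (ball 0 1))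
    (hp : ∀ w ∈ ball (0 : ℂ) 1, w ≠ 0 → 0 ≤ (herg G w).re) {w : ℂ} (hw : w ∈ ball (0 : ℂ) 1) :
    1 ≤ ‖1 + PP G w‖ := by
  have h := PP_re hd hp hw
  calc (1 : ℝ) ≤ (1 + PP G w).re := by simp [h]
    _ ≤ |(1 + PP G w).re| := le_abs_self _
    _ ≤ ‖1 + PP G w‖ := Complex.abs_re_le_norm _

theorem ne_zero' (hd : DifferentiableOn ℂ G (ball 0 1))
    (hp : ∀ w ∈ ball (0 : ℂ) 1, w ≠ 0 → 0 ≤ (herg G w).re) {w : ℂ} (hw : w ∈ ball (0 : ℂ) 1) :
    1 + PP G w ≠ 0 := by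
  intro h
  have := one_le_norm hd hp hw
  rw [h, norm_zero] at this
  linarith

theorem BB_diff (hd : DifferentiableOn ℂ G (ball 0 1))
    (hp : ∀ w ∈ ball (0 : ℂ) 1, w ≠ 0 → 0 ≤ (herg G w).re) :
    DifferentiableOn ℂ (BB G) (ball 0 1) := by
  unfold BB
  exact ((PP_diff hd).const_add 1).inv (fun w hw => ne_zero' hd hp hw)

theorem BB_norm_le (hd : DifferentiableOn ℂ G (ball 0 1))
    (hp : ∀ w ∈ ball (0 : ℂ) 1, w ≠ 0 → 0 ≤ (herg G w).re) {w : ℂ} (hw : w ∈ ball (0 : ℂ) 1) :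
    ‖BB G w‖ ≤ 1 := by
  unfold BB
  rw [norm_inv]
  exact inv_le_one_of_one_le₀ (one_le_norm hd hp hw)

theorem hasSum_bb (hd : DifferentiableOn ℂ G (ball 0 1))
    (hp : ∀ w ∈ ball (0 : ℂ) 1, w ≠ 0 → 0 ≤ (herg G w).re) {w : ℂ} (hw : w ∈ ball (0 : ℂ) 1) :
    HasSum (fun n => bb G n * w ^ n) (BB G w) := by
  have h := Complex.hasSum_taylorSeries_on_ball (BB_diff hd hp) hw
  refine h.congr_fun ?_
  intro n
  simp only [bb, smul_eq_mul, sub_zero]
  ring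

/-- a point on the circle -/
theorem exp_mem_ball {r : ℝ} (h0 : 0 ≤ r) (h1 : r < 1) (θ : ℝ) :
    (r : ℂ) * exp (θ * I) ∈ ball (0 : ℂ) 1 := by
  rw [mem_ball_zero_iff, norm_mul, Complex.norm_exp_ofReal_mul_I, mul_one, Complex.norm_real,
    Real.norm_of_nonneg h0]
  exact h1

end Pool.Agent.T05.Osc
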