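import Pool.Agent.Lib.MP_0162a5_an.E3a

/-! Module E3, part b: Parseval on a circle. -/

set_option autoImplicit false

open Complex Metric Set Filter Topology MeasureTheory

namespace Pool.Agent.T05.Osc

theorem integral_exp_orth (m n : ℕ) :
    ∫ θ in Ioc 0 (2 * Real.pi), (exp (θ * I) ^ m * exp (-(θ * I)) ^ n : ℂ) =
      if m = n then ((2 * Real.pi : ℝ) : ℂ) else 0 := by
  rw [← intervalIntegral.integral_of_le (by positivity)]
  by_cases h : m = n
  · subst h
    rw [if_pos rfl]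
    have : ∀ θ : ℝ, (exp (θ * I) ^ m * exp (-(θ * I)) ^ m : ℂ) = 1 := by
      intro θ
      rw [← mul_pow, ← Complex.exp_add, add_neg_cancel, Complex.exp_zero, one_pow]
    simp [this]
  · rw [if_neg h]
    have hc : (((m : ℂ) - n) * I) ≠ 0 := by
      refine mul_ne_zero ?_ I_ne_zero
      rw [sub_ne_zero]
      exact_mod_cast h
    have h1 : ∀ θ : ℝ, (exp (θ * I) ^ m * exp (-(θ * I)) ^ n : ℂ) =
        exp ((((m : ℂ) - n) * I) * θ) := by
      intro θ
      rw [← Complex.exp_nat_mul, ← Complex.exp_nat_mul, ← Complex.exp_add]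
      congr 1
      ring
    simp_rw [h1]
    rw [integral_exp_mul_complex hc]
    have h2 : exp ((((m : ℂ) - n) * I) * ((2 * Real.pi : ℝ) : ℂ)) = 1 := by
      rw [Complex.exp_eq_one_iff]
      refine ⟨(m : ℤ) - n, ?_⟩
      push_cast
      ring
    rw [h2]
    simp

/-- Parseval on a circle. -/
theorem hasSum_circle_sq {c : ℕ → ℂ} {f : ℝ → ℂ}
    (hf : ∀ θ : ℝ, HasSum (fun n => c n * exp (θ * I) ^ n) (f θ)) :
    HasSum (fun n => (2 * Real.pi) * ‖c n‖ ^ 2) (∫ θ in Ioc 0 (2 * Real.pi), ‖f θ‖ ^ 2) := by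
  have ha : Summable (fun j => ‖c j‖) := by
    have := (hf 0).summable.norm
    simpa using this
  let F : ℕ × ℕ → ℝ → ℂ := fun p θ => (c p.1 * exp (θ * I) ^ p.1) *
    ((starRingEnd ℂ) (c p.2) * exp (-(θ * I)) ^ p.2)
  have hn1 : ∀ θ : ℝ, ‖exp (θ * I)‖ = 1 := fun θ => Complex.norm_exp_ofReal_mul_I θ
  have hn2 : ∀ θ : ℝ, ‖exp (-(θ * I))‖ = 1 := fun θ => by
    rw [Complex.exp_neg, norm_inv, hn1, inv_one]
  have hFn : ∀ p θ, ‖F p θ‖ = ‖c p.1‖ * ‖c p.2‖ := by
    intro p θ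
    simp only [F, norm_mul, norm_pow, hn1, hn2, one_pow, mul_one]
    rw [RCLike.norm_conj]
  have hFc : ∀ p, Continuous (F p) := by
    intro p
    simp only [F]
    fun_prop
  have h1 := hasSum_integral_of_summable_integral_norm (μ := volume.restrict (Ioc 0 (2 * Real.pi)))
    (F := F) (fun p => (hFc p).integrableOn_Ioc) (by
      simp_rw [hFn, integral_const]
      exact (ha.mul_of_nonneg ha (fun _ => norm_nonneg _) (fun _ => norm_nonneg _)).const_smul _)
  have hconj : ∀ θ : ℝ, HasSum (fun n => (starRingEnd ℂ) (c n) * exp (-(θ * I)) ^ n)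
      ((starRingEnd ℂ) (f θ)) := by
    intro θ
    have h := (hf θ).map (starRingEnd ℂ).toAddMonoidHom Complex.continuous_conj
    refine HasSum.congr_fun h ?_
    intro n
    change _ = (starRingEnd ℂ) (c n * exp (θ * I) ^ n)
    rw [map_mul, map_pow, ← Complex.exp_conj, map_mul, Complex.conj_ofReal, Complex.conj_I]
    congr 3
    ring
  have h2 : ∀ θ : ℝ, ∑' p, F p θ = ((‖f θ‖ ^ 2 : ℝ) : ℂ) := by
    intro θ
    have hs := summable_mul_of_summable_norm (hf θ).summable.norm (hconj θ).summable.norm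
    rw [((hf θ).mul (hconj θ) hs).tsum_eq, Complex.mul_conj, Complex.normSq_eq_norm_sq]
  simp_rw [h2] at h1
  have h3 : ∀ p : ℕ × ℕ, ∫ θ in Ioc 0 (2 * Real.pi), F p θ =
      c p.1 * (starRingEnd ℂ) (c p.2) * (if p.1 = p.2 then ((2 * Real.pi : ℝ) : ℂ) else 0) := by
    intro p
    rw [← integral_exp_orth, ← integral_const_mul]
    apply integral_congr_ae
    filter_upwards with θ
    simp only [F]
    ring
  have hinj : Function.Injective (fun j : ℕ => ((j, j) : ℕ × ℕ)) := fun x y h => by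
    simpa using congrArg Prod.fst h
  have h4 := (hinj.hasSum_iff (f := fun p : ℕ × ℕ => ∫ θ in Ioc 0 (2 * Real.pi), F p θ) (by
    intro p hp
    rw [h3, if_neg, mul_zero]
    intro h
    exact hp ⟨p.1, by ext <;> simp [h]⟩)).2 h1
  rw [← Complex.hasSum_ofReal]
  rw [integral_complex_ofReal] at h4
  refine h4.congr_fun ?_
  intro j
  simp only [Function.comp, h3, if_true]
  rw [Complex.mul_conj, Complex.normSq_eq_norm_sq]
  push_cast
  ring

/-- Parseval on a circle, `ENNReal` form. -/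
theorem lintegral_circle_sq {c : ℕ → ℂ} {f : ℝ → ℂ} (hfc : Continuous f)
    (hf : ∀ θ : ℝ, HasSum (fun n => c n * exp (θ * I) ^ n) (f θ)) :
    ∫⁻ θ in Ioc 0 (2 * Real.pi), ‖f θ‖ₑ ^ (2 : ℕ) =
      ENNReal.ofReal (2 * Real.pi) * ∑' n, ‖c n‖ₑ ^ (2 : ℕ) := by
  have h := hasSum_circle_sq hf
  have h5 : ∀ n, ENNReal.ofReal ((2 * Real.pi) * ‖c n‖ ^ 2) =
      ENNReal.ofReal (2 * Real.pi) * ‖c n‖ₑ ^ (2 : ℕ) := by
    intro n
    rw [ENNReal.ofReal_mul (by positivity), ENNReal.ofReal_pow (norm_nonneg _), ofReal_norm]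
  rw [← ENNReal.tsum_mul_left]
  simp_rw [← h5]
  rw [← ENNReal.ofReal_tsum_of_nonneg (fun j => by positivity) h.summable, h.tsum_eq,
    ofReal_integral_eq_lintegral_ofReal]
  · apply lintegral_congr
    intro θ
    rw [ENNReal.ofReal_pow (norm_nonneg _), ofReal_norm]
  · exact ((hfc.norm.pow 2).integrableOn_Ioc)
  · apply Filter.Eventually.of_forall
    intro θ
    positivity

variable {G : ℂ → ℂ}

/-- Bessel inequality for the coefficients. -/
theorem tsum_bb_le (hd : DifferentiableOn ℂ G (ball 0 1))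
    (hp : ∀ w ∈ ball (0 : ℂ) 1, w ≠ 0 → 0 ≤ (herg G w).re) :
    ∑' n, ‖bb G n‖ₑ ^ (2 : ℕ) ≤ 1 := by
  have key : ∀ r : ℝ, 0 ≤ r → r < 1 → ∀ s : Finset ℕ, ∑ n ∈ s, ‖bb G n‖ ^ 2 * r ^ (2 * n) ≤ 1 := by
    intro r hr0 hr1 s
    have hf : ∀ θ : ℝ, HasSum (fun n => (bb G n * (r : ℂ) ^ n) * exp (θ * I) ^ n)
        (BB G (r * exp (θ * I))) := by
      intro θ
      refine (hasSum_bb hd hp (exp_mem_ball hr0 hr1 θ)).congr_fun ?_
      intro n
      rw [mul_pow]
      ring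
    have h := hasSum_circle_sq hf
    have h1 : ∫ θ in Ioc 0 (2 * Real.pi), ‖BB G (r * exp (θ * I))‖ ^ 2 ≤ 2 * Real.pi := by
      have hle : ∫ θ in Ioc 0 (2 * Real.pi), ‖BB G (r * exp (θ * I))‖ ^ 2 ≤
          ∫ θ in Ioc 0 (2 * Real.pi), (1 : ℝ) := by
        refine integral_mono_of_nonneg ?_ ?_ ?_
        · exact Filter.Eventually.of_forall (fun θ => by positivity)
        · exact continuous_const.integrableOn_Ioc
        · refine Filter.Eventually.of_forall (fun θ => ?_)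
          have := BB_norm_le hd hp (exp_mem_ball hr0 hr1 θ)
          simp only
          nlinarith [norm_nonneg (BB G (r * exp (θ * I)))]
      refine hle.trans ?_
      rw [← intervalIntegral.integral_of_le (by positivity)]
      simp
    have h2 : ∑ n ∈ s, (2 * Real.pi) * ‖bb G n * (r : ℂ) ^ n‖ ^ 2 ≤ 2 * Real.pi :=
      (sum_le_hasSum s (fun i _ => by positivity) h).trans h1
    rw [← Finset.mul_sum] at h2
    have h3 : ∑ n ∈ s, ‖bb G n * (r : ℂ) ^ n‖ ^ 2 ≤ 1 := by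
      have hpi : 0 < 2 * Real.pi := by positivity
      nlinarith [h2, hpi]
    refine le_trans (le_of_eq ?_) h3
    refine Finset.sum_congr rfl (fun n _ => ?_)
    rw [norm_mul, norm_pow, Complex.norm_real, Real.norm_of_nonneg hr0, mul_pow, ← pow_mul,
      mul_comm n 2]
  have key2 : ∀ s : Finset ℕ, ∑ n ∈ s, ‖bb G n‖ ^ 2 ≤ 1 := by
    intro s
    have hcont : Continuous (fun r : ℝ => ∑ n ∈ s, ‖bb G n‖ ^ 2 * r ^ (2 * n)) := by fun_prop
    have ht : Tendsto (fun r : ℝ => ∑ n ∈ s, ‖bb G n‖ ^ 2 * r ^ (2 * n)) (𝓝[<] 1)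
        (𝓝 (∑ n ∈ s, ‖bb G n‖ ^ 2 * (1 : ℝ) ^ (2 * n))) :=
      (hcont.tendsto 1).mono_left nhdsWithin_le_nhds
    simp only [one_pow, mul_one] at ht
    refine le_of_tendsto ht ?_
    have : Ioo (0 : ℝ) 1 ∈ 𝓝[<] (1 : ℝ) := Ioo_mem_nhdsLT (by norm_num)
    filter_upwards [this] with r hr
    exact key r hr.1.le hr.2 s
  rw [ENNReal.tsum_eq_iSup_sum]
  refine iSup_le (fun s => ?_)
  have h5 : ∀ n, ‖bb G n‖ₑ ^ (2 : ℕ) = ENNReal.ofReal (‖bb G n‖ ^ 2) := by
    intro n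
    rw [ENNReal.ofReal_pow (norm_nonneg _), ofReal_norm]
  simp_rw [h5]
  rw [← ENNReal.ofReal_sum_of_nonneg (fun i _ => by positivity)]
  exact ENNReal.ofReal_le_one.2 (key2 s)

end Pool.Agent.T05.Osc
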