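import Pool.Agent.Lib.MP_0162a5_an.E3b

/-! Module E3, part c: measure estimates on a circle for one Herglotz function. -/

set_option autoImplicit false

open Complex Metric Set Filter Topology MeasureTheory

namespace Pool.Agent.T05.Osc

variable {G : ℂ → ℂ}

theorem closedBall_subset' {r : ℝ} (hr1 : r < 1) : closedBall (0 : ℂ) r ⊆ ball 0 1 :=
  closedBall_subset_ball hr1

theorem circ_cont {F : ℂ → ℂ} (hF : ContinuousOn F (ball 0 1)) {r : ℝ} (hr0 : 0 ≤ r)
    (hr1 : r < 1) : Continuous (fun θ : ℝ => F (r * exp (θ * I))) := by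
  refine hF.comp_continuous (by fun_prop) (fun θ => exp_mem_ball hr0 hr1 θ)

theorem upper (hd : DifferentiableOn ℂ G (ball 0 1))
    (hp : ∀ w ∈ ball (0 : ℂ) 1, w ≠ 0 → 0 ≤ (herg G w).re) {r R1 δ : ℝ} (hr0 : 0 < r)
    (hr1 : r < 1) (hR1 : 1 < R1)
    (hδ : 2 * Real.pi * Real.log ‖1 + PP G 0‖ ≤ δ * Real.log R1) :
    volume {θ : ℝ | θ ∈ Icc 0 (2 * Real.pi) ∧ R1 < ‖1 + PP G (r * exp (θ * I))‖} ≤
      ENNReal.ofReal δ := by
  have hlog : 0 < Real.log R1 := Real.log_pos hR1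
  have hPd : DifferentiableOn ℂ (fun w => 1 + PP G w) (ball 0 1) := (PP_diff hd).const_add 1
  have hmean : Real.circleAverage (fun w => Real.log ‖1 + PP G w‖) 0 r =
      Real.log ‖1 + PP G 0‖ := by
    refine AnalyticOnNhd.circleAverage_log_norm_of_ne_zero ?_ ?_
    · intro w hw
      rw [abs_of_pos hr0] at hw
      exact hPd.analyticAt (isOpen_ball.mem_nhds (closedBall_subset' hr1 hw))
    · intro w hw
      rw [abs_of_pos hr0] at hw
      exact ne_zero' hd hp (closedBall_subset' hr1 hw)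
  have hcm : ∀ θ : ℝ, circleMap 0 r θ = r * exp (θ * I) := by
    intro θ; simp [circleMap]
  rw [Real.circleAverage_def] at hmean
  simp_rw [hcm] at hmean
  have hint : ∫ θ in (0 : ℝ)..(2 * Real.pi), Real.log ‖1 + PP G (r * exp (θ * I))‖ =
      2 * Real.pi * Real.log ‖1 + PP G 0‖ := by
    rw [← hmean, smul_eq_mul, ← mul_assoc, mul_inv_cancel₀ (by positivity), one_mul]
  set f : ℝ → ℝ := fun θ => Real.log ‖1 + PP G (r * exp (θ * I))‖ with hf
  have hfc : Continuous f := by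
    have h1 : Continuous (fun θ : ℝ => 1 + PP G (r * exp (θ * I))) :=
      circ_cont (F := fun w => 1 + PP G w) hPd.continuousOn hr0.le hr1
    refine h1.norm.log (fun θ => ?_)
    exact norm_ne_zero_iff.2 (ne_zero' hd hp (exp_mem_ball hr0.le hr1 θ))
  have hf0 : ∀ θ, 0 ≤ f θ := fun θ =>
    Real.log_nonneg (one_le_norm hd hp (exp_mem_ball hr0.le hr1 θ))
  have hpi : (0 : ℝ) ≤ 2 * Real.pi := by positivity
  have hint2 : ∫ θ in Icc 0 (2 * Real.pi), f θ = 2 * Real.pi * Real.log ‖1 + PP G 0‖ := by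
    rw [integral_Icc_eq_integral_Ioc, ← intervalIntegral.integral_of_le hpi]
    exact hint
  have hmk := mul_meas_ge_le_integral_of_nonneg (μ := volume.restrict (Icc 0 (2 * Real.pi)))
    (f := f) (Filter.Eventually.of_forall hf0) (hfc.integrableOn_Icc) (Real.log R1)
  rw [hint2] at hmk
  have h2 : (volume.restrict (Icc 0 (2 * Real.pi))).real {θ | Real.log R1 ≤ f θ} ≤ δ := by
    have := hmk.trans hδ
    rw [mul_comm δ] at this
    exact le_of_mul_le_mul_left this hlog
  calc volume {θ : ℝ | θ ∈ Icc 0 (2 * Real.pi) ∧ R1 < ‖1 + PP G (r * exp (θ * I))‖}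
      ≤ volume ({θ | Real.log R1 ≤ f θ} ∩ Icc 0 (2 * Real.pi)) := by
        refine measure_mono (fun θ hθ => ⟨?_, hθ.1⟩)
        exact Real.log_le_log (by linarith) hθ.2.le
    _ = (volume.restrict (Icc 0 (2 * Real.pi))) {θ | Real.log R1 ≤ f θ} := by
        rw [Measure.restrict_apply' measurableSet_Icc]
    _ = ENNReal.ofReal ((volume.restrict (Icc 0 (2 * Real.pi))).real {θ | Real.log R1 ≤ f θ}) := by
        rw [ofReal_measureReal]
    _ ≤ ENNReal.ofReal δ := ENNReal.ofReal_le_ofReal h2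

theorem Y_norm_le (hd : DifferentiableOn ℂ G (ball 0 1))
    (hp : ∀ w ∈ ball (0 : ℂ) 1, w ≠ 0 → 0 ≤ (herg G w).re) {A : ℝ} (hA : ‖G 0‖ ≤ A) {w : ℂ}
    (hw : w ∈ ball (0 : ℂ) 1) : ‖G w * BB G w‖ ≤ 2 * A + 2 := by
  have hB := BB_norm_le hd hp hw
  have hw1 : ‖w‖ ≤ 1 := by rw [mem_ball_zero_iff] at hw; exact hw.le
  have hne : BB G w ≠ 0 := by
    unfold BB
    exact inv_ne_zero (ne_zero' hd hp hw)
  have h : G w * BB G w = (G 0 - (starRingEnd ℂ) (G 0) * w ^ 2) * BB G w - w * (1 - BB G w) := by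
    have := G_eq G w
    field_simp at this
    linear_combination this
  rw [h]
  have h1 : ‖(starRingEnd ℂ) (G 0) * w ^ 2‖ ≤ ‖G 0‖ := by
    rw [norm_mul, RCLike.norm_conj, norm_pow]
    have : ‖w‖ ^ 2 ≤ 1 := pow_le_one₀ (norm_nonneg _) hw1
    nlinarith [norm_nonneg (G 0)]
  have h2 : ‖G 0 - (starRingEnd ℂ) (G 0) * w ^ 2‖ ≤ 2 * A := by
    refine (norm_sub_le _ _).trans ?_
    linarith
  have h3 : ‖1 - BB G w‖ ≤ 2 := by
    refine (norm_sub_le _ _).trans ?_
    rw [norm_one]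
    linarith
  have hA0 : 0 ≤ A := (norm_nonneg _).trans hA
  calc ‖(G 0 - (starRingEnd ℂ) (G 0) * w ^ 2) * BB G w - w * (1 - BB G w)‖
      ≤ ‖(G 0 - (starRingEnd ℂ) (G 0) * w ^ 2)‖ * ‖BB G w‖ + ‖w‖ * ‖1 - BB G w‖ := by
        refine (norm_sub_le _ _).trans ?_
        rw [norm_mul, norm_mul]
    _ ≤ (2 * A) * 1 + 1 * 2 := by gcongr
    _ = 2 * A + 2 := by ring

theorem lower (hd : DifferentiableOn ℂ G (ball 0 1))
    (hp : ∀ w ∈ ball (0 : ℂ) 1, w ≠ 0 → 0 ≤ (herg G w).re) {A : ℝ} (hA : ‖G 0‖ ≤ A) {w0 : ℂ}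
    (hw0 : ‖w0‖ < 1) {c1 : ℝ} (hc1 : 0 < c1) (h : c1 ≤ ‖G w0 * BB G w0‖) {r : ℝ}
    (hr : (1 + ‖w0‖) / 2 ≤ r) (hr1 : r < 1) :
    ENNReal.ofReal (Real.pi * c1 * ((1 - ‖w0‖) / 2) / (2 * A + 2)) ≤
      volume {θ : ℝ | θ ∈ Icc 0 (2 * Real.pi) ∧
        c1 * ((1 - ‖w0‖) / 2) / 2 ≤ ‖G (r * exp (θ * I))‖} := by
  have hA0 : 0 ≤ A := (norm_nonneg _).trans hA
  have hM : 0 < 2 * A + 2 := by linarith
  set s0 := (1 - ‖w0‖) / 2 with hs0
  have hs0' : 0 < s0 := by rw [hs0]; linarith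
  have hr0 : 0 < r := by linarith [norm_nonneg w0]
  have hrw : s0 ≤ r - ‖w0‖ := by rw [hs0]; linarith
  have hpi : (0 : ℝ) ≤ 2 * Real.pi := by positivity
  set Y : ℂ → ℂ := fun w => G w * BB G w with hY
  have hYd : DifferentiableOn ℂ Y (ball 0 1) := hd.mul (BB_diff hd hp)
  have hYc : Continuous (fun θ : ℝ => Y (r * exp (θ * I))) := circ_cont hYd.continuousOn hr0.le hr1
  have hYle : ∀ θ : ℝ, ‖Y (r * exp (θ * I))‖ ≤ 2 * A + 2 := fun θ =>
    Y_norm_le hd hp hA (exp_mem_ball hr0.le hr1 θ)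
  have hYG : ∀ θ : ℝ, ‖Y (r * exp (θ * I))‖ ≤ ‖G (r * exp (θ * I))‖ := by
    intro θ
    rw [hY]
    simp only
    rw [norm_mul]
    have := BB_norm_le hd hp (exp_mem_ball hr0.le hr1 θ)
    nlinarith [norm_nonneg (G (r * exp (θ * I)))]
  have hcm : ∀ θ : ℝ, circleMap 0 r θ = r * exp (θ * I) := by
    intro θ; simp [circleMap]
  -- Cauchy formula
  have hw0b : w0 ∈ ball (0 : ℂ) r := by
    rw [mem_ball_zero_iff]; linarith
  have hcauchy := (hYd.mono (closedBall_subset' hr1)).diffContOnCl_ball (U := closedBall 0 r)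
    le_rfl |>.two_pi_i_inv_smul_circleIntegral_sub_inv_smul hw0b
  have hlow : 2 * Real.pi * (c1 * s0) ≤ ∫ θ in (0 : ℝ)..(2 * Real.pi), ‖Y (r * exp (θ * I))‖ := by
    have h1 : ‖(∮ z in C(0, r), (z - w0)⁻¹ • Y z)‖ ≤
        ∫ θ in (0 : ℝ)..(2 * Real.pi), ‖Y (r * exp (θ * I))‖ * s0⁻¹ := by
      unfold circleIntegral
      refine (intervalIntegral.norm_integral_le_integral_norm hpi).trans ?_
      refine intervalIntegral.integral_mono_on hpi ?_ ?_ ?_
      · apply Continuous.intervalIntegrable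
        refine Continuous.norm ?_
        simp only [deriv_circleMap, smul_eq_mul]
        have e1 : Continuous (fun θ : ℝ => (circleMap 0 r θ - w0)⁻¹) := by
          refine Continuous.inv₀ (by fun_prop) ?_
          intro θ hθ
          have : ‖circleMap 0 r θ‖ = r := by rw [hcm]; simp [abs_of_pos hr0]
          have h3 : circleMap 0 r θ = w0 := sub_eq_zero.1 hθ
          rw [h3] at this
          linarith
        have e2 : Continuous (fun θ : ℝ => Y (circleMap 0 r θ)) := by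
          simp_rw [hcm]; exact hYc
        exact ((continuous_circleMap 0 r).mul continuous_const).mul (e1.mul e2)
      · apply Continuous.intervalIntegrable
        exact hYc.norm.mul continuous_const
      · intro θ _
        simp only [deriv_circleMap, smul_eq_mul]
        rw [norm_mul, norm_mul, norm_mul, Complex.norm_I, mul_one, norm_inv, hcm]
        have e3 : ‖(r : ℂ) * exp (θ * I)‖ = r := by simp [abs_of_pos hr0]
        have e4 : s0 ≤ ‖(r : ℂ) * exp (θ * I) - w0‖ := by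
          have := norm_sub_norm_le ((r : ℂ) * exp (θ * I)) w0
          rw [e3] at this
          linarith
        rw [e3]
        have e5 : ‖(r : ℂ) * exp (θ * I) - w0‖⁻¹ ≤ s0⁻¹ := inv_anti₀ hs0' e4
        have e6 : (0:ℝ) ≤ ‖(r : ℂ) * exp (θ * I) - w0‖⁻¹ := by positivity
        calc r * (‖(r : ℂ) * exp (θ * I) - w0‖⁻¹ * ‖Y (r * exp (θ * I))‖)
            ≤ 1 * (s0⁻¹ * ‖Y (r * exp (θ * I))‖) := by gcongr
          _ = ‖Y (r * exp (θ * I))‖ * s0⁻¹ := by ring
    rw [intervalIntegral.integral_mul_const] at h1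
    have h2 : ‖(∮ z in C(0, r), (z - w0)⁻¹ • Y z)‖ = 2 * Real.pi * ‖Y w0‖ := by
      rw [← hcauchy, norm_smul, norm_inv]
      have : ‖(2 * Real.pi * I : ℂ)‖ = 2 * Real.pi := by
        simp [abs_of_pos Real.pi_pos]
      rw [this]
      field_simp
    rw [h2] at h1
    have h3 : c1 ≤ ‖Y w0‖ := h
    have h4 : 2 * Real.pi * c1 ≤
        (∫ θ in (0 : ℝ)..(2 * Real.pi), ‖Y (r * exp (θ * I))‖) * s0⁻¹ := by
      refine le_trans ?_ h1
      gcongr
    rw [← div_eq_mul_inv, le_div_iff₀ hs0'] at h4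
    linarith
  -- the set
  set S : Set ℝ := {θ : ℝ | c1 * s0 / 2 ≤ ‖G (r * exp (θ * I))‖} with hS
  have hGc : Continuous (fun θ : ℝ => G (r * exp (θ * I))) := circ_cont hd.continuousOn hr0.le hr1
  have hSm : MeasurableSet S := measurableSet_le measurable_const hGc.norm.measurable
  have hup : ∫ θ in Icc 0 (2 * Real.pi), ‖Y (r * exp (θ * I))‖ ≤
      (2 * A + 2) * (volume (Icc 0 (2 * Real.pi) ∩ S)).toReal + 2 * Real.pi * (c1 * s0 / 2) := by
    have h1 : ∫ θ in Icc 0 (2 * Real.pi), ‖Y (r * exp (θ * I))‖ ≤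
        ∫ θ in Icc 0 (2 * Real.pi), (S.indicator (fun _ => (2 * A + 2)) θ + c1 * s0 / 2) := by
      refine integral_mono_of_nonneg (Filter.Eventually.of_forall (fun θ => norm_nonneg _)) ?_
        (Filter.Eventually.of_forall (fun θ => ?_))
      · refine Integrable.add ?_ ?_
        · refine Integrable.indicator ?_ hSm
          exact continuous_const.integrableOn_Icc
        · exact continuous_const.integrableOn_Icc
      · simp only
        by_cases hθ : θ ∈ S
        · rw [indicator_of_mem hθ]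
          have := hYle θ
          have : 0 < c1 * s0 / 2 := by positivity
          linarith [hYle θ]
        · rw [indicator_of_notMem hθ, zero_add]
          have hθ' : ‖G (r * exp (θ * I))‖ < c1 * s0 / 2 := not_le.1 hθ
          exact (hYG θ).trans hθ'.le
    refine h1.trans (le_of_eq ?_)
    rw [integral_add]
    · rw [integral_indicator hSm, Measure.restrict_restrict hSm, integral_const, integral_const]
      simp only [measureReal_restrict_apply_univ, smul_eq_mul]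
      have e1 : volume.real (Icc 0 (2 * Real.pi)) = 2 * Real.pi := by
        rw [Real.volume_real_Icc_of_le hpi, sub_zero]
      rw [e1, inter_comm, measureReal_def]
      ring
    · refine Integrable.indicator ?_ hSm
      exact continuous_const.integrableOn_Icc
    · exact continuous_const.integrableOn_Icc
  rw [intervalIntegral.integral_of_le hpi, ← integral_Icc_eq_integral_Ioc] at hlow
  have hfin : volume (Icc 0 (2 * Real.pi) ∩ S) ≠ ⊤ :=
    ne_top_of_le_ne_top (measure_Icc_lt_top (μ := volume) (a := (0:ℝ)) (b := 2 * Real.pi)).ne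
      (measure_mono inter_subset_left)
  have hset : {θ : ℝ | θ ∈ Icc 0 (2 * Real.pi) ∧ c1 * s0 / 2 ≤ ‖G (r * exp (θ * I))‖} =
      Icc 0 (2 * Real.pi) ∩ S := rfl
  rw [hset, ← ENNReal.ofReal_toReal hfin]
  refine ENNReal.ofReal_le_ofReal ?_
  rw [div_le_iff₀ hM]
  nlinarith [hlow.trans hup]

end Pool.Agent.T05.Osc
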