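import Pool.Agent.Lib.MP_0162a5_an.E3c

/-! Module E3, part d: the mean oscillation of `BB` tends to zero. -/

set_option autoImplicit false

open Complex Metric Set Filter Topology MeasureTheory

namespace Pool.Agent.T05

/-- The disc automorphism (without the rotation). -/
noncomputable def mob (r : ℝ) (ζ : ℂ) : ℂ := (ζ + r) / (1 + r * ζ)

namespace Osc

theorem mob_den_ne {r : ℝ} (hr0 : 0 ≤ r) (hr1 : r ≤ 1) {ζ : ℂ} (hζ : ‖ζ‖ < 1) :
    (1 + (r : ℂ) * ζ) ≠ 0 := by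
  intro h
  have h1 : (r : ℂ) * ζ = -1 := by linear_combination h
  have h2 : ‖(r : ℂ) * ζ‖ = 1 := by rw [h1]; simp
  rw [norm_mul, Complex.norm_real, Real.norm_of_nonneg hr0] at h2
  nlinarith [norm_nonneg ζ]

theorem mob_norm_lt {r : ℝ} (hr0 : 0 < r) (hr1 : r < 1) {ζ : ℂ} (hζ : ‖ζ‖ < 1) :
    ‖mob r ζ‖ < 1 := by
  have hden := mob_den_ne hr0.le hr1.le hζ
  unfold mob
  rw [norm_div, div_lt_one (norm_pos_iff.2 hden)]
  have h1 : ‖ζ + r‖ ^ 2 < ‖1 + (r : ℂ) * ζ‖ ^ 2 := by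
    rw [← Complex.normSq_eq_norm_sq, ← Complex.normSq_eq_norm_sq, Complex.normSq_apply,
      Complex.normSq_apply]
    have h2 : ‖ζ‖ ^ 2 < 1 := by nlinarith [norm_nonneg ζ]
    rw [← Complex.normSq_eq_norm_sq, Complex.normSq_apply] at h2
    simp only [add_re, ofReal_re, add_im, ofReal_im, add_zero, one_re, mul_re, zero_mul, sub_zero,
      one_im, mul_im, zero_add]
    have h3 : 0 < (1 - r ^ 2) := by nlinarith
    have h4 : 0 < (1 - (ζ.re * ζ.re + ζ.im * ζ.im)) := by linarith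
    nlinarith [mul_pos h3 h4]
  exact lt_of_pow_lt_pow_left₀ 2 (norm_nonneg _) h1

theorem mob_tendsto {ζ : ℂ} (hζ : ‖ζ‖ < 1) :
    Tendsto (fun r : ℝ => mob r ζ) (𝓝[<] 1) (𝓝 1) := by
  have hden := mob_den_ne (r := 1) zero_le_one le_rfl hζ
  have h1 : ContinuousAt (fun r : ℝ => mob r ζ) 1 := by
    unfold mob
    refine ContinuousAt.div (by fun_prop) (by fun_prop) ?_
    exact hden
  have h2 : mob 1 ζ = 1 := by
    unfold mob
    rw [div_eq_one_iff_eq hden]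
    push_cast
    ring
  have h3 := h1.tendsto
  rw [h2] at h3
  exact h3.mono_left nhdsWithin_le_nhds

theorem enorm_sub_sq_le (u v : ℂ) :
    ‖u - v‖ₑ ^ (2 : ℕ) ≤ 2 * ‖u‖ₑ ^ (2 : ℕ) + 2 * ‖v‖ₑ ^ (2 : ℕ) := by
  have h5 : ∀ z : ℂ, ‖z‖ₑ ^ (2 : ℕ) = ENNReal.ofReal (‖z‖ ^ 2) := by
    intro z
    rw [ENNReal.ofReal_pow (norm_nonneg _), ofReal_norm]
  have h2 : (2 : ENNReal) = ENNReal.ofReal 2 := by simp
  rw [h5, h5, h5, h2, ← ENNReal.ofReal_mul (by norm_num), ← ENNReal.ofReal_mul (by norm_num),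
    ← ENNReal.ofReal_add (by positivity) (by positivity)]
  refine ENNReal.ofReal_le_ofReal ?_
  have := norm_sub_le u v
  nlinarith [norm_nonneg u, norm_nonneg v, norm_nonneg (u - v), sq_nonneg (‖u‖ - ‖v‖)]

variable {G : ℝ → ℂ → ℂ}

theorem alpha_cont (hc : ContinuousOn (fun q : ℝ × ℂ => G q.1 q.2) (Ioo 0 1 ×ˢ ball 0 1)) {w : ℂ}
    (hw : w ∈ ball (0 : ℂ) 1) : ContinuousOn (fun x => G x w) (Ioo 0 1) := by
  have : ContinuousOn (fun x : ℝ => (x, w)) (Ioo 0 1) := by fun_prop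
  exact hc.comp this (fun x hx => ⟨hx, hw⟩)

/-- joint continuity of `BB` off the origin -/
theorem BB_cont (hc : ContinuousOn (fun q : ℝ × ℂ => G q.1 q.2) (Ioo 0 1 ×ˢ ball 0 1))
    (hd : ∀ x ∈ Ioo (0 : ℝ) 1, DifferentiableOn ℂ (G x) (ball 0 1))
    (hp : ∀ x ∈ Ioo (0 : ℝ) 1, ∀ w ∈ ball (0 : ℂ) 1, w ≠ 0 → 0 ≤ (herg (G x) w).re) :
    ContinuousOn (fun q : ℝ × ℂ => BB (G q.1) q.2) (Ioo 0 1 ×ˢ (ball 0 1 \ {0})) := by
  have h0 : ContinuousOn (fun q : ℝ × ℂ => G q.1 0) (Ioo 0 1 ×ˢ (ball 0 1 \ {0})) := by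
    have : ContinuousOn (fun q : ℝ × ℂ => (q.1, (0 : ℂ))) (Ioo 0 1 ×ˢ (ball 0 1 \ {0})) := by
      fun_prop
    exact hc.comp this (fun q hq => ⟨hq.1, mem_ball_self one_pos⟩)
  have h1 : ContinuousOn (fun q : ℝ × ℂ => G q.1 q.2) (Ioo 0 1 ×ˢ (ball 0 1 \ {0})) :=
    hc.mono (prod_mono_right sdiff_subset)
  have h2 : ContinuousOn (fun q : ℝ × ℂ => herg (G q.1) q.2) (Ioo 0 1 ×ˢ (ball 0 1 \ {0})) := by
    unfold herg
    refine ContinuousOn.div ?_ (by fun_prop) (fun q hq => hq.2.2)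
    have h3 : ContinuousOn (fun q : ℝ × ℂ => (starRingEnd ℂ) (G q.1 0))
        (Ioo 0 1 ×ˢ (ball 0 1 \ {0})) := Complex.continuous_conj.comp_continuousOn h0
    exact ((h1.sub h0).add (h3.mul (by fun_prop))).neg
  have h3 : ContinuousOn (fun q : ℝ × ℂ => (1 + herg (G q.1) q.2)⁻¹)
      (Ioo 0 1 ×ˢ (ball 0 1 \ {0})) := by
    refine ContinuousOn.inv₀ (continuousOn_const.add h2) ?_
    intro q hq
    have := ne_zero' (hd q.1 hq.1) (hp q.1 hq.1) hq.2.1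
    rwa [PP_of_ne _ hq.2.2] at this
  refine h3.congr ?_
  intro q hq
  simp only [BB]
  rw [PP_of_ne _ hq.2.2]

theorem bb_cont (hc : ContinuousOn (fun q : ℝ × ℂ => G q.1 q.2) (Ioo 0 1 ×ˢ ball 0 1))
    (hd : ∀ x ∈ Ioo (0 : ℝ) 1, DifferentiableOn ℂ (G x) (ball 0 1))
    (hp : ∀ x ∈ Ioo (0 : ℝ) 1, ∀ w ∈ ball (0 : ℂ) 1, w ≠ 0 → 0 ≤ (herg (G x) w).re) (n : ℕ) :
    ContinuousOn (fun x => bb (G x) n) (Ioo 0 1) := by
  have h1 : ∀ x ∈ Ioo (0 : ℝ) 1, bb (G x) n =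
      (2 * Real.pi * I)⁻¹ * ∮ z in C(0, 1 / 2), (1 / (z - 0) ^ (n + 1)) • BB (G x) z := by
    intro x hx
    have hsub : closedBall (0 : ℂ) (1 / 2) ⊆ ball 0 1 := closedBall_subset' (by norm_num)
    rw [DifferentiableOn.circleIntegral_one_div_sub_center_pow_smul (by norm_num) n
      ((BB_diff (hd x hx) (hp x hx)).mono hsub)]
    unfold bb
    have hpi : (Real.pi : ℂ) ≠ 0 := by exact_mod_cast Real.pi_ne_zero
    have hI := I_ne_zero
    rw [smul_eq_mul]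
    field_simp
  have h2 : ContinuousOn (fun x => ∮ z in C(0, 1 / 2), (1 / (z - 0) ^ (n + 1)) • BB (G x) z)
      (Ioo 0 1) := by
    rw [continuousOn_iff_continuous_domRestrict]
    unfold circleIntegral
    refine intervalIntegral.continuous_parametric_intervalIntegral_of_continuous' ?_ _ _
    have hcm : ∀ θ : ℝ, circleMap 0 (1 / 2) θ ∈ ball (0 : ℂ) 1 \ {0} := by
      intro θ
      have hn : ‖circleMap 0 (1 / 2) θ‖ = 1 / 2 := by simp [circleMap]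
      refine ⟨?_, ?_⟩
      · rw [mem_ball_zero_iff, hn]; norm_num
      · intro h
        rw [mem_singleton_iff] at h
        rw [h, norm_zero] at hn
        norm_num at hn
    have e1 : Continuous (fun q : (Ioo (0 : ℝ) 1) × ℝ => BB (G q.1) (circleMap 0 (1 / 2) q.2)) := by
      have e2 : Continuous (fun q : (Ioo (0 : ℝ) 1) × ℝ =>
          (((q.1 : ℝ), circleMap 0 (1 / 2) q.2) : ℝ × ℂ)) := by
        refine Continuous.prodMk (by fun_prop) ?_
        exact (continuous_circleMap 0 (1 / 2)).comp continuous_snd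
      have hm : ∀ q : (Ioo (0 : ℝ) 1) × ℝ, (((q.1 : ℝ), circleMap 0 (1 / 2) q.2) : ℝ × ℂ) ∈
          (Ioo (0 : ℝ) 1 ×ˢ (ball (0 : ℂ) 1 \ {0})) := fun q => ⟨q.1.2, hcm q.2⟩
      have hcc := ContinuousOn.comp_continuous (BB_cont hc hd hp) e2 hm
      exact hcc
    have e3 : Continuous (fun q : (Ioo (0 : ℝ) 1) × ℝ => circleMap 0 (1 / 2) q.2) :=
      (continuous_circleMap 0 (1 / 2)).comp continuous_snd
    have e4 : Continuous (fun q : (Ioo (0 : ℝ) 1) × ℝ =>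
        1 / (circleMap 0 (1 / 2) q.2 - 0) ^ (n + 1)) := by
      refine Continuous.div continuous_const (by fun_prop) ?_
      intro q
      rw [sub_zero]
      exact pow_ne_zero _ (hcm q.2).2
    simp only [Function.uncurry_def, deriv_circleMap, smul_eq_mul]
    exact ((e3.mul continuous_const).mul (e4.mul e1))
  exact (h2.const_smul ((2 * Real.pi * I)⁻¹ : ℂ)).congr (fun x hx => by
    rw [h1 x hx]; rfl)

end Osc

end Pool.Agent.T05
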