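import Pool.Agent.Lib.MP_0162a5_an.E3d

/-! Module E3, part e: the mean oscillation of `BB` tends to zero. -/

set_option autoImplicit false

open Complex Metric Set Filter Topology MeasureTheory

namespace Pool.Agent.T05.Osc

variable {G : ℝ → ℂ → ℂ}

/-- the terms of the mean oscillation -/
noncomputable def TT' (G : ℝ → ℂ → ℂ) (ζ : ℂ) (ξ r : ℝ) (n : ℕ) (x : ℝ) : ENNReal :=
  ‖bb (G (x + ξ * Real.sqrt (1 - r))) n * (mob r ζ) ^ n - bb (G x) n * (r : ℂ) ^ n‖ₑ ^ (2 : ℕ)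

theorem shift_mem {ξ r : ℝ} (h : |ξ * Real.sqrt (1 - r)| ≤ 1 / 8) {x : ℝ}
    (hx : x ∈ Icc (1 / 4 : ℝ) (3 / 4)) : x + ξ * Real.sqrt (1 - r) ∈ Icc (1 / 8 : ℝ) (7 / 8) := by
  rw [abs_le] at h
  exact ⟨by linarith [hx.1, h.1], by linarith [hx.2, h.2]⟩

theorem Icc_sub1 : Icc (1 / 8 : ℝ) (7 / 8) ⊆ Ioo 0 1 := by
  intro x hx
  exact ⟨by linarith [hx.1], by linarith [hx.2]⟩

theorem Icc_sub2 : Icc (1 / 4 : ℝ) (3 / 4) ⊆ Ioo 0 1 := by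
  intro x hx
  exact ⟨by linarith [hx.1], by linarith [hx.2]⟩

theorem shift_tendsto (ξ : ℝ) : Tendsto (fun r : ℝ => ξ * Real.sqrt (1 - r)) (𝓝[<] 1) (𝓝 0) := by
  have h : Continuous (fun r : ℝ => ξ * Real.sqrt (1 - r)) := by fun_prop
  have h2 := h.tendsto 1
  simp only [sub_self, Real.sqrt_zero, mul_zero] at h2
  exact h2.mono_left nhdsWithin_le_nhds

theorem shift_eventually (ξ : ℝ) : ∀ᶠ r : ℝ in 𝓝[<] 1, |ξ * Real.sqrt (1 - r)| ≤ 1 / 8 := by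
  have h := shift_tendsto ξ
  have h2 := (Metric.tendsto_nhds.1 h) (1 / 8) (by norm_num)
  filter_upwards [h2] with r hr
  rw [Real.dist_eq, sub_zero] at hr
  exact hr.le

theorem Ioo_eventually : ∀ᶠ r : ℝ in 𝓝[<] 1, r ∈ Ioo (0 : ℝ) 1 := Ioo_mem_nhdsLT (by norm_num)

theorem TT_cont (hc : ContinuousOn (fun q : ℝ × ℂ => G q.1 q.2) (Ioo 0 1 ×ˢ ball 0 1))
    (hd : ∀ x ∈ Ioo (0 : ℝ) 1, DifferentiableOn ℂ (G x) (ball 0 1))
    (hp : ∀ x ∈ Ioo (0 : ℝ) 1, ∀ w ∈ ball (0 : ℂ) 1, w ≠ 0 → 0 ≤ (herg (G x) w).re)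
    (ζ : ℂ) {ξ r : ℝ} (h : |ξ * Real.sqrt (1 - r)| ≤ 1 / 8) (n : ℕ) :
    ContinuousOn (TT' G ζ ξ r n) (Icc (1 / 4 : ℝ) (3 / 4)) := by
  unfold TT'
  have h1 : ContinuousOn (fun x => bb (G x) n) (Icc (1 / 4 : ℝ) (3 / 4)) :=
    (bb_cont hc hd hp n).mono Icc_sub2
  have h2 : ContinuousOn (fun x => bb (G (x + ξ * Real.sqrt (1 - r))) n)
      (Icc (1 / 4 : ℝ) (3 / 4)) := by
    have h3 : ContinuousOn (fun x : ℝ => x + ξ * Real.sqrt (1 - r)) (Icc (1 / 4 : ℝ) (3 / 4)) := by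
      fun_prop
    exact (bb_cont hc hd hp n).comp h3 (fun x hx => Icc_sub1 (shift_mem h hx))
  have h4 := (h2.mul_const ((mob r ζ) ^ n)).sub (h1.mul_const ((r : ℂ) ^ n))
  exact (ENNReal.continuous_pow 2).comp_continuousOn (continuous_enorm.comp_continuousOn h4)

theorem bb_sq_le_one (hd : ∀ x ∈ Ioo (0 : ℝ) 1, DifferentiableOn ℂ (G x) (ball 0 1))
    (hp : ∀ x ∈ Ioo (0 : ℝ) 1, ∀ w ∈ ball (0 : ℂ) 1, w ≠ 0 → 0 ≤ (herg (G x) w).re) {x : ℝ}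
    (hx : x ∈ Ioo (0 : ℝ) 1) (n : ℕ) : ‖bb (G x) n‖ₑ ^ (2 : ℕ) ≤ 1 :=
  (ENNReal.le_tsum n).trans (tsum_bb_le (hd x hx) (hp x hx))

theorem mul_pow_enorm_le (u z : ℂ) (hz : ‖z‖ ≤ 1) (n : ℕ) :
    ‖u * z ^ n‖ₑ ^ (2 : ℕ) ≤ ‖u‖ₑ ^ (2 : ℕ) := by
  gcongr
  rw [enorm_mul]
  have : ‖z ^ n‖ₑ ≤ 1 := by
    rw [← ofReal_norm, norm_pow]
    exact ENNReal.ofReal_le_one.2 (pow_le_one₀ (norm_nonneg _) hz)
  calc ‖u‖ₑ * ‖z ^ n‖ₑ ≤ ‖u‖ₑ * 1 := by gcongr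
    _ = ‖u‖ₑ := mul_one _

theorem TT_le (ζ : ℂ) (hζ : ‖ζ‖ < 1) {ξ r : ℝ} (hr : r ∈ Ioo (0 : ℝ) 1) (n : ℕ) (x : ℝ) :
    TT' G ζ ξ r n x ≤ 2 * ‖bb (G (x + ξ * Real.sqrt (1 - r))) n‖ₑ ^ (2 : ℕ) +
      2 * ‖bb (G x) n‖ₑ ^ (2 : ℕ) := by
  unfold TT'
  refine (enorm_sub_sq_le _ _).trans ?_
  have h1 := mul_pow_enorm_le (bb (G (x + ξ * Real.sqrt (1 - r))) n) (mob r ζ)
    (mob_norm_lt hr.1 hr.2 hζ).le n
  have h2 := mul_pow_enorm_le (bb (G x) n) (r : ℂ) (by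
    rw [Complex.norm_real, Real.norm_of_nonneg hr.1.le]; exact hr.2.le) n
  gcongr

/-- the bound for the integral of a term -/
theorem int_TT_le (ζ : ℂ) (hζ : ‖ζ‖ < 1) {ξ r : ℝ} (hr : r ∈ Ioo (0 : ℝ) 1)
    (hc : ContinuousOn (fun q : ℝ × ℂ => G q.1 q.2) (Ioo 0 1 ×ˢ ball 0 1))
    (hd : ∀ x ∈ Ioo (0 : ℝ) 1, DifferentiableOn ℂ (G x) (ball 0 1))
    (hp : ∀ x ∈ Ioo (0 : ℝ) 1, ∀ w ∈ ball (0 : ℂ) 1, w ≠ 0 → 0 ≤ (herg (G x) w).re)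
    (h : |ξ * Real.sqrt (1 - r)| ≤ 1 / 8) (n : ℕ) :
    ∫⁻ x in Icc (1 / 4 : ℝ) (3 / 4), TT' G ζ ξ r n x ≤
      4 * ∫⁻ x in Icc (1 / 8 : ℝ) (7 / 8), ‖bb (G x) n‖ₑ ^ (2 : ℕ) := by
  set F : ℝ → ENNReal := (Icc (1 / 8 : ℝ) (7 / 8)).indicator
    (fun x => ‖bb (G x) n‖ₑ ^ (2 : ℕ)) with hF
  have hcont : ContinuousOn (fun x => ‖bb (G x) n‖ₑ ^ (2 : ℕ)) (Icc (1 / 8 : ℝ) (7 / 8)) :=
    (ENNReal.continuous_pow 2).comp_continuousOn (continuous_enorm.comp_continuousOn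
      ((bb_cont hc hd hp n).mono Icc_sub1))
  have hFm : AEMeasurable F := by
    rw [hF, aemeasurable_indicator_iff measurableSet_Icc]
    exact hcont.aemeasurable measurableSet_Icc
  have hFi : ∫⁻ x, F x = ∫⁻ x in Icc (1 / 8 : ℝ) (7 / 8), ‖bb (G x) n‖ₑ ^ (2 : ℕ) := by
    rw [hF, lintegral_indicator measurableSet_Icc]
  have h1 : ∫⁻ x in Icc (1 / 4 : ℝ) (3 / 4), TT' G ζ ξ r n x ≤
      ∫⁻ x, (2 * F (x + ξ * Real.sqrt (1 - r)) + 2 * F x) := by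
    refine (lintegral_mono_ae ?_).trans (setLIntegral_le_lintegral (Icc (1 / 4 : ℝ) (3 / 4)) _)
    refine (ae_restrict_iff' measurableSet_Icc).2 (Filter.Eventually.of_forall (fun x hx => ?_))
    refine (TT_le ζ hζ hr n x).trans (le_of_eq ?_)
    have e1 : F (x + ξ * Real.sqrt (1 - r)) =
        ‖bb (G (x + ξ * Real.sqrt (1 - r))) n‖ₑ ^ (2 : ℕ) := by
      rw [hF, indicator_of_mem (shift_mem h hx)]
    have e2 : F x = ‖bb (G x) n‖ₑ ^ (2 : ℕ) := by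
      rw [hF, indicator_of_mem]
      exact ⟨by linarith [hx.1], by linarith [hx.2]⟩
    rw [e1, e2]
  refine h1.trans (le_of_eq ?_)
  rw [lintegral_add_right' _ (hFm.const_mul 2), lintegral_const_mul'' _ hFm,
    lintegral_const_mul' _ _ (by simp)]
  rw [lintegral_add_right_eq_self (μ := volume) F (ξ * Real.sqrt (1 - r)), hFi, ← add_mul]
  norm_num

theorem int_TT_tendsto (ζ : ℂ) (hζ : ‖ζ‖ < 1) (ξ : ℝ)
    (hc : ContinuousOn (fun q : ℝ × ℂ => G q.1 q.2) (Ioo 0 1 ×ˢ ball 0 1))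
    (hd : ∀ x ∈ Ioo (0 : ℝ) 1, DifferentiableOn ℂ (G x) (ball 0 1))
    (hp : ∀ x ∈ Ioo (0 : ℝ) 1, ∀ w ∈ ball (0 : ℂ) 1, w ≠ 0 → 0 ≤ (herg (G x) w).re) (n : ℕ) :
    Tendsto (fun r : ℝ => ∫⁻ x in Icc (1 / 4 : ℝ) (3 / 4), TT' G ζ ξ r n x) (𝓝[<] 1) (𝓝 0) := by
  have h := tendsto_lintegral_filter_of_dominated_convergence'
    (μ := volume.restrict (Icc (1 / 4 : ℝ) (3 / 4))) (l := 𝓝[<] (1 : ℝ))
    (F := fun r x => TT' G ζ ξ r n x) (f := fun _ => 0) (fun _ => 4) ?_ ?_ ?_ ?_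
  · simpa using h
  · filter_upwards [shift_eventually ξ] with r hr
    exact (TT_cont hc hd hp ζ hr n).aemeasurable measurableSet_Icc
  · filter_upwards [shift_eventually ξ, Ioo_eventually] with r hr hr2
    refine (ae_restrict_iff' measurableSet_Icc).2 (Filter.Eventually.of_forall (fun x hx => ?_))
    refine (TT_le ζ hζ hr2 n x).trans ?_
    have e1 := bb_sq_le_one hd hp (Icc_sub1 (shift_mem hr hx)) n
    have e2 := bb_sq_le_one hd hp (Icc_sub2 hx) n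
    calc 2 * ‖bb (G (x + ξ * Real.sqrt (1 - r))) n‖ₑ ^ (2 : ℕ) + 2 * ‖bb (G x) n‖ₑ ^ (2 : ℕ)
        ≤ 2 * 1 + 2 * 1 := by gcongr
      _ = 4 := by norm_num
  · rw [lintegral_const]
    refine ENNReal.mul_ne_top (by simp) ?_
    simp
  · refine (ae_restrict_iff' measurableSet_Icc).2 (Filter.Eventually.of_forall (fun x hx => ?_))
    have hx' := Icc_sub2 hx
    have hb : ContinuousAt (fun x => bb (G x) n) x :=
      (bb_cont hc hd hp n).continuousAt (isOpen_Ioo.mem_nhds hx')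
    have hs : Tendsto (fun r : ℝ => x + ξ * Real.sqrt (1 - r)) (𝓝[<] 1) (𝓝 x) := by
      have := (shift_tendsto ξ).const_add x
      rwa [add_zero] at this
    have h1 : Tendsto (fun r : ℝ => bb (G (x + ξ * Real.sqrt (1 - r))) n) (𝓝[<] 1)
        (𝓝 (bb (G x) n)) := Tendsto.comp (y := 𝓝 x) (g := fun x => bb (G x) n) hb.tendsto hs
    have h2 : Tendsto (fun r : ℝ => (mob r ζ) ^ n) (𝓝[<] 1) (𝓝 (1 ^ n)) :=
      (mob_tendsto hζ).pow n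
    have h3 : Tendsto (fun r : ℝ => (r : ℂ) ^ n) (𝓝[<] 1) (𝓝 (((1 : ℝ) : ℂ) ^ n)) := by
      have : Continuous (fun r : ℝ => (r : ℂ) ^ n) := by fun_prop
      exact (this.tendsto 1).mono_left nhdsWithin_le_nhds
    have h4 : Tendsto (fun r : ℝ => bb (G (x + ξ * Real.sqrt (1 - r))) n * (mob r ζ) ^ n -
        bb (G x) n * (r : ℂ) ^ n) (𝓝[<] 1) (𝓝 0) := by
      have := (h1.mul h2).sub (h3.const_mul (bb (G x) n))
      simpa using this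
    have h5 : Tendsto (fun r : ℝ => ‖bb (G (x + ξ * Real.sqrt (1 - r))) n * (mob r ζ) ^ n -
        bb (G x) n * (r : ℂ) ^ n‖ₑ ^ (2 : ℕ)) (𝓝[<] 1) (𝓝 (‖(0 : ℂ)‖ₑ ^ (2 : ℕ))) :=
      (((ENNReal.continuous_pow 2).comp continuous_enorm).tendsto 0).comp h4
    simpa [TT'] using h5

theorem osc_tendsto (ζ : ℂ) (hζ : ‖ζ‖ < 1) (ξ : ℝ)
    (hc : ContinuousOn (fun q : ℝ × ℂ => G q.1 q.2) (Ioo 0 1 ×ˢ ball 0 1))
    (hd : ∀ x ∈ Ioo (0 : ℝ) 1, DifferentiableOn ℂ (G x) (ball 0 1))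
    (hp : ∀ x ∈ Ioo (0 : ℝ) 1, ∀ w ∈ ball (0 : ℂ) 1, w ≠ 0 → 0 ≤ (herg (G x) w).re) :
    Tendsto (fun r : ℝ => ∫⁻ x in Icc (1 / 4 : ℝ) (3 / 4), ∑' n, TT' G ζ ξ r n x)
      (𝓝[<] 1) (𝓝 0) := by
  have h := tendsto_lintegral_filter_of_dominated_convergence
    (μ := (Measure.count : Measure ℕ)) (l := 𝓝[<] (1 : ℝ))
    (F := fun r n => ∫⁻ x in Icc (1 / 4 : ℝ) (3 / 4), TT' G ζ ξ r n x) (f := fun _ => 0)
    (fun n => 4 * ∫⁻ x in Icc (1 / 8 : ℝ) (7 / 8), ‖bb (G x) n‖ₑ ^ (2 : ℕ)) ?_ ?_ ?_ ?_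
  · simp only [lintegral_count] at h
    rw [tsum_zero] at h
    refine h.congr' ?_
    filter_upwards [shift_eventually ξ] with r hr
    rw [lintegral_tsum]
    intro n
    exact (TT_cont hc hd hp ζ hr n).aemeasurable measurableSet_Icc
  · exact Filter.Eventually.of_forall (fun r => measurable_from_top)
  · filter_upwards [shift_eventually ξ, Ioo_eventually] with r hr hr2
    exact Filter.Eventually.of_forall (fun n => int_TT_le ζ hζ hr2 hc hd hp hr n)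
  · rw [lintegral_count, ENNReal.tsum_mul_left, ← lintegral_tsum]
    · refine ENNReal.mul_ne_top (by simp) ?_
      have h1 : ∫⁻ x in Icc (1 / 8 : ℝ) (7 / 8), ∑' n, ‖bb (G x) n‖ₑ ^ (2 : ℕ) ≤
          ∫⁻ _ in Icc (1 / 8 : ℝ) (7 / 8), 1 := by
        refine lintegral_mono_ae ?_
        refine (ae_restrict_iff' measurableSet_Icc).2
          (Filter.Eventually.of_forall (fun x hx => ?_))
        exact tsum_bb_le (hd x (Icc_sub1 hx)) (hp x (Icc_sub1 hx))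
      refine ne_top_of_le_ne_top ?_ h1
      simp
    · intro n
      exact ContinuousOn.aemeasurable ((ENNReal.continuous_pow 2).comp_continuousOn
        (continuous_enorm.comp_continuousOn ((bb_cont hc hd hp n).mono Icc_sub1)))
        measurableSet_Icc
  · exact Filter.Eventually.of_forall (fun n => int_TT_tendsto ζ hζ ξ hc hd hp n)

end Pool.Agent.T05.Osc
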