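import Pool.Agent.Lib.MP_0162a5_an.E3e

/-! Module E3, part f: from the convergence of `BB` to the convergence of `G`. -/

set_option autoImplicit false

open Complex Metric Set Filter Topology MeasureTheory

namespace Pool.Agent.T05.Osc

variable {G : ℝ → ℂ → ℂ}

theorem circ_hasSum (hd : ∀ x ∈ Ioo (0 : ℝ) 1, DifferentiableOn ℂ (G x) (ball 0 1))
    (hp : ∀ x ∈ Ioo (0 : ℝ) 1, ∀ w ∈ ball (0 : ℂ) 1, w ≠ 0 → 0 ≤ (herg (G x) w).re) {x : ℝ}
    (hx : x ∈ Ioo (0 : ℝ) 1) {z : ℂ} (hz : ‖z‖ < 1) (θ : ℝ) :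
    HasSum (fun n => (bb (G x) n * z ^ n) * exp (θ * I) ^ n) (BB (G x) (exp (θ * I) * z)) := by
  have hm : exp (θ * I) * z ∈ ball (0 : ℂ) 1 := by
    rw [mem_ball_zero_iff, norm_mul, Complex.norm_exp_ofReal_mul_I, one_mul]
    exact hz
  refine (hasSum_bb (hd x hx) (hp x hx) hm).congr_fun ?_
  intro n
  rw [mul_pow]
  ring

theorem circ_cont' (hd : ∀ x ∈ Ioo (0 : ℝ) 1, DifferentiableOn ℂ (G x) (ball 0 1))
    (hp : ∀ x ∈ Ioo (0 : ℝ) 1, ∀ w ∈ ball (0 : ℂ) 1, w ≠ 0 → 0 ≤ (herg (G x) w).re) {x : ℝ}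
    (hx : x ∈ Ioo (0 : ℝ) 1) {z : ℂ} (hz : ‖z‖ < 1) :
    Continuous (fun θ : ℝ => BB (G x) (exp (θ * I) * z)) := by
  have hcc := ContinuousOn.comp_continuous (f := fun θ : ℝ => exp (θ * I) * z)
    (BB_diff (hd x hx) (hp x hx)).continuousOn (by fun_prop) (fun θ => by
      rw [mem_ball_zero_iff, norm_mul, Complex.norm_exp_ofReal_mul_I, one_mul]
      exact hz)
  exact hcc

/-- Markov inequality for the differences. -/
theorem diff_meas (hd : ∀ x ∈ Ioo (0 : ℝ) 1, DifferentiableOn ℂ (G x) (ball 0 1))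
    (hp : ∀ x ∈ Ioo (0 : ℝ) 1, ∀ w ∈ ball (0 : ℂ) 1, w ≠ 0 → 0 ≤ (herg (G x) w).re)
    {ζ : ℂ} (hζ : ‖ζ‖ < 1) {ξ r : ℝ} (hr : r ∈ Ioo (0 : ℝ) 1)
    (h : |ξ * Real.sqrt (1 - r)| ≤ 1 / 8) {x : ℝ} (hx : x ∈ Icc (1 / 4 : ℝ) (3 / 4)) {η : ℝ}
    (hη : 0 < η) :
    ENNReal.ofReal (η ^ 2) * volume {θ : ℝ | θ ∈ Icc 0 (2 * Real.pi) ∧
      η < ‖BB (G (x + ξ * Real.sqrt (1 - r))) (exp (θ * I) * mob r ζ) -
        BB (G x) (r * exp (θ * I))‖} ≤
      ENNReal.ofReal (2 * Real.pi) * ∑' n, TT' G ζ ξ r n x := by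
  set x' := x + ξ * Real.sqrt (1 - r) with hx'
  have hx1 := Icc_sub2 hx
  have hx2 : x' ∈ Ioo (0 : ℝ) 1 := Icc_sub1 (shift_mem h hx)
  have hm := mob_norm_lt hr.1 hr.2 hζ
  have hrn : ‖(r : ℂ)‖ < 1 := by
    rw [Complex.norm_real, Real.norm_of_nonneg hr.1.le]; exact hr.2
  set f : ℝ → ℂ := fun θ => BB (G x') (exp (θ * I) * mob r ζ) - BB (G x) (exp (θ * I) * r) with hf
  have hfc : Continuous f := (circ_cont' hd hp hx2 hm).sub (circ_cont' hd hp hx1 hrn)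
  have hs : ∀ θ : ℝ, HasSum (fun n => (bb (G x') n * (mob r ζ) ^ n - bb (G x) n * (r : ℂ) ^ n) *
      exp (θ * I) ^ n) (f θ) := by
    intro θ
    have := (circ_hasSum hd hp hx2 hm θ).sub (circ_hasSum hd hp hx1 hrn θ)
    refine this.congr_fun ?_
    intro n
    ring
  have hpars := lintegral_circle_sq hfc hs
  have hmk := mul_meas_ge_le_lintegral₀ (μ := volume.restrict (Icc 0 (2 * Real.pi)))
    (f := fun θ => ‖f θ‖ₑ ^ (2 : ℕ)) (by
      have : Continuous (fun θ => ‖f θ‖ₑ ^ (2 : ℕ)) :=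
        (ENNReal.continuous_pow 2).comp (continuous_enorm.comp hfc)
      exact this.measurable.aemeasurable) (ENNReal.ofReal (η ^ 2))
  have hII : ∫⁻ θ in Icc 0 (2 * Real.pi), ‖f θ‖ₑ ^ (2 : ℕ) =
      ∫⁻ θ in Ioc 0 (2 * Real.pi), ‖f θ‖ₑ ^ (2 : ℕ) := by
    rw [Measure.restrict_congr_set Ioc_ae_eq_Icc]
  rw [hII, hpars] at hmk
  refine le_trans ?_ hmk
  refine mul_le_mul_right ?_ _
  rw [Measure.restrict_apply' measurableSet_Icc]
  refine measure_mono (fun θ hθ => ⟨?_, hθ.1⟩)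
  have h1 : η < ‖f θ‖ := by
    have := hθ.2
    rw [mul_comm (r : ℂ)] at this
    exact this
  change ENNReal.ofReal (η ^ 2) ≤ ‖f θ‖ₑ ^ (2 : ℕ)
  rw [← ofReal_norm, ← ENNReal.ofReal_pow (norm_nonneg _)]
  refine ENNReal.ofReal_le_ofReal ?_
  gcongr

theorem bdd_mul_tendsto {u v : ℕ → ℂ} (hu : Tendsto u atTop (𝓝 0)) {C : ℝ}
    (hv : ∀ n, ‖v n‖ ≤ C) : Tendsto (fun n => u n * v n) atTop (𝓝 0) := by
  refine squeeze_zero_norm (a := fun n => ‖u n‖ * C) (fun n => ?_) ?_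
  · rw [norm_mul]
    gcongr
    exact hv n
  · have := hu.norm.mul_const C
    simpa using this

theorem final_conv (hc : ContinuousOn (fun q : ℝ × ℂ => G q.1 q.2) (Ioo 0 1 ×ˢ ball 0 1))
    (hd : ∀ x ∈ Ioo (0 : ℝ) 1, DifferentiableOn ℂ (G x) (ball 0 1))
    (hp : ∀ x ∈ Ioo (0 : ℝ) 1, ∀ w ∈ ball (0 : ℂ) 1, w ≠ 0 → 0 ≤ (herg (G x) w).re)
    {ζ : ℂ} (hζ : ‖ζ‖ < 1) {ξ : ℝ} {r θ x : ℕ → ℝ} (hr : ∀ n, 0 < r n ∧ r n < 1)
    (hr1 : Tendsto r atTop (𝓝 1)) (hx : ∀ n, x n ∈ Icc (1 / 4 : ℝ) (3 / 4)) {R1 : ℝ}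
    (hR1 : ∀ n, ‖1 + PP (G (x n)) (r n * exp (θ n * I))‖ ≤ R1)
    (hB : Tendsto (fun n => BB (G (x n + ξ * Real.sqrt (1 - r n))) (exp (θ n * I) * mob (r n) ζ) -
      BB (G (x n)) (r n * exp (θ n * I))) atTop (𝓝 0)) :
    Tendsto (fun n => G (x n + ξ * Real.sqrt (1 - r n)) (exp (θ n * I) * mob (r n) ζ) -
      G (x n) (r n * exp (θ n * I))) atTop (𝓝 0) := by
  have hrl : Tendsto r atTop (𝓝[<] 1) := by
    rw [tendsto_nhdsWithin_iff]
    exact ⟨hr1, Filter.Eventually.of_forall (fun n => (hr n).2)⟩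
  -- the shift
  have hs : Tendsto (fun n => ξ * Real.sqrt (1 - r n)) atTop (𝓝 0) := (shift_tendsto ξ).comp hrl
  have hse : ∀ᶠ n in atTop, |ξ * Real.sqrt (1 - r n)| ≤ 1 / 8 := hrl.eventually (shift_eventually ξ)
  -- alpha
  have hac : ContinuousOn (fun x => G x 0) (Icc (1 / 8 : ℝ) (7 / 8)) :=
    (alpha_cont hc (mem_ball_self one_pos)).mono Icc_sub1
  have huc := (isCompact_Icc (a := (1 / 8 : ℝ)) (b := 7 / 8)).uniformContinuousOn_of_continuous hac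
  obtain ⟨A, hA⟩ := (isCompact_Icc (a := (1 / 8 : ℝ)) (b := 7 / 8)).exists_bound_of_continuousOn hac
  have hAn : ∀ n, ‖G (x n) 0‖ ≤ A := fun n => hA _ ⟨by linarith [(hx n).1], by linarith [(hx n).2]⟩
  set a' : ℕ → ℂ := fun n => G (x n + ξ * Real.sqrt (1 - r n)) 0 with ha'
  set a : ℕ → ℂ := fun n => G (x n) 0 with ha
  have haa : Tendsto (fun n => a' n - a n) atTop (𝓝 0) := by
    rw [Metric.tendsto_nhds]
    intro ε hε
    obtain ⟨δ, hδ, hδ2⟩ := Metric.uniformContinuousOn_iff.1 huc ε hε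
    have h1 := (Metric.tendsto_nhds.1 hs) δ hδ
    filter_upwards [h1, hse] with n hn hn2
    rw [dist_zero_right]
    have h3 := hδ2 _ (shift_mem hn2 (hx n)) (x n) ⟨by linarith [(hx n).1], by linarith [(hx n).2]⟩
      (by
        rw [Real.dist_eq] at hn ⊢
        rw [sub_zero] at hn
        rw [add_sub_cancel_left]
        exact hn)
    rw [dist_eq_norm] at h3
    exact h3
  -- the points
  set w' : ℕ → ℂ := fun n => exp (θ n * I) * mob (r n) ζ with hw'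
  set w : ℕ → ℂ := fun n => r n * exp (θ n * I) with hw
  have hmob : Tendsto (fun n => mob (r n) ζ) atTop (𝓝 1) := (mob_tendsto hζ).comp hrl
  have hww : Tendsto (fun n => w' n - w n) atTop (𝓝 0) := by
    have h1 : Tendsto (fun n => mob (r n) ζ - (r n : ℂ)) atTop (𝓝 0) := by
      have h2 : Tendsto (fun n => (r n : ℂ)) atTop (𝓝 ((1 : ℝ) : ℂ)) :=
        (Complex.continuous_ofReal.tendsto 1).comp hr1
      have := hmob.sub h2
      simpa using this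
    have h2 := bdd_mul_tendsto (v := fun n => exp (θ n * I)) (C := 1) h1 (fun n => by
      rw [Complex.norm_exp_ofReal_mul_I])
    refine h2.congr ?_
    intro n
    simp only [hw', hw]
    ring
  have hwn : ∀ n, ‖w n‖ ≤ 1 := fun n => by
    have := exp_mem_ball (hr n).1.le (hr n).2 (θ n)
    rw [mem_ball_zero_iff] at this
    exact this.le
  have hw'n : ∀ n, ‖w' n‖ ≤ 1 := fun n => by
    simp only [hw']
    rw [norm_mul, Complex.norm_exp_ofReal_mul_I, one_mul]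
    exact (mob_norm_lt (hr n).1 (hr n).2 hζ).le
  -- the Q's
  set B' : ℕ → ℂ := fun n => BB (G (x n + ξ * Real.sqrt (1 - r n))) (w' n) with hB'
  set B : ℕ → ℂ := fun n => BB (G (x n)) (w n) with hB0
  have hBne : ∀ n, B n ≠ 0 := fun n => by
    simp only [hB0, BB]
    exact inv_ne_zero (ne_zero' (hd _ (Icc_sub2 (hx n))) (hp _ (Icc_sub2 (hx n)))
      (exp_mem_ball (hr n).1.le (hr n).2 (θ n)))
  have hQ : ∀ n, ‖(B n)⁻¹‖ ≤ R1 := fun n => by
    simp only [hB0, BB, inv_inv]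
    exact hR1 n
  have hδ : Tendsto (fun n => B' n - B n) atTop (𝓝 0) := hB
  have hQδ : Tendsto (fun n => (B' n - B n) * (B n)⁻¹) atTop (𝓝 0) := bdd_mul_tendsto hδ hQ
  have hQ1 : Tendsto (fun n => (1 + (B' n - B n) * (B n)⁻¹)⁻¹ - 1) atTop (𝓝 0) := by
    have h1 := (hQδ.const_add 1).inv₀ (by simp)
    have h2 := h1.sub_const 1
    simpa using h2
  have hQQ : Tendsto (fun n => (B' n)⁻¹ - (B n)⁻¹) atTop (𝓝 0) := by
    refine (bdd_mul_tendsto hQ1 hQ).congr (fun n => ?_)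
    have h1 : B' n = B n * (1 + (B' n - B n) * (B n)⁻¹) := by
      have := hBne n
      field_simp
      ring
    have h2 : (B' n)⁻¹ = (B n)⁻¹ * (1 + (B' n - B n) * (B n)⁻¹)⁻¹ := by
      rw [← mul_inv, ← h1]
    rw [h2]
    ring
  -- assemble
  have t1 := haa
  have t2 : Tendsto (fun n => (starRingEnd ℂ) (a' n - a n) * (w' n) ^ 2) atTop (𝓝 0) := by
    have h1 : Tendsto (fun n => (starRingEnd ℂ) (a' n - a n)) atTop (𝓝 0) := by
      have := (Complex.continuous_conj.tendsto 0).comp haa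
      rw [map_zero] at this
      exact this
    refine bdd_mul_tendsto (C := 1) h1 (fun n => ?_)
    rw [norm_pow]
    exact pow_le_one₀ (norm_nonneg _) (hw'n n)
  have t3 : Tendsto (fun n => (w' n - w n) * ((starRingEnd ℂ) (a n) * (w' n + w n))) atTop
      (𝓝 0) := by
    refine bdd_mul_tendsto (C := A * 2) hww (fun n => ?_)
    rw [norm_mul, RCLike.norm_conj]
    have h1 : ‖w' n + w n‖ ≤ 2 := (norm_add_le _ _).trans (by linarith [hwn n, hw'n n])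
    have h2 : ‖a n‖ ≤ A := hAn n
    have h3 : 0 ≤ A := (norm_nonneg _).trans h2
    gcongr
  have t4 : Tendsto (fun n => ((B' n)⁻¹ - (B n)⁻¹) * w' n) atTop (𝓝 0) :=
    bdd_mul_tendsto hQQ hw'n
  have t5 : Tendsto (fun n => (w' n - w n) * ((B n)⁻¹ - 1)) atTop (𝓝 0) := by
    refine bdd_mul_tendsto (C := R1 + 1) hww (fun n => ?_)
    refine (norm_sub_le _ _).trans ?_
    rw [norm_one]
    linarith [hQ n]
  have tt := (((t1.sub t2).sub t3).sub t4).sub t5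
  simp only [sub_zero] at tt
  refine tt.congr (fun n => ?_)
  have e1 := G_eq (G (x n + ξ * Real.sqrt (1 - r n))) (w' n)
  have e2 := G_eq (G (x n)) (w n)
  have e3 : BB (G (x n + ξ * Real.sqrt (1 - r n))) (w' n) = B' n := rfl
  have e4 : BB (G (x n)) (w n) = B n := rfl
  have e5 : G (x n + ξ * Real.sqrt (1 - r n)) 0 = a' n := rfl
  have e6 : G (x n) 0 = a n := rfl
  rw [e3, e5] at e1
  rw [e4, e6] at e2
  rw [e1, e2, map_sub]
  ring

end Pool.Agent.T05.Osc
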