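import Pool.Agent.Lib.MP_0162a5_an.E3

/-! Part of MODULE E4: algebra of Moebius maps, `Gam2`, ultrafilter limits. -/

set_option autoImplicit false

open Complex Metric Set Filter Topology

namespace Pool.Agent.T05.E4

theorem ne_one_of_ball {w : ℂ} (hw : w ∈ ball (0 : ℂ) 1) : w ≠ 1 := by
  rintro rfl
  simp at hw

theorem one_sub_ne {w : ℂ} (hw : w ∈ ball (0 : ℂ) 1) : 1 - w ≠ 0 :=
  sub_ne_zero.2 (Ne.symm (ne_one_of_ball hw))

theorem cay_im {w : ℂ} (hw : w ∈ ball (0 : ℂ) 1) :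
    (cay w).im = (1 - ‖w‖ ^ 2) / ‖1 - w‖ ^ 2 := by
  have h1 : 1 - w ≠ 0 := one_sub_ne hw
  have h2 : normSq (1 - w) ≠ 0 := by simpa [normSq_eq_zero] using h1
  have e1 : ‖w‖ ^ 2 = w.re * w.re + w.im * w.im := by
    rw [← normSq_eq_norm_sq, normSq_apply]
  have e2 : ‖1 - w‖ ^ 2 = normSq (1 - w) := by
    rw [← normSq_eq_norm_sq]
  rw [e1, e2, cay, div_im]
  simp only [mul_re, mul_im, I_re, I_im, add_re, add_im, one_re, one_im, sub_re, sub_im]
  field_simp
  ring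

theorem norm_lt_of_ball {w : ℂ} (hw : w ∈ ball (0 : ℂ) 1) : ‖w‖ < 1 := by
  simpa using hw

theorem one_sub_sq_pos {w : ℂ} (hw : w ∈ ball (0 : ℂ) 1) : 0 < 1 - ‖w‖ ^ 2 := by
  have := norm_lt_of_ball hw
  nlinarith [norm_nonneg w]

theorem cay_mem {w : ℂ} (hw : w ∈ ball (0 : ℂ) 1) : cay w ∈ HH := by
  show 0 < (cay w).im
  rw [cay_im hw]
  have h1 : 0 < ‖1 - w‖ := norm_pos_iff.2 (one_sub_ne hw)
  exact div_pos (one_sub_sq_pos hw) (by positivity)

theorem cay_diff : DifferentiableOn ℂ cay (ball 0 1) := by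
  intro w hw
  have h1 : 1 - w ≠ 0 := one_sub_ne hw
  unfold cay
  exact (((differentiableAt_const _).mul ((differentiableAt_const _).add
    differentiableAt_id)).div ((differentiableAt_const _).sub differentiableAt_id)
      h1).differentiableWithinAt

theorem cay_cont : ContinuousOn cay (ball 0 1) := cay_diff.continuousOn

theorem HH_isOpen : IsOpen HH := isOpen_lt continuous_const Complex.continuous_im

theorem HH_convex : Convex ℝ HH := by
  intro x hx y hy a b ha hb hab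
  simp only [HH, mem_ofPred_eq] at *
  simp only [add_im, real_smul, mul_im, ofReal_re, ofReal_im, zero_mul, add_zero]
  rcases eq_or_lt_of_le ha with h | h
  · have : b = 1 := by linarith
    subst this
    rw [← h]
    simpa using hy
  · have := mul_pos h hx
    have := mul_nonneg hb hy.le
    linarith

section Gam

variable {a b c d : ℤ}

theorem gam_den (h : Gam2 a b c d) {t : ℂ} (ht : t ∈ HH) : (c : ℂ) * t + d ≠ 0 := by
  intro h0
  have him : ((c : ℂ) * t + d).im = 0 := by rw [h0]; simp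
  have hre : ((c : ℂ) * t + d).re = 0 := by rw [h0]; simp
  simp at him hre
  have ht' : 0 < t.im := ht
  rcases him with hc | hc
  · subst hc
    simp at hre
    have := h.1
    rw [hre] at this
    simp at this
  · exact absurd hc ht'.ne'

theorem gam_im (h : Gam2 a b c d) {t : ℂ} (ht : t ∈ HH) :
    (((a : ℂ) * t + b) / (c * t + d)).im = t.im / ‖(c : ℂ) * t + d‖ ^ 2 := by
  have h1 := gam_den h ht
  have h2 : normSq ((c : ℂ) * t + d) ≠ 0 := by simpa [normSq_eq_zero] using h1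
  rw [← normSq_eq_norm_sq, div_im]
  have h3 : (a : ℝ) * d - b * c = 1 := by exact_mod_cast h.1
  simp only [mul_re, mul_im, add_re, add_im, intCast_re, intCast_im]
  field_simp
  linear_combination (t.im) * h3

theorem gam_mem (h : Gam2 a b c d) {t : ℂ} (ht : t ∈ HH) :
    ((a : ℂ) * t + b) / (c * t + d) ∈ HH := by
  show 0 < (((a : ℂ) * t + b) / (c * t + d)).im
  rw [gam_im h ht]
  have h1 : 0 < ‖(c : ℂ) * t + d‖ := norm_pos_iff.2 (gam_den h ht)
  exact div_pos ht (by positivity)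

theorem gam_det (h : Gam2 a b c d) : (a : ℂ) * d - b * c = 1 := by exact_mod_cast h.1

theorem gam_inj (h : Gam2 a b c d) {t t' : ℂ} (ht : t ∈ HH) (ht' : t' ∈ HH)
    (he : ((a : ℂ) * t + b) / (c * t + d) = (a * t' + b) / (c * t' + d)) : t = t' := by
  have h1 := gam_den h ht
  have h2 := gam_den h ht'
  rw [div_eq_div_iff h1 h2] at he
  have h3 := gam_det h
  linear_combination he - (t - t') * h3

theorem gam_WW (h : Gam2 a b c d) {t x : ℂ} (ht : t ∈ HH)
    (hw : (((a : ℂ) * t + b) / (c * t + d), x) ∈ WW) : (t, ((c : ℂ) * t + d) * x) ∈ WW := by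
  refine ⟨ht, fun k l hkl => ?_⟩
  have h1 := gam_den h ht
  have h3 := gam_det h
  refine hw.2 (a * k - b * l) (d * l - c * k) ?_
  simp only at hkl ⊢
  push_cast
  field_simp
  linear_combination hkl - (k + l * t) * h3

theorem lam_deriv_gam (D : ModularData) (h : Gam2 a b c d) {t : ℂ} (ht : t ∈ HH) :
    deriv D.lam (((a : ℂ) * t + b) / (c * t + d)) = (c * t + d) ^ 2 * deriv D.lam t := by
  have h1 := gam_den h ht
  have h3 := gam_det h
  have hg : HasDerivAt (fun t : ℂ => ((a : ℂ) * t + b) / (c * t + d)) (1 / (c * t + d) ^ 2) t := by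
    have e1 : HasDerivAt (fun t : ℂ => (a : ℂ) * t + b) a t := by
      simpa using ((hasDerivAt_id t).const_mul (a : ℂ)).add_const (b : ℂ)
    have e2 : HasDerivAt (fun t : ℂ => (c : ℂ) * t + d) c t := by
      simpa using ((hasDerivAt_id t).const_mul (c : ℂ)).add_const (d : ℂ)
    have e3 := e1.div e2 h1
    refine e3.congr_deriv ?_
    congr 1
    linear_combination h3
  have hl : HasDerivAt D.lam (deriv D.lam (((a : ℂ) * t + b) / (c * t + d)))
      (((a : ℂ) * t + b) / (c * t + d)) :=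
    ((D.lam_diff _ (gam_mem h ht)).differentiableAt (HH_isOpen.mem_nhds (gam_mem h ht))).hasDerivAt
  have hcomp := hl.comp t hg
  have hl' : HasDerivAt D.lam (deriv D.lam t) t :=
    ((D.lam_diff _ ht).differentiableAt (HH_isOpen.mem_nhds ht)).hasDerivAt
  have heq : (D.lam ∘ fun t : ℂ => ((a : ℂ) * t + b) / (c * t + d)) =ᶠ[𝓝 t] D.lam := by
    filter_upwards [HH_isOpen.mem_nhds ht] with s hs
    exact D.lam_inv a b c d h s hs
  have := (hcomp.congr_of_eventuallyEq heq.symm).unique hl'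
  rw [← this]
  generalize deriv D.lam (((a : ℂ) * t + b) / (c * t + d)) = X
  field_simp

/-- the automorphy factor of the disc coordinate -/
theorem cay_factor (h : Gam2 a b c d) {t w : ℂ} (ht : t ∈ HH) (hw : w ∈ ball (0 : ℂ) 1)
    (he : cay w = ((a : ℂ) * t + b) / (c * t + d)) :
    (c * t + d) / (1 - w) = (((a : ℂ) + I * c) * t + (b + I * d)) / (2 * I) := by
  have h1 := gam_den h ht
  have h2 := one_sub_ne hw
  have hI : (2 : ℂ) * I ≠ 0 := by simp
  unfold cay at he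
  rw [div_eq_div_iff h2 h1] at he
  rw [div_eq_div_iff h2 hI]
  linear_combination he

theorem cay_factor_norm (h : Gam2 a b c d) {t w : ℂ} (ht : t ∈ HH) (hw : w ∈ ball (0 : ℂ) 1)
    (he : cay w = ((a : ℂ) * t + b) / (c * t + d)) :
    ‖((a : ℂ) + I * c) * t + (b + I * d)‖ ^ 2 = 4 * t.im / (1 - ‖w‖ ^ 2) := by
  have h1 := gam_den h ht
  have h2 := one_sub_ne hw
  have hf := cay_factor h ht hw he
  have hI : (2 : ℂ) * I ≠ 0 := by simp
  have e1 : ((a : ℂ) + I * c) * t + (b + I * d) = 2 * I * ((c * t + d) / (1 - w)) := by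
    rw [hf]; field_simp
  have e2 : ‖((a : ℂ) + I * c) * t + (b + I * d)‖ ^ 2 =
      4 * (‖(c : ℂ) * t + d‖ ^ 2 / ‖1 - w‖ ^ 2) := by
    rw [e1, norm_mul, norm_div, norm_mul]
    simp
    ring
  have e3 := gam_im h ht
  rw [← he, cay_im hw] at e3
  have p1 : 0 < ‖(c : ℂ) * t + d‖ := norm_pos_iff.2 h1
  have p2 : 0 < ‖1 - w‖ := norm_pos_iff.2 h2
  have p3 := one_sub_sq_pos hw
  rw [e2]
  rw [div_eq_div_iff (by positivity) (by positivity)] at e3
  rw [mul_div_assoc', div_eq_div_iff (by positivity) (by positivity)]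
  linear_combination 4 * e3

theorem cay_factor_norm' (h : Gam2 a b c d) {t : ℂ} :
    ‖((a : ℂ) + I * c) * t + (b + I * d)‖ ^ 2 =
      ‖(a : ℂ) * t + b‖ ^ 2 + ‖(c : ℂ) * t + d‖ ^ 2 + 2 * t.im := by
  have h3 : (a : ℝ) * d - b * c = 1 := by exact_mod_cast h.1
  rw [← normSq_eq_norm_sq, ← normSq_eq_norm_sq, ← normSq_eq_norm_sq, normSq_apply, normSq_apply,
    normSq_apply]
  simp only [mul_re, mul_im, add_re, add_im, intCast_re, intCast_im, I_re, I_im]
  linear_combination (2 * t.im) * h3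

end Gam

/-- a compact set and an ultrafilter -/
theorem ultra_lim {ι α : Type*} [TopologicalSpace α] {K : Set α} (hK : IsCompact K)
    (l : Ultrafilter ι) (f : ι → α) (h : ∀ᶠ n in (l : Filter ι), f n ∈ K) :
    ∃ x ∈ K, Tendsto f (l : Filter ι) (𝓝 x) := by
  obtain ⟨x, hx, hle⟩ := hK.ultrafilter_le_nhds (l.map f) (le_principal_iff.2 h)
  exact ⟨x, hx, hle⟩

theorem ultra_lim_real {ι : Type*} (l : Ultrafilter ι) (f : ι → ℝ) (C : ℝ)
    (h : ∀ᶠ n in (l : Filter ι), |f n| ≤ C) :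
    ∃ x, |x| ≤ C ∧ Tendsto f (l : Filter ι) (𝓝 x) := by
  obtain ⟨x, hx, hle⟩ := ultra_lim (isCompact_closedBall (0 : ℝ) C) l f
    (h.mono fun n hn => by simpa using hn)
  exact ⟨x, by simpa using hx, hle⟩

/-- Moebius maps from the disc onto the upper half plane with `Mob t e 0 = t`. -/
noncomputable def Mob (t e ζ : ℂ) : ℂ := (t - (starRingEnd ℂ) t * e * ζ) / (1 - e * ζ)

theorem mob_mem {r : ℝ} (hr0 : 0 < r) (hr1 : r < 1) {ζ : ℂ} (hζ : ζ ∈ ball (0 : ℂ) 1) :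
    mob r ζ ∈ ball (0 : ℂ) 1 := by
  have h1 := norm_lt_of_ball hζ
  have hden : 1 + (r : ℂ) * ζ ≠ 0 := by
    intro h0
    have h2 : (r : ℂ) * ζ = -1 := by linear_combination h0
    have h3 : ‖(r : ℂ) * ζ‖ = 1 := by rw [h2]; simp
    rw [norm_mul, Complex.norm_real, Real.norm_eq_abs, abs_of_pos hr0] at h3
    nlinarith [norm_nonneg ζ]
  have hd : 0 < ‖1 + (r : ℂ) * ζ‖ := norm_pos_iff.2 hden
  rw [mem_ball_zero_iff, mob, norm_div, div_lt_one hd]
  have h4 : ‖ζ + r‖ ^ 2 < ‖1 + (r : ℂ) * ζ‖ ^ 2 := by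
    rw [← normSq_eq_norm_sq, ← normSq_eq_norm_sq, normSq_apply, normSq_apply]
    simp only [add_re, add_im, mul_re, mul_im, ofReal_re, ofReal_im, one_re, one_im]
    have h5 : ζ.re * ζ.re + ζ.im * ζ.im < 1 := by
      have : ‖ζ‖ ^ 2 < 1 := by nlinarith [norm_nonneg ζ]
      rwa [← normSq_eq_norm_sq, normSq_apply] at this
    nlinarith [mul_pos (sub_pos.2 h5) (show (0:ℝ) < 1 - r ^ 2 by nlinarith)]
  exact lt_of_pow_lt_pow_left₀ 2 hd.le h4

theorem exp_mul_ball {θ : ℝ} {w : ℂ} (hw : w ∈ ball (0 : ℂ) 1) :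
    exp (θ * I) * w ∈ ball (0 : ℂ) 1 := by
  rw [mem_ball_zero_iff] at *
  rwa [norm_mul, Complex.norm_exp_ofReal_mul_I, one_mul]

theorem one_sub_mul_ne {e ζ : ℂ} (he : ‖e‖ = 1) (hζ : ζ ∈ ball (0 : ℂ) 1) : 1 - e * ζ ≠ 0 := by
  intro h0
  have h2 : e * ζ = 1 := by linear_combination -h0
  have h3 : ‖e * ζ‖ = 1 := by rw [h2]; simp
  rw [norm_mul, he, one_mul] at h3
  have := norm_lt_of_ball hζ
  linarith

theorem Mob_im {t e ζ : ℂ} (he : ‖e‖ = 1) (hζ : ζ ∈ ball (0 : ℂ) 1) :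
    (Mob t e ζ).im = t.im * (1 - ‖ζ‖ ^ 2) / ‖1 - e * ζ‖ ^ 2 := by
  have h1 := one_sub_mul_ne he hζ
  have h2 : normSq (1 - e * ζ) ≠ 0 := by simpa [normSq_eq_zero] using h1
  have e1 : ‖ζ‖ ^ 2 = ζ.re * ζ.re + ζ.im * ζ.im := by
    rw [← normSq_eq_norm_sq, normSq_apply]
  have e2 : ‖1 - e * ζ‖ ^ 2 = normSq (1 - e * ζ) := by rw [← normSq_eq_norm_sq]
  have e3 : e.re * e.re + e.im * e.im = 1 := by
    have : ‖e‖ ^ 2 = 1 := by rw [he]; norm_num
    rwa [← normSq_eq_norm_sq, normSq_apply] at this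
  rw [e1, e2, Mob, div_im]
  simp only [mul_re, mul_im, sub_re, sub_im, one_re, one_im, conj_re, conj_im]
  field_simp
  linear_combination (-t.im * (ζ.re * ζ.re + ζ.im * ζ.im)) * e3

theorem Mob_mem {t e ζ : ℂ} (ht : t ∈ HH) (he : ‖e‖ = 1) (hζ : ζ ∈ ball (0 : ℂ) 1) :
    Mob t e ζ ∈ HH := by
  show 0 < (Mob t e ζ).im
  rw [Mob_im he hζ]
  have h1 : 0 < ‖1 - e * ζ‖ := norm_pos_iff.2 (one_sub_mul_ne he hζ)
  have h2 := one_sub_sq_pos hζ
  have h3 : 0 < t.im := ht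
  positivity

theorem one_add_mul_ne {r : ℝ} (hr0 : 0 < r) (hr1 : r < 1) {ζ : ℂ} (hζ : ζ ∈ ball (0 : ℂ) 1) :
    1 + (r : ℂ) * ζ ≠ 0 := by
  intro h0
  have h1 := norm_lt_of_ball hζ
  have h2 : (r : ℂ) * ζ = -1 := by linear_combination h0
  have h3 : ‖(r : ℂ) * ζ‖ = 1 := by rw [h2]; simp
  rw [norm_mul, Complex.norm_real, Real.norm_eq_abs, abs_of_pos hr0] at h3
  nlinarith [norm_nonneg ζ]

theorem rexp_mem {r θ : ℝ} (hr0 : 0 < r) (hr1 : r < 1) :
    (r : ℂ) * exp (θ * I) ∈ ball (0 : ℂ) 1 := by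
  rw [mem_ball_zero_iff, norm_mul, Complex.norm_exp_ofReal_mul_I, mul_one, Complex.norm_real,
    Real.norm_eq_abs, abs_of_pos hr0]
  exact hr1

theorem cay_mob {a b c d : ℤ} (h : Gam2 a b c d) {t : ℂ} (ht : t ∈ HH) {r θ : ℝ} (hr0 : 0 < r)
    (hr1 : r < 1) (he : cay (r * exp (θ * I)) = ((a : ℂ) * t + b) / (c * t + d)) :
    ∃ e : ℂ, ‖e‖ = 1 ∧ ∀ ζ ∈ ball (0 : ℂ) 1,
      cay (exp (θ * I) * mob r ζ) = (a * Mob t e ζ + b) / (c * Mob t e ζ + d) := by
  set E : ℂ := exp (θ * I) with hE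
  have hE1 : ‖E‖ = 1 := Complex.norm_exp_ofReal_mul_I θ
  have hEE : (starRingEnd ℂ) E * E = 1 := by
    rw [mul_comm, Complex.mul_conj, normSq_eq_norm_sq, hE1]; simp
  have hwb : (r : ℂ) * E ∈ ball (0 : ℂ) 1 := rexp_mem hr0 hr1
  set w : ℂ := (r : ℂ) * E with hw
  set w' : ℂ := (starRingEnd ℂ) w with hw'
  have hw'E : w' * E = r := by
    rw [hw', hw, map_mul, conj_ofReal, mul_assoc, hEE, mul_one]
  have hT : 1 - w ≠ 0 := one_sub_ne hwb
  have hT' : 1 - w' ≠ 0 := by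
    have : 1 - w' = (starRingEnd ℂ) (1 - w) := by simp [hw']
    rw [this]
    exact (map_ne_zero _).2 hT
  have hQ : (c : ℂ) * t + d ≠ 0 := gam_den h ht
  set t' : ℂ := (starRingEnd ℂ) t with ht'
  have hQc : (c : ℂ) * t' + d = (starRingEnd ℂ) (c * t + d) := by simp [ht']
  have hQ' : (c : ℂ) * t' + d ≠ 0 := by
    rw [hQc]; exact (map_ne_zero _).2 hQ
  have hτ : ((a : ℂ) * t + b) * (1 - w) = I * (1 + w) * (c * t + d) := by
    unfold cay at he
    rw [div_eq_div_iff hT hQ] at he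
    linear_combination -he
  have hτ' : ((a : ℂ) * t' + b) * (1 - w') = -I * (1 + w') * (c * t' + d) := by
    have := congrArg (starRingEnd ℂ) hτ
    simpa [map_mul, map_add, map_sub, conj_I, ← hw', ← ht'] using this
  set e : ℂ := E * (1 - w') * (c * t + d) / ((1 - w) * (c * t' + d)) with hedef
  have hen : ‖e‖ = 1 := by
    have n1 : ‖1 - w'‖ = ‖1 - w‖ := by
      have : 1 - w' = (starRingEnd ℂ) (1 - w) := by simp [hw']
      rw [this, Complex.norm_conj]
    have n2 : ‖(c : ℂ) * t' + d‖ = ‖(c : ℂ) * t + d‖ := by rw [hQc, Complex.norm_conj]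
    rw [hedef, norm_div, norm_mul, norm_mul, norm_mul, hE1, n1, n2, one_mul]
    have := norm_pos_iff.2 hT
    have := norm_pos_iff.2 hQ
    field_simp
  refine ⟨e, hen, fun ζ hζ => ?_⟩
  have h1 : 1 - e * ζ ≠ 0 := one_sub_mul_ne hen hζ
  have h2 : 1 + (r : ℂ) * ζ ≠ 0 := one_add_mul_ne hr0 hr1 hζ
  have heT : e * (1 - w) * (c * t' + d) = E * (1 - w') * (c * t + d) := by
    rw [hedef]; field_simp
  set M : ℂ := Mob t e ζ with hM
  have hM1 : M * (1 - e * ζ) = t - t' * e * ζ := by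
    rw [hM, Mob, ← ht', div_mul_cancel₀ _ h1]
  have hMd : (c : ℂ) * M + d ≠ 0 := gam_den h (Mob_mem ht hen hζ)
  have hN1 : ((a : ℂ) * M + b) * ((1 - e * ζ) * (1 - w)) =
      I * (c * t + d) * ((1 + w) + (1 + w') * E * ζ) := by
    have e1 : ((a : ℂ) * M + b) * ((1 - e * ζ) * (1 - w)) =
      ((a : ℂ) * t + b) * (1 - w) - (a * t' + b) * (e * (1 - w)) * ζ := by
      linear_combination a * (1 - w) * hM1
    have e2 : ((a : ℂ) * t' + b) * (e * (1 - w)) = - I * (1 + w') * E * (c * t + d) := by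
      have e3 : (((a : ℂ) * t' + b) * (e * (1 - w))) * (c * t' + d) =
          (- I * (1 + w') * E * (c * t + d)) * (c * t' + d) := by
        linear_combination (a * t' + b) * heT + E * (c * t + d) * hτ'
      exact mul_right_cancel₀ hQ' e3
    rw [e1, e2, hτ]
    ring
  have hN2 : ((c : ℂ) * M + d) * ((1 - e * ζ) * (1 - w)) =
      (c * t + d) * ((1 - w) - (1 - w') * E * ζ) := by
    linear_combination c * (1 - w) * hM1 - ζ * heT
  have hU : (1 - e * ζ) * (1 - w) ≠ 0 := mul_ne_zero h1 hT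
  have hR : ((a : ℂ) * M + b) / (c * M + d) =
      (I * ((1 + w) + (1 + w') * E * ζ)) / ((1 - w) - (1 - w') * E * ζ) := by
    rw [← mul_div_mul_right _ _ hU, hN1, hN2]
    rw [show I * (c * t + d) * ((1 + w) + (1 + w') * E * ζ) =
      (c * t + d) * (I * ((1 + w) + (1 + w') * E * ζ)) by ring, mul_div_mul_left _ _ hQ]
  rw [hR]
  have hb : E * mob r ζ ∈ ball (0 : ℂ) 1 := exp_mul_ball (mob_mem hr0 hr1 hζ)
  have hb1 := one_sub_ne hb
  have hL : cay (E * mob r ζ) = (I * (1 + r * ζ + E * (ζ + r))) / (1 + r * ζ - E * (ζ + r)) := by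
    have hm : mob r ζ * (1 + r * ζ) = ζ + r := div_mul_cancel₀ _ h2
    unfold cay
    rw [← mul_div_mul_right _ _ h2]
    congr 1
    · linear_combination I * E * hm
    · linear_combination -E * hm
  rw [hL]
  congr 1
  · linear_combination -I * ζ * hw'E + I * hw.symm
  · linear_combination -ζ * hw'E - hw.symm

end Pool.Agent.T05.E4
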