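import Pool.Agent.Lib.MP_0162a5_an.E4_def
import Pool.Agent.Lib.MP_0162a5_an.T
import Pool.Agent.Lib.MP_0162a5_an.E4_alg

/-! Module E4: preservation of `QuadAt` along ultrafilter limits of rescaled translates. -/

set_option autoImplicit false

open Complex Metric Set Filter Topology

namespace Pool.Agent.T05.E4

theorem quad_pull (D : ModularData) {a' b' c' d' : ℤ} (h : Gam2 a' b' c' d') {t : ℂ} (ht : t ∈ HH)
    (A : ℂ) (a c : ℝ) :
    deriv D.lam (((a' : ℂ) * t + b') / (c' * t + d')) *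
      (A * (a - c * (((a' : ℂ) * t + b') / (c' * t + d'))) ^ 2) =
    deriv D.lam t * (A * (((a * d' - c * b' : ℝ) : ℂ) - ((c * a' - a * c' : ℝ) : ℂ) * t) ^ 2) := by
  have h1 := gam_den h ht
  rw [lam_deriv_gam D h ht]
  have h2 : ((c' : ℂ) * t + d') * (a - c * (((a' : ℂ) * t + b') / (c' * t + d'))) =
      ((a * d' - c * b' : ℝ) : ℂ) - ((c * a' - a * c' : ℝ) : ℂ) * t := by
    push_cast
    field_simp
    ring
  rw [← h2]
  ring

theorem quad_limit (D : ModularData) (U : UnivCover) {τ₂ : TT → ℂ} (c2 : Continuous τ₂)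
    (h2' : ∀ X, τ₂ X ∈ HH ∧ D.lam (τ₂ X) = (U.P X).2) (l : Ultrafilter ℕ)
    (γ : ℕ → (TT ≃ₜ TT)) (hγP : ∀ n X, U.P (γ n X) = U.P X) {V : TT → ℂ × ℂ}
    (hq : QuadAt D τ₂ (fun X => (V X).2)) (κ : ℕ → ℝ) (hκ : ∀ n, 0 < κ n) {V' : TT → ℂ × ℂ}
    (hlim : ∀ X, Tendsto (fun n => (κ n : ℂ) * (V (γ n X)).2) (l : Filter ℕ) (𝓝 (V' X).2)) :
    QuadAt D τ₂ (fun X => (V' X).2) := by
  obtain ⟨A, a, c, hV⟩ := hq
  have hg : ∀ n, ∃ a' b' c' d' : ℤ, Gam2 a' b' c' d' ∧
      ∀ X, τ₂ (γ n X) = ((a' : ℂ) * τ₂ X + b') / (c' * τ₂ X + d') := by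
    intro n
    obtain ⟨a', b', c', d', hG, h⟩ := lam_lift_gam D (A := (univ : Set TT)) isPreconnected_univ
      univ_nonempty (G := τ₂) (G' := fun X => τ₂ (γ n X)) c2.continuousOn
      (c2.comp (γ n).continuous).continuousOn (fun X _ => (h2' X).1) (fun X _ => (h2' _).1)
      (fun X _ => by
        show D.lam (τ₂ X) = D.lam (τ₂ (γ n X))
        rw [(h2' X).2, (h2' (γ n X)).2, hγP n X])
    exact ⟨a', b', c', d', hG, fun X => h X (mem_univ X)⟩
  choose a' b' c' d' hG hgX using hg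
  have hV2 : ∀ n X, (V (γ n X)).2 = deriv D.lam (τ₂ X) *
      (A * (((a * d' n - c * b' n : ℝ) : ℂ) - ((c * a' n - a * c' n : ℝ) : ℂ) * τ₂ X) ^ 2) := by
    intro n X
    have h := hV (γ n X)
    simp only at h
    rw [h, hgX n X]
    exact quad_pull D (hG n) (h2' X).1 A a c
  set s : ℕ → ℝ := fun n => Real.sqrt (κ n) with hs
  set p : ℕ → ℝ := fun n => s n * (a * d' n - c * b' n) with hp
  set q : ℕ → ℝ := fun n => s n * (c * a' n - a * c' n) with hq
  have hs2 : ∀ n, s n * s n = κ n := fun n => Real.mul_self_sqrt (hκ n).le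
  have hV3 : ∀ n X, (κ n : ℂ) * (V (γ n X)).2 =
      deriv D.lam (τ₂ X) * (A * ((p n : ℂ) - (q n : ℂ) * τ₂ X) ^ 2) := by
    intro n X
    rw [hV2 n X, ← hs2 n]
    simp only [hp, hq]
    push_cast
    ring
  simp only [hV3] at hlim
  by_cases hA : A = 0
  · refine ⟨0, 0, 0, fun X => ?_⟩
    have h1 := hlim X
    simp only [hA, zero_mul, mul_zero] at h1
    have h2 := tendsto_nhds_unique h1 tendsto_const_nhds
    simp only [zero_mul, mul_zero]
    exact h2
  · -- boundedness at one point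
    have hb : ∃ C : ℝ, ∀ᶠ n in (l : Filter ℕ), |p n| ≤ C ∧ |q n| ≤ C := by
      set t : ℂ := τ₂ 0 with ht
      have htH : 0 < t.im := (h2' 0).1
      have hk : deriv D.lam t * A ≠ 0 := mul_ne_zero (D.lam_deriv t (h2' 0).1) hA
      have h1 := hlim 0
      have h2 : Tendsto (fun n => ‖((p n : ℂ) - (q n : ℂ) * t) ^ 2‖) (l : Filter ℕ)
          (𝓝 ‖(V' 0).2 / (deriv D.lam t * A)‖) := by
        have h3 := (h1.div_const (deriv D.lam t * A)).norm
        refine h3.congr (fun n => ?_)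
        congr 1
        rw [← ht, ← mul_assoc, mul_div_assoc, mul_comm, div_mul_cancel₀ _ hk]
      set L := ‖(V' 0).2 / (deriv D.lam t * A)‖ with hL
      have h3 : ∀ᶠ n in (l : Filter ℕ), ‖((p n : ℂ) - (q n : ℂ) * t) ^ 2‖ < L + 1 :=
        h2.eventually (gt_mem_nhds (by linarith))
      have hL0 : 0 ≤ L := norm_nonneg _
      set B : ℝ := L + 2 with hB
      refine ⟨B + B / t.im * ‖t‖ + B / t.im, ?_⟩
      filter_upwards [h3] with n hn
      have h4 : ‖(p n : ℂ) - (q n : ℂ) * t‖ ≤ B := by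
        rw [norm_pow] at hn
        by_contra hcon
        push Not at hcon
        have h5 : B * B ≤ ‖(p n : ℂ) - (q n : ℂ) * t‖ ^ 2 := by
          have hB0 : 0 ≤ B := by rw [hB]; linarith
          nlinarith
        have h6 : L + 1 ≤ B * B := by rw [hB]; nlinarith
        linarith
      have h5 : |q n| * t.im ≤ B := by
        have h6 : |((p n : ℂ) - (q n : ℂ) * t).im| ≤ B := (Complex.abs_im_le_norm _).trans h4
        have h7 : ((p n : ℂ) - (q n : ℂ) * t).im = -(q n * t.im) := by simp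
        rw [h7, abs_neg, abs_mul, abs_of_pos htH] at h6
        exact h6
      have h6 : |q n| ≤ B / t.im := by rwa [le_div_iff₀ htH]
      have h7 : |p n| ≤ B + B / t.im * ‖t‖ := by
        have h8 : ‖(p n : ℂ)‖ ≤ ‖(p n : ℂ) - (q n : ℂ) * t‖ + ‖(q n : ℂ) * t‖ := by
          have := norm_add_le ((p n : ℂ) - (q n : ℂ) * t) ((q n : ℂ) * t)
          rwa [sub_add_cancel] at this
        rw [norm_mul, Complex.norm_real, Complex.norm_real, Real.norm_eq_abs,
          Real.norm_eq_abs] at h8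
        have h9 : |q n| * ‖t‖ ≤ B / t.im * ‖t‖ := by gcongr
        linarith
      have hBt : 0 ≤ B / t.im := (abs_nonneg _).trans h6
      have hBB : 0 ≤ B + B / t.im * ‖t‖ := (abs_nonneg _).trans h7
      exact ⟨by linarith, by linarith⟩
    obtain ⟨C, hC⟩ := hb
    obtain ⟨p0, -, hp0⟩ := ultra_lim_real l p C (hC.mono fun n hn => hn.1)
    obtain ⟨q0, -, hq0⟩ := ultra_lim_real l q C (hC.mono fun n hn => hn.2)
    refine ⟨A, p0, q0, fun X => ?_⟩
    have hp1 : Tendsto (fun n => (p n : ℂ)) (l : Filter ℕ) (𝓝 (p0 : ℂ)) :=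
      (Complex.continuous_ofReal.tendsto p0).comp hp0
    have hq1 : Tendsto (fun n => (q n : ℂ)) (l : Filter ℕ) (𝓝 (q0 : ℂ)) :=
      (Complex.continuous_ofReal.tendsto q0).comp hq0
    have h1 : Tendsto (fun n => deriv D.lam (τ₂ X) * (A * ((p n : ℂ) - (q n : ℂ) * τ₂ X) ^ 2))
        (l : Filter ℕ) (𝓝 (deriv D.lam (τ₂ X) * (A * ((p0 : ℂ) - (q0 : ℂ) * τ₂ X) ^ 2))) :=
      (((hp1.sub (hq1.mul_const _)).pow 2).const_mul A).const_mul _
    exact tendsto_nhds_unique (hlim X) h1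

end Pool.Agent.T05.E4
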