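import Pool.Agent.Lib.MP_0162a5_an.E4_lim

/-! Part of MODULE E4: the limit family `Φ`. -/

set_option autoImplicit false

open Complex Metric Set Filter Topology

namespace Pool.Agent.T05.E4

theorem exists_xi (p q σ ρ : ℝ) (h : ¬ ∃ k l : ℤ, p = l ∧ q = k) :
    ∃ ξ₀ : ℝ, 0 < ξ₀ ∧ ∀ ξ ∈ Ioo (-ξ₀) ξ₀, ¬ ∃ k l : ℤ, p + ξ * σ = l ∧ q + ξ * ρ = k := by
  have hZ : IsClosed (range ((↑) : ℤ → ℝ)) := Int.isClosedEmbedding_coe_real.isClosed_range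
  have hO : IsOpen ((range ((↑) : ℤ → ℝ)) ×ˢ (range ((↑) : ℤ → ℝ)))ᶜ := (hZ.prod hZ).isOpen_compl
  have hc : ContinuousAt (fun ξ : ℝ => ((p + ξ * σ, q + ξ * ρ) : ℝ × ℝ)) 0 := by fun_prop
  have h0 : ((p + 0 * σ, q + 0 * ρ) : ℝ × ℝ) ∈ ((range ((↑) : ℤ → ℝ)) ×ˢ (range ((↑) : ℤ → ℝ)))ᶜ := by
    rintro ⟨⟨l, hl⟩, ⟨k, hk⟩⟩
    simp only [zero_mul, add_zero] at hl hk
    exact h ⟨k, l, hl.symm, hk.symm⟩
  have hev := hc.eventually (hO.mem_nhds h0)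
  obtain ⟨ξ₀, hξ₀, hb⟩ := Metric.eventually_nhds_iff_ball.1 hev
  refine ⟨ξ₀, hξ₀, fun ξ hξ => ?_⟩
  have h1 := hb ξ (by rw [Real.ball_eq_Ioo]; simpa using hξ)
  rintro ⟨k, l, hp, hq⟩
  exact h1 ⟨⟨l, hp.symm⟩, ⟨k, hq.symm⟩⟩

variable {D : ModularData} {U : UnivCover} {τ₁ : TT → ℂ} {F : LFam D U τ₁}

theorem Mob_zero (t e : ℂ) : Mob t e 0 = t := by simp [Mob]

theorem mob_zero (r : ℝ) : mob r 0 = r := by simp [mob]

/-- The limit of the renormalised families. -/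
theorem RSeq.limit (S : RSeq F) (c1 : Continuous τ₁)
    (h1' : ∀ X, τ₁ X ∈ HH ∧ D.lam (τ₁ X) = (U.P X).1) (l : Ultrafilter ℕ)
    {Ys : TT} (hYs : Tendsto S.Y (l : Filter ℕ) (𝓝 Ys))
    (hr : Tendsto S.r (l : Filter ℕ) (𝓝 1)) {p q σ ρ : ℝ} {k j : ℕ → ℤ}
    (hp : Tendsto (fun n => S.x n * S.c n - 2 * k n) (l : Filter ℕ) (𝓝 p))
    (hq : Tendsto (fun n => S.x n * S.d n - 2 * j n) (l : Filter ℕ) (𝓝 q))
    (hσ : Tendsto (fun n => Real.sqrt (1 - S.r n) * S.c n) (l : Filter ℕ) (𝓝 σ))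
    (hρ : Tendsto (fun n => Real.sqrt (1 - S.r n) * S.d n) (l : Filter ℕ) (𝓝 ρ))
    (hpq : ¬ ∃ k l : ℤ, p = l ∧ q = k) {e : ℕ → ℂ} (he : ∀ n, ‖e n‖ = 1)
    (hcm : ∀ n, ∀ ζ ∈ ball (0 : ℂ) 1, cay (exp (S.θ n * I) * mob (S.r n) ζ) =
      (S.a n * Mob (τ₁ (S.Y n)) (e n) ζ + S.b n) / (S.c n * Mob (τ₁ (S.Y n)) (e n) ζ + S.d n))
    {es : ℂ} (hes : Tendsto e (l : Filter ℕ) (𝓝 es)) :
    ‖es‖ = 1 ∧ ∃ ξ₀ : ℝ, 0 < ξ₀ ∧ ∃ Φ : ℂ × ℝ → TT,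
      ContinuousOn Φ (ball 0 1 ×ˢ Ioo (-ξ₀) ξ₀) ∧
      (∀ z ∈ ball (0 : ℂ) 1 ×ˢ Ioo (-ξ₀) ξ₀, U.P (Φ z) = fam D ((τ₁ Ys, es, p, q, σ, ρ), z)) ∧
      (∀ z ∈ ball (0 : ℂ) 1 ×ˢ Ioo (-ξ₀) ξ₀, τ₁ (Φ z) = Mob (τ₁ Ys) es z.1) ∧
      (∀ z ∈ ball (0 : ℂ) 1 ×ˢ Ioo (-ξ₀) ξ₀,
        Tendsto (fun n => S.pt n z) (l : Filter ℕ) (𝓝 (Φ z))) := by
  have hHH : ∀ X, τ₁ X ∈ HH := fun X => (h1' X).1
  have hes1 : ‖es‖ = 1 := by
    have h1 : Tendsto (fun n => ‖e n‖) (l : Filter ℕ) (𝓝 ‖es‖) := hes.norm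
    simp only [he] at h1
    exact (tendsto_nhds_unique h1 tendsto_const_nhds)
  refine ⟨hes1, ?_⟩
  obtain ⟨ξ₀, hξ₀, hξ⟩ := exists_xi p q σ ρ hpq
  refine ⟨ξ₀, hξ₀, ?_⟩
  set A : Set (ℂ × ℝ) := ball (0 : ℂ) 1 ×ˢ Ioo (-ξ₀) ξ₀ with hA
  have hconv : Convex ℝ A := (convex_ball _ _).prod (convex_Ioo _ _)
  have h0A : ((0 : ℂ), (0 : ℝ)) ∈ A := ⟨by simp, by simp [hξ₀]⟩
  have htsm : τ₁ Ys ∈ HH := hHH Ys
  have hcontF : ∀ z ∈ A, ContinuousAt (fam D) ((τ₁ Ys, es, p, q, σ, ρ), z) :=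
    fun z hz => fam_contAt D htsm hes1 hz.1 (hξ z.2 hz.2)
  have hprm : Tendsto (fun n => ((τ₁ (S.Y n), e n, S.x n * S.c n - 2 * k n,
      S.x n * S.d n - 2 * j n, Real.sqrt (1 - S.r n) * S.c n,
      Real.sqrt (1 - S.r n) * S.d n) : ℂ × ℂ × ℝ × ℝ × ℝ × ℝ)) (l : Filter ℕ)
      (𝓝 (τ₁ Ys, es, p, q, σ, ρ)) := by
    refine Tendsto.prodMk_nhds ((c1.tendsto Ys).comp hYs) ?_
    refine Tendsto.prodMk_nhds hes ?_
    refine Tendsto.prodMk_nhds hp ?_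
    refine Tendsto.prodMk_nhds hq ?_
    exact Tendsto.prodMk_nhds hσ hρ
  have hmem : ∀ z ∈ A, fam D ((τ₁ Ys, es, p, q, σ, ρ), z) ∈ MM := by
    intro z hz
    have hM : Mob (τ₁ Ys) es z.1 ∈ HH := Mob_mem htsm hes1 hz.1
    refine D.mm_mem _ _ ?_
    have := (WW_iff hM).2 (hξ z.2 hz.2)
    convert this using 2
    push_cast
    ring
  have hg : ContinuousOn (fun z => fam D ((τ₁ Ys, es, p, q, σ, ρ), z)) A := by
    intro z hz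
    refine ContinuousAt.continuousWithinAt ?_
    exact ContinuousAt.comp (g := fam D) (f := fun z => ((τ₁ Ys, es, p, q, σ, ρ), z))
      (hcontF z hz) (by fun_prop)
  have hsq : Tendsto (fun n => Real.sqrt (1 - S.r n)) (l : Filter ℕ) (𝓝 0) := by
    have h1 : Tendsto (fun n => 1 - S.r n) (l : Filter ℕ) (𝓝 (1 - 1)) := hr.const_sub 1
    have h2 := (Real.continuous_sqrt.tendsto (1 - 1)).comp h1
    simpa [Function.comp_def] using h2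
  have hxmem : ∀ᶠ n in (l : Filter ℕ), ∀ z ∈ A,
      S.x n + z.2 * Real.sqrt (1 - S.r n) ∈ Ioo (0 : ℝ) 1 := by
    have h1 : Tendsto (fun n => ξ₀ * Real.sqrt (1 - S.r n)) (l : Filter ℕ) (𝓝 (ξ₀ * 0)) :=
      hsq.const_mul ξ₀
    rw [mul_zero] at h1
    filter_upwards [h1.eventually (gt_mem_nhds (show (0 : ℝ) < 1 / 4 by norm_num))] with n hn z hz
    have h2 : |z.2 * Real.sqrt (1 - S.r n)| < 1 / 4 := by
      rw [abs_mul, abs_of_nonneg (Real.sqrt_nonneg _)]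
      refine lt_of_le_of_lt ?_ hn
      exact mul_le_mul_of_nonneg_right (abs_le.2 ⟨hz.2.1.le, hz.2.2.le⟩) (Real.sqrt_nonneg _)
    have h3 := abs_lt.1 h2
    have h4 := S.hx n
    exact ⟨by linarith [h4.1, h3.1], by linarith [h4.2, h3.2]⟩
  have hPpt : ∀ᶠ n in (l : Filter ℕ), ∀ z ∈ A, U.P (S.pt n z) =
      fam D ((τ₁ (S.Y n), e n, S.x n * S.c n - 2 * k n, S.x n * S.d n - 2 * j n,
      Real.sqrt (1 - S.r n) * S.c n, Real.sqrt (1 - S.r n) * S.d n), z) := by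
    filter_upwards [hxmem] with n hn z hz
    exact S.P_pt hHH n (k n) (j n) (he n) (hcm n) hz.1 (hn z hz)
  have hpt0 : ∀ n, S.pt n (0, 0) = S.Y n := by
    intro n
    unfold RSeq.pt
    simp only [zero_mul, add_zero, mob_zero]
    rw [mul_comm (exp (S.θ n * I)), ← S.hγ n, Homeomorph.symm_apply_apply]
  have hPYs : U.P Ys = fam D ((τ₁ Ys, es, p, q, σ, ρ), (0, 0)) := by
    have h1 : Tendsto (fun n => U.P (S.Y n)) (l : Filter ℕ) (𝓝 (U.P Ys)) :=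
      ((P_continuous U).tendsto Ys).comp hYs
    have h2 : Tendsto (fun n => fam D ((τ₁ (S.Y n), e n, S.x n * S.c n - 2 * k n,
        S.x n * S.d n - 2 * j n, Real.sqrt (1 - S.r n) * S.c n,
        Real.sqrt (1 - S.r n) * S.d n), ((0 : ℂ), (0 : ℝ)))) (l : Filter ℕ)
        (𝓝 (fam D ((τ₁ Ys, es, p, q, σ, ρ), (0, 0)))) :=
      (hcontF _ h0A).tendsto.comp (hprm.prodMk_nhds tendsto_const_nhds)
    refine tendsto_nhds_unique h1 (h2.congr' ?_)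
    filter_upwards [hPpt] with n hn
    rw [← hn _ h0A, hpt0]
  obtain ⟨Φ, hΦ1, hΦ2, hΦ3⟩ := lift_convex U hconv hg hmem h0A hPYs
  refine ⟨Φ, hΦ1, hΦ3, ?_, ?_⟩
  · refine lam_lift_unique D (A := A) hconv.isPreconnected (G := fun z => τ₁ (Φ z))
      (G' := fun z => Mob (τ₁ Ys) es z.1) (c1.comp_continuousOn hΦ1) ?_ (fun z _ => hHH _)
      (fun z hz => Mob_mem htsm hes1 hz.1) ?_ h0A ?_
    · intro z hz
      refine ContinuousAt.continuousWithinAt ?_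
      exact ContinuousAt.comp (g := fun y : ℂ × ℂ × ℂ => Mob y.1 y.2.1 y.2.2)
        (f := fun z : ℂ × ℝ => (τ₁ Ys, es, z.1)) (Mob_contAt hes1 hz.1) (by fun_prop)
    · intro z hz
      rw [(h1' _).2, hΦ3 z hz]
      rfl
    · simp only [hΦ2, Mob_zero]
  · have hGc : ∀ᶠ n in (l : Filter ℕ), ContinuousOn (S.pt n) A := by
      filter_upwards [hxmem] with n hn
      unfold RSeq.pt
      refine (S.γ n).symm.continuous.comp_continuousOn ?_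
      refine ContinuousOn.comp (g := fun q : ℝ × ℂ => F.L q.1 q.2)
        (f := fun z : ℂ × ℝ => (S.x n + z.2 * Real.sqrt (1 - S.r n),
          cay (exp (S.θ n * I) * mob (S.r n) z.1))) F.cont ?_ ?_
      · refine ContinuousOn.prodMk (by fun_prop) ?_
        refine cay_cont.comp ?_ (fun z hz => exp_mul_ball (mob_mem (S.hr0 n) (S.hr1 n) hz.1))
        refine ContinuousOn.mul continuousOn_const ?_
        unfold mob
        exact ContinuousOn.div (by fun_prop) (by fun_prop)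
          (fun z hz => one_add_mul_ne (S.hr0 n) (S.hr1 n) hz.1)
      · intro z hz
        exact ⟨hn z hz, cay_mem (exp_mul_ball (mob_mem (S.hr0 n) (S.hr1 n) hz.1))⟩
    have htl : TendstoLocallyUniformlyOn (fun n z => U.P (S.pt n z)) (fun z => U.P (Φ z))
        (l : Filter ℕ) A := tlu (fam D) hcontF hprm hPpt hΦ3
    exact lift_tendsto U hconv hGc hΦ1 htl h0A (by
      rw [hΦ2]
      refine hYs.congr fun n => (hpt0 n).symm)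

end Pool.Agent.T05.E4
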