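import Pool.Agent.Lib.MP_0162a5_an.E2
import Pool.Agent.Lib.MP_0162a5_an.E4_lim2

/-! Part of MODULE E4: choice of the renormalising sequence. -/

set_option autoImplicit false

open Complex Metric Set Filter Topology

namespace Pool.Agent.T05.E4

variable {D : ModularData} {U : UnivCover} {τ₁ : TT → ℂ}

theorem exists_test : ∃ (ζ : ℕ → ℂ) (ξ : ℕ → ℝ), (∀ k, ζ k ∈ ball (0 : ℂ) 1) ∧
    ∀ z : ℂ × ℝ, z.1 ∈ ball (0 : ℂ) 1 → ∀ N ∈ 𝓝 z, ∃ k, (ζ k, ξ k) ∈ N := by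
  have : Nonempty (ball (0 : ℂ) 1) := ⟨⟨0, by simp⟩⟩
  set u := TopologicalSpace.denseSeq (ball (0 : ℂ) 1 × ℝ) with hu
  refine ⟨fun k => (u k).1.1, fun k => (u k).2, fun k => (u k).1.2, ?_⟩
  intro z hz N hN
  have hd : DenseRange u := TopologicalSpace.denseRange_denseSeq _
  have hc : Continuous (fun y : ball (0 : ℂ) 1 × ℝ => ((y.1.1, y.2) : ℂ × ℝ)) := by fun_prop
  have hN' : (fun y : ball (0 : ℂ) 1 × ℝ => ((y.1.1, y.2) : ℂ × ℝ)) ⁻¹' N ∈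
      𝓝 ((⟨z.1, hz⟩, z.2) : ball (0 : ℂ) 1 × ℝ) := hc.continuousAt hN
  obtain ⟨k, hk⟩ := hd.exists_mem_open isOpen_interior
    ⟨_, mem_interior_iff_mem_nhds.2 hN'⟩
  have hk' := interior_subset hk
  exact ⟨k, hk'⟩

theorem bad_slice {m₀ κ : ℝ} (_hm : 0 < m₀) {r x : ℝ}
    (h : MeasureTheory.volume {θ : ℝ | θ ∈ Icc 0 (2 * Real.pi) ∧
        ¬ Thick κ (cay (r * exp (θ * I))) x} ≤ ENNReal.ofReal (m₀ / 2)) {δ : ℝ} (hδ0 : 0 < δ)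
    (hδ : δ ≤ m₀ / 4) :
    MeasureTheory.volume {θ : ℝ | θ ∈ Icc 0 (2 * Real.pi) ∧ (θ, x) ∈
      {q : ℝ × ℝ | ¬ Thick κ (cay (r * exp (q.1 * I))) q.2 ∨ q.1 < δ ∨ 2 * Real.pi - δ < q.1}} ≤
      ENNReal.ofReal m₀ := by
  have hsub : {θ : ℝ | θ ∈ Icc 0 (2 * Real.pi) ∧ (θ, x) ∈
      {q : ℝ × ℝ | ¬ Thick κ (cay (r * exp (q.1 * I))) q.2 ∨ q.1 < δ ∨ 2 * Real.pi - δ < q.1}} ⊆
      {θ : ℝ | θ ∈ Icc 0 (2 * Real.pi) ∧ ¬ Thick κ (cay (r * exp (θ * I))) x} ∪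
      (Icc 0 δ ∪ Icc (2 * Real.pi - δ) (2 * Real.pi)) := by
    rintro θ ⟨h1, h2⟩
    rcases h2 with h2 | h2 | h2
    · exact Or.inl ⟨h1, h2⟩
    · exact Or.inr (Or.inl ⟨h1.1, h2.le⟩)
    · exact Or.inr (Or.inr ⟨h2.le, h1.2⟩)
  refine (MeasureTheory.measure_mono hsub).trans ?_
  refine (MeasureTheory.measure_union_le _ _).trans ?_
  have e1 : MeasureTheory.volume (Icc 0 δ ∪ Icc (2 * Real.pi - δ) (2 * Real.pi)) ≤
      ENNReal.ofReal (m₀ / 2) := by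
    refine (MeasureTheory.measure_union_le _ _).trans ?_
    rw [Real.volume_Icc, Real.volume_Icc, ← ENNReal.ofReal_add (by linarith) (by linarith)]
    exact ENNReal.ofReal_le_ofReal (by linarith)
  calc _ ≤ ENNReal.ofReal (m₀ / 2) + ENNReal.ofReal (m₀ / 2) := add_le_add h e1
    _ = ENNReal.ofReal m₀ := by
      rw [← ENNReal.ofReal_add (by linarith) (by linarith)]
      congr 1
      ring

theorem exists_RSeq (F : LFam D U τ₁) (c1 : Continuous τ₁)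
    (h1' : ∀ X, τ₁ X ∈ HH ∧ D.lam (τ₁ X) = (U.P X).1) {V : TT → ℂ × ℂ} (hV : U.InC V)
    (h0 : ∃ X, (V X).1 ≠ 0) {ζ : ℕ → ℂ} (ξ : ℕ → ℝ) (hζ : ∀ k, ζ k ∈ ball (0 : ℂ) 1) :
    ∃ (S : RSeq F) (R κ δ : ℝ) (K : Set TT), 0 < R ∧ 0 < κ ∧ 0 < δ ∧ IsCompact K ∧
      (∀ n, S.Y n ∈ K) ∧ Tendsto S.r atTop (𝓝 1) ∧
      (∀ n, S.θ n ∈ Icc δ (2 * Real.pi - δ)) ∧
      (∀ n, Thick κ (cay (S.r n * exp (S.θ n * I))) (S.x n)) ∧
      (∀ n, 1 / R ≤ ‖toDisc (F.h V (S.x n)) (S.r n * exp (S.θ n * I))‖ ∧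
        ‖toDisc (F.h V (S.x n)) (S.r n * exp (S.θ n * I))‖ ≤ R) ∧
      ∀ k, Tendsto (fun n => toDisc (F.h V (S.x n + ξ k * Real.sqrt (1 - S.r n)))
        (exp (S.θ n * I) * mob (S.r n) (ζ k)) -
        toDisc (F.h V (S.x n)) (S.r n * exp (S.θ n * I))) atTop (𝓝 0) := by
  obtain ⟨m₀, hm₀, R, hR, H⟩ := oscillation (fun x w => toDisc (F.h V x) w) (F.contOn hV)
    (fun x hx => F.diffOn hV hx) (fun x hx w hw hw0 => (F.herg hV hx).2 w hw hw0)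
    (F.nonzero hV h0)
  obtain ⟨κ, hκ, r₀, hr₀, hth⟩ := thick_measure (half_pos hm₀)
  have hδ0 : 0 < m₀ / 4 := by positivity
  obtain ⟨r, θ, x, hr, hrt, hθ, hx, hbad, hGR, hten⟩ := H
    (fun r => {q : ℝ × ℝ | ¬ Thick κ (cay (r * exp (q.1 * I))) q.2 ∨ q.1 < m₀ / 4 ∨
      2 * Real.pi - m₀ / 4 < q.1}) r₀ hr₀
    (fun r h1 h2 x hx => bad_slice hm₀ (hth r h1 h2 x hx) hδ0 le_rfl) ζ ξ hζ
  have hgood : ∀ n, Thick κ (cay (r n * exp (θ n * I))) (x n) ∧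
      θ n ∈ Icc (m₀ / 4) (2 * Real.pi - m₀ / 4) := by
    intro n
    have h1 := hbad n
    simp only [mem_ofPred_eq, not_or, not_not, not_lt] at h1
    exact ⟨h1.1, h1.2.1, h1.2.2⟩
  obtain ⟨K₀, hK₀, hK₀M, hK₀t⟩ := thick_compact D hκ
  obtain ⟨K, hK, hKc⟩ := exists_compact_cover U hK₀ hK₀M
  have hxm : ∀ n, x n ∈ Ioo (0 : ℝ) 1 := fun n => ⟨by linarith [(hx n).1], by linarith [(hx n).2]⟩
  have hcm : ∀ n, cay (r n * exp (θ n * I)) ∈ HH := fun n => cay_mem (rexp_mem (hr n).2.1 (hr n).2.2)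
  have hY : ∀ n, ∃ Y ∈ K, U.P Y = U.P (F.L (x n) (cay (r n * exp (θ n * I)))) := by
    intro n
    obtain ⟨Y, hY1, hY2⟩ := hKc _ (hK₀t _ (hcm n) (x n) (hx n) (hgood n).1)
    exact ⟨Y, hY1, by rw [hY2, F.P_L _ (hxm n) _ (hcm n)]⟩
  choose Y hYK hYP using hY
  have hγ : ∀ n, ∃ γ : TT ≃ₜ TT, (∀ X, U.P (γ X) = U.P X) ∧
      γ (Y n) = F.L (x n) (cay (r n * exp (θ n * I))) := fun n => deck U _ _ (hYP n)
  choose γ hγP hγY using hγ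
  have hg : ∀ n, ∃ a b c d : ℤ, Gam2 a b c d ∧
      ∀ X ∈ (univ : Set TT), τ₁ (γ n X) = (a * τ₁ X + b) / (c * τ₁ X + d) := by
    intro n
    refine lam_lift_gam D (A := (univ : Set TT)) isPreconnected_univ univ_nonempty
      (G := τ₁) (G' := fun X => τ₁ (γ n X)) c1.continuousOn
      (c1.comp (γ n).continuous).continuousOn (fun X _ => (h1' X).1) (fun X _ => (h1' _).1) ?_
    intro X _
    rw [(h1' X).2, (h1' _).2, hγP]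
  choose a b c d hgam hτ using hg
  refine ⟨⟨r, θ, x, Y, γ, a, b, c, d, fun n => (hr n).2.1, fun n => (hr n).2.2, hx, hγP, hγY,
    hgam, fun n X => hτ n X (mem_univ _)⟩, R, κ, m₀ / 4, K, hR, hκ, hδ0, hK, hYK, hrt,
    fun n => (hgood n).2, fun n => (hgood n).1, hGR, hten⟩

variable {F : LFam D U τ₁}

/-- the formula (*) -/
theorem RSeq.star (S : RSeq F) (hHH : ∀ X, τ₁ X ∈ HH) (V : TT → ℂ × ℂ) (n : ℕ) {z : ℂ × ℝ}
    (hz1 : z.1 ∈ ball (0 : ℂ) 1)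
    (hz2 : S.x n + z.2 * Real.sqrt (1 - S.r n) ∈ Ioo (0 : ℝ) 1) :
    (V (S.γ n (S.pt n z))).1 = deriv D.lam (τ₁ (S.pt n z)) *
      (toDisc (F.h V (S.x n + z.2 * Real.sqrt (1 - S.r n))) (exp (S.θ n * I) * mob (S.r n) z.1) *
      ((((S.a n : ℂ) + I * S.c n) * τ₁ (S.pt n z) + (S.b n + I * S.d n)) ^ 2 / (2 * I))) := by
  have hb : exp (S.θ n * I) * mob (S.r n) z.1 ∈ ball (0 : ℂ) 1 :=
    exp_mul_ball (mob_mem (S.hr0 n) (S.hr1 n) hz1)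
  set x' := S.x n + z.2 * Real.sqrt (1 - S.r n) with hx'
  set w' := exp (S.θ n * I) * mob (S.r n) z.1 with hw'
  have hpt : S.γ n (S.pt n z) = F.L x' (cay w') := by
    unfold RSeq.pt
    rw [Homeomorph.apply_symm_apply]
  have ht' := hHH (S.pt n z)
  set t' := τ₁ (S.pt n z) with ht'def
  have hcay : cay w' = (S.a n * t' + S.b n) / (S.c n * t' + S.d n) := by
    rw [← S.hτ n, hpt, F.tau_L _ hz2 _ (cay_mem hb)]
  have hder : deriv D.lam (cay w') = (S.c n * t' + S.d n) ^ 2 * deriv D.lam t' := by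
    rw [hcay]
    exact lam_deriv_gam D (S.hg n) ht'
  have hfac := cay_factor (S.hg n) ht' hb hcay
  have h1 := one_sub_ne hb
  have h2 := gam_den (S.hg n) ht'
  have h3 := D.lam_deriv t' ht'
  have hI : (2 : ℂ) * I ≠ 0 := by simp
  have hJ : ((S.a n : ℂ) + I * S.c n) * t' + (S.b n + I * S.d n) =
      2 * I * ((S.c n * t' + S.d n) / (1 - w')) := by
    rw [hfac]; field_simp
  rw [hpt, hJ]
  unfold toDisc LFam.h
  rw [hder]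
  field_simp

end Pool.Agent.T05.E4
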