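import Pool.Agent.Lib.MP_0162a5_an.E4_def
import Pool.Agent.Lib.MP_0162a5_an.E4_seq
import Pool.Agent.Lib.MP_0162a5_an.E4_quad

/-! MODULE E4: renormalisation.

`a₁(X) := (V X).1 / deriv lam (τ₁ X)`.  `L : (0,1) × HH → TT` continuous lift of
`(x, τ) ↦ (lam τ, mm τ x)` (`lift_convex`) with `τ₁ (L x τ) = τ`; each `L x` is holomorphic, and
`InC.herg` with `u = Prod.fst` says `a₁ ∘ L x` is `Herg`.  (If `V.1 ≡ 0`, take `V' = V`, `A = 0`.)
The oscillation lemma gives points `X_n = L x_n τ_n` in the thick part, going to the boundary; they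
are moved back to a compact part by deck transformations `γ_n`; `V_n = κ_n V ∘ γ_n` converges.
-/

set_option autoImplicit false

open Complex Metric Set Filter Topology

namespace Pool.Agent.T05

namespace E4

variable {D : ModularData} {U : UnivCover} {τ₁ : TT → ℂ} {F : LFam D U τ₁}

theorem unif_tendsto {ι : Type*} {l : Filter ι} {f : ι → TT → ℂ × ℂ} {g : TT → ℂ × ℂ}
    (hf : ∀ K : Set TT, IsCompact K → TendstoUniformlyOn f g l K) (hg : Continuous g)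
    {x : ι → TT} {y : TT} (hx : Tendsto x l (𝓝 y)) :
    Tendsto (fun n => f n (x n)) l (𝓝 (g y)) := by
  have h1 := hf (closedBall y 1) (isCompact_closedBall y 1)
  have h2 : ∀ᶠ n in l, x n ∈ closedBall y 1 := hx.eventually (closedBall_mem_nhds y one_pos)
  rw [Metric.tendsto_nhds]
  intro ε hε
  have h3 := Metric.tendstoUniformlyOn_iff.1 h1 (ε / 2) (by positivity)
  have h4 := Metric.tendsto_nhds.1 ((hg.tendsto y).comp hx) (ε / 2) (by positivity)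
  filter_upwards [h2, h3, h4] with n e1 e2 e3
  have e4 := e2 _ e1
  rw [dist_comm] at e4
  calc dist (f n (x n)) (g y) ≤ dist (f n (x n)) (g (x n)) + dist (g (x n)) (g y) :=
        dist_triangle _ _ _
    _ < ε / 2 + ε / 2 := add_lt_add e4 e3
    _ = ε := by ring

/-- the factor `J` -/
noncomputable def RSeq.J (S : RSeq F) (n : ℕ) (t : ℂ) : ℂ :=
  ((S.a n : ℂ) + I * S.c n) * t + (S.b n + I * S.d n)

theorem RSeq.w_mem (S : RSeq F) (n : ℕ) :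
    (S.r n : ℂ) * exp (S.θ n * I) ∈ ball (0 : ℂ) 1 := rexp_mem (S.hr0 n) (S.hr1 n)

theorem RSeq.w_norm (S : RSeq F) (n : ℕ) : ‖(S.r n : ℂ) * exp (S.θ n * I)‖ = S.r n := by
  rw [norm_mul, Complex.norm_exp_ofReal_mul_I, mul_one, Complex.norm_real,
    Real.norm_eq_abs, abs_of_pos (S.hr0 n)]

theorem RSeq.J_norm (S : RSeq F) (hHH : ∀ X, τ₁ X ∈ HH) (n : ℕ) :
    ‖S.J n (τ₁ (S.Y n))‖ ^ 2 = 4 * (τ₁ (S.Y n)).im / (1 - S.r n ^ 2) := by
  have := cay_factor_norm (S.hg n) (hHH (S.Y n)) (S.w_mem n) (S.cay_eq n)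
  rw [S.w_norm n] at this
  exact this

theorem RSeq.J_norm' (S : RSeq F) (hHH : ∀ X, τ₁ X ∈ HH) (n : ℕ) :
    ‖(S.a n : ℂ) * τ₁ (S.Y n) + S.b n‖ ^ 2 ≤ ‖S.J n (τ₁ (S.Y n))‖ ^ 2 ∧
    ‖(S.c n : ℂ) * τ₁ (S.Y n) + S.d n‖ ^ 2 ≤ ‖S.J n (τ₁ (S.Y n))‖ ^ 2 := by
  have h1 := cay_factor_norm' (S.hg n) (t := τ₁ (S.Y n))
  have h2 : 0 < (τ₁ (S.Y n)).im := hHH _
  unfold RSeq.J
  rw [h1]
  constructor <;> nlinarith [sq_nonneg ‖(S.a n : ℂ) * τ₁ (S.Y n) + S.b n‖,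
    sq_nonneg ‖(S.c n : ℂ) * τ₁ (S.Y n) + S.d n‖]

theorem RSeq.den_norm (S : RSeq F) (hHH : ∀ X, τ₁ X ∈ HH) (n : ℕ) :
    ‖(S.c n : ℂ) * τ₁ (S.Y n) + S.d n‖ ^ 2 * (1 - S.r n ^ 2) =
      (τ₁ (S.Y n)).im * ‖1 - (S.r n : ℂ) * exp (S.θ n * I)‖ ^ 2 := by
  have h1 := gam_im (S.hg n) (hHH (S.Y n))
  rw [← S.cay_eq n, cay_im (S.w_mem n), S.w_norm n] at h1
  have h2 : 0 < ‖(S.c n : ℂ) * τ₁ (S.Y n) + S.d n‖ := norm_pos_iff.2 (gam_den (S.hg n) (hHH _))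
  have h3 : 0 < ‖1 - (S.r n : ℂ) * exp (S.θ n * I)‖ := norm_pos_iff.2 (one_sub_ne (S.w_mem n))
  rw [div_eq_div_iff (by positivity) (by positivity)] at h1
  linarith

/-- thickness bounds the distance of the fibre coordinate from the lattice -/
theorem RSeq.thick_dist (S : RSeq F) (hHH : ∀ X, τ₁ X ∈ HH) (n : ℕ) {κ : ℝ}
    (hth : Thick κ (cay (S.r n * exp (S.θ n * I))) (S.x n)) (k j k₀ l₀ : ℤ) :
    κ * (τ₁ (S.Y n)).im ≤ ‖(((S.x n * S.c n - 2 * k : ℝ) : ℂ) * τ₁ (S.Y n) +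
      ((S.x n * S.d n - 2 * j : ℝ) : ℂ)) - (l₀ * τ₁ (S.Y n) + k₀)‖ ^ 2 := by
  have hg := S.hg n
  set t := τ₁ (S.Y n) with ht
  have htm : t ∈ HH := hHH _
  have h1 := gam_im hg htm
  have hden := gam_den hg htm
  have hdp : 0 < ‖(S.c n : ℂ) * t + S.d n‖ := norm_pos_iff.2 hden
  have h2 := hth.2 (S.a n * (k₀ + 2 * j) - S.b n * (l₀ + 2 * k))
    (S.d n * (l₀ + 2 * k) - S.c n * (k₀ + 2 * j))
  rw [S.cay_eq n, ← ht, h1] at h2
  have hdet := gam_det hg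
  have h3 : ((((S.x n * S.c n - 2 * k : ℝ) : ℂ) * t +
      ((S.x n * S.d n - 2 * j : ℝ) : ℂ)) - (l₀ * t + k₀)) =
      ((S.x n : ℂ) - ((S.a n * (k₀ + 2 * j) - S.b n * (l₀ + 2 * k) : ℤ) : ℂ) -
      ((S.d n * (l₀ + 2 * k) - S.c n * (k₀ + 2 * j) : ℤ) : ℂ) *
      ((S.a n * t + S.b n) / (S.c n * t + S.d n))) * (S.c n * t + S.d n) := by
    push_cast
    field_simp
    linear_combination ((k₀ + 2 * j) + (l₀ + 2 * k) * t) * hdet
  rw [h3, norm_mul, mul_pow]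
  have h4 : κ * t.im = κ * (t.im / ‖(S.c n : ℂ) * t + S.d n‖ ^ 2) *
      ‖(S.c n : ℂ) * t + S.d n‖ ^ 2 := by
    field_simp
  rw [h4]
  exact mul_le_mul_of_nonneg_right h2 (by positivity)

theorem RSeq.pt_zero (S : RSeq F) (n : ℕ) : S.pt n (0, 0) = S.Y n := by
  unfold RSeq.pt
  simp only [zero_mul, add_zero, mob_zero]
  rw [mul_comm (exp (S.θ n * I)), ← S.hγ n, Homeomorph.symm_apply_apply]

theorem RSeq.star_zero (S : RSeq F) (hHH : ∀ X, τ₁ X ∈ HH) (V : TT → ℂ × ℂ) (n : ℕ) :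
    ‖(V (S.γ n (S.Y n))).1‖ = ‖deriv D.lam (τ₁ (S.Y n))‖ *
      (‖toDisc (F.h V (S.x n)) (S.r n * exp (S.θ n * I))‖ *
      (‖S.J n (τ₁ (S.Y n))‖ ^ 2 / 2)) := by
  have h1 := S.star hHH V n (z := (0, 0)) (by simp) (by simpa using S.x_mem n)
  rw [S.pt_zero] at h1
  simp only [zero_mul, add_zero, mob_zero] at h1
  rw [h1, norm_mul, norm_mul, norm_div, norm_pow, mul_comm (exp (S.θ n * I))]
  simp [RSeq.J]

theorem Mob_inv {t ts e : ℂ} (ht : t ∈ HH) (hts : ts ∈ HH) (he : ‖e‖ = 1) :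
    Mob ts e ((t - ts) / (e * (t - (starRingEnd ℂ) ts))) = t := by
  have he0 : e ≠ 0 := by
    intro h; rw [h] at he; simp at he
  have h1 : t - (starRingEnd ℂ) ts ≠ 0 := by
    intro h
    have := congrArg Complex.im h
    simp at this
    have h2 : 0 < t.im := ht
    have h3 : 0 < ts.im := hts
    linarith
  have h2 : ts - (starRingEnd ℂ) ts ≠ 0 := by
    intro h
    have := congrArg Complex.im h
    simp at this
    have h3 : 0 < ts.im := hts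
    linarith
  unfold Mob
  set c := (starRingEnd ℂ) ts
  have e1 : ts - c * e * ((t - ts) / (e * (t - c))) = t * (ts - c) / (t - c) := by
    field_simp
    ring
  have e2 : 1 - e * ((t - ts) / (e * (t - c))) = (ts - c) / (t - c) := by
    field_simp
    ring
  rw [e1, e2]
  field_simp

theorem norm_coeff {κ : ℝ} (hκ : 0 ≤ κ) (a b : ℤ) (t : ℂ) :
    ‖((Real.sqrt κ * a : ℝ) : ℂ) * t + ((Real.sqrt κ * b : ℝ) : ℂ)‖ ^ 2 =
      κ * ‖(a : ℂ) * t + b‖ ^ 2 := by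
  have : ((Real.sqrt κ * a : ℝ) : ℂ) * t + ((Real.sqrt κ * b : ℝ) : ℂ) =
      (Real.sqrt κ : ℂ) * ((a : ℂ) * t + b) := by
    push_cast
    ring
  rw [this, norm_mul, mul_pow, Complex.norm_real, Real.norm_eq_abs, sq_abs, Real.sq_sqrt hκ]

theorem le_of_sq_le {x B : ℝ} (h : x ^ 2 ≤ B) : x ≤ Real.sqrt B :=
  (le_abs_self x).trans (Real.abs_le_sqrt h)

/-- limits of the coefficients `σ`, `ρ`. -/
theorem RSeq.exists_sigma (S : RSeq F) (hHH : ∀ X, τ₁ X ∈ HH) (l : Ultrafilter ℕ) {ts : ℂ}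
    (hts : ts ∈ HH) (ht : Tendsto (fun n => τ₁ (S.Y n)) (l : Filter ℕ) (𝓝 ts))
    (hr : Tendsto S.r (l : Filter ℕ) (𝓝 1)) {δ : ℝ} (hδ : 0 < δ)
    (hθ : ∀ n, S.θ n ∈ Icc δ (2 * Real.pi - δ)) :
    ∃ σ ρ : ℝ, ¬ (σ = 0 ∧ ρ = 0) ∧
      Tendsto (fun n => Real.sqrt (1 - S.r n) * S.c n) (l : Filter ℕ) (𝓝 σ) ∧
      Tendsto (fun n => Real.sqrt (1 - S.r n) * S.d n) (l : Filter ℕ) (𝓝 ρ) := by
  have hts' : 0 < ts.im := hts
  have him : Tendsto (fun n => (τ₁ (S.Y n)).im) (l : Filter ℕ) (𝓝 ts.im) :=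
    (Complex.continuous_im.tendsto ts).comp ht
  have hnn : ∀ n, 0 ≤ 1 - S.r n := fun n => by linarith [S.hr1 n]
  have hident : ∀ n, ‖((Real.sqrt (1 - S.r n) * S.c n : ℝ) : ℂ) * τ₁ (S.Y n) +
      ((Real.sqrt (1 - S.r n) * S.d n : ℝ) : ℂ)‖ ^ 2 * (1 + S.r n) =
      (τ₁ (S.Y n)).im * ‖1 - (S.r n : ℂ) * exp (S.θ n * I)‖ ^ 2 := by
    intro n
    rw [norm_coeff (hnn n), ← S.den_norm hHH n]
    ring
  have hbd : ∀ᶠ n in (l : Filter ℕ), ‖((Real.sqrt (1 - S.r n) * S.c n : ℝ) : ℂ) * τ₁ (S.Y n) +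
      ((Real.sqrt (1 - S.r n) * S.d n : ℝ) : ℂ)‖ ≤ Real.sqrt ((ts.im + 1) * 4) := by
    filter_upwards [him.eventually (gt_mem_nhds (show ts.im < ts.im + 1 by linarith))] with n hn
    apply le_of_sq_le
    have h1 := hident n
    have h2 : ‖1 - (S.r n : ℂ) * exp (S.θ n * I)‖ ≤ 2 := by
      calc ‖1 - (S.r n : ℂ) * exp (S.θ n * I)‖ ≤ ‖(1 : ℂ)‖ + ‖(S.r n : ℂ) * exp (S.θ n * I)‖ :=
            norm_sub_le _ _
        _ ≤ 2 := by rw [S.w_norm, norm_one]; linarith [S.hr1 n]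
    have h3 : ‖1 - (S.r n : ℂ) * exp (S.θ n * I)‖ ^ 2 ≤ 4 := by
      nlinarith [norm_nonneg (1 - (S.r n : ℂ) * exp (S.θ n * I))]
    have h4 : (τ₁ (S.Y n)).im * ‖1 - (S.r n : ℂ) * exp (S.θ n * I)‖ ^ 2 ≤ (ts.im + 1) * 4 :=
      mul_le_mul hn.le h3 (by positivity) (by linarith)
    rw [← h1] at h4
    have h5 := sq_nonneg ‖((Real.sqrt (1 - S.r n) * S.c n : ℝ) : ℂ) * τ₁ (S.Y n) +
      ((Real.sqrt (1 - S.r n) * S.d n : ℝ) : ℂ)‖
    nlinarith [S.hr0 n]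
  obtain ⟨σ, ρ, hσ, hρ⟩ := coeff_lim l ht hts hbd
  refine ⟨σ, ρ, ?_, hσ, hρ⟩
  rintro ⟨hs0, hr0'⟩
  obtain ⟨θs, hθs, hθl⟩ := ultra_lim (isCompact_Icc (a := δ) (b := 2 * Real.pi - δ)) l S.θ
    (Eventually.of_forall hθ)
  have e1 : Tendsto (fun n => ‖((Real.sqrt (1 - S.r n) * S.c n : ℝ) : ℂ) * τ₁ (S.Y n) +
      ((Real.sqrt (1 - S.r n) * S.d n : ℝ) : ℂ)‖ ^ 2 * (1 + S.r n)) (l : Filter ℕ)
      (𝓝 (‖(σ : ℂ) * ts + (ρ : ℂ)‖ ^ 2 * (1 + 1))) := by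
    have a1 : Tendsto (fun n => ((Real.sqrt (1 - S.r n) * S.c n : ℝ) : ℂ)) (l : Filter ℕ)
      (𝓝 (σ : ℂ)) := (Complex.continuous_ofReal.tendsto σ).comp hσ
    have a2 : Tendsto (fun n => ((Real.sqrt (1 - S.r n) * S.d n : ℝ) : ℂ)) (l : Filter ℕ)
      (𝓝 (ρ : ℂ)) := (Complex.continuous_ofReal.tendsto ρ).comp hρ
    exact ((((a1.mul ht).add a2).norm).pow 2).mul (tendsto_const_nhds.add hr)
  have e2 : Tendsto (fun n => (τ₁ (S.Y n)).im * ‖1 - (S.r n : ℂ) * exp (S.θ n * I)‖ ^ 2)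
      (l : Filter ℕ) (𝓝 (ts.im * ‖1 - ((1 : ℝ) : ℂ) * exp (θs * I)‖ ^ 2)) := by
    have a1 : Tendsto (fun n => (S.r n : ℂ)) (l : Filter ℕ) (𝓝 ((1 : ℝ) : ℂ)) :=
      (Complex.continuous_ofReal.tendsto 1).comp hr
    have a2 : Tendsto (fun n => exp (S.θ n * I)) (l : Filter ℕ) (𝓝 (exp (θs * I))) := by
      have : Continuous (fun θ : ℝ => exp (θ * I)) := by fun_prop
      exact (this.tendsto θs).comp hθl
    exact him.mul (((tendsto_const_nhds.sub (a1.mul a2)).norm).pow 2)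
  have e3 := tendsto_nhds_unique (e1.congr hident) e2
  rw [hs0, hr0'] at e3
  simp only [ofReal_zero, zero_mul, add_zero, norm_zero, ofReal_one, one_mul] at e3
  have e4 : ‖1 - exp (θs * I)‖ ^ 2 = 0 := by
    have : ts.im * ‖1 - exp (θs * I)‖ ^ 2 = 0 := by
      rw [← e3]; norm_num
    exact (mul_eq_zero.1 this).resolve_left hts'.ne'
  have e5 : exp (θs * I) = 1 := by
    have : ‖1 - exp (θs * I)‖ = 0 := by simpa using e4
    rw [norm_eq_zero] at this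
    linear_combination -this
  rw [Complex.exp_eq_one_iff] at e5
  obtain ⟨m, hm⟩ := e5
  have e6 : θs = m * (2 * Real.pi) := by
    have h1 : (θs : ℂ) * I = ((m : ℂ) * (2 * Real.pi)) * I := by rw [hm]; ring
    have h2 := mul_right_cancel₀ I_ne_zero h1
    exact_mod_cast h2
  have hpi := Real.pi_pos
  have h7 : 0 < (m : ℝ) * (2 * Real.pi) := by rw [← e6]; linarith [hθs.1]
  have h8 : (m : ℝ) * (2 * Real.pi) < 2 * Real.pi := by rw [← e6]; linarith [hθs.2]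
  have h9 : (0 : ℝ) < m := by
    by_contra hc
    push Not at hc
    nlinarith
  have h10 : (m : ℝ) < 1 := by
    by_contra hc
    push Not at hc
    nlinarith
  have h11 : (0 : ℤ) < m := by exact_mod_cast h9
  have h12 : m < (1 : ℤ) := by exact_mod_cast h10
  omega

/-- limits of the coefficients `p`, `q`. -/
theorem RSeq.exists_pq (S : RSeq F) (hHH : ∀ X, τ₁ X ∈ HH) (l : Ultrafilter ℕ) {ts : ℂ}
    (hts : ts ∈ HH) (ht : Tendsto (fun n => τ₁ (S.Y n)) (l : Filter ℕ) (𝓝 ts)) {κ : ℝ}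
    (hκ : 0 < κ) (hth : ∀ n, Thick κ (cay (S.r n * exp (S.θ n * I))) (S.x n)) :
    ∃ (p q : ℝ) (k j : ℕ → ℤ), (¬ ∃ k l : ℤ, p = l ∧ q = k) ∧
      Tendsto (fun n => S.x n * S.c n - 2 * k n) (l : Filter ℕ) (𝓝 p) ∧
      Tendsto (fun n => S.x n * S.d n - 2 * j n) (l : Filter ℕ) (𝓝 q) := by
  have hts' : 0 < ts.im := hts
  have hfl : ∀ y : ℝ, |y - 2 * ⌊y / 2⌋| ≤ 2 := by
    intro y
    have h1 := Int.floor_le (y / 2)
    have h2 := Int.lt_floor_add_one (y / 2)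
    rw [abs_le]
    constructor <;> linarith
  obtain ⟨p, _, hp⟩ := ultra_lim_real l (fun n => S.x n * S.c n - 2 * ⌊S.x n * S.c n / 2⌋) 2
    (Eventually.of_forall fun n => hfl _)
  obtain ⟨q, _, hq⟩ := ultra_lim_real l (fun n => S.x n * S.d n - 2 * ⌊S.x n * S.d n / 2⌋) 2
    (Eventually.of_forall fun n => hfl _)
  refine ⟨p, q, fun n => ⌊S.x n * S.c n / 2⌋, fun n => ⌊S.x n * S.d n / 2⌋, ?_, hp, hq⟩
  rintro ⟨k₀, l₀, hp0, hq0⟩
  have him : Tendsto (fun n => (τ₁ (S.Y n)).im) (l : Filter ℕ) (𝓝 ts.im) :=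
    (Complex.continuous_im.tendsto ts).comp ht
  have a1 : Tendsto (fun n => ((S.x n * S.c n - 2 * ⌊S.x n * S.c n / 2⌋ : ℝ) : ℂ))
    (l : Filter ℕ) (𝓝 (p : ℂ)) := (Complex.continuous_ofReal.tendsto p).comp hp
  have a2 : Tendsto (fun n => ((S.x n * S.d n - 2 * ⌊S.x n * S.d n / 2⌋ : ℝ) : ℂ))
    (l : Filter ℕ) (𝓝 (q : ℂ)) := (Complex.continuous_ofReal.tendsto q).comp hq
  have e1 : Tendsto (fun n => ‖(((S.x n * S.c n - 2 * ⌊S.x n * S.c n / 2⌋ : ℝ) : ℂ) *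
      τ₁ (S.Y n) + ((S.x n * S.d n - 2 * ⌊S.x n * S.d n / 2⌋ : ℝ) : ℂ)) -
      (l₀ * τ₁ (S.Y n) + k₀)‖ ^ 2) (l : Filter ℕ)
      (𝓝 (‖((p : ℂ) * ts + (q : ℂ)) - (l₀ * ts + k₀)‖ ^ 2)) :=
    ((((a1.mul ht).add a2).sub ((ht.const_mul _).add_const _)).norm).pow 2
  have e2 : Tendsto (fun n => κ * (τ₁ (S.Y n)).im) (l : Filter ℕ) (𝓝 (κ * ts.im)) :=
    him.const_mul κ
  have e3 := le_of_tendsto_of_tendsto' e2 e1 (fun n => S.thick_dist hHH n (hth n) _ _ k₀ l₀)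
  rw [hp0, hq0] at e3
  push_cast at e3
  rw [sub_self] at e3
  simp at e3
  nlinarith [mul_pos hκ hts']

/-- The main limit argument. -/
theorem core (F : LFam D U τ₁) (c1 : Continuous τ₁) (h1 : U.Hol τ₁)
    (h1' : ∀ X, τ₁ X ∈ HH ∧ D.lam (τ₁ X) = (U.P X).1) {V : TT → ℂ × ℂ} (hV : U.InC V)
    (h0 : ∃ X, (V X).1 ≠ 0) :
    ∃ (V' : TT → ℂ × ℂ) (γ : ℕ → (TT ≃ₜ TT)) (κ : ℕ → ℝ) (l : Ultrafilter ℕ),
      U.InC V' ∧ (∃ X, V' X ≠ 0) ∧ QuadAt D τ₁ (fun X => (V' X).1) ∧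
      (∀ n X, U.P (γ n X) = U.P X) ∧ (∀ n, 0 < κ n) ∧
      ∀ X, Tendsto (fun n => (κ n : ℂ) * (V (γ n X)).2) (l : Filter ℕ) (𝓝 (V' X).2) := by
  have hHH := fun X => (h1' X).1
  obtain ⟨ζ, ξ, hζ, hdense⟩ := exists_test
  obtain ⟨S, R, κ₀, δ, K, hR, hκ₀, hδ, hK, hYK, hrt, hθ, hth, hGR, hten⟩ :=
    exists_RSeq F c1 h1' hV h0 ξ hζ
  set l : Ultrafilter ℕ := hyperfilter ℕ with hldef
  have hl : (l : Filter ℕ) ≤ atTop := Nat.hyperfilter_le_atTop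
  obtain ⟨Ys, hYsK, hYs⟩ := ultra_lim hK l S.Y (Eventually.of_forall hYK)
  have hr : Tendsto S.r (l : Filter ℕ) (𝓝 1) := hrt.mono_left hl
  set ts := τ₁ Ys with htsdef
  have hts : ts ∈ HH := hHH Ys
  have hts' : 0 < ts.im := hts
  have ht : Tendsto (fun n => τ₁ (S.Y n)) (l : Filter ℕ) (𝓝 ts) := (c1.tendsto Ys).comp hYs
  have him : Tendsto (fun n => (τ₁ (S.Y n)).im) (l : Filter ℕ) (𝓝 ts.im) :=
    (Complex.continuous_im.tendsto ts).comp ht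
  -- the reference bidisc
  obtain ⟨R₁, hR₁, hball⟩ := Metric.isOpen_iff.1 MM_isOpen (U.P Ys) (U.P_mem Ys)
  obtain ⟨s, hs⟩ := exists_sec U Ys hR₁ hball
  have hr2 : 0 < R₁ / 2 := by positivity
  have hr3 : R₁ / 2 < R₁ := by linarith
  set W := s '' closedBall (U.P Ys) (R₁ / 2) with hW
  have hWc : IsCompact W := (isCompact_closedBall _ _).image_of_continuousOn
    (hs.2.2.1.mono (closedBall_subset_ball hr3))
  have hWne : W.Nonempty := ⟨s (U.P Ys), mem_image_of_mem s (mem_closedBall_self hr2.le)⟩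
  have hVc : Continuous V := Hol.continuous (InC.hol U hV)
  have hVn : ∀ n, U.InC (fun X => V (S.γ n X)) := fun n => InC.deck U hV (S.hγP n)
  have hmax : ∀ n, ∃ Z ∈ W, ∀ X ∈ W, ‖V (S.γ n X)‖ ≤ ‖V (S.γ n Z)‖ := by
    intro n
    obtain ⟨Z, hZ, hZm⟩ := hWc.exists_isMaxOn hWne
      (f := fun X => ‖V (S.γ n X)‖) ((hVc.comp (S.γ n).continuous).norm.continuousOn)
    exact ⟨Z, hZ, fun X hX => hZm hX⟩
  choose Z hZW hZmax using hmax
  set N : ℕ → ℝ := fun n => ‖V (S.γ n (Z n))‖ with hN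
  have hN0 : ∀ n, 0 ≤ N n := fun n => norm_nonneg _
  set κ : ℕ → ℝ := fun n => (max (N n) 1)⁻¹ with hκdef
  have hκ : ∀ n, 0 < κ n := fun n => inv_pos.2 (lt_of_lt_of_le one_pos (le_max_right _ _))
  have hκN : ∀ n, κ n * N n ≤ 1 := by
    intro n
    have h2 : 0 < max (N n) 1 := lt_of_lt_of_le one_pos (le_max_right _ _)
    show (max (N n) 1)⁻¹ * N n ≤ 1
    rw [inv_mul_le_iff₀ h2, mul_one]
    exact le_max_left _ _
  obtain ⟨C, hC, hCb⟩ := InC.bound U D Ys hs hr2 hr3 K hK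
  have hYb : ∀ n, ‖V (S.γ n (S.Y n))‖ ≤ C * N n := fun n =>
    hCb _ (hVn n) (N n) (fun X hX => hZmax n X hX) (S.Y n) (hYK n)
  -- bound of J
  have hL0 : 0 < ‖deriv D.lam ts‖ := norm_pos_iff.2 (D.lam_deriv ts hts)
  have hderc : ContinuousAt (deriv D.lam) ts :=
    (lam_deriv_contOn D).continuousAt (HH_isOpen.mem_nhds hts)
  have hder : Tendsto (fun n => ‖deriv D.lam (τ₁ (S.Y n))‖) (l : Filter ℕ)
      (𝓝 ‖deriv D.lam ts‖) := (hderc.tendsto.comp ht).norm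
  set C₁ : ℝ := 4 * C * R / ‖deriv D.lam ts‖ with hC₁
  have hC₁p : 0 < C₁ := by positivity
  have hJ : ∀ᶠ n in (l : Filter ℕ), ‖S.J n (τ₁ (S.Y n))‖ ^ 2 ≤ C₁ * N n := by
    filter_upwards [hder.eventually (lt_mem_nhds (half_lt_self hL0))] with n hn
    have e1 := S.star_zero hHH V n
    have e2 : ‖(V (S.γ n (S.Y n))).1‖ ≤ C * N n := (norm_fst_le _).trans (hYb n)
    have e3 := (hGR n).1
    set j := ‖S.J n (τ₁ (S.Y n))‖ ^ 2 with hj
    have hj0 : 0 ≤ j := by positivity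
    have e4 : ‖deriv D.lam ts‖ / 2 * (1 / R * (j / 2)) ≤ C * N n := by
      refine le_trans ?_ e2
      rw [e1]
      refine mul_le_mul hn.le ?_ (by positivity) (norm_nonneg _)
      exact mul_le_mul_of_nonneg_right e3 (by positivity)
    have e5 : j = 4 * R / ‖deriv D.lam ts‖ * (‖deriv D.lam ts‖ / 2 * (1 / R * (j / 2))) := by
      field_simp
      ring
    rw [e5, hC₁]
    calc 4 * R / ‖deriv D.lam ts‖ * (‖deriv D.lam ts‖ / 2 * (1 / R * (j / 2)))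
        ≤ 4 * R / ‖deriv D.lam ts‖ * (C * N n) :=
          mul_le_mul_of_nonneg_left e4 (by positivity)
      _ = 4 * C * R / ‖deriv D.lam ts‖ * N n := by ring
  have hκJ : ∀ᶠ n in (l : Filter ℕ), κ n * ‖S.J n (τ₁ (S.Y n))‖ ^ 2 ≤ C₁ := by
    filter_upwards [hJ] with n hn
    calc κ n * ‖S.J n (τ₁ (S.Y n))‖ ^ 2 ≤ κ n * (C₁ * N n) :=
          mul_le_mul_of_nonneg_left hn (hκ n).le
      _ = C₁ * (κ n * N n) := by ring
      _ ≤ C₁ * 1 := mul_le_mul_of_nonneg_left (hκN n) hC₁p.le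
      _ = C₁ := mul_one _
  have hκ0 : Tendsto κ (l : Filter ℕ) (𝓝 0) := by
    have e1 : Tendsto (fun n => C₁ * (1 - S.r n ^ 2) / (4 * (τ₁ (S.Y n)).im)) (l : Filter ℕ)
        (𝓝 (C₁ * (1 - 1 ^ 2) / (4 * ts.im))) :=
      ((tendsto_const_nhds.sub (hr.pow 2)).const_mul C₁).div (him.const_mul 4) (by positivity)
    have e2 : C₁ * (1 - 1 ^ 2) / (4 * ts.im) = 0 := by norm_num
    rw [e2] at e1
    refine tendsto_of_tendsto_of_tendsto_of_le_of_le' tendsto_const_nhds e1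
      (Eventually.of_forall fun n => (hκ n).le) ?_
    filter_upwards [hκJ] with n hn
    rw [S.J_norm hHH n] at hn
    have e3 : 0 < (τ₁ (S.Y n)).im := hHH _
    have e4 : 0 < 1 - S.r n ^ 2 := by nlinarith [S.hr0 n, S.hr1 n]
    rw [le_div_iff₀ (by positivity)]
    rw [mul_div_assoc', div_le_iff₀ e4] at hn
    exact hn
  have hκN1 : ∀ᶠ n in (l : Filter ℕ), κ n * N n = 1 := by
    filter_upwards [hκ0.eventually (gt_mem_nhds one_pos)] with n hn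
    have e1 : 1 < max (N n) 1 := by
      by_contra hc
      push Not at hc
      have : max (N n) 1 = 1 := le_antisymm hc (le_max_right _ _)
      have e2 : κ n = 1 := by
        show (max (N n) 1)⁻¹ = 1
        rw [this, inv_one]
      linarith
    have e2 : 1 < N n := by
      rcases lt_max_iff.1 e1 with h | h
      · exact h
      · exact absurd h (lt_irrefl _)
    have e3 : max (N n) 1 = N n := max_eq_left e2.le
    show (max (N n) 1)⁻¹ * N n = 1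
    rw [e3]
    exact inv_mul_cancel₀ (by linarith)
  -- normalised coefficients
  have hAB : ∀ᶠ n in (l : Filter ℕ), ‖((Real.sqrt (κ n) * S.a n : ℝ) : ℂ) * τ₁ (S.Y n) +
      ((Real.sqrt (κ n) * S.b n : ℝ) : ℂ)‖ ≤ Real.sqrt C₁ := by
    filter_upwards [hκJ] with n hn
    apply le_of_sq_le
    rw [norm_coeff (hκ n).le]
    exact (mul_le_mul_of_nonneg_left (S.J_norm' hHH n).1 (hκ n).le).trans hn
  have hCE : ∀ᶠ n in (l : Filter ℕ), ‖((Real.sqrt (κ n) * S.c n : ℝ) : ℂ) * τ₁ (S.Y n) +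
      ((Real.sqrt (κ n) * S.d n : ℝ) : ℂ)‖ ≤ Real.sqrt C₁ := by
    filter_upwards [hκJ] with n hn
    apply le_of_sq_le
    rw [norm_coeff (hκ n).le]
    exact (mul_le_mul_of_nonneg_left (S.J_norm' hHH n).2 (hκ n).le).trans hn
  obtain ⟨A, B, hA, hB⟩ := coeff_lim l ht hts hAB
  obtain ⟨C', E, hC', hE⟩ := coeff_lim l ht hts hCE
  have hdet : A * E - B * C' = 0 := by
    have e1 : Tendsto (fun n => (Real.sqrt (κ n) * S.a n) * (Real.sqrt (κ n) * S.d n) -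
        (Real.sqrt (κ n) * S.b n) * (Real.sqrt (κ n) * S.c n)) (l : Filter ℕ)
        (𝓝 (A * E - B * C')) := (hA.mul hE).sub (hB.mul hC')
    have e2 : ∀ n, (Real.sqrt (κ n) * S.a n) * (Real.sqrt (κ n) * S.d n) -
        (Real.sqrt (κ n) * S.b n) * (Real.sqrt (κ n) * S.c n) = κ n := by
      intro n
      have e3 : (S.a n : ℝ) * S.d n - S.b n * S.c n = 1 := by exact_mod_cast (S.hg n).1
      have e4 := Real.mul_self_sqrt (hκ n).le
      linear_combination (S.a n * S.d n - S.b n * S.c n) * e4 + κ n * e3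
    exact tendsto_nhds_unique (e1.congr e2) hκ0
  obtain ⟨σ, ρ, hσρ, hσ, hρ⟩ := S.exists_sigma hHH l hts ht hr hδ hθ
  obtain ⟨p, q, k, j, hpq, hp, hq⟩ := S.exists_pq hHH l hts ht hκ₀ hth
  have hexe : ∀ n, ∃ e : ℂ, ‖e‖ = 1 ∧ ∀ ζ ∈ ball (0 : ℂ) 1,
      cay (exp (S.θ n * I) * mob (S.r n) ζ) = (S.a n * Mob (τ₁ (S.Y n)) e ζ + S.b n) /
        (S.c n * Mob (τ₁ (S.Y n)) e ζ + S.d n) := fun n =>
    cay_mob (S.hg n) (hHH _) (S.hr0 n) (S.hr1 n) (S.cay_eq n)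
  choose e he hcm using hexe
  obtain ⟨es, _, hes⟩ := ultra_lim (isCompact_closedBall (0 : ℂ) 1) l e
    (Eventually.of_forall fun n => by rw [mem_closedBall_zero_iff, he n])
  obtain ⟨hes1, ξ₀, hξ₀, Φ, hΦc, hΦP, hΦτ, hΦt⟩ := S.limit c1 h1' l hYs hr hp hq hσ hρ hpq he hcm hes
  -- the limit field
  obtain ⟨V', hV', hlim⟩ := InC.limit U D Ys hs hr2 hr3 l
    (fun n X => (κ n : ℂ) • V (S.γ n X)) (fun n => InC.smul U (hVn n) (hκ n)) 1 (by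
      intro n X hX
      rw [norm_smul, Complex.norm_real, Real.norm_eq_abs, abs_of_pos (hκ n)]
      exact (mul_le_mul_of_nonneg_left (hZmax n X hX) (hκ n).le).trans (hκN n))
  have hV'c : Continuous V' := Hol.continuous (InC.hol U hV')
  have hV'ne : ∃ X, V' X ≠ 0 := by
    obtain ⟨Zs, _, hZs⟩ := ultra_lim hWc l Z (Eventually.of_forall hZW)
    refine ⟨Zs, fun hz => ?_⟩
    have e1 := (unif_tendsto hlim hV'c hZs).norm
    have e2 : Tendsto (fun n => ‖(κ n : ℂ) • V (S.γ n (Z n))‖) (l : Filter ℕ) (𝓝 1) := by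
      refine tendsto_const_nhds.congr' ?_
      filter_upwards [hκN1] with n hn
      rw [norm_smul, Complex.norm_real, Real.norm_eq_abs, abs_of_pos (hκ n)]
      exact hn.symm
    have e3 := tendsto_nhds_unique e1 e2
    rw [hz, norm_zero] at e3
    exact one_ne_zero e3.symm
  -- the first component
  obtain ⟨Gs, _, hGs⟩ := ultra_lim (isCompact_closedBall (0 : ℂ) R) l
    (fun n => toDisc (F.h V (S.x n)) (S.r n * exp (S.θ n * I)))
    (Eventually.of_forall fun n => by rw [mem_closedBall_zero_iff]; exact (hGR n).2)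
  obtain ⟨μ, a', c', hrank⟩ := rank_one hdet
  have hquad : ∀ i, ξ i ∈ Ioo (-ξ₀) ξ₀ → (V' (Φ (ζ i, ξ i))).1 =
      deriv D.lam (τ₁ (Φ (ζ i, ξ i))) * (Gs * μ ^ 2 / (2 * I) *
        (a' - c' * τ₁ (Φ (ζ i, ξ i))) ^ 2) := by
    intro i hi
    have hzA : ((ζ i, ξ i) : ℂ × ℝ) ∈ ball (0 : ℂ) 1 ×ˢ Ioo (-ξ₀) ξ₀ := ⟨hζ i, hi⟩
    have hpt := hΦt _ hzA
    have e1 : Tendsto (fun n => ((κ n : ℂ) • V (S.γ n (S.pt n (ζ i, ξ i)))).1) (l : Filter ℕ)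
        (𝓝 (V' (Φ (ζ i, ξ i))).1) :=
      (continuous_fst.tendsto _).comp (unif_tendsto hlim hV'c hpt)
    have hτt : Tendsto (fun n => τ₁ (S.pt n (ζ i, ξ i))) (l : Filter ℕ)
        (𝓝 (τ₁ (Φ (ζ i, ξ i)))) := (c1.tendsto _).comp hpt
    have hdt : Tendsto (fun n => deriv D.lam (τ₁ (S.pt n (ζ i, ξ i)))) (l : Filter ℕ)
        (𝓝 (deriv D.lam (τ₁ (Φ (ζ i, ξ i))))) :=
      ((lam_deriv_contOn D).continuousAt (HH_isOpen.mem_nhds (hHH _))).tendsto.comp hτt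
    have hGt : Tendsto (fun n => toDisc (F.h V (S.x n + ξ i * Real.sqrt (1 - S.r n)))
        (exp (S.θ n * I) * mob (S.r n) (ζ i))) (l : Filter ℕ) (𝓝 Gs) := by
      have := ((hten i).mono_left hl).add hGs
      simpa using this
    have cA : Tendsto (fun n => ((Real.sqrt (κ n) * S.a n : ℝ) : ℂ)) (l : Filter ℕ)
      (𝓝 (A : ℂ)) := (Complex.continuous_ofReal.tendsto A).comp hA
    have cB : Tendsto (fun n => ((Real.sqrt (κ n) * S.b n : ℝ) : ℂ)) (l : Filter ℕ)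
      (𝓝 (B : ℂ)) := (Complex.continuous_ofReal.tendsto B).comp hB
    have cC : Tendsto (fun n => ((Real.sqrt (κ n) * S.c n : ℝ) : ℂ)) (l : Filter ℕ)
      (𝓝 (C' : ℂ)) := (Complex.continuous_ofReal.tendsto C').comp hC'
    have cE : Tendsto (fun n => ((Real.sqrt (κ n) * S.d n : ℝ) : ℂ)) (l : Filter ℕ)
      (𝓝 (E : ℂ)) := (Complex.continuous_ofReal.tendsto E).comp hE
    have e2 : Tendsto (fun n => deriv D.lam (τ₁ (S.pt n (ζ i, ξ i))) *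
        (toDisc (F.h V (S.x n + ξ i * Real.sqrt (1 - S.r n)))
        (exp (S.θ n * I) * mob (S.r n) (ζ i)) *
        (((((Real.sqrt (κ n) * S.a n : ℝ) : ℂ) + I * ((Real.sqrt (κ n) * S.c n : ℝ) : ℂ)) *
          τ₁ (S.pt n (ζ i, ξ i)) + (((Real.sqrt (κ n) * S.b n : ℝ) : ℂ) +
          I * ((Real.sqrt (κ n) * S.d n : ℝ) : ℂ))) ^ 2 / (2 * I)))) (l : Filter ℕ)
        (𝓝 (deriv D.lam (τ₁ (Φ (ζ i, ξ i))) * (Gs *
        ((((A : ℂ) + I * C') * τ₁ (Φ (ζ i, ξ i)) + (B + I * E)) ^ 2 / (2 * I))))) :=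
      hdt.mul (hGt.mul ((((((cA.add (cC.const_mul I)).mul hτt).add
        (cB.add (cE.const_mul I))).pow 2).div_const (2 * I))))
    have hxm : ∀ᶠ n in (l : Filter ℕ), S.x n + ξ i * Real.sqrt (1 - S.r n) ∈ Ioo (0 : ℝ) 1 := by
      have g1 : Tendsto (fun n => 1 - S.r n) (l : Filter ℕ) (𝓝 (1 - 1)) := hr.const_sub 1
      have g2 := ((Real.continuous_sqrt.tendsto (1 - 1)).comp g1).const_mul (ξ i)
      simp only [sub_self, Real.sqrt_zero, mul_zero, Function.comp_def] at g2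
      filter_upwards [g2.eventually (Ioo_mem_nhds (show (-(1 / 4) : ℝ) < 0 by norm_num)
        (show (0 : ℝ) < 1 / 4 by norm_num))] with n hn
      have h4 := S.hx n
      exact ⟨by linarith [h4.1, hn.1], by linarith [h4.2, hn.2]⟩
    have e3 := tendsto_nhds_unique e1 (e2.congr' (by
      filter_upwards [hxm] with n hn
      have := S.star hHH V n (z := (ζ i, ξ i)) (hζ i) hn
      rw [Prod.smul_fst, smul_eq_mul, this]
      have hsq : ((Real.sqrt (κ n) : ℝ) : ℂ) ^ 2 = (κ n : ℂ) := by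
        rw [← ofReal_pow, Real.sq_sqrt (hκ n).le]
      rw [← hsq]
      push_cast
      ring))
    rw [e3, hrank]
    ring
  have hVHol : U.Hol (fun X => (V' X).1 - deriv D.lam (τ₁ X) * (Gs * μ ^ 2 / (2 * I) *
      (a' - c' * τ₁ X) ^ 2)) := by
    intro X s' r' hs'
    have d1 : DifferentiableOn ℂ (fun p => V' (s' p)) (ball (U.P X) r') :=
      InC.hol U hV' X s' r' hs'
    have d2 : DifferentiableOn ℂ (fun p => τ₁ (s' p)) (ball (U.P X) r') := h1 X s' r' hs'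
    have d3 : DifferentiableOn ℂ (fun p => deriv D.lam (τ₁ (s' p))) (ball (U.P X) r') :=
      (D.lam_diff.deriv HH_isOpen).comp d2 (fun p _ => hHH _)
    have d4 : DifferentiableOn ℂ (fun p => (V' (s' p)).1) (ball (U.P X) r') := d1.fst
    exact d4.sub (d3.mul ((((d2.const_mul _).const_sub _).pow 2).const_mul _))
  have hfc : Continuous (fun X => (V' X).1 - deriv D.lam (τ₁ X) * (Gs * μ ^ 2 / (2 * I) *
      (a' - c' * τ₁ X) ^ 2)) := Hol.continuous hVHol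
  have hAopen : IsOpen (ball (0 : ℂ) 1 ×ˢ Ioo (-ξ₀) ξ₀) := isOpen_ball.prod isOpen_Ioo
  have hzero : ∀ z ∈ ball (0 : ℂ) 1 ×ˢ Ioo (-ξ₀) ξ₀, (V' (Φ z)).1 - deriv D.lam (τ₁ (Φ z)) *
      (Gs * μ ^ 2 / (2 * I) * (a' - c' * τ₁ (Φ z)) ^ 2) = 0 := by
    intro z hz
    by_contra hne
    have hcz : ContinuousAt (fun z => (V' (Φ z)).1 - deriv D.lam (τ₁ (Φ z)) *
      (Gs * μ ^ 2 / (2 * I) * (a' - c' * τ₁ (Φ z)) ^ 2)) z :=
      ContinuousAt.comp (g := fun X => (V' X).1 - deriv D.lam (τ₁ X) * (Gs * μ ^ 2 / (2 * I) *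
      (a' - c' * τ₁ X) ^ 2)) hfc.continuousAt (hΦc.continuousAt (hAopen.mem_nhds hz))
    have hev := (hcz.eventually_ne hne).and (hAopen.mem_nhds hz)
    obtain ⟨i, hi⟩ := hdense z hz.1 _ hev
    exact hi.1 (by rw [hquad i hi.2.2, sub_self])
  refine ⟨V', S.γ, κ, l, hV', hV'ne, ⟨Gs * μ ^ 2 / (2 * I), a', c', fun X => ?_⟩, S.hγP, hκ, ?_⟩
  · have h0A : ((0 : ℂ), (0 : ℝ)) ∈ ball (0 : ℂ) 1 ×ˢ Ioo (-ξ₀) ξ₀ := ⟨by simp, by simp [hξ₀]⟩
    have hinner : ContinuousAt (fun y : ℂ × ℝ =>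
        (((y.1 - ts) / (es * (y.1 - (starRingEnd ℂ) ts)), y.2) : ℂ × ℝ)) (ts, 0) := by
      refine ContinuousAt.prodMk (ContinuousAt.div (by fun_prop) (by fun_prop) ?_) (by fun_prop)
      refine mul_ne_zero ?_ ?_
      · intro h
        rw [h] at hes1
        simp at hes1
      · intro h
        have := congrArg Complex.im h
        simp at this
        linarith
    have hinner0 : (fun y : ℂ × ℝ =>
        (((y.1 - ts) / (es * (y.1 - (starRingEnd ℂ) ts)), y.2) : ℂ × ℝ)) (ts, 0) = (0, 0) := by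
      simp
    have hevA : ∀ᶠ y : ℂ × ℝ in 𝓝 (ts, (0 : ℝ)),
        (((y.1 - ts) / (es * (y.1 - (starRingEnd ℂ) ts)), y.2) : ℂ × ℝ) ∈
          ball (0 : ℂ) 1 ×ˢ Ioo (-ξ₀) ξ₀ := by
      have hm : ball (0 : ℂ) 1 ×ˢ Ioo (-ξ₀) ξ₀ ∈ 𝓝 ((fun y : ℂ × ℝ =>
        (((y.1 - ts) / (es * (y.1 - (starRingEnd ℂ) ts)), y.2) : ℂ × ℝ)) (ts, 0)) := by
        rw [hinner0]
        exact hAopen.mem_nhds h0A
      exact hinner hm
    have hevH : ∀ᶠ y : ℂ × ℝ in 𝓝 (ts, (0 : ℝ)), y.1 ∈ HH :=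
      continuous_fst.continuousAt (HH_isOpen.mem_nhds hts)
    have hfin := hyper_identity D U hVHol (t₀ := ts) (p := p) (q := q) (σ := σ) (ρ := ρ)
      ((WW_iff hts).2 hpq) hσρ
      (Ψ := fun y => Φ ((y.1 - ts) / (es * (y.1 - (starRingEnd ℂ) ts)), y.2)) ?_ ?_ ?_ X
    · exact sub_eq_zero.1 hfin
    · exact ContinuousAt.comp_of_eq (hΦc.continuousAt (hAopen.mem_nhds h0A)) hinner hinner0
    · filter_upwards [hevA, hevH] with y hy1 hy2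
      rw [hΦP _ hy1]
      unfold fam
      simp only
      rw [← htsdef, Mob_inv hy2 hts hes1]
    · filter_upwards [hevA] with y hy1
      exact hzero _ hy1
  · intro X
    have e1 := unif_tendsto hlim hV'c (tendsto_const_nhds (x := X))
    have e2 := (continuous_snd.tendsto _).comp e1
    exact e2

end E4

theorem renorm (D : ModularData) (U : UnivCover) {τ₁ τ₂ : TT → ℂ}
    (h1 : U.Hol τ₁) (_h2 : U.Hol τ₂) (c1 : Continuous τ₁) (c2 : Continuous τ₂)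
    (h1' : ∀ X, τ₁ X ∈ HH ∧ D.lam (τ₁ X) = (U.P X).1)
    (h2' : ∀ X, τ₂ X ∈ HH ∧ D.lam (τ₂ X) = (U.P X).2)
    {V : TT → ℂ × ℂ} (hV : U.InC V) (h0 : ∃ X, V X ≠ 0) :
    ∃ V', U.InC V' ∧ (∃ X, V' X ≠ 0) ∧ QuadAt D τ₁ (fun X => (V' X).1) ∧
      (QuadAt D τ₂ (fun X => (V X).2) → QuadAt D τ₂ (fun X => (V' X).2)) := by
  by_cases hz : ∃ X, (V X).1 ≠ 0
  · obtain ⟨F⟩ := E4.exists_LFam D U c1 c2 h1' h2'
    obtain ⟨V', γ, κ, l, a1, a2, a3, a4, a5, a6⟩ := E4.core F c1 h1 h1' hV hz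
    exact ⟨V', a1, a2, a3, fun hq => E4.quad_limit D U c2 h2' l γ a4 hq κ a5 a6⟩
  · push Not at hz
    refine ⟨V, hV, h0, ⟨0, 0, 0, fun X => ?_⟩, fun h => h⟩
    simp only [hz X]
    ring

end Pool.Agent.T05
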