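import Pool.Agent.Lib.MP_0162a5_an.T
import Pool.Agent.Lib.MP_0162a5_an.E4_alg

/-! Part of MODULE E4: identity theorem along real hypersurfaces. -/

set_option autoImplicit false

open Complex Metric Set Filter Topology

namespace Pool.Agent.T05.E4

theorem WW_iff {t : ℂ} (ht : t ∈ HH) {p q : ℝ} :
    (t, (p : ℂ) * t + q) ∈ WW ↔ ¬ ∃ k l : ℤ, p = l ∧ q = k := by
  constructor
  · rintro ⟨_, h⟩ ⟨k, l, hp, hq⟩
    refine h k l ?_
    simp only
    rw [hp, hq]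
    push_cast
    ring
  · intro h
    refine ⟨ht, fun k l hkl => h ⟨k, l, ?_⟩⟩
    have h1 := congrArg Complex.im hkl
    have h2 := congrArg Complex.re hkl
    simp at h1 h2
    have h3 : p = l := by
      have : t.im ≠ 0 := ne_of_gt ht
      exact h1.resolve_right this
    refine ⟨h3, ?_⟩
    rw [h3] at h2
    linarith

theorem exists_pq {t : ℂ} (ht : t ∈ HH) (z : ℂ) :
    z = ((z.im / t.im : ℝ) : ℂ) * t + ((z.re - z.im / t.im * t.re : ℝ) : ℂ) := by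
  have h : t.im ≠ 0 := ne_of_gt ht
  apply Complex.ext
  · simp
  · simp
    field_simp

theorem WW_isOpen : IsOpen WW := by
  have hZ : IsClosed (range ((↑) : ℤ → ℝ)) := Int.isClosedEmbedding_coe_real.isClosed_range
  have hO : IsOpen {p : ℝ × ℝ | ¬ (p.1 ∈ range ((↑) : ℤ → ℝ) ∧ p.2 ∈ range ((↑) : ℤ → ℝ))} := by
    have : {p : ℝ × ℝ | ¬ (p.1 ∈ range ((↑) : ℤ → ℝ) ∧ p.2 ∈ range ((↑) : ℤ → ℝ))} =
        ((range ((↑) : ℤ → ℝ)) ×ˢ (range ((↑) : ℤ → ℝ)))ᶜ := by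
      ext p; simp
    rw [this]
    exact (hZ.prod hZ).isOpen_compl
  have hO2 : IsOpen {p : ℂ × ℂ | 0 < p.1.im} :=
    isOpen_lt continuous_const (Complex.continuous_im.comp continuous_fst)
  have hcont : ContinuousOn (fun p : ℂ × ℂ =>
      ((p.2.im / p.1.im, p.2.re - p.2.im / p.1.im * p.1.re) : ℝ × ℝ)) {p : ℂ × ℂ | 0 < p.1.im} := by
    have c1 : ContinuousOn (fun p : ℂ × ℂ => p.2.im / p.1.im) {p : ℂ × ℂ | 0 < p.1.im} :=
      ContinuousOn.div (by fun_prop) (by fun_prop) (fun p hp => ne_of_gt hp)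
    have c2 : ContinuousOn (fun p : ℂ × ℂ => p.2.re) {p : ℂ × ℂ | 0 < p.1.im} := by fun_prop
    have c3 : ContinuousOn (fun p : ℂ × ℂ => p.1.re) {p : ℂ × ℂ | 0 < p.1.im} := by fun_prop
    exact c1.prodMk (c2.sub (c1.mul c3))
  have := hcont.isOpen_inter_preimage hO2 hO
  have heq : WW = {p : ℂ × ℂ | 0 < p.1.im} ∩ (fun p : ℂ × ℂ =>
      ((p.2.im / p.1.im, p.2.re - p.2.im / p.1.im * p.1.re) : ℝ × ℝ)) ⁻¹'
      {p : ℝ × ℝ | ¬ (p.1 ∈ range ((↑) : ℤ → ℝ) ∧ p.2 ∈ range ((↑) : ℤ → ℝ))} := by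
    ext ⟨t, z⟩
    constructor
    · intro h
      refine ⟨h.1, ?_⟩
      have h1 : (t, z) ∈ WW := h
      rw [exists_pq (show t ∈ HH from h.1) z, WW_iff h.1] at h1
      rintro ⟨⟨l, hl⟩, ⟨k, hk⟩⟩
      exact h1 ⟨k, l, hl.symm, hk.symm⟩
    · rintro ⟨h1, h2⟩
      rw [exists_pq (show t ∈ HH from h1) z, WW_iff h1]
      rintro ⟨k, l, hl, hk⟩
      exact h2 ⟨⟨l, hl.symm⟩, ⟨k, hk.symm⟩⟩
  rw [heq]
  exact this

theorem mm_contAt (D : ModularData) {t z : ℂ} (h : (t, z) ∈ WW) :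
    ContinuousAt (fun p : ℂ × ℂ => D.mm p.1 p.2) (t, z) :=
  D.mm_cont.continuousAt (WW_isOpen.mem_nhds h)

theorem lam_contAt (D : ModularData) {t : ℂ} (h : t ∈ HH) : ContinuousAt D.lam t :=
  D.lam_diff.continuousOn.continuousAt (HH_isOpen.mem_nhds h)

theorem sec_of_mem (U : UnivCover) {X Y : TT} {r : ℝ} {s : ℂ × ℂ → TT} (h : U.Sec s X r)
    (hY : Y ∈ s '' ball (U.P X) r) : U.P Y ∈ ball (U.P X) r ∧ Y = s (U.P Y) := by
  obtain ⟨p, hp, rfl⟩ := hY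
  rw [h.2.2.2.2 p hp]
  exact ⟨hp, rfl⟩

theorem hyper_identity (D : ModularData) (U : UnivCover) {f : TT → ℂ} (hf : U.Hol f) {t₀ : ℂ}
    {p q σ ρ : ℝ} (hw : (t₀, (p : ℂ) * t₀ + q) ∈ WW) (hσ : ¬ (σ = 0 ∧ ρ = 0)) {Ψ : ℂ × ℝ → TT}
    (hc : ContinuousAt Ψ (t₀, 0))
    (hP : ∀ᶠ z in 𝓝 (t₀, (0 : ℝ)), U.P (Ψ z) =
      (D.lam z.1, D.mm z.1 (p * z.1 + q + z.2 * (σ * z.1 + ρ))))
    (h0 : ∀ᶠ z in 𝓝 (t₀, (0 : ℝ)), f (Ψ z) = 0) : ∀ X, f X = 0 := by
  have ht₀ : t₀ ∈ HH := hw.1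
  have hpq := (WW_iff ht₀).1 hw
  set X₀ := Ψ (t₀, 0) with hX₀
  have hPX : U.P X₀ = (D.lam t₀, D.mm t₀ (p * t₀ + q)) := by
    have := hP.self_of_nhds
    simpa using this
  obtain ⟨r, hr, hball⟩ := Metric.isOpen_iff.1 MM_isOpen (U.P X₀) (U.P_mem X₀)
  obtain ⟨s, hs⟩ := exists_sec U X₀ hr hball
  have hopen := sec_isOpen U hs
  have hX₀s : X₀ ∈ s '' ball (U.P X₀) r := ⟨U.P X₀, mem_ball_self hr, hs.2.2.2.1⟩
  have hF := hf X₀ s r hs
  -- eventually on the hypersurface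
  have hev : ∀ᶠ z in 𝓝 (t₀, (0 : ℝ)),
      ((D.lam z.1, D.mm z.1 (p * z.1 + q + z.2 * (σ * z.1 + ρ))) : ℂ × ℂ) ∈ ball (U.P X₀) r ∧
      f (s (D.lam z.1, D.mm z.1 (p * z.1 + q + z.2 * (σ * z.1 + ρ)))) = 0 := by
    filter_upwards [hP, h0, hc (hopen.mem_nhds hX₀s)] with z h1 h2 h3
    have h4 := sec_of_mem U hs h3
    rw [h1] at h4
    exact ⟨h4.1, by rw [← h4.2]; exact h2⟩
  have hev2 := Filter.Eventually.curry_nhds hev
  have hev3 : ∀ᶠ t in 𝓝 t₀, ∀ v ∈ ball (U.P X₀).2 r, f (s (D.lam t, v)) = 0 := by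
    filter_upwards [hev2, HH_isOpen.mem_nhds ht₀] with t h1 ht
    have hwt : (t, (p : ℂ) * t + q) ∈ WW := (WW_iff ht).2 hpq
    have h1' := h1.self_of_nhds
    simp only [ofReal_zero, zero_mul, add_zero] at h1'
    have hb := h1'.1
    rw [← ball_prod_same, mem_prod] at hb
    have hφ : DifferentiableOn ℂ (fun v => f (s (D.lam t, v))) (ball (U.P X₀).2 r) := by
      refine DifferentiableOn.comp (g := fun p => f (s p)) hF
        ((differentiableOn_const _).prodMk differentiableOn_id) ?_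
      intro v hv
      rw [← ball_prod_same]
      exact ⟨hb.1, hv⟩
    have hA : AnalyticOnNhd ℂ (fun v => f (s (D.lam t, v))) (ball (U.P X₀).2 r) :=
      hφ.analyticOnNhd isOpen_ball
    have hder : HasDerivAt (fun ξ : ℝ => D.mm t (p * t + q + ξ * (σ * t + ρ)))
        (deriv (fun w => D.mm t w) (p * t + q) * (σ * t + ρ)) 0 := by
      have g1 : HasDerivAt (fun ξ : ℝ => (p : ℂ) * t + q + ξ * (σ * t + ρ)) (σ * t + ρ) 0 := by
        have := ((Complex.ofRealCLM.hasDerivAt (x := (0 : ℝ))).mul_const ((σ : ℂ) * t + ρ)).const_add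
          ((p : ℂ) * t + q)
        simpa using this
      have g2 : HasDerivAt (fun w => D.mm t w) (deriv (fun w => D.mm t w) (p * t + q))
          ((p : ℂ) * t + q + ((0 : ℝ) : ℂ) * (σ * t + ρ)) := by
        simpa using (D.mm_diff₂ t _ hwt).hasDerivAt
      exact g2.comp (0 : ℝ) g1
    have hne : deriv (fun w => D.mm t w) (p * t + q) * (σ * t + ρ) ≠ 0 := by
      refine mul_ne_zero (D.mm_deriv₂ t _ hwt) fun h => hσ ?_
      have i1 := congrArg Complex.im h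
      have i2 := congrArg Complex.re h
      simp at i1 i2
      have : σ = 0 := i1.resolve_right (ne_of_gt ht)
      refine ⟨this, ?_⟩
      rw [this] at i2
      simpa using i2
    have hne2 := hder.eventually_ne (c := D.mm t (p * t + q)) hne
    have htend : Tendsto (fun ξ : ℝ => D.mm t (p * t + q + ξ * (σ * t + ρ))) (𝓝[≠] 0)
        (𝓝[≠] (D.mm t (p * t + q))) := by
      rw [tendsto_nhdsWithin_iff]
      refine ⟨?_, hne2⟩
      have := hder.continuousAt.tendsto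
      simp only [ofReal_zero, zero_mul, add_zero] at this
      exact this.mono_left nhdsWithin_le_nhds
    have hfreq : ∃ᶠ v in 𝓝[≠] (D.mm t (p * t + q)), f (s (D.lam t, v)) = 0 := by
      refine htend.frequently ?_
      refine Filter.Eventually.frequently ?_
      filter_upwards [nhdsWithin_le_nhds h1] with ξ hξ
      exact hξ.2
    intro v hv
    exact hA.eqOn_zero_of_preconnected_of_frequently_eq_zero
      (convex_ball _ _).isPreconnected hb.2 hfreq hv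
  have hstrict : HasStrictDerivAt D.lam (deriv D.lam t₀) t₀ :=
    (D.lam_diff.analyticAt (HH_isOpen.mem_nhds ht₀)).hasStrictDerivAt
  have hmap := hstrict.map_nhds_eq (D.lam_deriv t₀ ht₀)
  have hev4 : ∀ᶠ u in 𝓝 (D.lam t₀), ∀ v ∈ ball (U.P X₀).2 r, f (s (u, v)) = 0 := by
    rw [← hmap]
    exact hev3
  have hev5 : ∀ᶠ Q in 𝓝 (U.P X₀), f (s Q) = 0 := by
    have e1 : ∀ᶠ Q : ℂ × ℂ in 𝓝 (U.P X₀), ∀ v ∈ ball (U.P X₀).2 r, f (s (Q.1, v)) = 0 := by
      have : Tendsto Prod.fst (𝓝 (U.P X₀)) (𝓝 (D.lam t₀)) := by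
        have := (continuous_fst.tendsto (U.P X₀))
        rwa [hPX] at this ⊢
      exact this hev4
    filter_upwards [e1, ball_mem_nhds (U.P X₀) hr] with Q hQ1 hQ2
    rw [← ball_prod_same] at hQ2
    exact hQ1 Q.2 hQ2.2
  refine identity_TT U hf (X₀ := X₀) ?_
  filter_upwards [(P_continuous U).continuousAt.eventually hev5, hopen.mem_nhds hX₀s] with Y h1 h2
  rw [(sec_of_mem U hs h2).2]
  exact h1

end Pool.Agent.T05.E4
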