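import Pool.Agent.Lib.MP_0162a5_an.T

/-! MODULE F1: `(τ₁, τ₂) : TT → {(p, q) ∈ HH² | lam p ≠ lam q}` is onto.

`lam p = lam q` iff `q ∈ Gam2 p`, a countable set; the complement of a countable set in `HH` is path
connected (Mathlib: complement of countable sets in real vector spaces of dimension > 1, transported
by `z ↦ re z + exp (im z) I`); go `(p,q) → (p,q₁) → (p',q₁) → (p',q')`.  Lift the image path in `MM`
from `X₀`; by uniqueness of lifts through `lam` (both coordinates) the end point has the right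
`(τ₁, τ₂)`.
-/

set_option autoImplicit false

open Complex Metric Set Filter Topology

namespace Pool.Agent.T05

/-- the fibres of `lam` are countable -/
theorem lam_fibre_countable (D : ModularData) (a : ℂ) : {τ : ℂ | τ ∈ HH ∧ D.lam τ = a}.Countable := by
  by_cases h : ∃ τ₀ ∈ HH, D.lam τ₀ = a
  · obtain ⟨τ₀, h0, h0a⟩ := h
    refine (countable_range (fun m : ℤ × ℤ × ℤ × ℤ =>
      ((m.1 * τ₀ + m.2.1) / (m.2.2.1 * τ₀ + m.2.2.2) : ℂ))).mono ?_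
    rintro τ ⟨hτ, hτa⟩
    obtain ⟨a', b, c, d, _, he⟩ := D.lam_eq τ₀ h0 τ hτ (by rw [h0a, hτa])
    exact ⟨(a', b, c, d), he.symm⟩
  · convert countable_empty (α := ℂ)
    rw [eq_empty_iff_forall_notMem]
    rintro τ ⟨hτ, hτa⟩
    exact h ⟨τ, hτ, hτa⟩

/-- a parametrisation of the upper half plane by the plane -/
noncomputable def phiHH (z : ℂ) : ℂ := z.re + Real.exp z.im * I

theorem phiHH_mem (z : ℂ) : phiHH z ∈ HH := by
  change 0 < (phiHH z).im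
  simp only [phiHH, add_im, ofReal_im, mul_im, ofReal_re, I_im, mul_one, I_re, mul_zero, add_zero,
    zero_add]
  exact Real.exp_pos _

theorem phiHH_cont : Continuous phiHH := by
  unfold phiHH
  fun_prop

theorem phiHH_inj : Function.Injective phiHH := by
  intro z w h
  have h1 := congrArg Complex.re h
  have h2 := congrArg Complex.im h
  simp only [phiHH, add_re, ofReal_re, mul_re, I_re, mul_zero, ofReal_im, I_im, mul_one, sub_self,
    add_zero] at h1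
  simp only [phiHH, add_im, ofReal_im, mul_im, ofReal_re, I_im, mul_one, I_re, mul_zero, add_zero,
    zero_add] at h2
  exact Complex.ext h1 (Real.exp_injective h2)

theorem phiHH_surj {τ : ℂ} (hτ : τ ∈ HH) : ∃ z, phiHH z = τ := by
  have hτ' : 0 < τ.im := hτ
  refine ⟨⟨τ.re, Real.log τ.im⟩, ?_⟩
  apply Complex.ext
  · simp [phiHH]
  · simp [phiHH, Real.exp_log hτ']

/-- paths in the upper half plane avoiding a fibre of `lam` -/
theorem path_HH (D : ModularData) (a : ℂ) {u v : ℂ} (hu : u ∈ HH) (hv : v ∈ HH)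
    (hua : D.lam u ≠ a) (hva : D.lam v ≠ a) :
    ∃ γ : ℝ → ℂ, Continuous γ ∧ γ 0 = u ∧ γ 1 = v ∧ ∀ t, γ t ∈ HH ∧ D.lam (γ t) ≠ a := by
  obtain ⟨u', hu'⟩ := phiHH_surj hu
  obtain ⟨v', hv'⟩ := phiHH_surj hv
  have hc : (phiHH ⁻¹' {τ : ℂ | τ ∈ HH ∧ D.lam τ = a}).Countable :=
    (lam_fibre_countable D a).preimage phiHH_inj
  have hr : 1 < Module.rank ℝ ℂ := by
    rw [Complex.rank_real_complex]; exact Cardinal.one_lt_two
  have hp := hc.isPathConnected_compl_of_one_lt_rank hr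
  have hum : u' ∈ (phiHH ⁻¹' {τ : ℂ | τ ∈ HH ∧ D.lam τ = a})ᶜ := by
    rintro ⟨_, h⟩
    exact hua (by rw [← hu']; exact h)
  have hvm : v' ∈ (phiHH ⁻¹' {τ : ℂ | τ ∈ HH ∧ D.lam τ = a})ᶜ := by
    rintro ⟨_, h⟩
    exact hva (by rw [← hv']; exact h)
  obtain ⟨γ, hγ⟩ := hp.joinedIn u' hum v' hvm
  refine ⟨fun t => phiHH (γ.extend t), ?_, ?_, ?_, ?_⟩
  · exact phiHH_cont.comp γ.continuous_extend
  · simp [hu']
  · simp [hv']
  · intro t
    refine ⟨phiHH_mem _, ?_⟩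
    intro h
    obtain ⟨t', ht'⟩ : ∃ t' : unitInterval, γ.extend t = γ t' := ⟨_, rfl⟩
    refine hγ t' ⟨?_, ?_⟩
    · exact phiHH_mem _
    · rw [← ht']; exact h

/-- transport along a path -/
theorem tau_step (D : ModularData) (U : UnivCover) {τ₁ τ₂ : TT → ℂ}
    (c1 : Continuous τ₁) (c2 : Continuous τ₂)
    (h1' : ∀ X, τ₁ X ∈ HH ∧ D.lam (τ₁ X) = (U.P X).1)
    (h2' : ∀ X, τ₂ X ∈ HH ∧ D.lam (τ₂ X) = (U.P X).2)
    {γ₁ γ₂ : ℝ → ℂ} (hγ₁ : Continuous γ₁) (hγ₂ : Continuous γ₂) (hm₁ : ∀ t, γ₁ t ∈ HH)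
    (hm₂ : ∀ t, γ₂ t ∈ HH) (hne : ∀ t, D.lam (γ₁ t) ≠ D.lam (γ₂ t))
    (h : ∃ X, τ₁ X = γ₁ 0 ∧ τ₂ X = γ₂ 0) : ∃ X, τ₁ X = γ₁ 1 ∧ τ₂ X = γ₂ 1 := by
  obtain ⟨X, hX1, hX2⟩ := h
  have hcl : ContinuousOn D.lam HH := D.lam_diff.continuousOn
  have hc1 : ContinuousOn (fun t => D.lam (γ₁ t)) univ :=
    hcl.comp hγ₁.continuousOn (fun t _ => hm₁ t)
  have hc2 : ContinuousOn (fun t => D.lam (γ₂ t)) univ :=
    hcl.comp hγ₂.continuousOn (fun t _ => hm₂ t)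
  obtain ⟨G, hG1, hG2, hG3⟩ := lift_convex U (convex_univ (E := ℝ))
    (g := fun t => (D.lam (γ₁ t), D.lam (γ₂ t))) (hc1.prodMk hc2) (by
      intro t _
      have e1 := D.lam_mem ⟨γ₁ t, hm₁ t⟩
      have e2 := D.lam_mem ⟨γ₂ t, hm₂ t⟩
      exact ⟨e1.1, e1.2, e2.1, e2.2, hne t⟩) (mem_univ (0 : ℝ)) (X := X) (by
      apply Prod.ext
      · change (U.P X).1 = D.lam (γ₁ 0)
        rw [← hX1, (h1' X).2]
      · change (U.P X).2 = D.lam (γ₂ 0)
        rw [← hX2, (h2' X).2])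
  have hGc : Continuous G := continuousOn_univ.1 hG1
  refine ⟨G 1, ?_, ?_⟩
  · refine lam_lift_unique D (A := (univ : Set ℝ)) isPreconnected_univ (G := fun t => τ₁ (G t))
      (G' := γ₁) (c1.comp hGc).continuousOn hγ₁.continuousOn (fun b _ => (h1' _).1)
      (fun b _ => hm₁ b) ?_ (mem_univ 0) (by simp only [hG2, hX1]) 1 (mem_univ _)
    intro b hb
    simp only [(h1' (G b)).2, hG3 b hb]
  · refine lam_lift_unique D (A := (univ : Set ℝ)) isPreconnected_univ (G := fun t => τ₂ (G t))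
      (G' := γ₂) (c2.comp hGc).continuousOn hγ₂.continuousOn (fun b _ => (h2' _).1)
      (fun b _ => hm₂ b) ?_ (mem_univ 0) (by simp only [hG2, hX2]) 1 (mem_univ _)
    intro b hb
    simp only [(h2' (G b)).2, hG3 b hb]

theorem tau_surj (D : ModularData) (U : UnivCover) {τ₁ τ₂ : TT → ℂ}
    (c1 : Continuous τ₁) (c2 : Continuous τ₂)
    (h1' : ∀ X, τ₁ X ∈ HH ∧ D.lam (τ₁ X) = (U.P X).1)
    (h2' : ∀ X, τ₂ X ∈ HH ∧ D.lam (τ₂ X) = (U.P X).2)
    {p q : ℂ} (hp : p ∈ HH) (hq : q ∈ HH) (hpq : D.lam p ≠ D.lam q) :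
    ∃ X, τ₁ X = p ∧ τ₂ X = q := by
  classical
  let X₀ : TT := 0
  have hp0 := (h1' X₀).1
  have hq0 := (h2' X₀).1
  have hpq0 : D.lam (τ₁ X₀) ≠ D.lam (τ₂ X₀) := by
    rw [(h1' X₀).2, (h2' X₀).2]
    exact (U.P_mem X₀).2.2.2.2
  obtain ⟨z, hz⟩ := Infinite.exists_notMem_finset ({0, 1, D.lam (τ₁ X₀), D.lam p} : Finset ℂ)
  simp only [Finset.mem_insert, Finset.mem_singleton, not_or] at hz
  obtain ⟨q₁, hq₁, hq₁z⟩ := D.lam_surj z ⟨hz.1, hz.2.1⟩
  -- first move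
  obtain ⟨γ, hγ, g0, g1, g2⟩ := path_HH D (D.lam (τ₁ X₀)) hq0 hq₁ hpq0.symm
    (by rw [hq₁z]; exact hz.2.2.1)
  have s1 := tau_step D U c1 c2 h1' h2' (γ₁ := fun _ => τ₁ X₀) (γ₂ := γ) continuous_const hγ
    (fun _ => hp0) (fun t => (g2 t).1) (fun t => (g2 t).2.symm) ⟨X₀, rfl, g0.symm⟩
  -- second move
  obtain ⟨γ', hγ', g0', g1', g2'⟩ := path_HH D (D.lam q₁) hp0 hp
    (by rw [hq₁z]; exact fun h => hz.2.2.1 h.symm) (by rw [hq₁z]; exact fun h => hz.2.2.2 h.symm)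
  have s2 := tau_step D U c1 c2 h1' h2' (γ₁ := γ') (γ₂ := fun _ => q₁) hγ' continuous_const
    (fun t => (g2' t).1) (fun _ => hq₁) (fun t => (g2' t).2) (by
      simpa only [g0', g1] using s1)
  -- third move
  obtain ⟨γ'', hγ'', g0'', g1'', g2''⟩ := path_HH D (D.lam p) hq₁ hq
    (by rw [hq₁z]; exact hz.2.2.2) hpq.symm
  have s3 := tau_step D U c1 c2 h1' h2' (γ₁ := fun _ => p) (γ₂ := γ'') continuous_const hγ''
    (fun _ => hp) (fun t => (g2'' t).1) (fun t => (g2'' t).2.symm) (by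
      simpa only [g0'', g1'] using s2)
  simpa only [g1''] using s3

end Pool.Agent.T05
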