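import Pool.Agent.Lib.MP_0162a5_an.D4
import Pool.Agent.Lib.MP_0162a5_an.D5
import Pool.Agent.Lib.MP_0162a5_an.F1
import Pool.Agent.Lib.MP_0162a5_an.E4_hyp

/-! Part of MODULE E4: the family of Teichmueller discs `L x` and its vector fields. -/

set_option autoImplicit false

open Complex Metric Set Filter Topology

namespace Pool.Agent.T05.E4

theorem cay_surj {τ : ℂ} (hτ : τ ∈ HH) : ∃ w ∈ ball (0 : ℂ) 1, cay w = τ := by
  have hτ' : 0 < τ.im := hτ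
  have h1 : τ + I ≠ 0 := by
    intro h
    have := congrArg Complex.im h
    simp at this
    linarith
  refine ⟨(τ - I) / (τ + I), ?_, ?_⟩
  · rw [mem_ball_zero_iff, norm_div, div_lt_one (norm_pos_iff.2 h1)]
    have : ‖τ - I‖ ^ 2 < ‖τ + I‖ ^ 2 := by
      rw [← normSq_eq_norm_sq, ← normSq_eq_norm_sq, normSq_apply, normSq_apply]
      simp
      nlinarith
    exact lt_of_pow_lt_pow_left₀ 2 (norm_nonneg _) this
  · unfold cay
    have h2 : 1 - (τ - I) / (τ + I) = 2 * I / (τ + I) := by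
      field_simp
      ring
    have h3 : 1 + (τ - I) / (τ + I) = 2 * τ / (τ + I) := by
      field_simp
      ring
    rw [h2, h3]
    field_simp

theorem Hol.continuous {U : UnivCover} {E : Type*} [NormedAddCommGroup E] [NormedSpace ℂ E]
    {f : TT → E} (hf : U.Hol f) : Continuous f := by
  rw [continuous_iff_continuousAt]
  intro X
  obtain ⟨r, hr, hball⟩ := Metric.isOpen_iff.1 MM_isOpen (U.P X) (U.P_mem X)
  obtain ⟨s, hs⟩ := exists_sec U X hr hball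
  have hopen := sec_isOpen U hs
  have hXs : X ∈ s '' ball (U.P X) r := ⟨U.P X, mem_ball_self hr, hs.2.2.2.1⟩
  have h1 : ContinuousAt (fun Y => f (s (U.P Y))) X := by
    have h2 : ContinuousAt (fun p => f (s p)) (U.P X) :=
      (hf X s r hs).continuousOn.continuousAt (ball_mem_nhds _ hr)
    exact ContinuousAt.comp (g := fun p => f (s p)) h2 (P_continuous U).continuousAt
  refine h1.congr ?_
  filter_upwards [hopen.mem_nhds hXs] with Y hY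
  rw [← (sec_of_mem U hs hY).2]

theorem x_mem_WW {τ : ℂ} (hτ : τ ∈ HH) {x : ℝ} (hx : x ∈ Ioo (0 : ℝ) 1) : (τ, (x : ℂ)) ∈ WW := by
  have : (τ, ((0 : ℝ) : ℂ) * τ + x) ∈ WW := by
    rw [WW_iff hτ]
    rintro ⟨k, l, _, hk⟩
    rw [hk] at hx
    have h1 : (0 : ℤ) < k := by exact_mod_cast hx.1
    have h2 : k < (1 : ℤ) := by exact_mod_cast hx.2
    omega
  simpa using this

/-- The family of Teichmueller discs. -/
structure LFam (D : ModularData) (U : UnivCover) (τ₁ : TT → ℂ) where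
  L : ℝ → ℂ → TT
  cont : ContinuousOn (fun q : ℝ × ℂ => L q.1 q.2) (Ioo 0 1 ×ˢ HH)
  P_L : ∀ x ∈ Ioo (0 : ℝ) 1, ∀ τ ∈ HH, U.P (L x τ) = (D.lam τ, D.mm τ x)
  tau_L : ∀ x ∈ Ioo (0 : ℝ) 1, ∀ τ ∈ HH, τ₁ (L x τ) = τ

theorem I_mem : I ∈ HH := by simp [HH]

theorem exists_LFam (D : ModularData) (U : UnivCover) {τ₁ τ₂ : TT → ℂ}
    (c1 : Continuous τ₁) (c2 : Continuous τ₂)
    (h1' : ∀ X, τ₁ X ∈ HH ∧ D.lam (τ₁ X) = (U.P X).1)
    (h2' : ∀ X, τ₂ X ∈ HH ∧ D.lam (τ₂ X) = (U.P X).2) : Nonempty (LFam D U τ₁) := by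
  have hx0 : (1 / 2 : ℝ) ∈ Ioo (0 : ℝ) 1 := by norm_num
  have hm := D.mm_mem I ((1 / 2 : ℝ) : ℂ) (x_mem_WW I_mem hx0)
  obtain ⟨q, hq, hq2⟩ := D.lam_surj (D.mm I ((1 / 2 : ℝ) : ℂ)) ⟨hm.2.2.1, hm.2.2.2.1⟩
  obtain ⟨X₀, hX1, hX2⟩ := tau_surj D U c1 c2 h1' h2' I_mem hq (by rw [hq2]; exact hm.2.2.2.2)
  have hPX : U.P X₀ = (D.lam I, D.mm I ((1 / 2 : ℝ) : ℂ)) := by
    apply Prod.ext
    · rw [← (h1' X₀).2, hX1]
    · rw [← (h2' X₀).2, hX2, hq2]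
  have hconv : Convex ℝ (Ioo (0 : ℝ) 1 ×ˢ HH) := (convex_Ioo 0 1).prod HH_convex
  have hg : ContinuousOn (fun q : ℝ × ℂ => ((D.lam q.2, D.mm q.2 q.1) : ℂ × ℂ))
      (Ioo (0 : ℝ) 1 ×ˢ HH) := by
    refine ContinuousOn.prodMk ?_ ?_
    · exact D.lam_diff.continuousOn.comp continuousOn_snd (fun q hq => hq.2)
    · refine ContinuousOn.comp (g := fun p : ℂ × ℂ => D.mm p.1 p.2)
        (f := fun q : ℝ × ℂ => (q.2, (q.1 : ℂ))) D.mm_cont (by fun_prop) ?_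
      intro q hq
      exact x_mem_WW hq.2 hq.1
  obtain ⟨G, hG1, hG2, hG3⟩ := lift_convex U hconv hg
    (fun q hq => D.mm_mem _ _ (x_mem_WW hq.2 hq.1))
    (a := ((1 / 2 : ℝ), I)) ⟨hx0, I_mem⟩ hPX
  refine ⟨⟨fun x τ => G (x, τ), ?_, fun x hx τ hτ => hG3 (x, τ) ⟨hx, hτ⟩, ?_⟩⟩
  · exact hG1
  · intro x hx τ hτ
    refine lam_lift_unique D (A := Ioo (0 : ℝ) 1 ×ˢ HH) hconv.isPreconnected
      (G := fun q => τ₁ (G q)) (G' := fun q => q.2) (c1.comp_continuousOn hG1) continuousOn_snd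
      (fun b _ => (h1' _).1) (fun b hb => hb.2) ?_ (a := ((1 / 2 : ℝ), I)) ⟨hx0, I_mem⟩ ?_
      (x, τ) ⟨hx, hτ⟩
    · intro b hb
      rw [(h1' _).2, hG3 b hb]
    · show τ₁ (G (1 / 2, I)) = I
      rw [hG2, hX1]

variable {D : ModularData} {U : UnivCover} {τ₁ : TT → ℂ}

/-- the vector field along the disc `L x` -/
noncomputable def LFam.h (F : LFam D U τ₁) (V : TT → ℂ × ℂ) (x : ℝ) (τ : ℂ) : ℂ :=
  (V (F.L x τ)).1 / deriv D.lam τ

theorem lam_deriv_contOn (D : ModularData) : ContinuousOn (deriv D.lam) HH :=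
  (D.lam_diff.deriv HH_isOpen).continuousOn

theorem LFam.herg (F : LFam D U τ₁) {V : TT → ℂ × ℂ} (hV : U.InC V) {x : ℝ}
    (hx : x ∈ Ioo (0 : ℝ) 1) : Herg (F.h V x) := by
  have h1 : ContinuousOn (F.L x) HH := by
    refine ContinuousOn.comp (g := fun q : ℝ × ℂ => F.L q.1 q.2) (f := fun τ => (x, τ)) F.cont
      (by fun_prop) (fun τ hτ => ⟨hx, hτ⟩)
  have h2 : DifferentiableOn ℂ (fun τ => U.P (F.L x τ)) HH := by
    have e : EqOn (fun τ => U.P (F.L x τ)) (fun τ => (D.lam τ, D.mm τ x)) HH :=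
      fun τ hτ => F.P_L x hx τ hτ
    refine DifferentiableOn.congr (f := fun τ => (D.lam τ, D.mm τ x)) ?_ e
    refine D.lam_diff.prodMk ?_
    intro τ hτ
    exact (D.mm_diff₁ τ x (x_mem_WW hτ hx)).differentiableWithinAt
  have h3 := InC.herg U D hV (u := Prod.fst) differentiableOn_fst
    (fun p hp => ⟨hp.1, hp.2.1⟩) h1 h2 (fun τ hτ => by rw [F.P_L x hx τ hτ])
  have e : F.h V x = fun τ =>
      (fderiv ℂ (Prod.fst : ℂ × ℂ → ℂ) (U.P (F.L x τ)) (V (F.L x τ))) / deriv D.lam τ := by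
    funext τ
    rw [fderiv_fst]
    rfl
  rw [e]
  exact h3

theorem LFam.contOn (F : LFam D U τ₁) {V : TT → ℂ × ℂ} (hV : U.InC V) :
    ContinuousOn (fun q : ℝ × ℂ => toDisc (F.h V q.1) q.2) (Ioo 0 1 ×ˢ ball 0 1) := by
  have hVc : Continuous V := Hol.continuous (InC.hol U hV)
  have hm : MapsTo (fun q : ℝ × ℂ => (q.1, cay q.2)) (Ioo (0 : ℝ) 1 ×ˢ ball (0 : ℂ) 1)
      (Ioo (0 : ℝ) 1 ×ˢ HH) := fun q hq => ⟨hq.1, cay_mem hq.2⟩
  have hcc : ContinuousOn (fun q : ℝ × ℂ => (q.1, cay q.2)) (Ioo (0 : ℝ) 1 ×ˢ ball (0 : ℂ) 1) :=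
    continuousOn_fst.prodMk (cay_cont.comp continuousOn_snd (fun q hq => hq.2))
  have h1 : ContinuousOn (fun q : ℝ × ℂ => V (F.L q.1 (cay q.2)))
      (Ioo (0 : ℝ) 1 ×ˢ ball (0 : ℂ) 1) :=
    hVc.comp_continuousOn (F.cont.comp hcc hm)
  have h2 : ContinuousOn (fun q : ℝ × ℂ => deriv D.lam (cay q.2))
      (Ioo (0 : ℝ) 1 ×ˢ ball (0 : ℂ) 1) :=
    (lam_deriv_contOn D).comp (cay_cont.comp continuousOn_snd (fun q hq => hq.2))
      (fun q hq => cay_mem hq.2)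
  have h3 : ContinuousOn (fun q : ℝ × ℂ => (V (F.L q.1 (cay q.2))).1 / deriv D.lam (cay q.2))
      (Ioo (0 : ℝ) 1 ×ˢ ball (0 : ℂ) 1) :=
    (continuous_fst.comp_continuousOn h1).div h2 (fun q hq => D.lam_deriv _ (cay_mem hq.2))
  show ContinuousOn (fun q : ℝ × ℂ => F.h V q.1 (cay q.2) * (1 - q.2) ^ 2 / (2 * I)) _
  unfold LFam.h
  refine ContinuousOn.div_const (h3.mul ?_) _
  fun_prop

theorem LFam.diffOn (F : LFam D U τ₁) {V : TT → ℂ × ℂ} (hV : U.InC V) {x : ℝ}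
    (hx : x ∈ Ioo (0 : ℝ) 1) : DifferentiableOn ℂ (toDisc (F.h V x)) (ball 0 1) := by
  have h1 := (F.herg hV hx).1
  have h2 : DifferentiableOn ℂ (fun w => F.h V x (cay w)) (ball 0 1) :=
    h1.comp cay_diff (fun w hw => cay_mem hw)
  show DifferentiableOn ℂ (fun w => F.h V x (cay w) * (1 - w) ^ 2 / (2 * I)) _
  refine DifferentiableOn.div_const (h2.mul ?_) _
  fun_prop

theorem LFam.nonzero (F : LFam D U τ₁) {V : TT → ℂ × ℂ} (hV : U.InC V) (h0 : ∃ X, (V X).1 ≠ 0) :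
    ∃ x ∈ Icc (1 / 4 : ℝ) (3 / 4), ∃ w ∈ ball (0 : ℂ) 1, toDisc (F.h V x) w ≠ 0 := by
  by_contra hcon
  push Not at hcon
  have hz : ∀ x ∈ Icc (1 / 4 : ℝ) (3 / 4), ∀ τ ∈ HH, (V (F.L x τ)).1 = 0 := by
    intro x hx τ hτ
    obtain ⟨w, hw, rfl⟩ := cay_surj hτ
    have h1 := hcon x hx w hw
    unfold toDisc LFam.h at h1
    have h2 := one_sub_ne hw
    have h3 := D.lam_deriv _ (cay_mem hw)
    have h4 : (2 : ℂ) * I ≠ 0 := by simp
    simpa [h2, h3, h4] using h1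
  obtain ⟨X, hX⟩ := h0
  apply hX
  have hf : U.Hol (fun X => (V X).1) := by
    intro X s r hs
    exact differentiable_fst.comp_differentiableOn (InC.hol U hV X s r hs)
  have hx0 : (1 / 2 : ℝ) ∈ Ioo (0 : ℝ) 1 := by norm_num
  have hev : ∀ᶠ z : ℂ × ℝ in 𝓝 (I, (0 : ℝ)), 1 / 2 + z.2 ∈ Ioo (1 / 4 : ℝ) (3 / 4) ∧ z.1 ∈ HH := by
    have e1 : ∀ᶠ z : ℂ × ℝ in 𝓝 (I, (0 : ℝ)), 1 / 2 + z.2 ∈ Ioo (1 / 4 : ℝ) (3 / 4) := by
      have : ContinuousAt (fun z : ℂ × ℝ => 1 / 2 + z.2) (I, (0 : ℝ)) := by fun_prop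
      exact this (Ioo_mem_nhds (by norm_num) (by norm_num))
    have e2 : ∀ᶠ z : ℂ × ℝ in 𝓝 (I, (0 : ℝ)), z.1 ∈ HH :=
      continuous_fst.continuousAt (HH_isOpen.mem_nhds I_mem)
    exact e1.and e2
  refine hyper_identity D U hf (t₀ := I) (p := 0) (q := 1 / 2) (σ := 0) (ρ := 1)
    (Ψ := fun z => F.L (1 / 2 + z.2) z.1) ?_ (by norm_num) ?_ ?_ ?_ X
  · have := x_mem_WW I_mem hx0
    simpa using this
  · have h1 : ContinuousAt (fun q : ℝ × ℂ => F.L q.1 q.2) (1 / 2 + 0, I) := by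
      refine F.cont.continuousAt ?_
      refine (IsOpen.mem_nhds (isOpen_Ioo.prod HH_isOpen) ⟨?_, I_mem⟩)
      norm_num
    have h2 : ContinuousAt (fun z : ℂ × ℝ => ((1 / 2 + z.2, z.1) : ℝ × ℂ)) (I, (0 : ℝ)) := by
      fun_prop
    exact ContinuousAt.comp (g := fun q : ℝ × ℂ => F.L q.1 q.2)
      (f := fun z : ℂ × ℝ => ((1 / 2 + z.2, z.1) : ℝ × ℂ)) h1 h2
  · filter_upwards [hev] with z hz'
    rw [F.P_L _ ⟨by linarith [hz'.1.1], by linarith [hz'.1.2]⟩ _ hz'.2]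
    congr 2
    push_cast
    ring
  · filter_upwards [hev] with z hz'
    exact hz _ ⟨hz'.1.1.le, hz'.1.2.le⟩ _ hz'.2

end Pool.Agent.T05.E4
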