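import Pool.Agent.Lib.MP_0162a5_an.Defs

set_option autoImplicit false

open Complex Metric Set Filter Topology

namespace Pool.Agent.T05

/-- `f` is the pull-back of `A (a - c τ)² ∂_τ`. -/
def QuadAt (D : ModularData) (τ : TT → ℂ) (f : TT → ℂ) : Prop :=
  ∃ (A : ℂ) (a c : ℝ), ∀ X, f X = deriv D.lam (τ X) * (A * (a - c * τ X) ^ 2)

end Pool.Agent.T05
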