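import Pool.Agent.Lib.MP_0162a5_an.E4_L

/-! Part of MODULE E4: limits of the renormalised families. -/

set_option autoImplicit false

open Complex Metric Set Filter Topology

namespace Pool.Agent.T05.E4

theorem tlu {ι P Z W : Type*} [TopologicalSpace P] [TopologicalSpace Z] [UniformSpace W]
    (Fam : P × Z → W) {A : Set Z} {Ps : P} (h : ∀ z ∈ A, ContinuousAt Fam (Ps, z))
    {l : Filter ι} {prm : ι → P} (hp : Tendsto prm l (𝓝 Ps)) {G : ι → Z → W} {f : Z → W}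
    (hG : ∀ᶠ n in l, ∀ z ∈ A, G n z = Fam (prm n, z)) (hf : ∀ z ∈ A, f z = Fam (Ps, z)) :
    TendstoLocallyUniformlyOn G f l A := by
  intro u hu z₀ hz₀
  obtain ⟨v, hv, hvs, hvu⟩ := comp_symm_mem_uniformity_sets hu
  have h1 : ∀ᶠ y in 𝓝 (Ps, z₀), (Fam (Ps, z₀), Fam y) ∈ v :=
    (h z₀ hz₀).eventually (UniformSpace.ball_mem_nhds _ hv)
  rw [nhds_prod_eq] at h1
  obtain ⟨pa, hpa, pb, hpb, hab⟩ := Filter.eventually_prod_iff.1 h1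
  refine ⟨{z | pb z} ∩ A, inter_mem (nhdsWithin_le_nhds hpb) self_mem_nhdsWithin, ?_⟩
  filter_upwards [hG, hp.eventually hpa] with n h2 h3
  intro z hz
  rw [hf z hz.2, h2 z hz.2]
  apply hvu
  have e1 := hab hpa.self_of_nhds hz.1
  have e2 := hab h3 hz.1
  exact SetRel.prodMk_mem_comp (SetRel.symm v e1) e2

theorem coeff_lim {ι : Type*} (l : Ultrafilter ι) {t : ι → ℂ} {ts : ℂ}
    (ht : Tendsto t (l : Filter ι) (𝓝 ts)) (hts : ts ∈ HH) {p q : ι → ℝ} {B : ℝ}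
    (hB : ∀ᶠ n in (l : Filter ι), ‖(p n : ℂ) * t n + q n‖ ≤ B) :
    ∃ ps qs : ℝ, Tendsto p (l : Filter ι) (𝓝 ps) ∧ Tendsto q (l : Filter ι) (𝓝 qs) := by
  have hts' : 0 < ts.im := hts
  have him : Tendsto (fun n => (t n).im) (l : Filter ι) (𝓝 ts.im) :=
    (Complex.continuous_im.tendsto ts).comp ht
  have hre : Tendsto (fun n => (t n).re) (l : Filter ι) (𝓝 ts.re) :=
    (Complex.continuous_re.tendsto ts).comp ht
  have e1 : ∀ᶠ n in (l : Filter ι), ts.im / 2 < (t n).im :=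
    him.eventually (lt_mem_nhds (by linarith))
  have e2 : ∀ᶠ n in (l : Filter ι), |(t n).re| ≤ |ts.re| + 1 := by
    have := hre.abs.eventually (ge_mem_nhds (show |ts.re| < |ts.re| + 1 by linarith))
    exact this
  have e3 : ∀ᶠ n in (l : Filter ι), |p n| ≤ B / (ts.im / 2) := by
    filter_upwards [hB, e1] with n h1 h2
    rw [le_div_iff₀ (by positivity)]
    have h3 : |((p n : ℂ) * t n + q n).im| ≤ ‖(p n : ℂ) * t n + q n‖ := abs_im_le_norm _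
    have h4 : ((p n : ℂ) * t n + q n).im = p n * (t n).im := by simp
    rw [h4, abs_mul, abs_of_pos (by linarith : 0 < (t n).im)] at h3
    nlinarith [abs_nonneg (p n)]
  have e4 : ∀ᶠ n in (l : Filter ι), |q n| ≤ B + B / (ts.im / 2) * (|ts.re| + 1) := by
    filter_upwards [hB, e2, e3] with n h1 h2 h3
    have h5 : |((p n : ℂ) * t n + q n).re| ≤ ‖(p n : ℂ) * t n + q n‖ := abs_re_le_norm _
    have h4 : ((p n : ℂ) * t n + q n).re = p n * (t n).re + q n := by simp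
    rw [h4] at h5
    have h6 : |q n| ≤ |p n * (t n).re + q n| + |p n * (t n).re| := by
      have := abs_sub_abs_le_abs_sub (q n) (-(p n * (t n).re))
      have h7 : |p n * (t n).re + q n| = |q n - -(p n * (t n).re)| := by ring_nf
      rw [abs_neg] at this
      rw [h7]
      linarith
    rw [abs_mul] at h6
    have h8 : |p n| * |(t n).re| ≤ B / (ts.im / 2) * (|ts.re| + 1) :=
      mul_le_mul h3 h2 (abs_nonneg _) ((abs_nonneg _).trans h3)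
    linarith
  obtain ⟨ps, _, h1⟩ := ultra_lim_real l p _ e3
  obtain ⟨qs, _, h2⟩ := ultra_lim_real l q _ e4
  exact ⟨ps, qs, h1, h2⟩

theorem rank_one {A B C E : ℝ} (h : A * E - B * C = 0) : ∃ (μ : ℂ) (a c : ℝ), ∀ t : ℂ,
    ((A : ℂ) + I * C) * t + (B + I * E) = μ * (a - c * t) := by
  by_cases hA : A = 0
  · subst hA
    by_cases hB : B = 0
    · subst hB
      refine ⟨I, E, -C, fun t => ?_⟩
      push_cast
      ring
    · have hC : C = 0 := by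
        have : B * C = 0 := by linarith
        exact (mul_eq_zero.1 this).resolve_left hB
      subst hC
      refine ⟨(B + I * E) / B, B, 0, fun t => ?_⟩
      have : (B : ℂ) ≠ 0 := by exact_mod_cast hB
      push_cast
      field_simp
      ring
  · have hA' : (A : ℂ) ≠ 0 := by exact_mod_cast hA
    refine ⟨(A + I * C) / A, B, -A, fun t => ?_⟩
    have h' : (A : ℂ) * E - B * C = 0 := by exact_mod_cast h
    push_cast
    field_simp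
    linear_combination I * h'

/-- The renormalised sequence. -/
structure RSeq {D : ModularData} {U : UnivCover} {τ₁ : TT → ℂ} (F : LFam D U τ₁) where
  r : ℕ → ℝ
  θ : ℕ → ℝ
  x : ℕ → ℝ
  Y : ℕ → TT
  γ : ℕ → (TT ≃ₜ TT)
  a : ℕ → ℤ
  b : ℕ → ℤ
  c : ℕ → ℤ
  d : ℕ → ℤ
  hr0 : ∀ n, 0 < r n
  hr1 : ∀ n, r n < 1
  hx : ∀ n, x n ∈ Icc (1 / 4 : ℝ) (3 / 4)
  hγP : ∀ n X, U.P (γ n X) = U.P X
  hγ : ∀ n, γ n (Y n) = F.L (x n) (cay (r n * exp (θ n * I)))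
  hg : ∀ n, Gam2 (a n) (b n) (c n) (d n)
  hτ : ∀ n X, τ₁ (γ n X) = (a n * τ₁ X + b n) / (c n * τ₁ X + d n)

variable {D : ModularData} {U : UnivCover} {τ₁ : TT → ℂ} {F : LFam D U τ₁}

theorem RSeq.x_mem (S : RSeq F) (n : ℕ) : S.x n ∈ Ioo (0 : ℝ) 1 :=
  ⟨by linarith [(S.hx n).1], by linarith [(S.hx n).2]⟩

theorem RSeq.cay_eq (S : RSeq F) (n : ℕ) :
    cay (S.r n * exp (S.θ n * I)) = (S.a n * τ₁ (S.Y n) + S.b n) / (S.c n * τ₁ (S.Y n) + S.d n) := by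
  rw [← S.hτ n, S.hγ n, F.tau_L _ (S.x_mem n) _ (cay_mem (rexp_mem (S.hr0 n) (S.hr1 n)))]

/-- The point of the renormalised family. -/
noncomputable def RSeq.pt (S : RSeq F) (n : ℕ) (z : ℂ × ℝ) : TT :=
  (S.γ n).symm (F.L (S.x n + z.2 * Real.sqrt (1 - S.r n)) (cay (exp (S.θ n * I) * mob (S.r n) z.1)))

theorem RSeq.P_symm (S : RSeq F) (n : ℕ) (X : TT) : U.P ((S.γ n).symm X) = U.P X := by
  rw [← S.hγP n, Homeomorph.apply_symm_apply]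

/-- The limit family in coordinates: parameters `(t, e, p, q, σ, ρ)`. -/
noncomputable def fam (D : ModularData) (y : (ℂ × ℂ × ℝ × ℝ × ℝ × ℝ) × (ℂ × ℝ)) : ℂ × ℂ :=
  (D.lam (Mob y.1.1 y.1.2.1 y.2.1), D.mm (Mob y.1.1 y.1.2.1 y.2.1)
    (y.1.2.2.1 * Mob y.1.1 y.1.2.1 y.2.1 + y.1.2.2.2.1 +
      y.2.2 * (y.1.2.2.2.2.1 * Mob y.1.1 y.1.2.1 y.2.1 + y.1.2.2.2.2.2)))

theorem Mob_contAt {t e ζ : ℂ} (he : ‖e‖ = 1) (hζ : ζ ∈ ball (0 : ℂ) 1) :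
    ContinuousAt (fun y : ℂ × ℂ × ℂ => Mob y.1 y.2.1 y.2.2) (t, e, ζ) := by
  unfold Mob
  refine ContinuousAt.div (by fun_prop) (by fun_prop) (one_sub_mul_ne he hζ)

theorem fam_contAt (D : ModularData) {t e : ℂ} {p q σ ρ : ℝ} {z : ℂ × ℝ} (ht : t ∈ HH)
    (he : ‖e‖ = 1) (hζ : z.1 ∈ ball (0 : ℂ) 1)
    (h : ¬ ∃ k l : ℤ, p + z.2 * σ = l ∧ q + z.2 * ρ = k) :
    ContinuousAt (fam D) ((t, e, p, q, σ, ρ), z) := by
  have hM : ContinuousAt (fun y : (ℂ × ℂ × ℝ × ℝ × ℝ × ℝ) × (ℂ × ℝ) => Mob y.1.1 y.1.2.1 y.2.1)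
      ((t, e, p, q, σ, ρ), z) := by
    refine ContinuousAt.comp (g := fun y : ℂ × ℂ × ℂ => Mob y.1 y.2.1 y.2.2)
      (f := fun y : (ℂ × ℂ × ℝ × ℝ × ℝ × ℝ) × (ℂ × ℝ) => (y.1.1, y.1.2.1, y.2.1))
      (Mob_contAt he hζ) (by fun_prop)
  have hMm : Mob t e z.1 ∈ HH := Mob_mem ht he hζ
  have hz : ContinuousAt (fun y : (ℂ × ℂ × ℝ × ℝ × ℝ × ℝ) × (ℂ × ℝ) =>
      (y.1.2.2.1 * Mob y.1.1 y.1.2.1 y.2.1 + y.1.2.2.2.1 +
      y.2.2 * (y.1.2.2.2.2.1 * Mob y.1.1 y.1.2.1 y.2.1 + y.1.2.2.2.2.2) : ℂ))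
      ((t, e, p, q, σ, ρ), z) := by
    have c1 : ContinuousAt (fun y : (ℂ × ℂ × ℝ × ℝ × ℝ × ℝ) × (ℂ × ℝ) => (y.1.2.2.1 : ℂ))
      ((t, e, p, q, σ, ρ), z) := by fun_prop
    have c2 : ContinuousAt (fun y : (ℂ × ℂ × ℝ × ℝ × ℝ × ℝ) × (ℂ × ℝ) => (y.1.2.2.2.1 : ℂ))
      ((t, e, p, q, σ, ρ), z) := by fun_prop
    have c3 : ContinuousAt (fun y : (ℂ × ℂ × ℝ × ℝ × ℝ × ℝ) × (ℂ × ℝ) => (y.1.2.2.2.2.1 : ℂ))
      ((t, e, p, q, σ, ρ), z) := by fun_prop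
    have c4 : ContinuousAt (fun y : (ℂ × ℂ × ℝ × ℝ × ℝ × ℝ) × (ℂ × ℝ) => (y.1.2.2.2.2.2 : ℂ))
      ((t, e, p, q, σ, ρ), z) := by fun_prop
    have c5 : ContinuousAt (fun y : (ℂ × ℂ × ℝ × ℝ × ℝ × ℝ) × (ℂ × ℝ) => (y.2.2 : ℂ))
      ((t, e, p, q, σ, ρ), z) := by fun_prop
    exact ((c1.mul hM).add c2).add (c5.mul ((c3.mul hM).add c4))
  have hW : (Mob t e z.1, ((p : ℂ) * Mob t e z.1 + q + z.2 * (σ * Mob t e z.1 + ρ))) ∈ WW := by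
    have := (WW_iff hMm).2 h
    convert this using 2
    push_cast
    ring
  refine ContinuousAt.prodMk ?_ ?_
  · exact ContinuousAt.comp (g := D.lam) (lam_contAt D hMm) hM
  · exact ContinuousAt.comp (g := fun p : ℂ × ℂ => D.mm p.1 p.2)
      (f := fun y : (ℂ × ℂ × ℝ × ℝ × ℝ × ℝ) × (ℂ × ℝ) => ((Mob y.1.1 y.1.2.1 y.2.1,
        (y.1.2.2.1 * Mob y.1.1 y.1.2.1 y.2.1 + y.1.2.2.2.1 +
      y.2.2 * (y.1.2.2.2.2.1 * Mob y.1.1 y.1.2.1 y.2.1 + y.1.2.2.2.2.2))) : ℂ × ℂ))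
      (mm_contAt D hW) (hM.prodMk hz)

/-- `U.P` of the points of the renormalised family. -/
theorem RSeq.P_pt (S : RSeq F) (hHH : ∀ X, τ₁ X ∈ HH) (n : ℕ) (k j : ℤ) {e : ℂ} (he : ‖e‖ = 1)
    (hcm : ∀ ζ ∈ ball (0 : ℂ) 1, cay (exp (S.θ n * I) * mob (S.r n) ζ) =
      (S.a n * Mob (τ₁ (S.Y n)) e ζ + S.b n) / (S.c n * Mob (τ₁ (S.Y n)) e ζ + S.d n))
    {z : ℂ × ℝ} (hz1 : z.1 ∈ ball (0 : ℂ) 1)
    (hz2 : S.x n + z.2 * Real.sqrt (1 - S.r n) ∈ Ioo (0 : ℝ) 1) :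
    U.P (S.pt n z) = fam D ((τ₁ (S.Y n), e, S.x n * S.c n - 2 * k, S.x n * S.d n - 2 * j,
      Real.sqrt (1 - S.r n) * S.c n, Real.sqrt (1 - S.r n) * S.d n), z) := by
  have hM : Mob (τ₁ (S.Y n)) e z.1 ∈ HH := Mob_mem (hHH _) he hz1
  set M := Mob (τ₁ (S.Y n)) e z.1 with hMdef
  have hg := S.hg n
  rw [RSeq.pt, S.P_symm, hcm z.1 hz1, ← hMdef, F.P_L _ hz2 _ (gam_mem hg hM)]
  have hW1 := x_mem_WW (gam_mem hg hM) hz2
  have hW2 := gam_WW hg hM hW1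
  rw [D.lam_inv _ _ _ _ hg M hM, D.mm_mod _ _ _ _ hg M _ hW2]
  unfold fam
  simp only [← hMdef]
  congr 1
  have hid : ((S.c n : ℂ) * M + S.d n) * ((S.x n + z.2 * Real.sqrt (1 - S.r n) : ℝ) : ℂ) =
      ((((S.x n * S.c n - 2 * k : ℝ) : ℂ) * M + ((S.x n * S.d n - 2 * j : ℝ) : ℂ)) +
      z.2 * (((Real.sqrt (1 - S.r n) * S.c n : ℝ) : ℂ) * M +
      ((Real.sqrt (1 - S.r n) * S.d n : ℝ) : ℂ))) + 2 * ((j : ℤ) + (k : ℤ) * M) := by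
    push_cast
    ring
  rw [hid] at hW2 ⊢
  refine D.mm_add M _ ?_ j k
  refine ⟨hM, fun k' l' hk => hW2.2 (k' + 2 * j) (l' + 2 * k) ?_⟩
  simp only at hk ⊢
  rw [hk]
  push_cast
  ring

end Pool.Agent.T05.E4
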