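import Pool.Agent.Lib.MP_0162a5_an.T

/-! MODULE F2a: analytic facts used in F2 (decay of `lam'`, growth of `Herg` functions, the branch
of the square root of `lam`). -/

set_option autoImplicit false

open Complex Metric Set Filter Topology

namespace Pool.Agent.T05

theorem lam_add_two (D : ModularData) {τ : ℂ} (hτ : τ ∈ HH) : D.lam (τ + 2) = D.lam τ := by
  have h := D.lam_inv 1 2 0 1 ⟨by norm_num, odd_one, even_two, Even.zero, odd_one⟩ τ hτ
  rw [← h]
  congr 1
  push_cast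
  ring

theorem HH_add_two {τ : ℂ} : τ + 2 ∈ HH ↔ τ ∈ HH := by
  simp [HH]

theorem lam_sub_one_decay (D : ModularData) : ∃ C Y : ℝ, 0 ≤ C ∧ 0 < Y ∧ ∀ τ : ℂ, Y ≤ τ.im →
    ‖D.lam τ - 1‖ ≤ C * Real.exp (-(Real.pi * τ.im)) := by
  classical
  let f : ℂ → ℂ := fun z => if z ∈ HH then D.lam z - 1 else 0
  have hper : Function.Periodic f ((2 : ℝ) : ℂ) := by
    intro z
    have e : (((2 : ℝ) : ℂ)) = 2 := by norm_num
    rw [e]
    by_cases hz : z ∈ HH
    · simp only [f, HH_add_two.2 hz, hz, if_true, lam_add_two D hz]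
    · have hz' : z + 2 ∉ HH := fun h => hz (HH_add_two.1 h)
      simp only [f, hz', hz, if_false]
  have hev : ∀ Y : ℝ, ∀ᶠ z in comap Complex.im atTop, Y < z.im := fun Y =>
    (eventually_gt_atTop Y).comap _
  have hhol : ∀ᶠ z in comap Complex.im atTop, DifferentiableAt ℂ f z := by
    filter_upwards [hev 0] with z hz
    have hz' : z ∈ HH := hz
    have hd : DifferentiableAt ℂ (fun z => D.lam z - 1) z :=
      (D.lam_diff.differentiableAt (HH_isOpen.mem_nhds hz')).sub_const 1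
    refine hd.congr_of_eventuallyEq ?_
    filter_upwards [HH_isOpen.mem_nhds hz'] with w hw
    simp only [f, hw, if_true]
  have hlim : Tendsto f (comap Complex.im atTop) (𝓝 0) := by
    rw [Metric.tendsto_nhds]
    intro ε hε
    obtain ⟨Y, hY, hYl⟩ := D.lam_lim ε hε
    filter_upwards [hev Y] with z hz
    have hz' : z ∈ HH := lt_trans hY hz
    simp only [f, hz', if_true, dist_zero_right]
    exact hYl z hz
  have hO := Function.Periodic.exp_decay_of_zero_at_inf (h := 2) two_pos hper hhol hlim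
  obtain ⟨C, hC⟩ := hO.bound
  rw [Filter.eventually_comap, eventually_atTop] at hC
  obtain ⟨Y, hY⟩ := hC
  refine ⟨max C 0, max Y 1, le_max_right _ _, lt_of_lt_of_le one_pos (le_max_right _ _), ?_⟩
  intro τ hτ
  have hτ1 : (1 : ℝ) ≤ τ.im := le_trans (le_max_right _ _) hτ
  have hτ' : τ ∈ HH := lt_of_lt_of_le one_pos hτ1
  have h1 := hY τ.im (le_trans (le_max_left _ _) hτ) τ rfl
  simp only [f, hτ', if_true] at h1
  rw [Real.norm_of_nonneg (Real.exp_pos _).le] at h1
  have e : -2 * Real.pi * τ.im / 2 = -(Real.pi * τ.im) := by ring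
  rw [e] at h1
  exact h1.trans (mul_le_mul_of_nonneg_right (le_max_left _ _) (Real.exp_pos _).le)

theorem lam_deriv_cont (D : ModularData) : ContinuousOn (deriv D.lam) HH :=
  (D.lam_diff.deriv HH_isOpen).continuousOn

/-- exponential decay of `lam'` -/
theorem lam_deriv_decay (D : ModularData) : ∃ C : ℝ, ∀ y : ℝ, 1 ≤ y →
    ‖deriv D.lam (y * I)‖ ≤ C * Real.exp (-(Real.pi * y)) := by
  obtain ⟨C, Y, hC, hY, hb⟩ := lam_sub_one_decay D
  -- the compact part
  have hc : ContinuousOn (fun y : ℝ => deriv D.lam (y * I)) (Icc 1 (Y + 1)) := by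
    refine (lam_deriv_cont D).comp (by fun_prop) ?_
    intro y hy
    change 0 < ((y : ℂ) * I).im
    simp only [mul_im, ofReal_re, I_im, mul_one, ofReal_im, I_re, mul_zero, add_zero]
    linarith [hy.1]
  obtain ⟨M, hM⟩ := isCompact_Icc.exists_bound_of_continuousOn hc
  refine ⟨C * Real.exp Real.pi + |M| * Real.exp (Real.pi * (Y + 1)), ?_⟩
  intro y hy
  have him : ((y : ℂ) * I).im = y := by simp
  rcases le_total y (Y + 1) with h | h
  · have h1 := hM y ⟨hy, h⟩
    have h2 : 1 ≤ Real.exp (Real.pi * (Y + 1)) * Real.exp (-(Real.pi * y)) := by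
      rw [← Real.exp_add, Real.one_le_exp_iff]
      nlinarith [Real.pi_pos]
    have h3 : 0 ≤ C * Real.exp Real.pi * Real.exp (-(Real.pi * y)) := by positivity
    calc ‖deriv D.lam (y * I)‖ ≤ M := h1
      _ ≤ |M| * 1 := by rw [mul_one]; exact le_abs_self M
      _ ≤ |M| * (Real.exp (Real.pi * (Y + 1)) * Real.exp (-(Real.pi * y))) :=
        mul_le_mul_of_nonneg_left h2 (abs_nonneg M)
      _ ≤ (C * Real.exp Real.pi + |M| * Real.exp (Real.pi * (Y + 1))) *
          Real.exp (-(Real.pi * y)) := by rw [add_mul]; linarith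
  · -- Cauchy estimate
    have hball : ∀ z ∈ closedBall ((y : ℂ) * I) 1, y - 1 ≤ z.im := by
      intro z hz
      have h1 : |(z - (y : ℂ) * I).im| ≤ 1 := by
        refine (Complex.abs_im_le_norm _).trans ?_
        rwa [mem_closedBall, dist_eq_norm] at hz
      rw [sub_im, him] at h1
      linarith [(abs_le.1 h1).1]
    have hsub : closedBall ((y : ℂ) * I) 1 ⊆ HH := by
      intro z hz
      change 0 < z.im
      have := hball z hz
      linarith
    have hd : DifferentiableOn ℂ (fun z => D.lam z - 1) (closedBall ((y : ℂ) * I) 1) :=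
      (D.lam_diff.mono hsub).sub_const 1
    have hdc : DiffContOnCl ℂ (fun z => D.lam z - 1) (ball ((y : ℂ) * I) 1) := by
      refine DifferentiableOn.diffContOnCl ?_
      rwa [closure_ball _ one_ne_zero]
    have h1 : ‖deriv (fun z => D.lam z - 1) ((y : ℂ) * I)‖ ≤
        (C * Real.exp (-(Real.pi * (y - 1)))) / 1 := by
      refine norm_deriv_le_of_forall_mem_sphere_norm_le one_pos hdc ?_
      intro z hz
      have hz' := hball z (sphere_subset_closedBall hz)
      refine (hb z (by linarith)).trans (mul_le_mul_of_nonneg_left ?_ hC)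
      apply Real.exp_le_exp.2
      nlinarith [Real.pi_pos]
    rw [deriv_sub_const, div_one] at h1
    have e : Real.exp (-(Real.pi * (y - 1))) = Real.exp Real.pi * Real.exp (-(Real.pi * y)) := by
      rw [← Real.exp_add]; congr 1; ring
    rw [e] at h1
    have h3 : 0 ≤ |M| * Real.exp (Real.pi * (Y + 1)) * Real.exp (-(Real.pi * y)) := by positivity
    calc ‖deriv D.lam (y * I)‖ ≤ C * (Real.exp Real.pi * Real.exp (-(Real.pi * y))) := h1
      _ ≤ (C * Real.exp Real.pi + |M| * Real.exp (Real.pi * (Y + 1))) *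
          Real.exp (-(Real.pi * y)) := by rw [add_mul]; linarith

/-- polynomial growth of `Herg` functions -/
theorem Herg.growth {h : ℂ → ℂ} (hh : Herg h) : ∃ C : ℝ, ∀ y : ℝ, 1 ≤ y →
    ‖h (y * I)‖ ≤ C * y ^ 3 := by
  obtain ⟨hd, hre⟩ := hh
  -- `cay` maps the disc to the half plane
  have hcay : ∀ w ∈ ball (0 : ℂ) 1, cay w ∈ HH ∧ (1 - w) ≠ 0 := by
    intro w hw
    rw [mem_ball_zero_iff] at hw
    have hne : (1 - w) ≠ 0 := by
      intro h0
      have : w = 1 := (sub_eq_zero.1 h0).symm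
      rw [this] at hw
      simp at hw
    refine ⟨?_, hne⟩
    change 0 < (cay w).im
    have hns : 0 < Complex.normSq (1 - w) := Complex.normSq_pos.2 hne
    have hw2 : w.re * w.re + w.im * w.im < 1 := by
      have h1 : Complex.normSq w < 1 := by
        rw [Complex.normSq_eq_norm_sq]
        nlinarith [norm_nonneg w]
      rwa [Complex.normSq_apply] at h1
    have e : (cay w).im = (1 - (w.re * w.re + w.im * w.im)) / Complex.normSq (1 - w) := by
      rw [cay, Complex.div_im]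
      simp only [mul_im, mul_re, I_re, I_im, add_re, add_im, one_re, one_im, sub_re, sub_im,
        zero_mul, one_mul, zero_sub, zero_add]
      field_simp
      ring
    rw [e]
    exact div_pos (by linarith) hns
  have hcd : DifferentiableOn ℂ cay (ball 0 1) := by
    intro w hw
    have hne := (hcay w hw).2
    apply DifferentiableAt.differentiableWithinAt
    unfold cay
    exact DifferentiableAt.div (by fun_prop) (by fun_prop) hne
  set G : ℂ → ℂ := toDisc h with hG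
  have hGd : DifferentiableOn ℂ G (ball 0 1) := by
    rw [hG]
    unfold toDisc
    have h1 : DifferentiableOn ℂ (fun w => h (cay w)) (ball 0 1) :=
      hd.comp hcd (fun w hw => (hcay w hw).1)
    exact (h1.mul (by fun_prop)).div_const _
  let p : ℂ → ℂ := fun w => dslope G 0 w + (starRingEnd ℂ) (G 0) * w
  have hpd : DifferentiableOn ℂ p (ball 0 1) := by
    have h1 : DifferentiableOn ℂ (dslope G 0) (ball 0 1) :=
      (differentiableOn_dslope (isOpen_ball.mem_nhds (mem_ball_self one_pos))).2 hGd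
    exact h1.add (by fun_prop)
  have hp : ∀ w : ℂ, w ≠ 0 → p w = -(herg G w) := by
    intro w hw
    simp only [p, herg, dslope_of_ne _ hw, slope_def_field, sub_zero]
    field_simp
  have hpre : ∀ w ∈ ball (0 : ℂ) 1, w ≠ 0 → (p w).re ≤ 0 := by
    intro w hw hw0
    rw [hp w hw0, neg_re]
    linarith [hre w hw hw0]
  have hpre' : MapsTo p (ball 0 1) {z | z.re ≤ 1} := by
    intro w hw
    change (p w).re ≤ 1
    by_cases hw0 : w = 0
    · subst hw0
      have hcont : ContinuousAt p 0 :=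
        (hpd 0 hw).continuousWithinAt.continuousAt (isOpen_ball.mem_nhds hw)
      have h1 : Tendsto (fun w => (p w).re) (𝓝[≠] 0) (𝓝 (p 0).re) :=
        (Complex.continuous_re.continuousAt.tendsto.comp hcont.tendsto).mono_left
          nhdsWithin_le_nhds
      refine le_trans (le_of_tendsto h1 ?_) zero_le_one
      have h2 : ∀ᶠ w in 𝓝[≠] (0 : ℂ), w ∈ ball (0 : ℂ) 1 :=
        mem_nhdsWithin_of_mem_nhds (isOpen_ball.mem_nhds hw)
      filter_upwards [h2, self_mem_nhdsWithin] with w h3 h4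
      exact hpre w h3 h4
    · exact (hpre w hw hw0).trans zero_le_one
  -- Borel-Caratheodory
  have hbc : ∀ w ∈ ball (0 : ℂ) 1, ‖p w‖ ≤ (2 + 2 * ‖p 0‖) / (1 - ‖w‖) := by
    intro w hw
    have h1 := borelCaratheodory (M := 1) one_pos hpd hpre' one_pos hw
    rw [mem_ball_zero_iff] at hw
    have h2 : 0 < 1 - ‖w‖ := by linarith
    refine h1.trans ?_
    rw [← add_div]
    refine div_le_div_of_nonneg_right ?_ h2.le
    nlinarith [norm_nonneg (p 0), mul_nonneg (norm_nonneg (p 0)) h2.le]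
  have hGb : ∀ w ∈ ball (0 : ℂ) 1, ‖G w‖ ≤ (2 + 2 * ‖p 0‖ + 2 * ‖G 0‖) / (1 - ‖w‖) := by
    intro w hw
    have e : G w = G 0 + w * p w - (starRingEnd ℂ) (G 0) * w ^ 2 := by
      by_cases hw0 : w = 0
      · subst hw0; simp
      · rw [hp w hw0, herg]; field_simp; ring
    have hw1 := mem_ball_zero_iff.1 hw
    have h2 : 0 < 1 - ‖w‖ := by linarith
    have h2' : 1 - ‖w‖ ≤ 1 := by linarith [norm_nonneg w]
    have h3 : ‖G w‖ ≤ ‖G 0‖ + ‖p w‖ + ‖G 0‖ := by
      rw [e]
      refine (norm_sub_le _ _).trans (add_le_add ((norm_add_le _ _).trans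
        (add_le_add le_rfl ?_)) ?_)
      · rw [norm_mul]
        nlinarith [norm_nonneg (p w)]
      · rw [norm_mul, norm_pow, Complex.norm_conj]
        have : ‖w‖ ^ 2 ≤ 1 := by nlinarith [norm_nonneg w]
        nlinarith [norm_nonneg (G 0)]
    have h4 := hbc w hw
    have h5 : ‖G 0‖ ≤ ‖G 0‖ / (1 - ‖w‖) := by
      rw [le_div_iff₀ h2]
      nlinarith [norm_nonneg (G 0)]
    calc ‖G w‖ ≤ ‖G 0‖ + ‖p w‖ + ‖G 0‖ := h3
      _ ≤ ‖G 0‖ / (1 - ‖w‖) + (2 + 2 * ‖p 0‖) / (1 - ‖w‖) + ‖G 0‖ / (1 - ‖w‖) := by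
        linarith
      _ = (2 + 2 * ‖p 0‖ + 2 * ‖G 0‖) / (1 - ‖w‖) := by ring
  set K : ℝ := 2 + 2 * ‖p 0‖ + 2 * ‖G 0‖ with hK
  have hK0 : 0 ≤ K := by positivity
  refine ⟨8 * K, ?_⟩
  intro y hy
  have hy1 : (0 : ℝ) < y + 1 := by linarith
  have hy1c : ((y : ℂ) + 1) ≠ 0 := by
    have : ((y + 1 : ℝ) : ℂ) ≠ 0 := by exact_mod_cast hy1.ne'
    push_cast at this
    exact this
  let w : ℂ := (((y - 1) / (y + 1) : ℝ) : ℂ)
  have hwn : ‖w‖ = (y - 1) / (y + 1) := by
    simp only [w]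
    rw [Complex.norm_real, Real.norm_of_nonneg (div_nonneg (by linarith) hy1.le)]
  have hw1 : 1 - ‖w‖ = 2 / (y + 1) := by
    rw [hwn]; field_simp; ring
  have hw : w ∈ ball (0 : ℂ) 1 := by
    rw [mem_ball_zero_iff, hwn, div_lt_one hy1]; linarith
  have hw2 : 1 - w = 2 / ((y : ℂ) + 1) := by
    simp only [w]; push_cast; field_simp; ring
  have hcw : cay w = y * I := by
    rw [cay, hw2]
    have : 1 + w = 2 * y / ((y : ℂ) + 1) := by
      simp only [w]; push_cast; field_simp; ring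
    rw [this]
    field_simp
  have hGw : G w = h (y * I) * (2 / ((y : ℂ) + 1)) ^ 2 / (2 * I) := by
    rw [hG, toDisc, hcw, hw2]
  have hhy : h (y * I) = G w * (2 * I) * (((y : ℂ) + 1) / 2) ^ 2 := by
    rw [hGw]
    have hI : (I : ℂ) ≠ 0 := I_ne_zero
    field_simp
  have hn : ‖h (y * I)‖ = ‖G w‖ * ((y + 1) ^ 2 / 2) := by
    rw [hhy, norm_mul, norm_mul, norm_pow, norm_div, norm_mul, Complex.norm_I]
    have e1 : ‖((y : ℂ) + 1)‖ = y + 1 := by
      have : ((y : ℂ) + 1) = ((y + 1 : ℝ) : ℂ) := by push_cast; ring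
      rw [this, Complex.norm_real, Real.norm_of_nonneg hy1.le]
    rw [e1]
    have e2 : ‖(2 : ℂ)‖ = 2 := by simp
    rw [e2]
    ring
  rw [hn]
  have h1 := hGb w hw
  rw [hw1] at h1
  have h2 : ‖G w‖ ≤ K * ((y + 1) / 2) := by
    refine h1.trans (le_of_eq ?_)
    field_simp
  have h3 : (y + 1) ≤ 2 * y := by linarith
  calc ‖G w‖ * ((y + 1) ^ 2 / 2) ≤ K * ((y + 1) / 2) * ((y + 1) ^ 2 / 2) := by gcongr
    _ ≤ K * ((2 * y) / 2) * ((2 * y) ^ 2 / 2) := by gcongr
    _ = 2 * K * y ^ 3 := by ring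
    _ ≤ 8 * K * y ^ 3 := by
      have : 0 ≤ K * y ^ 3 := by positivity
      linarith

theorem sqrt_diff {v g : ℂ → ℂ} {A : Set ℂ} (hA : IsOpen A) (hv : ContinuousOn v A)
    (hg : DifferentiableOn ℂ g A) (h : ∀ z ∈ A, v z ^ 2 = g z) (h0 : ∀ z ∈ A, v z ≠ 0) :
    DifferentiableOn ℂ v A := by
  intro t ht
  have hvt : ContinuousAt v t := (hv t ht).continuousAt (hA.mem_nhds ht)
  have hgt : HasDerivAt g (deriv g t) t := ((hg t ht).differentiableAt (hA.mem_nhds ht)).hasDerivAt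
  have h2 : v t + v t ≠ 0 := by
    rw [← two_mul]; exact mul_ne_zero two_ne_zero (h0 t ht)
  have hd : HasDerivAt v (deriv g t / (v t + v t)) t := by
    rw [hasDerivAt_iff_tendsto_slope] at hgt ⊢
    have hadd : Tendsto (fun z => v z + v t) (𝓝[≠] t) (𝓝 (v t + v t)) :=
      (hvt.tendsto.add_const (v t)).mono_left nhdsWithin_le_nhds
    refine (hgt.div hadd h2).congr' ?_
    have e1 : ∀ᶠ z in 𝓝[≠] t, v z + v t ≠ 0 := hadd.eventually_ne h2
    have e2 : ∀ᶠ z in 𝓝[≠] t, z ∈ A := mem_nhdsWithin_of_mem_nhds (hA.mem_nhds ht)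
    filter_upwards [e1, e2, self_mem_nhdsWithin] with z hz1 hz2 hz3
    have hz4 : z - t ≠ 0 := sub_ne_zero.2 hz3
    simp only [Pi.div_apply, slope_def_field]
    rw [← h z hz2, ← h t ht]
    field_simp
    ring
  exact hd.differentiableAt.differentiableWithinAt

theorem exists_sqrt_lam (D : ModularData) : ∃ v : ℂ → ℂ, DifferentiableOn ℂ v HH ∧
    (∀ τ ∈ HH, v τ ^ 2 = D.lam τ) ∧ ∃ Y : ℝ, 0 < Y ∧ ∀ τ : ℂ, Y ≤ τ.im →
      ‖v τ + 1‖ ≤ ‖D.lam τ - 1‖ := by
  have hIH : (I : ℂ) ∈ HH := by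
    change 0 < I.im
    simp
  have hsc : IsSimplyConnected HH := by
    have : ContractibleSpace HH := HH_convex.contractibleSpace ⟨I, hIH⟩
    have h2 : SimplyConnectedSpace HH := inferInstance
    exact h2
  obtain ⟨v₀, hv₀, hv₀2⟩ := exists_continuousOn_pow_eq hsc HH_isOpen
    (g := D.lam) D.lam_diff.continuousOn (by
      rintro ⟨τ, hτ, h0⟩
      exact (D.lam_mem ⟨τ, hτ⟩).1 h0) two_ne_zero
  obtain ⟨Y, hY, hYl⟩ := D.lam_lim 1 one_pos
  let S : Set ℂ := {τ | Y + 1 ≤ τ.im}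
  have hSc : Convex ℝ S := convex_halfSpace_im_ge _
  have hSH : S ⊆ HH := by
    intro τ hτ
    have : Y + 1 ≤ τ.im := hτ
    change 0 < τ.im
    linarith
  have hne : ∀ τ ∈ S, (v₀ τ).re ≠ 0 := by
    intro τ hτ h0
    have h1 : Y < τ.im := by
      have : Y + 1 ≤ τ.im := hτ
      linarith
    have h2 := hYl τ h1
    rw [← hv₀2 τ] at h2
    have h3 : (v₀ τ ^ 2 - 1).re ≤ -1 := by
      rw [sub_re, one_re, pow_two, mul_re, h0]
      nlinarith [mul_self_nonneg (v₀ τ).im]
    have h4 := Complex.abs_re_le_norm (v₀ τ ^ 2 - 1)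
    rw [abs_of_nonpos (by linarith)] at h4
    linarith
  have hcr : ContinuousOn (fun τ => (v₀ τ).re) S :=
    Complex.continuous_re.comp_continuousOn (hv₀.mono hSH)
  have hsign : (∀ τ ∈ S, (v₀ τ).re < 0) ∨ (∀ τ ∈ S, 0 < (v₀ τ).re) := by
    by_contra hcon
    push Not at hcon
    obtain ⟨⟨τ, hτ, h1⟩, ⟨τ', hτ', h2⟩⟩ := hcon
    have hiv := hSc.isPreconnected.intermediate_value hτ' hτ hcr
    obtain ⟨t, ht, ht0⟩ := hiv ⟨h2, h1⟩
    exact hne t ht ht0
  obtain ⟨s, hs2, hs⟩ : ∃ s : ℂ, s ^ 2 = 1 ∧ ∀ τ ∈ S, (s * v₀ τ).re < 0 := by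
    rcases hsign with h | h
    · exact ⟨1, by norm_num, fun τ hτ => by rw [one_mul]; exact h τ hτ⟩
    · exact ⟨-1, by norm_num, fun τ hτ => by
        rw [neg_one_mul, neg_re]; linarith [h τ hτ]⟩
  have hsq : ∀ τ, (s * v₀ τ) ^ 2 = D.lam τ := by
    intro τ; rw [mul_pow, hs2, one_mul, hv₀2]
  refine ⟨fun τ => s * v₀ τ, ?_, fun τ _ => hsq τ, Y + 1, by linarith, ?_⟩
  · refine sqrt_diff HH_isOpen (hv₀.const_mul s) D.lam_diff (fun τ _ => hsq τ) ?_
    intro τ hτ h0
    have h1 := hsq τ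
    rw [h0] at h1
    exact (D.lam_mem ⟨τ, hτ⟩).1 (by rw [← h1]; norm_num)
  · intro τ hτ
    have h1 := hs τ hτ
    have h2 : ‖s * v₀ τ + 1‖ * ‖s * v₀ τ - 1‖ = ‖D.lam τ - 1‖ := by
      rw [← norm_mul, ← hsq τ]; congr 1; ring
    have h3 : 1 ≤ ‖s * v₀ τ - 1‖ := by
      have h4 := Complex.abs_re_le_norm (s * v₀ τ - 1)
      rw [sub_re, one_re, abs_of_nonpos (by linarith)] at h4
      linarith
    nlinarith [norm_nonneg (s * v₀ τ + 1)]

theorem lam_deriv_gamF (D : ModularData) {a b c d : ℤ} (hg : Gam2 a b c d) {τ : ℂ} (hτ : τ ∈ HH) :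
    deriv D.lam ((a * τ + b) / (c * τ + d)) = (c * τ + d) ^ 2 * deriv D.lam τ := by
  obtain ⟨h1, h2⟩ := gam_mem_HH hg hτ
  have hgd : HasDerivAt (fun z : ℂ => (a * z + b) / (c * z + d)) (1 / (c * τ + d) ^ 2) τ := by
    have e1 : HasDerivAt (fun z : ℂ => (a : ℂ) * z + b) a τ := by
      simpa using ((hasDerivAt_id τ).const_mul (a : ℂ)).add_const (b : ℂ)
    have e2 : HasDerivAt (fun z : ℂ => (c : ℂ) * z + d) c τ := by
      simpa using ((hasDerivAt_id τ).const_mul (c : ℂ)).add_const (d : ℂ)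
    have e3 := e1.div e2 h2
    have hdet : (a : ℂ) * d - b * c = 1 := by exact_mod_cast hg.1
    have e4 : ((a : ℂ) * (c * τ + d) - (a * τ + b) * c) / (c * τ + d) ^ 2 =
        1 / (c * τ + d) ^ 2 := by
      congr 1
      linear_combination hdet
    rw [e4] at e3
    exact e3
  have hl : HasDerivAt D.lam (deriv D.lam ((a * τ + b) / (c * τ + d)))
      ((a * τ + b) / (c * τ + d)) :=
    (D.lam_diff.differentiableAt (HH_isOpen.mem_nhds h1)).hasDerivAt
  have hcomp := HasDerivAt.comp τ hl hgd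
  have hcomp2 : HasDerivAt D.lam (deriv D.lam ((a * τ + b) / (c * τ + d)) *
      (1 / (c * τ + d) ^ 2)) τ := by
    refine hcomp.congr_of_eventuallyEq ?_
    filter_upwards [HH_isOpen.mem_nhds hτ] with z hz
    exact (D.lam_inv a b c d hg z hz).symm
  rw [hcomp2.deriv, mul_comm (deriv D.lam _), ← mul_assoc, mul_one_div_cancel (pow_ne_zero 2 h2),
    one_mul]

end Pool.Agent.T05
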