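import Pool.Agent.Lib.MP_0162a5_an.D5
import Pool.Agent.Lib.MP_0162a5_an.E4
import Pool.Agent.Lib.MP_0162a5_an.F1
import Pool.Agent.Lib.MP_0162a5_an.F2a

/-! MODULE F2: a field in `InC` whose two components are quadratic is zero.
(`lam_deriv_decay`, `Herg.growth`, the square root of `lam` are in `F2a`.)

`v` = branch of `√lam` on `HH` with `v → -1` as `im τ → ∞`.
`q τ = (1/v, v) ∈ MM` since `v² = lam ≠ 0, 1`.  `u₃ = snd/fst : MM → C01`, `u₃ (q τ) = lam τ`.  For every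
lift `L` of `q`, `InC.herg`: `h τ = du₃(V (L τ))/lam' τ` is `Herg`, so `‖h (i y)‖ ≤ C y³` while
`lam' (i y) = O(e^{-π y})`.  Hence the numerator `v * (V (Lτ)).2 - v³ * (V (Lτ)).1 → 0` along `τ = i y`.
For `p₁, p₂ ∈ HH` with `lam p₁ = lam p₂ = -1` there is by `tau_surj` a lift with
`τ₁ (L (i y)) → p₁`, `τ₂ (L (i y)) → p₂`, so `lam'(p₁) A₁ ℓ₁(p₁)² = lam'(p₂) A₂ ℓ₂(p₂)²`.
So `E₁ (g p₁)` is independent of `g` in `Gam2`.
-/

set_option autoImplicit false

open Complex Metric Set Filter Topology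

namespace Pool.Agent.T05

/-- the function `snd / fst` -/
theorem u3_hasFDerivAt {x y : ℂ} (hx : x ≠ 0) :
    HasFDerivAt (fun p : ℂ × ℂ => p.2 / p.1)
      (y • (-(x ^ 2)⁻¹ • ContinuousLinearMap.fst ℂ ℂ ℂ) + x⁻¹ • ContinuousLinearMap.snd ℂ ℂ ℂ)
      (x, y) := by
  have h1 : HasFDerivAt (fun p : ℂ × ℂ => p.1) (ContinuousLinearMap.fst ℂ ℂ ℂ) (x, y) :=
    hasFDerivAt_fst
  have h2 : HasFDerivAt (fun p : ℂ × ℂ => p.2) (ContinuousLinearMap.snd ℂ ℂ ℂ) (x, y) :=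
    hasFDerivAt_snd
  have h3 : HasFDerivAt (fun p : ℂ × ℂ => (p.1)⁻¹) (-(x ^ 2)⁻¹ • ContinuousLinearMap.fst ℂ ℂ ℂ)
      (x, y) := (hasDerivAt_inv hx).comp_hasFDerivAt (x, y) h1
  have h4 := h2.mul h3
  have e : (fun p : ℂ × ℂ => p.2 / p.1) = ((fun p : ℂ × ℂ => p.2) * fun p : ℂ × ℂ => (p.1)⁻¹) := by
    funext p
    simp only [Pi.mul_apply, div_eq_mul_inv]
  rw [e]
  exact h4

theorem u3_diff : DifferentiableOn ℂ (fun p : ℂ × ℂ => p.2 / p.1) MM := by
  intro p hp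
  exact (u3_hasFDerivAt (x := p.1) (y := p.2) hp.1).differentiableAt.differentiableWithinAt

theorem u3_maps : MapsTo (fun p : ℂ × ℂ => p.2 / p.1) MM C01 := by
  intro p hp
  obtain ⟨h1, h2, h3, h4, h5⟩ := hp
  refine ⟨div_ne_zero h3 h1, ?_⟩
  intro h
  rw [div_eq_one_iff_eq h1] at h
  exact h5 h.symm

theorem u3_fderiv {x y : ℂ} (hx : x ≠ 0) (v : ℂ × ℂ) :
    fderiv ℂ (fun p : ℂ × ℂ => p.2 / p.1) (x, y) v = v.2 / x - y * v.1 / x ^ 2 := by
  rw [(u3_hasFDerivAt (x := x) (y := y) hx).fderiv]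
  simp only [ContinuousLinearMap.add_apply, ContinuousLinearMap.smul_apply,
    ContinuousLinearMap.coe_fst', ContinuousLinearMap.coe_snd', smul_eq_mul]
  field_simp
  ring

/-- the main limit computation -/
theorem limit_eq (D : ModularData) (U : UnivCover) {τ₁ τ₂ : TT → ℂ}
    (c1 : Continuous τ₁) (c2 : Continuous τ₂)
    (h1' : ∀ X, τ₁ X ∈ HH ∧ D.lam (τ₁ X) = (U.P X).1)
    (h2' : ∀ X, τ₂ X ∈ HH ∧ D.lam (τ₂ X) = (U.P X).2)
    {V : TT → ℂ × ℂ} (hV : U.InC V) {A₁ A₂ a₁ a₂ b₁ b₂ : ℂ}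
    (hq1 : ∀ X, (V X).1 = deriv D.lam (τ₁ X) * (A₁ * (a₁ - b₁ * τ₁ X) ^ 2))
    (hq2 : ∀ X, (V X).2 = deriv D.lam (τ₂ X) * (A₂ * (a₂ - b₂ * τ₂ X) ^ 2))
    {p₁ p₂ : ℂ} (hp₁ : p₁ ∈ HH) (hp₂ : p₂ ∈ HH) (hl₁ : D.lam p₁ = -1) (hl₂ : D.lam p₂ = -1) :
    deriv D.lam p₁ * (A₁ * (a₁ - b₁ * p₁) ^ 2) = deriv D.lam p₂ * (A₂ * (a₂ - b₂ * p₂) ^ 2) := by
  obtain ⟨v, hvd, hv2, Y, hY, hvY⟩ := exists_sqrt_lam D
  have hvne : ∀ τ ∈ HH, v τ ≠ 0 := by
    intro τ hτ h0
    exact (D.lam_mem ⟨τ, hτ⟩).1 (by rw [← hv2 τ hτ, h0]; norm_num)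
  have hvne1 : ∀ τ ∈ HH, v τ ^ 2 ≠ 1 := by
    intro τ hτ h0
    exact (D.lam_mem ⟨τ, hτ⟩).2 (by rw [← hv2 τ hτ, h0])
  let q : ℂ → ℂ × ℂ := fun τ => ((v τ)⁻¹, v τ)
  have hqd : DifferentiableOn ℂ q HH := (hvd.inv hvne).prodMk hvd
  have hqM : MapsTo q HH MM := by
    intro τ hτ
    have e0 := hvne τ hτ
    have e1 := hvne1 τ hτ
    have e2 : v τ ≠ 1 := fun h => e1 (by rw [h]; norm_num)
    refine ⟨inv_ne_zero e0, ?_, e0, e2, ?_⟩
    · intro h
      exact e2 (inv_eq_one.1 h)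
    · intro h
      apply e1
      have h' : (v τ)⁻¹ = v τ := h
      rw [pow_two]
      nth_rewrite 1 [← h']
      exact inv_mul_cancel₀ e0
  -- the ray
  have hray : ∀ y : ℝ, 0 < y → (y : ℂ) * I ∈ HH := by
    intro y hy
    change 0 < ((y : ℂ) * I).im
    simpa using hy
  have hrayim : ∀ y : ℝ, ((y : ℂ) * I).im = y := by intro y; simp
  have hlim1 : Tendsto (fun y : ℝ => v (y * I)) atTop (𝓝 (-1)) := by
    rw [Metric.tendsto_nhds]
    intro ε hε
    obtain ⟨Y', hY', hYl⟩ := D.lam_lim ε hε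
    filter_upwards [eventually_gt_atTop (max Y Y')] with y hy
    have hy1 : Y < y := lt_of_le_of_lt (le_max_left _ _) hy
    have hy2 : Y' < y := lt_of_le_of_lt (le_max_right _ _) hy
    rw [dist_eq_norm, sub_neg_eq_add]
    refine lt_of_le_of_lt (hvY _ (by rw [hrayim]; exact hy1.le)) (hYl _ (by rw [hrayim]; exact hy2))
  have hlim2 : Tendsto (fun y : ℝ => (v (y * I))⁻¹) atTop (𝓝 (-1)) := by
    have h := hlim1.inv₀ (by norm_num : (-1 : ℂ) ≠ 0)
    have e : ((-1 : ℂ))⁻¹ = -1 := by norm_num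
    rwa [e] at h
  -- sections of `lam` over the disc of centre `-1` and radius `1`
  have hBC : ∀ b ∈ ball (-1 : ℂ) 1, b ∈ C01 := by
    intro b hb
    rw [mem_ball, dist_eq_norm, sub_neg_eq_add] at hb
    constructor
    · intro h; rw [h] at hb; norm_num at hb
    · intro h; rw [h] at hb; norm_num at hb
  obtain ⟨s₁, hs₁c, hs₁0, hs₁⟩ := lam_lift D (convex_ball (-1 : ℂ) 1) (g := fun z => z)
    continuousOn_id hBC (mem_ball_self one_pos) hp₁ hl₁
  obtain ⟨s₂, hs₂c, hs₂0, hs₂⟩ := lam_lift D (convex_ball (-1 : ℂ) 1) (g := fun z => z)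
    continuousOn_id hBC (mem_ball_self one_pos) hp₂ hl₂
  -- the starting point
  have hev : ∀ᶠ y : ℝ in atTop, 1 ≤ y ∧ v (y * I) ∈ ball (-1 : ℂ) 1 ∧
      (v (y * I))⁻¹ ∈ ball (-1 : ℂ) 1 := by
    filter_upwards [eventually_ge_atTop 1, hlim1 (ball_mem_nhds _ one_pos),
      hlim2 (ball_mem_nhds _ one_pos)] with y e1 e2 e3
    exact ⟨e1, e2, e3⟩
  obtain ⟨y₀, hy₀⟩ := eventually_atTop.1 hev
  obtain ⟨hy01, hy02, hy03⟩ := hy₀ y₀ le_rfl
  have hy0H : (y₀ : ℂ) * I ∈ HH := hray y₀ (by linarith)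
  obtain ⟨X, hX1, hX2⟩ := tau_surj D U c1 c2 h1' h2' (hs₁ _ hy03).1 (hs₂ _ hy02).1 (by
    rw [(hs₁ _ hy03).2, (hs₂ _ hy02).2]
    exact (hqM hy0H).2.2.2.2)
  have hPX : U.P X = q (y₀ * I) := by
    apply Prod.ext
    · rw [← (h1' X).2, hX1, (hs₁ _ hy03).2]
    · rw [← (h2' X).2, hX2, (hs₂ _ hy02).2]
  obtain ⟨L, hLc, hL0, hLq⟩ := lift_convex U HH_convex (g := q) hqd.continuousOn hqM hy0H hPX
  -- the Herglotz property
  have hherg := InC.herg U D hV u3_diff u3_maps hLc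
    (hqd.congr fun τ hτ => hLq τ hτ) (by
      intro τ hτ
      simp only [hLq τ hτ, q]
      rw [div_inv_eq_mul, ← pow_two, hv2 τ hτ])
  obtain ⟨C, hC⟩ := hherg.growth
  obtain ⟨C', hC'⟩ := lam_deriv_decay D
  -- the numerator
  let N : ℝ → ℂ := fun y => v (y * I) * (V (L (y * I))).2 - v (y * I) ^ 3 * (V (L (y * I))).1
  have hN : ∀ y : ℝ, 1 ≤ y → ‖N y‖ ≤ |C| * |C'| * (y ^ 3 * Real.exp (-(Real.pi * y))) := by
    intro y hy
    have hyH : (y : ℂ) * I ∈ HH := hray y (by linarith)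
    have e1 := hC y hy
    have e2 := hC' y hy
    have hne := hvne _ hyH
    have hdne := D.lam_deriv _ hyH
    have e3 : fderiv ℂ (fun p : ℂ × ℂ => p.2 / p.1) (U.P (L (y * I))) (V (L (y * I))) = N y := by
      rw [hLq _ hyH]
      simp only [q, N]
      rw [u3_fderiv (inv_ne_zero hne)]
      field_simp
    simp only [e3] at e1
    have e4 : N y = N y / deriv D.lam (y * I) * deriv D.lam (y * I) := by
      field_simp
    rw [e4, norm_mul]
    have hy3 : 0 ≤ y ^ 3 := by positivity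
    calc ‖N y / deriv D.lam (y * I)‖ * ‖deriv D.lam (y * I)‖
        ≤ (|C| * y ^ 3) * (|C'| * Real.exp (-(Real.pi * y))) := by
          refine mul_le_mul (e1.trans (mul_le_mul_of_nonneg_right (le_abs_self C) hy3))
            (e2.trans (mul_le_mul_of_nonneg_right (le_abs_self C') (Real.exp_pos _).le))
            (norm_nonneg _) (by positivity)
      _ = |C| * |C'| * (y ^ 3 * Real.exp (-(Real.pi * y))) := by ring
  have hN0 : Tendsto N atTop (𝓝 0) := by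
    have h1 : Tendsto (fun y : ℝ => |C| * |C'| * (y ^ 3 * Real.exp (-(Real.pi * y)))) atTop
        (𝓝 (|C| * |C'| * 0)) := by
      refine Tendsto.const_mul _ ?_
      have h2 : Tendsto (fun y : ℝ => (Real.pi * y) ^ 3 * Real.exp (-(Real.pi * y))) atTop (𝓝 0) :=
        (Real.tendsto_pow_mul_exp_neg_atTop_nhds_zero 3).comp
          (tendsto_id.const_mul_atTop Real.pi_pos)
      have h3 := h2.const_mul ((Real.pi ^ 3)⁻¹)
      rw [mul_zero] at h3
      refine h3.congr fun y => ?_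
      have : Real.pi ^ 3 ≠ 0 := pow_ne_zero 3 Real.pi_ne_zero
      field_simp
    rw [mul_zero] at h1
    refine squeeze_zero_norm' ?_ h1
    filter_upwards [eventually_ge_atTop 1] with y hy
    exact hN y hy
  -- the limits of the two components
  have hLray : ContinuousOn (fun y : ℝ => L (y * I)) (Ici y₀) := by
    refine hLc.comp (by fun_prop) ?_
    intro y hy
    exact hray y (by linarith [mem_Ici.1 hy])
  have hvray : ContinuousOn (fun y : ℝ => v (y * I)) (Ici y₀) := by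
    refine hvd.continuousOn.comp (by fun_prop) ?_
    intro y hy
    exact hray y (by linarith [mem_Ici.1 hy])
  have ht1 : ∀ y ∈ Ici y₀, τ₁ (L (y * I)) = s₁ ((v (y * I))⁻¹) := by
    refine lam_lift_unique D (A := Ici y₀) isPreconnected_Ici
      (G := fun y : ℝ => τ₁ (L (y * I))) (G' := fun y : ℝ => s₁ ((v (y * I))⁻¹))
      (c1.comp_continuousOn hLray) ?_ (fun y _ => (h1' _).1) (fun y hy => (hs₁ _ (hy₀ y hy).2.2).1)
      ?_ (mem_Ici.2 le_rfl) ?_
    · refine hs₁c.comp (hvray.inv₀ ?_) (fun y hy => (hy₀ y hy).2.2)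
      intro y hy
      exact hvne _ (hray y (by linarith [mem_Ici.1 hy]))
    · intro y hy
      rw [(h1' _).2, (hs₁ _ (hy₀ y hy).2.2).2, hLq _ (hray y (by linarith [mem_Ici.1 hy]))]
    · simp only [hL0, hX1]
  have ht2 : ∀ y ∈ Ici y₀, τ₂ (L (y * I)) = s₂ (v (y * I)) := by
    refine lam_lift_unique D (A := Ici y₀) isPreconnected_Ici
      (G := fun y : ℝ => τ₂ (L (y * I))) (G' := fun y : ℝ => s₂ (v (y * I)))
      (c2.comp_continuousOn hLray) ?_ (fun y _ => (h2' _).1) (fun y hy => (hs₂ _ (hy₀ y hy).2.1).1)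
      ?_ (mem_Ici.2 le_rfl) ?_
    · exact hs₂c.comp hvray (fun y hy => (hy₀ y hy).2.1)
    · intro y hy
      rw [(h2' _).2, (hs₂ _ (hy₀ y hy).2.1).2, hLq _ (hray y (by linarith [mem_Ici.1 hy]))]
    · simp only [hL0, hX2]
  have hc1 : ContinuousAt s₁ (-1) :=
    (hs₁c _ (mem_ball_self one_pos)).continuousAt (isOpen_ball.mem_nhds (mem_ball_self one_pos))
  have hc2 : ContinuousAt s₂ (-1) :=
    (hs₂c _ (mem_ball_self one_pos)).continuousAt (isOpen_ball.mem_nhds (mem_ball_self one_pos))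
  have hT1 : Tendsto (fun y : ℝ => τ₁ (L (y * I))) atTop (𝓝 p₁) := by
    have h := hc1.tendsto.comp hlim2
    rw [hs₁0] at h
    refine h.congr' ?_
    filter_upwards [eventually_ge_atTop y₀] with y hy
    exact (ht1 y hy).symm
  have hT2 : Tendsto (fun y : ℝ => τ₂ (L (y * I))) atTop (𝓝 p₂) := by
    have h := hc2.tendsto.comp hlim1
    rw [hs₂0] at h
    refine h.congr' ?_
    filter_upwards [eventually_ge_atTop y₀] with y hy
    exact (ht2 y hy).symm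
  have hE : ∀ {A a b : ℂ} {p : ℂ}, p ∈ HH →
      ContinuousAt (fun t => deriv D.lam t * (A * (a - b * t) ^ 2)) p := by
    intro A a b p hp
    have h1 : ContinuousAt (deriv D.lam) p :=
      ((lam_deriv_cont D) p hp).continuousAt (HH_isOpen.mem_nhds hp)
    exact h1.mul (by fun_prop)
  have hV1 : Tendsto (fun y : ℝ => (V (L (y * I))).1) atTop
      (𝓝 (deriv D.lam p₁ * (A₁ * (a₁ - b₁ * p₁) ^ 2))) := by
    have h := (hE (A := A₁) (a := a₁) (b := b₁) hp₁).tendsto.comp hT1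
    refine h.congr fun y => ?_
    simp only [Function.comp_apply, hq1]
  have hV2 : Tendsto (fun y : ℝ => (V (L (y * I))).2) atTop
      (𝓝 (deriv D.lam p₂ * (A₂ * (a₂ - b₂ * p₂) ^ 2))) := by
    have h := (hE (A := A₂) (a := a₂) (b := b₂) hp₂).tendsto.comp hT2
    refine h.congr fun y => ?_
    simp only [Function.comp_apply, hq2]
  have hNl := (hlim1.mul hV2).sub ((hlim1.pow 3).mul hV1)
  have := tendsto_nhds_unique hN0 hNl
  linear_combination -this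

theorem no_quad (D : ModularData) (U : UnivCover) {τ₁ τ₂ : TT → ℂ}
    (h1 : U.Hol τ₁) (h2 : U.Hol τ₂) (c1 : Continuous τ₁) (c2 : Continuous τ₂)
    (h1' : ∀ X, τ₁ X ∈ HH ∧ D.lam (τ₁ X) = (U.P X).1)
    (h2' : ∀ X, τ₂ X ∈ HH ∧ D.lam (τ₂ X) = (U.P X).2)
    {V : TT → ℂ × ℂ} (hV : U.InC V) (hq1 : QuadAt D τ₁ (fun X => (V X).1))
    (hq2 : QuadAt D τ₂ (fun X => (V X).2)) : ∀ X, V X = 0 := by
  obtain ⟨A₁, a₁, b₁, hq1⟩ := hq1
  obtain ⟨A₂, a₂, b₂, hq2⟩ := hq2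
  obtain ⟨p, hp, hlp⟩ := D.lam_surj (-1) ⟨by norm_num, by norm_num⟩
  have key := fun {p₁ p₂ : ℂ} (hp₁ : p₁ ∈ HH) (hp₂ : p₂ ∈ HH) (hl₁ : D.lam p₁ = -1)
    (hl₂ : D.lam p₂ = -1) => limit_eq D U c1 c2 h1' h2' hV hq1 hq2 hp₁ hp₂ hl₁ hl₂
  -- transformation under `Gam2`
  have htr : ∀ {A : ℂ} {a b : ℝ} {α β γ δ : ℤ}, Gam2 α β γ δ →
      deriv D.lam ((α * p + β) / (γ * p + δ)) *
        (A * ((a : ℂ) - b * ((α * p + β) / (γ * p + δ))) ^ 2) =
      deriv D.lam p * (A * ((a : ℂ) * (γ * p + δ) - b * (α * p + β)) ^ 2) := by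
    intro A a b α β γ δ hg
    have hne := (gam_mem_HH hg hp).2
    rw [lam_deriv_gamF D hg hp]
    field_simp
  have hdne := D.lam_deriv p hp
  -- the algebra
  have halg : ∀ {A : ℂ} {a b : ℝ}, (∀ α β γ δ : ℤ, Gam2 α β γ δ →
      deriv D.lam p * (A * ((a : ℂ) * (γ * p + δ) - b * (α * p + β)) ^ 2) =
      deriv D.lam p * (A * ((a : ℂ) - b * p) ^ 2)) → ∀ t : ℂ, A * ((a : ℂ) - b * t) ^ 2 = 0 := by
    intro A a b hall t
    have hall' : ∀ α β γ δ : ℤ, Gam2 α β γ δ →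
        A * ((a : ℂ) * (γ * p + δ) - b * (α * p + β)) ^ 2 = A * ((a : ℂ) - b * p) ^ 2 :=
      fun α β γ δ hg => mul_left_cancel₀ hdne (hall α β γ δ hg)
    have e1 := hall' 1 2 0 1 ⟨by norm_num, odd_one, even_two, Even.zero, odd_one⟩
    have e2 := hall' 1 (-2) 0 1 ⟨by norm_num, odd_one, by decide, Even.zero, odd_one⟩
    have e3 := hall' 1 0 2 1 ⟨by norm_num, odd_one, Even.zero, even_two, odd_one⟩
    push_cast at e1 e2 e3
    have e4 : A * (b : ℂ) ^ 2 = 0 := by linear_combination (e1 + e2) / 8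
    have e5 : A = 0 ∨ b = 0 := by
      rcases mul_eq_zero.1 e4 with h | h
      · exact Or.inl h
      · right
        have := pow_eq_zero_iff (two_ne_zero) |>.1 h
        exact_mod_cast this
    rcases e5 with h | h
    · rw [h, zero_mul]
    · subst h
      have e6 : A * (a : ℂ) ^ 2 * (4 * p * (p + 1)) = 0 := by
        push_cast at e3
        linear_combination e3
      have hp0 : p ≠ 0 := by
        intro h0
        have : (0 : ℝ) < p.im := hp
        rw [h0] at this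
        simp at this
      have hp1 : p + 1 ≠ 0 := by
        intro h0
        have h0' : p = -1 := by linear_combination h0
        have : (0 : ℝ) < p.im := hp
        rw [h0'] at this
        simp at this
      have e7 : A * (a : ℂ) ^ 2 = 0 := by
        rcases mul_eq_zero.1 e6 with h | h
        · exact h
        · exfalso
          exact (mul_ne_zero (mul_ne_zero (by norm_num) hp0) hp1) h
      push_cast
      linear_combination e7
  have r1 := halg (A := A₁) (a := a₁) (b := b₁) (by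
    intro α β γ δ hg
    rw [← htr hg, key (gam_mem_HH hg hp).1 hp (by rw [D.lam_inv _ _ _ _ hg p hp, hlp]) hlp,
      key hp hp hlp hlp])
  have r2 := halg (A := A₂) (a := a₂) (b := b₂) (by
    intro α β γ δ hg
    rw [← htr hg, ← key hp (gam_mem_HH hg hp).1 hlp (by rw [D.lam_inv _ _ _ _ hg p hp, hlp]),
      ← key hp hp hlp hlp])
  intro X
  apply Prod.ext
  · change (V X).1 = 0
    refine (hq1 X).trans ?_
    rw [r1, mul_zero]
  · change (V X).2 = 0
    refine (hq2 X).trans ?_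
    rw [r2, mul_zero]

end Pool.Agent.T05
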