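import Pool.Agent.Lib.MP_0162a5_an.F2

/-! MODULE F3: `exists_InC`, `tau_lift` (for `fst` and `snd`), `renorm`, `InC.swap` + `swap_lift` (and
`lam_lift_gam`: `τ₁ ∘ σ` and `τ₂` differ by an element of `Gam2`), `renorm` again, `no_quad`. -/

set_option autoImplicit false

open Complex Metric Set Filter Topology

namespace Pool.Agent.T05

/-- changing the lift by an element of `Gam2` -/
theorem QuadAt.gam (D : ModularData) {τ τ' : TT → ℂ} (hτ : ∀ X, τ X ∈ HH) {a b c d : ℤ}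
    (hg : Gam2 a b c d) (h : ∀ X, τ' X = (a * τ X + b) / (c * τ X + d)) {f : TT → ℂ}
    (hf : QuadAt D τ' f) : QuadAt D τ f := by
  obtain ⟨A, α, β, hf⟩ := hf
  refine ⟨A, α * d - β * b, β * a - α * c, ?_⟩
  intro X
  have hne := (gam_mem_HH hg (hτ X)).2
  rw [hf X, h X, lam_deriv_gamF D hg (hτ X)]
  push_cast
  field_simp
  ring

theorem rigid (D : ModularData) (U : UnivCover) : ¬ QX := by
  intro hQ
  obtain ⟨V, hV, hV0⟩ := exists_InC U D hQ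
  let X₀ : TT := 0
  have hM := U.P_mem X₀
  obtain ⟨t₁, ht₁, ht₁'⟩ := D.lam_surj (U.P X₀).1 ⟨hM.1, hM.2.1⟩
  obtain ⟨t₂, ht₂, ht₂'⟩ := D.lam_surj (U.P X₀).2 ⟨hM.2.2.1, hM.2.2.2.1⟩
  obtain ⟨τ₁, _, c1, h1, h1'⟩ := tau_lift U D (u := Prod.fst) differentiableOn_fst
    (fun p hp => ⟨hp.1, hp.2.1⟩) X₀ ht₁ ht₁'
  obtain ⟨τ₂, _, c2, h2, h2'⟩ := tau_lift U D (u := Prod.snd) differentiableOn_snd
    (fun p hp => ⟨hp.2.2.1, hp.2.2.2.1⟩) X₀ ht₂ ht₂'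
  obtain ⟨V', hV', hV'0, hquad, _⟩ := renorm D U h1 h2 c1 c2 h1' h2' hV hV0
  obtain ⟨σ, hσ⟩ := swap_lift U
  -- `V'' = σ^* V'`
  have hV'' := InC.swap U hV' hσ
  have hV''0 : ∃ X, (V' (σ X)).swap ≠ 0 := by
    obtain ⟨X, hX⟩ := hV'0
    refine ⟨σ.symm X, ?_⟩
    rw [σ.apply_symm_apply]
    intro h
    apply hX
    rw [← Prod.swap_swap (V' X), h]
    rfl
  obtain ⟨a, b, c, d, hg, hgx⟩ := lam_lift_gam D (A := (univ : Set TT)) isPreconnected_univ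
    ⟨X₀, mem_univ _⟩ (G := τ₂) (G' := fun X => τ₁ (σ X)) c2.continuousOn
    (c1.comp σ.continuous).continuousOn (fun X _ => (h2' X).1) (fun X _ => (h1' _).1)
    (fun X _ => by
      rw [(h2' X).2, (h1' (σ X)).2, hσ X]
      rfl)
  have hquad2 : QuadAt D τ₂ (fun X => ((V' (σ X)).swap).2) := by
    refine QuadAt.gam D (τ' := fun X => τ₁ (σ X)) (fun X => (h2' X).1) hg
      (fun X => hgx X (mem_univ X)) ?_
    obtain ⟨A, α, β, hf⟩ := hquad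
    exact ⟨A, α, β, fun X => hf (σ X)⟩
  obtain ⟨W, hW, hW0, hW1, hW2⟩ := renorm D U h1 h2 c1 c2 h1' h2' hV'' hV''0
  obtain ⟨X, hX⟩ := hW0
  exact hX (no_quad D U h1 h2 c1 c2 h1' h2' hW hW1 (hW2 hquad2) X)

end Pool.Agent.T05
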