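import Pool.Agent.Lib.MP_0162a5_an.A5
import Pool.Agent.Lib.MP_0162a5_an.B
import Pool.Agent.Lib.MP_0162a5_an.F3

set_option autoImplicit false

namespace Pool.Agent.T05

theorem not_QX : ¬ QX := by
  obtain ⟨D⟩ := modularData_exists
  obtain ⟨U⟩ := univCover_exists D
  exact rigid D U

theorem not_Q1 : ¬ Q1 := by
  intro hQ
  refine not_QX ⟨4, le_rfl, ?_⟩
  intro d k R hR e hinj S hS b hb
  have hconn : ConnectedSpace (Metric.closedBall (0 : Fin d → ℝ) R) :=
    isConnected_iff_connectedSpace.1 ((convex_closedBall (0 : Fin d → ℝ) R).isConnected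
      ⟨0, Metric.mem_closedBall_self hR.le⟩)
  exact Ext.use_Q1 hQ hR (Homeomorph.refl _) e hinj S hS 4 b hb

end Pool.Agent.T05
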