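import Pool.Agent.Lib.MP_0162a5_an.Defs

/-! MODULE O: holomorphic functions of two variables.  (norm on ℂ × ℂ = sup norm, balls = bidiscs)
-/

set_option autoImplicit false

open Complex Metric Set Filter Topology

namespace Pool.Agent.T05

/-- continuity of the first partial derivative of a continuous function that is holomorphic in the
first variable -/
theorem OA.continuousAt_deriv_fst {U : Set (ℂ × ℂ)} (hU : IsOpen U) {f : ℂ × ℂ → ℂ}
    (hc : ContinuousOn f U)
    (h1 : ∀ p ∈ U, DifferentiableAt ℂ (fun z => f (z, p.2)) p.1) (p : ℂ × ℂ) (hp : p ∈ U) :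
    ContinuousAt (fun q : ℂ × ℂ => deriv (fun z => f (z, q.2)) q.1) p := by
  obtain ⟨r, hr, hrU⟩ := Metric.isOpen_iff.1 hU p hp
  have hmem : ∀ z ∈ ball p.1 r, ∀ w ∈ ball p.2 r, (z, w) ∈ U := by
    intro z hz w hw
    apply hrU
    rw [mem_ball, Prod.dist_eq]
    exact max_lt hz hw
  set F : ℂ → ℂ → ℂ := fun w z => f (z, w) with hF
  have hcat : ∀ q ∈ U, ContinuousAt f q := fun q hq => hc.continuousAt (hU.mem_nhds hq)
  have hlu : TendstoLocallyUniformlyOn F (F p.2) (𝓝 p.2) (ball p.1 r) := by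
    rw [isOpen_ball.tendstoLocallyUniformlyOn_iff_forall_tendsto]
    intro x hx
    have hq : (x, p.2) ∈ U := hmem x hx _ (mem_ball_self hr)
    have h2 : Tendsto (fun y : ℂ × ℂ => f (y.2, y.1)) (𝓝 p.2 ×ˢ 𝓝 x) (𝓝 (f (x, p.2))) := by
      rw [← nhds_prod_eq]
      have : ContinuousAt (fun y : ℂ × ℂ => f (y.2, y.1)) (p.2, x) := by
        apply ContinuousAt.comp (g := f) (f := fun y : ℂ × ℂ => (y.2, y.1))
        · exact hcat _ hq
        · exact (continuous_snd.prodMk continuous_fst).continuousAt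
      exact this
    have h3 : Tendsto (fun y : ℂ × ℂ => f (y.2, p.2)) (𝓝 p.2 ×ˢ 𝓝 x) (𝓝 (f (x, p.2))) := by
      rw [← nhds_prod_eq]
      have : ContinuousAt (fun y : ℂ × ℂ => f (y.2, p.2)) (p.2, x) := by
        apply ContinuousAt.comp (g := f) (f := fun y : ℂ × ℂ => (y.2, p.2))
        · exact hcat _ hq
        · exact (continuous_snd.prodMk continuous_const).continuousAt
      exact this
    exact (h3.prodMk_nhds h2).mono_right (nhds_le_uniformity _)
  have hFd : ∀ w ∈ ball p.2 r, DifferentiableOn ℂ (F w) (ball p.1 r) := fun w hw z hz =>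
    (h1 (z, w) (hmem z hz w hw)).differentiableWithinAt
  have hder := hlu.deriv (by
    filter_upwards [ball_mem_nhds p.2 hr] with w hw
    exact hFd w hw) isOpen_ball
  rw [isOpen_ball.tendstoLocallyUniformlyOn_iff_forall_tendsto] at hder
  have hp1 : p.1 ∈ ball p.1 r := mem_ball_self hr
  have h4 := hder p.1 hp1
  have hcd : ContinuousAt (deriv (F p.2)) p.1 :=
    (((hFd p.2 (mem_ball_self hr)).deriv isOpen_ball).differentiableAt
      (isOpen_ball.mem_nhds hp1)).continuousAt
  have h5 : Tendsto (fun y : ℂ × ℂ => deriv (F p.2) y.2) (𝓝 p.2 ×ˢ 𝓝 p.1)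
      (𝓝 (deriv (F p.2) p.1)) := hcd.tendsto.comp tendsto_snd
  have h6 := h5.congr_uniformity h4
  rw [ContinuousAt, nhds_prod_eq]
  have h7 := h6.comp (tendsto_snd.prodMk tendsto_fst : Tendsto (fun q : ℂ × ℂ => (q.2, q.1))
    (𝓝 p.1 ×ˢ 𝓝 p.2) (𝓝 p.2 ×ˢ 𝓝 p.1))
  exact h7

theorem OA.continuousAt_deriv_snd {U : Set (ℂ × ℂ)} (hU : IsOpen U) {f : ℂ × ℂ → ℂ}
    (hc : ContinuousOn f U)
    (h2 : ∀ p ∈ U, DifferentiableAt ℂ (fun w => f (p.1, w)) p.2) (p : ℂ × ℂ) (hp : p ∈ U) :
    ContinuousAt (fun q : ℂ × ℂ => deriv (fun w => f (q.1, w)) q.2) p := by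
  have h := OA.continuousAt_deriv_fst (U := Prod.swap ⁻¹' U) (f := f ∘ Prod.swap)
    (hU.preimage continuous_swap) (hc.comp continuous_swap.continuousOn (fun x hx => hx))
    (fun q hq => h2 q.swap hq) p.swap (by simpa using hp)
  exact ContinuousAt.comp (g := fun q : ℂ × ℂ => deriv (fun z => (f ∘ Prod.swap) (z, q.2)) q.1)
    (f := Prod.swap) h continuous_swap.continuousAt

theorem osgood {U : Set (ℂ × ℂ)} (hU : IsOpen U) {f : ℂ × ℂ → ℂ} (hc : ContinuousOn f U)
    (h1 : ∀ p ∈ U, DifferentiableAt ℂ (fun z => f (z, p.2)) p.1)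
    (h2 : ∀ p ∈ U, DifferentiableAt ℂ (fun w => f (p.1, w)) p.2) : DifferentiableOn ℂ f U := by
  intro p hp
  have hs := hasStrictFDerivAt_uncurry_coprod (𝕜 := ℂ) (u := p) (f := fun z w => f (z, w))
    (f₁ := fun z w => ContinuousLinearMap.toSpanSingleton ℂ (deriv (fun z => f (z, w)) z))
    (f₂ := fun z w => ContinuousLinearMap.toSpanSingleton ℂ (deriv (fun w => f (z, w)) w))
    (by
      filter_upwards [hU.mem_nhds hp] with q hq
      exact (h1 q hq).hasDerivAt.hasFDerivAt)
    (by
      filter_upwards [hU.mem_nhds hp] with q hq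
      exact (h2 q hq).hasDerivAt.hasFDerivAt)
    ((ContinuousLinearMap.toSpanSingletonCLE (𝕜 := ℂ) (E := ℂ)).continuous.continuousAt.comp
      (OA.continuousAt_deriv_fst hU hc h1 p hp))
    ((ContinuousLinearMap.toSpanSingletonCLE (𝕜 := ℂ) (E := ℂ)).continuous.continuousAt.comp
      (OA.continuousAt_deriv_snd hU hc h2 p hp))
  exact hs.hasFDerivAt.differentiableAt.differentiableWithinAt

/-- the complex line `t ↦ f (z + t v)` -/
theorem OA.hasDerivAt_line {V : Type*} [NormedAddCommGroup V] [NormedSpace ℂ V] {g : ℂ × ℂ → V}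
    {z v : ℂ × ℂ} {t : ℂ} (hg : DifferentiableAt ℂ g (z + t • v)) :
    HasDerivAt (fun t : ℂ => g (z + t • v)) (fderiv ℂ g (z + t • v) v) t := by
  have h1 : HasDerivAt (fun t : ℂ => z + t • v) v t := by
    have := (hasDerivAt_id t).smul_const v
    simpa using this.const_add z
  exact hg.hasFDerivAt.comp_hasDerivAt t h1

theorem identity_ball {p : ℂ × ℂ} {r : ℝ} {f : ℂ × ℂ → ℂ} (hf : DifferentiableOn ℂ f (ball p r))
    {q : ℂ × ℂ} (hq : q ∈ ball p r) (h0 : ∀ᶠ z in 𝓝 q, f z = 0) : ∀ z ∈ ball p r, f z = 0 := by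
  intro z hz
  set V : Set ℂ := (fun t : ℂ => q + t • (z - q)) ⁻¹' (ball p r) with hV
  have hcont : Continuous (fun t : ℂ => q + t • (z - q)) :=
    continuous_const.add (continuous_id.smul continuous_const)
  have hVo : IsOpen V := isOpen_ball.preimage hcont
  have hVc : Convex ℝ V := by
    intro s hs t ht a b ha hb hab
    have h1 : q + (a • s + b • t) • (z - q) = a • (q + s • (z - q)) + b • (q + t • (z - q)) := by
      have h2 : a • q + b • q = q := by rw [← add_smul, hab, one_smul]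
      calc q + (a • s + b • t) • (z - q) = (a • q + b • q) + (a • s + b • t) • (z - q) := by
            rw [h2]
        _ = a • (q + s • (z - q)) + b • (q + t • (z - q)) := by
            generalize z - q = y
            simp only [smul_add, add_smul, smul_assoc]
            abel
    have := (convex_ball p r) hs ht ha hb hab
    simp only [hV, mem_preimage]
    rw [h1]
    exact this
  have hd : DifferentiableOn ℂ (fun t : ℂ => f (q + t • (z - q))) V := by
    intro t ht
    exact (OA.hasDerivAt_line (hf.differentiableAt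
      (isOpen_ball.mem_nhds ht))).differentiableAt.differentiableWithinAt
  have h0V : (0 : ℂ) ∈ V := by simpa [hV] using hq
  have h1V : (1 : ℂ) ∈ V := by
    simp only [hV, mem_preimage, one_smul]
    rw [add_sub_cancel]; exact hz
  have hev : (fun t : ℂ => f (q + t • (z - q))) =ᶠ[𝓝 0] 0 := by
    have : Tendsto (fun t : ℂ => q + t • (z - q)) (𝓝 0) (𝓝 q) := by
      have := hcont.tendsto 0
      simpa using this
    exact this.eventually h0
  have hres := (hd.analyticOnNhd hVo).eqOn_zero_of_preconnected_of_eventuallyEq_zero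
    hVc.isPreconnected h0V hev h1V
  simpa using hres

theorem OA.diffOn_of_limit_scalar {ι : Type*} {l : Filter ι} [l.NeBot] {U : Set (ℂ × ℂ)}
    (hU : IsOpen U) {F : ι → ℂ × ℂ → ℂ} {f : ℂ × ℂ → ℂ}
    (hF : ∀ᶠ n in l, DifferentiableOn ℂ (F n) U)
    (h : TendstoLocallyUniformlyOn F f l U) : DifferentiableOn ℂ f U := by
  apply osgood hU
  · exact h.continuousOn (hF.mono fun n hn => hn.continuousOn).frequently
  · intro p hp
    set V : Set ℂ := (fun z : ℂ => (z, p.2)) ⁻¹' U with hV
    have hc : Continuous (fun z : ℂ => (z, p.2)) := continuous_id.prodMk continuous_const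
    have hVo : IsOpen V := hU.preimage hc
    have h1 : TendstoLocallyUniformlyOn (fun n => (F n) ∘ (fun z : ℂ => (z, p.2)))
      (f ∘ (fun z : ℂ => (z, p.2))) l V := h.comp _ (fun z hz => hz) hc.continuousOn
    have h2 := h1.differentiableOn (by
      filter_upwards [hF] with n hn
      refine DifferentiableOn.comp (g := F n) (f := fun z : ℂ => (z, p.2)) (t := U) hn ?_
        (fun z hz => hz)
      intro z hz
      exact (differentiableAt_id.prodMk (differentiableAt_const _)).differentiableWithinAt) hVo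
    exact h2.differentiableAt (hVo.mem_nhds hp)
  · intro p hp
    set V : Set ℂ := (fun z : ℂ => (p.1, z)) ⁻¹' U with hV
    have hc : Continuous (fun z : ℂ => (p.1, z)) := continuous_const.prodMk continuous_id
    have hVo : IsOpen V := hU.preimage hc
    have h1 : TendstoLocallyUniformlyOn (fun n => (F n) ∘ (fun z : ℂ => (p.1, z)))
      (f ∘ (fun z : ℂ => (p.1, z))) l V := h.comp _ (fun z hz => hz) hc.continuousOn
    have h2 := h1.differentiableOn (by
      filter_upwards [hF] with n hn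
      refine DifferentiableOn.comp (g := F n) (f := fun z : ℂ => (p.1, z)) (t := U) hn ?_
        (fun z hz => hz)
      intro z hz
      exact ((differentiableAt_const _).prodMk differentiableAt_id).differentiableWithinAt) hVo
    exact h2.differentiableAt (hVo.mem_nhds hp)

theorem diffOn_of_limit {ι : Type*} {l : Filter ι} [l.NeBot] {U : Set (ℂ × ℂ)} (hU : IsOpen U)
    {F : ι → ℂ × ℂ → ℂ × ℂ} {f : ℂ × ℂ → ℂ × ℂ}
    (hF : ∀ᶠ n in l, DifferentiableOn ℂ (F n) U)
    (h : TendstoLocallyUniformlyOn F f l U) : DifferentiableOn ℂ f U := by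
  have h1 : DifferentiableOn ℂ (fun z => (f z).1) U := by
    apply OA.diffOn_of_limit_scalar (l := l) hU (F := fun n z => (F n z).1)
    · filter_upwards [hF] with n hn
      exact hn.fst
    · exact uniformContinuous_fst.comp_tendstoLocallyUniformlyOn h
  have h2 : DifferentiableOn ℂ (fun z => (f z).2) U := by
    apply OA.diffOn_of_limit_scalar (l := l) hU (F := fun n z => (F n z).2)
    · filter_upwards [hF] with n hn
      exact hn.snd
    · exact uniformContinuous_snd.comp_tendstoLocallyUniformlyOn h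
  exact h1.prodMk h2

theorem cauchy_lip {R r C : ℝ} (hr : 0 < r) (hrR : r < R) {p : ℂ × ℂ} {f : ℂ × ℂ → ℂ × ℂ}
    (hf : DifferentiableOn ℂ f (ball p R)) (hC : ∀ z ∈ ball p R, ‖f z‖ ≤ C) :
    ∀ a ∈ ball p r, ∀ b ∈ ball p r, ‖f a - f b‖ ≤ C / (R - r) * ‖a - b‖ := by
  intro a ha b hb
  have hC0 : 0 ≤ C := (norm_nonneg _).trans (hC p (mem_ball_self (hr.trans hrR)))
  have hρ : 0 < R - r := by linarith
  have hsub : ball p r ⊆ ball p R := ball_subset_ball hrR.le
  apply (convex_ball p r).norm_image_sub_le_of_norm_fderiv_le (𝕜 := ℂ) (f := f)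
    (fun z hz => hf.differentiableAt (isOpen_ball.mem_nhds (hsub hz))) _ hb ha
  intro z hz
  apply ContinuousLinearMap.opNorm_le_of_unit_norm (𝕜 := ℂ) (by positivity)
  intro u hu
  have hmem : ∀ t : ℂ, ‖t‖ ≤ R - r → z + t • u ∈ ball p R := by
    intro t ht
    rw [mem_ball_iff_norm] at hz ⊢
    calc ‖z + t • u - p‖ = ‖(z - p) + t • u‖ := by congr 1; abel
      _ ≤ ‖z - p‖ + ‖t • u‖ := norm_add_le _ _
      _ = ‖z - p‖ + ‖t‖ := by rw [norm_smul, hu, mul_one]
      _ < R := by linarith
  have hd : DifferentiableOn ℂ (fun t : ℂ => f (z + t • u)) (closedBall 0 (R - r)) := by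
    intro t ht
    rw [mem_closedBall_zero_iff] at ht
    exact (OA.hasDerivAt_line (hf.differentiableAt
      (isOpen_ball.mem_nhds (hmem t ht)))).differentiableAt.differentiableWithinAt
  have h1 : fderiv ℂ f z u = deriv (fun t : ℂ => f (z + t • u)) 0 := by
    have := (OA.hasDerivAt_line (g := f) (z := z) (v := u) (t := 0)
      (by simpa using hf.differentiableAt (isOpen_ball.mem_nhds (hsub hz)))).deriv
    simpa using this.symm
  rw [h1]
  apply Complex.norm_deriv_le_of_forall_mem_sphere_norm_le hρ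
  · apply DifferentiableOn.diffContOnCl
    rw [closure_ball _ hρ.ne']
    exact hd
  · intro t ht
    rw [mem_sphere_zero_iff_norm] at ht
    exact hC _ (hmem t ht.le)

theorem montel {ι : Type*} (l : Ultrafilter ι) {p : ℂ × ℂ} {r : ℝ} {F : ι → ℂ × ℂ → ℂ × ℂ}
    (hF : ∀ᶠ n in (l : Filter ι), DifferentiableOn ℂ (F n) (ball p r))
    (hb : ∀ ρ < r, ∃ C : ℝ, ∀ᶠ n in (l : Filter ι), ∀ z ∈ ball p ρ, ‖F n z‖ ≤ C) :
    ∃ f : ℂ × ℂ → ℂ × ℂ, DifferentiableOn ℂ f (ball p r) ∧
      TendstoLocallyUniformlyOn F f (l : Filter ι) (ball p r) := by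
  have hpt : ∀ z : ℂ × ℂ, ∃ w : ℂ × ℂ, z ∈ ball p r → Tendsto (fun n => F n z) l (𝓝 w) := by
    intro z
    by_cases hz : z ∈ ball p r
    · rw [mem_ball] at hz
      obtain ⟨C, hC⟩ := hb ((dist z p + r) / 2) (by linarith)
      have h1 : ∀ᶠ n in (l : Filter ι), F n z ∈ closedBall (0 : ℂ × ℂ) C := by
        filter_upwards [hC] with n hn
        rw [mem_closedBall_zero_iff]
        exact hn z (by rw [mem_ball]; linarith)
      obtain ⟨w, -, hw⟩ := (isCompact_closedBall (0 : ℂ × ℂ) C).ultrafilter_le_nhds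
        (l.map (fun n => F n z)) (le_principal_iff.2 h1)
      exact ⟨w, fun _ => hw⟩
    · exact ⟨0, fun h => absurd h hz⟩
  choose f hf using hpt
  have hlu : TendstoLocallyUniformlyOn F f (l : Filter ι) (ball p r) := by
    rw [Metric.tendstoLocallyUniformlyOn_iff]
    intro ε hε x hx
    have hx' := mem_ball.1 hx
    have hr : 0 < r := lt_of_le_of_lt dist_nonneg hx'
    set r1 := (dist x p + r) / 2 with hr1
    have hr1x : dist x p < r1 := by rw [hr1]; linarith
    have hr1r : r1 < r := by rw [hr1]; linarith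
    have hr10 : 0 < r1 := lt_of_le_of_lt dist_nonneg hr1x
    set R1 := (r1 + r) / 2 with hR1
    have hR1r : R1 < r := by rw [hR1]; linarith
    have hr1R1 : r1 < R1 := by rw [hR1]; linarith
    obtain ⟨C, hC⟩ := hb R1 hR1r
    set K := max (C / (R1 - r1)) 0 + 1 with hK
    have hK0 : 0 < K := by positivity
    have hLip : ∀ᶠ n in (l : Filter ι), ∀ a ∈ ball p r1, ∀ b ∈ ball p r1,
        ‖F n a - F n b‖ ≤ K * ‖a - b‖ := by
      filter_upwards [hC, hF] with n hn hFn a ha b hb'
      have := cauchy_lip hr10 hr1R1 (hFn.mono (ball_subset_ball hR1r.le)) hn a ha b hb'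
      refine this.trans (mul_le_mul_of_nonneg_right ?_ (norm_nonneg _))
      have := le_max_left (C / (R1 - r1)) 0
      linarith
    have hfLip : ∀ a ∈ ball p r1, ∀ b ∈ ball p r1, ‖f a - f b‖ ≤ K * ‖a - b‖ := by
      intro a ha b hb'
      have h1 := (hf a (ball_subset_ball hr1r.le ha)).sub (hf b (ball_subset_ball hr1r.le hb'))
      apply le_of_tendsto h1.norm
      filter_upwards [hLip] with n hn
      exact hn a ha b hb'
    refine ⟨ball p r1 ∩ ball x (ε / (3 * K)), mem_nhdsWithin_of_mem_nhds (Filter.inter_mem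
      (isOpen_ball.mem_nhds (mem_ball.2 hr1x)) (ball_mem_nhds x (by positivity))), ?_⟩
    have h2 : ∀ᶠ n in (l : Filter ι), dist (F n x) (f x) < ε / 3 :=
      (Metric.tendsto_nhds.1 (hf x hx)) _ (by positivity)
    filter_upwards [h2, hLip] with n hn1 hn2 y hy
    have hxr1 : x ∈ ball p r1 := mem_ball.2 hr1x
    have h3 := hn2 x hxr1 y hy.1
    have h4 := hfLip y hy.1 x hxr1
    have h5 : ‖y - x‖ < ε / (3 * K) := mem_ball_iff_norm.1 hy.2
    have h6 : K * ‖y - x‖ < ε / 3 := by
      calc K * ‖y - x‖ < K * (ε / (3 * K)) := mul_lt_mul_of_pos_left h5 hK0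
        _ = ε / 3 := by field_simp
    rw [norm_sub_rev x y] at h3
    rw [dist_eq_norm, norm_sub_rev] at hn1
    rw [dist_eq_norm]
    calc ‖f y - F n y‖ = ‖(f y - f x) + (f x - F n x) + (F n x - F n y)‖ := by congr 1; abel
      _ ≤ ‖f y - f x‖ + ‖f x - F n x‖ + ‖F n x - F n y‖ := norm_add₃_le
      _ < ε := by linarith
  exact ⟨f, diffOn_of_limit isOpen_ball hF hlu, hlu⟩

theorem two_const {r' r R : ℝ} (h0 : 0 < r') (h1 : r' < r) (h2 : r < R) (C : ℝ) :
    ∃ θ ∈ Ioo (0 : ℝ) 1, ∃ C1 : ℝ, 0 < C1 ∧ ∀ (p : ℂ × ℂ) (f : ℂ × ℂ → ℂ × ℂ),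
      DifferentiableOn ℂ f (ball p R) → (∀ z ∈ ball p R, ‖f z‖ ≤ C) →
      ∀ δ : ℝ, 0 < δ → δ ≤ 1 → (∀ z ∈ ball p r', ‖f z‖ ≤ δ) →
      ∀ z ∈ ball p r, ‖f z‖ ≤ C1 * δ ^ θ := by
  have hr0 : 0 < r := h0.trans h1
  set R2 := (r + R) / 2 with hR2
  have hR2r : r < R2 := by rw [hR2]; linarith
  have hR2R : R2 < R := by rw [hR2]; linarith
  have hR20 : 0 < R2 := hr0.trans hR2r
  set a := Real.log (r' / 2) with ha
  set b := Real.log R2 with hb
  set c := Real.log r with hc
  have hac : a < c := Real.log_lt_log (by positivity) (by linarith)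
  have hcb : c < b := Real.log_lt_log hr0 hR2r
  have hab : a < b := hac.trans hcb
  set s := (c - a) / (b - a) with hs
  have hs0 : 0 < s := by rw [hs]; exact div_pos (by linarith) (by linarith)
  have hs1 : s < 1 := by rw [hs, div_lt_one (by linarith)]; linarith
  set C0 := max C 1 with hC0
  have hC01 : 1 ≤ C0 := le_max_right _ _
  refine ⟨1 - s, ⟨by linarith, by linarith⟩, C0, by linarith, ?_⟩
  intro p f hf hfC δ hδ hδ1 hfδ z hz
  have hδθ : δ ≤ δ ^ (1 - s) := by
    calc δ = δ ^ (1 : ℝ) := (Real.rpow_one δ).symm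
      _ ≤ δ ^ (1 - s) := Real.rpow_le_rpow_of_exponent_ge hδ hδ1 (by linarith)
  have hpos : 0 < δ ^ (1 - s) := Real.rpow_pos_of_pos hδ _
  by_cases hzr : ‖z - p‖ < r'
  · have h3 := hfδ z (mem_ball_iff_norm.2 hzr)
    nlinarith
  · push Not at hzr
    have hzp : 0 < ‖z - p‖ := lt_of_lt_of_le h0 hzr
    set v : ℂ × ℂ := ((‖z - p‖⁻¹ : ℝ) : ℂ) • (z - p) with hv
    have hvn : ‖v‖ = 1 := by
      rw [hv, norm_smul, Complex.norm_real, norm_inv, norm_norm]
      exact inv_mul_cancel₀ hzp.ne'
    have hn : ∀ w : ℂ, ‖Complex.exp w • v‖ = Real.exp w.re := by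
      intro w; rw [norm_smul, hvn, mul_one, Complex.norm_exp]
    have hmem : ∀ w : ℂ, w.re ≤ b → p + Complex.exp w • v ∈ ball p R := by
      intro w hw
      rw [mem_ball_iff_norm, add_sub_cancel_left, hn]
      calc Real.exp w.re ≤ Real.exp b := Real.exp_le_exp.2 hw
        _ = R2 := Real.exp_log hR20
        _ < R := hR2R
    have hd : DifferentiableOn ℂ (fun w : ℂ => f (p + Complex.exp w • v)) (re ⁻¹' Icc a b) := by
      intro w hw
      have hw2 : w.re ≤ b := hw.2
      have h3 := (OA.hasDerivAt_line (g := f) (z := p) (v := v) (t := Complex.exp w)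
        (hf.differentiableAt (isOpen_ball.mem_nhds (hmem w hw2)))).scomp w (Complex.hasDerivAt_exp w)
      exact h3.differentiableAt.differentiableWithinAt
    have hbd : ∀ w : ℂ, w.re ≤ b → ‖f (p + Complex.exp w • v)‖ ≤ C0 := fun w hw =>
      (hfC _ (hmem w hw)).trans (le_max_left _ _)
    have hx : Complex.exp ((Real.log ‖z - p‖ : ℝ) : ℂ) = ((‖z - p‖ : ℝ) : ℂ) := by
      rw [← Complex.ofReal_exp, Real.exp_log hzp]
    have hfz : p + Complex.exp ((Real.log ‖z - p‖ : ℝ) : ℂ) • v = z := by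
      rw [hx, hv, smul_smul, ← Complex.ofReal_mul, mul_inv_cancel₀ hzp.ne', Complex.ofReal_one,
        one_smul]
      abel
    set x := Real.log ‖z - p‖ with hxdef
    have hxc : x < c := Real.log_lt_log hzp (mem_ball_iff_norm.1 hz)
    have hax : a < x := Real.log_lt_log (by positivity) (by linarith)
    have key := Complex.HadamardThreeLines.norm_le_interp_of_mem_verticalClosedStrip'
      (f := fun w : ℂ => f (p + Complex.exp w • v)) (z := (x : ℂ)) (a := δ) (b := C0) (l := a)
      (u := b) hab (by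
        change (x : ℂ).re ∈ Icc a b
        rw [Complex.ofReal_re]
        exact ⟨hax.le, by linarith⟩)
      (by
        apply DifferentiableOn.diffContOnCl
        apply hd.mono
        apply closure_minimal
        · intro w hw
          exact ⟨hw.1.le, hw.2.le⟩
        · exact isClosed_Icc.preimage Complex.continuous_re)
      (by
        refine ⟨C0, ?_⟩
        rintro _ ⟨w, hw, rfl⟩
        exact hbd w hw.2)
      (by
        intro w hw
        have hw' : w.re = a := hw
        apply hfδ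
        rw [mem_ball_iff_norm, add_sub_cancel_left, hn, hw', ha, Real.exp_log (by positivity)]
        linarith)
      (by
        intro w hw
        have hw' : w.re = b := hw
        exact hbd w hw'.le)
    simp only [Complex.ofReal_re] at key
    rw [hfz] at key
    have hs' : (x - a) / (b - a) ≤ s := by
      rw [hs]; exact div_le_div_of_nonneg_right (by linarith) (by linarith)
    have hs'0 : 0 ≤ (x - a) / (b - a) := div_nonneg (by linarith) (by linarith)
    refine key.trans ?_
    rw [mul_comm]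
    apply mul_le_mul _ _ (Real.rpow_nonneg hδ.le _) (by linarith)
    · calc C0 ^ ((x - a) / (b - a)) ≤ C0 ^ (1 : ℝ) :=
            Real.rpow_le_rpow_of_exponent_le hC01 (by linarith)
        _ = C0 := Real.rpow_one _
    · exact Real.rpow_le_rpow_of_exponent_ge hδ hδ1 (by linarith)

end Pool.Agent.T05
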