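import Pool.Agent.Lib.MP_0162a5_an.T

/-! Schottky type bounds. -/

set_option autoImplicit false

open Complex Metric Set Filter Topology

namespace Pool.Agent.T05

/-- the key consequence of the Schwarz lemma -/
theorem schwarz_HH {G : ℂ → ℂ} (hG : DifferentiableOn ℂ G (ball 0 1)) (hM : MapsTo G (ball 0 1) HH)
    {ρ : ℝ} (hρ0 : 0 < ρ) (hρ : ρ < 1) {z₀ z : ℂ} (hz₀ : z₀ ∈ closedBall (0 : ℂ) ρ)
    (hz : z ∈ closedBall (0 : ℂ) ρ) :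
    ‖G z - G z₀‖ ≤ (2 * ρ / (1 + ρ ^ 2)) * ‖G z - (starRingEnd ℂ) (G z₀)‖ := by
  have hz0n : ‖z₀‖ ≤ ρ := by simpa using hz₀
  have hzn : ‖z‖ ≤ ρ := by simpa using hz
  set a := G z₀ with ha
  have haH : 0 < a.im := hM (mem_ball_zero_iff.2 (by linarith))
  -- the map g = φ ∘ G ∘ ψ
  have hden1 : ∀ ζ ∈ ball (0 : ℂ) 1, (1 + (starRingEnd ℂ) z₀ * ζ) ≠ 0 := by
    intro ζ hζ h
    have h1 : ‖(starRingEnd ℂ) z₀ * ζ‖ = 1 := by
      have : (starRingEnd ℂ) z₀ * ζ = -1 := by linear_combination h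
      rw [this]; simp
    rw [norm_mul, RCLike.norm_conj] at h1
    have h2 : ‖ζ‖ < 1 := by simpa using hζ
    nlinarith [norm_nonneg z₀, norm_nonneg ζ]
  let ψ : ℂ → ℂ := fun ζ => (ζ + z₀) / (1 + (starRingEnd ℂ) z₀ * ζ)
  have hψd : DifferentiableOn ℂ ψ (ball 0 1) := by
    apply DifferentiableOn.div (by fun_prop) (by fun_prop) hden1
  have hψm : MapsTo ψ (ball 0 1) (ball 0 1) := by
    intro ζ hζ
    have h2 : ‖ζ‖ < 1 := by simpa using hζ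
    have hne := hden1 ζ hζ
    rw [mem_ball_zero_iff]
    change ‖(ζ + z₀) / (1 + (starRingEnd ℂ) z₀ * ζ)‖ < 1
    rw [norm_div, div_lt_one (norm_pos_iff.2 hne)]
    have h3 : ‖ζ + z₀‖ ^ 2 < ‖1 + (starRingEnd ℂ) z₀ * ζ‖ ^ 2 := by
      have e1 : ‖1 + (starRingEnd ℂ) z₀ * ζ‖ ^ 2 - ‖ζ + z₀‖ ^ 2 = (1 - ‖ζ‖ ^ 2) * (1 - ‖z₀‖ ^ 2) := by
        rw [← Complex.normSq_eq_norm_sq, ← Complex.normSq_eq_norm_sq, ← Complex.normSq_eq_norm_sq,
          ← Complex.normSq_eq_norm_sq]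
        simp only [Complex.normSq_apply, Complex.add_re, Complex.add_im, Complex.mul_re,
          Complex.mul_im, Complex.conj_re, Complex.conj_im, Complex.one_re, Complex.one_im]
        ring
      have h4 : 0 < (1 - ‖ζ‖ ^ 2) * (1 - ‖z₀‖ ^ 2) := by
        apply mul_pos
        · nlinarith [norm_nonneg ζ]
        · nlinarith [norm_nonneg z₀]
      linarith
    exact lt_of_pow_lt_pow_left₀ 2 (norm_nonneg _) h3
  have hden2 : ∀ t ∈ HH, t - (starRingEnd ℂ) a ≠ 0 := by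
    intro t ht h
    have : (t - (starRingEnd ℂ) a).im = 0 := by rw [h]; simp
    simp only [Complex.sub_im, Complex.conj_im] at this
    have : 0 < t.im := ht
    linarith
  let φ : ℂ → ℂ := fun t => (t - a) / (t - (starRingEnd ℂ) a)
  have hφd : DifferentiableOn ℂ φ HH := by
    apply DifferentiableOn.div (by fun_prop) (by fun_prop) hden2
  have hφm : MapsTo φ HH (ball 0 1) := by
    intro t ht
    have hne := hden2 t ht
    rw [mem_ball_zero_iff]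
    change ‖(t - a) / (t - (starRingEnd ℂ) a)‖ < 1
    rw [norm_div, div_lt_one (norm_pos_iff.2 hne)]
    have h3 : ‖t - a‖ ^ 2 < ‖t - (starRingEnd ℂ) a‖ ^ 2 := by
      have e1 : ‖t - (starRingEnd ℂ) a‖ ^ 2 - ‖t - a‖ ^ 2 = 4 * t.im * a.im := by
        rw [← Complex.normSq_eq_norm_sq, ← Complex.normSq_eq_norm_sq]
        simp only [Complex.normSq_apply, Complex.sub_re, Complex.sub_im, Complex.conj_re,
          Complex.conj_im]
        ring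
      have h4 : 0 < 4 * t.im * a.im := by
        have : 0 < t.im := ht
        positivity
      linarith
    exact lt_of_pow_lt_pow_left₀ 2 (norm_nonneg _) h3
  let g : ℂ → ℂ := fun ζ => φ (G (ψ ζ))
  have hgd : DifferentiableOn ℂ g (ball 0 1) :=
    hφd.comp (hG.comp hψd hψm) (fun ζ hζ => hM (hψm hζ))
  have hgm : MapsTo g (ball 0 1) (ball 0 1) := fun ζ hζ => hφm (hM (hψm hζ))
  have hψ0 : ψ 0 = z₀ := by simp [ψ]
  have hg0 : g 0 = 0 := by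
    change φ (G (ψ 0)) = 0
    rw [hψ0]; simp [φ, ha]
  -- the point ζ with ψ ζ = z
  have hdz : (1 - (starRingEnd ℂ) z₀ * z) ≠ 0 := by
    intro h
    have h1 : ‖(starRingEnd ℂ) z₀ * z‖ = 1 := by
      have : (starRingEnd ℂ) z₀ * z = 1 := by linear_combination -h
      rw [this]; simp
    rw [norm_mul, RCLike.norm_conj] at h1
    nlinarith [norm_nonneg z₀, norm_nonneg z]
  let ζ : ℂ := (z - z₀) / (1 - (starRingEnd ℂ) z₀ * z)
  have hζn : ‖ζ‖ ≤ 2 * ρ / (1 + ρ ^ 2) := by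
    change ‖(z - z₀) / (1 - (starRingEnd ℂ) z₀ * z)‖ ≤ _
    rw [norm_div, div_le_div_iff₀ (norm_pos_iff.2 hdz) (by positivity)]
    have h3 : (‖z - z₀‖ * (1 + ρ ^ 2)) ^ 2 ≤ (2 * ρ * ‖1 - (starRingEnd ℂ) z₀ * z‖) ^ 2 := by
      have e1 : ‖1 - (starRingEnd ℂ) z₀ * z‖ ^ 2 = ‖z - z₀‖ ^ 2 + (1 - ‖z‖ ^ 2) * (1 - ‖z₀‖ ^ 2) := by
        rw [← Complex.normSq_eq_norm_sq, ← Complex.normSq_eq_norm_sq, ← Complex.normSq_eq_norm_sq,
          ← Complex.normSq_eq_norm_sq]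
        simp only [Complex.normSq_apply, Complex.sub_re, Complex.sub_im, Complex.mul_re,
          Complex.mul_im, Complex.conj_re, Complex.conj_im, Complex.one_re, Complex.one_im]
        ring
      have h4 : (1 - ρ ^ 2) ^ 2 ≤ (1 - ‖z‖ ^ 2) * (1 - ‖z₀‖ ^ 2) := by
        rw [pow_two (1 - ρ ^ 2)]
        apply mul_le_mul
        · nlinarith [norm_nonneg z]
        · nlinarith [norm_nonneg z₀]
        · nlinarith
        · nlinarith [norm_nonneg z]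
      have h5 : ‖z - z₀‖ ≤ 2 * ρ := by
        calc ‖z - z₀‖ ≤ ‖z‖ + ‖z₀‖ := norm_sub_le _ _
          _ ≤ 2 * ρ := by linarith
      have h6 : ‖z - z₀‖ ^ 2 ≤ (2 * ρ) ^ 2 := pow_le_pow_left₀ (norm_nonneg _) h5 2
      rw [mul_pow, mul_pow, e1]
      have h7 : ‖z - z₀‖ ^ 2 * (1 + ρ ^ 2) ^ 2 =
        ‖z - z₀‖ ^ 2 * (1 - ρ ^ 2) ^ 2 + (2 * ρ) ^ 2 * ‖z - z₀‖ ^ 2 := by ring
      rw [h7]
      have h8 : ‖z - z₀‖ ^ 2 * (1 - ρ ^ 2) ^ 2 ≤ (2 * ρ) ^ 2 * (1 - ρ ^ 2) ^ 2 :=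
        mul_le_mul_of_nonneg_right h6 (by positivity)
      have h9 : (2 * ρ) ^ 2 * (1 - ρ ^ 2) ^ 2 ≤ (2 * ρ) ^ 2 * ((1 - ‖z‖ ^ 2) * (1 - ‖z₀‖ ^ 2)) :=
        mul_le_mul_of_nonneg_left h4 (by positivity)
      linarith
    exact (pow_le_pow_iff_left₀ (by positivity) (by positivity) two_ne_zero).1 h3
  have hρ' : 2 * ρ / (1 + ρ ^ 2) < 1 := by
    rw [div_lt_one (by positivity)]
    nlinarith [sq_pos_of_pos (show 0 < 1 - ρ by linarith)]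
  have hζm : ζ ∈ ball (0 : ℂ) 1 := by
    rw [mem_ball_zero_iff]; linarith
  have hψζ : ψ ζ = z := by
    have h1 := hden1 ζ hζm
    change (ζ + z₀) / (1 + (starRingEnd ℂ) z₀ * ζ) = z
    rw [div_eq_iff h1]
    have hq : ζ * (1 - (starRingEnd ℂ) z₀ * z) = z - z₀ := div_mul_cancel₀ _ hdz
    linear_combination hq
  have hfin : ‖g ζ‖ ≤ ‖ζ‖ :=
    Complex.norm_le_norm_of_mapsTo_ball hgd (hgm.mono_right ball_subset_closedBall) hg0
      (by simpa using hζm)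
  have hgz : g ζ = (G z - a) / (G z - (starRingEnd ℂ) a) := by
    change φ (G (ψ ζ)) = _
    rw [hψζ]
  rw [hgz, norm_div] at hfin
  have hGz : G z ∈ HH := hM (mem_ball_zero_iff.2 (by linarith))
  have hpos : 0 < ‖G z - (starRingEnd ℂ) a‖ := norm_pos_iff.2 (hden2 _ hGz)
  rw [div_le_iff₀ hpos] at hfin
  exact hfin.trans (mul_le_mul_of_nonneg_right hζn hpos.le)

/-- compact subsets of `C01` are covered by compact subsets of `HH` -/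
theorem exists_compact_cover_HH (D : ModularData) {K : Set ℂ} (hK : IsCompact K)
    (hKM : K ⊆ C01) : ∃ K' : Set ℂ, IsCompact K' ∧ K' ⊆ HH ∧ ∀ p ∈ K, ∃ t ∈ K', D.lam t = p := by
  have key : ∀ p ∈ K, ∃ V ∈ 𝓝[K] p, ∃ K' : Set ℂ, IsCompact K' ∧ K' ⊆ HH ∧
      ∀ q ∈ V, ∃ t ∈ K', D.lam t = q := by
    intro p hp
    obtain ⟨t, ht, htp⟩ := D.lam_surj p (hKM hp)
    obtain ⟨r, hr, hrM⟩ := Metric.isOpen_iff.1 HH_isOpen t ht
    have hsub : closedBall t (r / 2) ⊆ HH :=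
      (closedBall_subset_ball (by linarith)).trans hrM
    have hmap : 𝓝 (D.lam t) ≤ map D.lam (𝓝 t) :=
      ((lam_hasStrict D ht).map_nhds_eq (D.lam_deriv t ht)).ge
    refine ⟨D.lam '' closedBall t (r / 2), mem_nhdsWithin_of_mem_nhds ?_,
      closedBall t (r / 2), isCompact_closedBall _ _, hsub, fun q hq => hq⟩
    rw [← htp]
    exact hmap (image_mem_map (closedBall_mem_nhds t (by linarith)))
  refine hK.induction_on (p := fun V => ∃ K' : Set ℂ, IsCompact K' ∧ K' ⊆ HH ∧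
      ∀ q ∈ V, ∃ t ∈ K', D.lam t = q)
    ⟨∅, isCompact_empty, by simp, by simp⟩ ?_ ?_ key
  · rintro V W hVW ⟨K', h1, h2, h3⟩
    exact ⟨K', h1, h2, fun q hq => h3 q (hVW hq)⟩
  · rintro V W ⟨K', h1, h2, h3⟩ ⟨K'', h1', h2', h3'⟩
    refine ⟨K' ∪ K'', h1.union h1', union_subset h2 h2', ?_⟩
    rintro q (hq | hq)
    · obtain ⟨X, hX, hXq⟩ := h3 q hq
      exact ⟨X, Or.inl hX, hXq⟩
    · obtain ⟨X, hX, hXq⟩ := h3' q hq
      exact ⟨X, Or.inr hX, hXq⟩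

/-- boxes in the upper half plane -/
theorem compact_box (M m : ℝ) (hm : 0 < m) :
    IsCompact {t : ℂ | ‖t‖ ≤ M ∧ m ≤ t.im} ∧ {t : ℂ | ‖t‖ ≤ M ∧ m ≤ t.im} ⊆ HH := by
  constructor
  · have h1 : {t : ℂ | ‖t‖ ≤ M ∧ m ≤ t.im} = closedBall 0 M ∩ {t | m ≤ t.im} := by
      ext t; simp
    rw [h1]
    exact (isCompact_closedBall _ _).inter_right (isClosed_le continuous_const Complex.continuous_im)
  · intro t ht
    exact lt_of_lt_of_le hm ht.2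

theorem exists_box {K : Set ℂ} (hK : IsCompact K) (hKH : K ⊆ HH) :
    ∃ M m : ℝ, 0 < M ∧ 0 < m ∧ ∀ t ∈ K, ‖t‖ ≤ M ∧ m ≤ t.im := by
  rcases K.eq_empty_or_nonempty with rfl | hne
  · exact ⟨1, 1, one_pos, one_pos, by simp⟩
  obtain ⟨M, hM⟩ := hK.isBounded.exists_norm_le
  obtain ⟨t, ht, htm⟩ := hK.exists_isMinOn hne Complex.continuous_im.continuousOn
  exact ⟨max M 1, t.im, by positivity, hKH ht, fun s hs => ⟨(hM s hs).trans (le_max_left _ _),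
    htm hs⟩⟩

variable (D : ModularData)
include D

theorem schottky1 {K0 : Set ℂ} (hK : IsCompact K0) (hK1 : K0 ⊆ C01) {ρ : ℝ} (hρ0 : 0 < ρ)
    (hρ : ρ < 1) : ∃ K1 : Set ℂ, IsCompact K1 ∧ K1 ⊆ C01 ∧ ∀ g : ℂ → ℂ,
      DifferentiableOn ℂ g (ball 0 1) → MapsTo g (ball 0 1) C01 →
      ∀ z₀ ∈ closedBall (0 : ℂ) ρ, g z₀ ∈ K0 → ∀ z ∈ closedBall (0 : ℂ) ρ, g z ∈ K1 := by
  obtain ⟨K', hK'c, hK'H, hK'⟩ := exists_compact_cover_HH D hK hK1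
  obtain ⟨M, m, hM, hm, hbox⟩ := exists_box hK'c hK'H
  set ρ' := 2 * ρ / (1 + ρ ^ 2) with hρ'def
  have hρ'0 : 0 < ρ' := by positivity
  have hρ' : ρ' < 1 := by
    rw [hρ'def, div_lt_one (by positivity)]
    nlinarith [sq_pos_of_pos (show 0 < 1 - ρ by linarith)]
  set M' := M + 2 * ρ' * M / (1 - ρ') with hM'
  set m' := (1 - ρ' ^ 2) * m / 4 with hm'
  have hm'0 : 0 < m' := by
    have : 0 < 1 - ρ' ^ 2 := by nlinarith
    positivity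
  obtain ⟨hbc, hbH⟩ := compact_box M' m' hm'0
  refine ⟨D.lam '' {t : ℂ | ‖t‖ ≤ M' ∧ m' ≤ t.im},
    hbc.image_of_continuousOn (D.lam_diff.continuousOn.mono hbH), ?_, ?_⟩
  · rintro _ ⟨t, ht, rfl⟩
    exact D.lam_mem ⟨t, hbH ht⟩
  intro g hg hgM z₀ hz₀ hgz₀ z hz
  have hz0n : ‖z₀‖ ≤ ρ := by simpa using hz₀
  have hzn : ‖z‖ ≤ ρ := by simpa using hz
  have hz0b : z₀ ∈ ball (0 : ℂ) 1 := mem_ball_zero_iff.2 (by linarith)
  have hzb : z ∈ ball (0 : ℂ) 1 := mem_ball_zero_iff.2 (by linarith)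
  obtain ⟨t, htK, htg⟩ := hK' (g z₀) hgz₀
  obtain ⟨G, hGc, hG0, hGl⟩ := lam_lift D (convex_ball (0 : ℂ) 1) hg.continuousOn hgM hz0b
    (hK'H htK) htg
  have hGd : DifferentiableOn ℂ G (ball 0 1) :=
    lam_lift_diff D isOpen_ball hGc (fun b hb => (hGl b hb).1)
      (hg.congr fun b hb => (hGl b hb).2)
  have hS := schwarz_HH hGd (fun b hb => (hGl b hb).1) hρ0 hρ hz₀ hz
  rw [← hρ'def] at hS
  rw [hG0] at hS
  obtain ⟨htM, htm⟩ := hbox t htK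
  have htim : 0 < t.im := lt_of_lt_of_le hm htm
  have hGz : 0 < (G z).im := (hGl z hzb).1
  refine ⟨G z, ⟨?_, ?_⟩, (hGl z hzb).2⟩
  · -- norm bound
    have h1 : ‖G z - (starRingEnd ℂ) t‖ ≤ ‖G z - t‖ + 2 * M := by
      calc ‖G z - (starRingEnd ℂ) t‖ = ‖(G z - t) + (t - (starRingEnd ℂ) t)‖ := by ring_nf
        _ ≤ ‖G z - t‖ + ‖t - (starRingEnd ℂ) t‖ := norm_add_le _ _
        _ ≤ ‖G z - t‖ + 2 * M := by
          have : ‖t - (starRingEnd ℂ) t‖ ≤ ‖t‖ + ‖(starRingEnd ℂ) t‖ := norm_sub_le _ _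
          rw [RCLike.norm_conj] at this
          linarith
    have h2 : ‖G z - t‖ ≤ ρ' * (‖G z - t‖ + 2 * M) :=
      hS.trans (mul_le_mul_of_nonneg_left h1 hρ'0.le)
    have h3 : ‖G z - t‖ ≤ 2 * ρ' * M / (1 - ρ') := by
      rw [le_div_iff₀ (by linarith)]
      nlinarith
    calc ‖G z‖ = ‖t + (G z - t)‖ := by ring_nf
      _ ≤ ‖t‖ + ‖G z - t‖ := norm_add_le _ _
      _ ≤ M' := by rw [hM']; linarith
  · have h1 : ‖G z - t‖ ^ 2 ≤ ρ' ^ 2 * ‖G z - (starRingEnd ℂ) t‖ ^ 2 := by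
      rw [← mul_pow]
      exact pow_le_pow_left₀ (norm_nonneg _) hS 2
    have e1 : ‖G z - (starRingEnd ℂ) t‖ ^ 2 - ‖G z - t‖ ^ 2 = 4 * (G z).im * t.im := by
      rw [← Complex.normSq_eq_norm_sq, ← Complex.normSq_eq_norm_sq]
      simp only [Complex.normSq_apply, Complex.sub_re, Complex.sub_im, Complex.conj_re,
        Complex.conj_im]
      ring
    have e2 : t.im ^ 2 ≤ ‖G z - (starRingEnd ℂ) t‖ ^ 2 := by
      rw [← Complex.normSq_eq_norm_sq]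
      simp only [Complex.normSq_apply, Complex.sub_re, Complex.sub_im, Complex.conj_re,
        Complex.conj_im]
      nlinarith [mul_self_nonneg ((G z).re - t.re), mul_pos hGz htim, mul_pos hGz hGz]
    have h2 : (1 - ρ' ^ 2) * t.im ^ 2 ≤ 4 * (G z).im * t.im := by
      have h3 : 0 < 1 - ρ' ^ 2 := by nlinarith
      calc (1 - ρ' ^ 2) * t.im ^ 2 ≤ (1 - ρ' ^ 2) * ‖G z - (starRingEnd ℂ) t‖ ^ 2 :=
            mul_le_mul_of_nonneg_left e2 h3.le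
        _ = ‖G z - (starRingEnd ℂ) t‖ ^ 2 - ρ' ^ 2 * ‖G z - (starRingEnd ℂ) t‖ ^ 2 := by ring
        _ ≤ ‖G z - (starRingEnd ℂ) t‖ ^ 2 - ‖G z - t‖ ^ 2 := by linarith
        _ = 4 * (G z).im * t.im := e1
    have h4 : (1 - ρ' ^ 2) * t.im ≤ 4 * (G z).im := by
      have : ((1 - ρ' ^ 2) * t.im) * t.im ≤ (4 * (G z).im) * t.im := by
        calc _ = (1 - ρ' ^ 2) * t.im ^ 2 := by ring
          _ ≤ _ := h2
      exact le_of_mul_le_mul_right this htim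
    have h5 : (1 - ρ' ^ 2) * m ≤ (1 - ρ' ^ 2) * t.im :=
      mul_le_mul_of_nonneg_left htm (by nlinarith)
    rw [hm']; linarith

theorem schottky_one {K0 : Set ℂ} (hK : IsCompact K0) (hK1 : K0 ⊆ C01) {ρ : ℝ} (hρ0 : 0 < ρ)
    (hρ : ρ < 1) : ∃ K1 : Set ℂ, IsCompact K1 ∧ K1 ⊆ C01 ∧
      ∀ (p : ℂ × ℂ) (r : ℝ) (f : ℂ × ℂ → ℂ), 0 < r →
      DifferentiableOn ℂ f (ball p r) → MapsTo f (ball p r) C01 →
      ∀ z₀ ∈ closedBall p (ρ * r), f z₀ ∈ K0 → ∀ z ∈ closedBall p (ρ * r), f z ∈ K1 := by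
  obtain ⟨K1, h1, h2, h3⟩ := schottky1 D hK hK1 hρ0 hρ
  obtain ⟨K2, h1', h2', h3'⟩ := schottky1 D h1 h2 hρ0 hρ
  refine ⟨K2, h1', h2', ?_⟩
  intro p r f hr hf hfM z₀ hz₀ hfz₀ z hz
  have aux : ∀ w ∈ closedBall p (ρ * r),
      DifferentiableOn ℂ (fun ζ : ℂ => f (p + ζ • ((ρ⁻¹ : ℂ) • (w - p)))) (ball 0 1) ∧
      MapsTo (fun ζ : ℂ => f (p + ζ • ((ρ⁻¹ : ℂ) • (w - p)))) (ball 0 1) C01 := by
    intro w hw
    have hw' : ‖w - p‖ ≤ ρ * r := by simpa [dist_eq_norm] using hw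
    have hm : MapsTo (fun ζ : ℂ => p + ζ • ((ρ⁻¹ : ℂ) • (w - p))) (ball 0 1) (ball p r) := by
      intro ζ hζ
      have hζ' : ‖ζ‖ < 1 := by simpa using hζ
      rw [mem_ball, dist_eq_norm, add_sub_cancel_left, norm_smul, norm_smul, norm_inv,
        Complex.norm_real, Real.norm_of_nonneg hρ0.le]
      have h4 : ρ⁻¹ * ‖w - p‖ ≤ r := by
        rw [inv_mul_le_iff₀ hρ0]; exact hw'
      have h5 : 0 ≤ ρ⁻¹ * ‖w - p‖ := by positivity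
      nlinarith [norm_nonneg ζ]
    refine ⟨hf.comp (by fun_prop) hm, fun ζ hζ => hfM (hm hζ)⟩
  have hρmem : (ρ : ℂ) ∈ closedBall (0 : ℂ) ρ := by
    simp [abs_of_pos hρ0]
  have h0mem : (0 : ℂ) ∈ closedBall (0 : ℂ) ρ := by simp [hρ0.le]
  have hev : ∀ w : ℂ × ℂ, p + (ρ : ℂ) • ((ρ⁻¹ : ℂ) • (w - p)) = w := by
    intro w
    rw [smul_smul, mul_inv_cancel₀ (by exact_mod_cast hρ0.ne'), one_smul]; abel
  have hp1 : f p ∈ K1 := by
    have := h3 _ (aux z₀ hz₀).1 (aux z₀ hz₀).2 (ρ : ℂ) hρmem (by rw [hev]; exact hfz₀) 0 h0mem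
    simpa using this
  have := h3' _ (aux z hz).1 (aux z hz).2 0 h0mem (by simpa using hp1) (ρ : ℂ) hρmem
  rwa [hev] at this

theorem schottky2 {K0 : Set (ℂ × ℂ)} (hK : IsCompact K0) (hK1 : K0 ⊆ MM) {ρ : ℝ} (hρ0 : 0 < ρ)
    (hρ : ρ < 1) : ∃ K1 : Set (ℂ × ℂ), IsCompact K1 ∧ K1 ⊆ MM ∧
      ∀ (p : ℂ × ℂ) (r : ℝ) (G : ℂ × ℂ → ℂ × ℂ), 0 < r →
      DifferentiableOn ℂ G (ball p r) → MapsTo G (ball p r) MM →
      ∀ z₀ ∈ closedBall p (ρ * r), G z₀ ∈ K0 → ∀ z ∈ closedBall p (ρ * r), G z ∈ K1 := by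
  have hdivc : ContinuousOn (fun q : ℂ × ℂ => q.2 / q.1) MM :=
    ContinuousOn.div continuousOn_snd continuousOn_fst (fun q hq => hq.1)
  have hdivd : DifferentiableOn ℂ (fun q : ℂ × ℂ => q.2 / q.1) MM := by
    intro q hq
    have h1 : DifferentiableAt ℂ (fun q : ℂ × ℂ => q.2) q := differentiableAt_snd
    have h2 : DifferentiableAt ℂ (fun q : ℂ × ℂ => q.1) q := differentiableAt_fst
    have h3 : DifferentiableAt ℂ (fun q : ℂ × ℂ => q.2 * (q.1)⁻¹) q := h1.mul (h2.inv hq.1)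
    simp only [div_eq_mul_inv]
    exact h3.differentiableWithinAt
  have hdivM : MapsTo (fun q : ℂ × ℂ => q.2 / q.1) MM C01 := by
    rintro ⟨u, v⟩ ⟨h1, h2, h3, h4, h5⟩
    simp only at h1 h2 h3 h4 h5
    refine ⟨div_ne_zero h3 h1, fun h => ?_⟩
    rw [div_eq_one_iff_eq h1] at h
    exact h5 h.symm
  obtain ⟨A, hA1, hA2, hA3⟩ := schottky_one D (hK.image continuous_fst)
    (by rintro _ ⟨q, hq, rfl⟩; exact ⟨(hK1 hq).1, (hK1 hq).2.1⟩) hρ0 hρ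
  obtain ⟨B, hB1, hB2, hB3⟩ := schottky_one D (hK.image continuous_snd)
    (by rintro _ ⟨q, hq, rfl⟩; exact ⟨(hK1 hq).2.2.1, (hK1 hq).2.2.2.1⟩) hρ0 hρ
  obtain ⟨C, hC1, hC2, hC3⟩ := schottky_one D (hK.image_of_continuousOn (hdivc.mono hK1))
    (by rintro _ ⟨q, hq, rfl⟩; exact hdivM (hK1 hq)) hρ0 hρ
  have hABc : ContinuousOn (fun q : ℂ × ℂ => q.2 / q.1) (A ×ˢ B) :=
    ContinuousOn.div continuousOn_snd continuousOn_fst (fun q hq => (hA2 hq.1).1)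
  refine ⟨(A ×ˢ B) ∩ (fun q : ℂ × ℂ => q.2 / q.1) ⁻¹' C, ?_, ?_, ?_⟩
  · exact (hA1.prod hB1).of_isClosed_subset
      (hABc.preimage_isClosed_of_isClosed (hA1.prod hB1).isClosed hC1.isClosed) inter_subset_left
  · rintro ⟨u, v⟩ ⟨⟨hu, hv⟩, hw⟩
    refine ⟨(hA2 hu).1, (hA2 hu).2, (hB2 hv).1, (hB2 hv).2, ?_⟩
    simp only
    intro huv
    apply (hC2 hw).2
    simp only
    rw [← huv]
    exact div_self (hA2 hu).1
  · intro p r G hr hG hGM z₀ hz₀ hGz₀ z hz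
    refine ⟨⟨?_, ?_⟩, ?_⟩
    · exact hA3 p r (fun q => (G q).1) hr hG.fst (fun q hq => ⟨(hGM hq).1, (hGM hq).2.1⟩) z₀ hz₀
        ⟨G z₀, hGz₀, rfl⟩ z hz
    · exact hB3 p r (fun q => (G q).2) hr hG.snd
        (fun q hq => ⟨(hGM hq).2.2.1, (hGM hq).2.2.2.1⟩) z₀ hz₀ ⟨G z₀, hGz₀, rfl⟩ z hz
    · exact hC3 p r (fun q => (G q).2 / (G q).1) hr (hdivd.comp hG hGM)
        (fun q hq => hdivM (hGM hq)) z₀ hz₀ ⟨G z₀, hGz₀, rfl⟩ z hz

end Pool.Agent.T05
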